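import Pool.Agent.H.MP_89f84f_ag.q2.Rest

set_option autoImplicit false

open Complex Topology Filter Asymptotics Metric Set Module

namespace Q2T

namespace PerData

variable (S : PerData)

/-- Adjunction inequality.
PROOF: `n = 2 X` large, `G` = even functions of level `n` and order `≥ 2 m` at `0`: `finrank G ≥ 2 d X² + 2 - m²`
(`finrank_even`, `finrank_le_van_even`).  `finrank_restrict` with `Y = 2 m`, `k = 2 d u X - m² + 1` (positive for large `X`) and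
`finrank_mult_le`: `finrank G ≤ finrank (Th (n - u) (-α) (-β) ⊓ Par ε ⊓ Van m 0) + k`, `ε = (-1)^m`.  By `finrank_par` (level `n - u ≡ u`
mod 2, characteristics `-α, -β`) and `finrank_eq_van_even / _odd` (`jets_surj_par`) this dimension is
`((n - u)² d + ε T) / 2 - c`, `c = (m/2)²` for even `m`, `(m² - 1) / 4` for odd `m`.  Comparing:
`4 c ≤ 2 d u² + 2 ε T - 4`. -/
theorem adjunction {u : ℤ} {α β : Fin 2 → ℝ} {s : C2 → ℂ} {m : ℕ} (hu : 1 ≤ u) (hs : s ∈ S.Th u α β)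
    (hs0 : s ≠ 0) (hm : s ∈ Van m 0) (hm' : s ∉ Van (m + 1) 0) (h : 2 * (S.d : ℤ) * u ^ 2 < (m : ℤ) ^ 2)
    (hD : S.Dich s) (hp : s ∈ Par ((-1) ^ m)) (hα : ∀ i, ∃ k : ℤ, 2 * α i = k)
    (hβ : ∀ i, ∃ k : ℤ, 2 * β i = k) :
    ∃ T : ℤ, (Even u → ((∀ i, ∃ k : ℤ, α i = k) ∧ ∀ i, ∃ k : ℤ, β i = k) → T = 4) ∧
      (Even u → ¬ ((∀ i, ∃ k : ℤ, α i = k) ∧ ∀ i, ∃ k : ℤ, β i = k) → T = 0) ∧
      (Odd u → |T| ≤ 2) ∧
      (Even m → (m : ℤ) ^ 2 ≤ 2 * S.d * u ^ 2 + 2 * T - 4) ∧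
      (Odd m → (m : ℤ) ^ 2 ≤ 2 * S.d * u ^ 2 - 2 * T - 3) := by
  have hd : (1 : ℤ) ≤ S.d := by exact_mod_cast S.d_pos
  have hm1 : 1 ≤ m := by
    rcases Nat.eq_zero_or_pos m with h0 | h0
    · exfalso
      rw [h0] at h
      have h1 : 0 ≤ 2 * (S.d : ℤ) * u ^ 2 := by positivity
      norm_num at h
      omega
    · exact h0
  obtain ⟨n₀, hn₀⟩ := S.jets_surj_par m
  -- the level
  obtain ⟨X, hX1, hX2, hX3⟩ : ∃ X : ℤ, (n₀ : ℤ) + u + 1 ≤ 2 * X ∧ 1 ≤ X ∧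
      (m : ℤ) ^ 2 ≤ 2 * S.d * u * X := by
    refine ⟨(n₀ : ℤ) + u + 1 + (m : ℤ) ^ 2, ?_, ?_, ?_⟩
    · have : 0 ≤ (m : ℤ) ^ 2 := by positivity
      have : 0 ≤ (n₀ : ℤ) := by positivity
      linarith
    · have : 0 ≤ (m : ℤ) ^ 2 := by positivity
      have : 0 ≤ (n₀ : ℤ) := by positivity
      linarith
    · have h1 : 0 ≤ (m : ℤ) ^ 2 := by positivity
      have h2 : 0 ≤ (n₀ : ℤ) := by positivity
      have h3 : (1 : ℤ) ≤ 2 * S.d * u := by nlinarith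
      nlinarith
  obtain ⟨v, hv⟩ : ∃ v : ℕ, (v : ℤ) = 2 * X - u :=
    ⟨(2 * X - u).toNat, Int.toNat_of_nonneg (by
      have : 0 ≤ (n₀ : ℤ) := by positivity
      linarith)⟩
  have hv1 : (1 : ℤ) ≤ 2 * X - u := by
    have : 0 ≤ (n₀ : ℤ) := by positivity
    linarith
  have hvn : n₀ ≤ v := by
    have : (n₀ : ℤ) ≤ v := by rw [hv]; linarith
    exact_mod_cast this
  have hα' : ∀ i, ∃ k : ℤ, 2 * (-α) i = k := by
    intro i
    obtain ⟨k, hk⟩ := hα i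
    refine ⟨-k, ?_⟩
    rw [Pi.neg_apply]
    push_cast
    rw [← hk]
    ring
  have hβ' : ∀ i, ∃ k : ℤ, 2 * (-β) i = k := by
    intro i
    obtain ⟨k, hk⟩ := hβ i
    refine ⟨-k, ?_⟩
    rw [Pi.neg_apply]
    push_cast
    rw [← hk]
    ring
  have hint : ∀ γ : Fin 2 → ℝ, (∀ i, ∃ k : ℤ, (-γ) i = k) ↔ ∀ i, ∃ k : ℤ, γ i = k := by
    intro γ
    constructor
    · intro h0 i
      obtain ⟨k, hk⟩ := h0 i
      refine ⟨-k, ?_⟩
      rw [Pi.neg_apply] at hk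
      push_cast
      rw [← hk]
      ring
    · intro h0 i
      obtain ⟨k, hk⟩ := h0 i
      refine ⟨-k, ?_⟩
      rw [Pi.neg_apply, hk]
      push_cast
      ring
  have hev : Even (2 * X - u) ↔ Even u := by
    rw [Int.even_sub]
    simp
  have hod : Odd (2 * X - u) ↔ Odd u := by
    rw [← Int.not_even_iff_odd, ← Int.not_even_iff_odd, hev]
  obtain ⟨T, hT, hT4, hT0, hT2⟩ := S.finrank_par hv1 hα' hβ'
  rw [hint, hint, hev] at hT4
  rw [hint, hint, hev] at hT0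
  rw [hod] at hT2
  -- the even functions
  obtain ⟨k, hk⟩ : ∃ k : ℕ, (k : ℤ) = 2 * S.d * u * X - (m : ℤ) ^ 2 + 1 :=
    ⟨(2 * S.d * u * X - (m : ℤ) ^ 2 + 1).toNat, Int.toNat_of_nonneg (by linarith)⟩
  have hE := S.finrank_even hX2
  have hfin0 : FiniteDimensional ℂ (S.Th (2 * X) 0 0) := S.finite_th _ _ _
  have hfin1 : FiniteDimensional ℂ (S.Th (2 * X) 0 0 ⊓ Par 1 : Submodule ℂ (C2 → ℂ)) :=
    Submodule.finiteDimensional_of_le (inf_le_left : S.Th (2 * X) 0 0 ⊓ Par 1 ≤ S.Th (2 * X) 0 0)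
  have h1 := finrank_le_van_even (S.Th (2 * X) 0 0 ⊓ Par 1) (fun f hf => hf.1.1)
    (fun f hf => hf.2) m
  have h2 := S.finrank_restrict (ε := (-1) ^ m) (ε' := 1) (Y := 2 * m) hu (by linarith) hs hs0 hD hp hm hm1
    (S.Th (2 * X) 0 0 ⊓ Par 1 ⊓ Van (2 * m) 0) le_rfl k (by
      push_cast
      nlinarith [hk])
  have h3 := S.finrank_mult_le (n := 2 * X) (ε' := 1) (Y := 2 * m) hs hs0 hp (neg_one_pow_eq_or ℂ m) hm'
    (by omega)
  have e1 : 2 * m - m = m := by omega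
  rw [one_mul, e1] at h3
  have hfin2 : FiniteDimensional ℂ (S.Th (2 * X - u) (-α) (-β)) := S.finite_th _ _ _
  have h5 : (finrank ℂ (S.Th (2 * X) 0 0 ⊓ Par 1 : Submodule ℂ (C2 → ℂ)) : ℤ) ≤
      finrank ℂ (S.Th (2 * X - u) (-α) (-β) ⊓ Par ((-1) ^ m) ⊓ Van m 0 : Submodule ℂ (C2 → ℂ)) + k +
        (m : ℤ) ^ 2 := by
    exact_mod_cast (h1.trans (Nat.add_le_add_right (h2.trans (Nat.add_le_add_right h3 k)) (m ^ 2)))
  rw [hE, hk] at h5
  refine ⟨T, hT4, hT0, hT2, fun he => ?_, fun ho => ?_⟩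
  · obtain ⟨r, hr⟩ := he.two_dvd
    have e2 : ((-1 : ℂ)) ^ m = 1 := he.neg_one_pow
    rw [e2] at h5
    have h6 := hT 1 (Or.inl rfl)
    rw [Int.cast_one] at h6
    have hfin3 : FiniteDimensional ℂ (S.Th (2 * X - u) (-α) (-β) ⊓ Par 1 : Submodule ℂ (C2 → ℂ)) :=
      Submodule.finiteDimensional_of_le
        (inf_le_left : S.Th (2 * X - u) (-α) (-β) ⊓ Par 1 ≤ S.Th (2 * X - u) (-α) (-β))
    have h7 := finrank_eq_van_even (S.Th (2 * X - u) (-α) (-β) ⊓ Par 1) (fun f hf => hf.1.1)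
      (fun f hf => hf.2) r (fun g hg hgp => by
        have h8 := hn₀ v hvn (-α) (-β) hα' hβ' 1 (Or.inl rfl) g hg (by rwa [Int.cast_one])
        rw [Int.cast_one, hv, hr] at h8
        exact h8)
    rw [← hr] at h7
    have h9 : (finrank ℂ (S.Th (2 * X - u) (-α) (-β) ⊓ Par 1 : Submodule ℂ (C2 → ℂ)) : ℤ) =
        finrank ℂ (S.Th (2 * X - u) (-α) (-β) ⊓ Par 1 ⊓ Van m 0 : Submodule ℂ (C2 → ℂ)) + (r : ℤ) ^ 2 := by
      exact_mod_cast h7
    have hmr : (m : ℤ) = 2 * r := by exact_mod_cast hr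
    rw [hmr] at h5 ⊢
    nlinarith
  · obtain ⟨r, hr⟩ := ho
    have e2 : ((-1 : ℂ)) ^ m = -1 := (show Odd m from ⟨r, hr⟩).neg_one_pow
    rw [e2] at h5
    have e3 : (((-1 : ℤ)) : ℂ) = -1 := by norm_num
    have h6 := hT (-1) (Or.inr rfl)
    rw [e3] at h6
    have hfin3 : FiniteDimensional ℂ (S.Th (2 * X - u) (-α) (-β) ⊓ Par (-1) : Submodule ℂ (C2 → ℂ)) :=
      Submodule.finiteDimensional_of_le
        (inf_le_left : S.Th (2 * X - u) (-α) (-β) ⊓ Par (-1) ≤ S.Th (2 * X - u) (-α) (-β))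
    have h7 := finrank_eq_van_odd (S.Th (2 * X - u) (-α) (-β) ⊓ Par (-1)) (fun f hf => hf.1.1)
      (fun f hf => hf.2) r (fun g hg hgp => by
        have h8 := hn₀ v hvn (-α) (-β) hα' hβ' (-1) (Or.inr rfl) g hg (by rwa [e3])
        rw [e3, hv, hr] at h8
        exact h8)
    rw [← hr] at h7
    have h9 : (finrank ℂ (S.Th (2 * X - u) (-α) (-β) ⊓ Par (-1) : Submodule ℂ (C2 → ℂ)) : ℤ) =
        finrank ℂ (S.Th (2 * X - u) (-α) (-β) ⊓ Par (-1) ⊓ Van m 0 : Submodule ℂ (C2 → ℂ)) +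
          (r : ℤ) * (r + 1) := by
      exact_mod_cast h7
    have hmr : (m : ℤ) = 2 * r + 1 := by exact_mod_cast hr
    rw [hmr] at h5 ⊢
    nlinarith

/-- The curve: data of the symmetric theta function `s` of level `2 a` and exact order `2 b` at `0`. -/
structure Curve (a b : ℕ) (s : C2 → ℂ) : Prop where
  ha : 0 < a
  pell : b ^ 2 = 2 * S.d * a ^ 2 + 1
  mem : s ∈ S.Th (2 * a) 0 0
  ne : s ≠ 0
  even : s ∈ Par 1
  van : s ∈ Van (2 * b) 0
  van' : s ∉ Van (2 * b + 1) 0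
  dich : S.Dich s

/-- PROOF: `exists_min`, `symm_of_dich`, `adjunction`.
`u` odd: `|T| ≤ 2`, so `m² ≤ 2 d u²` for even `m` (contradiction) and `m² ≤ 2 d u² + 1` for odd `m`, so `m² = 2 d u² + 1`; mod 8 (`u² ≡ 1`,
`m² ≡ 1`): `2 d ≡ 0 mod 8`, so `4 ∣ d`, contradiction.
`u` even, characteristics not integral: `T = 0`, contradiction.  Integral: `T = 4`; `m` odd: contradiction; `m = 2 m'` even, `u = 2 u'`:
`8 d u'² < 4 m'² ≤ 8 d u'² + 4`, so `m'² = 2 d u'² + 1`; as `u' ≤ a` and `(a, b)` is minimal, `u' = a`, `m' = b`.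
`Th u α β = Th (2 a) 0 0` by `th_congr`. -/
theorem exists_curve (hE : S.EndZ) (h4 : ¬ 4 ∣ S.d) {a b : ℕ} (ha : 0 < a)
    (hp : b ^ 2 = 2 * S.d * a ^ 2 + 1) (hmin : ∀ a' b' : ℕ, 0 < a' → b' ^ 2 = 2 * S.d * a' ^ 2 + 1 → a ≤ a') :
    ∃ s, S.Curve a b s := by
  obtain ⟨u, α, β, s, m, hu, hua, hs, hs0, hm, hm', h, hD⟩ := S.exists_min hE ha hp
  obtain ⟨hpar, hα, hβ⟩ := S.symm_of_dich hu hs hs0 hm hm' h hD
  obtain ⟨T, hT4, hT0, hT2, hTe, hTo⟩ := S.adjunction hu hs hs0 hm hm' h hD hpar hα hβ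
  rcases Int.even_or_odd u with he | ho
  · by_cases hc : (∀ i, ∃ k : ℤ, α i = k) ∧ ∀ i, ∃ k : ℤ, β i = k
    · have hT := hT4 he hc
      rcases Nat.even_or_odd m with hme | hmo
      · have h1 := hTe hme
        obtain ⟨u', hu'⟩ := he.two_dvd
        obtain ⟨m', hm2⟩ := hme.two_dvd
        obtain ⟨w, rfl⟩ : ∃ w : ℕ, u' = w := ⟨u'.toNat, (Int.toNat_of_nonneg (by omega)).symm⟩
        have hmz : (m : ℤ) = 2 * m' := by exact_mod_cast hm2
        rw [hT, hmz, hu'] at h1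
        rw [hmz, hu'] at h
        have h2 : (m' : ℤ) ^ 2 = 2 * S.d * (w : ℤ) ^ 2 + 1 := by
          have h3 : 4 * (2 * (S.d : ℤ) * (w : ℤ) ^ 2) < 4 * (m' : ℤ) ^ 2 := by nlinarith
          have h4 : 4 * (m' : ℤ) ^ 2 ≤ 4 * (2 * (S.d : ℤ) * (w : ℤ) ^ 2 + 1) := by nlinarith
          omega
        have h3 : m' ^ 2 = 2 * S.d * w ^ 2 + 1 := by exact_mod_cast h2
        have h4 := hmin w m' (by omega) h3
        have h5 : w = a := by omega
        subst h5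
        have h6 : m' = b := by
          have h7 : m' ^ 2 = b ^ 2 := by rw [h3, hp]
          exact Nat.pow_left_injective (n := 2) (by norm_num) h7
        subst h6
        refine ⟨s, ha, hp, ?_, hs0, ?_, ?_, ?_, hD⟩
        · rw [hu'] at hs
          rwa [← S.th_congr (2 * (w : ℤ)) (α := α) (β := β) (α' := 0) (β' := 0)] at hs
          · intro i
            obtain ⟨k, hk⟩ := hc.1 i
            exact ⟨-k, by rw [hk, Pi.zero_apply]; push_cast; ring⟩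
          · intro i
            obtain ⟨k, hk⟩ := hc.2 i
            exact ⟨-k, by rw [hk, Pi.zero_apply]; push_cast; ring⟩
        · rwa [hme.neg_one_pow] at hpar
        · rwa [hm2] at hm
        · rwa [hm2] at hm'
      · have h1 := hTo hmo
        rw [hT] at h1
        omega
    · have hT := hT0 he hc
      rcases Nat.even_or_odd m with hme | hmo
      · have h1 := hTe hme
        rw [hT] at h1
        omega
      · have h1 := hTo hmo
        rw [hT] at h1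
        omega
  · have hT := abs_le.mp (hT2 ho)
    rcases Nat.even_or_odd m with hme | hmo
    · have h1 := hTe hme
      omega
    · have h1 := hTo hmo
      exfalso
      have h2 : (m : ℤ) ^ 2 = 2 * S.d * u ^ 2 + 1 := by omega
      obtain ⟨x, hx⟩ := ho
      have hmo' : Odd (m : ℤ) := by exact_mod_cast hmo
      obtain ⟨y, hy⟩ := hmo'
      have hx2 : (8 : ℤ) ∣ u ^ 2 - 1 := by
        have h3 : Even (x * (x + 1)) := Int.even_mul_succ_self x
        obtain ⟨z, hz⟩ := h3.two_dvd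
        exact ⟨z, by rw [hx]; linear_combination 4 * hz⟩
      have hy2 : (8 : ℤ) ∣ (m : ℤ) ^ 2 - 1 := by
        have h3 : Even (y * (y + 1)) := Int.even_mul_succ_self y
        obtain ⟨z, hz⟩ := h3.two_dvd
        exact ⟨z, by rw [hy]; linear_combination 4 * hz⟩
      have h3 : (8 : ℤ) ∣ 2 * S.d := by
        have h4 : 2 * (S.d : ℤ) = ((m : ℤ) ^ 2 - 1) - 2 * S.d * (u ^ 2 - 1) := by
          rw [h2]; ring
        rw [h4]
        exact dvd_sub hy2 (Dvd.dvd.mul_left hx2 _)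
      apply h4
      have h5 : (8 : ℤ) ∣ ((2 * S.d : ℕ) : ℤ) := by push_cast; exact h3
      have h6 : 8 ∣ 2 * S.d := by exact_mod_cast h5
      omega

end PerData

end Q2T
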