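import Pool.Agent.H.MP_89f84f_ag.q2.Fld
import Pool.Agent.H.MP_89f84f_ag.q2.Emb

set_option autoImplicit false

open AlgebraicGeometry CategoryTheory Module

namespace Q2T

namespace KForm

variable {S : PerData} {k : Subfield ℂ} (K : KForm S k)

theorem Aff_one : (fun _ => (1 : ℂ)) ∈ K.R 0 := by
  obtain ⟨N, b, hb⟩ := K.form 0
  have h1 : (fun _ => (1 : ℂ)) ∈ S.Th (2 * ((0 : ℕ) : ℤ)) 0 0 := by
    simpa using S.th_one
  have h0 := K.span 0 h1
  have hne : ∃ f ∈ K.R 0, f ≠ 0 := by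
    by_contra hcon
    push Not at hcon
    have h2 : Submodule.span ℂ (K.R 0 : Set (C2 → ℂ)) ≤ ⊥ := by
      rw [Submodule.span_le]
      intro f hf
      exact hcon f hf
    have h3 := h2 h0
    rw [Submodule.mem_bot] at h3
    have h4 := congrFun h3 0
    simp at h4
  obtain ⟨f, hf, hf0⟩ := hne
  have hconst : ∀ z, f z = f 0 := by
    have h2 := K.mem hf
    have h3 : f ∈ S.Th 0 0 0 := by simpa using h2
    obtain ⟨c, hc⟩ := S.th_level_zero h3
    intro z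
    rw [hc]
  have hf00 : f 0 ≠ 0 := by
    intro h
    apply hf0
    funext z
    rw [hconst z, h]
    rfl
  have hk := K.zero 0 f hf
  have h5 := (K.R 0).smul_mem (⟨(f 0)⁻¹, k.inv_mem hk⟩ : k) hf
  have h6 : (⟨(f 0)⁻¹, k.inv_mem hk⟩ : k) • f = fun _ => (1 : ℂ) := by
    funext z
    show (f 0)⁻¹ * f z = 1
    rw [hconst z, inv_mul_cancel₀ hf00]
  rwa [h6] at h5

theorem Aff_pow {m : ℕ} {f : C2 → ℂ} (hf : f ∈ K.R m) (n : ℕ) : f ^ n ∈ K.R (n * m) := by
  induction n with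
  | zero =>
    rw [zero_mul, pow_zero]
    exact K.Aff_one
  | succ n ih =>
    rw [pow_succ, add_mul, one_mul]
    exact K.mul _ _ _ _ ih hf

theorem Aff_pow' {m : ℕ} {f : C2 → ℂ} (hf : f ∈ K.R m) (n : ℕ) : f ^ n ∈ K.R (m * n) := by
  rw [mul_comm]
  exact K.Aff_pow hf n

/-- The affine coordinate ring of `f ≠ 0`: all `g / f ^ n`, `g` of level `n m`. -/
def Coord {m : ℕ} {f : C2 → ℂ} (hf : f ∈ K.R m) : Subalgebra k ({z : C2 // f z ≠ 0} → ℂ) where
  carrier := {h | ∃ (n : ℕ) (g : C2 → ℂ), g ∈ K.R (n * m) ∧ ∀ z, h z = g z / f z ^ n}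
  mul_mem' := by
    rintro _ _ ⟨n, g, hg, h⟩ ⟨n', g', hg', h'⟩
    refine ⟨n + n', g * g', ?_, fun z => ?_⟩
    · rw [add_mul]
      exact K.mul _ _ _ _ hg hg'
    · rw [Pi.mul_apply, Pi.mul_apply, h, h', pow_add, div_mul_div_comm]
  add_mem' := by
    rintro _ _ ⟨n, g, hg, h⟩ ⟨n', g', hg', h'⟩
    refine ⟨n + n', g * f ^ n' + f ^ n * g', ?_, fun z => ?_⟩
    · rw [add_mul]
      exact (K.R _).add_mem (K.mul _ _ _ _ hg (K.Aff_pow hf n')) (K.mul _ _ _ _ (K.Aff_pow hf n) hg')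
    · have hz : f z ≠ 0 := z.2
      rw [Pi.add_apply, h, h', div_add_div _ _ (pow_ne_zero _ hz) (pow_ne_zero _ hz), pow_add]
      rfl
  algebraMap_mem' := fun c => by
    refine ⟨0, c • fun _ => (1 : ℂ), ?_, fun z => ?_⟩
    · rw [zero_mul]
      exact (K.R 0).smul_mem c K.Aff_one
    · show (c : ℂ) = (c : ℂ) * 1 / f z ^ 0
      rw [pow_zero, div_one, mul_one]

/-- Homomorphisms of the coordinate ring to quadratic extensions, if the points of degree two are dense. -/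
theorem Coord_eval (hdense : ∀ (N : ℤ) (F : C2 → ℂ), F ∈ S.Th N 0 0 → (∀ z, finrank k (K.fld z) = 2 → F z = 0) → F = 0)
    {m : ℕ} (hm : 0 < m) {f : C2 → ℂ} (hf : f ∈ K.R m) (b : K.Coord hf) (hb : ¬ IsNilpotent b) :
    ∃ (L : Type) (_ : Field L) (_ : Algebra k L) (ψ : K.Coord hf →ₐ[k] L),
      finrank k L = 2 ∧ ψ b ≠ 0 ∧ ∃ r : K.Coord hf, ∀ c : k, ψ r ≠ algebraMap k L c := by
  obtain ⟨b, n, g, hg, hbg⟩ := b
  -- a point of degree two
  have hF : f * g ∈ K.R (m + n * m) := K.mul _ _ _ _ hf hg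
  have hF0 : f * g ≠ 0 := by
    intro h0
    apply hb
    refine ⟨1, ?_⟩
    rw [pow_one]
    apply Subtype.ext
    funext z
    show b z = 0
    rw [hbg z]
    have h1 : f z * g z = 0 := congrFun h0 z
    rw [(mul_eq_zero.1 h1).resolve_left z.2, zero_div]
  obtain ⟨z, hz2, hz⟩ : ∃ z, finrank k (K.fld z) = 2 ∧ (f * g) z ≠ 0 := by
    by_contra hcon
    push Not at hcon
    exact hF0 (hdense _ _ (K.mem hF) hcon)
  have hfz : f z ≠ 0 := left_ne_zero_of_mul hz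
  have hgz : g z ≠ 0 := right_ne_zero_of_mul hz
  have hval : ∀ h : K.Coord hf, (h : {z : C2 // f z ≠ 0} → ℂ) ⟨z, hfz⟩ ∈ K.fld z := by
    rintro ⟨h, n', g', hg', hh⟩
    apply IntermediateField.subset_adjoin
    refine ⟨n' * m, g', f ^ n', hg', K.Aff_pow hf n', pow_ne_zero _ hfz, hh _⟩
  let ψ : K.Coord hf →ₐ[k] K.fld z :=
    { toFun := fun h => ⟨(h : {z : C2 // f z ≠ 0} → ℂ) ⟨z, hfz⟩, hval h⟩
      map_one' := rfl
      map_mul' := fun _ _ => rfl
      map_zero' := rfl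
      map_add' := fun _ _ => rfl
      commutes' := fun _ => rfl }
  refine ⟨K.fld z, inferInstance, inferInstance, ψ, hz2, ?_, ?_⟩
  · intro h0
    have h1 : b ⟨z, hfz⟩ = 0 := congrArg Subtype.val h0
    rw [hbg] at h1
    exact div_ne_zero hgz (pow_ne_zero _ hfz) h1
  · -- some value is not in `k`
    obtain ⟨m', F, G, hF', hG', hG0, hc⟩ : ∃ (m' : ℕ) (F G : C2 → ℂ), F ∈ K.R m' ∧ G ∈ K.R m' ∧ G z ≠ 0 ∧
        F z / G z ∉ k := by
      by_contra hcon
      push Not at hcon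
      have h1 : K.fld z = ⊥ := by
        rw [eq_bot_iff]
        unfold fld
        rw [IntermediateField.adjoin_le_iff]
        rintro _ ⟨m', F, G, hF', hG', hG0, rfl⟩
        rw [SetLike.mem_coe, IntermediateField.mem_bot]
        exact ⟨⟨_, hcon m' F G hF' hG' hG0⟩, rfl⟩
      have h2 : finrank k (K.fld z) = 1 := by
        rw [h1]
        exact IntermediateField.finrank_bot
      omega
    obtain ⟨e, rfl⟩ : ∃ e, m = e + 1 := ⟨m - 1, by omega⟩
    let r₁ : K.Coord hf := ⟨fun w => (F w * G w ^ e) / f w ^ m', m', F * G ^ e, by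
      have h1 := K.mul _ _ _ _ hF' (K.Aff_pow' hG' e)
      have h2 : m' + m' * e = m' * (e + 1) := by ring
      rwa [h2] at h1, fun w => rfl⟩
    let r₂ : K.Coord hf := ⟨fun w => G w ^ (e + 1) / f w ^ m', m', G ^ (e + 1), K.Aff_pow' hG' (e + 1),
      fun w => rfl⟩
    by_contra hcon
    push Not at hcon
    obtain ⟨c₁, h₁⟩ := hcon r₁
    obtain ⟨c₂, h₂⟩ := hcon r₂
    apply hc
    have e₁ : (F z * G z ^ e) / f z ^ m' = c₁ := congrArg Subtype.val h₁
    have e₂ : G z ^ (e + 1) / f z ^ m' = c₂ := congrArg Subtype.val h₂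
    have e₃ : F z / G z = (c₁ : ℂ) / c₂ := by
      rw [← e₁, ← e₂, div_div_div_cancel_right₀ (pow_ne_zero _ hfz), pow_succ,
        mul_comm (F z), mul_div_mul_left _ _ (pow_ne_zero _ hG0)]
    rw [e₃]
    exact k.div_mem c₁.2 c₂.2

end KForm

end Q2T
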