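import Pool.Agent.H.MP_89f84f_ag.q2.JetA

set_option autoImplicit false

open Complex Topology Filter Asymptotics Metric Set

namespace Q2T

namespace PerData

variable (S : PerData)

/-- The bilinear form `z · (Im τ)⁻¹ w`. -/
noncomputable def bf (z w : C2) : ℂ :=
  (((S.τ 1 1).im : ℂ) * (z 0 * w 0) - ((S.τ 0 1).im : ℂ) * (z 0 * w 1 + z 1 * w 0) +
    ((S.τ 0 0).im : ℂ) * (z 1 * w 1)) / (S.D : ℂ)

/-- Coherent state at `x` of level `n` (without the polynomial factor). -/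
noncomputable def coh (n : ℤ) (x z : C2) : ℂ :=
  cexp (Real.pi * n * S.bf z (fun i => (starRingEnd ℂ) (x i)) - Real.pi * n / 2 * S.bf z z -
    Real.pi * n / 2 * S.bf x (fun i => (starRingEnd ℂ) (x i)))

theorem coh_differentiable (n : ℤ) (x : C2) : Differentiable ℂ (S.coh n x) := by
  unfold coh bf
  fun_prop

private theorem JetB_D : 0 < S.D := by
  have := S.det_pos
  unfold D
  linarith

private theorem JetB_bf_re (a b : C2) : (S.bf a b).re =
    ((S.τ 1 1).im * ((a 0).re * (b 0).re - (a 0).im * (b 0).im) -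
      (S.τ 0 1).im * ((a 0).re * (b 1).re - (a 0).im * (b 1).im +
        ((a 1).re * (b 0).re - (a 1).im * (b 0).im)) +
      (S.τ 0 0).im * ((a 1).re * (b 1).re - (a 1).im * (b 1).im)) / S.D := by
  unfold bf
  rw [div_ofReal_re]
  congr 1
  simp only [add_re, sub_re, mul_re, ofReal_re, ofReal_im, zero_mul, sub_zero]

private theorem JetB_coh_re (n : ℤ) (x z : C2) :
    (Real.pi * n * S.bf z (fun i => (starRingEnd ℂ) (x i)) - Real.pi * n / 2 * S.bf z z -
    Real.pi * n / 2 * S.bf x (fun i => (starRingEnd ℂ) (x i)) : ℂ).re =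
    Real.pi * n * S.qf (fun i => (z i).im) + -(Real.pi * n / 2 * S.hf (z - x)) := by
  have h1 : (Real.pi * n * S.bf z (fun i => (starRingEnd ℂ) (x i)) - Real.pi * n / 2 * S.bf z z -
    Real.pi * n / 2 * S.bf x (fun i => (starRingEnd ℂ) (x i)) : ℂ) =
    ((Real.pi * n : ℝ) : ℂ) * S.bf z (fun i => (starRingEnd ℂ) (x i)) -
      ((Real.pi * n / 2 : ℝ) : ℂ) * S.bf z z -
      ((Real.pi * n / 2 : ℝ) : ℂ) * S.bf x (fun i => (starRingEnd ℂ) (x i)) := by
    push_cast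
    ring
  have hD := S.JetB_D.ne'
  rw [h1, sub_re, sub_re, re_ofReal_mul, re_ofReal_mul, re_ofReal_mul, JetB_bf_re, JetB_bf_re,
    JetB_bf_re]
  simp only [conj_re, conj_im, hf, qf, Pi.sub_apply, sub_re, sub_im]
  field_simp
  ring

/-- `|coh| = exp (π n qf (Im z)) * exp (-(π n / 2) hf (z - x))`. -/
theorem norm_coh (n : ℤ) (x z : C2) : ‖S.coh n x z‖ =
    Real.exp (Real.pi * n * S.qf (fun i => (z i).im)) * Real.exp (-(Real.pi * n / 2 * S.hf (z - x))) := by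
  rw [coh, norm_exp, JetB_coh_re, Real.exp_add]

private theorem JetB_qf_trans (p q : Z2) (z : C2) :
    S.qf (fun i => ((z + S.tv p + S.dv q) i).im) =
      S.qf (fun i => (z i).im) + (dot p (S.tv p) + 2 * dot p z).im := by
  have hD := S.JetB_D.ne'
  have hs : (S.τ 1 0).im = (S.τ 0 1).im := by rw [S.symm]
  have e0 : ((z + S.tv p + S.dv q) 0).im =
      (z 0).im + ((S.τ 0 0).im * (p 0 : ℝ) + (S.τ 0 1).im * (p 1 : ℝ)) := by
    simp only [Pi.add_apply, tv_apply, dv_zero', add_im, mul_im, intCast_re, intCast_im]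
    ring
  have e1 : ((z + S.tv p + S.dv q) 1).im =
      (z 1).im + ((S.τ 0 1).im * (p 0 : ℝ) + (S.τ 1 1).im * (p 1 : ℝ)) := by
    simp only [Pi.add_apply, tv_apply, dv_one', add_im, mul_im, intCast_re, intCast_im,
      natCast_im, natCast_re, hs]
    ring
  have e2 : (dot p (S.tv p) + 2 * dot p z).im = (p 0 : ℝ) * ((S.τ 0 0).im * (p 0 : ℝ) +
      (S.τ 0 1).im * (p 1 : ℝ)) + (p 1 : ℝ) * ((S.τ 0 1).im * (p 0 : ℝ) +
      (S.τ 1 1).im * (p 1 : ℝ)) + 2 * ((p 0 : ℝ) * (z 0).im + (p 1 : ℝ) * (z 1).im) := by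
    simp only [dot, tv_apply, add_im, mul_im, intCast_re, intCast_im, hs, re_ofNat, im_ofNat]
    ring
  unfold qf
  beta_reduce
  rw [e0, e1, e2, div_add' _ _ _ hD, div_left_inj' hD]
  unfold D
  ring

private theorem JetB_norm_J (u : ℤ) (α β : Fin 2 → ℝ) (p q : Z2) (z : C2) :
    ‖S.J u α β p q z‖ = Real.exp (Real.pi * u * (dot p (S.tv p) + 2 * dot p z).im) := by
  unfold J
  rw [norm_mul, norm_exp, norm_exp, ← Real.exp_add]
  congr 1
  generalize dot p (S.tv p) + 2 * dot p z = w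
  simp only [neg_re, mul_re, mul_im, I_re, I_im, ofReal_re, ofReal_im, intCast_re, intCast_im,
    re_ofNat, im_ofNat]
  ring

/-- `|J| = exp (π u (qf (Im (z + λ)) - qf (Im z)))`. -/
theorem norm_J (u : ℤ) (α β : Fin 2 → ℝ) (p q : Z2) (z : C2) : ‖S.J u α β p q z‖ =
    Real.exp (Real.pi * u * (S.qf (fun i => ((z + S.tv p + S.dv q) i).im) - S.qf (fun i => (z i).im))) := by
  rw [JetB_norm_J, JetB_qf_trans, add_sub_cancel_left]

private theorem JetB_cocycle (u : ℤ) (α β : Fin 2 → ℝ) (p q p' q' : Z2) (z : C2) :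
    S.J u α β (p + p') (q + q') z =
      S.J u α β p q (z + S.tv p' + S.dv q') * S.J u α β p' q' z := by
  have hs : S.τ 1 0 = S.τ 0 1 := S.symm.symm
  obtain ⟨k, hk⟩ : ∃ k : ℤ, k = u * (p 0 * q' 0 + S.d * (p 1 * q' 1)) := ⟨_, rfl⟩
  have hk' : (k : ℂ) = u * (p 0 * q' 0 + S.d * (p 1 * q' 1)) := by
    rw [hk]
    push_cast
    ring
  unfold J
  rw [← Complex.exp_add, ← Complex.exp_add, ← Complex.exp_add, ← Complex.exp_add,
    ← mul_one (cexp (_ + _ + _)), ← Complex.exp_int_mul_two_pi_mul_I k, ← Complex.exp_add]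
  congr 1
  rw [hk']
  simp only [rdot, dot, tv_apply, dv_zero', dv_one', Pi.add_apply, hs]
  push_cast
  ring

private theorem JetB_fderiv_le {F : C2 → ℂ} (hF : Differentiable ℂ F) {R C : ℝ}
    (hC : ∀ z : C2, ‖z‖ ≤ R + 1 → ‖F z‖ ≤ C) {x : C2} (hx : ‖x‖ ≤ R) : ‖fderiv ℂ F x‖ ≤ C := by
  have hC0 : 0 ≤ C := (norm_nonneg _).trans (hC x (by linarith))
  refine ContinuousLinearMap.opNorm_le_bound _ hC0 fun v => ?_
  by_cases hv : v = 0
  · rw [hv, map_zero, norm_zero, norm_zero, mul_zero]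
  have hv' : 0 < ‖v‖ := norm_pos_iff.2 hv
  have hd : Differentiable ℂ fun t : ℂ => F (x + t • v) :=
    hF.comp ((differentiable_const x).add (differentiable_id.smul_const v))
  have h1 : HasDerivAt (fun t : ℂ => F (x + t • v)) (fderiv ℂ F x v) 0 := by
    have h2 : HasDerivAt (fun t : ℂ => x + t • v) v 0 := by
      simpa using ((hasDerivAt_id (0 : ℂ)).smul_const v).const_add x
    have h3 : HasFDerivAt F (fderiv ℂ F x) (x + (0 : ℂ) • v) := by
      rw [zero_smul, add_zero]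
      exact (hF x).hasFDerivAt
    exact h3.comp_hasDerivAt (0 : ℂ) h2
  have h4 := Complex.norm_deriv_le_of_forall_mem_sphere_norm_le (c := (0 : ℂ)) (R := 1 / ‖v‖)
    (C := C) (by positivity) hd.diffContOnCl (fun t ht => by
      apply hC
      rw [mem_sphere_iff_norm, sub_zero] at ht
      calc ‖x + t • v‖ ≤ ‖x‖ + ‖t • v‖ := norm_add_le _ _
        _ = ‖x‖ + 1 := by rw [norm_smul, ht]; field_simp
        _ ≤ R + 1 := by linarith)
  rw [h1.deriv] at h4
  rwa [div_div_eq_mul_div, div_one] at h4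

private theorem JetB_tsum {ι : Type} {F : ι → C2 → ℂ} (hF : ∀ i, Differentiable ℂ (F i))
    (hb : ∀ R : ℝ, ∃ b : ι → ℝ, Summable b ∧ ∀ i z, ‖z‖ ≤ R → ‖F i z‖ ≤ b i) :
    Differentiable ℂ fun z => ∑' i, F i z := by
  intro w
  obtain ⟨b, hbs, hbd⟩ := hb (‖w‖ + 1 + 1)
  have hd : ∀ (i : ι) (x : C2), x ∈ Metric.ball (0 : C2) (‖w‖ + 1) →
      HasFDerivAt (F i) (fderiv ℂ (F i) x) x := fun i x _ => (hF i x).hasFDerivAt
  have hbn : ∀ (i : ι) (x : C2), x ∈ Metric.ball (0 : C2) (‖w‖ + 1) →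
      ‖fderiv ℂ (F i) x‖ ≤ b i := by
    intro i x hx
    rw [Metric.mem_ball, dist_zero_right] at hx
    exact JetB_fderiv_le (hF i) (R := ‖w‖ + 1) (fun z hz => hbd i z hz) hx.le
  have h0 : (0 : C2) ∈ Metric.ball (0 : C2) (‖w‖ + 1) := by
    rw [Metric.mem_ball, dist_self]
    positivity
  have hw : w ∈ Metric.ball (0 : C2) (‖w‖ + 1) := by
    rw [Metric.mem_ball, dist_zero_right]
    linarith
  have hs0 : Summable fun i => F i 0 :=
    Summable.of_norm_bounded hbs (fun i => hbd i 0 (by rw [norm_zero]; positivity))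
  exact (hasFDerivAt_tsum_of_isPreconnected hbs Metric.isOpen_ball
    (convex_ball (0 : C2) (‖w‖ + 1)).isPreconnected hd hbn h0 hs0 hw).differentiableAt

/-- The terms of the Poincaré series. -/
private noncomputable def JetB_T (n : ℤ) (α β : Fin 2 → ℝ) (x : C2) (i j : ℕ) (pq : Z2 × Z2)
    (z : C2) : ℂ :=
  (S.J n α β pq.1 pq.2 z)⁻¹ * (((z + S.tv pq.1 + S.dv pq.2) 0 - x 0) ^ i *
    ((z + S.tv pq.1 + S.dv pq.2) 1 - x 1) ^ j * S.coh n x (z + S.tv pq.1 + S.dv pq.2))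

private theorem JetB_T_diff (n : ℤ) (α β : Fin 2 → ℝ) (x : C2) (i j : ℕ) (pq : Z2 × Z2) :
    Differentiable ℂ (S.JetB_T n α β x i j pq) := by
  unfold JetB_T
  have h1 := S.ThA_J_diff n α β pq.1 pq.2
  have h2 : Differentiable ℂ fun z : C2 => z + S.tv pq.1 + S.dv pq.2 := by fun_prop
  have h3 : Differentiable ℂ fun z : C2 => S.coh n x (z + S.tv pq.1 + S.dv pq.2) :=
    (S.coh_differentiable n x).comp h2
  have h4 : Differentiable ℂ fun z => (S.J n α β pq.1 pq.2 z)⁻¹ :=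
    h1.inv fun z => S.J_ne_zero n α β pq.1 pq.2 z
  have h5 : Differentiable ℂ fun z : C2 => (z + S.tv pq.1 + S.dv pq.2) 0 - x 0 := by
    simp only [Pi.add_apply]
    fun_prop
  have h6 : Differentiable ℂ fun z : C2 => (z + S.tv pq.1 + S.dv pq.2) 1 - x 1 := by
    simp only [Pi.add_apply]
    fun_prop
  exact h4.mul (((h5.pow i).mul (h6.pow j)).mul h3)

private theorem JetB_T_norm (n : ℤ) (α β : Fin 2 → ℝ) (x : C2) (i j : ℕ) (pq : Z2 × Z2) (z : C2) :
    ‖S.JetB_T n α β x i j pq z‖ ≤ Real.exp (Real.pi * n * S.qf (fun i => (z i).im)) *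
      (‖(z - x) + (S.tv pq.1 + S.dv pq.2)‖ ^ (i + j) *
        Real.exp (-(Real.pi * n / 2 * S.hf ((z - x) + (S.tv pq.1 + S.dv pq.2))))) := by
  unfold JetB_T
  have e : z + S.tv pq.1 + S.dv pq.2 - x = (z - x) + (S.tv pq.1 + S.dv pq.2) := by abel
  have a0 : ‖(z + S.tv pq.1 + S.dv pq.2) 0 - x 0‖ ≤ ‖(z - x) + (S.tv pq.1 + S.dv pq.2)‖ := by
    rw [← e]
    exact norm_le_pi_norm (z + S.tv pq.1 + S.dv pq.2 - x) 0
  have a1 : ‖(z + S.tv pq.1 + S.dv pq.2) 1 - x 1‖ ≤ ‖(z - x) + (S.tv pq.1 + S.dv pq.2)‖ := by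
    rw [← e]
    exact norm_le_pi_norm (z + S.tv pq.1 + S.dv pq.2 - x) 1
  have b0 : ‖(z + S.tv pq.1 + S.dv pq.2) 0 - x 0‖ ^ i * ‖(z + S.tv pq.1 + S.dv pq.2) 1 - x 1‖ ^ j ≤
      ‖(z - x) + (S.tv pq.1 + S.dv pq.2)‖ ^ (i + j) := by
    rw [pow_add]
    exact mul_le_mul (pow_le_pow_left₀ (norm_nonneg _) a0 i) (pow_le_pow_left₀ (norm_nonneg _) a1 j)
      (by positivity) (by positivity)
  rw [norm_mul, norm_inv, norm_mul, norm_mul, norm_pow, norm_pow, norm_J, norm_coh, e,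
    ← Real.exp_neg]
  have e2 : Real.exp (-(Real.pi * n * (S.qf (fun i => ((z + S.tv pq.1 + S.dv pq.2) i).im) -
      S.qf (fun i => (z i).im)))) *
      (‖(z + S.tv pq.1 + S.dv pq.2) 0 - x 0‖ ^ i * ‖(z + S.tv pq.1 + S.dv pq.2) 1 - x 1‖ ^ j *
      (Real.exp (Real.pi * n * S.qf (fun i => ((z + S.tv pq.1 + S.dv pq.2) i).im)) *
        Real.exp (-(Real.pi * n / 2 * S.hf ((z - x) + (S.tv pq.1 + S.dv pq.2)))))) =
      Real.exp (Real.pi * n * S.qf (fun i => (z i).im)) *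
      ((‖(z + S.tv pq.1 + S.dv pq.2) 0 - x 0‖ ^ i * ‖(z + S.tv pq.1 + S.dv pq.2) 1 - x 1‖ ^ j) *
        Real.exp (-(Real.pi * n / 2 * S.hf ((z - x) + (S.tv pq.1 + S.dv pq.2))))) := by
    have e3 : Real.exp (-(Real.pi * n * (S.qf (fun i => ((z + S.tv pq.1 + S.dv pq.2) i).im) -
      S.qf (fun i => (z i).im)))) *
      Real.exp (Real.pi * n * S.qf (fun i => ((z + S.tv pq.1 + S.dv pq.2) i).im)) =
      Real.exp (Real.pi * n * S.qf (fun i => (z i).im)) := by
      rw [← Real.exp_add]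
      congr 1
      ring
    rw [← e3]
    ring
  rw [e2]
  exact mul_le_mul_of_nonneg_left (mul_le_mul_of_nonneg_right b0 (Real.exp_pos _).le)
    (Real.exp_pos _).le

private theorem JetB_T_bound {n : ℤ} (hn : 1 ≤ n) (α β : Fin 2 → ℝ) (x : C2) (i j : ℕ) (R : ℝ) :
    ∃ b : Z2 × Z2 → ℝ, Summable b ∧ ∀ pq z, ‖z‖ ≤ R → ‖S.JetB_T n α β x i j pq z‖ ≤ b pq := by
  have hn' : (0 : ℝ) < n := by exact_mod_cast (lt_of_lt_of_le one_pos hn)
  obtain ⟨b, hb, hbd⟩ := S.gauss_bound (i + j) hn' (R + ‖x‖)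
  have hcont : Continuous fun z : C2 => Real.exp (Real.pi * n * S.qf (fun i => (z i).im)) := by
    unfold qf
    fun_prop
  obtain ⟨C, hC⟩ := (isCompact_closedBall (0 : C2) R).exists_bound_of_continuousOn
    hcont.continuousOn
  refine ⟨fun pq => C * b pq, hb.mul_left C, fun pq z hz => ?_⟩
  refine (S.JetB_T_norm n α β x i j pq z).trans ?_
  have h1 := hC z (by rw [mem_closedBall_zero_iff]; exact hz)
  rw [Real.norm_eq_abs, abs_of_pos (Real.exp_pos _)] at h1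
  have h2 := hbd pq (z - x) ((norm_sub_le _ _).trans (by linarith))
  exact mul_le_mul h1 h2 (by positivity) ((Real.exp_pos _).le.trans h1)

private theorem JetB_T_trans (n : ℤ) (α β : Fin 2 → ℝ) (x : C2) (i j : ℕ) (pq : Z2 × Z2)
    (p q : Z2) (z : C2) : S.JetB_T n α β x i j pq (z + S.tv p + S.dv q) =
      S.J n α β p q z * S.JetB_T n α β x i j (pq + (p, q)) z := by
  unfold JetB_T
  have e : z + S.tv p + S.dv q + S.tv pq.1 + S.dv pq.2 =
      z + S.tv (pq + (p, q)).1 + S.dv (pq + (p, q)).2 := by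
    rw [Prod.fst_add, Prod.snd_add, tv_add, dv_add]
    abel
  have h1 : S.J n α β (pq + (p, q)).1 (pq + (p, q)).2 z =
      S.J n α β pq.1 pq.2 (z + S.tv p + S.dv q) * S.J n α β p q z :=
    S.JetB_cocycle n α β pq.1 pq.2 p q z
  have h2 := S.J_ne_zero n α β p q z
  have h3 := S.J_ne_zero n α β pq.1 pq.2 (z + S.tv p + S.dv q)
  rw [e, h1]
  field_simp

/-- Poincaré series of `(z - x)^(i, j) coh`: a theta function close to it.
PROOF: `F z = ∑' (p, q), (J n α β p q z)⁻¹ φ (z + τ p + Δ q)`, `φ z = (z₀ - x₀)^i (z₁ - x₁)^j coh n x z`; each term has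
norm at most `exp (π n qf (Im z)) ‖z + λ - x‖^(i+j) exp (-(π n / 2) hf (z + λ - x))` by `norm_coh`, `norm_J`, so the series
converges locally uniformly (`gauss_bound`) to an entire function; it is in `Th` by reindexing and the cocycle
rule of `J`.  The term of `(0, 0)` is `φ`. -/
theorem exists_peak {n : ℤ} (hn : 1 ≤ n) (α β : Fin 2 → ℝ) (x : C2) (i j : ℕ) :
    ∃ F ∈ S.Th n α β, ∀ z : C2,
      ‖F z - (z 0 - x 0) ^ i * (z 1 - x 1) ^ j * S.coh n x z‖ ≤
        Real.exp (Real.pi * n * S.qf (fun i => (z i).im)) *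
          ∑' pq : {pq : Z2 × Z2 | pq ≠ 0}, ‖(z - x) + (S.tv pq.1.1 + S.dv pq.1.2)‖ ^ (i + j) *
            Real.exp (-(Real.pi * n / 2 * S.hf ((z - x) + (S.tv pq.1.1 + S.dv pq.1.2)))) := by
  have hn' : (0 : ℝ) < n := by exact_mod_cast (lt_of_lt_of_le one_pos hn)
  have hsum : ∀ z, Summable fun pq => S.JetB_T n α β x i j pq z := by
    intro z
    obtain ⟨b, hb, hbd⟩ := S.JetB_T_bound hn α β x i j ‖z‖
    exact Summable.of_norm_bounded hb (fun pq => hbd pq z le_rfl)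
  refine ⟨fun z => ∑' pq, S.JetB_T n α β x i j pq z, ⟨?_, ?_⟩, ?_⟩
  · exact JetB_tsum (fun pq => S.JetB_T_diff n α β x i j pq)
      (fun R => S.JetB_T_bound hn α β x i j R)
  · intro p q z
    simp only [JetB_T_trans]
    rw [tsum_mul_left]
    congr 1
    exact (Equiv.addRight ((p, q) : Z2 × Z2)).tsum_eq (fun pq => S.JetB_T n α β x i j pq z)
  · intro z
    have hset : ({0} : Set (Z2 × Z2))ᶜ = {pq : Z2 × Z2 | pq ≠ 0} := by
      ext pq
      simp
    have h1 := (hsum z).tsum_subtype_add_tsum_subtype_compl {0}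
    rw [hset, tsum_singleton 0 (fun pq => S.JetB_T n α β x i j pq z)] at h1
    have h0 : S.JetB_T n α β x i j 0 z = (z 0 - x 0) ^ i * (z 1 - x 1) ^ j * S.coh n x z := by
      have hJ : S.J n α β 0 0 z = 1 := by
        unfold J
        simp [rdot, dot]
      unfold JetB_T
      rw [Prod.fst_zero, Prod.snd_zero, hJ, tv_zero, dv_zero, add_zero, add_zero, inv_one, one_mul]
    show ‖(∑' pq, S.JetB_T n α β x i j pq z) - _‖ ≤ _
    rw [← h1, h0, add_sub_cancel_left]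
    have hs2 : Summable fun pq : {pq : Z2 × Z2 | pq ≠ 0} =>
        Real.exp (Real.pi * n * S.qf (fun i => (z i).im)) *
        (‖(z - x) + (S.tv pq.1.1 + S.dv pq.1.2)‖ ^ (i + j) *
          Real.exp (-(Real.pi * n / 2 * S.hf ((z - x) + (S.tv pq.1.1 + S.dv pq.1.2))))) :=
      ((S.gauss_summable (i + j) hn' (z - x)).subtype _).mul_left _
    rw [← tsum_mul_left]
    exact tsum_of_norm_bounded hs2.hasSum (fun pq => S.JetB_T_norm n α β x i j pq.1 z)

end PerData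

end Q2T
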