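import Pool.Agent.H.MP_89f84f_ag.q2.Glue
import Pool.Agent.H.MP_89f84f_ag.q2.JetB

set_option autoImplicit false

open Complex Topology Filter Asymptotics Metric Set

namespace Q2T

/-- `∑ K a b z_a conj (w_b)`. -/
noncomputable def hm (K : Matrix (Fin 2) (Fin 2) ℂ) (z w : C2) : ℂ :=
  ∑ a, ∑ b, K a b * (z a * (starRingEnd ℂ) (w b))

private theorem auto_hm_add_left (K : Matrix (Fin 2) (Fin 2) ℂ) (z x w : C2) :
    hm K (z + x) w = hm K z w + hm K x w := by
  simp only [hm, Fin.sum_univ_two, Pi.add_apply]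
  ring

private theorem auto_hm_conj {K : Matrix (Fin 2) (Fin 2) ℂ} (hK : K.IsHermitian) (x y : C2) :
    hm K y x = (starRingEnd ℂ) (hm K x y) := by
  have h : ∀ i j, (starRingEnd ℂ) (K i j) = K j i := fun i j => by
    have := congrFun (congrFun hK j) i
    rwa [Matrix.conjTranspose_apply] at this
  simp only [hm, Fin.sum_univ_two, map_add, map_mul, h, starRingEnd_self_apply]
  ring

private theorem auto_hm_diff (K : Matrix (Fin 2) (Fin 2) ℂ) (x : C2) :
    Differentiable ℂ (fun z => hm K z x) := by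
  unfold hm
  fun_prop

namespace PerData

variable (S : PerData)

/-- Automorphy factors from absolute values.
PROOF: the entire functions `θ (z + x)` and `exp (hm K z x + hm K x x / 2) θ z` have the same absolute value
(`eq_smul_of_norm_eq` with `U = univ`). -/
theorem exists_mult {θ : C2 → ℂ} (hθ : Differentiable ℂ θ) (h0 : θ ≠ 0) {K : Matrix (Fin 2) (Fin 2) ℂ}
    (hK : K.IsHermitian)
    (h : ∀ x ∈ S.Lat, ∀ z, ‖θ (z + x)‖ ^ 2 = ‖θ z‖ ^ 2 * Real.exp (2 * (hm K z x).re + (hm K x x).re)) :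
    ∃ c : C2 → ℂ, ∀ x ∈ S.Lat, ‖c x‖ = 1 ∧ ∀ z, θ (z + x) = c x * cexp (hm K z x + hm K x x / 2) * θ z := by
  have key : ∀ x : C2, ∃ c : ℂ, x ∈ S.Lat →
      ‖c‖ = 1 ∧ ∀ z, θ (z + x) = c * cexp (hm K z x + hm K x x / 2) * θ z := by
    intro x
    by_cases hx : x ∈ S.Lat
    · obtain ⟨z₀, hz₀⟩ : ∃ z, θ z ≠ 0 := by
        by_contra hno
        push Not at hno
        exact h0 (funext hno)
      obtain ⟨c, hc1, hc2⟩ := eq_smul_of_norm_eq (U := univ) isOpen_univ isPreconnected_univ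
        (h := fun z => cexp (hm K z x + hm K x x / 2) * θ z) (k := fun z => θ (z + x))
        (((auto_hm_diff K x).add_const _).cexp.mul hθ).differentiableOn
        (hθ.comp (differentiable_id.add_const x)).differentiableOn
        (fun z _ => by
          have h1 := h x hx z
          have h2 : ‖cexp (hm K z x + hm K x x / 2) * θ z‖ ^ 2 =
              ‖θ z‖ ^ 2 * Real.exp (2 * (hm K z x).re + (hm K x x).re) := by
            rw [norm_mul, mul_pow, Complex.norm_exp, ← Real.exp_nat_mul, mul_comm]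
            congr 2
            have h3 : (hm K x x / 2).re = (hm K x x).re / 2 := by
              rw [show (2 : ℂ) = ((2 : ℝ) : ℂ) by norm_num, Complex.div_ofReal_re]
            rw [Complex.add_re, h3]
            push_cast
            ring
          have h4 : ‖θ (z + x)‖ ^ 2 = ‖cexp (hm K z x + hm K x x / 2) * θ z‖ ^ 2 := by
            rw [h1, h2]
          exact (pow_left_inj₀ (norm_nonneg _) (norm_nonneg _) two_ne_zero).1 h4)
        ⟨z₀, mem_univ _, mul_ne_zero (Complex.exp_ne_zero _) hz₀⟩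
      refine ⟨c, fun _ => ⟨hc1, fun z => ?_⟩⟩
      have h5 : θ (z + x) = c * (cexp (hm K z x + hm K x x / 2) * θ z) := hc2 z (mem_univ z)
      rw [h5, mul_assoc]
    · exact ⟨0, fun h => absurd h hx⟩
  choose c hc using key
  exact ⟨c, hc⟩

/-- `Im (hm K x y) / π` is integral on the lattice.  PROOF: compute `θ (z + x + y)` in two ways. -/
theorem integral_of_mult {θ : C2 → ℂ} (hθ : Differentiable ℂ θ) (h0 : θ ≠ 0) {K : Matrix (Fin 2) (Fin 2) ℂ}
    (hK : K.IsHermitian) {c : C2 → ℂ}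
    (hc : ∀ x ∈ S.Lat, ‖c x‖ = 1 ∧ ∀ z, θ (z + x) = c x * cexp (hm K z x + hm K x x / 2) * θ z) :
    ∀ x ∈ S.Lat, ∀ y ∈ S.Lat, ∃ k : ℤ, (hm K x y).im = Real.pi * k := by
  intro x hx y hy
  obtain ⟨z, hz⟩ : ∃ z, θ z ≠ 0 := by
    by_contra hno
    push Not at hno
    exact h0 (funext hno)
  obtain ⟨hcx, hx2⟩ := hc x hx
  obtain ⟨hcy, hy2⟩ := hc y hy
  have hcx0 : c x ≠ 0 := by
    intro h
    rw [h, norm_zero] at hcx
    exact zero_ne_one hcx
  have hcy0 : c y ≠ 0 := by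
    intro h
    rw [h, norm_zero] at hcy
    exact zero_ne_one hcy
  have h1 : θ (z + x + y) = θ (z + y + x) := by rw [add_right_comm]
  rw [hy2, hx2, hx2, hy2, auto_hm_add_left, auto_hm_add_left, Complex.exp_add, Complex.exp_add,
    Complex.exp_add, Complex.exp_add, Complex.exp_add, Complex.exp_add] at h1
  have h2 : (c x * c y * θ z * cexp (hm K z x) * cexp (hm K z y) * cexp (hm K x x / 2) *
      cexp (hm K y y / 2)) * cexp (hm K x y) = (c x * c y * θ z * cexp (hm K z x) *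
      cexp (hm K z y) * cexp (hm K x x / 2) * cexp (hm K y y / 2)) * cexp (hm K y x) := by
    linear_combination h1
  have h3 : cexp (hm K x y) = cexp (hm K y x) := by
    refine mul_left_cancel₀ ?_ h2
    simp only [ne_eq, mul_eq_zero, Complex.exp_ne_zero, or_false, not_or]
    exact ⟨⟨hcx0, hcy0⟩, hz⟩
  obtain ⟨k, hk⟩ := Complex.exp_eq_exp_iff_exists_int.1 h3
  rw [auto_hm_conj hK x y] at hk
  refine ⟨k, ?_⟩
  have h4 := congrArg Complex.im hk
  have h5 : ((k : ℂ) * (2 * (Real.pi : ℂ) * I)).im = 2 * Real.pi * k := by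
    have : (k : ℂ) * (2 * (Real.pi : ℂ) * I) = ((2 * Real.pi * k : ℝ) : ℂ) * I := by
      push_cast
      ring
    rw [this, Complex.im_ofReal_mul, Complex.I_im, mul_one]
  rw [Complex.add_im, h5, Complex.conj_im] at h4
  linarith

private theorem auto_D : S.D ≠ 0 := by
  have := S.det_pos
  unfold D
  linarith

private theorem auto_D' : (S.D : ℂ) = ((S.τ 0 0).im : ℂ) * ((S.τ 1 1).im : ℂ) -
    ((S.τ 0 1).im : ℂ) ^ 2 := by
  unfold D
  push_cast
  ring

/-- the map `M` with `hm K z z' = π bf (M z) (conj z')` -/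
private noncomputable def autoM (K : Matrix (Fin 2) (Fin 2) ℂ) : C2 →ₗ[ℂ] C2 where
  toFun z := ![(((S.τ 0 0).im : ℂ) * (K 0 0 * z 0 + K 1 0 * z 1) +
      ((S.τ 0 1).im : ℂ) * (K 0 1 * z 0 + K 1 1 * z 1)) / (Real.pi : ℂ),
    (((S.τ 0 1).im : ℂ) * (K 0 0 * z 0 + K 1 0 * z 1) +
      ((S.τ 1 1).im : ℂ) * (K 0 1 * z 0 + K 1 1 * z 1)) / (Real.pi : ℂ)]
  map_add' x y := by
    funext i
    fin_cases i <;> simp <;> ring
  map_smul' c x := by
    funext i
    fin_cases i <;> simp <;> ring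

private theorem auto_hm (K : Matrix (Fin 2) (Fin 2) ℂ) (z z' : C2) :
    hm K z z' = Real.pi * S.bf (S.autoM K z) (fun i => (starRingEnd ℂ) (z' i)) := by
  have hD : (S.D : ℂ) ≠ 0 := Complex.ofReal_ne_zero.2 S.auto_D
  have hπ : (Real.pi : ℂ) ≠ 0 := Complex.ofReal_ne_zero.2 Real.pi_ne_zero
  have e0 : S.autoM K z 0 = (((S.τ 0 0).im : ℂ) * (K 0 0 * z 0 + K 1 0 * z 1) +
      ((S.τ 0 1).im : ℂ) * (K 0 1 * z 0 + K 1 1 * z 1)) / (Real.pi : ℂ) := rfl
  have e1 : S.autoM K z 1 = (((S.τ 0 1).im : ℂ) * (K 0 0 * z 0 + K 1 0 * z 1) +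
      ((S.τ 1 1).im : ℂ) * (K 0 1 * z 0 + K 1 1 * z 1)) / (Real.pi : ℂ) := rfl
  simp only [hm, bf, Fin.sum_univ_two]
  rw [e0, e1]
  field_simp
  rw [S.auto_D']
  ring

/-- the alternating form on the lattice -/
private theorem auto_E (ξ η : Fin 2 → ℝ) (p q : Z2) {z : C2}
    (hz : z = fun i => (S.τ i 0 * ξ 0 + S.τ i 1 * ξ 1) + (![(η 0 : ℂ), (S.d : ℂ) * η 1] : C2) i) :
    (S.bf z (fun i => (starRingEnd ℂ) ((S.tv p + S.dv q) i))).im =
      (ξ 0 * q 0 + S.d * ξ 1 * q 1) - (η 0 * p 0 + S.d * η 1 * p 1) := by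
  have hD := S.auto_D
  have z0 : z 0 = (S.τ 0 0 * ξ 0 + S.τ 0 1 * ξ 1) + (η 0 : ℂ) := by rw [hz]; rfl
  have z1 : z 1 = (S.τ 0 1 * ξ 0 + S.τ 1 1 * ξ 1) + (S.d : ℂ) * η 1 := by rw [hz, S.symm]; rfl
  have x0 : (S.tv p + S.dv q) 0 = (S.τ 0 0 * (p 0 : ℂ) + S.τ 0 1 * (p 1 : ℂ)) + (q 0 : ℂ) := rfl
  have x1 : (S.tv p + S.dv q) 1 = (S.τ 0 1 * (p 0 : ℂ) + S.τ 1 1 * (p 1 : ℂ)) +
      (S.d : ℂ) * (q 1 : ℂ) := by rw [S.symm]; rfl
  simp only [bf]
  rw [x0, x1, z0, z1, Complex.div_ofReal_im, div_eq_iff hD]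
  simp only [Complex.add_im, Complex.sub_im, Complex.mul_im, Complex.add_re, Complex.mul_re,
    Complex.ofReal_im, Complex.ofReal_re, Complex.conj_re, Complex.conj_im, Complex.intCast_re,
    Complex.intCast_im, Complex.natCast_re, Complex.natCast_im]
  unfold D
  ring

/-- With `End = ℤ` the Hermitian form is `π w` times `z · (Im τ)⁻¹ conj z'`, `w ∈ ℤ`.
PROOF: let `E z z' = Im (bf z (conj z'))`; for `x = τ ξ + Δ η` (real `ξ, η`) one has `E x (Δ e_i) = (Δ ξ)_i`,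
`E x (τ e_i) = - (Δ η)_i` (as `τ (Im τ)⁻¹ conj τ` is a real symmetric matrix).  Let `M` be the linear map with
`hm K z z' = π bf (M z) (conj z')`.  For `x ∈ Lat` all `E (M x) y`, `y ∈ Lat`, are integers, so `d M x ∈ Lat`.  By `EndZ`,
`d M = n` is an integer; `E (M τ e₀) (Δ e₀) = n / d` is an integer `w`, so `M = w`. -/
theorem herm_eq (hE : S.EndZ) {K : Matrix (Fin 2) (Fin 2) ℂ} (hK : K.IsHermitian)
    (h : ∀ x ∈ S.Lat, ∀ y ∈ S.Lat, ∃ k : ℤ, (hm K x y).im = Real.pi * k) :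
    ∃ w : ℤ, ∀ z z' : C2, hm K z z' = Real.pi * w * S.bf z (fun i => (starRingEnd ℂ) (z' i)) := by
  have hd : (S.d : ℂ) ≠ 0 := Nat.cast_ne_zero.2 S.d_pos.ne'
  have hdr : (S.d : ℝ) ≠ 0 := Nat.cast_ne_zero.2 S.d_pos.ne'
  -- integrality of `E (M x) y`
  have hE1 : ∀ x ∈ S.Lat, ∀ y ∈ S.Lat, ∃ k : ℤ,
      (S.bf (S.autoM K x) (fun i => (starRingEnd ℂ) (y i))).im = k := by
    intro x hx y hy
    obtain ⟨k, hk⟩ := h x hx y hy
    refine ⟨k, ?_⟩
    rw [S.auto_hm K x y, Complex.im_ofReal_mul] at hk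
    exact mul_left_cancel₀ Real.pi_ne_zero hk
  have hlat : ∀ p q : Z2, S.tv p + S.dv q ∈ S.Lat := fun p q => ⟨p, q, rfl⟩
  obtain ⟨n, hn⟩ := hE ((S.d : ℂ) • S.autoM K) (by
    intro x hx
    obtain ⟨ξ, η, hxe⟩ := S.exists_real_coords (S.autoM K x)
    obtain ⟨a0, ha0⟩ := hE1 x hx _ (hlat 0 ![1, 0])
    obtain ⟨a1, ha1⟩ := hE1 x hx _ (hlat 0 ![0, 1])
    obtain ⟨b0, hb0⟩ := hE1 x hx _ (hlat ![1, 0] 0)
    obtain ⟨b1, hb1⟩ := hE1 x hx _ (hlat ![0, 1] 0)
    rw [S.auto_E ξ η _ _ hxe] at ha0 ha1 hb0 hb1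
    simp only [Matrix.cons_val_zero, Matrix.cons_val_one, Pi.zero_apply, Int.cast_zero,
      Int.cast_one, mul_zero, mul_one, add_zero, zero_add, sub_zero, zero_sub] at ha0 ha1 hb0 hb1
    refine ⟨![S.d * a0, a1], ![-(S.d * b0), -b1], ?_⟩
    have c0 : (ξ 0 : ℂ) = a0 := by exact_mod_cast congrArg (fun r : ℝ => (r : ℂ)) ha0
    have c1 : (S.d : ℂ) * (ξ 1 : ℂ) = a1 := by exact_mod_cast congrArg (fun r : ℝ => (r : ℂ)) ha1
    have d0 : (η 0 : ℂ) = -b0 := by
      have : η 0 = -(b0 : ℝ) := by linarith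
      exact_mod_cast congrArg (fun r : ℝ => (r : ℂ)) this
    have d1 : (S.d : ℂ) * (η 1 : ℂ) = -b1 := by
      have : (S.d : ℝ) * η 1 = -(b1 : ℝ) := by linarith
      exact_mod_cast congrArg (fun r : ℝ => (r : ℂ)) this
    funext i
    show (S.d : ℂ) * S.autoM K x i = _
    rw [hxe]
    fin_cases i
    · show (S.d : ℂ) * ((S.τ 0 0 * (ξ 0 : ℂ) + S.τ 0 1 * (ξ 1 : ℂ)) + (η 0 : ℂ)) =
        (S.τ 0 0 * ((S.d * a0 : ℤ) : ℂ) + S.τ 0 1 * ((a1 : ℤ) : ℂ)) + ((-(S.d * b0) : ℤ) : ℂ)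
      push_cast
      rw [c0, d0]
      linear_combination (S.τ 0 1) * c1
    · show (S.d : ℂ) * ((S.τ 1 0 * (ξ 0 : ℂ) + S.τ 1 1 * (ξ 1 : ℂ)) + (S.d : ℂ) * (η 1 : ℂ)) =
        (S.τ 1 0 * ((S.d * a0 : ℤ) : ℂ) + S.τ 1 1 * ((a1 : ℤ) : ℂ)) +
          (S.d : ℂ) * ((-b1 : ℤ) : ℂ)
      push_cast
      rw [c0]
      linear_combination (S.τ 1 1) * c1 + (S.d : ℂ) * d1)
  have hM : ∀ x, S.autoM K x = ((n : ℂ) / (S.d : ℂ)) • x := by
    intro x
    have h1 : (S.d : ℂ) • S.autoM K x = (n : ℂ) • x := hn x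
    calc S.autoM K x = (S.d : ℂ)⁻¹ • ((S.d : ℂ) • S.autoM K x) := by
          rw [smul_smul, inv_mul_cancel₀ hd, one_smul]
      _ = ((n : ℂ) / (S.d : ℂ)) • x := by
          rw [h1, smul_smul]
          congr 1
          field_simp
  have hbs : ∀ (r : ℂ) (x y : C2), S.bf (r • x) y = r * S.bf x y := by
    intro r x y
    simp only [bf, Pi.smul_apply, smul_eq_mul]
    ring
  obtain ⟨k, hk⟩ := hE1 _ (hlat ![1, 0] 0) _ (hlat 0 ![1, 0])
  rw [hM, hbs] at hk
  have h2 := S.auto_E (![1, 0] : Fin 2 → ℝ) (0 : Fin 2 → ℝ) 0 ![1, 0]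
    (z := S.tv ![1, 0] + S.dv 0) (by
      funext i
      fin_cases i
      · simp
      · simp)
  have h3 : ((n : ℂ) / (S.d : ℂ)) = ((n / S.d : ℝ) : ℂ) := by push_cast; rfl
  rw [h3, Complex.im_ofReal_mul, h2] at hk
  simp only [Matrix.cons_val_zero, Matrix.cons_val_one, Pi.zero_apply, Int.cast_zero,
      Int.cast_one, mul_zero, mul_one, add_zero, sub_zero] at hk
  refine ⟨k, fun z z' => ?_⟩
  rw [S.auto_hm K z z', hM, hbs, h3, hk]
  push_cast
  ring

private theorem auto_dot_symm (p p' : Z2) : dot p (S.tv p') = dot p' (S.tv p) := by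
  simp only [dot, tv_apply]
  rw [← S.symm]
  ring

private theorem auto_char {φ : ℤ → ℂ} (h0 : φ 0 = 1) (hadd : ∀ a b, φ (a + b) = φ a * φ b)
    {r : ℝ} (hr : φ 1 = cexp (2 * Real.pi * I * (r : ℂ))) (n : ℤ) :
    φ n = cexp (2 * Real.pi * I * ((r * n : ℝ) : ℂ)) := by
  induction n using Int.induction_on with
  | zero => simp [h0]
  | succ n ih =>
    rw [hadd, ih, hr, ← Complex.exp_add]
    congr 1
    push_cast
    ring
  | pred n ih =>
    have h1 : φ (-(n : ℤ)) = φ (-(n : ℤ) - 1) * φ 1 := by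
      rw [← hadd, sub_add_cancel]
    rw [ih, hr] at h1
    have h2 : φ (-(n : ℤ) - 1) = cexp (2 * Real.pi * I * ((r * ((-(n : ℤ) : ℤ) : ℝ) : ℝ) : ℂ)) *
        cexp (-(2 * Real.pi * I * (r : ℂ))) := by
      rw [h1, mul_assoc, ← Complex.exp_add, add_neg_cancel, Complex.exp_zero, mul_one]
    rw [h2, ← Complex.exp_add]
    congr 1
    push_cast
    ring

private theorem auto_arg {c : ℂ} (h : ‖c‖ = 1) : ∃ r : ℝ, c = cexp (2 * Real.pi * I * (r : ℂ)) := by
  refine ⟨Complex.arg c / (2 * Real.pi), ?_⟩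
  have hπ : (Real.pi : ℂ) ≠ 0 := Complex.ofReal_ne_zero.2 Real.pi_ne_zero
  have h1 := Complex.norm_mul_exp_arg_mul_I c
  rw [h, Complex.ofReal_one, one_mul] at h1
  conv_lhs => rw [← h1]
  congr 1
  push_cast
  field_simp

/-- Conversion to the classical normalisation.
PROOF: `g z = exp (-(π w / 2) bf z z) θ z`; compute `g (z + τ p + Δ q)`; the constants `c` are multiplicative on `τ ℤ²` and on
`Δ ℤ²` (there `hm` is real on pairs), so given by characters `exp (2 π i β · p)`, `exp (2 π i α · q)` with real `α, β`. -/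
theorem exists_classical {θ : C2 → ℂ} (hθ : Differentiable ℂ θ) (h0 : θ ≠ 0) {K : Matrix (Fin 2) (Fin 2) ℂ}
    {c : C2 → ℂ} {w : ℤ}
    (hc : ∀ x ∈ S.Lat, ‖c x‖ = 1 ∧ ∀ z, θ (z + x) = c x * cexp (hm K z x + hm K x x / 2) * θ z)
    (hw : ∀ z z' : C2, hm K z z' = Real.pi * w * S.bf z (fun i => (starRingEnd ℂ) (z' i))) :
    ∃ α β : Fin 2 → ℝ, (fun z => cexp (-(Real.pi * w / 2 * S.bf z z)) * θ z) ∈ S.Th w α β := by
  have hD : (S.D : ℂ) ≠ 0 := Complex.ofReal_ne_zero.2 S.auto_D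
  set g : C2 → ℂ := fun z => cexp (-(Real.pi * w / 2 * S.bf z z)) * θ z with hg
  have hgd : Differentiable ℂ g := by
    refine Differentiable.mul (Differentiable.cexp ?_) hθ
    unfold bf
    fun_prop
  set ψ : Z2 → Z2 → ℂ := fun p q =>
    c (S.tv p + S.dv q) * cexp (-(Real.pi * I * w * dot p (S.dv q))) with hψ
  set jj : Z2 → C2 → ℂ := fun p z =>
    cexp (-(Real.pi * I * w * (dot p (S.tv p) + 2 * dot p z))) with hjj
  have hlat : ∀ p q : Z2, S.tv p + S.dv q ∈ S.Lat := fun p q => ⟨p, q, rfl⟩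
  -- `x - conj x = 2 i Y p`
  have hbfd : ∀ (p q : Z2) (z : C2), S.bf z (S.tv p + S.dv q) -
      S.bf z (fun i => (starRingEnd ℂ) ((S.tv p + S.dv q) i)) = 2 * I * dot p z := by
    intro p q z
    have hconj : ∀ t : ℂ, t - (starRingEnd ℂ) t = 2 * I * (t.im : ℂ) := by
      intro t
      rw [Complex.sub_conj]
      push_cast
      ring
    have i0 : ((S.tv p + S.dv q) 0).im = (S.τ 0 0).im * p 0 + (S.τ 0 1).im * p 1 := by
      show ((S.τ 0 0 * (p 0 : ℂ) + S.τ 0 1 * (p 1 : ℂ)) + (q 0 : ℂ)).im = _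
      simp only [Complex.add_im, Complex.mul_im, Complex.intCast_re, Complex.intCast_im]
      ring
    have i1 : ((S.tv p + S.dv q) 1).im = (S.τ 0 1).im * p 0 + (S.τ 1 1).im * p 1 := by
      show ((S.τ 1 0 * (p 0 : ℂ) + S.τ 1 1 * (p 1 : ℂ)) + (S.d : ℂ) * (q 1 : ℂ)).im = _
      rw [← S.symm]
      simp only [Complex.add_im, Complex.mul_im, Complex.intCast_re, Complex.intCast_im,
        Complex.natCast_re, Complex.natCast_im]
      ring
    have e0 := hconj ((S.tv p + S.dv q) 0)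
    have e1 := hconj ((S.tv p + S.dv q) 1)
    rw [i0] at e0
    rw [i1] at e1
    push_cast at e0 e1
    simp only [bf]
    rw [← sub_div, div_eq_iff hD, S.auto_D', dot]
    generalize (S.tv p + S.dv q) 0 = x0 at e0 ⊢
    generalize (S.tv p + S.dv q) 1 = x1 at e1 ⊢
    linear_combination (((S.τ 1 1).im : ℂ) * z 0 - ((S.τ 0 1).im : ℂ) * z 1) * e0 +
      (((S.τ 0 0).im : ℂ) * z 1 - ((S.τ 0 1).im : ℂ) * z 0) * e1
  have hdot : ∀ (p : Z2) (z x : C2), dot p (z + x) = dot p z + dot p x := by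
    intro p z x
    simp only [dot, Pi.add_apply]
    ring
  have hbb : ∀ z x : C2, S.bf (z + x) (z + x) = S.bf z z + 2 * S.bf z x + S.bf x x := by
    intro z x
    simp only [bf, Pi.add_apply]
    field_simp
    ring
  have hmain : ∀ (p q : Z2) (z : C2), g (z + S.tv p + S.dv q) = ψ p q * jj p z * g z := by
    intro p q z
    obtain ⟨-, h1⟩ := hc _ (hlat p q)
    have h2 := h1 z
    rw [add_assoc]
    simp only [hg, hψ, hjj]
    rw [h2, hw, hw, hbb]
    have a1 := hbfd p q z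
    have a2 := hbfd p q (S.tv p + S.dv q)
    rw [hdot] at a2
    generalize S.bf z (fun i => (starRingEnd ℂ) ((S.tv p + S.dv q) i)) = u1 at a1 ⊢
    generalize S.bf (S.tv p + S.dv q) (fun i => (starRingEnd ℂ) ((S.tv p + S.dv q) i)) = u2
      at a2 ⊢
    generalize S.bf z (S.tv p + S.dv q) = v1 at a1 ⊢
    generalize S.bf (S.tv p + S.dv q) (S.tv p + S.dv q) = v2 at a2 ⊢
    have e : cexp (-(Real.pi * w / 2 * (S.bf z z + 2 * v1 + v2))) *
        cexp (Real.pi * w * u1 + Real.pi * w * u2 / 2) =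
        cexp (-(Real.pi * I * w * dot p (S.dv q))) *
        cexp (-(Real.pi * I * w * (dot p (S.tv p) + 2 * dot p z))) *
        cexp (-(Real.pi * w / 2 * S.bf z z)) := by
      rw [← Complex.exp_add, ← Complex.exp_add, ← Complex.exp_add]
      congr 1
      linear_combination (-(Real.pi : ℂ) * w) * a1 - ((Real.pi : ℂ) * w / 2) * a2
    linear_combination (c (S.tv p + S.dv q) * θ z) * e
  obtain ⟨z₀, hz₀⟩ : ∃ z, g z ≠ 0 := by
    by_contra hno
    push Not at hno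
    apply h0
    funext z
    have h1 := hno z
    simp only [hg] at h1
    exact (mul_eq_zero.1 h1).resolve_left (Complex.exp_ne_zero _)
  have hjc : ∀ (p p' q' : Z2) (z : C2),
      jj p (z + S.tv p' + S.dv q') * jj p' z = jj (p + p') z := by
    intro p p' q' z
    simp only [hjj]
    rw [← Complex.exp_add, Complex.exp_eq_exp_iff_exists_int]
    refine ⟨-(w * (p 0 * q' 0 + S.d * (p 1 * q' 1))), ?_⟩
    rw [hdot, hdot, S.tv_add, hdot]
    have e1 : dot (p + p') (S.tv p) = dot p (S.tv p) + dot p' (S.tv p) := by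
      simp only [dot, Pi.add_apply]
      push_cast
      ring
    have e2 : dot (p + p') (S.tv p') = dot p (S.tv p') + dot p' (S.tv p') := by
      simp only [dot, Pi.add_apply]
      push_cast
      ring
    have e3 : dot (p + p') z = dot p z + dot p' z := by
      simp only [dot, Pi.add_apply]
      push_cast
      ring
    have e4 : dot p (S.dv q') = (p 0 : ℂ) * q' 0 + S.d * (p 1 * q' 1) := by
      simp only [dot, dv_zero', dv_one']
      ring
    rw [e1, e2, e3, e4, S.auto_dot_symm p' p]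
    push_cast
    ring
  have hψm : ∀ p q p' q' : Z2, ψ (p + p') (q + q') = ψ p q * ψ p' q' := by
    intro p q p' q'
    have h1 : z₀ + S.tv (p + p') + S.dv (q + q') =
        (z₀ + S.tv p' + S.dv q') + S.tv p + S.dv q := by
      rw [S.tv_add, S.dv_add]
      abel
    have h2 := hmain (p + p') (q + q') z₀
    rw [h1, hmain, hmain, ← hjc p p' q' z₀] at h2
    have h3 : jj p (z₀ + S.tv p' + S.dv q') ≠ 0 := Complex.exp_ne_zero _
    have h4 : jj p' z₀ ≠ 0 := Complex.exp_ne_zero _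
    have h5 : (jj p (z₀ + S.tv p' + S.dv q') * jj p' z₀ * g z₀) * (ψ p q * ψ p' q') =
        (jj p (z₀ + S.tv p' + S.dv q') * jj p' z₀ * g z₀) * ψ (p + p') (q + q') := by
      linear_combination h2
    exact (mul_left_cancel₀ (mul_ne_zero (mul_ne_zero h3 h4) hz₀) h5).symm
  have hψ0 : ψ 0 0 = 1 := by
    have h1 := hψm 0 0 0 0
    rw [add_zero] at h1
    have h2 : ψ 0 0 ≠ 0 := by
      simp only [hψ]
      refine mul_ne_zero ?_ (Complex.exp_ne_zero _)
      intro h3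
      have h4 := (hc _ (hlat 0 0)).1
      rw [h3, norm_zero] at h4
      exact zero_ne_one h4
    have h3 : ψ 0 0 * 1 = ψ 0 0 * ψ 0 0 := by rw [mul_one]; exact h1
    exact (mul_left_cancel₀ h2 h3).symm
  have hψn : ∀ p q, ‖ψ p q‖ = 1 := by
    intro p q
    simp only [hψ]
    rw [norm_mul, (hc _ (hlat p q)).1, one_mul]
    have e : -(Real.pi * I * w * dot p (S.dv q)) =
        ((-(Real.pi * w * (p 0 * q 0 + S.d * (p 1 * q 1))) : ℝ) : ℂ) * I := by
      simp only [dot, dv_zero', dv_one']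
      push_cast
      ring
    rw [e, Complex.norm_exp_ofReal_mul_I]
  obtain ⟨b0, hb0⟩ := auto_arg (hψn ![1, 0] 0)
  obtain ⟨b1, hb1⟩ := auto_arg (hψn ![0, 1] 0)
  obtain ⟨a0, ha0⟩ := auto_arg (hψn 0 ![1, 0])
  obtain ⟨a1, ha1⟩ := auto_arg (hψn 0 ![0, 1])
  have v0 : ∀ a b : ℤ, (![a + b, 0] : Z2) = ![a, 0] + ![b, 0] := fun a b => by
    funext i; fin_cases i <;> simp
  have v1 : ∀ a b : ℤ, (![0, a + b] : Z2) = ![0, a] + ![0, b] := fun a b => by
    funext i; fin_cases i <;> simp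
  have vz : (![0, 0] : Z2) = 0 := by
    funext i; fin_cases i <;> simp
  have f1 := auto_char (φ := fun n => ψ ![n, 0] 0) (by
      show ψ ![0, 0] 0 = 1
      rw [vz]; exact hψ0) (fun a b => by
      show ψ ![a + b, 0] 0 = ψ ![a, 0] 0 * ψ ![b, 0] 0
      rw [v0, ← hψm, add_zero]) hb0
  have f2 := auto_char (φ := fun n => ψ ![0, n] 0) (by
      show ψ ![0, 0] 0 = 1
      rw [vz]; exact hψ0) (fun a b => by
      show ψ ![0, a + b] 0 = ψ ![0, a] 0 * ψ ![0, b] 0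
      rw [v1, ← hψm, add_zero]) hb1
  have f3 := auto_char (φ := fun n => ψ 0 ![n, 0]) (by
      show ψ 0 ![0, 0] = 1
      rw [vz]; exact hψ0) (fun a b => by
      show ψ 0 ![a + b, 0] = ψ 0 ![a, 0] * ψ 0 ![b, 0]
      rw [v0, ← hψm, add_zero]) ha0
  have f4 := auto_char (φ := fun n => ψ 0 ![0, n]) (by
      show ψ 0 ![0, 0] = 1
      rw [vz]; exact hψ0) (fun a b => by
      show ψ 0 ![0, a + b] = ψ 0 ![0, a] * ψ 0 ![0, b]
      rw [v1, ← hψm, add_zero]) ha1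
  refine ⟨![a0, a1], ![b0, b1], hgd, fun p q z => ?_⟩
  rw [hmain]
  congr 1
  unfold J
  rw [hjj]
  congr 1
  have hp : p = ![p 0, 0] + ![0, p 1] := by
    funext i; fin_cases i <;> simp
  have hq : q = ![q 0, 0] + ![0, q 1] := by
    funext i; fin_cases i <;> simp
  have g1 : ψ p q = ψ p 0 * ψ 0 q := by rw [← hψm, add_zero, zero_add]
  have g2 : ψ p 0 = ψ ![p 0, 0] 0 * ψ ![0, p 1] 0 := by rw [← hψm, ← hp, add_zero]
  have g3 : ψ 0 q = ψ 0 ![q 0, 0] * ψ 0 ![0, q 1] := by rw [← hψm, ← hq, add_zero]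
  have f1' : ψ ![p 0, 0] 0 = _ := f1 (p 0)
  have f2' : ψ ![0, p 1] 0 = _ := f2 (p 1)
  have f3' : ψ 0 ![q 0, 0] = _ := f3 (q 0)
  have f4' : ψ 0 ![0, q 1] = _ := f4 (q 1)
  rw [g1, g2, g3, f1', f2', f3', f4', ← Complex.exp_add, ← Complex.exp_add, ← Complex.exp_add]
  congr 1
  simp only [rdot, Matrix.cons_val_zero, Matrix.cons_val_one]
  push_cast
  ring

end PerData

end Q2T
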