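import Pool.Agent.H.MP_89f84f_ag.q2.VanD

set_option autoImplicit false

open Complex Topology Filter Asymptotics Metric Set Module

namespace Q2T

private theorem BzA_card (N : ℕ) : 2 * Fintype.card (Σ i : Fin N, Fin (N - i)) = N * (N + 1) := by
  rw [Fintype.card_sigma]
  simp only [Fintype.card_fin]
  rw [Fin.sum_univ_eq_sum_range (fun i => N - i) N]
  induction N with
  | zero => simp
  | succ k ih =>
    rw [Finset.sum_range_succ']
    have : ∑ i ∈ Finset.range k, (k + 1 - (i + 1)) = ∑ i ∈ Finset.range k, (k - i) := by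
      apply Finset.sum_congr rfl
      intro i _
      omega
    rw [this, mul_add, ih]
    simp only [Nat.sub_zero]
    ring

/-- All Taylor coefficients of total degree less than `N`. -/
private noncomputable def BzA_L (p : C2) (N : ℕ) : Ent →ₗ[ℂ] ((Σ i : Fin N, Fin (N - i)) → ℂ) where
  toFun f := fun x => tc p f.1 x.1 x.2
  map_add' f g := by
    funext x
    exact tc_add f.2 g.2 _ _
  map_smul' c f := by
    funext x
    exact tc_smul f.2 c _ _

private theorem BzA_mon (p : C2) (i j : ℕ) : (fun z : C2 => (z 0 - p 0) ^ i * (z 1 - p 1) ^ j) ∈ Ent := by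
  show Differentiable ℂ _
  fun_prop

private theorem BzA_surj (p : C2) (N : ℕ) : Function.Surjective (BzA_L p N) := by
  classical
  intro c
  refine ⟨∑ x, c x • ⟨_, BzA_mon p x.1 x.2⟩, ?_⟩
  rw [map_sum]
  funext y
  rw [Finset.sum_apply]
  simp only [map_smul, Pi.smul_apply, smul_eq_mul]
  have h : ∀ x : (Σ i : Fin N, Fin (N - i)), BzA_L p N ⟨_, BzA_mon p x.1 x.2⟩ y = if y = x then 1 else 0 := by
    intro x
    show tc p _ _ _ = _
    rw [tc_monomial]
    by_cases hxy : y = x
    · rw [if_pos hxy, if_pos]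
      subst hxy
      exact ⟨rfl, rfl⟩
    · rw [if_neg hxy, if_neg]
      rintro ⟨h1, h2⟩
      apply hxy
      obtain ⟨a, b⟩ := x
      obtain ⟨a', b'⟩ := y
      have h3 : a' = a := Fin.ext h1
      subst h3
      have h4 : b' = b := Fin.ext h2
      rw [h4]
  simp only [h]
  simp

private theorem BzA_ker (p : C2) (N : ℕ) (f : Ent) : BzA_L p N f = 0 ↔ (f : C2 → ℂ) ∈ Van N p := by
  rw [mem_van_iff f.2]
  constructor
  · intro h i j hij
    have := congrFun h ⟨⟨i, by omega⟩, ⟨j, by simp only; omega⟩⟩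
    exact this
  · intro h
    funext x
    show tc p f.1 x.1 x.2 = 0
    apply h
    have h2 := x.2.2
    omega

/-- Multiplication by an entire function. -/
private noncomputable def BzA_M (s : C2 → ℂ) (hs : Differentiable ℂ s) : Ent →ₗ[ℂ] Ent where
  toFun f := ⟨s * f.1, hs.mul f.2⟩
  map_add' f g := by
    apply Subtype.ext
    show s * (f.1 + g.1) = s * f.1 + s * g.1
    rw [mul_add]
  map_smul' c f := by
    apply Subtype.ext
    show s * (c • f.1) = c • (s * f.1)
    rw [mul_smul_comm]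

private theorem BzA_rank {p : C2} {s : C2 → ℂ} (hs : Differentiable ℂ s) {m n : ℕ} (hsm : s ∈ Van m p) :
    finrank ℂ (LinearMap.range ((BzA_L p (m + n)).comp (BzA_M s hs))) ≤
      Fintype.card (Σ i : Fin n, Fin (n - i)) := by
  have hk : LinearMap.ker (BzA_L p n) ≤ LinearMap.ker ((BzA_L p (m + n)).comp (BzA_M s hs)) := by
    intro f hf
    rw [LinearMap.mem_ker, BzA_ker] at hf
    rw [LinearMap.mem_ker, LinearMap.comp_apply, BzA_ker]
    exact van_mul hsm hf
  have e := (BzA_L p n).quotKerEquivRange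
  have hfin : Module.Finite ℂ (Ent ⧸ LinearMap.ker (BzA_L p n)) := Module.Finite.equiv e.symm
  rw [← Submodule.range_liftQ (LinearMap.ker (BzA_L p n)) _ hk]
  refine (LinearMap.finrank_range_le _).trans ?_
  rw [e.finrank_eq]
  refine (Submodule.finrank_le _).trans ?_
  rw [Module.finrank_fintype_fun_eq_card]

/-- Local intersection: if `s, t` have exact orders `m, n` at `p`, the ideal generated by `s, t` and the functions of
order `≥ m + n` has codimension at least `m n` in the entire functions.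
PROOF: let `A_j = Ent / Van j` of dimension `T j = j (j + 1) / 2` (`mem_van_iff`, `tc_monomial`).  The image of
`Mult s + Mult t` in `A_N`, `N = m + n`, is the image of the linear map `A_{N-m} × A_{N-n} → A_N`,
`(f, g) ↦ s f + t g`.  Its dimension is at most `T n + T m` (here `N - m - n = 0`), and
`T (m + n) - T m - T n = m n`. -/
theorem local_lambda {p : C2} {s t : C2 → ℂ} (hs : Differentiable ℂ s) (ht : Differentiable ℂ t) {m n : ℕ}
    (hsm : s ∈ Van m p) (htn : t ∈ Van n p) :
    ∃ l : Ent →ₗ[ℂ] (Fin (m * n) → ℂ), Function.Surjective l ∧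
      (∀ f : Ent, (f : C2 → ℂ) ∈ Mult s → l f = 0) ∧ (∀ f : Ent, (f : C2 → ℂ) ∈ Mult t → l f = 0) ∧
      ∀ f : Ent, (f : C2 → ℂ) ∈ Van (m + n) p → l f = 0 := by
  classical
  set R1 := LinearMap.range ((BzA_L p (m + n)).comp (BzA_M s hs)) with hR1
  set R2 := LinearMap.range ((BzA_L p (m + n)).comp (BzA_M t ht)) with hR2
  have h1 : finrank ℂ R1 ≤ Fintype.card (Σ i : Fin n, Fin (n - i)) := BzA_rank hs hsm
  have h2 : finrank ℂ R2 ≤ Fintype.card (Σ i : Fin m, Fin (m - i)) := by
    have h3 := BzA_rank (p := p) ht (m := n) (n := m) htn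
    have h4 : ∀ N : ℕ, N = m + n →
        finrank ℂ (LinearMap.range ((BzA_L p N).comp (BzA_M t ht))) ≤
          Fintype.card (Σ i : Fin m, Fin (m - i)) →
        finrank ℂ (LinearMap.range ((BzA_L p (m + n)).comp (BzA_M t ht))) ≤
          Fintype.card (Σ i : Fin m, Fin (m - i)) := by
      intro N hN h
      subst hN
      exact h
    exact h4 (n + m) (add_comm _ _) h3
  have h3 : finrank ℂ (R1 ⊔ R2 : Submodule ℂ _) ≤ finrank ℂ R1 + finrank ℂ R2 :=
    Submodule.finrank_add_le_finrank_add_finrank R1 R2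
  have h4 := Submodule.finrank_quotient_add_finrank (R1 ⊔ R2)
  rw [Module.finrank_fintype_fun_eq_card] at h4
  have c1 := BzA_card (m + n)
  have c2 := BzA_card m
  have c3 := BzA_card n
  have h5 : m * n ≤ finrank ℂ (((Σ i : Fin (m + n), Fin (m + n - i)) → ℂ) ⧸ (R1 ⊔ R2)) := by
    nlinarith
  obtain ⟨φ, hφ⟩ : ∃ φ : (((Σ i : Fin (m + n), Fin (m + n - i)) → ℂ) ⧸ (R1 ⊔ R2)) →ₗ[ℂ]
      (Fin (m * n) → ℂ), Function.Surjective φ := by
    refine ⟨(LinearMap.funLeft ℂ ℂ (Fin.castLE h5)).comp (Module.finBasis ℂ _).equivFun.toLinearMap, ?_⟩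
    rw [LinearMap.coe_comp]
    exact (LinearMap.funLeft_surjective_of_injective ℂ ℂ _ (Fin.castLE_injective h5)).comp
      (Module.finBasis ℂ _).equivFun.surjective
  refine ⟨φ.comp ((R1 ⊔ R2).mkQ.comp (BzA_L p (m + n))), ?_, ?_, ?_, ?_⟩
  · exact hφ.comp ((Submodule.mkQ_surjective _).comp (BzA_surj p (m + n)))
  · rintro f ⟨h, hh, hf⟩
    rw [LinearMap.comp_apply, LinearMap.comp_apply]
    have : (R1 ⊔ R2).mkQ (BzA_L p (m + n) f) = 0 := by
      rw [Submodule.mkQ_apply, Submodule.Quotient.mk_eq_zero]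
      apply Submodule.mem_sup_left
      rw [hR1, LinearMap.mem_range]
      refine ⟨⟨h, hh⟩, ?_⟩
      rw [LinearMap.comp_apply]
      congr 1
      apply Subtype.ext
      exact hf.symm
    rw [this, map_zero]
  · rintro f ⟨h, hh, hf⟩
    rw [LinearMap.comp_apply, LinearMap.comp_apply]
    have : (R1 ⊔ R2).mkQ (BzA_L p (m + n) f) = 0 := by
      rw [Submodule.mkQ_apply, Submodule.Quotient.mk_eq_zero]
      apply Submodule.mem_sup_right
      rw [hR2, LinearMap.mem_range]
      refine ⟨⟨h, hh⟩, ?_⟩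
      rw [LinearMap.comp_apply]
      congr 1
      apply Subtype.ext
      exact hf.symm
    rw [this, map_zero]
  · intro f hf
    rw [LinearMap.comp_apply, LinearMap.comp_apply, (BzA_ker p (m + n) f).mpr hf, map_zero, map_zero]

end Q2T
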