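import Pool.Agent.H.MP_89f84f_ag.q2.HartA

set_option autoImplicit false

open Complex Topology Filter Asymptotics Metric Set

namespace Q2T

private theorem HartB_local {U : Set C2} (hU : IsOpen U) {a b c e : C2 → ℂ}
    (ha : DifferentiableOn ℂ a U) (hb : DifferentiableOn ℂ b U) (hc : DifferentiableOn ℂ c U)
    (he : DifferentiableOn ℂ e U) (h : ∀ z ∈ U, a z * e z = b z * c z)
    (hi : ∀ p ∈ U, ∀ᶠ z in 𝓝[≠] p, ¬ (a z = 0 ∧ b z = 0)) :
    ∃ k : C2 → ℂ, DifferentiableOn ℂ k U ∧ (∀ z ∈ U, c z = a z * k z) ∧ ∀ z ∈ U, e z = b z * k z := by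
  classical
  -- the quotient off the common zeros
  let k0 : C2 → ℂ := fun z => if a z ≠ 0 then c z / a z else e z / b z
  have hat : ∀ z ∈ U, ∀ {g : C2 → ℂ}, DifferentiableOn ℂ g U → DifferentiableAt ℂ g z :=
    fun z hz _ hg => (hg z hz).differentiableAt (hU.mem_nhds hz)
  have hk0 : ∀ z ∈ U, ¬ (a z = 0 ∧ b z = 0) → DifferentiableAt ℂ k0 z := by
    intro z hz hne
    by_cases haz : a z = 0
    · have hbz : b z ≠ 0 := fun hbz => hne ⟨haz, hbz⟩
      have hev : k0 =ᶠ[𝓝 z] fun w => e w * (b w)⁻¹ := by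
        filter_upwards [hU.mem_nhds hz, (hat z hz hb).continuousAt.eventually_ne hbz] with w hw hbw
        by_cases haw : a w = 0
        · show (if a w ≠ 0 then c w / a w else e w / b w) = e w * (b w)⁻¹
          rw [if_neg (not_not.2 haw), div_eq_mul_inv]
        · show (if a w ≠ 0 then c w / a w else e w / b w) = e w * (b w)⁻¹
          rw [if_pos haw, ← div_eq_mul_inv, div_eq_div_iff haw hbw]
          have := h w hw
          linear_combination -this
      exact ((hat z hz he).mul ((hat z hz hb).inv hbz)).congr_of_eventuallyEq hev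
    · have hev : k0 =ᶠ[𝓝 z] fun w => c w * (a w)⁻¹ := by
        filter_upwards [(hat z hz ha).continuousAt.eventually_ne haz] with w haw
        show (if a w ≠ 0 then c w / a w else e w / b w) = c w * (a w)⁻¹
        rw [if_pos haw, div_eq_mul_inv]
      exact ((hat z hz hc).mul ((hat z hz ha).inv haz)).congr_of_eventuallyEq hev
  -- local extensions
  have hext : ∀ p ∈ U, ∃ r > 0, ∃ G : C2 → ℂ, ball p r ⊆ U ∧ DifferentiableOn ℂ G (ball p r) ∧
      (∀ z ∈ ball p r, z ≠ p → ¬ (a z = 0 ∧ b z = 0)) ∧ ∀ z ∈ ball p r, z ≠ p → G z = k0 z := by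
    intro p hp
    have h1 := hi p hp
    rw [eventually_nhdsWithin_iff, Metric.eventually_nhds_iff_ball] at h1
    obtain ⟨r1, hr1, h1⟩ := h1
    obtain ⟨r2, hr2, h2⟩ := Metric.isOpen_iff.1 hU p hp
    have hr : 0 < min r1 r2 := lt_min hr1 hr2
    have hsub1 : ball p (min r1 r2) ⊆ ball p r1 := ball_subset_ball (min_le_left _ _)
    have hsub2 : ball p (min r1 r2) ⊆ U := (ball_subset_ball (min_le_right _ _)).trans h2
    have hno : ∀ z ∈ ball p (min r1 r2), z ≠ p → ¬ (a z = 0 ∧ b z = 0) :=
      fun z hz hzp => h1 z (hsub1 hz) hzp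
    obtain ⟨G, hG, hGe⟩ := hartogs hr (F := k0) (p := p) (fun z hz =>
      (hk0 z (hsub2 hz.1) (hno z hz.1 hz.2)).differentiableWithinAt)
    exact ⟨min r1 r2, hr, G, hsub2, hG, hno, hGe⟩
  -- the function
  let k : C2 → ℂ := fun z => if a z = 0 ∧ b z = 0 then limUnder (𝓝[≠] z) k0 else k0 z
  have hkG : ∀ p ∈ U, ∃ r > 0, ∃ G : C2 → ℂ, ball p r ⊆ U ∧ DifferentiableOn ℂ G (ball p r) ∧
      (∀ z ∈ ball p r, z ≠ p → ¬ (a z = 0 ∧ b z = 0)) ∧ ∀ z ∈ ball p r, k z = G z := by
    intro p hp
    obtain ⟨r, hr, G, hsub, hG, hno, hGe⟩ := hext p hp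
    by_cases hpz : a p = 0 ∧ b p = 0
    · refine ⟨r, hr, G, hsub, hG, hno, fun z hz => ?_⟩
      by_cases hzp : z = p
      · subst hzp
        show (if a z = 0 ∧ b z = 0 then limUnder (𝓝[≠] z) k0 else k0 z) = G z
        rw [if_pos hpz]
        have hGc : Tendsto G (𝓝[≠] z) (𝓝 (G z)) :=
          ((hG z hz).differentiableAt (isOpen_ball.mem_nhds hz)).continuousAt.tendsto.mono_left
            nhdsWithin_le_nhds
        have hev : G =ᶠ[𝓝[≠] z] k0 := by
          rw [EventuallyEq, eventually_nhdsWithin_iff]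
          filter_upwards [isOpen_ball.mem_nhds hz] with w hw hwz
          exact hGe w hw hwz
        exact (hGc.congr' hev).limUnder_eq
      · show (if a z = 0 ∧ b z = 0 then limUnder (𝓝[≠] z) k0 else k0 z) = G z
        rw [if_neg (hno z hz hzp), hGe z hz hzp]
    · -- no zero at `p` either
      refine ⟨r, hr, k0, hsub, fun z hz => ?_, hno, fun z hz => ?_⟩
      · have hz0 : ¬ (a z = 0 ∧ b z = 0) := by
          by_cases hzp : z = p
          · rw [hzp]; exact hpz
          · exact hno z hz hzp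
        exact (hk0 z (hsub hz) hz0).differentiableWithinAt
      · have hz0 : ¬ (a z = 0 ∧ b z = 0) := by
          by_cases hzp : z = p
          · rw [hzp]; exact hpz
          · exact hno z hz hzp
        show (if a z = 0 ∧ b z = 0 then limUnder (𝓝[≠] z) k0 else k0 z) = k0 z
        rw [if_neg hz0]
  have hkd : ∀ p ∈ U, DifferentiableAt ℂ k p := by
    intro p hp
    obtain ⟨r, hr, G, hsub, hG, hno, hGe⟩ := hkG p hp
    have h1 : DifferentiableAt ℂ G p :=
      (hG p (mem_ball_self hr)).differentiableAt (ball_mem_nhds p hr)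
    refine h1.congr_of_eventuallyEq ?_
    filter_upwards [ball_mem_nhds p hr] with z hz
    exact hGe z hz
  -- the identities off the common zeros
  have hid : ∀ z ∈ U, ¬ (a z = 0 ∧ b z = 0) → c z = a z * k z ∧ e z = b z * k z := by
    intro z hz hne
    have hkz : k z = k0 z := by
      show (if a z = 0 ∧ b z = 0 then limUnder (𝓝[≠] z) k0 else k0 z) = k0 z
      rw [if_neg hne]
    rw [hkz]
    have h1 := h z hz
    by_cases haz : a z = 0
    · have hbz : b z ≠ 0 := fun hbz => hne ⟨haz, hbz⟩
      have hk : k0 z = e z / b z := by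
        show (if a z ≠ 0 then c z / a z else e z / b z) = e z / b z
        rw [if_neg (not_not.2 haz)]
      rw [hk]
      constructor
      · rw [haz, zero_mul]
        rw [haz, zero_mul] at h1
        rcases mul_eq_zero.1 h1.symm with h2 | h2
        · exact absurd h2 hbz
        · exact h2
      · field_simp
    · have hk : k0 z = c z / a z := by
        show (if a z ≠ 0 then c z / a z else e z / b z) = c z / a z
        rw [if_pos haz]
      rw [hk]
      constructor
      · field_simp
      · rw [mul_div_assoc', eq_div_iff haz]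
        linear_combination h1
  refine ⟨k, fun z hz => (hkd z hz).differentiableWithinAt, fun z hz => ?_, fun z hz => ?_⟩
  · by_cases hne : a z = 0 ∧ b z = 0
    · have h1 : Tendsto c (𝓝[≠] z) (𝓝 (c z)) :=
        (hat z hz hc).continuousAt.tendsto.mono_left nhdsWithin_le_nhds
      have h2 : Tendsto (fun w => a w * k w) (𝓝[≠] z) (𝓝 (a z * k z)) :=
        ((hat z hz ha).continuousAt.mul (hkd z hz).continuousAt).tendsto.mono_left
          nhdsWithin_le_nhds
      have hev : c =ᶠ[𝓝[≠] z] fun w => a w * k w := by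
        filter_upwards [hi z hz, mem_nhdsWithin_of_mem_nhds (hU.mem_nhds hz)] with w hw hwU
        exact (hid w hwU hw).1
      exact tendsto_nhds_unique (h1.congr' hev) h2
    · exact (hid z hz hne).1
  · by_cases hne : a z = 0 ∧ b z = 0
    · have h1 : Tendsto e (𝓝[≠] z) (𝓝 (e z)) :=
        (hat z hz he).continuousAt.tendsto.mono_left nhdsWithin_le_nhds
      have h2 : Tendsto (fun w => b w * k w) (𝓝[≠] z) (𝓝 (b z * k z)) :=
        ((hat z hz hb).continuousAt.mul (hkd z hz).continuousAt).tendsto.mono_left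
          nhdsWithin_le_nhds
      have hev : e =ᶠ[𝓝[≠] z] fun w => b w * k w := by
        filter_upwards [hi z hz, mem_nhdsWithin_of_mem_nhds (hU.mem_nhds hz)] with w hw hwU
        exact (hid w hwU hw).2
      exact tendsto_nhds_unique (h1.congr' hev) h2
    · exact (hid z hz hne).2

/-- Local division: on an open set `U`, if `a e = b c` and the common zeros of `a, b` are isolated in `U` and `a` (and `b`)
do not vanish identically near any point, then `c = a k`, `e = b k` with `k` holomorphic.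
PROOF: `k = c / a` where `a ≠ 0`, `= e / b` where `b ≠ 0`: holomorphic off the common zeros, extended by `hartogs`
(define `k p` as the value of the local extension); identities by density of `{a ≠ 0}`. -/
theorem local_div {U : Set C2} (hU : IsOpen U) {a b c e : C2 → ℂ} (ha : DifferentiableOn ℂ a U)
    (hb : DifferentiableOn ℂ b U) (hc : DifferentiableOn ℂ c U) (he : DifferentiableOn ℂ e U)
    (h : ∀ z ∈ U, a z * e z = b z * c z) (hi : ∀ p ∈ U, ∀ᶠ z in 𝓝[≠] p, ¬ (a z = 0 ∧ b z = 0))
    (ha0 : ∀ p ∈ U, ∃ᶠ z in 𝓝 p, a z ≠ 0) (hb0 : ∀ p ∈ U, ∃ᶠ z in 𝓝 p, b z ≠ 0) :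
    ∃ k : C2 → ℂ, DifferentiableOn ℂ k U ∧ (∀ z ∈ U, c z = a z * k z) ∧ ∀ z ∈ U, e z = b z * k z :=
  HartB_local hU ha hb hc he h hi

/-- Global division for coprime entire functions. -/
theorem dvd_of_copr {s t f : C2 → ℂ} (hs : Differentiable ℂ s) (ht : Differentiable ℂ t)
    (hf : Differentiable ℂ f) (hs0 : s ≠ 0) (ht0 : t ≠ 0) (hc : Copr s t) (h : t * f ∈ Mult s) :
    f ∈ Mult s := by
  obtain ⟨g, hg, hgf⟩ := h
  obtain ⟨k, hk, h1, -⟩ := HartB_local (U := univ) isOpen_univ (a := s) (b := t) (c := f) (e := g)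
    hs.differentiableOn ht.differentiableOn hf.differentiableOn hg.differentiableOn
    (fun z _ => (congrFun hgf z).symm) (fun p _ => hc p)
  refine ⟨k, differentiableOn_univ.1 hk, ?_⟩
  funext z
  exact h1 z (mem_univ z)

theorem copr_symm {s t : C2 → ℂ} (h : Copr s t) : Copr t s := by
  intro p
  filter_upwards [h p] with z hz h2
  exact hz ⟨h2.2, h2.1⟩

/-- translation and scaling of coprimality -/
theorem copr_comp_add {s t : C2 → ℂ} (h : Copr s t) (x : C2) : Copr (fun z => s (z + x)) (fun z => t (z + x)) := by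
  intro p
  have h1 : Tendsto (fun z : C2 => z + x) (𝓝[≠] p) (𝓝[≠] (p + x)) := by
    rw [tendsto_nhdsWithin_iff]
    constructor
    · exact (tendsto_id.add_const x).mono_left nhdsWithin_le_nhds
    · filter_upwards [self_mem_nhdsWithin] with z hz h2
      apply hz
      exact add_right_cancel h2
  exact h1.eventually (h (p + x))

end Q2T
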