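import Pool.Agent.H.MP_89f84f_ag.q2.ThF
import Pool.Agent.H.MP_89f84f_ag.q2.HartB

set_option autoImplicit false

open Complex Topology Filter Asymptotics Metric Set Module

namespace Q2T

namespace PerData

variable (S : PerData)

/-- Multiplication by a theta function. -/
private theorem bzMul {u n : ℤ} {α β : Fin 2 → ℝ} {s f : C2 → ℂ} (hs : s ∈ S.Th u α β)
    (hf : f ∈ S.Th (n - u) (-α) (-β)) : s * f ∈ S.Th n 0 0 := by
  have h := S.th_mul hs hf
  rw [show u + (n - u) = n by ring, add_neg_cancel, add_neg_cancel] at h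
  exact h

/-- The space `s Th (n - u) + t Th (n - v)` inside `Th n` for coprime `s, t`: dimension `(n ^ 2 - 2 u v) d`.
PROOF: the map `(f, g) ↦ s f + t g` on `Th (n - u) × Th (n - v)` has kernel isomorphic to `Th (n - u - v)` through
`h ↦ (t h, - s h)`: if `s f = - t g` then `f` is a multiple of `t` (`dvd_of_copr`), and the cofactor is a theta function
(`th_quot`).  Dimension `d ((n - u)² + (n - v)² - (n - u - v)²)`. -/
theorem exists_koszul {u v n : ℤ} {α β α' β' : Fin 2 → ℝ} {s t : C2 → ℂ} (hu : 1 ≤ u) (hv : 1 ≤ v)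
    (hs : s ∈ S.Th u α β) (ht : t ∈ S.Th v α' β') (hs0 : s ≠ 0) (ht0 : t ≠ 0) (hc : Copr s t)
    (hn : u + v < n) :
    ∃ W : Submodule ℂ (C2 → ℂ), W ≤ S.Th n 0 0 ∧ W ≤ (Mult s ⊓ Ent) ⊔ (Mult t ⊓ Ent) ∧
      (finrank ℂ W : ℤ) = (n ^ 2 - 2 * u * v) * S.d := by
  classical
  have hsd : Differentiable ℂ s := hs.1
  have htd : Differentiable ℂ t := ht.1
  let A := S.Th (n - u) (-α) (-β)
  let B := S.Th (n - v) (-α') (-β')
  let C := S.Th (n - u - v) (-α - α') (-β - β')
  have : FiniteDimensional ℂ A := S.finite_th _ _ _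
  have : FiniteDimensional ℂ B := S.finite_th _ _ _
  have : FiniteDimensional ℂ C := S.finite_th _ _ _
  let φ : (A × B) →ₗ[ℂ] (C2 → ℂ) :=
    { toFun := fun x => s * (x.1 : C2 → ℂ) + t * (x.2 : C2 → ℂ)
      map_add' := fun x y => by
        simp only [Prod.fst_add, Prod.snd_add, Submodule.coe_add, mul_add]
        abel
      map_smul' := fun c x => by
        simp only [Prod.smul_fst, Prod.smul_snd, Submodule.coe_smul, mul_smul_comm, smul_add,
          RingHom.id_apply] }
  have hCA : ∀ h ∈ C, t * h ∈ A := by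
    intro h hh
    have := S.th_mul ht hh
    rw [show v + (n - u - v) = n - u by ring, show α' + (-α - α') = -α by abel,
      show β' + (-β - β') = -β by abel] at this
    exact this
  have hCB : ∀ h ∈ C, -(s * h) ∈ B := by
    intro h hh
    have := S.th_mul hs hh
    rw [show u + (n - u - v) = n - v by ring, show α + (-α - α') = -α' by abel,
      show β + (-β - β') = -β' by abel] at this
    exact Submodule.neg_mem _ this
  let ψ : C →ₗ[ℂ] (A × B) :=
    { toFun := fun h => (⟨t * (h : C2 → ℂ), hCA h h.2⟩, ⟨-(s * (h : C2 → ℂ)), hCB h h.2⟩)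
      map_add' := fun x y => by
        refine Prod.ext (Subtype.ext ?_) (Subtype.ext ?_)
        · change t * ((x : C2 → ℂ) + (y : C2 → ℂ)) = t * (x : C2 → ℂ) + t * (y : C2 → ℂ)
          rw [mul_add]
        · change -(s * ((x : C2 → ℂ) + (y : C2 → ℂ))) = -(s * (x : C2 → ℂ)) + -(s * (y : C2 → ℂ))
          rw [mul_add, neg_add]
      map_smul' := fun c x => by
        refine Prod.ext (Subtype.ext ?_) (Subtype.ext ?_)
        · change t * (c • (x : C2 → ℂ)) = c • (t * (x : C2 → ℂ))
          rw [mul_smul_comm]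
        · change -(s * (c • (x : C2 → ℂ))) = c • -(s * (x : C2 → ℂ))
          rw [mul_smul_comm, smul_neg] }
  have hψi : Function.Injective ψ := by
    rw [← LinearMap.ker_eq_bot, LinearMap.ker_eq_bot']
    intro h hh
    have h1 : t * (h : C2 → ℂ) = 0 := congrArg (fun x : A × B => (x.1 : C2 → ℂ)) hh
    by_contra hne
    have hne' : (h : C2 → ℂ) ≠ 0 := fun e => hne (Subtype.ext e)
    exact mul_ne_zero_ent htd h.2.1 ht0 hne' h1
  have hψr : LinearMap.range ψ = LinearMap.ker φ := by
    apply le_antisymm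
    · rintro _ ⟨h, rfl⟩
      rw [LinearMap.mem_ker]
      change s * (t * (h : C2 → ℂ)) + t * -(s * (h : C2 → ℂ)) = 0
      ring
    · rintro ⟨⟨f, hf⟩, ⟨g, hg⟩⟩ hfg
      rw [LinearMap.mem_ker] at hfg
      change s * f + t * g = 0 at hfg
      have hfd : Differentiable ℂ f := hf.1
      have hgd : Differentiable ℂ g := hg.1
      have h1 : t * g = s * (-f) := by
        have : t * g = (s * f + t * g) - s * f := by abel
        rw [this, hfg]; ring
      obtain ⟨h, hhd, hh⟩ := dvd_of_copr hsd htd hgd hs0 ht0 hc ⟨-f, hfd.neg, h1⟩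
      have hf' : f = t * (-h) := by
        refine ent_cancel hsd hs0 hfd (htd.mul hhd.neg) ?_
        have h2 : s * f = -(t * g) := by rw [h1]; ring
        rw [h2, hh]; ring
      have hhC : -h ∈ C := by
        have := S.th_quot hs hs0 hg hhd hh
        rw [show n - v - u = n - u - v by ring, show -α' - α = -α - α' by abel,
          show -β' - β = -β - β' by abel] at this
        exact Submodule.neg_mem _ this
      refine ⟨⟨-h, hhC⟩, ?_⟩
      refine Prod.ext (Subtype.ext ?_) (Subtype.ext ?_)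
      · change t * (-h) = f
        exact hf'.symm
      · change -(s * (-h)) = g
        rw [hh]; ring
  refine ⟨LinearMap.range φ, ?_, ?_, ?_⟩
  · rintro _ ⟨x, rfl⟩
    exact Submodule.add_mem _ (S.bzMul hs x.1.2) (S.bzMul ht x.2.2)
  · rintro _ ⟨x, rfl⟩
    have hx1 : Differentiable ℂ (x.1 : C2 → ℂ) := x.1.2.1
    have hx2 : Differentiable ℂ (x.2 : C2 → ℂ) := x.2.2.1
    exact Submodule.add_mem_sup ⟨⟨_, hx1, rfl⟩, hsd.mul hx1⟩ ⟨⟨_, hx2, rfl⟩, htd.mul hx2⟩
  · have e1 := LinearMap.finrank_range_add_finrank_ker φ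
    rw [← hψr, LinearMap.finrank_range_of_inj hψi, finrank_prod] at e1
    have a1 : (finrank ℂ A : ℤ) = (n - u) ^ 2 * S.d := S.finrank_th (by omega) _ _
    have a2 : (finrank ℂ B : ℤ) = (n - v) ^ 2 * S.d := S.finrank_th (by omega) _ _
    have a3 : (finrank ℂ C : ℤ) = (n - u - v) ^ 2 * S.d := S.finrank_th (by omega) _ _
    have e2 : (finrank ℂ (LinearMap.range φ) : ℤ) + finrank ℂ C = finrank ℂ A + finrank ℂ B := by
      exact_mod_cast e1
    rw [a1, a2, a3] at e2
    linear_combination e2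

end PerData

end Q2T
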