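import Pool.Agent.H.MP_89f84f_ag.q2.JetC

set_option autoImplicit false

open Complex Topology Filter Asymptotics Metric Set

namespace Q2T

/-- pairs of exponents of total degree less than `N` -/
private abbrev JetDE (N : ℕ) : Type := {ab : Fin N × Fin N // (ab.1 : ℕ) + (ab.2 : ℕ) < N}

/-- the Taylor coefficient as a linear functional on entire functions -/
private noncomputable def jetD_tc (p : C2) (i j : ℕ) : ↥Ent →ₗ[ℂ] ℂ where
  toFun f := tc p f i j
  map_add' f g := tc_add f.2 g.2 i j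
  map_smul' c f := tc_smul f.2 c i j

private theorem jetD_tc_apply (p : C2) (i j : ℕ) (f : ↥Ent) : jetD_tc p i j f = tc p f i j := rfl

/-- division by a nonvanishing entire function -/
private noncomputable def jetD_div (e : C2 → ℂ) (he : Differentiable ℂ e) (h0 : ∀ z, e z ≠ 0) :
    ↥Ent →ₗ[ℂ] ↥Ent where
  toFun f := ⟨fun z => (f : C2 → ℂ) z / e z, by
    have hf : Differentiable ℂ (f : C2 → ℂ) := f.2
    show Differentiable ℂ _
    simp only [div_eq_mul_inv]
    exact hf.mul (he.inv h0)⟩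
  map_add' f g := by
    apply Subtype.ext
    funext z
    exact add_div _ _ _
  map_smul' c f := by
    apply Subtype.ext
    funext z
    exact mul_div_assoc _ _ _

/-- a matrix close to the identity is invertible -/
private theorem jetD_det {J : Type} [Fintype J] [DecidableEq J] (M : Matrix J J ℂ) {η : ℝ}
    (hη : (Fintype.card J : ℝ) * η < 1 / 2) (hη0 : 0 ≤ η)
    (hη1 : η < 1 / 2)
    (hM : ∀ k j, ‖M k j - (if k = j then 1 else 0)‖ ≤ η) : M.det ≠ 0 := by
  apply det_ne_zero_of_sum_row_lt_diag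
  intro k
  have h1 : 1 - η ≤ ‖M k k‖ := by
    have h2 := hM k k
    rw [if_pos rfl] at h2
    have h3 : ‖(1 : ℂ)‖ ≤ ‖M k k‖ + ‖M k k - 1‖ := by
      have := norm_sub_le (M k k) (M k k - 1)
      rwa [sub_sub_cancel] at this
    rw [norm_one] at h3
    linarith
  have h2 : ∑ j ∈ Finset.univ.erase k, ‖M k j‖ ≤ ∑ _j ∈ Finset.univ.erase k, η := by
    refine Finset.sum_le_sum fun j hj => ?_
    have h3 := hM k j
    rw [if_neg (Finset.ne_of_mem_erase hj).symm, sub_zero] at h3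
    exact h3
  have h3 : ∑ _j ∈ Finset.univ.erase k, η ≤ (Fintype.card J : ℝ) * η := by
    rw [Finset.sum_const, nsmul_eq_mul]
    refine mul_le_mul_of_nonneg_right ?_ hη0
    exact_mod_cast Finset.card_le_univ _
  linarith

namespace PerData

variable (S : PerData)

private theorem jetD_coh_ne (n : ℤ) (x z : C2) : S.coh n x z ≠ 0 := Complex.exp_ne_zero _

/-- Theta functions of large level have prescribed jets at finitely many points distinct modulo the lattice.
PROOF: for `δ` small and `n` large let `F (i, a, b)` be the functions of `exists_near`; the matrix of Taylor coefficients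
`tc (x k) (F (i, a, b) / coh n (x k)) a' b'` (Cauchy estimate `tc_norm_le` on the `ε`-ball: entries within
`δ / ε ^ (2 N)` of the identity matrix, `tc_monomial`) is invertible (determinant continuous).  So there is a
combination `f` with the Taylor coefficients of order `< N` of `f / coh n (x k)` at `x k` equal to those of
`g k / coh n (x k)`; then `f - g k = coh n (x k) * (something in Van N (x k))` (`mem_van_iff`, `van_mul_unit`). -/
theorem jets_surj {r : ℕ} (x : Fin r → C2) (hx : ∀ i k, i ≠ k → x i - x k ∉ S.Lat) (N : ℕ) :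
    ∃ n₀ : ℕ, ∀ n : ℕ, n₀ ≤ n → ∀ (α β : Fin 2 → ℝ) (g : Fin r → C2 → ℂ), (∀ k, Differentiable ℂ (g k)) →
      ∃ f ∈ S.Th n α β, ∀ k, f - g k ∈ Van N (x k) := by
  classical
  obtain ⟨ε, hε, hnear⟩ := S.exists_near x hx N
  set c : ℝ := (Fintype.card (Fin r × JetDE N) : ℝ) with hc
  have hc0 : 0 ≤ c := Nat.cast_nonneg _
  set η : ℝ := 1 / (4 * (c + 1)) with hη
  have hηpos : 0 < η := by positivity
  have hm : 0 < min ε 1 := lt_min hε one_pos
  obtain ⟨n₀, hn₀⟩ := hnear (η * (min ε 1) ^ N) (by positivity)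
  refine ⟨n₀, fun n hn α β g hg => ?_⟩
  choose F hF hFn using fun q : Fin r × JetDE N =>
    hn₀ n hn α β q.1 (q.2.1.1 : ℕ) (q.2.1.2 : ℕ) q.2.2
  let dv : Fin r → ↥Ent →ₗ[ℂ] ↥Ent := fun k =>
    jetD_div (S.coh n (x k)) (S.coh_differentiable n (x k)) (S.jetD_coh_ne n (x k))
  let E : Fin r × JetDE N → ↥Ent := fun q => ⟨F q, (hF q).1⟩
  let M : Matrix (Fin r × JetDE N) (Fin r × JetDE N) ℂ := fun k q =>
    jetD_tc (x k.1) (k.2.1.1 : ℕ) (k.2.1.2 : ℕ) (dv k.1 (E q))
  have hM : ∀ k q, ‖M k q - (if k = q then 1 else 0)‖ ≤ η := by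
    rintro ⟨k, k'⟩ ⟨i, i'⟩
    let mon : ↥Ent := ⟨fun z => (z 0 - x k 0) ^ (i'.1.1 : ℕ) * (z 1 - x k 1) ^ (i'.1.2 : ℕ), by
      show Differentiable ℂ _
      fun_prop⟩
    have h1 : M (k, k') (i, i') - (if (k, k') = (i, i') then 1 else 0) =
        jetD_tc (x k) (k'.1.1 : ℕ) (k'.1.2 : ℕ)
          (dv k (E (i, i')) - (if k = i then (1 : ℂ) else 0) • mon) := by
      rw [map_sub, map_smul]
      show _ - _ = jetD_tc (x k) (k'.1.1 : ℕ) (k'.1.2 : ℕ) (dv k (E (i, i'))) - _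
      congr 1
      rw [jetD_tc_apply]
      show _ = (if k = i then (1 : ℂ) else 0) • tc (x k) (fun z => (z 0 - x k 0) ^ (i'.1.1 : ℕ) *
        (z 1 - x k 1) ^ (i'.1.2 : ℕ)) (k'.1.1 : ℕ) (k'.1.2 : ℕ)
      rw [tc_monomial, smul_eq_mul]
      by_cases hki : k = i
      · rw [if_pos hki, one_mul]
        refine if_congr ?_ rfl rfl
        rw [Prod.mk.injEq]
        constructor
        · rintro ⟨-, h⟩
          rw [h]
          exact ⟨rfl, rfl⟩
        · rintro ⟨h2, h3⟩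
          exact ⟨hki, Subtype.ext (Prod.ext (Fin.ext h2) (Fin.ext h3))⟩
      · rw [if_neg hki, zero_mul, if_neg (fun h => hki (Prod.mk.inj h).1)]
    rw [h1, jetD_tc_apply]
    refine (tc_norm_le (Subtype.property _) hε (M := η * (min ε 1) ^ N) ?_ _ _).trans ?_
    · intro z hz
      have h2 := hFn (i, i') k z hz
      refine le_trans (le_of_eq ?_) h2
      congr 1
      show F (i, i') z / S.coh n (x k) z - (if k = i then (1 : ℂ) else 0) *
        ((z 0 - x k 0) ^ (i'.1.1 : ℕ) * (z 1 - x k 1) ^ (i'.1.2 : ℕ)) = _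
      congr 1
      by_cases hki : k = i
      · rw [if_pos hki, if_pos hki, one_mul, hki]
      · rw [if_neg hki, if_neg hki, zero_mul]
    · rw [div_le_iff₀ (by positivity)]
      refine mul_le_mul_of_nonneg_left ?_ hηpos.le
      calc (min ε 1) ^ N ≤ (min ε 1) ^ ((k'.1.1 : ℕ) + (k'.1.2 : ℕ)) :=
            pow_le_pow_of_le_one hm.le (min_le_right _ _) k'.2.le
        _ ≤ ε ^ ((k'.1.1 : ℕ) + (k'.1.2 : ℕ)) := pow_le_pow_left₀ hm.le (min_le_left _ _) _
  have hdet : M.det ≠ 0 := by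
    refine jetD_det M (η := η) ?_ hηpos.le ?_ hM
    · rw [← hc, hη, mul_one_div, div_lt_iff₀ (by positivity)]
      linarith
    · rw [hη, div_lt_iff₀ (by positivity)]
      linarith
  let G : Fin r → ↥Ent := fun k => ⟨g k, hg k⟩
  let v : Fin r × JetDE N → ℂ := fun k =>
    jetD_tc (x k.1) (k.2.1.1 : ℕ) (k.2.1.2 : ℕ) (dv k.1 (G k.1))
  obtain ⟨w, hw⟩ : ∃ w : Fin r × JetDE N → ℂ, M.mulVec w = v := by
    refine ⟨M⁻¹.mulVec v, ?_⟩
    rw [Matrix.mulVec_mulVec, Matrix.mul_nonsing_inv _ (isUnit_iff_ne_zero.2 hdet),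
      Matrix.one_mulVec]
  refine ⟨∑ q, w q • F q, Submodule.sum_mem _ fun q _ => Submodule.smul_mem _ _ (hF q),
    fun k => ?_⟩
  let f : ↥Ent := ∑ q, w q • E q
  have hf : (f : C2 → ℂ) = ∑ q, w q • F q := by
    show ((∑ q, w q • E q : ↥Ent) : C2 → ℂ) = _
    rw [Submodule.coe_sum]
    rfl
  have hvan : ((dv k (f - G k) : ↥Ent) : C2 → ℂ) ∈ Van N (x k) := by
    refine (mem_van_iff (Subtype.property (dv k (f - G k))) N).2 ?_
    intro a b hab
    have ha : a < N := by omega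
    have hb : b < N := by omega
    let ab : JetDE N := ⟨(⟨a, ha⟩, ⟨b, hb⟩), hab⟩
    show jetD_tc (x k) a b (dv k (f - G k)) = 0
    rw [map_sub, map_sub, sub_eq_zero]
    have h1 := congrFun hw (k, ab)
    show jetD_tc (x k) a b (dv k (∑ q, w q • E q)) = _
    rw [map_sum, map_sum]
    refine Eq.trans ?_ h1
    rw [Matrix.mulVec, dotProduct]
    refine Finset.sum_congr rfl fun q _ => ?_
    rw [map_smul, map_smul, smul_eq_mul, mul_comm]
  have h2 : (∑ q, w q • F q) - g k = S.coh n (x k) * ((dv k (f - G k) : ↥Ent) : C2 → ℂ) := by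
    funext z
    show (∑ q, w q • F q) z - g k z = S.coh n (x k) z * (((f : C2 → ℂ) z - g k z) / S.coh n (x k) z)
    rw [hf, mul_div_cancel₀ _ (S.jetD_coh_ne n (x k) z)]
  rw [h2, van_mul_unit (S.coh_differentiable n (x k)).continuous (S.jetD_coh_ne n (x k) _)]
  exact hvan

/-- Parity version at the point `0`: for half-integral characteristics.
PROOF: `f` from `jets_surj` for `r = 1`, `x = 0`, then its part of parity `ε`, `(f z + ε f (-z)) / 2`, which is in
`Th n α β` (`th_neg_arg`, `th_congr`). -/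
theorem jets_surj_par (N : ℕ) : ∃ n₀ : ℕ, ∀ n : ℕ, n₀ ≤ n → ∀ (α β : Fin 2 → ℝ),
    (∀ i, ∃ k : ℤ, 2 * α i = k) → (∀ i, ∃ k : ℤ, 2 * β i = k) → ∀ ε : ℤ, (ε = 1 ∨ ε = -1) →
    ∀ g : C2 → ℂ, Differentiable ℂ g → g ∈ Par (ε : ℂ) →
      ∃ f ∈ S.Th n α β ⊓ Par (ε : ℂ), f - g ∈ Van N 0 := by
  obtain ⟨n₀, hn₀⟩ := S.jets_surj (r := 1) (fun _ => 0)
    (fun i k hik => absurd (Subsingleton.elim i k) hik) N
  refine ⟨n₀, fun n hn α β hα hβ ε hε g hg hpar => ?_⟩
  obtain ⟨f, hf, hfg⟩ := hn₀ n hn α β (fun _ => g) (fun _ => hg)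
  have hfg0 : f - g ∈ Van N 0 := hfg 0
  have hε2 : (ε : ℂ) * (ε : ℂ) = 1 := by
    rcases hε with rfl | rfl <;> simp
  have hneg : (fun z => f (-z)) ∈ S.Th n α β := by
    have h1 := S.th_neg_arg hf
    rwa [S.th_congr (n : ℤ) (α := α) (β := β) (α' := -α) (β' := -β)] at h1
    · intro i
      obtain ⟨k, hk⟩ := hα i
      refine ⟨-k, ?_⟩
      push_cast
      rw [Pi.neg_apply, ← hk]
      ring
    · intro i
      obtain ⟨k, hk⟩ := hβ i
      refine ⟨-k, ?_⟩
      push_cast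
      rw [Pi.neg_apply, ← hk]
      ring
  have hnegv : (fun z => (f - g) (-z)) ∈ Van N 0 := by
    have h1 := (van_comp_smul (N := N) (p := 0) (f := f - g) (c := -1) (by norm_num)).2
      (by rwa [smul_zero])
    simpa using h1
  refine ⟨(2⁻¹ : ℂ) • (f + (ε : ℂ) • fun z => f (-z)), ⟨?_, ?_⟩, ?_⟩
  · exact Submodule.smul_mem _ _ (Submodule.add_mem _ hf (Submodule.smul_mem _ _ hneg))
  · show ∀ z : C2, (2⁻¹ : ℂ) * (f (-z) + (ε : ℂ) * f (- -z)) =
      (ε : ℂ) * ((2⁻¹ : ℂ) * (f z + (ε : ℂ) * f (-z)))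
    intro z
    rw [neg_neg]
    linear_combination (-(2⁻¹ : ℂ) * f (-z)) * hε2
  · have h1 : (2⁻¹ : ℂ) • (f + (ε : ℂ) • fun z => f (-z)) - g =
        (2⁻¹ : ℂ) • ((f - g) + (ε : ℂ) • fun z => (f - g) (-z)) := by
      funext z
      show (2⁻¹ : ℂ) * (f z + (ε : ℂ) * f (-z)) - g z =
        (2⁻¹ : ℂ) * ((f z - g z) + (ε : ℂ) * (f (-z) - g (-z)))
      have h2 : g (-z) = (ε : ℂ) * g z := hpar z
      rw [h2]
      linear_combination ((2⁻¹ : ℂ) * g z) * hε2
    rw [h1]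
    exact Submodule.smul_mem _ _ (Submodule.add_mem _ hfg0 (Submodule.smul_mem _ _ hnegv))

end PerData

end Q2T
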