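import Pool.Agent.H.MP_89f84f_ag.q2.BzA
import Pool.Agent.H.MP_89f84f_ag.q2.BzB
import Pool.Agent.H.MP_89f84f_ag.q2.JetD

set_option autoImplicit false

open Complex Topology Filter Asymptotics Metric Set Module

namespace Q2T

namespace PerData

variable (S : PerData)

/-- Bezout's inequality.
PROOF: let `l i` be the maps of `local_lambda` at `x i`, `N` larger than all `m i + n i`, `n` large (`jets_surj`).  The map
`Th n 0 0 → ∏ Fin (m i * n i) → ℂ`, `f ↦ (l i f)` is surjective (given values `l i g i`, `g i` entire, take `f` with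
`f - g i ∈ Van N (x i)`) and kills the space `W` of `exists_koszul`.  So
`n² d ≥ (n² - 2 u v) d + ∑ m i n i`. -/
theorem bezout {u v : ℤ} {α β α' β' : Fin 2 → ℝ} {s t : C2 → ℂ} (hu : 1 ≤ u) (hv : 1 ≤ v)
    (hs : s ∈ S.Th u α β) (ht : t ∈ S.Th v α' β') (hs0 : s ≠ 0) (ht0 : t ≠ 0) (hc : Copr s t)
    {r : ℕ} (x : Fin r → C2) (hx : ∀ i k, i ≠ k → x i - x k ∉ S.Lat) (m n : Fin r → ℕ)
    (hm : ∀ i, s ∈ Van (m i) (x i)) (hn : ∀ i, t ∈ Van (n i) (x i)) :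
    ((∑ i, m i * n i : ℕ) : ℤ) ≤ 2 * S.d * u * v := by
  classical
  choose l hl1 hl2 hl3 hl4 using fun i => local_lambda hs.1 ht.1 (hm i) (hn i)
  have hN : ∀ i, m i + n i ≤ ∑ i, (m i + n i) := fun i =>
    Finset.single_le_sum (f := fun i => m i + n i) (fun _ _ => Nat.zero_le _) (Finset.mem_univ i)
  obtain ⟨n₀, hn₀⟩ := S.jets_surj x hx (∑ i, (m i + n i))
  obtain ⟨k, hk0, hk⟩ : ∃ k : ℕ, n₀ ≤ k ∧ u + v < (k : ℤ) :=
    ⟨max n₀ (u + v + 1).toNat, le_max_left _ _, by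
      have h1 : (u + v + 1).toNat ≤ max n₀ (u + v + 1).toNat := le_max_right _ _
      have h2 := Int.self_le_toNat (u + v + 1)
      have h3 : (((u + v + 1).toNat : ℕ) : ℤ) ≤ ((max n₀ (u + v + 1).toNat : ℕ) : ℤ) := by
        exact_mod_cast h1
      linarith⟩
  obtain ⟨W, hW1, hW2, hW3⟩ := S.exists_koszul hu hv hs ht hs0 ht0 hc hk
  have hfin : FiniteDimensional ℂ (S.Th (k : ℤ) 0 0) := S.finite_th _ _ _
  let inc : S.Th (k : ℤ) 0 0 →ₗ[ℂ] Ent := Submodule.inclusion (fun f hf => hf.1)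
  let L : S.Th (k : ℤ) 0 0 →ₗ[ℂ] (∀ i, Fin (m i * n i) → ℂ) :=
    LinearMap.pi (fun i => (l i).comp inc)
  have hLs : Function.Surjective L := by
    intro c
    choose g hg using fun i => hl1 i (c i)
    obtain ⟨f, hf, hfg⟩ := hn₀ k hk0 0 0 (fun i => (g i : C2 → ℂ)) (fun i => (g i).2)
    refine ⟨⟨f, hf⟩, ?_⟩
    funext i
    change l i (inc ⟨f, hf⟩) = c i
    have h1 : l i (inc ⟨f, hf⟩ - g i) = 0 :=
      hl4 i _ (van_mono (hN i) (x i) (hfg i))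
    rw [map_sub, sub_eq_zero] at h1
    rw [h1, hg i]
  have hWk : W.comap (S.Th (k : ℤ) 0 0).subtype ≤ LinearMap.ker L := by
    rintro ⟨w, hw⟩ hwW
    rw [Submodule.mem_comap] at hwW
    rw [LinearMap.mem_ker]
    funext i
    change l i (inc ⟨w, hw⟩) = 0
    obtain ⟨a, ha, b, hb, hab⟩ := Submodule.mem_sup.1 (hW2 hwW)
    have e : inc ⟨w, hw⟩ = ⟨a, ha.2⟩ + ⟨b, hb.2⟩ := Subtype.ext hab.symm
    rw [e, map_add, hl2 i ⟨a, ha.2⟩ ha.1, hl3 i ⟨b, hb.2⟩ hb.1, add_zero]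
  have e1 := LinearMap.finrank_range_add_finrank_ker L
  rw [LinearMap.range_eq_top.2 hLs, finrank_top, Module.finrank_pi_fintype] at e1
  simp only [Module.finrank_fin_fun] at e1
  have e2 : finrank ℂ (W.comap (S.Th (k : ℤ) 0 0).subtype) = finrank ℂ W :=
    (Submodule.comapSubtypeEquivOfLe hW1).finrank_eq
  have e3 := Submodule.finrank_mono hWk
  rw [e2] at e3
  have e4 : (finrank ℂ (S.Th (k : ℤ) 0 0) : ℤ) = (k : ℤ) ^ 2 * S.d := S.finrank_th (by linarith) _ _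
  have e5 : ((∑ i, m i * n i : ℕ) : ℤ) + (finrank ℂ (LinearMap.ker L) : ℤ) =
      (finrank ℂ (S.Th (k : ℤ) 0 0) : ℤ) := by exact_mod_cast e1
  have e6 : (finrank ℂ W : ℤ) ≤ (finrank ℂ (LinearMap.ker L) : ℤ) := by exact_mod_cast e3
  rw [e4] at e5
  rw [hW3] at e6
  nlinarith [e5, e6]

end PerData

end Q2T
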