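import Pool.Agent.H.MP_89f84f_ag.q2.Adj

set_option autoImplicit false

open Complex Topology Filter Asymptotics Metric Set Module

namespace Q2T

/-- The numbers `j, x, y` (with `X₀ = b`). -/
theorem exists_numbers {d a b : ℕ} (hd : 0 < d) (ha : 0 < a) (hp : b ^ 2 = 2 * d * a ^ 2 + 1) :
    ∃ j x y : ℕ, 1 ≤ j ∧ 2 * j + b + 1 = 4 * a * d * b ∧ x = b + j * a ∧ y = 1 + 2 * j * b ∧
      4 * a * d * x = b * y + 1 := by
  have hb : 1 ≤ b := by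
    rcases Nat.eq_zero_or_pos b with h | h
    · rw [h] at hp
      simp at hp
    · exact h
  have hodd : ∃ c, b = 2 * c + 1 := by
    rcases Nat.even_or_odd' b with ⟨c, h | h⟩
    · exfalso
      rw [h] at hp
      have : 2 * (2 * c ^ 2) = 2 * (d * a ^ 2) + 1 := by nlinarith
      omega
    · exact ⟨c, h⟩
  obtain ⟨c, hc⟩ := hodd
  have had : 1 ≤ a * d := Nat.mul_pos ha hd
  obtain ⟨e, he⟩ : ∃ e, a * d = e + 1 := ⟨a * d - 1, by omega⟩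
  have h4 : 4 * a * d * b = 4 * (e + 1) * b := by rw [← he]; ring
  have hj : 2 * (2 * (e + 1) * b - c - 1) + b + 1 = 4 * a * d * b := by
    have h5 : c + 1 ≤ 2 * (e + 1) * b := by nlinarith
    rw [h4]
    have h6 : 4 * (e + 1) * b = 2 * (2 * (e + 1) * b) := by ring
    omega
  have hj1 : 1 ≤ 2 * (e + 1) * b - c - 1 := by
    have h5 : c + 2 ≤ 2 * (e + 1) * b := by nlinarith
    omega
  refine ⟨2 * (e + 1) * b - c - 1, b + (2 * (e + 1) * b - c - 1) * a,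
    1 + 2 * (2 * (e + 1) * b - c - 1) * b, hj1, hj, rfl, rfl, ?_⟩
  obtain ⟨j, hjj⟩ : ∃ j, j = 2 * (e + 1) * b - c - 1 := ⟨_, rfl⟩
  rw [← hjj] at hj ⊢
  have hjz : 2 * (j : ℤ) + b + 1 = 4 * a * d * b := by exact_mod_cast hj
  have hpz : (b : ℤ) ^ 2 = 2 * d * a ^ 2 + 1 := by exact_mod_cast hp
  have : 4 * (a : ℤ) * d * (b + j * a) = b * (1 + 2 * j * b) + 1 := by
    linear_combination -hjz - 2 * (j : ℤ) * hpz
  exact_mod_cast this

namespace PerData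

variable {S : PerData}

private theorem chain_b {a b : ℕ} {s : C2 → ℂ} (C : S.Curve a b s) : 1 ≤ b := by
  rcases Nat.eq_zero_or_pos b with h | h
  · have hp := C.pell
    rw [h] at hp
    simp at hp
  · exact h

private theorem chain_fin (n : ℤ) (ε : ℂ) :
    FiniteDimensional ℂ (S.Th n 0 0 ⊓ Par ε : Submodule ℂ (C2 → ℂ)) := by
  have := S.finite_th n 0 0
  exact Submodule.finiteDimensional_inf_left _ _

private theorem chain_fin' (n : ℤ) (ε : ℂ) (Y : ℕ) :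
    FiniteDimensional ℂ (S.Th n 0 0 ⊓ Par ε ⊓ Van Y 0 : Submodule ℂ (C2 → ℂ)) := by
  have := chain_fin (S := S) n ε
  exact Submodule.finiteDimensional_inf_left _ _

private theorem chain_ent (n : ℤ) (ε : ℂ) : (S.Th n 0 0 ⊓ Par ε : Submodule ℂ (C2 → ℂ)) ≤ Ent :=
  fun _ hf => hf.1.1

/-- Multiples of `s`. -/
private theorem chain_mult {a b : ℕ} {s : C2 → ℂ} (C : S.Curve a b s) {n : ℤ} {ε : ℂ} {Y : ℕ}
    (hY : 2 * b ≤ Y) :
    finrank ℂ ((S.Th (2 * n) 0 0 ⊓ Par ε ⊓ Van Y 0) ⊓ Mult s : Submodule ℂ (C2 → ℂ)) ≤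
      finrank ℂ (S.Th (2 * (n - a)) 0 0 ⊓ Par ε ⊓ Van (Y - 2 * b) 0 : Submodule ℂ (C2 → ℂ)) := by
  have h2 := S.finrank_mult_le (n := 2 * n) (ε' := ε) (Y := Y) C.mem C.ne C.even (Or.inl rfl)
    C.van' hY
  rw [neg_zero, mul_one] at h2
  have e : 2 * n - 2 * (a : ℤ) = 2 * (n - a) := by ring
  rw [e] at h2
  exact h2

/-- One step of the chain.
PROOF: `finrank_restrict` with `G` the whole space, `u = 2 a`, level `2 n`, and `finrank_mult_le`. -/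
theorem Curve.step {a b : ℕ} {s : C2 → ℂ} (C : S.Curve a b s) {n : ℤ} (hn : 1 ≤ n) {ε : ℂ} {Y k : ℕ}
    (hY : 2 * b ≤ Y) (h : 8 * (a : ℤ) * S.d * n < 2 * b * Y + 2 * k) :
    finrank ℂ (S.Th (2 * n) 0 0 ⊓ Par ε ⊓ Van Y 0 : Submodule ℂ (C2 → ℂ)) ≤
      finrank ℂ (S.Th (2 * (n - a)) 0 0 ⊓ Par ε ⊓ Van (Y - 2 * b) 0 : Submodule ℂ (C2 → ℂ)) + k := by
  have hb := chain_b C
  have ha := C.ha
  have h1 := S.finrank_restrict (u := 2 * (a : ℤ)) (n := 2 * n) (ε' := ε) (m := 2 * b) (Y := Y)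
    (by omega) (by omega) C.mem C.ne C.dich C.even C.van (by omega)
    (S.Th (2 * n) 0 0 ⊓ Par ε ⊓ Van Y 0) le_rfl k (by push_cast; nlinarith)
  have h2 := chain_mult C (n := n) (ε := ε) hY
  omega

/-- The odd chain. -/
private theorem chain_odd {a b : ℕ} {s : C2 → ℂ} (C : S.Curve a b s) {j : ℕ}
    (h1 : 2 * j + b + 1 = 4 * a * S.d * b) (i : ℕ) (hi : i ≤ j) :
    (finrank ℂ (S.Th (2 * ((b + i * a : ℕ) : ℤ)) 0 0 ⊓ Par (-1) ⊓ Van (1 + 2 * i * b) 0 :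
      Submodule ℂ (C2 → ℂ)) : ℤ) ≤ 2 * S.d * b ^ 2 - 2 + i * (2 * j + 1) - i ^ 2 := by
  have hb := chain_b C
  have ha := C.ha
  have h1z : 2 * (j : ℤ) + b + 1 = 4 * a * S.d * b := by exact_mod_cast h1
  have hpz : (b : ℤ) ^ 2 = 2 * S.d * a ^ 2 + 1 := by exact_mod_cast C.pell
  induction i with
  | zero =>
    have := chain_fin (S := S) (2 * ((b + 0 * a : ℕ) : ℤ)) (-1)
    have h2 := S.finrank_odd (x := (b : ℤ)) (by omega)
    have h3 : finrank ℂ (S.Th (2 * ((b + 0 * a : ℕ) : ℤ)) 0 0 ⊓ Par (-1) ⊓ Van (1 + 2 * 0 * b) 0 :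
      Submodule ℂ (C2 → ℂ)) ≤ finrank ℂ (S.Th (2 * ((b + 0 * a : ℕ) : ℤ)) 0 0 ⊓ Par (-1) :
        Submodule ℂ (C2 → ℂ)) := Submodule.finrank_mono inf_le_left
    have e : ((b + 0 * a : ℕ) : ℤ) = (b : ℤ) := by simp
    rw [e] at h3 ⊢
    push_cast
    have h4 : (finrank ℂ (S.Th (2 * (b : ℤ)) 0 0 ⊓ Par (-1) ⊓ Van (1 + 2 * 0 * b) 0 :
      Submodule ℂ (C2 → ℂ)) : ℤ) ≤ finrank ℂ (S.Th (2 * (b : ℤ)) 0 0 ⊓ Par (-1) :
        Submodule ℂ (C2 → ℂ)) := by exact_mod_cast h3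
    rw [h2] at h4
    linarith
  | succ i ih =>
    have ih' := ih (by omega)
    obtain ⟨k, hk⟩ : ∃ k, j = i + k := ⟨j - i, by omega⟩
    have hkz : (j : ℤ) = i + k := by exact_mod_cast hk
    have hY : 2 * b ≤ 1 + 2 * (i + 1) * b := by nlinarith
    have h2 := C.step (n := ((b + (i + 1) * a : ℕ) : ℤ)) (by push_cast; nlinarith) (ε := -1)
      (Y := 1 + 2 * (i + 1) * b) (k := 2 * k) hY (by
        have : 8 * (a : ℤ) * S.d * (b + (i + 1) * a) + 2 =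
            2 * b * (1 + 2 * (i + 1) * b) + 2 * (2 * k) := by
          linear_combination (-2) * h1z - 4 * ((i : ℤ) + 1) * hpz + 4 * hkz
        push_cast
        linarith)
    have e1 : ((b + (i + 1) * a : ℕ) : ℤ) - a = ((b + i * a : ℕ) : ℤ) := by push_cast; ring
    have e2 : 1 + 2 * (i + 1) * b - 2 * b = 1 + 2 * i * b := by
      have : 1 + 2 * (i + 1) * b = (1 + 2 * i * b) + 2 * b := by ring
      omega
    rw [e1, e2] at h2
    have h3 : (finrank ℂ (S.Th (2 * ((b + (i + 1) * a : ℕ) : ℤ)) 0 0 ⊓ Par (-1) ⊓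
        Van (1 + 2 * (i + 1) * b) 0 : Submodule ℂ (C2 → ℂ)) : ℤ) ≤
        (finrank ℂ (S.Th (2 * ((b + i * a : ℕ) : ℤ)) 0 0 ⊓ Par (-1) ⊓ Van (1 + 2 * i * b) 0 :
      Submodule ℂ (C2 → ℂ)) : ℤ) + 2 * k := by exact_mod_cast h2
    push_cast at h3 ih' ⊢
    nlinarith

/-- The space of the pencil: odd functions of level `2 x`, order `≥ y`, modulo multiples of `s`, has dimension at least 2.
PROOF: `G i` = odd functions of level `2 (b + i a)` and order `≥ 1 + 2 i b`.  `finrank (G 0) ≤ 2 d b² - 2` (`finrank_odd`);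
`finrank (G i) ≤ finrank (G (i - 1)) + (4 a d b - b - 2 i + 1)` for `1 ≤ i ≤ j` (`Curve.step`), so
`finrank (G (j-1)) ≤ 2 d b² - 2 + (j - 1) (4 a d b - b + 1) - j (j - 1)`.  The multiples of `s` in `G j` inject into `G (j-1)`
(`finrank_mult_le`).  `finrank (G j) ≥ 2 d x² - 2 - j b (j b + 1)` (`finrank_odd`, `finrank_le_van_odd`).  With
`b² = 2 d a² + 1` and `2 j = 4 a d b - b - 1` the difference is `4 a d b - b - 2 j + 1 = 2`. -/
theorem Curve.pencil_space {a b : ℕ} {s : C2 → ℂ} (C : S.Curve a b s) {j x y : ℕ} (hj : 1 ≤ j)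
    (h1 : 2 * j + b + 1 = 4 * a * S.d * b) (hx : x = b + j * a) (hy : y = 1 + 2 * j * b) :
    finrank ℂ ((S.Th (2 * x) 0 0 ⊓ Par (-1) ⊓ Van y 0) ⊓ Mult s : Submodule ℂ (C2 → ℂ)) + 2 ≤
      finrank ℂ (S.Th (2 * x) 0 0 ⊓ Par (-1) ⊓ Van y 0 : Submodule ℂ (C2 → ℂ)) := by
  have hb := chain_b C
  have ha := C.ha
  have h1z : 2 * (j : ℤ) + b + 1 = 4 * a * S.d * b := by exact_mod_cast h1
  have hpz : (b : ℤ) ^ 2 = 2 * S.d * a ^ 2 + 1 := by exact_mod_cast C.pell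
  obtain ⟨i, rfl⟩ : ∃ i, j = i + 1 := ⟨j - 1, by omega⟩
  have hY : 2 * b ≤ 1 + 2 * (i + 1) * b := by nlinarith
  have h2 := chain_mult C (n := ((b + (i + 1) * a : ℕ) : ℤ)) (ε := -1)
    (Y := 1 + 2 * (i + 1) * b) hY
  have e1 : ((b + (i + 1) * a : ℕ) : ℤ) - a = ((b + i * a : ℕ) : ℤ) := by push_cast; ring
  have e2 : 1 + 2 * (i + 1) * b - 2 * b = 1 + 2 * i * b := by
    have : 1 + 2 * (i + 1) * b = (1 + 2 * i * b) + 2 * b := by ring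
    omega
  rw [e1, e2, ← hx, ← hy] at h2
  have h3 := chain_odd C h1 i (by omega)
  have := chain_fin (S := S) (2 * (x : ℤ)) (-1)
  have h4 := finrank_le_van_odd (S.Th (2 * (x : ℤ)) 0 0 ⊓ Par (-1)) (chain_ent _ _) inf_le_right
    ((i + 1) * b)
  have h5 := S.finrank_odd (x := (x : ℤ)) (by rw [hx]; push_cast; nlinarith)
  have e3 : 2 * ((i + 1) * b) + 1 = y := by rw [hy]; ring
  rw [e3] at h4
  have h4z : (finrank ℂ (S.Th (2 * (x : ℤ)) 0 0 ⊓ Par (-1) : Submodule ℂ (C2 → ℂ)) : ℤ) ≤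
      finrank ℂ (S.Th (2 * (x : ℤ)) 0 0 ⊓ Par (-1) ⊓ Van y 0 : Submodule ℂ (C2 → ℂ)) +
        (i + 1) * b * ((i + 1) * b + 1) := by exact_mod_cast h4
  rw [h5] at h4z
  have h2z : (finrank ℂ ((S.Th (2 * (x : ℤ)) 0 0 ⊓ Par (-1) ⊓ Van y 0) ⊓ Mult s :
      Submodule ℂ (C2 → ℂ)) : ℤ) ≤ finrank ℂ (S.Th (2 * ((b + i * a : ℕ) : ℤ)) 0 0 ⊓ Par (-1) ⊓
        Van (1 + 2 * i * b) 0 : Submodule ℂ (C2 → ℂ)) := by exact_mod_cast h2
  have hxz : (x : ℤ) = b + (i + 1) * a := by rw [hx]; push_cast; ring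
  push_cast at h1z h3
  have key : 2 * (S.d : ℤ) * x ^ 2 - 2 - (i + 1) * b * ((i + 1) * b + 1) =
      2 * S.d * b ^ 2 - 2 + i * (2 * (i + 1) + 1) - i ^ 2 + 2 := by
    rw [hxz]
    linear_combination (-((i : ℤ) + 1)) * h1z - ((i : ℤ) + 1) ^ 2 * hpz
  have fin : (finrank ℂ ((S.Th (2 * (x : ℤ)) 0 0 ⊓ Par (-1) ⊓ Van y 0) ⊓ Mult s :
      Submodule ℂ (C2 → ℂ)) : ℤ) + 2 ≤
        finrank ℂ (S.Th (2 * (x : ℤ)) 0 0 ⊓ Par (-1) ⊓ Van y 0 : Submodule ℂ (C2 → ℂ)) := by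
    push_cast at h2z
    linarith
  exact_mod_cast fin

/-- The even chain. -/
private theorem chain_even {a b : ℕ} {s : C2 → ℂ} (C : S.Curve a b s) {j : ℕ}
    (h1 : 2 * j + b + 1 = 4 * a * S.d * b) (i : ℕ) (hi : i ≤ 2 * j + 1) :
    (finrank ℂ (S.Th (2 * ((2 * b + i * a : ℕ) : ℤ)) 0 0 ⊓ Par 1 ⊓ Van (2 + 2 * i * b) 0 :
      Submodule ℂ (C2 → ℂ)) : ℤ) ≤ 8 * S.d * b ^ 2 + 1 + i * (4 * j + 2) - i ^ 2 := by
  have hb := chain_b C
  have ha := C.ha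
  have h1z : 2 * (j : ℤ) + b + 1 = 4 * a * S.d * b := by exact_mod_cast h1
  have hpz : (b : ℤ) ^ 2 = 2 * S.d * a ^ 2 + 1 := by exact_mod_cast C.pell
  induction i with
  | zero =>
    have e : ((2 * b + 0 * a : ℕ) : ℤ) = 2 * (b : ℤ) := by push_cast; ring
    have e' : 2 + 2 * 0 * b = 2 := by ring
    rw [e, e']
    have := chain_fin (S := S) (2 * (2 * (b : ℤ))) 1
    have h2 := S.finrank_even (x := 2 * (b : ℤ)) (by omega)
    have h3 : finrank ℂ (S.Th (2 * (2 * (b : ℤ))) 0 0 ⊓ Par 1 ⊓ Van 2 0 :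
      Submodule ℂ (C2 → ℂ)) < finrank ℂ (S.Th (2 * (2 * (b : ℤ))) 0 0 ⊓ Par 1 :
        Submodule ℂ (C2 → ℂ)) := by
      apply Submodule.finrank_lt_finrank_of_lt
      refine lt_of_le_of_ne inf_le_left fun he => ?_
      obtain ⟨f, hf, hf0⟩ := S.exists_even_ne_zero (x := 2 * (b : ℤ)) (by omega) 0
      rw [← he] at hf
      apply hf0
      exact (van_one_iff hf.1.1.1 0).1 (van_mono (by norm_num) 0 hf.2)
    have h4 : (finrank ℂ (S.Th (2 * (2 * (b : ℤ))) 0 0 ⊓ Par 1 ⊓ Van 2 0 :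
      Submodule ℂ (C2 → ℂ)) : ℤ) < finrank ℂ (S.Th (2 * (2 * (b : ℤ))) 0 0 ⊓ Par 1 :
        Submodule ℂ (C2 → ℂ)) := by exact_mod_cast h3
    rw [h2] at h4
    push_cast
    linarith
  | succ i ih =>
    have ih' := ih (by omega)
    obtain ⟨k, hk⟩ : ∃ k, 2 * j = i + k := ⟨2 * j - i, by omega⟩
    have hkz : 2 * (j : ℤ) = i + k := by exact_mod_cast hk
    have hY : 2 * b ≤ 2 + 2 * (i + 1) * b := by nlinarith
    have h2 := C.step (n := ((2 * b + (i + 1) * a : ℕ) : ℤ)) (by push_cast; nlinarith) (ε := 1)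
      (Y := 2 + 2 * (i + 1) * b) (k := 2 * k + 1) hY (by
        have : 8 * (a : ℤ) * S.d * (2 * b + (i + 1) * a) + 2 =
            2 * b * (2 + 2 * (i + 1) * b) + 2 * (2 * k + 1) := by
          linear_combination (-4) * h1z - 4 * ((i : ℤ) + 1) * hpz + 4 * hkz
        push_cast
        linarith)
    have e1 : ((2 * b + (i + 1) * a : ℕ) : ℤ) - a = ((2 * b + i * a : ℕ) : ℤ) := by
      push_cast; ring
    have e2 : 2 + 2 * (i + 1) * b - 2 * b = 2 + 2 * i * b := by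
      have : 2 + 2 * (i + 1) * b = (2 + 2 * i * b) + 2 * b := by ring
      omega
    rw [e1, e2] at h2
    have h3 : (finrank ℂ (S.Th (2 * ((2 * b + (i + 1) * a : ℕ) : ℤ)) 0 0 ⊓ Par 1 ⊓
        Van (2 + 2 * (i + 1) * b) 0 : Submodule ℂ (C2 → ℂ)) : ℤ) ≤
        (finrank ℂ (S.Th (2 * ((2 * b + i * a : ℕ) : ℤ)) 0 0 ⊓ Par 1 ⊓ Van (2 + 2 * i * b) 0 :
      Submodule ℂ (C2 → ℂ)) : ℤ) + (2 * k + 1) := by exact_mod_cast h2
    push_cast at h3 ih' ⊢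
    nlinarith

/-- The section `w`.
PROOF: chain `G i` = even functions of level `2 (2 b + i a)` and order `≥ 2 + 2 i b`, `0 ≤ i ≤ 2 j + 1`.  `finrank (G 0) ≤ 8 d b² + 1`
(`finrank_even`, and one condition: not all even functions vanish at `0`, `exists_even_ne_zero`; even functions vanishing at
`0` have order `≥ 2`).  Steps `8 a d b - 2 b - 2 i + 1`, so
`finrank (G (2 j)) ≤ 8 d b² + 1 + 2 j (8 a d b - 2 b - 2 j)`; `finrank (G (2 j + 1)) ≥ 2 d (2 b + (2 j + 1) a)² + 2 - (1 + (2 j + 1) b)²`.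
The difference is 1, so not every element of `G (2 j + 1)` is a multiple of `s` (multiples inject into `G (2 j)`,
`finrank_mult_le`). -/
theorem Curve.exists_w {a b : ℕ} {s : C2 → ℂ} (C : S.Curve a b s) {j x y : ℕ} (hj : 1 ≤ j)
    (h1 : 2 * j + b + 1 = 4 * a * S.d * b) (hx : x = b + j * a) (hy : y = 1 + 2 * j * b) :
    ∃ w : C2 → ℂ, w ∈ S.Th (2 * (2 * x + a)) 0 0 ∧ w ∈ Par 1 ∧ w ∈ Van (2 * y + 2 * b) 0 ∧ w ∉ Mult s := by
  have hb := chain_b C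
  have ha := C.ha
  have h1z : 2 * (j : ℤ) + b + 1 = 4 * a * S.d * b := by exact_mod_cast h1
  have hpz : (b : ℤ) ^ 2 = 2 * S.d * a ^ 2 + 1 := by exact_mod_cast C.pell
  have hY : 2 * b ≤ 2 * y + 2 * b := by omega
  have h2 := chain_mult C (n := 2 * (x : ℤ) + a) (ε := 1) (Y := 2 * y + 2 * b) hY
  have e1 : 2 * (x : ℤ) + a - a = ((2 * b + 2 * j * a : ℕ) : ℤ) := by rw [hx]; push_cast; ring
  have e2 : 2 * y + 2 * b - 2 * b = 2 + 2 * (2 * j) * b := by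
    rw [Nat.add_sub_cancel, hy]; ring
  rw [e1, e2] at h2
  have h3 := chain_even C h1 (2 * j) (by omega)
  have := chain_fin (S := S) (2 * (2 * (x : ℤ) + a)) 1
  have h4 := finrank_le_van_even (S.Th (2 * (2 * (x : ℤ) + a)) 0 0 ⊓ Par 1) (chain_ent _ _)
    inf_le_right (y + b)
  have h5 := S.finrank_even (x := 2 * (x : ℤ) + a) (by omega)
  have e3 : 2 * (y + b) = 2 * y + 2 * b := by ring
  rw [e3] at h4
  have h4z : (finrank ℂ (S.Th (2 * (2 * (x : ℤ) + a)) 0 0 ⊓ Par 1 : Submodule ℂ (C2 → ℂ)) : ℤ) ≤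
      finrank ℂ (S.Th (2 * (2 * (x : ℤ) + a)) 0 0 ⊓ Par 1 ⊓ Van (2 * y + 2 * b) 0 :
        Submodule ℂ (C2 → ℂ)) + (y + b) ^ 2 := by exact_mod_cast h4
  rw [h5] at h4z
  have hxz : (x : ℤ) = b + j * a := by rw [hx]; push_cast; ring
  have hyz : (y : ℤ) = 1 + 2 * j * b := by rw [hy]; push_cast; ring
  have key : 2 * (S.d : ℤ) * (2 * x + a) ^ 2 + 2 - (y + b) ^ 2 =
      8 * S.d * b ^ 2 + 1 + (2 * j) * (4 * j + 2) - (2 * j) ^ 2 + 1 := by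
    rw [hxz, hyz]
    linear_combination (-2 * (2 * (j : ℤ) + 1)) * h1z - (2 * (j : ℤ) + 1) ^ 2 * hpz
  by_contra hcon
  push Not at hcon
  have hle : (S.Th (2 * (2 * (x : ℤ) + a)) 0 0 ⊓ Par 1 ⊓ Van (2 * y + 2 * b) 0 :
      Submodule ℂ (C2 → ℂ)) ≤ Mult s := fun w hw => hcon w hw.1.1 hw.1.2 hw.2
  rw [inf_eq_left.2 hle] at h2
  have h2z : (finrank ℂ (S.Th (2 * (2 * (x : ℤ) + a)) 0 0 ⊓ Par 1 ⊓ Van (2 * y + 2 * b) 0 :
      Submodule ℂ (C2 → ℂ)) : ℤ) ≤ finrank ℂ (S.Th (2 * ((2 * b + 2 * j * a : ℕ) : ℤ)) 0 0 ⊓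
        Par 1 ⊓ Van (2 + 2 * (2 * j) * b) 0 : Submodule ℂ (C2 → ℂ)) := by exact_mod_cast h2
  push_cast at h2z h3
  linarith

end PerData

end Q2T
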