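import Pool.Agent.H.MP_89f84f_ag.q2.VanB

set_option autoImplicit false

open Complex Topology Filter Asymptotics Metric Set

namespace Q2T

/-- the leading form in the direction `(1, s)` -/
theorem vanC_lead {p : C2} {f : C2 → ℂ} (hf : Differentiable ℂ f) {k : ℕ} (h1 : f ∈ Van k p)
    (h2 : f ∉ Van (k + 1) p) : ∃ P : Polynomial ℂ, P ≠ 0 ∧ ∀ s : ℂ,
      (fun t : ℂ => f (p + t • ![1, s]) - P.eval s * t ^ k) =O[𝓝 0] fun t => t ^ (k + 1) := by
  rw [mem_van_iff hf] at h1 h2
  push Not at h2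
  obtain ⟨i, j, hij, hne⟩ := h2
  have hk : i + j = k := by
    by_contra h3
    exact hne (h1 i j (by omega))
  refine ⟨∑ a ∈ Finset.range (k + 1), Polynomial.C (tc p f a (k - a)) * Polynomial.X ^ (k - a),
    ?_, ?_⟩
  · intro h3
    have h4 := congrArg (fun Q => Polynomial.coeff Q j) h3
    simp only [Polynomial.finsetSum_coeff, Polynomial.coeff_C_mul, Polynomial.coeff_X_pow,
      Polynomial.coeff_zero] at h4
    rw [Finset.sum_eq_single i] at h4
    · have h5 : k - i = j := by omega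
      rw [h5] at h4
      simp only [if_true, mul_one] at h4
      exact hne h4
    · intro b hb hbi
      rw [Finset.mem_range] at hb
      rw [if_neg (by omega), mul_zero]
    · intro hi
      exact absurd (Finset.mem_range.2 (by omega)) hi
  · intro s
    have h3 := taylor_van hf (p := p) (k + 1)
    have h3' : (fun z => f z - ∑ i ∈ Finset.range (k + 1), ∑ j ∈ Finset.range (k + 1 - i),
      tc p f i j * ((z 0 - p 0) ^ i * (z 1 - p 1) ^ j)) =O[𝓝 p]
      fun z => ‖z - p‖ ^ (k + 1) := h3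
    have h4 : Tendsto (fun t : ℂ => p + t • (![1, s] : C2)) (𝓝 0) (𝓝 p) := by
      have h5 : Continuous (fun t : ℂ => p + t • (![1, s] : C2)) := by fun_prop
      have h6 := h5.tendsto 0
      simpa using h6
    have h5 := h3'.comp_tendsto h4
    have h6 : ((fun z : C2 => ‖z - p‖ ^ (k + 1)) ∘ fun t : ℂ => p + t • (![1, s] : C2)) =O[𝓝 0]
        fun t : ℂ => t ^ (k + 1) := by
      refine IsBigO.of_bound (‖(![1, s] : C2)‖ ^ (k + 1)) (Eventually.of_forall fun t => ?_)
      simp only [Function.comp_apply, add_sub_cancel_left, norm_smul, norm_pow, norm_mul, mul_pow,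
        norm_norm]
      rw [mul_comm]
    have h7 := h5.trans h6
    refine h7.congr_left fun t => ?_
    simp only [Function.comp_apply]
    congr 1
    rw [Polynomial.eval_finsetSum, Finset.sum_mul]
    refine Finset.sum_congr rfl fun a ha => ?_
    rw [Finset.mem_range] at ha
    rw [Finset.sum_eq_single (k - a)]
    · have e0 : (p + t • (![1, s] : C2)) 0 - p 0 = t := by simp
      have e1 : (p + t • (![1, s] : C2)) 1 - p 1 = t * s := by simp
      rw [e0, e1]
      simp only [Polynomial.eval_mul, Polynomial.eval_C, Polynomial.eval_pow, Polynomial.eval_X]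
      have e2 : t ^ k = t ^ a * t ^ (k - a) := by
        rw [← pow_add]
        congr 1
        omega
      rw [e2]
      ring
    · intro b hb hba
      rw [Finset.mem_range] at hb
      rw [h1 a b (by omega), zero_mul]
    · intro hb
      exact absurd (Finset.mem_range.2 (by omega)) hb

/-- orders are superadditive and not more -/
theorem vanC_key {p : C2} {f g : C2 → ℂ} (hf : Differentiable ℂ f) (hg : Differentiable ℂ g) {k l : ℕ}
    (h1 : f ∈ Van k p) (h2 : f ∉ Van (k + 1) p) (h3 : g ∈ Van l p) (h4 : g ∉ Van (l + 1) p) :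
    f * g ∉ Van (k + l + 1) p := by
  intro hfg
  obtain ⟨P, hP, hP'⟩ := vanC_lead hf h1 h2
  obtain ⟨Q, hQ, hQ'⟩ := vanC_lead hg h3 h4
  obtain ⟨s, hs⟩ : ∃ s : ℂ, (P * Q).eval s ≠ 0 := by
    by_contra h5
    push Not at h5
    exact mul_ne_zero hP hQ (Polynomial.funext fun x => by rw [h5 x, Polynomial.eval_zero])
  rw [Polynomial.eval_mul] at hs
  have ha : P.eval s ≠ 0 := left_ne_zero_of_mul hs
  have hb : Q.eval s ≠ 0 := right_ne_zero_of_mul hs
  have hlo : ∀ n : ℕ, (fun t : ℂ => t ^ (n + 1)) =o[𝓝[≠] 0] fun t => t ^ n := by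
    intro n
    exact (isLittleO_pow_pow (Nat.lt_succ_self n)).mono nhdsWithin_le_nhds
  have hF : IsEquivalent (𝓝[≠] 0) (fun t : ℂ => f (p + t • ![1, s])) (fun t => P.eval s * t ^ k) := by
    refine IsLittleO.const_mul_right' ha.isUnit ?_
    exact ((hP' s).mono nhdsWithin_le_nhds).trans_isLittleO (hlo k)
  have hG : IsEquivalent (𝓝[≠] 0) (fun t : ℂ => g (p + t • ![1, s])) (fun t => Q.eval s * t ^ l) := by
    refine IsLittleO.const_mul_right' hb.isUnit ?_
    exact ((hQ' s).mono nhdsWithin_le_nhds).trans_isLittleO (hlo l)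
  have hFG := hF.mul hG
  have h5 := hFG.isBigO_symm
  have h4' : Tendsto (fun t : ℂ => p + t • (![1, s] : C2)) (𝓝[≠] 0) (𝓝 p) := by
    have h5 : Continuous (fun t : ℂ => p + t • (![1, s] : C2)) := by fun_prop
    have h6 := h5.tendsto 0
    rw [zero_smul, add_zero] at h6
    exact h6.mono_left nhdsWithin_le_nhds
  have hfg' : (f * g) =O[𝓝 p] fun z => ‖z - p‖ ^ (k + l + 1) := hfg
  have h6 := hfg'.comp_tendsto h4'
  have h7 : ((fun z : C2 => ‖z - p‖ ^ (k + l + 1)) ∘ fun t : ℂ => p + t • (![1, s] : C2)) =O[𝓝[≠] 0]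
      fun t : ℂ => t ^ (k + l + 1) := by
    refine IsBigO.of_bound (‖(![1, s] : C2)‖ ^ (k + l + 1)) (Eventually.of_forall fun t => ?_)
    simp only [Function.comp_apply, add_sub_cancel_left, norm_smul, norm_pow, norm_mul, mul_pow,
      norm_norm]
    rw [mul_comm]
  have h8 := (h6.trans h7).trans_isLittleO (hlo (k + l))
  have h9 : (fun t : ℂ => t ^ (k + l)) =o[𝓝[≠] 0] fun t => t ^ (k + l) := by
    have h10 : (fun t : ℂ => t ^ (k + l)) =O[𝓝[≠] 0]
        ((fun t => P.eval s * t ^ k) * fun t => Q.eval s * t ^ l) := by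
      have h11 : ((fun t : ℂ => P.eval s * t ^ k) * fun t => Q.eval s * t ^ l) =
          fun t : ℂ => (P.eval s * Q.eval s) * t ^ (k + l) := by
        funext t
        simp only [Pi.mul_apply]
        rw [pow_add]
        ring
      rw [h11]
      exact isBigO_self_const_mul hs _ _
    exact (h10.trans h5).trans_isLittleO h8
  refine isLittleO_irrefl ?_ h9
  refine Eventually.frequently ?_
  filter_upwards [self_mem_nhdsWithin] with t ht
  exact pow_ne_zero _ ht

theorem vanC_order {p : C2} {f : C2 → ℂ} (hf : Differentiable ℂ f) {n : ℕ} (h : f ∉ Van n p) :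
    ∃ m < n, f ∈ Van m p ∧ f ∉ Van (m + 1) p := by
  classical
  have h1 : ∃ N, f ∉ Van N p := ⟨n, h⟩
  have h2 := Nat.find_spec h1
  have h3 : Nat.find h1 ≤ n := Nat.find_min' h1 h
  have h4 : Nat.find h1 ≠ 0 := by
    intro h5
    rw [h5] at h2
    exact h2 (van_zero hf.continuous p)
  obtain ⟨m, hm⟩ := Nat.exists_eq_succ_of_ne_zero h4
  rw [hm] at h2 h3
  refine ⟨m, by omega, ?_, h2⟩
  by_contra h5
  have := Nat.find_min' h1 h5
  omega

/-- Orders are additive.
PROOF: let `k ≤ i` be the order of `f` and suppose `g` has order `l < j`.  The leading forms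
`F = ∑_{a+b=k} tc f a b x^a y^b`, `G = ∑_{a+b=l} tc g a b x^a y^b` are nonzero homogeneous polynomials; choose a
direction `v` with `F v ≠ 0 ≠ G v`; along the line `p + t v` one has `f g = t ^ (k + l) (F v G v + O(t))`,
which is not `O(t ^ (i + j))` as `k + l < i + j`. -/
theorem van_cancel {p : C2} {f g : C2 → ℂ} (hf : Differentiable ℂ f) (hg : Differentiable ℂ g) {i j : ℕ}
    (h1 : f ∉ Van (i + 1) p) (h2 : f * g ∈ Van (i + j) p) : g ∈ Van j p := by
  by_contra h3
  obtain ⟨k, hk, hk1, hk2⟩ := vanC_order hf h1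
  obtain ⟨l, hl, hl1, hl2⟩ := vanC_order hg h3
  exact vanC_key hf hg hk1 hk2 hl1 hl2 (van_mono (by omega) p h2)

/-- A nonzero entire function has an exact order. -/
theorem exists_order {p : C2} {f : C2 → ℂ} (hf : Differentiable ℂ f) (h : f ≠ 0) :
    ∃ m, f ∈ Van m p ∧ f ∉ Van (m + 1) p := by
  obtain ⟨N, hN⟩ := exists_not_van hf h (p := p)
  obtain ⟨m, -, h1⟩ := vanC_order hf hN
  exact ⟨m, h1⟩

/-- exact orders add -/
theorem order_mul {p : C2} {f g : C2 → ℂ} (hf : Differentiable ℂ f) (hg : Differentiable ℂ g) {i j : ℕ}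
    (hfi : f ∈ Van i p) (hfi' : f ∉ Van (i + 1) p) (hgj : g ∈ Van j p) (hgj' : g ∉ Van (j + 1) p) :
    f * g ∈ Van (i + j) p ∧ f * g ∉ Van (i + j + 1) p :=
  ⟨van_mul hfi hgj, vanC_key hf hg hfi hfi' hgj hgj'⟩

/-- The order at `0` of a function of parity `ε` has the parity of `ε`. -/
theorem order_par {f : C2 → ℂ} {ε : ℂ} (hf : Differentiable ℂ f) (h : f ∈ Par ε) {m : ℕ}
    (h1 : f ∈ Van m 0) (h2 : f ∉ Van (m + 1) 0) : ε = (-1) ^ m := by
  rw [mem_van_iff hf] at h1 h2
  push Not at h2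
  obtain ⟨i, j, hij, hne⟩ := h2
  have hk : i + j = m := by
    by_contra h3
    exact hne (h1 i j (by omega))
  have h3 := tc_par hf h i j
  rw [hk] at h3
  exact (mul_right_cancel₀ hne h3).symm

/-- entire functions form a domain -/
theorem mul_ne_zero_ent {f g : C2 → ℂ} (hf : Differentiable ℂ f) (hg : Differentiable ℂ g) (h1 : f ≠ 0)
    (h2 : g ≠ 0) : f * g ≠ 0 := by
  obtain ⟨i, hi, hi'⟩ := exists_order (p := 0) hf h1
  obtain ⟨j, hj, hj'⟩ := exists_order (p := 0) hg h2
  intro h3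
  have h4 := (order_mul hf hg hi hi' hj hj').2
  rw [h3] at h4
  exact h4 (Submodule.zero_mem _)

/-- cancellation in the domain of entire functions -/
theorem ent_cancel {s f g : C2 → ℂ} (hs : Differentiable ℂ s) (hs0 : s ≠ 0) (hf : Differentiable ℂ f)
    (hg : Differentiable ℂ g) (h : s * f = s * g) : f = g := by
  by_contra h1
  have h2 : f - g ≠ 0 := sub_ne_zero.2 h1
  refine mul_ne_zero_ent hs (hf.sub hg) hs0 h2 ?_
  rw [mul_sub, h, sub_self]

/-- the zero set of a nonzero entire function has empty interior -/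
theorem ne_zero_frequently {f : C2 → ℂ} (hf : Differentiable ℂ f) (h1 : f ≠ 0) (p : C2) :
    ∃ᶠ z in 𝓝[≠] p, f z ≠ 0 := by
  intro h2
  simp only [not_not] at h2
  have hne : (𝓝[≠] p).NeBot := Module.punctured_nhds_neBot ℂ C2 p
  have h3 : f p = 0 := by
    have h4 : Tendsto f (𝓝[≠] p) (𝓝 (f p)) := (hf.continuous.tendsto p).mono_left nhdsWithin_le_nhds
    have h5 : Tendsto f (𝓝[≠] p) (𝓝 0) := tendsto_const_nhds.congr' (h2.mono fun z hz => hz.symm)
    exact tendsto_nhds_unique h4 h5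
  have h4 : f =ᶠ[𝓝 p] 0 := by
    rw [eventually_nhdsWithin_iff] at h2
    filter_upwards [h2] with z hz
    by_cases hzp : z = p
    · rw [hzp, h3]
      rfl
    · exact hz hzp
  obtain ⟨N, hN⟩ := exists_not_van hf h1 (p := p)
  exact hN ((van_congr h4).2 (Submodule.zero_mem _))

end Q2T
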