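import Pool.Agent.H.MP_89f84f_ag.q2.WpB
import Pool.Agent.H.MP_89f84f_ag.q2.VanC
import Pool.Agent.H.MP_e23cd6_ag.GT.AnUp

set_option autoImplicit false

open Complex Topology Filter Asymptotics Metric Set Polynomial

namespace Q2T

private theorem stab_basis {v : C2} (hv : v ≠ 0) :
    ∃ v' : C2, ∀ z w : ℂ, z • v' + w • v = 0 → z = 0 ∧ w = 0 := by
  by_cases h : v 0 = 0
  · have h1 : v 1 ≠ 0 := by
      intro h1
      apply hv
      funext i
      fin_cases i
      · exact h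
      · exact h1
    refine ⟨![1, 0], fun z w hzw => ?_⟩
    have e0 : z * 1 + w * v 0 = 0 := congrFun hzw 0
    have e1 : z * 0 + w * v 1 = 0 := congrFun hzw 1
    rw [h, mul_one, mul_zero, add_zero] at e0
    rw [mul_zero, zero_add] at e1
    exact ⟨e0, (mul_eq_zero.1 e1).resolve_right h1⟩
  · refine ⟨![0, 1], fun z w hzw => ?_⟩
    have e0 : z * 0 + w * v 0 = 0 := congrFun hzw 0
    have e1 : z * 1 + w * v 1 = 0 := congrFun hzw 1
    rw [mul_zero, zero_add] at e0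
    have hw := (mul_eq_zero.1 e0).resolve_right h
    rw [hw, zero_mul, mul_one, add_zero] at e1
    exact ⟨e1, hw⟩

private theorem stab_prod_cont (M : Multiset ℂ) (f g : ℂ → ℂ) :
    Continuous fun c : ℂ => (M.map fun w => f w + c * g w).prod := by
  induction M using Multiset.induction_on with
  | empty =>
    simp only [Multiset.map_zero, Multiset.prod_zero]
    exact continuous_const
  | cons a M ih =>
    simp only [Multiset.map_cons, Multiset.prod_cons]
    exact (continuous_const.add (continuous_id.mul continuous_const)).mul ih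

private theorem stab_prod_lower (M : Multiset ℂ) (f : ℂ → ℂ) {m : ℝ} (hm : 0 ≤ m) (hm1 : m ≤ 1)
    {μ : ℕ} (hc : Multiset.card M ≤ μ) (h : ∀ w ∈ M, m ≤ ‖f w‖) :
    m ^ μ ≤ ‖(M.map f).prod‖ := by
  refine (pow_le_pow_of_le_one hm hm1 hc).trans ?_
  clear hc
  induction M using Multiset.induction_on with
  | empty =>
    simp
  | cons a M ih =>
    rw [Multiset.map_cons, Multiset.prod_cons, norm_mul, Multiset.card_cons, pow_succ, mul_comm]
    exact mul_le_mul (h a (Multiset.mem_cons_self _ _))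
      (ih fun w hw => h w (Multiset.mem_cons_of_mem hw)) (pow_nonneg hm _) (norm_nonneg _)

private theorem stab_core {F T T' : ℂ × ℂ → ℂ} (hF : Differentiable ℂ F)
    (hT : Differentiable ℂ T) (hT' : Differentiable ℂ T')
    (h0 : ∃ᶠ w in 𝓝 (0 : ℂ), F (0, w) ≠ 0) (hF0 : F 0 = 0) (hT0 : T 0 = 0)
    {ε : ℝ} (hε : 0 < ε) (hi : ∀ q : ℂ × ℂ, q ≠ 0 → ‖q‖ < ε → F q = 0 → T q ≠ 0) :
    ∀ᶠ c in 𝓝 (0 : ℂ), ∃ q : ℂ × ℂ, ‖q‖ < ε ∧ F q = 0 ∧ T q + c * T' q = 0 := by
  have an : ∀ {H : ℂ × ℂ → ℂ}, Differentiable ℂ H → ∀ q, AnalyticAt ℂ H q := fun hH q =>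
    Pool.Agent.Abd.analyticAt_of_diff (Filter.Eventually.of_forall fun y => hH y)
  obtain ⟨r₀, hr₀, hr⟩ := exists_wreg (an hF 0) h0
  obtain ⟨r, hr1, hr2, hr3⟩ : ∃ r, 0 < r ∧ r < r₀ ∧ r < ε :=
    ⟨min r₀ ε / 2, by positivity, by have := min_le_left r₀ ε; linarith [lt_min hr₀ hε],
      by have := min_le_right r₀ ε; linarith [lt_min hr₀ hε]⟩
  obtain ⟨ρ₀, hρ₀, hρ⟩ := hr r hr1 hr2
  obtain ⟨ρ, hρ1, hρ2, hρ3⟩ : ∃ ρ, 0 < ρ ∧ ρ < ρ₀ ∧ ρ < ε :=
    ⟨min ρ₀ ε / 2, by positivity, by have := min_le_left ρ₀ ε; linarith [lt_min hρ₀ hε],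
      by have := min_le_right ρ₀ ε; linarith [lt_min hρ₀ hε]⟩
  have hW := hρ ρ hρ1 hρ2
  obtain ⟨μ, P, V, hP, -, -, hV, hN⟩ := exists_weierstrass hW
  -- roots
  have root : ∀ z ∈ ball (0 : ℂ) ρ, ∀ w ∈ (P z).roots, ‖w‖ < r ∧ F (z, w) = 0 := by
    intro z hz w hw
    have h1 := (hP z hz).2.2 w hw
    refine ⟨h1, ?_⟩
    rw [(hV z hz w (by rwa [mem_ball, dist_zero_right])).2, (mem_roots'.1 hw).2.eq_zero, zero_mul]
  have hnorm : ∀ z w : ℂ, ‖z‖ < ρ → ‖w‖ ≤ r → ‖(z, w)‖ < ε := by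
    intro z w hz hw
    rw [Prod.norm_def]
    exact max_lt (hz.trans hρ3) (hw.trans_lt hr3)
  -- the compact set
  set K : Set (ℂ × ℂ) := (sphere (0 : ℂ) (ρ / 2) ×ˢ closedBall (0 : ℂ) r) ∩ F ⁻¹' {0} with hK
  have hKc : IsCompact K := by
    refine ((isCompact_sphere _ _).prod (isCompact_closedBall _ _)).inter_right ?_
    exact isClosed_singleton.preimage hF.continuous
  have hKT : ∀ q ∈ K, 0 < ‖T q‖ := by
    rintro ⟨z, w⟩ ⟨⟨hz, hw⟩, hq⟩
    rw [mem_sphere, dist_zero_right] at hz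
    rw [mem_closedBall, dist_zero_right] at hw
    rw [norm_pos_iff]
    refine hi (z, w) ?_ (hnorm z w (by linarith) hw) hq
    intro h
    rw [Prod.mk_eq_zero] at h
    rw [h.1, norm_zero] at hz
    linarith
  obtain ⟨m, hm, hmK⟩ := hKc.exists_forall_le' (f := fun q => ‖T q‖)
    hT.continuous.norm.continuousOn hKT
  obtain ⟨B, hB⟩ := hKc.exists_bound_of_continuousOn (f := T') hT'.continuous.continuousOn
  set m' : ℝ := min (m / 2) 1 with hm'
  have hm'0 : 0 < m' := lt_min (by linarith) one_pos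
  have hm'1 : m' ≤ 1 := min_le_right _ _
  have hm'2 : m' ≤ m / 2 := min_le_left _ _
  -- small parameters
  have e1 : ∀ᶠ c in 𝓝 (0 : ℂ), ‖c‖ * B < m / 2 := by
    have h1 : Continuous fun c : ℂ => ‖c‖ * B := continuous_norm.mul continuous_const
    have h2 : Tendsto (fun c : ℂ => ‖c‖ * B) (𝓝 0) (𝓝 0) := by
      have := h1.tendsto 0
      rwa [norm_zero, zero_mul] at this
    exact h2.eventually_lt_const (by linarith)
  have e2 : ∀ᶠ c in 𝓝 (0 : ℂ), ‖((P 0).roots.map fun w => T (0, w) + c * T' (0, w)).prod‖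
      < m' ^ μ := by
    have h1 := (stab_prod_cont (P 0).roots (fun w => T (0, w)) (fun w => T' (0, w))).norm
    have h2 := h1.tendsto 0
    have hz : (0 : ℂ) ∈ ball (0 : ℂ) ρ := mem_ball_self hρ1
    have h3 : (0 : ℂ) ∈ (P 0).roots := by
      rw [mem_roots (hP 0 hz).1.ne_zero, IsRoot.def]
      have h4 := hV 0 hz 0 (mem_ball_self hr1)
      have h5 := h4.2
      rw [show ((0 : ℂ), (0 : ℂ)) = 0 from rfl, hF0] at h5
      exact (mul_eq_zero.1 h5.symm).resolve_right h4.1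
    have h4 : ((P 0).roots.map fun w => T (0, w) + 0 * T' (0, w)).prod = 0 := by
      refine Multiset.prod_eq_zero (Multiset.mem_map.2 ⟨0, h3, ?_⟩)
      rw [show ((0 : ℂ), (0 : ℂ)) = 0 from rfl, hT0, zero_mul, add_zero]
    rw [h4, norm_zero] at h2
    exact h2.eventually_lt_const (pow_pos hm'0 μ)
  filter_upwards [e1, e2] with c hc1 hc2
  by_contra hcon
  push Not at hcon
  have hTc : Differentiable ℂ fun q => T q + c * T' q := hT.add (hT'.const_mul c)
  have hNc := hN (fun q => T q + c * T' q) fun q _ => an hTc q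
  set N : ℂ → ℂ := fun z => ((P z).roots.map fun w => T (z, w) + c * T' (z, w)).prod with hNdef
  have hsub : closedBall (0 : ℂ) (ρ / 2) ⊆ ball 0 ρ := closedBall_subset_ball (by linarith)
  have hne : ∀ z ∈ closedBall (0 : ℂ) (ρ / 2), N z ≠ 0 := by
    intro z hz
    have hz' := hsub hz
    refine Multiset.prod_ne_zero fun h => ?_
    rw [Multiset.mem_map] at h
    obtain ⟨w, hw, h⟩ := h
    obtain ⟨hw1, hw2⟩ := root z hz' w hw
    rw [mem_ball, dist_zero_right] at hz'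
    exact hcon (z, w) (hnorm z w hz' hw1.le) hw2 h
  have hlow : ∀ z ∈ sphere (0 : ℂ) (ρ / 2), m' ^ μ ≤ ‖N z‖ := by
    intro z hz
    have hz' := hsub (sphere_subset_closedBall hz)
    refine stab_prod_lower _ (fun w => T (z, w) + c * T' (z, w)) hm'0.le hm'1
      ((card_roots' _).trans (hP z hz').2.1.le) fun w hw => ?_
    obtain ⟨hw1, hw2⟩ := root z hz' w hw
    have hq : (z, w) ∈ K := ⟨⟨hz, by rw [mem_closedBall, dist_zero_right]; exact hw1.le⟩, hw2⟩
    have h1 := hmK (z, w) hq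
    have h2 := hB (z, w) hq
    have h3 : ‖c * T' (z, w)‖ ≤ ‖c‖ * B := by
      rw [norm_mul]
      exact mul_le_mul_of_nonneg_left h2 (norm_nonneg _)
    have h4 : ‖T (z, w)‖ ≤ ‖T (z, w) + c * T' (z, w)‖ + ‖c * T' (z, w)‖ := by
      have := norm_sub_le (T (z, w) + c * T' (z, w)) (c * T' (z, w))
      rwa [add_sub_cancel_right] at this
    linarith
  have hd : DiffContOnCl ℂ (fun z => (N z)⁻¹) (ball 0 (ρ / 2)) := by
    refine DifferentiableOn.diffContOnCl ?_
    intro z hz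
    have hz' : z ∈ closedBall (0 : ℂ) (ρ / 2) := closure_ball_subset_closedBall hz
    have h1 := (hNc.mono (closure_ball_subset_closedBall.trans hsub)) z hz
    exact h1.inv (hne z hz')
  have hmax := Complex.norm_le_of_forall_mem_frontier_norm_le isBounded_ball hd
    (C := (m' ^ μ)⁻¹) (fun z hz => by
      have hz' : z ∈ sphere (0 : ℂ) (ρ / 2) := by
        rwa [frontier_ball _ (by linarith : ρ / 2 ≠ 0)] at hz
      rw [norm_inv]
      exact inv_anti₀ (pow_pos hm'0 μ) (hlow z hz'))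
    (subset_closure (mem_ball_self (by linarith : 0 < ρ / 2)))
  rw [norm_inv] at hmax
  have h5 := hne 0 (mem_closedBall_self (by linarith))
  have h6 := (inv_le_inv₀ (norm_pos_iff.2 h5) (pow_pos hm'0 μ)).1 hmax
  exact absurd hc2 (not_lt.2 h6)

/-- Stability of isolated common zeros.
PROOF: coordinates `Q + z v' + w v` with `s (Q + w v)` not identically zero; regular radii (`exists_wreg`) inside `U`, so small that
`(0, 0)` is the only common zero of `s, T₀` in the closed bidisc; for `T_c = T₀ + c T₁` let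
`N_c z = ((P z).roots.map T_c (z, ·)).prod` (`exists_weierstrass`), holomorphic on `|z| < ρ`, `N_0 0 = 0`.  Fix `0 < ρ' < ρ`: on
`|z| = ρ'` and the (compact) zero set of `s` there `|T₀| ≥ 2 m > 0`, so for small `c` `|T_c| ≥ m` and `|N_c z| ≥ m^μ`.  If `T_c` had no zero on
the zeros of `s` with `|z| ≤ ρ'`, `N_c` would have no zero there, so `|N_c 0| ≥ m^μ` by the maximum principle for `1 / N_c`; but
`N_c 0 → N_0 0 = 0`. -/
theorem stab {s T₀ T₁ : C2 → ℂ} (hs : Differentiable ℂ s) (h0 : Differentiable ℂ T₀) (h1 : Differentiable ℂ T₁)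
    (hs0 : s ≠ 0) {Q : C2} (hQ : s Q = 0) (hQ0 : T₀ Q = 0) (hi : ∀ᶠ z in 𝓝[≠] Q, ¬ (s z = 0 ∧ T₀ z = 0))
    {U : Set C2} (hU : U ∈ 𝓝 Q) :
    ∀ᶠ c in 𝓝 (0 : ℂ), ∃ Q' ∈ U, s Q' = 0 ∧ T₀ Q' + c * T₁ Q' = 0 := by
  obtain ⟨p, hp⟩ : ∃ p, s p ≠ 0 := by
    by_contra h
    push Not at h
    exact hs0 (funext h)
  have hv : p - Q ≠ 0 := by
    intro h
    rw [sub_eq_zero.1 h] at hp
    exact hp hQ
  obtain ⟨v', hv'⟩ := stab_basis hv
  set L : ℂ × ℂ → C2 := fun q => Q + (q.1 • v' + q.2 • (p - Q)) with hL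
  have hLd : Differentiable ℂ L := by
    rw [hL]
    fun_prop
  have hL0 : L 0 = Q := by
    simp [hL]
  have hLi : ∀ q, L q = Q → q = 0 := by
    intro q hq
    have h2 : q.1 • v' + q.2 • (p - Q) = 0 := by
      have h3 : Q + (q.1 • v' + q.2 • (p - Q)) = Q := hq
      exact add_eq_left.1 h3
    exact Prod.ext (hv' _ _ h2).1 (hv' _ _ h2).2
  have hfreq : ∃ᶠ w in 𝓝 (0 : ℂ), s (L (0, w)) ≠ 0 := by
    intro h
    simp only [ne_eq, not_not] at h
    have hf : Differentiable ℂ fun w : ℂ => s (L (0, w)) := by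
      refine hs.comp (hLd.comp ?_)
      exact (differentiable_const (0 : ℂ)).prodMk differentiable_id
    have hf2 : AnalyticOnNhd ℂ (fun w : ℂ => s (L (0, w))) univ := fun w _ => hf.analyticAt w
    have h3 := hf2.eqOn_zero_of_preconnected_of_eventuallyEq_zero isPreconnected_univ
      (mem_univ (0 : ℂ)) h
    have h4 := h3 (mem_univ (1 : ℂ))
    apply hp
    have h5 : L (0, 1) = p := by
      simp [hL]
    have h6 : s (L (0, 1)) = 0 := h4
    rwa [h5] at h6
  have hcont : Tendsto L (𝓝 0) (𝓝 Q) := by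
    have := hLd.continuous.tendsto 0
    rwa [hL0] at this
  rw [eventually_nhdsWithin_iff] at hi
  obtain ⟨ε, hε, hεs⟩ := Metric.eventually_nhds_iff_ball.1 ((hcont.eventually hi).and
    (hcont.eventually hU))
  have key := stab_core (F := fun q => s (L q)) (T := fun q => T₀ (L q)) (T' := fun q => T₁ (L q))
    (hs.comp hLd) (h0.comp hLd) (h1.comp hLd) hfreq (by rw [hL0]; exact hQ)
    (by rw [hL0]; exact hQ0) hε (fun q hq hqε hFq hTq => by
      have h2 := (hεs q (by rwa [mem_ball, dist_zero_right])).1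
      exact h2 (fun h => hq (hLi q h)) ⟨hFq, hTq⟩)
  filter_upwards [key] with c hc
  obtain ⟨q, hq, hq1, hq2⟩ := hc
  exact ⟨L q, (hεs q (by rwa [mem_ball, dist_zero_right])).2, hq1, hq2⟩

end Q2T
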