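import Mathlib

/-!
MP_89f84f_ag, helper22.  Quadratic points on abelian surfaces with `End = ℤ` through theta functions.
Paper proof: /team-store/h22_89f84f_theta.md
-/

set_option autoImplicit false

open Complex Topology Filter Asymptotics Metric Set

namespace Q2T

/-- `ℂ²` (with the maximum norm). -/
abbrev C2 : Type := Fin 2 → ℂ

/-- `ℤ²`. -/
abbrev Z2 : Type := Fin 2 → ℤ

/-- `p · z = p₀ z₀ + p₁ z₁`. -/
def dot (p : Z2) (z : C2) : ℂ := (p 0 : ℂ) * z 0 + (p 1 : ℂ) * z 1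

/-- `α · q` for real `α`. -/
def rdot (α : Fin 2 → ℝ) (q : Z2) : ℝ := α 0 * (q 0 : ℝ) + α 1 * (q 1 : ℝ)

/-- Period data: a symmetric complex `2 × 2` matrix `τ` with positive definite imaginary part and
an integer `d ≥ 1`.  They give the lattice `Λ = τ ℤ² + diag (1, d) ℤ²` in `ℂ²` and the complex torus
`ℂ² / Λ` with its polarisation of type `(1, d)`. -/
structure PerData where
  /-- period matrix -/
  τ : Matrix (Fin 2) (Fin 2) ℂ
  /-- type of the polarisation -/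
  d : ℕ
  d_pos : 0 < d
  symm : τ 0 1 = τ 1 0
  pos : 0 < (τ 0 0).im
  det_pos : (τ 0 1).im ^ 2 < (τ 0 0).im * (τ 1 1).im

namespace PerData

variable (S : PerData)

/-- `τ p`. -/
def tv (p : Z2) : C2 := fun i => S.τ i 0 * (p 0 : ℂ) + S.τ i 1 * (p 1 : ℂ)

/-- `diag (1, d) q`. -/
def dv (q : Z2) : C2 := ![(q 0 : ℂ), (S.d : ℂ) * (q 1 : ℂ)]

@[simp] theorem tv_apply (p : Z2) (i : Fin 2) :
    S.tv p i = S.τ i 0 * (p 0 : ℂ) + S.τ i 1 * (p 1 : ℂ) := rfl

@[simp] theorem dv_zero' (q : Z2) : S.dv q 0 = (q 0 : ℂ) := rfl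

@[simp] theorem dv_one' (q : Z2) : S.dv q 1 = (S.d : ℂ) * (q 1 : ℂ) := rfl

theorem tv_add (p p' : Z2) : S.tv (p + p') = S.tv p + S.tv p' := by
  funext i
  show S.τ i 0 * (((p + p') 0 : ℤ) : ℂ) + S.τ i 1 * (((p + p') 1 : ℤ) : ℂ) =
    (S.τ i 0 * (p 0 : ℂ) + S.τ i 1 * (p 1 : ℂ)) + (S.τ i 0 * (p' 0 : ℂ) + S.τ i 1 * (p' 1 : ℂ))
  simp only [Pi.add_apply]
  push_cast
  ring

theorem tv_zero : S.tv 0 = 0 := by
  funext i
  show S.τ i 0 * (((0 : Z2) 0 : ℤ) : ℂ) + S.τ i 1 * (((0 : Z2) 1 : ℤ) : ℂ) = 0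
  simp

theorem tv_neg (p : Z2) : S.tv (-p) = -S.tv p := by
  have h := S.tv_add p (-p)
  rw [add_neg_cancel, tv_zero] at h
  exact (neg_eq_of_add_eq_zero_right h.symm).symm

theorem dv_add (q q' : Z2) : S.dv (q + q') = S.dv q + S.dv q' := by
  funext i
  fin_cases i
  · show (((q + q') 0 : ℤ) : ℂ) = (q 0 : ℂ) + (q' 0 : ℂ)
    simp only [Pi.add_apply]
    push_cast
    ring
  · show (S.d : ℂ) * (((q + q') 1 : ℤ) : ℂ) = (S.d : ℂ) * (q 1 : ℂ) + (S.d : ℂ) * (q' 1 : ℂ)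
    simp only [Pi.add_apply]
    push_cast
    ring

theorem dv_zero : S.dv 0 = 0 := by
  funext i
  fin_cases i
  · show (((0 : Z2) 0 : ℤ) : ℂ) = 0
    simp
  · show (S.d : ℂ) * (((0 : Z2) 1 : ℤ) : ℂ) = 0
    simp

theorem dv_neg (q : Z2) : S.dv (-q) = -S.dv q := by
  have h := S.dv_add q (-q)
  rw [add_neg_cancel, dv_zero] at h
  exact (neg_eq_of_add_eq_zero_right h.symm).symm

/-- The factor of automorphy of level `u` with characteristics `α, β`. -/
noncomputable def J (u : ℤ) (α β : Fin 2 → ℝ) (p q : Z2) (z : C2) : ℂ :=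
  cexp (2 * Real.pi * I * ((rdot α q + rdot β p : ℝ) : ℂ)) *
    cexp (-(Real.pi * I * u * (dot p (S.tv p) + 2 * dot p z)))

/-- Theta functions of level `u` with characteristics `α, β`. -/
def Th (u : ℤ) (α β : Fin 2 → ℝ) : Submodule ℂ (C2 → ℂ) where
  carrier := {f | Differentiable ℂ f ∧
    ∀ (p q : Z2) (z : C2), f (z + S.tv p + S.dv q) = S.J u α β p q z * f z}
  zero_mem' := ⟨differentiable_const 0, fun p q z => by simp⟩
  add_mem' := fun {f g} hf hg => ⟨hf.1.add hg.1, fun p q z => by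
    simp only [Pi.add_apply, hf.2, hg.2, mul_add]⟩
  smul_mem' := fun c f hf => ⟨hf.1.const_smul c, fun p q z => by
    simp only [Pi.smul_apply, smul_eq_mul, hf.2]; ring⟩

/-- The lattice. -/
def Lat : AddSubgroup C2 where
  carrier := {z | ∃ p q : Z2, z = S.tv p + S.dv q}
  zero_mem' := ⟨0, 0, by rw [S.tv_zero, S.dv_zero, add_zero]⟩
  add_mem' := by
    rintro _ _ ⟨p, q, rfl⟩ ⟨p', q', rfl⟩
    exact ⟨p + p', q + q', by rw [S.tv_add, S.dv_add]; abel⟩
  neg_mem' := by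
    rintro _ ⟨p, q, rfl⟩
    exact ⟨-p, -q, by rw [S.tv_neg, S.dv_neg]; abel⟩

/-- All endomorphisms of `ℂ² / Λ` are multiplications by integers. -/
def EndZ : Prop := ∀ M : C2 →ₗ[ℂ] C2, (∀ x ∈ S.Lat, M x ∈ S.Lat) → ∃ n : ℤ, ∀ x, M x = (n : ℂ) • x

end PerData

/-- Functions with `f (-z) = ε f z`. -/
def Par (ε : ℂ) : Submodule ℂ (C2 → ℂ) where
  carrier := {f | ∀ z, f (-z) = ε * f z}
  zero_mem' := fun z => by simp
  add_mem' := fun {f g} hf hg z => by simp only [Pi.add_apply, hf z, hg z, mul_add]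
  smul_mem' := fun c f hf z => by simp only [Pi.smul_apply, smul_eq_mul, hf z]; ring

/-- Functions vanishing to order at least `N` at `p`. -/
def Van (N : ℕ) (p : C2) : Submodule ℂ (C2 → ℂ) where
  carrier := {f | f =O[𝓝 p] fun z => ‖z - p‖ ^ N}
  zero_mem' := isBigO_zero _ _
  add_mem' hf hg := IsBigO.add hf hg
  smul_mem' c _ hf := IsBigO.const_smul_left hf c

/-- Entire functions. -/
def Ent : Submodule ℂ (C2 → ℂ) where
  carrier := {f | Differentiable ℂ f}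
  zero_mem' := differentiable_const 0
  add_mem' hf hg := Differentiable.add hf hg
  smul_mem' c _ hf := Differentiable.const_smul hf c

/-- Multiples of `s` in the ring of entire functions. -/
def Mult (s : C2 → ℂ) : Submodule ℂ (C2 → ℂ) where
  carrier := {f | ∃ h, Differentiable ℂ h ∧ f = s * h}
  zero_mem' := ⟨0, differentiable_const 0, by simp⟩
  add_mem' := by
    rintro _ _ ⟨h, hh, rfl⟩ ⟨h', hh', rfl⟩
    exact ⟨h + h', hh.add hh', by rw [mul_add]⟩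
  smul_mem' := by
    rintro c _ ⟨h, hh, rfl⟩
    exact ⟨c • h, hh.const_smul c, by rw [mul_smul_comm]⟩

/-- The common zeros of `s` and `t` are isolated. -/
def Copr (s t : C2 → ℂ) : Prop := ∀ p, ∀ᶠ z in 𝓝[≠] p, ¬ (s z = 0 ∧ t z = 0)

end Q2T
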