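import Pool.Agent.H.MP_89f84f_ag.q2.Defs

/-!
Holomorphic functions on open subsets of `ℂ²` are smooth: directional derivatives of holomorphic
functions are holomorphic (Cauchy formula on lines and differentiation under the integral sign).
-/

set_option autoImplicit false

open Complex Topology Filter Asymptotics Metric Set MeasureTheory
open scoped ContDiff Interval

namespace Q2T

private theorem divA0_line {U : Set C2} (hU : IsOpen U) {f : C2 → ℂ} (hf : DifferentiableOn ℂ f U)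
    {z : C2} (hz : z ∈ U) (v : C2) :
    HasDerivAt (fun t : ℂ => f (z + t • v)) (fderiv ℂ f z v) 0 := by
  have h1 : HasDerivAt (fun t : ℂ => z + t • v) v 0 := by
    simpa using ((hasDerivAt_id (0 : ℂ)).smul_const v).const_add z
  have h2 : HasFDerivAt f (fderiv ℂ f z) (z + (0 : ℂ) • v) := by
    rw [zero_smul, add_zero]
    exact (hf.differentiableAt (hU.mem_nhds hz)).hasFDerivAt
  exact h2.comp_hasDerivAt (0 : ℂ) h1

private theorem divA0_mem {z₀ z v : C2} {R r ρ : ℝ} {t : ℂ} (hz : z ∈ closedBall z₀ r)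
    (ht : ‖t‖ ≤ ρ) (h : r + ρ * ‖v‖ ≤ R) : z + t • v ∈ closedBall z₀ R := by
  rw [mem_closedBall, dist_eq_norm] at hz ⊢
  have h1 : z + t • v - z₀ = (z - z₀) + t • v := by abel
  rw [h1]
  refine (norm_add_le _ _).trans (le_trans ?_ h)
  rw [norm_smul]
  exact add_le_add hz (mul_le_mul_of_nonneg_right ht (norm_nonneg _))

private theorem divA0_diffline {U : Set C2} {f : C2 → ℂ} (hf : DifferentiableOn ℂ f U) (z v : C2) :
    DifferentiableOn ℂ (fun t : ℂ => f (z + t • v)) {t : ℂ | z + t • v ∈ U} := by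
  have h1 : Differentiable ℂ (fun t : ℂ => z + t • v) := by fun_prop
  exact hf.comp h1.differentiableOn fun t ht => ht

private theorem divA0_bound {U : Set C2} (hU : IsOpen U) {f : C2 → ℂ} (hf : DifferentiableOn ℂ f U)
    {z₀ : C2} {R M : ℝ} (hR : 0 < R) (hRU : closedBall z₀ (3 * R) ⊆ U)
    (hM : ∀ w ∈ closedBall z₀ (3 * R), ‖f w‖ ≤ M) {w : C2} (hw : w ∈ closedBall z₀ (2 * R)) :
    ‖fderiv ℂ f w‖ ≤ M / R := by
  have hM0 : 0 ≤ M := (norm_nonneg _).trans (hM z₀ (mem_closedBall_self (by linarith)))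
  refine ContinuousLinearMap.opNorm_le_bound _ (by positivity) fun u => ?_
  by_cases hu : u = 0
  · rw [hu, map_zero, norm_zero, norm_zero, mul_zero]
  have hu' : 0 < ‖u‖ := norm_pos_iff.2 hu
  have hwU : w ∈ U := hRU (closedBall_subset_closedBall (by linarith) hw)
  have hmem : ∀ t ∈ closedBall (0 : ℂ) (R / ‖u‖), w + t • u ∈ closedBall z₀ (3 * R) := by
    intro t ht
    rw [mem_closedBall, dist_zero_right] at ht
    refine divA0_mem hw ht ?_
    rw [div_mul_cancel₀ _ hu'.ne']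
    linarith
  have h1 : DiffContOnCl ℂ (fun t : ℂ => f (w + t • u)) (ball 0 (R / ‖u‖)) :=
    (divA0_diffline hf w u).diffContOnCl_ball fun t ht => hRU (hmem t ht)
  have h2 := norm_deriv_le_of_forall_mem_sphere_norm_le (div_pos hR hu') h1
    (C := M) fun t ht => hM _ (hmem t (sphere_subset_closedBall ht))
  rw [(divA0_line hU hf hwU u).deriv] at h2
  refine h2.trans (le_of_eq ?_)
  field_simp

/-- Directional derivatives of holomorphic functions are holomorphic. -/
theorem DivA_fderiv_apply {U : Set C2} (hU : IsOpen U) {f : C2 → ℂ} (hf : DifferentiableOn ℂ f U)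
    (v : C2) : DifferentiableOn ℂ (fun z => fderiv ℂ f z v) U := by
  intro z₀ hz₀
  refine DifferentiableAt.differentiableWithinAt ?_
  obtain ⟨R', hR', hRU'⟩ := Metric.nhds_basis_closedBall.mem_iff.1 (hU.mem_nhds hz₀)
  obtain ⟨R, hR⟩ : ∃ R : ℝ, R = R' / 3 := ⟨_, rfl⟩
  have hR0 : 0 < R := by rw [hR]; linarith
  have hRU : closedBall z₀ (3 * R) ⊆ U := by
    rw [hR, mul_div_cancel₀ _ (by norm_num : (3 : ℝ) ≠ 0)]
    exact hRU'
  obtain ⟨M, hM⟩ : ∃ M : ℝ, ∀ w ∈ closedBall z₀ (3 * R), ‖f w‖ ≤ M := by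
    obtain ⟨M, hM⟩ := (isCompact_closedBall z₀ (3 * R)).exists_bound_of_continuousOn
      (hf.continuousOn.mono hRU)
    exact ⟨M, hM⟩
  obtain ⟨ρ, hρ⟩ : ∃ ρ : ℝ, ρ = R / (‖v‖ + 1) := ⟨_, rfl⟩
  have hv1 : 0 < ‖v‖ + 1 := by positivity
  have hρ0 : 0 < ρ := by rw [hρ]; positivity
  have hρv : ρ * ‖v‖ ≤ R := by
    rw [hρ, div_mul_eq_mul_div, div_le_iff₀ hv1]
    nlinarith
  have hmem : ∀ z ∈ closedBall z₀ R, ∀ t ∈ closedBall (0 : ℂ) ρ, z + t • v ∈ closedBall z₀ (2 * R) := by
    intro z hz t ht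
    rw [mem_closedBall, dist_zero_right] at ht
    exact divA0_mem hz ht (by linarith)
  have h23 : closedBall z₀ (2 * R) ⊆ closedBall z₀ (3 * R) :=
    closedBall_subset_closedBall (by linarith)
  have hcm : ∀ θ : ℝ, circleMap 0 ρ θ ∈ closedBall (0 : ℂ) ρ := fun θ =>
    circleMap_mem_closedBall 0 hρ0.le θ
  -- the Cauchy formula
  have hform : ∀ z ∈ ball z₀ R, fderiv ℂ f z v = (2 * Real.pi * I : ℂ)⁻¹ •
      ∫ θ in (0 : ℝ)..2 * Real.pi, (deriv (circleMap 0 ρ) θ * ((circleMap 0 ρ θ - 0) ^ 2)⁻¹) *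
        f (z + circleMap 0 ρ θ • v) := by
    intro z hz
    have hzc := ball_subset_closedBall hz
    have hzU : z ∈ U := hRU (closedBall_subset_closedBall (by linarith) hzc)
    have hopen : IsOpen {t : ℂ | z + t • v ∈ U} := hU.preimage (by fun_prop)
    have h1 := two_pi_I_inv_smul_circleIntegral_sub_sq_inv_smul_of_differentiable hopen
      (c := 0) (w₀ := 0) (R := ρ) (f := fun t : ℂ => f (z + t • v))
      (fun t ht => hRU (h23 (hmem z hzc t ht))) (divA0_diffline hf z v) (mem_ball_self hρ0)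
    rw [(divA0_line hU hf hzU v).deriv] at h1
    rw [← h1]
    congr 1
    unfold circleIntegral
    refine intervalIntegral.integral_congr fun θ _ => ?_
    simp only [smul_eq_mul]
    ring
  have hq : Continuous fun θ : ℝ => deriv (circleMap 0 ρ) θ * ((circleMap 0 ρ θ - 0) ^ 2)⁻¹ := by
    have h1 : Continuous fun θ : ℝ => circleMap 0 ρ θ := continuous_circleMap 0 ρ
    have h2 : ∀ θ : ℝ, (circleMap 0 ρ θ - 0) ^ 2 ≠ 0 := by
      intro θ
      rw [sub_zero]
      exact pow_ne_zero 2 (circleMap_ne_center hρ0.ne')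
    have h3 : Continuous fun θ : ℝ => deriv (circleMap 0 ρ) θ := by
      simp only [deriv_circleMap]
      fun_prop
    exact h3.mul (((h1.sub continuous_const).pow 2).inv₀ h2)
  have hl : ∀ z : C2, Continuous fun θ : ℝ => z + circleMap 0 ρ θ • v := fun z =>
    continuous_const.add ((continuous_circleMap 0 ρ).smul continuous_const)
  have hFc : ∀ z ∈ ball z₀ R, Continuous fun θ : ℝ =>
      (deriv (circleMap 0 ρ) θ * ((circleMap 0 ρ θ - 0) ^ 2)⁻¹) * f (z + circleMap 0 ρ θ • v) := by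
    intro z hz
    refine hq.mul (hf.continuousOn.comp_continuous (hl z) fun θ => ?_)
    exact hRU (h23 (hmem z (ball_subset_closedBall hz) _ (hcm θ)))
  obtain ⟨B, hB⟩ : ∃ B : ℝ, ∀ θ ∈ Icc (0 : ℝ) (2 * Real.pi),
      ‖deriv (circleMap 0 ρ) θ * ((circleMap 0 ρ θ - 0) ^ 2)⁻¹‖ ≤ B :=
    isCompact_Icc.exists_bound_of_continuousOn hq.continuousOn
  have hpi := Real.pi_pos
  have key := intervalIntegral.hasFDerivAt_integral_of_dominated_of_fderiv_le (𝕜 := ℂ)
    (μ := volume) (a := 0) (b := 2 * Real.pi) (x₀ := z₀) (s := ball z₀ R) (bound := fun _ => B * (M / R))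
    (F := fun z θ => (deriv (circleMap 0 ρ) θ * ((circleMap 0 ρ θ - 0) ^ 2)⁻¹) *
      f (z + circleMap 0 ρ θ • v))
    (F' := fun z θ => (deriv (circleMap 0 ρ) θ * ((circleMap 0 ρ θ - 0) ^ 2)⁻¹) •
      fderiv ℂ f (z + circleMap 0 ρ θ • v))
    (ball_mem_nhds z₀ hR0) ?_ ?_ ?_ ?_ ?_ ?_
  · refine (key.differentiableAt.const_smul (2 * Real.pi * I : ℂ)⁻¹).congr_of_eventuallyEq ?_
    filter_upwards [ball_mem_nhds z₀ hR0] with z hz
    exact hform z hz
  · filter_upwards [ball_mem_nhds z₀ hR0] with z hz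
    exact (hFc z hz).aestronglyMeasurable
  · exact (hFc z₀ (mem_ball_self hR0)).intervalIntegrable _ _
  · refine AEStronglyMeasurable.smul hq.aestronglyMeasurable ?_
    exact ((measurable_fderiv ℂ f).comp (hl z₀).measurable).stronglyMeasurable.aestronglyMeasurable
  · refine ae_of_all _ fun θ hθ z hz => ?_
    rw [uIoc_of_le (by positivity)] at hθ
    rw [norm_smul]
    have h1 := hB θ ⟨hθ.1.le, hθ.2⟩
    have h2 := divA0_bound hU hf hR0 hRU hM (hmem z (ball_subset_closedBall hz) _ (hcm θ))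
    exact mul_le_mul h1 h2 (norm_nonneg _) ((norm_nonneg _).trans h1)
  · exact intervalIntegrable_const
  · refine ae_of_all _ fun θ _ z hz => ?_
    have hzU : z + circleMap 0 ρ θ • v ∈ U :=
      hRU (h23 (hmem z (ball_subset_closedBall hz) _ (hcm θ)))
    have h1 : HasFDerivAt (fun x : C2 => x + circleMap 0 ρ θ • v)
        (ContinuousLinearMap.id ℂ C2) z := (hasFDerivAt_id z).add_const _
    have h2 := (hf.differentiableAt (hU.mem_nhds hzU)).hasFDerivAt.comp z h1
    rw [ContinuousLinearMap.comp_id] at h2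
    exact h2.const_mul _

/-- Holomorphic functions of two variables are smooth over `ℂ`. -/
theorem DivA_contDiffOn_complex {U : Set C2} (hU : IsOpen U) {f : C2 → ℂ}
    (hf : DifferentiableOn ℂ f U) (n : ℕ) : ContDiffOn ℂ n f U := by
  induction n generalizing f with
  | zero =>
    rw [Nat.cast_zero, contDiffOn_zero]
    exact hf.continuousOn
  | succ n ih =>
    rw [Nat.cast_succ, contDiffOn_succ_iff_fderiv_of_isOpen hU]
    refine ⟨hf, fun h => ?_, ?_⟩
    · exact absurd h (by simp)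
    · rw [contDiffOn_clm_apply]
      intro v
      exact ih (DivA_fderiv_apply hU hf v)

/-- Holomorphic functions of two variables are smooth over `ℝ`. -/
theorem DivA_contDiffOn {U : Set C2} (hU : IsOpen U) {f : C2 → ℂ}
    (hf : DifferentiableOn ℂ f U) : ContDiffOn ℝ ∞ f U := by
  rw [contDiffOn_infty]
  intro n
  exact (DivA_contDiffOn_complex hU hf n).restrict_scalars ℝ

/-- The squared absolute value of a holomorphic function is smooth. -/
theorem DivA_contDiffOn_normSq {U : Set C2} (hU : IsOpen U) {f : C2 → ℂ}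
    (hf : DifferentiableOn ℂ f U) : ContDiffOn ℝ ∞ (fun z => ‖f z‖ ^ 2) U :=
  (DivA_contDiffOn hU hf).norm_sq ℝ

end Q2T
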