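import Pool.Agent.H.MP_89f84f_ag.q2.ThA

set_option autoImplicit false

open Complex Topology Filter Asymptotics Metric Set

namespace Q2T

namespace PerData

variable (S : PerData)

/-- `det (Im τ) > 0`. -/
noncomputable def D : ℝ := (S.τ 0 0).im * (S.τ 1 1).im - (S.τ 0 1).im ^ 2

/-- The quadratic form `y · (Im τ)⁻¹ y`. -/
noncomputable def qf (y : Fin 2 → ℝ) : ℝ :=
  ((S.τ 1 1).im * y 0 ^ 2 - 2 * (S.τ 0 1).im * (y 0 * y 1) + (S.τ 0 0).im * y 1 ^ 2) / S.D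

private theorem thB_D_pos : 0 < S.D := by
  have := S.det_pos
  unfold D
  linarith

private theorem thB_pos1 : 0 < (S.τ 1 1).im := by
  have h1 := S.det_pos
  have h2 := S.pos
  have h3 : 0 < (S.τ 0 0).im * (S.τ 1 1).im := lt_of_le_of_lt (sq_nonneg _) h1
  exact (pos_iff_pos_of_mul_pos h3).1 h2

private theorem thB_qf_nonneg (y : Fin 2 → ℝ) : 0 ≤ S.qf y := by
  unfold qf
  refine div_nonneg ?_ S.thB_D_pos.le
  have h1 := S.det_pos
  have h2 := S.pos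
  have h3 : (S.τ 0 0).im * ((S.τ 1 1).im * y 0 ^ 2 - 2 * (S.τ 0 1).im * (y 0 * y 1) +
      (S.τ 0 0).im * y 1 ^ 2) = ((S.τ 0 0).im * y 1 - (S.τ 0 1).im * y 0) ^ 2 +
      ((S.τ 0 0).im * (S.τ 1 1).im - (S.τ 0 1).im ^ 2) * y 0 ^ 2 := by ring
  have h4 : 0 ≤ (S.τ 0 0).im * ((S.τ 1 1).im * y 0 ^ 2 - 2 * (S.τ 0 1).im * (y 0 * y 1) +
      (S.τ 0 0).im * y 1 ^ 2) := by
    rw [h3]
    have : 0 ≤ ((S.τ 0 0).im * (S.τ 1 1).im - (S.τ 0 1).im ^ 2) * y 0 ^ 2 :=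
      mul_nonneg (by linarith) (sq_nonneg _)
    positivity
  exact nonneg_of_mul_nonneg_right h4 h2

private theorem thB_qf_trans (p q : Z2) (z : C2) :
    S.qf (fun i => ((z + S.tv p + S.dv q) i).im) =
      S.qf (fun i => (z i).im) + (dot p (S.tv p) + 2 * dot p z).im := by
  have hD := S.thB_D_pos.ne'
  have hs : (S.τ 1 0).im = (S.τ 0 1).im := by rw [S.symm]
  have e0 : ((z + S.tv p + S.dv q) 0).im =
      (z 0).im + ((S.τ 0 0).im * (p 0 : ℝ) + (S.τ 0 1).im * (p 1 : ℝ)) := by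
    simp only [Pi.add_apply, tv_apply, dv_zero', add_im, mul_im, intCast_re, intCast_im]
    ring
  have e1 : ((z + S.tv p + S.dv q) 1).im =
      (z 1).im + ((S.τ 0 1).im * (p 0 : ℝ) + (S.τ 1 1).im * (p 1 : ℝ)) := by
    simp only [Pi.add_apply, tv_apply, dv_one', add_im, mul_im, intCast_re, intCast_im,
      natCast_im, natCast_re, hs]
    ring
  have e2 : (dot p (S.tv p) + 2 * dot p z).im = (p 0 : ℝ) * ((S.τ 0 0).im * (p 0 : ℝ) +
      (S.τ 0 1).im * (p 1 : ℝ)) + (p 1 : ℝ) * ((S.τ 0 1).im * (p 0 : ℝ) +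
      (S.τ 1 1).im * (p 1 : ℝ)) + 2 * ((p 0 : ℝ) * (z 0).im + (p 1 : ℝ) * (z 1).im) := by
    simp only [dot, tv_apply, add_im, mul_im, intCast_re, intCast_im, hs, re_ofNat, im_ofNat]
    ring
  unfold qf
  beta_reduce
  rw [e0, e1, e2, div_add' _ _ _ hD, div_left_inj' hD]
  unfold D
  ring

private theorem thB_norm_J (u : ℤ) (α β : Fin 2 → ℝ) (p q : Z2) (z : C2) :
    ‖S.J u α β p q z‖ = Real.exp (Real.pi * u * (dot p (S.tv p) + 2 * dot p z).im) := by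
  unfold J
  rw [norm_mul, norm_exp, norm_exp, ← Real.exp_add]
  congr 1
  generalize dot p (S.tv p) + 2 * dot p z = w
  simp only [neg_re, mul_re, mul_im, I_re, I_im, ofReal_re, ofReal_im, intCast_re, intCast_im,
    re_ofNat, im_ofNat]
  ring

private noncomputable def thBg (u : ℤ) (f : C2 → ℂ) (z : C2) : ℝ :=
  ‖f z‖ * Real.exp (-(Real.pi * u * S.qf (fun i => (z i).im)))

private theorem thB_inv {u : ℤ} {α β : Fin 2 → ℝ} {f : C2 → ℂ} (hf : f ∈ S.Th u α β)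
    (p q : Z2) (z : C2) : S.thBg u f (z + S.tv p + S.dv q) = S.thBg u f z := by
  unfold thBg
  rw [hf.2, norm_mul, thB_norm_J, thB_qf_trans, mul_comm (Real.exp _) ‖f z‖, mul_assoc,
    ← Real.exp_add]
  congr 2
  ring

private theorem thB_cont {u : ℤ} {α β : Fin 2 → ℝ} {f : C2 → ℂ} (hf : f ∈ S.Th u α β) :
    Continuous (S.thBg u f) := by
  unfold thBg qf
  have h1 : Continuous f := hf.1.continuous
  fun_prop

/-- `‖f z‖ exp (-π u (y · (Im τ)⁻¹ y))`, `y = Im z`, is bounded for `f` in `Th u`.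
PROOF: it is invariant under the lattice (real part of the exponent of `J`), continuous, and `ℂ²` modulo the
lattice is compact: every point is congruent to `τ ξ + Δ η` with `ξ, η ∈ [0,1]²`. -/
theorem th_bounded {u : ℤ} {α β : Fin 2 → ℝ} {f : C2 → ℂ} (hf : f ∈ S.Th u α β) :
    ∃ C : ℝ, ∀ z : C2, ‖f z‖ ≤ C * Real.exp (Real.pi * u * S.qf (fun i => (z i).im)) := by
  set Φ : (Fin 2 → ℝ) × (Fin 2 → ℝ) → C2 := fun w i =>
    (S.τ i 0 * w.1 0 + S.τ i 1 * w.1 1) + (![(w.2 0 : ℂ), (S.d : ℂ) * w.2 1] : C2) i with hΦ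
  have hΦc : Continuous Φ := by
    refine continuous_pi fun i => ?_
    fin_cases i
    · show Continuous fun w : (Fin 2 → ℝ) × (Fin 2 → ℝ) =>
        (S.τ 0 0 * (w.1 0 : ℂ) + S.τ 0 1 * (w.1 1 : ℂ)) + (w.2 0 : ℂ)
      fun_prop
    · show Continuous fun w : (Fin 2 → ℝ) × (Fin 2 → ℝ) =>
        (S.τ 1 0 * (w.1 0 : ℂ) + S.τ 1 1 * (w.1 1 : ℂ)) + (S.d : ℂ) * (w.2 1 : ℂ)
      fun_prop
  have hK : IsCompact (Φ '' (Icc 0 1 ×ˢ Icc 0 1)) :=
    (isCompact_Icc.prod isCompact_Icc).image hΦc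
  obtain ⟨C, hC⟩ := hK.bddAbove_image (S.thB_cont hf).continuousOn
  refine ⟨C, fun z => ?_⟩
  obtain ⟨ξ, η, hz⟩ := S.exists_real_coords z
  set p : Z2 := fun i => ⌊ξ i⌋ with hp
  set q : Z2 := fun i => ⌊η i⌋ with hq
  set w : (Fin 2 → ℝ) × (Fin 2 → ℝ) := (fun i => ξ i - p i, fun i => η i - q i) with hw
  have hwz : z = Φ w + S.tv p + S.dv q := by
    rw [hz]
    funext i
    fin_cases i
    · show (S.τ 0 0 * (ξ 0 : ℂ) + S.τ 0 1 * (ξ 1 : ℂ)) + (η 0 : ℂ) =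
        ((S.τ 0 0 * ((ξ 0 - p 0 : ℝ) : ℂ) + S.τ 0 1 * ((ξ 1 - p 1 : ℝ) : ℂ)) +
          ((η 0 - q 0 : ℝ) : ℂ)) + (S.τ 0 0 * (p 0 : ℂ) + S.τ 0 1 * (p 1 : ℂ)) + (q 0 : ℂ)
      push_cast
      ring
    · show (S.τ 1 0 * (ξ 0 : ℂ) + S.τ 1 1 * (ξ 1 : ℂ)) + (S.d : ℂ) * (η 1 : ℂ) =
        ((S.τ 1 0 * ((ξ 0 - p 0 : ℝ) : ℂ) + S.τ 1 1 * ((ξ 1 - p 1 : ℝ) : ℂ)) +
          (S.d : ℂ) * ((η 1 - q 1 : ℝ) : ℂ)) + (S.τ 1 0 * (p 0 : ℂ) + S.τ 1 1 * (p 1 : ℂ)) +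
          (S.d : ℂ) * (q 1 : ℂ)
      push_cast
      ring
  have hw1 : w ∈ (Icc 0 1 ×ˢ Icc 0 1 : Set ((Fin 2 → ℝ) × (Fin 2 → ℝ))) := by
    refine ⟨⟨fun i => ?_, fun i => ?_⟩, ⟨fun i => ?_, fun i => ?_⟩⟩
    · exact sub_nonneg.2 (Int.floor_le (ξ i))
    · exact (sub_lt_iff_lt_add'.2 (Int.lt_floor_add_one (ξ i))).le
    · exact sub_nonneg.2 (Int.floor_le (η i))
    · exact (sub_lt_iff_lt_add'.2 (Int.lt_floor_add_one (η i))).le
  have h1 : S.thBg u f z ≤ C := by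
    rw [hwz, S.thB_inv hf]
    exact hC ⟨_, ⟨w, hw1, rfl⟩, rfl⟩
  have h2 : ‖f z‖ = S.thBg u f z * Real.exp (Real.pi * u * S.qf (fun i => (z i).im)) := by
    unfold thBg
    rw [mul_assoc, ← Real.exp_add, neg_add_cancel, Real.exp_zero, mul_one]
  rw [h2]
  exact mul_le_mul_of_nonneg_right h1 (Real.exp_pos _).le

private theorem thB_const {f : C2 → ℂ} (hf : Differentiable ℂ f) {C : ℝ} (h : ∀ z, ‖f z‖ ≤ C) :
    ∀ z w, f z = f w := by
  intro z w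
  refine hf.apply_eq_apply_of_bounded ?_ z w
  rw [isBounded_iff_forall_norm_le]
  exact ⟨C, by rintro _ ⟨z, rfl⟩; exact h z⟩

/-- Liouville. -/
theorem th_level_zero {α β : Fin 2 → ℝ} {f : C2 → ℂ} (hf : f ∈ S.Th 0 α β) : ∃ c : ℂ, f = fun _ => c := by
  obtain ⟨C, hC⟩ := S.th_bounded hf
  refine ⟨f 0, funext fun z => thB_const hf.1 (C := C) (fun z => ?_) z 0⟩
  have h := hC z
  rwa [Int.cast_zero, mul_zero, zero_mul, Real.exp_zero, mul_one] at h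

/-- Nonzero theta functions of level `0` have integral characteristics. -/
theorem th_zero_char {α β : Fin 2 → ℝ} {f : C2 → ℂ} (hf : f ∈ S.Th 0 α β) (h0 : f ≠ 0) :
    (∀ i, ∃ k : ℤ, α i = k) ∧ ∀ i, ∃ k : ℤ, β i = k := by
  obtain ⟨c, rfl⟩ := S.th_level_zero hf
  have hc : c ≠ 0 := by
    rintro rfl
    exact h0 rfl
  have key : ∀ p q : Z2, ∃ k : ℤ, rdot α q + rdot β p = k := by
    intro p q
    have h1 : c = S.J 0 α β p q 0 * c := hf.2 p q 0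
    have h2 : S.J 0 α β p q 0 = 1 := by
      have := mul_right_cancel₀ hc ((one_mul c).trans h1)
      exact this.symm
    unfold J at h2
    rw [Int.cast_zero, mul_zero, zero_mul, neg_zero, Complex.exp_zero, mul_one,
      Complex.exp_eq_one_iff] at h2
    obtain ⟨k, hk⟩ := h2
    refine ⟨k, ?_⟩
    have h3 : (2 * (Real.pi : ℂ) * I) * (((rdot α q + rdot β p : ℝ) : ℂ)) =
        (2 * (Real.pi : ℂ) * I) * (k : ℂ) := by rw [hk]; ring
    have h4 := mul_left_cancel₀ Complex.two_pi_I_ne_zero h3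
    exact_mod_cast h4
  constructor
  · intro i
    obtain ⟨k, hk⟩ := key 0 (Pi.single i 1)
    refine ⟨k, ?_⟩
    rw [← hk]
    fin_cases i <;> simp [rdot]
  · intro i
    obtain ⟨k, hk⟩ := key (Pi.single i 1) 0
    refine ⟨k, ?_⟩
    rw [← hk]
    fin_cases i <;> simp [rdot]

/-- No theta functions of negative level.
PROOF: `f` is bounded (`qf ≥ 0`, `u < 0`), so constant by Liouville, and tends to `0` along `z = t * I * e₀`. -/
theorem th_level_neg {u : ℤ} (hu : u < 0) {α β : Fin 2 → ℝ} {f : C2 → ℂ} (hf : f ∈ S.Th u α β) : f = 0 := by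
  obtain ⟨C, hC⟩ := S.th_bounded hf
  have hu' : (u : ℝ) < 0 := by exact_mod_cast hu
  have hC0 : 0 ≤ C := by
    have h1 := (norm_nonneg _).trans (hC 0)
    exact nonneg_of_mul_nonneg_left h1 (Real.exp_pos _)
  have hb : ∀ z, ‖f z‖ ≤ C := by
    intro z
    refine (hC z).trans ?_
    have h1 : Real.exp (Real.pi * u * S.qf (fun i => (z i).im)) ≤ 1 := by
      rw [Real.exp_le_one_iff]
      exact mul_nonpos_of_nonpos_of_nonneg
        (mul_nonpos_of_nonneg_of_nonpos Real.pi_pos.le hu'.le) (S.thB_qf_nonneg _)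
    exact mul_le_of_le_one_right hC0 h1
  have hc := thB_const hf.1 hb
  funext z
  show f z = 0
  -- along the imaginary axis
  set a : ℝ := -(Real.pi * u * ((S.τ 1 1).im / S.D)) with ha
  have ha0 : 0 < a := by
    have h1 : 0 < (S.τ 1 1).im / S.D := div_pos S.thB_pos1 S.thB_D_pos
    have h2 : Real.pi * (u : ℝ) < 0 := mul_neg_of_pos_of_neg Real.pi_pos hu'
    have h3 := mul_neg_of_neg_of_pos h2 h1
    rw [ha]
    linarith
  have h1 : ∀ t : ℝ, ‖f z‖ ≤ C * Real.exp (-(a * t ^ 2)) := by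
    intro t
    have h2 := hC (fun i => if i = 0 then (t : ℂ) * I else 0)
    rw [hc _ z] at h2
    refine h2.trans (le_of_eq ?_)
    congr 2
    have e : S.qf (fun i => ((if i = 0 then (t : ℂ) * I else 0 : ℂ)).im) =
        (S.τ 1 1).im / S.D * t ^ 2 := by
      unfold qf
      simp
      ring
    rw [e, ha]
    ring
  have h2 : Tendsto (fun t : ℝ => C * Real.exp (-(a * t ^ 2))) atTop (𝓝 (C * 0)) := by
    refine Tendsto.const_mul C (Real.tendsto_exp_neg_atTop_nhds_zero.comp ?_)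
    exact Tendsto.const_mul_atTop ha0 (tendsto_pow_atTop two_ne_zero)
  rw [mul_zero] at h2
  have h3 : ‖f z‖ ≤ 0 := ge_of_tendsto h2 (Eventually.of_forall h1)
  exact norm_le_zero_iff.1 h3

/-- divisors have smaller level -/
theorem level_le_of_mult {u v : ℤ} {α β α' β' : Fin 2 → ℝ} {s f : C2 → ℂ} (hs : s ∈ S.Th u α β)
    (hs0 : s ≠ 0) (hf : f ∈ S.Th v α' β') (hf0 : f ≠ 0) (h : f ∈ Mult s) : u ≤ v := by
  obtain ⟨g, hg, e⟩ := h
  have h1 := S.th_quot hs hs0 hf hg e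
  by_contra hlt
  have h2 := S.th_level_neg (by omega) h1
  exact hf0 (by rw [e, h2, mul_zero])

/-- same level: constant multiple -/
theorem eq_smul_of_mult {u : ℤ} {α β α' β' : Fin 2 → ℝ} {s f : C2 → ℂ} (hs : s ∈ S.Th u α β)
    (hs0 : s ≠ 0) (hf : f ∈ S.Th u α' β') (h : f ∈ Mult s) : ∃ c : ℂ, f = c • s := by
  obtain ⟨g, hg, e⟩ := h
  have h1 := S.th_quot hs hs0 hf hg e
  rw [sub_self] at h1
  obtain ⟨c, hc⟩ := S.th_level_zero h1
  refine ⟨c, ?_⟩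
  rw [e, hc]
  funext z
  show s z * c = c * s z
  ring

end PerData

end Q2T
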