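import Pool.Agent.H.MP_89f84f_ag.q2.GcdC
import Pool.Agent.H.MP_89f84f_ag.q2.ThB
import Pool.Agent.H.MP_89f84f_ag.q2.DivA0

set_option autoImplicit false

open Complex Topology Filter Asymptotics Metric Set
open scoped ContDiff

namespace Q2T

/-- On the ball `g` is a greatest common divisor of `s, t` and `G = |g|² exp σ` with `σ` smooth. -/
def LocM (s t : C2 → ℂ) (G : C2 → ℝ) (p : C2) (r : ℝ) (g : C2 → ℂ) (σ : C2 → ℝ) : Prop :=
  0 < r ∧ IsLG s t g (ball p r) ∧ ContDiffOn ℝ ∞ σ (ball p r) ∧ ∀ z ∈ ball p r, G z = ‖g z‖ ^ 2 * Real.exp (σ z)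

namespace PerData

variable (S : PerData)

/-- translates of local greatest common divisors of theta functions -/
theorem isLG_trans {u v : ℤ} {α β α' β' : Fin 2 → ℝ} {s t g : C2 → ℂ} (hs : s ∈ S.Th u α β)
    (ht : t ∈ S.Th v α' β') {p : C2} {r : ℝ} (h : IsLG s t g (ball p r)) {x : C2} (hx : x ∈ S.Lat) :
    IsLG s t (fun z => g (z - x)) (ball (p + x) r) := by
  obtain ⟨a, b, rfl⟩ := hx
  obtain ⟨hg, s', t', hs', ht', hss, htt, hc⟩ := h
  have hmem : ∀ z ∈ ball (p + (S.tv a + S.dv b)) r, z - (S.tv a + S.dv b) ∈ ball p r := by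
    intro z hz
    rw [mem_ball, dist_eq_norm] at hz ⊢
    rwa [sub_sub, add_comm (S.tv a + S.dv b) p]
  have hcomp : ∀ f : C2 → ℂ, DifferentiableOn ℂ f (ball p r) →
      DifferentiableOn ℂ (fun z => f (z - (S.tv a + S.dv b))) (ball (p + (S.tv a + S.dv b)) r) := by
    intro f hf
    have h1 : Differentiable ℂ fun z : C2 => z - (S.tv a + S.dv b) := by fun_prop
    exact hf.comp h1.differentiableOn hmem
  have hz : ∀ z : C2, z - (S.tv a + S.dv b) + S.tv a + S.dv b = z := by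
    intro z
    abel
  have hJ : ∀ (u' : ℤ) (α₁ β₁ : Fin 2 → ℝ),
      Differentiable ℂ fun z => S.J u' α₁ β₁ a b (z - (S.tv a + S.dv b)) := by
    intro u' α₁ β₁
    exact (S.ThA_J_diff u' α₁ β₁ a b).comp (by fun_prop)
  refine ⟨hcomp g hg, fun z => S.J u α β a b (z - (S.tv a + S.dv b)) * s' (z - (S.tv a + S.dv b)),
    fun z => S.J v α' β' a b (z - (S.tv a + S.dv b)) * t' (z - (S.tv a + S.dv b)),
    (hJ u α β).differentiableOn.mul (hcomp s' hs'), (hJ v α' β').differentiableOn.mul (hcomp t' ht'),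
    fun z hzb => ?_, fun z hzb => ?_, fun q hq => ?_⟩
  · have h1 := hs.2 a b (z - (S.tv a + S.dv b))
    rw [hz] at h1
    rw [h1, hss _ (hmem z hzb)]
    ring
  · have h1 := ht.2 a b (z - (S.tv a + S.dv b))
    rw [hz] at h1
    rw [h1, htt _ (hmem z hzb)]
    ring
  · have h1 := hc _ (hmem q hq)
    have h2 : Tendsto (fun z : C2 => z - (S.tv a + S.dv b)) (𝓝[≠] q)
        (𝓝[≠] (q - (S.tv a + S.dv b))) := by
      rw [tendsto_nhdsWithin_iff]
      constructor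
      · have h3 : Continuous fun z : C2 => z - (S.tv a + S.dv b) := by fun_prop
        exact (h3.tendsto q).mono_left nhdsWithin_le_nhds
      · filter_upwards [self_mem_nhdsWithin] with z hz' h4
        apply hz'
        have h5 := sub_left_injective h4
        exact h5
    filter_upwards [h2.eventually h1] with z hz' h4
    apply hz'
    exact ⟨(mul_eq_zero.1 h4.1).resolve_left (S.J_ne_zero _ _ _ _ _ _),
      (mul_eq_zero.1 h4.2).resolve_left (S.J_ne_zero _ _ _ _ _ _)⟩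

private def divALam (w : Z2 × Z2) : C2 := S.tv w.1 + S.dv w.2

private theorem divALam_mem (w : Z2 × Z2) : S.divALam w ∈ S.Lat := ⟨w.1, w.2, rfl⟩

private theorem divALam_sub (w w' : Z2 × Z2) : S.divALam (w - w') = S.divALam w - S.divALam w' := by
  unfold divALam
  rw [Prod.fst_sub, Prod.snd_sub, sub_eq_add_neg w.1, sub_eq_add_neg w.2, S.tv_add, S.dv_add,
    S.tv_neg, S.dv_neg]
  abel

private theorem divA_fin (R : ℝ) : {w : Z2 × Z2 | ‖S.divALam w‖ ≤ R}.Finite := by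
  obtain ⟨D, hD⟩ : ∃ D : ℝ, D = (S.τ 0 0).im * (S.τ 1 1).im - (S.τ 0 1).im ^ 2 := ⟨_, rfl⟩
  have hD0 : 0 < D := by
    have := S.det_pos
    rw [hD]
    linarith
  have hs : (S.τ 1 0).im = (S.τ 0 1).im := by rw [S.symm]
  obtain ⟨A, hA⟩ : ∃ A : ℝ, A = (|(S.τ 1 1).im| + |(S.τ 0 1).im| + |(S.τ 0 0).im|) * |R| / D :=
    ⟨_, rfl⟩
  have hA0 : 0 ≤ A := by rw [hA]; positivity
  obtain ⟨B, hB⟩ : ∃ B : ℝ, B = |R| + (‖S.τ 0 0‖ + ‖S.τ 0 1‖ + ‖S.τ 1 0‖ + ‖S.τ 1 1‖) * A :=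
    ⟨_, rfl⟩
  have hB0 : 0 ≤ B := by rw [hB]; positivity
  have hfin : (closedBall (0 : Z2 × Z2) (max A B)).Finite :=
    (isCompact_closedBall _ _).finite_of_discrete
  refine hfin.subset ?_
  rintro ⟨p, q⟩ hw
  have hw' : ‖S.tv p + S.dv q‖ ≤ |R| := le_trans hw (le_abs_self R)
  have hx0 : ‖(S.tv p + S.dv q) 0‖ ≤ |R| := (norm_le_pi_norm _ 0).trans hw'
  have hx1 : ‖(S.tv p + S.dv q) 1‖ ≤ |R| := (norm_le_pi_norm _ 1).trans hw'
  have e0 : ((S.tv p + S.dv q) 0).im = (S.τ 0 0).im * (p 0 : ℝ) + (S.τ 0 1).im * (p 1 : ℝ) := by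
    simp only [Pi.add_apply, tv_apply, dv_zero']
    simp
  have e1 : ((S.tv p + S.dv q) 1).im = (S.τ 0 1).im * (p 0 : ℝ) + (S.τ 1 1).im * (p 1 : ℝ) := by
    simp only [Pi.add_apply, tv_apply, dv_one']
    rw [← hs]
    simp
  have i0 : |(S.τ 0 0).im * (p 0 : ℝ) + (S.τ 0 1).im * (p 1 : ℝ)| ≤ |R| := by
    rw [← e0]
    exact (abs_im_le_norm _).trans hx0
  have i1 : |(S.τ 0 1).im * (p 0 : ℝ) + (S.τ 1 1).im * (p 1 : ℝ)| ≤ |R| := by
    rw [← e1]
    exact (abs_im_le_norm _).trans hx1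
  have p0 : |(p 0 : ℝ)| ≤ A := by
    rw [hA, le_div_iff₀ hD0]
    have h1 : |(p 0 : ℝ)| * D = |(S.τ 1 1).im * ((S.τ 0 0).im * (p 0 : ℝ) + (S.τ 0 1).im * (p 1 : ℝ))
        - (S.τ 0 1).im * ((S.τ 0 1).im * (p 0 : ℝ) + (S.τ 1 1).im * (p 1 : ℝ))| := by
      rw [← abs_of_pos hD0, ← abs_mul, hD]
      congr 1
      ring
    rw [h1]
    refine (abs_sub _ _).trans ?_
    rw [abs_mul, abs_mul]
    have h2 := mul_le_mul_of_nonneg_left i0 (abs_nonneg (S.τ 1 1).im)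
    have h3 := mul_le_mul_of_nonneg_left i1 (abs_nonneg (S.τ 0 1).im)
    have h4 : 0 ≤ |(S.τ 0 0).im| * |R| := by positivity
    nlinarith
  have p1 : |(p 1 : ℝ)| ≤ A := by
    rw [hA, le_div_iff₀ hD0]
    have h1 : |(p 1 : ℝ)| * D = |(S.τ 0 0).im * ((S.τ 0 1).im * (p 0 : ℝ) + (S.τ 1 1).im * (p 1 : ℝ))
        - (S.τ 0 1).im * ((S.τ 0 0).im * (p 0 : ℝ) + (S.τ 0 1).im * (p 1 : ℝ))| := by
      rw [← abs_of_pos hD0, ← abs_mul, hD]
      congr 1
      ring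
    rw [h1]
    refine (abs_sub _ _).trans ?_
    rw [abs_mul, abs_mul]
    have h2 := mul_le_mul_of_nonneg_left i1 (abs_nonneg (S.τ 0 0).im)
    have h3 := mul_le_mul_of_nonneg_left i0 (abs_nonneg (S.τ 0 1).im)
    have h4 : 0 ≤ |(S.τ 1 1).im| * |R| := by positivity
    nlinarith
  have np0 : ‖(p 0 : ℂ)‖ ≤ A := by rwa [Complex.norm_intCast]
  have np1 : ‖(p 1 : ℂ)‖ ≤ A := by rwa [Complex.norm_intCast]
  have m00 := mul_le_mul_of_nonneg_left np0 (norm_nonneg (S.τ 0 0))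
  have m01 := mul_le_mul_of_nonneg_left np1 (norm_nonneg (S.τ 0 1))
  have m10 := mul_le_mul_of_nonneg_left np0 (norm_nonneg (S.τ 1 0))
  have m11 := mul_le_mul_of_nonneg_left np1 (norm_nonneg (S.τ 1 1))
  have n00 : 0 ≤ ‖S.τ 0 0‖ * A := by positivity
  have n01 : 0 ≤ ‖S.τ 0 1‖ * A := by positivity
  have n10 : 0 ≤ ‖S.τ 1 0‖ * A := by positivity
  have n11 : 0 ≤ ‖S.τ 1 1‖ * A := by positivity
  have q0 : |(q 0 : ℝ)| ≤ B := by
    have h1 : (q 0 : ℂ) = (S.tv p + S.dv q) 0 - (S.τ 0 0 * (p 0 : ℂ) + S.τ 0 1 * (p 1 : ℂ)) := by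
      simp only [Pi.add_apply, tv_apply, dv_zero']
      ring
    have h2 : ‖(q 0 : ℂ)‖ ≤ |R| + (‖S.τ 0 0‖ * ‖(p 0 : ℂ)‖ + ‖S.τ 0 1‖ * ‖(p 1 : ℂ)‖) := by
      rw [h1]
      refine (norm_sub_le _ _).trans (add_le_add hx0 ((norm_add_le _ _).trans ?_))
      rw [norm_mul, norm_mul]
    rw [Complex.norm_intCast] at h2
    rw [hB]
    linarith
  have q1 : |(q 1 : ℝ)| ≤ B := by
    have h1 : (S.d : ℂ) * (q 1 : ℂ) =
        (S.tv p + S.dv q) 1 - (S.τ 1 0 * (p 0 : ℂ) + S.τ 1 1 * (p 1 : ℂ)) := by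
      simp only [Pi.add_apply, tv_apply, dv_one']
      ring
    have h2 : ‖(S.d : ℂ) * (q 1 : ℂ)‖ ≤ |R| + (‖S.τ 1 0‖ * ‖(p 0 : ℂ)‖ + ‖S.τ 1 1‖ * ‖(p 1 : ℂ)‖) := by
      rw [h1]
      refine (norm_sub_le _ _).trans (add_le_add hx1 ((norm_add_le _ _).trans ?_))
      rw [norm_mul, norm_mul]
    rw [norm_mul, Complex.norm_natCast, Complex.norm_intCast] at h2
    have h3 : |(q 1 : ℝ)| ≤ (S.d : ℝ) * |(q 1 : ℝ)| := by
      have h4 : (1 : ℝ) ≤ S.d := by exact_mod_cast S.d_pos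
      exact le_mul_of_one_le_left (abs_nonneg _) h4
    rw [hB]
    linarith
  rw [mem_closedBall, dist_zero_right, Prod.norm_def]
  refine max_le ?_ ?_
  · rw [pi_norm_le_iff_of_nonneg (hA0.trans (le_max_left _ _))]
    intro i
    refine le_trans ?_ (le_max_left A B)
    rw [Int.norm_eq_abs]
    fin_cases i
    · exact p0
    · exact p1
  · rw [pi_norm_le_iff_of_nonneg (hA0.trans (le_max_left _ _))]
    intro i
    refine le_trans ?_ (le_max_right A B)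
    rw [Int.norm_eq_abs]
    fin_cases i
    · exact q0
    · exact q1

private theorem divA_fund : ∃ K : Set C2, IsCompact K ∧ ∀ z : C2, ∃ w : Z2 × Z2, z - S.divALam w ∈ K := by
  set Φ : (Fin 2 → ℝ) × (Fin 2 → ℝ) → C2 := fun w i =>
    (S.τ i 0 * w.1 0 + S.τ i 1 * w.1 1) + (![(w.2 0 : ℂ), (S.d : ℂ) * w.2 1] : C2) i with hΦ
  have hΦc : Continuous Φ := by
    refine continuous_pi fun i => ?_
    fin_cases i
    · show Continuous fun w : (Fin 2 → ℝ) × (Fin 2 → ℝ) =>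
        (S.τ 0 0 * (w.1 0 : ℂ) + S.τ 0 1 * (w.1 1 : ℂ)) + (w.2 0 : ℂ)
      fun_prop
    · show Continuous fun w : (Fin 2 → ℝ) × (Fin 2 → ℝ) =>
        (S.τ 1 0 * (w.1 0 : ℂ) + S.τ 1 1 * (w.1 1 : ℂ)) + (S.d : ℂ) * (w.2 1 : ℂ)
      fun_prop
  have hK : IsCompact (Φ '' (Icc 0 1 ×ˢ Icc 0 1)) :=
    (isCompact_Icc.prod isCompact_Icc).image hΦc
  refine ⟨_, hK, fun z => ?_⟩
  obtain ⟨ξ, η, hz⟩ := S.exists_real_coords z
  set p : Z2 := fun i => ⌊ξ i⌋ with hp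
  set q : Z2 := fun i => ⌊η i⌋ with hq
  set w : (Fin 2 → ℝ) × (Fin 2 → ℝ) := (fun i => ξ i - p i, fun i => η i - q i) with hw
  have hwz : z - S.divALam (p, q) = Φ w := by
    rw [sub_eq_iff_eq_add, hz]
    funext i
    fin_cases i
    · show (S.τ 0 0 * (ξ 0 : ℂ) + S.τ 0 1 * (ξ 1 : ℂ)) + (η 0 : ℂ) =
        ((S.τ 0 0 * ((ξ 0 - p 0 : ℝ) : ℂ) + S.τ 0 1 * ((ξ 1 - p 1 : ℝ) : ℂ)) +
          ((η 0 - q 0 : ℝ) : ℂ)) + ((S.τ 0 0 * (p 0 : ℂ) + S.τ 0 1 * (p 1 : ℂ)) + (q 0 : ℂ))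
      push_cast
      ring
    · show (S.τ 1 0 * (ξ 0 : ℂ) + S.τ 1 1 * (ξ 1 : ℂ)) + (S.d : ℂ) * (η 1 : ℂ) =
        ((S.τ 1 0 * ((ξ 0 - p 0 : ℝ) : ℂ) + S.τ 1 1 * ((ξ 1 - p 1 : ℝ) : ℂ)) +
          (S.d : ℂ) * ((η 1 - q 1 : ℝ) : ℂ)) + ((S.τ 1 0 * (p 0 : ℂ) + S.τ 1 1 * (p 1 : ℂ)) +
          (S.d : ℂ) * (q 1 : ℂ))
      push_cast
      ring
  have hw1 : w ∈ (Icc 0 1 ×ˢ Icc 0 1 : Set ((Fin 2 → ℝ) × (Fin 2 → ℝ))) := by
    refine ⟨⟨fun i => ?_, fun i => ?_⟩, ⟨fun i => ?_, fun i => ?_⟩⟩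
    · exact sub_nonneg.2 (Int.floor_le (ξ i))
    · exact (sub_lt_iff_lt_add'.2 (Int.lt_floor_add_one (ξ i))).le
    · exact sub_nonneg.2 (Int.floor_le (η i))
    · exact (sub_lt_iff_lt_add'.2 (Int.lt_floor_add_one (η i))).le
  exact ⟨(p, q), hwz ▸ ⟨w, hw1, rfl⟩⟩

private noncomputable def divABump (r : C2 → ℝ) (hr : ∀ y, 0 < r y) (y : C2) : ContDiffBump y :=
  ⟨r y / 4, r y / 2, by have := hr y; linarith, by have := hr y; linarith⟩

/-- A periodic function `G` that is locally `|gcd|²` times a smooth positive function.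
PROOF: cover a fundamental domain (compact, `τ ξ + Δ η`, `ξ, η ∈ [0,1]²`) by finitely many balls `B (p i) (r i / 2)`, `g i` a
local gcd on `B (p i) (r i)`; `b i` smooth bump, positive on `B (p i) (r i / 2)`, support in `B (p i) (r i)`.  Put
`G z = ∑ i, ∑ x ∈ Lat, b i (z - x) |g i (z - x)|²` (locally finite sum).  Near a point `z₀` with local gcd `g` on a
ball: `G = |g|² * ∑ b i (z - x) |g i (z - x) / g z|²`, the quotients are units (`IsLG.unit`, `isLG_trans`), the bracket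
is smooth and positive. -/
theorem exists_metric {u v : ℤ} {α β α' β' : Fin 2 → ℝ} {s t : C2 → ℂ} (hs : s ∈ S.Th u α β)
    (ht : t ∈ S.Th v α' β') (hs0 : s ≠ 0) (ht0 : t ≠ 0) :
    ∃ G : C2 → ℝ, (∀ z, ∀ x ∈ S.Lat, G (z + x) = G z) ∧
      ∀ p, ∃ (r : ℝ) (g : C2 → ℂ) (σ : C2 → ℝ), LocM s t G p r g σ := by
  classical
  choose r hr g hg using fun p : C2 => local_gcd hs.1 ht.1 hs0 ht0 p
  obtain ⟨K, hK, hKz⟩ := S.divA_fund
  set b : (y : C2) → ContDiffBump y := divABump r hr with hb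
  have hbin : ∀ y, (b y).rIn = r y / 4 := fun y => rfl
  have hbout : ∀ y, (b y).rOut = r y / 2 := fun y => rfl
  obtain ⟨T, -, hT⟩ := hK.elim_nhds_subcover (fun y => ball y (r y / 2))
    (fun y _ => ball_mem_nhds y (by have := hr y; linarith))
  -- support and positivity of the bumps
  have hb0 : ∀ y z, z ∉ ball y (r y / 2) → (b y) z = 0 := by
    intro y z hz
    have h1 : z ∉ Function.support (b y) := by
      rw [(b y).support_eq]
      exact hz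
    exact Function.notMem_support.1 h1
  have hbpos : ∀ y z, z ∈ ball y (r y / 2) → 0 < (b y) z := fun y z hz =>
    (b y).pos_of_mem_ball hz
  -- the periodic function
  let H : C2 → ℝ := fun z => ∑ y ∈ T, (b y) z * ‖g y z‖ ^ 2
  let G : C2 → ℝ := fun z => ∑ᶠ w : Z2 × Z2, H (z - S.divALam w)
  obtain ⟨C, hC⟩ : ∃ C : ℝ, ∀ y ∈ T, ‖y‖ + r y ≤ C := by
    obtain ⟨C, hC⟩ := (T.finite_toSet.image fun y => ‖y‖ + r y).bddAbove
    exact ⟨C, fun y hy => hC ⟨y, hy, rfl⟩⟩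
  refine ⟨G, ?_, fun z₀ => ?_⟩
  · rintro z x ⟨p, q, rfl⟩
    have h1 : ∀ w : Z2 × Z2, H (z + (S.tv p + S.dv q) - S.divALam w)
        = H (z - S.divALam ((Equiv.subRight ((p, q) : Z2 × Z2)) w)) := by
      intro w
      rw [Equiv.subRight_apply, divALam_sub]
      congr 1
      show z + S.divALam (p, q) - S.divALam w = z - (S.divALam w - S.divALam (p, q))
      abel
    show ∑ᶠ w : Z2 × Z2, H (z + (S.tv p + S.dv q) - S.divALam w) = ∑ᶠ w : Z2 × Z2, H (z - S.divALam w)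
    rw [finsum_congr h1]
    exact finsum_comp_equiv (Equiv.subRight ((p, q) : Z2 × Z2)) (f := fun w => H (z - S.divALam w))
  -- local form
  obtain ⟨r₀, hr₀⟩ : ∃ r₀ : ℝ, r₀ = min (r z₀) 1 := ⟨_, rfl⟩
  have hr₀0 : 0 < r₀ := by rw [hr₀]; exact lt_min (hr z₀) one_pos
  have hr₀r : r₀ ≤ r z₀ := by rw [hr₀]; exact min_le_left _ _
  have hr₀1 : r₀ ≤ 1 := by rw [hr₀]; exact min_le_right _ _
  set W : Finset (Z2 × Z2) := (S.divA_fin (‖z₀‖ + 1 + C)).toFinset with hW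
  have hWmem : ∀ z ∈ ball z₀ r₀, ∀ w : Z2 × Z2, ∀ y ∈ T, z - S.divALam w ∈ ball y (r y / 2) → w ∈ W := by
    intro z hz w y hy hzy
    rw [hW, Set.Finite.mem_toFinset]
    show ‖S.divALam w‖ ≤ ‖z₀‖ + 1 + C
    have h1 : ‖z - S.divALam w - y‖ < r y / 2 := by
      rwa [mem_ball, dist_eq_norm] at hzy
    have h2 : ‖z - z₀‖ < r₀ := by rwa [mem_ball, dist_eq_norm] at hz
    have h3 : S.divALam w = z₀ + (z - z₀) - (z - S.divALam w - y) - y := by abel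
    have h4 : ‖S.divALam w‖ ≤ ‖z₀‖ + ‖z - z₀‖ + ‖z - S.divALam w - y‖ + ‖y‖ := by
      calc ‖S.divALam w‖ = ‖z₀ + (z - z₀) - (z - S.divALam w - y) - y‖ := by rw [← h3]
        _ ≤ ‖z₀ + (z - z₀) - (z - S.divALam w - y)‖ + ‖y‖ := norm_sub_le _ _
        _ ≤ ‖z₀ + (z - z₀)‖ + ‖z - S.divALam w - y‖ + ‖y‖ := by
            gcongr
            exact norm_sub_le _ _
        _ ≤ _ := by
            gcongr
            exact norm_add_le _ _
    have h5 := hC y hy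
    have h6 := hr y
    linarith
  have hGsum : ∀ z ∈ ball z₀ r₀, G z = ∑ w ∈ W, H (z - S.divALam w) := by
    intro z hz
    refine finsum_eq_sum_of_support_subset _ ?_
    intro w hw
    by_contra hcon
    apply hw
    show ∑ y ∈ T, (b y) (z - S.divALam w) * ‖g y (z - S.divALam w)‖ ^ 2 = 0
    refine Finset.sum_eq_zero fun y hy => ?_
    rw [hb0 y _ fun h => hcon (hWmem z hz w y hy h), zero_mul]
  have hUo : ∀ (w : Z2 × Z2) (y : C2), IsOpen (ball z₀ r₀ ∩ ball (y + S.divALam w) (r y)) :=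
    fun w y => isOpen_ball.inter isOpen_ball
  have hU1 : ∀ (w : Z2 × Z2) (y : C2), IsLG s t (fun z => g y (z - S.divALam w))
      (ball z₀ r₀ ∩ ball (y + S.divALam w) (r y)) := fun w y =>
    (S.isLG_trans hs ht (hg y) (S.divALam_mem w)).mono inter_subset_right
  have hU2 : ∀ (w : Z2 × Z2) (y : C2), IsLG s t (g z₀)
      (ball z₀ r₀ ∩ ball (y + S.divALam w) (r y)) := fun w y =>
    (hg z₀).mono (inter_subset_left.trans (ball_subset_ball hr₀r))
  choose k hk1 hk2 hk3 using fun (w : Z2 × Z2) (y : C2) =>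
    IsLG.unit (hUo w y) hs.1 ht.1 hs0 ht0 (hU1 w y) (hU2 w y)
  have hmemU : ∀ (z : C2) (w : Z2 × Z2) (y : C2) (ρ : ℝ),
      z - S.divALam w ∈ ball y ρ ↔ z ∈ ball (y + S.divALam w) ρ := by
    intro z w y ρ
    rw [mem_ball, mem_ball, dist_eq_norm, dist_eq_norm]
    have h1 : z - S.divALam w - y = z - (y + S.divALam w) := by abel
    rw [h1]
  let h : Z2 × Z2 → C2 → C2 → ℝ := fun w y z => (b y) (z - S.divALam w) * ‖k w y z‖ ^ 2
  have hterm : ∀ z ∈ ball z₀ r₀, ∀ w y, (b y) (z - S.divALam w) * ‖g y (z - S.divALam w)‖ ^ 2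
      = ‖g z₀ z‖ ^ 2 * h w y z := by
    intro z hz w y
    by_cases hzy : z - S.divALam w ∈ ball y (r y / 2)
    · have h1 : z ∈ ball (y + S.divALam w) (r y) := by
        rw [← hmemU]
        exact ball_subset_ball (by have := hr y; linarith) hzy
      rw [hk3 w y z ⟨hz, h1⟩, norm_mul]
      show _ = ‖g z₀ z‖ ^ 2 * ((b y) (z - S.divALam w) * ‖k w y z‖ ^ 2)
      ring
    · show _ = ‖g z₀ z‖ ^ 2 * ((b y) (z - S.divALam w) * ‖k w y z‖ ^ 2)
      rw [hb0 y _ hzy]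
      ring
  have hsmooth : ∀ w y, ContDiffOn ℝ ∞ (h w y) (ball z₀ r₀) := by
    intro w y z hz
    refine ContDiffAt.contDiffWithinAt ?_
    by_cases hzy : z ∈ closedBall (y + S.divALam w) (r y / 2)
    · have hzU : z ∈ ball z₀ r₀ ∩ ball (y + S.divALam w) (r y) :=
        ⟨hz, closedBall_subset_ball (by have := hr y; linarith) hzy⟩
      have h1 : ContDiffAt ℝ ∞ (fun z => (b y) (z - S.divALam w)) z := by
        have h2 : ContDiff ℝ ∞ (b y) := (b y).contDiff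
        exact (h2.comp (contDiff_id.sub contDiff_const)).contDiffAt
      have h2 : ContDiffAt ℝ ∞ (fun z => ‖k w y z‖ ^ 2) z :=
        (DivA_contDiffOn_normSq (hUo w y) (hk1 w y)).contDiffAt ((hUo w y).mem_nhds hzU)
      exact h1.mul h2
    · refine (contDiffAt_const (c := (0 : ℝ))).congr_of_eventuallyEq ?_
      filter_upwards [isClosed_closedBall.isOpen_compl.mem_nhds hzy] with z' hz'
      show (b y) (z' - S.divALam w) * ‖k w y z'‖ ^ 2 = 0
      rw [hb0 y _ fun h' => hz' (ball_subset_closedBall ((hmemU _ _ _ _).1 h')), zero_mul]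
  let B : C2 → ℝ := fun z => ∑ w ∈ W, ∑ y ∈ T, h w y z
  have hnn : ∀ w y z, 0 ≤ h w y z := fun w y z =>
    mul_nonneg ((b y).nonneg) (by positivity)
  have hBpos : ∀ z ∈ ball z₀ r₀, 0 < B z := by
    intro z hz
    obtain ⟨w, hw⟩ := hKz z
    obtain ⟨y, hy, hzy⟩ := mem_iUnion₂.1 (hT hw)
    have hwW : w ∈ W := hWmem z hz w y hy hzy
    have h1 : 0 < h w y z := by
      have h2 : z ∈ ball (y + S.divALam w) (r y) := by
        rw [← hmemU]
        exact ball_subset_ball (by have := hr y; linarith) hzy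
      have h3 := hk2 w y z ⟨hz, h2⟩
      exact mul_pos (hbpos y _ hzy) (by positivity)
    refine lt_of_lt_of_le h1 ?_
    refine le_trans ?_ (Finset.single_le_sum (f := fun w => ∑ y ∈ T, h w y z)
      (fun w' _ => Finset.sum_nonneg fun y' _ => hnn w' y' z) hwW)
    exact Finset.single_le_sum (f := fun y => h w y z) (fun y' _ => hnn w y' z) hy
  have hBsmooth : ContDiffOn ℝ ∞ B (ball z₀ r₀) :=
    ContDiffOn.sum fun w _ => ContDiffOn.sum fun y _ => hsmooth w y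
  refine ⟨r₀, g z₀, fun z => Real.log (B z), hr₀0, (hg z₀).mono (ball_subset_ball hr₀r),
    hBsmooth.log fun z hz => (hBpos z hz).ne', fun z hz => ?_⟩
  rw [Real.exp_log (hBpos z hz), hGsum z hz]
  show ∑ w ∈ W, ∑ y ∈ T, (b y) (z - S.divALam w) * ‖g y (z - S.divALam w)‖ ^ 2
    = ‖g z₀ z‖ ^ 2 * ∑ w ∈ W, ∑ y ∈ T, h w y z
  rw [Finset.mul_sum]
  refine Finset.sum_congr rfl fun w _ => ?_
  rw [Finset.mul_sum]
  exact Finset.sum_congr rfl fun y _ => hterm z hz w y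

end PerData

end Q2T
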