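import Pool.Agent.H.MP_89f84f_ag.q2.KfB
import Pool.Agent.H.MP_89f84f_ag.q2.JetD

set_option autoImplicit false

open Complex Topology Filter Asymptotics Metric Set Module

namespace Q2T

namespace KForm

variable {S : PerData} {k : Subfield ℂ} (K : KForm S k)

/-- The field of definition of the point `z`. -/
noncomputable def fld (z : C2) : IntermediateField k ℂ :=
  IntermediateField.adjoin k {c : ℂ | ∃ (m : ℕ) (f g : C2 → ℂ), f ∈ K.R m ∧ g ∈ K.R m ∧ g z ≠ 0 ∧ c = f z / g z}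

/-- All even ratios at `z` are in `k`, and some odd ratio is not. -/
def Half (z : C2) : Prop :=
  (∀ (m : ℕ) (f g : C2 → ℂ), f ∈ K.R m → g ∈ K.R m → f ∈ Par 1 → g ∈ Par 1 → g z ≠ 0 → f z / g z ∈ k) ∧
    ∃ (m : ℕ) (f g : C2 → ℂ), f ∈ K.R m ∧ g ∈ K.R m ∧ f ∈ Par (-1) ∧ g ∈ Par 1 ∧ g z ≠ 0 ∧ f z / g z ∉ k

private theorem fld_even_ne (m : ℕ) (hm : 1 ≤ m) (z : C2) : ∃ e ∈ K.R m, e ∈ Par 1 ∧ e z ≠ 0 := by
  obtain ⟨f, hf, hfz⟩ := S.exists_even_ne_zero (x := (m : ℤ)) (by exact_mod_cast hm) z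
  let W' : Submodule ℂ (C2 → ℂ) :=
    { carrier := {f | f z = 0}
      zero_mem' := rfl
      add_mem' := fun {a b} ha hb => by
        have ha' : a z = 0 := ha
        have hb' : b z = 0 := hb
        show a z + b z = 0
        rw [ha', hb', add_zero]
      smul_mem' := fun c a ha => by
        have ha' : a z = 0 := ha
        show c * a z = 0
        rw [ha', mul_zero] }
  obtain ⟨t, ht, htR, htW⟩ := K.exists_one (K.rat_par m (Or.inl rfl)) (W' := W') (fun h => hfz (h hf))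
  exact ⟨t, htR, ht.2, htW⟩

private theorem fld_neg {m : ℕ} {f : C2 → ℂ} (hf : f ∈ K.R m) : (fun z => f (-z)) ∈ K.R m := by
  have := K.nmul m (-1) f hf
  simpa using this

private theorem fld_half_mem {m : ℕ} {f : C2 → ℂ} (hf : f ∈ K.R m) : (fun z => f z / 2) ∈ K.R m := by
  have h2 : ((2 : ℂ)⁻¹) ∈ k := k.inv_mem (by
    have := k.add_mem k.one_mem k.one_mem
    have e : (1 : ℂ) + 1 = 2 := by norm_num
    rwa [e] at this)
  have h := (K.R m).smul_mem (⟨(2 : ℂ)⁻¹, h2⟩ : k) hf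
  have e : (⟨(2 : ℂ)⁻¹, h2⟩ : k) • f = fun z => f z / 2 := by
    funext z
    show (2 : ℂ)⁻¹ * f z = f z / 2
    ring
  rwa [e] at h

/-- Even and odd parts. -/
private theorem fld_parts {m : ℕ} {f : C2 → ℂ} (hf : f ∈ K.R m) :
    ∃ f₁ f₂ : C2 → ℂ, f₁ ∈ K.R m ∧ f₂ ∈ K.R m ∧ f₁ ∈ Par 1 ∧ f₂ ∈ Par (-1) ∧ (∀ z, f z = f₁ z + f₂ z) ∧
      ∀ z, f₂ z = (f z - f (-z)) / 2 := by
  refine ⟨fun z => (f z + f (-z)) / 2, fun z => (f z - f (-z)) / 2, ?_, ?_, ?_, ?_, ?_, fun z => rfl⟩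
  · exact K.fld_half_mem ((K.R m).add_mem hf (K.fld_neg hf))
  · exact K.fld_half_mem ((K.R m).sub_mem hf (K.fld_neg hf))
  · intro z
    show (f (-z) + f (- -z)) / 2 = 1 * ((f z + f (-z)) / 2)
    rw [neg_neg]
    ring
  · intro z
    show (f (-z) - f (- -z)) / 2 = -1 * ((f z - f (-z)) / 2)
    rw [neg_neg]
    ring
  · intro z
    ring

private theorem fld_par_mul {ε ε' : ℂ} {f g : C2 → ℂ} (hf : f ∈ Par ε) (hg : g ∈ Par ε') :
    f * g ∈ Par (ε * ε') := by
  intro z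
  have h1 : f (-z) = ε * f z := hf z
  have h2 : g (-z) = ε' * g z := hg z
  show f (-z) * g (-z) = ε * ε' * (f z * g z)
  rw [h1, h2]
  ring

variable {K} in
/-- Products of two odd ratios are even ratios. -/
private theorem fld_odd_mul {z : C2} (h : K.Half z) {m n : ℕ} {f g f' g' : C2 → ℂ} (hf : f ∈ K.R m)
    (hg : g ∈ K.R m) (hf' : f' ∈ K.R n) (hg' : g' ∈ K.R n) (pf : f ∈ Par (-1)) (pg : g ∈ Par 1)
    (pf' : f' ∈ Par (-1)) (pg' : g' ∈ Par 1) (h0 : g z ≠ 0) (h0' : g' z ≠ 0) :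
    (f z / g z) * (f' z / g' z) ∈ k := by
  have h1 := h.1 (m + n) (f * f') (g * g') (K.mul m n f f' hf hf') (K.mul m n g g' hg hg')
    (by have := fld_par_mul pf pf'
        rwa [neg_one_mul, neg_neg] at this)
    (by have := fld_par_mul pg pg'
        rwa [one_mul] at this)
    (mul_ne_zero h0 h0')
  rw [Pi.mul_apply, Pi.mul_apply, ← div_mul_div_comm] at h1
  exact h1

/-- PROOF: let `ω = f z / g z ∉ k` be the odd ratio; `ω² ∈ k` and for every odd ratio `ω'`, `ω ω' ∈ k` (products of odd functions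
are even), so `ω' ∈ k ω`.  Every ratio `F z / G z`, `F, G ∈ R m`: write `F = F₊ + F₋`, `G = G₊ + G₋` (`nmul` with `-1`, parts in `R m`), `e ∈ R m` even
with `e z ≠ 0` (`exists_even_ne_zero`, `rat_par`, for `m ≥ 1`); `F z / e z`, `G z / e z` are in `k + k ω`.  So `fld z = k(ω)`, of degree 2. -/
theorem finrank_of_half {z : C2} (h : K.Half z) : finrank k (K.fld z) = 2 := by
  obtain ⟨m₀, f₀, g₀, hf₀, hg₀, pf₀, pg₀, hne, hω⟩ := h.2
  set ω : ℂ := f₀ z / g₀ z with hωd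
  have hω0 : ω ≠ 0 := fun h0 => hω (by rw [h0]; exact k.zero_mem)
  have hsq : ω * ω ∈ k := fld_odd_mul h hf₀ hg₀ hf₀ hg₀ pf₀ pg₀ pf₀ pg₀ hne hne
  -- members of `k` and `ω` are in `k(ω)`
  set F := IntermediateField.adjoin k {ω} with hF
  have hkF : ∀ c : ℂ, c ∈ k → c ∈ F := fun c hc => F.algebraMap_mem ⟨c, hc⟩
  have hωF : ω ∈ F := IntermediateField.mem_adjoin_simple_self k ω
  have hratio : ∀ (m : ℕ) (f e : C2 → ℂ), f ∈ K.R m → e ∈ K.R m → e ∈ Par 1 → e z ≠ 0 → f z / e z ∈ F := by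
    intro m f e hf he pe he0
    obtain ⟨f₁, f₂, hf1, hf2, pf1, pf2, hsum, -⟩ := K.fld_parts hf
    have h1 : f₁ z / e z ∈ k := h.1 m f₁ e hf1 he pf1 pe he0
    have h2 : ω * (f₂ z / e z) ∈ k := fld_odd_mul h hf₀ hg₀ hf2 he pf₀ pg₀ pf2 pe hne he0
    have h3 : f₂ z / e z = ω * (f₂ z / e z) / ω := by
      rw [mul_div_cancel_left₀ _ hω0]
    rw [hsum z, add_div]
    refine F.add_mem (hkF _ h1) ?_
    rw [h3]
    exact F.div_mem (hkF _ h2) hωF
  have heq : K.fld z = F := by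
    apply le_antisymm
    · unfold fld
      rw [IntermediateField.adjoin_le_iff]
      rintro _ ⟨m, f, g, hf, hg, hg0, rfl⟩
      obtain ⟨e₁, he1, pe1, he10⟩ := K.fld_even_ne 1 le_rfl z
      obtain ⟨e, he, pe, he0⟩ := K.fld_even_ne (m + 1) (by omega) z
      have h1 := hratio (m + 1) (f * e₁) e (K.mul m 1 f e₁ hf he1) he pe he0
      have h2 := hratio (m + 1) (g * e₁) e (K.mul m 1 g e₁ hg he1) he pe he0
      have h3 : f z / g z = ((f * e₁) z / e z) / ((g * e₁) z / e z) := by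
        rw [Pi.mul_apply, Pi.mul_apply, div_div_div_cancel_right₀ he0, mul_div_mul_right _ _ he10]
      rw [h3]
      exact F.div_mem h1 h2
    · rw [hF, IntermediateField.adjoin_le_iff]
      rintro _ rfl
      exact IntermediateField.subset_adjoin k _ ⟨m₀, f₀, g₀, hf₀, hg₀, hne, rfl⟩
  rw [heq]
  let a : k := ⟨ω * ω, hsq⟩
  have haev : Polynomial.aeval ω (Polynomial.X ^ 2 - Polynomial.C a : Polynomial k) = 0 := by
    rw [map_sub, map_pow, Polynomial.aeval_X, Polynomial.aeval_C]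
    show ω ^ 2 - ω * ω = 0
    ring
  have hmonic : (Polynomial.X ^ 2 - Polynomial.C a : Polynomial k).Monic :=
    Polynomial.monic_X_pow_sub_C a (by norm_num)
  have hint : IsIntegral k ω := ⟨_, hmonic, by rwa [Polynomial.aeval_def] at haev⟩
  have hfr : finrank k (IntermediateField.adjoin k {ω}) = (minpoly k ω).natDegree :=
    IntermediateField.adjoin.finrank hint
  rw [hF, hfr]
  have hle : (minpoly k ω).natDegree ≤ 2 := by
    have h1 := Polynomial.natDegree_le_of_dvd (minpoly.dvd k ω haev) hmonic.ne_zero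
    rwa [Polynomial.natDegree_X_pow_sub_C] at h1
  have hpos := minpoly.natDegree_pos hint
  have hne1 : (minpoly k ω).natDegree ≠ 1 := by
    rw [Ne, minpoly.natDegree_eq_one_iff]
    rintro ⟨x, hx⟩
    exact hω (by rw [← hx]; exact x.2)
  omega

/-- Odd functions separate the points outside `(1/2) Lat`.
PROOF: `jets_surj` for the points `z, - z` and `N = 1`: `f ∈ Th (2 m)` with `f z = 1`, `f (- z) = - 1`; its odd part takes the
value 1 at `z`; then a rational odd function is nonzero at `z` (`rat_par`). -/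
theorem exists_odd {z : C2} (h : (2 : ℂ) • z ∉ S.Lat) :
    ∃ (m : ℕ) (f g : C2 → ℂ), 1 ≤ m ∧ f ∈ K.R m ∧ g ∈ K.R m ∧ f ∈ Par (-1) ∧ g ∈ Par 1 ∧ f z ≠ 0 ∧ g z ≠ 0 := by
  have h2z : z - -z = (2 : ℂ) • z := by
    rw [sub_neg_eq_add, two_smul]
  obtain ⟨n₀, hn₀⟩ := S.jets_surj (r := 2) ![z, -z] (by
    intro i j hij
    fin_cases i <;> fin_cases j
    · exact absurd rfl hij
    · show z - -z ∉ S.Lat
      rw [h2z]
      exact h
    · show -z - z ∉ S.Lat
      intro h'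
      have h3 := S.Lat.neg_mem h'
      rw [neg_sub, h2z] at h3
      exact h h3
    · exact absurd rfl hij) 1
  set m : ℕ := n₀ + 1 with hm
  obtain ⟨f, hf, hfv⟩ := hn₀ (2 * m) (by omega) 0 0 ![fun _ => 1, fun _ => -1] (by
    intro j
    fin_cases j
    · exact differentiable_const (1 : ℂ)
    · exact differentiable_const (-1 : ℂ))
  have hf' : f ∈ S.Th (2 * m) 0 0 := by
    have e : (((2 * m : ℕ) : ℤ)) = 2 * (m : ℤ) := by push_cast; rfl
    rwa [e] at hf
  have hfd : Differentiable ℂ f := hf'.1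
  have hfz : f z = 1 := by
    have h1 := (van_one_iff (hfd.sub (differentiable_const (1 : ℂ))) z).mp (hfv 0)
    have h3 : f z - 1 = 0 := h1
    linear_combination h3
  have hfz' : f (-z) = -1 := by
    have h1 := (van_one_iff (hfd.sub (differentiable_const (-1 : ℂ))) (-z)).mp (hfv 1)
    have h3 : f (-z) - -1 = 0 := h1
    linear_combination h3
  obtain ⟨t, ht, htz⟩ : ∃ t ∈ K.R m, t z - t (-z) ≠ 0 := by
    by_contra hc
    push Not at hc
    let W' : Submodule ℂ (C2 → ℂ) :=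
      { carrier := {f | f z - f (-z) = 0}
        zero_mem' := by simp
        add_mem' := fun {a b} ha hb => by
          have ha' : a z - a (-z) = 0 := ha
          have hb' : b z - b (-z) = 0 := hb
          show (a z + b z) - (a (-z) + b (-z)) = 0
          linear_combination ha' + hb'
        smul_mem' := fun c a ha => by
          have ha' : a z - a (-z) = 0 := ha
          show c * a z - c * a (-z) = 0
          linear_combination c * ha' }
    have h1 : Submodule.span ℂ (K.R m : Set (C2 → ℂ)) ≤ W' := Submodule.span_le.mpr fun t ht => hc t ht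
    have h3 : f z - f (-z) = 0 := h1 (K.span m hf')
    rw [hfz, hfz'] at h3
    norm_num at h3
  obtain ⟨-, f₂, -, hf2, -, pf2, -, hf2z⟩ := K.fld_parts ht
  obtain ⟨e, he, pe, he0⟩ := K.fld_even_ne m (by omega) z
  refine ⟨m, f₂, e, by omega, hf2, he, pf2, pe, ?_, he0⟩
  rw [hf2z]
  exact div_ne_zero htz two_ne_zero

private theorem fld_par_comp {ε : ℂ} {f : C2 → ℂ} (hf : f ∈ Par ε) (c : ℂ) : (fun z => f (c • z)) ∈ Par ε := by
  intro z
  show f (c • -z) = ε * f (c • z)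
  rw [smul_neg]
  exact hf _

/-- Multiples.
PROOF: even ratios at `n z` are even ratios at `z` (`nmul`).  By `exists_odd` at `n z` there is a nonzero odd ratio at `n z`, which is a
nonzero odd ratio at `z`, hence in `k ω \ {0}` and not in `k`. -/
theorem half_smul {z : C2} (h : K.Half z) (n : ℤ) (hn : (2 : ℂ) • ((n : ℂ) • z) ∉ S.Lat) :
    K.Half ((n : ℂ) • z) := by
  refine ⟨?_, ?_⟩
  · intro m f g hf hg pf pg hg0
    exact h.1 (n.natAbs ^ 2 * m) (fun z => f ((n : ℂ) • z)) (fun z => g ((n : ℂ) • z)) (K.nmul m n f hf)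
      (K.nmul m n g hg) (fld_par_comp pf _) (fld_par_comp pg _) hg0
  · obtain ⟨m, f, g, -, hf, hg, pf, pg, hf0, hg0⟩ := K.exists_odd hn
    refine ⟨m, f, g, hf, hg, pf, pg, hg0, fun hk => ?_⟩
    obtain ⟨m₀, f₀, g₀, hf₀, hg₀, pf₀, pg₀, hne, hω⟩ := h.2
    have h1 := fld_odd_mul h (K.nmul m n f hf) (K.nmul m n g hg) hf₀ hg₀ (fld_par_comp pf _)
      (fld_par_comp pg _) pf₀ pg₀ hg0 hne
    have h2 : f₀ z / g₀ z = (f ((n : ℂ) • z) / g ((n : ℂ) • z)) * (f₀ z / g₀ z) /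
        (f ((n : ℂ) • z) / g ((n : ℂ) • z)) := by
      rw [mul_div_cancel_left₀ _ (div_ne_zero hf0 hg0)]
    rw [h2] at hω
    exact hω (k.div_mem h1 hk)

end KForm

end Q2T
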