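import Mathlib

set_option autoImplicit false

open Complex Topology Filter Asymptotics Metric Set MeasureTheory
open scoped ContDiff

namespace Q2T

/-- Fourier coefficients of a `ℤ⁴`-periodic function. -/
noncomputable def fco (F : (Fin 4 → ℝ) → ℂ) (n : Fin 4 → ℤ) : ℂ :=
  ∫ x in Icc (0 : Fin 4 → ℝ) 1, F x * cexp (-(2 * Real.pi * I * ((∑ i, (n i : ℝ) * x i : ℝ) : ℂ)))

/-- `ℤ⁴`-periodic. -/
def Per4 (F : (Fin 4 → ℝ) → ℂ) : Prop := ∀ (x : Fin 4 → ℝ) (m : Fin 4 → ℤ), F (x + fun i => (m i : ℝ)) = F x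

/-- The integral of a derivative of a periodic function. -/
private theorem FouA_int {H : (Fin 4 → ℝ) → ℂ} (hH : ContDiff ℝ 1 H) (hp : Per4 H) (j : Fin 4) :
    ∫ x in Icc (0 : Fin 4 → ℝ) 1, fderiv ℝ H x (Pi.single j 1) = 0 := by
  classical
  have hcf : Continuous fun x => fderiv ℝ H x (Pi.single j 1) :=
    (hH.continuous_fderiv one_ne_zero).clm_apply continuous_const
  have hsum : ∀ x : Fin 4 → ℝ, ∑ i : Fin 4,
      (if i = j then fderiv ℝ H x else 0) (Pi.single i 1) = fderiv ℝ H x (Pi.single j 1) := by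
    intro x
    rw [Finset.sum_eq_single j]
    · rw [if_pos rfl]
    · intro i _ hij
      rw [if_neg hij]
      rfl
    · intro h
      exact absurd (Finset.mem_univ _) h
  have h := integral_divergence_of_hasFDerivAt_off_countable' (n := 3) (0 : Fin 4 → ℝ) 1
    zero_le_one (fun i => if i = j then H else 0)
    (fun i x => if i = j then fderiv ℝ H x else 0) ∅ Set.countable_empty ?_ ?_ ?_
  · simp_rw [hsum] at h
    rw [h]
    refine Finset.sum_eq_zero fun i _ => ?_
    by_cases hij : i = j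
    · simp only [if_pos hij, sub_eq_zero]
      refine integral_congr_ae (Eventually.of_forall fun x => ?_)
      simp only
      have e : (i.insertNth ((1 : Fin 4 → ℝ) i) x : Fin 4 → ℝ) =
          (i.insertNth ((0 : Fin 4 → ℝ) i) x : Fin 4 → ℝ) +
            fun k => (((Pi.single i 1 : Fin 4 → ℤ) k : ℤ) : ℝ) := by
        funext k
        by_cases hk : k = i
        · subst hk
          simp
        · obtain ⟨l, rfl⟩ := Fin.exists_succAbove_eq hk
          simp
      have h2 := hp (i.insertNth ((0 : Fin 4 → ℝ) i) x) (Pi.single i 1)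
      rw [← e] at h2
      exact h2
    · simp [if_neg hij]
  · intro i
    by_cases hij : i = j
    · simp only [if_pos hij]
      exact hH.continuous.continuousOn
    · simp only [if_neg hij]
      exact continuousOn_const
  · intro x _ i
    by_cases hij : i = j
    · simp only [if_pos hij]
      exact (hH.differentiable one_ne_zero x).hasFDerivAt
    · simp only [if_neg hij]
      exact hasFDerivAt_const 0 x
  · simp_rw [hsum]
    exact hcf.continuousOn.integrableOn_compact isCompact_Icc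

/-- the exponential factor -/
private noncomputable def ee (n : Fin 4 → ℤ) (x : Fin 4 → ℝ) : ℂ :=
  cexp (-(2 * Real.pi * I * ((∑ i, (n i : ℝ) * x i : ℝ) : ℂ)))

private theorem fco_eq (F : (Fin 4 → ℝ) → ℂ) (n : Fin 4 → ℤ) :
    fco F n = ∫ x in Icc (0 : Fin 4 → ℝ) 1, F x * ee n x := rfl

private theorem ee_contDiff (n : Fin 4 → ℤ) {k : WithTop ℕ∞} : ContDiff ℝ k (ee n) := by
  unfold ee
  have h1 : ContDiff ℝ k fun x : Fin 4 → ℝ => ∑ i, (n i : ℝ) * x i := by fun_prop
  have h2 : ContDiff ℝ k fun x : Fin 4 → ℝ => ((∑ i, (n i : ℝ) * x i : ℝ) : ℂ) :=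
    Complex.ofRealCLM.contDiff.comp h1
  exact ((contDiff_const.mul h2).neg).cexp

private theorem ee_norm (n : Fin 4 → ℤ) (x : Fin 4 → ℝ) : ‖ee n x‖ = 1 := by
  unfold ee
  rw [Complex.norm_exp]
  simp

private theorem ee_per (n : Fin 4 → ℤ) : Per4 (ee n) := by
  intro x m
  unfold ee
  have h1 : ((∑ i, (n i : ℝ) * (x + fun i => (m i : ℝ)) i : ℝ) : ℂ) =
      ((∑ i, (n i : ℝ) * x i : ℝ) : ℂ) + ((∑ i, n i * m i : ℤ) : ℂ) := by
    push_cast
    rw [← Finset.sum_add_distrib]
    refine Finset.sum_congr rfl fun i _ => ?_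
    simp only [Pi.add_apply]
    push_cast
    ring
  rw [h1, mul_add, neg_add, Complex.exp_add]
  have h2 : cexp (-(2 * Real.pi * I * ((∑ i, n i * m i : ℤ) : ℂ))) = 1 := by
    rw [Complex.exp_eq_one_iff]
    refine ⟨-(∑ i, n i * m i), ?_⟩
    push_cast
    ring
  rw [h2, mul_one]

private theorem ee_fderiv (n : Fin 4 → ℤ) (j : Fin 4) (x : Fin 4 → ℝ) :
    fderiv ℝ (ee n) x (Pi.single j 1) = -(2 * Real.pi * I * (n j : ℂ)) * ee n x := by
  have h1 : HasFDerivAt (fun x : Fin 4 → ℝ => ∑ i, (n i : ℝ) * x i)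
      (∑ i, (n i : ℝ) • ContinuousLinearMap.proj (R := ℝ) (φ := fun _ : Fin 4 => ℝ) i) x := by
    have h2 := (∑ i, (n i : ℝ) • ContinuousLinearMap.proj (R := ℝ)
      (φ := fun _ : Fin 4 => ℝ) i).hasFDerivAt (x := x)
    convert! h2 using 1
  have h2 := (Complex.ofRealCLM.hasFDerivAt).comp x h1
  have h3 := ((h2.const_mul (2 * Real.pi * I)).neg).cexp
  have h4 : HasFDerivAt (ee n) _ x := h3
  rw [h4.fderiv]
  simp only [smul_apply, neg_apply,
    ContinuousLinearMap.comp_apply, sum_apply, ContinuousLinearMap.proj_apply,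
    smul_eq_mul, Function.comp_apply, Complex.ofRealCLM_apply, Pi.neg_apply]
  have h5 : ∑ i, (n i : ℝ) * (Pi.single j (1 : ℝ) : Fin 4 → ℝ) i = (n j : ℝ) := by
    rw [Finset.sum_eq_single j]
    · simp
    · intro i _ hij
      rw [Pi.single_eq_of_ne hij, mul_zero]
    · intro h
      exact absurd (Finset.mem_univ _) h
  rw [h5]
  unfold ee
  push_cast
  ring

/-- Coefficients of a partial derivative. -/
theorem fco_deriv {F : (Fin 4 → ℝ) → ℂ} (hF : ContDiff ℝ 1 F) (hp : Per4 F) (j : Fin 4) (n : Fin 4 → ℤ) :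
    fco (fun x => fderiv ℝ F x (Pi.single j 1)) n = 2 * Real.pi * I * (n j : ℂ) * fco F n := by
  have hH : ContDiff ℝ 1 fun x => F x * ee n x := hF.mul (ee_contDiff n)
  have hP : Per4 fun x => F x * ee n x := fun x m => by
    simp only
    rw [hp x m, ee_per n x m]
  have h := FouA_int hH hP j
  have hd : ∀ x, fderiv ℝ (fun x => F x * ee n x) x (Pi.single j 1) =
      fderiv ℝ F x (Pi.single j 1) * ee n x - 2 * Real.pi * I * (n j : ℂ) * (F x * ee n x) := by
    intro x
    rw [fderiv_fun_mul (hF.differentiable one_ne_zero x)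
      ((ee_contDiff n (k := 1)).differentiable one_ne_zero x)]
    simp only [add_apply, smul_apply, smul_eq_mul]
    rw [ee_fderiv]
    ring
  simp_rw [hd] at h
  have hc1 : Continuous fun x => fderiv ℝ F x (Pi.single j 1) * ee n x :=
    ((hF.continuous_fderiv one_ne_zero).clm_apply continuous_const).mul
      (ee_contDiff n (k := 1)).continuous
  have hc2 : Continuous fun x => 2 * Real.pi * I * (n j : ℂ) * (F x * ee n x) :=
    continuous_const.mul hH.continuous
  rw [integral_sub (hc1.continuousOn.integrableOn_compact isCompact_Icc)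
    (hc2.continuousOn.integrableOn_compact isCompact_Icc), integral_const_mul, sub_eq_zero] at h
  exact h

private theorem FouA_smooth {G : (Fin 4 → ℝ) → ℂ} (hG : ContDiff ℝ ∞ G) (j : Fin 4) :
    ContDiff ℝ ∞ fun x => fderiv ℝ G x (Pi.single j 1) :=
  (contDiff_infty_iff_fderiv.1 hG).2.clm_apply contDiff_const

private theorem FouA_per {G : (Fin 4 → ℝ) → ℂ} (hp : Per4 G) (j : Fin 4) :
    Per4 fun x => fderiv ℝ G x (Pi.single j 1) := by
  intro x m
  simp only
  have h1 : (fun y => G (y + fun i => (m i : ℝ))) = G := funext fun y => hp y m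
  rw [← fderiv_comp_add_right, h1]

/-- `1 - ∂_j² / (4 π²)` -/
private noncomputable def LL (j : Fin 4) (G : (Fin 4 → ℝ) → ℂ) : (Fin 4 → ℝ) → ℂ := fun x =>
  G x - (1 / (4 * (Real.pi : ℂ) ^ 2)) *
    fderiv ℝ (fun y => fderiv ℝ G y (Pi.single j 1)) x (Pi.single j 1)

private theorem LL_smooth {G : (Fin 4 → ℝ) → ℂ} (hG : ContDiff ℝ ∞ G) (j : Fin 4) :
    ContDiff ℝ ∞ (LL j G) :=
  hG.sub (contDiff_const.mul (FouA_smooth (FouA_smooth hG j) j))

private theorem LL_per {G : (Fin 4 → ℝ) → ℂ} (hp : Per4 G) (j : Fin 4) : Per4 (LL j G) := by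
  intro x m
  unfold LL
  rw [hp x m]
  congr 2
  exact FouA_per (FouA_per hp j) j x m

private theorem LL_fco {G : (Fin 4 → ℝ) → ℂ} (hG : ContDiff ℝ ∞ G) (hp : Per4 G) (j : Fin 4)
    (n : Fin 4 → ℤ) : fco (LL j G) n = (1 + (n j : ℂ) ^ 2) * fco G n := by
  have h1 : ContDiff ℝ 1 G := hG.of_le (by exact_mod_cast le_top)
  have h2 : ContDiff ℝ 1 fun x => fderiv ℝ G x (Pi.single j 1) :=
    (FouA_smooth hG j).of_le (by exact_mod_cast le_top)
  have e1 := fco_deriv h1 hp j n
  have e2 := fco_deriv h2 (FouA_per hp j) j n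
  rw [e1] at e2
  have hc1 : Continuous fun x => G x * ee n x := hG.continuous.mul (ee_contDiff n (k := 1)).continuous
  have hc2 : Continuous fun x =>
      fderiv ℝ (fun y => fderiv ℝ G y (Pi.single j 1)) x (Pi.single j 1) * ee n x :=
    (FouA_smooth (FouA_smooth hG j) j).continuous.mul (ee_contDiff n (k := 1)).continuous
  have hc3 : Continuous fun x => 1 / (4 * (Real.pi : ℂ) ^ 2) *
      (fderiv ℝ (fun y => fderiv ℝ G y (Pi.single j 1)) x (Pi.single j 1) * ee n x) :=
    continuous_const.mul hc2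
  have h3 : fco (LL j G) n = fco G n - (1 / (4 * (Real.pi : ℂ) ^ 2)) *
      fco (fun x => fderiv ℝ (fun y => fderiv ℝ G y (Pi.single j 1)) x (Pi.single j 1)) n := by
    rw [fco_eq, fco_eq, fco_eq, ← integral_const_mul, ← integral_sub
      (hc1.continuousOn.integrableOn_compact isCompact_Icc)
      (hc3.continuousOn.integrableOn_compact isCompact_Icc)]
    refine integral_congr_ae (Eventually.of_forall fun x => ?_)
    simp only [LL]
    ring
  rw [h3, e2]
  have hpi : (Real.pi : ℂ) ≠ 0 := by exact_mod_cast Real.pi_ne_zero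
  field_simp
  ring_nf
  rw [I_sq]
  ring

private theorem FouA_int_summable : Summable fun m : ℤ => (1 + (m : ℝ) ^ 2)⁻¹ := by
  have h := Real.summable_one_div_int_pow.2 (show 1 < 2 by norm_num)
  refine Summable.of_norm_bounded_eventually h ?_
  have hfin : ({0} : Set ℤ).Finite := Set.finite_singleton 0
  refine Set.Finite.subset hfin fun m hm => ?_
  rw [Set.mem_singleton_iff]
  by_contra h0
  apply hm
  have h1 : (0 : ℝ) < (m : ℝ) ^ 2 := by positivity
  simp only [Set.mem_setOf_eq]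
  rw [Real.norm_of_nonneg (by positivity), one_div]
  exact inv_anti₀ h1 (by linarith)

private theorem FouA_pi_summable {g : ℤ → ℝ} (hg : ∀ m, 0 ≤ g m) (hs : Summable g) :
    Summable fun n : Fin 4 → ℤ => ∏ i, g (n i) := by
  classical
  refine summable_of_sum_le (c := (∑' m, g m) ^ 4)
    (fun n => Finset.prod_nonneg fun i _ => hg _) fun S => ?_
  set T : Finset ℤ := (Finset.univ : Finset (Fin 4)).biUnion fun i => S.image fun n => n i with hT
  have hsub : S ⊆ Fintype.piFinset fun _ : Fin 4 => T := by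
    intro n hn
    rw [Fintype.mem_piFinset]
    intro i
    rw [hT, Finset.mem_biUnion]
    exact ⟨i, Finset.mem_univ i, Finset.mem_image_of_mem _ hn⟩
  calc ∑ n ∈ S, ∏ i, g (n i) ≤ ∑ n ∈ Fintype.piFinset fun _ : Fin 4 => T, ∏ i, g (n i) :=
        Finset.sum_le_sum_of_subset_of_nonneg hsub fun n _ _ =>
          Finset.prod_nonneg fun i _ => hg _
    _ = ∏ _i : Fin 4, ∑ m ∈ T, g m := by rw [Finset.prod_univ_sum]
    _ = (∑ m ∈ T, g m) ^ 4 := by simp
    _ ≤ (∑' m, g m) ^ 4 := pow_le_pow_left₀ (Finset.sum_nonneg fun m _ => hg m)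
        (hs.sum_le_tsum T fun m _ => hg m) 4

/-- Absolutely convergent Fourier series of a smooth periodic function.
PROOF: the operator `∏ j (1 - ∂_j² / (4 π²))` multiplies the coefficients by `∏ j (1 + n_j²)` (`fco_deriv`), so
`|fco F n| ≤ C ∏ j (1 + n_j²)⁻¹`, summable over `ℤ⁴`.  Convergence to `F`: Mathlib's Fourier series on `UnitAddTorus`
(`hasSum_mFourier_series_apply_of_summable`), after passing to the quotient. -/
theorem fco_summable {F : (Fin 4 → ℝ) → ℂ} (hF : ContDiff ℝ ∞ F) (hp : Per4 F) :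
    Summable fun n : Fin 4 → ℤ => ‖fco F n‖ := by
  set K := LL 3 (LL 2 (LL 1 (LL 0 F))) with hK
  have s0 := LL_smooth hF 0
  have s1 := LL_smooth s0 1
  have s2 := LL_smooth s1 2
  have s3 := LL_smooth s2 3
  have p0 := LL_per hp 0
  have p1 := LL_per p0 1
  have p2 := LL_per p1 2
  have hcoef : ∀ n, fco K n = (∏ i : Fin 4, (1 + (n i : ℂ) ^ 2)) * fco F n := by
    intro n
    rw [hK, LL_fco s2 p2 3 n, LL_fco s1 p1 2 n, LL_fco s0 p0 1 n, LL_fco hF hp 0 n,
      Fin.prod_univ_four]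
    ring
  obtain ⟨C, hC⟩ := isCompact_Icc.exists_bound_of_continuousOn
    (s3.continuous.continuousOn (s := Icc (0 : Fin 4 → ℝ) 1))
  have hb : ∀ n, ‖fco K n‖ ≤ C * volume.real (Icc (0 : Fin 4 → ℝ) 1) := by
    intro n
    rw [fco_eq]
    refine norm_setIntegral_le_of_norm_le_const isCompact_Icc.measure_lt_top fun x hx => ?_
    rw [norm_mul, ee_norm, mul_one]
    exact hC x hx
  have hsum := (FouA_pi_summable (fun m : ℤ => by positivity) FouA_int_summable).mul_left
    (C * volume.real (Icc (0 : Fin 4 → ℝ) 1))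
  refine Summable.of_nonneg_of_le (fun n => norm_nonneg _) (fun n => ?_) hsum
  have h1 := hb n
  rw [hcoef n, norm_mul, norm_prod] at h1
  have h2 : ∀ i, ‖(1 + (n i : ℂ) ^ 2)‖ = 1 + (n i : ℝ) ^ 2 := by
    intro i
    have : (1 + (n i : ℂ) ^ 2) = ((1 + (n i : ℝ) ^ 2 : ℝ) : ℂ) := by push_cast; ring
    rw [this, Complex.norm_real, Real.norm_of_nonneg (by positivity)]
  simp_rw [h2] at h1
  have h3 : (0 : ℝ) < ∏ i : Fin 4, (1 + (n i : ℝ) ^ 2) := Finset.prod_pos fun i _ => by positivity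
  rw [Finset.prod_inv_distrib, ← div_eq_mul_inv, le_div_iff₀ h3, mul_comm]
  exact h1

private theorem FouA_q_eq {F : (Fin 4 → ℝ) → ℂ} (hp : Per4 F) {x y : Fin 4 → ℝ}
    (h : ∀ i, (x i : UnitAddCircle) = (y i : UnitAddCircle)) : F x = F y := by
  have h1 : ∀ i, ∃ m : ℤ, (m : ℝ) = x i - y i := by
    intro i
    have h2 : ((x i - y i : ℝ) : UnitAddCircle) = 0 := by
      rw [AddCircle.coe_sub, h i, sub_self]
    obtain ⟨m, hm⟩ := (AddCircle.coe_eq_zero_iff 1).1 h2
    refine ⟨m, ?_⟩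
    rw [← hm, zsmul_eq_mul, mul_one]
  choose m hm using h1
  have h3 : x = y + fun i => (m i : ℝ) := by
    funext i
    simp only [Pi.add_apply]
    rw [hm i]
    ring
  rw [h3]
  exact hp y m

private theorem FouA_mF (n : Fin 4 → ℤ) (x : Fin 4 → ℝ) :
    UnitAddTorus.mFourier n (fun i => (x i : UnitAddCircle)) =
      cexp (2 * Real.pi * I * ((∑ i, (n i : ℝ) * x i : ℝ) : ℂ)) := by
  simp only [UnitAddTorus.mFourier, ContinuousMap.coe_mk]
  simp_rw [fourier_coe_apply]
  rw [← Complex.exp_sum]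
  congr 1
  push_cast
  rw [Finset.mul_sum]
  refine Finset.sum_congr rfl fun i _ => ?_
  ring

theorem fco_hasSum {F : (Fin 4 → ℝ) → ℂ} (hF : ContDiff ℝ ∞ F) (hp : Per4 F) (x : Fin 4 → ℝ) :
    HasSum (fun n : Fin 4 → ℤ => fco F n * cexp (2 * Real.pi * I * ((∑ i, (n i : ℝ) * x i : ℝ) : ℂ))) (F x) := by
  have hq : IsOpenQuotientMap (Pi.map fun _ : Fin 4 => ((↑) : ℝ → UnitAddCircle)) :=
    IsOpenQuotientMap.piMap fun _ => QuotientAddGroup.isOpenQuotientMap_mk
  set q : (Fin 4 → ℝ) → UnitAddTorus (Fin 4) := Pi.map fun _ : Fin 4 => ((↑) : ℝ → UnitAddCircle)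
    with hqd
  have hqx : ∀ x, q x = fun i => (x i : UnitAddCircle) := fun x => rfl
  let f0 : UnitAddTorus (Fin 4) → ℂ := fun t => F (Function.surjInv hq.surjective t)
  have hf0 : ∀ x, f0 (q x) = F x := by
    intro x
    refine FouA_q_eq hp fun i => ?_
    exact congrFun (Function.surjInv_eq hq.surjective (q x)) i
  have hcont : Continuous f0 := by
    rw [hq.isQuotientMap.continuous_iff]
    have : f0 ∘ q = F := funext hf0
    rw [this]
    exact hF.continuous
  let f : C(UnitAddTorus (Fin 4), ℂ) := ⟨f0, hcont⟩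
  have hco : ∀ n, UnitAddTorus.mFourierCoeff f n = fco F n := by
    intro n
    rw [UnitAddTorus.mFourierCoeff_eq_integral (⇑f) n 0, fco_eq]
    have e1 : {x : Fin 4 → ℝ | ∀ i, x i ∈ Ioc ((0 : Fin 4 → ℝ) i) ((0 : Fin 4 → ℝ) i + 1)} =
        Set.pi univ fun i => Ioc ((0 : Fin 4 → ℝ) i) ((1 : Fin 4 → ℝ) i) := by
      ext x
      simp [Set.mem_pi]
    rw [e1, volume_pi, setIntegral_congr_set
      (Measure.univ_pi_Ioc_ae_eq_Icc (μ := fun _ : Fin 4 => (volume : Measure ℝ)))]
    refine integral_congr_ae (Eventually.of_forall fun x => ?_)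
    simp only
    have e2 : f (fun i => (x i : UnitAddCircle)) = F x := hf0 x
    rw [e2, FouA_mF, smul_eq_mul, mul_comm]
    congr 1
    unfold ee
    congr 1
    push_cast
    simp only [Pi.neg_apply]
    push_cast
    rw [Finset.mul_sum, Finset.mul_sum, ← Finset.sum_neg_distrib]
    refine Finset.sum_congr rfl fun i _ => ?_
    ring
  have hs : Summable (UnitAddTorus.mFourierCoeff f) := by
    have := fco_summable hF hp
    refine Summable.of_norm ?_
    simp_rw [hco]
    exact this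
  have h := UnitAddTorus.hasSum_mFourier_series_apply_of_summable hs (q x)
  have h1 : f (q x) = F x := hf0 x
  rw [h1] at h
  refine h.congr_fun fun n => ?_
  simp only [smul_eq_mul]
  rw [hco n, hqx, FouA_mF]

end Q2T
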