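import Pool.Agent.H.MP_89f84f_ag.q2.Defs

set_option autoImplicit false

open Complex Topology Filter Asymptotics Metric Set
open scoped ContDiff

namespace Q2T

/-- `∂ / ∂ z_a`. -/
noncomputable def Dz (a : Fin 2) (F : C2 → ℂ) (z : C2) : ℂ :=
  (fderiv ℝ F z (Pi.single a 1) - I * fderiv ℝ F z (Pi.single a I)) / 2

/-- `∂ / ∂ z̄_a`. -/
noncomputable def Dzb (a : Fin 2) (F : C2 → ℂ) (z : C2) : ℂ :=
  (fderiv ℝ F z (Pi.single a 1) + I * fderiv ℝ F z (Pi.single a I)) / 2

private theorem Wir_single (a : Fin 2) : (Pi.single a I : C2) = I • (Pi.single a 1 : C2) := by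
  funext b
  by_cases h : b = a
  · subst h; simp
  · simp [Pi.single_apply, h]

/-- real linear maps in the standard basis -/
private theorem Wir_basis {G : Type*} [NormedAddCommGroup G] [NormedSpace ℝ G] (L : C2 →L[ℝ] G)
    (u : C2) : L u = (u 0).re • L (Pi.single 0 1) + (u 0).im • L (Pi.single 0 I) +
      ((u 1).re • L (Pi.single 1 1) + (u 1).im • L (Pi.single 1 I)) := by
  have h : u = (u 0).re • (Pi.single 0 1 : C2) + (u 0).im • (Pi.single 0 I : C2) +
      ((u 1).re • (Pi.single 1 1 : C2) + (u 1).im • (Pi.single 1 I : C2)) := by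
    funext b
    fin_cases b
    · simp
    · simp
  conv_lhs => rw [h]
  simp only [map_add, map_smul]

/-- the derivative of a holomorphic function is complex linear -/
private theorem Wir_fderiv {F : C2 → ℂ} {z : C2} (hF : DifferentiableAt ℂ F z) (v : C2) :
    fderiv ℝ F z v = fderiv ℂ F z v := by
  rw [hF.fderiv_restrictScalars ℝ]
  rfl

private theorem Wir_fderiv_I {F : C2 → ℂ} {z : C2} (hF : DifferentiableAt ℂ F z) (a : Fin 2) :
    fderiv ℝ F z (Pi.single a I) = I * fderiv ℝ F z (Pi.single a 1) := by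
  rw [Wir_fderiv hF, Wir_fderiv hF, Wir_single, map_smul, smul_eq_mul]

/-- Holomorphic functions are killed by `∂ / ∂ z̄`. -/
theorem dzb_holo {U : Set C2} (hU : IsOpen U) {F : C2 → ℂ} (hF : DifferentiableOn ℂ F U) (a : Fin 2) {z : C2}
    (hz : z ∈ U) : Dzb a F z = 0 := by
  unfold Dzb
  rw [Wir_fderiv_I (hF.differentiableAt (hU.mem_nhds hz)), ← mul_assoc, I_mul_I]
  ring

/-- Cauchy-Riemann. -/
theorem holo_of_dzb {U : Set C2} (hU : IsOpen U) {F : C2 → ℂ} (hF : DifferentiableOn ℝ F U)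
    (h : ∀ a, ∀ z ∈ U, Dzb a F z = 0) : DifferentiableOn ℂ F U := by
  intro z hz
  have hd : DifferentiableAt ℝ F z := hF.differentiableAt (hU.mem_nhds hz)
  refine DifferentiableAt.differentiableWithinAt ?_
  rw [differentiableAt_iff_restrictScalars ℝ hd]
  have hI : ∀ a, fderiv ℝ F z (Pi.single a I) = I * fderiv ℝ F z (Pi.single a 1) := by
    intro a
    have h1 := h a z hz
    unfold Dzb at h1
    have h2 : fderiv ℝ F z (Pi.single a 1) + I * fderiv ℝ F z (Pi.single a I) = 0 := by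
      rw [div_eq_zero_iff] at h1
      exact h1.resolve_right two_ne_zero
    linear_combination (-I) * h2 + (fderiv ℝ F z (Pi.single a I)) * I_mul_I
  refine ⟨fderiv ℝ F z (Pi.single 0 1) • (ContinuousLinearMap.proj 0 : C2 →L[ℂ] ℂ) +
    fderiv ℝ F z (Pi.single 1 1) • (ContinuousLinearMap.proj 1 : C2 →L[ℂ] ℂ), ?_⟩
  ext v
  rw [Wir_basis (fderiv ℝ F z) v, hI, hI]
  simp only [ContinuousLinearMap.coe_restrictScalars', ContinuousLinearMap.add_apply,
    ContinuousLinearMap.smul_apply, ContinuousLinearMap.proj_apply, smul_eq_mul, real_smul]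
  linear_combination (-(fderiv ℝ F z (Pi.single 0 1))) * (re_add_im (v 0)) -
    (fderiv ℝ F z (Pi.single 1 1)) * (re_add_im (v 1))

private noncomputable def Wir_W (c : ℂ) (a : Fin 2) (F : C2 → ℂ) (z : C2) : ℂ :=
  2⁻¹ * (fderiv ℝ F z (Pi.single a 1) + c * fderiv ℝ F z (Pi.single a I))

private theorem Wir_dz (a : Fin 2) (F : C2 → ℂ) : Dz a F = Wir_W (-I) a F := by
  funext z
  unfold Dz Wir_W
  ring

private theorem Wir_dzb (a : Fin 2) (F : C2 → ℂ) : Dzb a F = Wir_W I a F := by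
  funext z
  unfold Dzb Wir_W
  ring

private theorem Wir_second {F : C2 → ℂ} {z : C2} (hF : ContDiffAt ℝ 2 F z) (c c' : ℂ)
    (a b : Fin 2) : Wir_W c a (Wir_W c' b F) z =
      4⁻¹ * (fderiv ℝ (fderiv ℝ F) z (Pi.single a 1) (Pi.single b 1) +
        c' * fderiv ℝ (fderiv ℝ F) z (Pi.single a 1) (Pi.single b I) +
        c * fderiv ℝ (fderiv ℝ F) z (Pi.single a I) (Pi.single b 1) +
        c * c' * fderiv ℝ (fderiv ℝ F) z (Pi.single a I) (Pi.single b I)) := by
  have h1 : HasFDerivAt (fderiv ℝ F) (fderiv ℝ (fderiv ℝ F) z) z :=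
    ((hF.fderiv_right (m := 1) (by norm_num)).differentiableAt (by norm_num)).hasFDerivAt
  have h2 : ∀ v : C2, HasFDerivAt (fun w => fderiv ℝ F w v) ((fderiv ℝ (fderiv ℝ F) z).flip v) z := by
    intro v
    have := (ContinuousLinearMap.apply ℝ ℂ v).hasFDerivAt.comp z h1
    exact this
  have h3 : HasFDerivAt (Wir_W c' b F) ((2⁻¹ : ℂ) •
      ((fderiv ℝ (fderiv ℝ F) z).flip (Pi.single b 1) +
        c' • (fderiv ℝ (fderiv ℝ F) z).flip (Pi.single b I))) z :=
    ((h2 _).add ((h2 _).const_mul c')).const_mul 2⁻¹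
  unfold Wir_W at h3 ⊢
  rw [h3.fderiv]
  simp only [ContinuousLinearMap.smul_apply, ContinuousLinearMap.add_apply,
    ContinuousLinearMap.flip_apply, smul_eq_mul]
  ring

private theorem Wir_comm {F : C2 → ℂ} {z : C2} (hF : ContDiffAt ℝ 2 F z) (c c' : ℂ)
    (a b : Fin 2) : Wir_W c a (Wir_W c' b F) z = Wir_W c' b (Wir_W c a F) z := by
  have hs := hF.isSymmSndFDerivAt (by simp)
  rw [Wir_second hF, Wir_second hF, hs (Pi.single a 1) (Pi.single b 1),
    hs (Pi.single a 1) (Pi.single b I), hs (Pi.single a I) (Pi.single b 1),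
    hs (Pi.single a I) (Pi.single b I)]
  ring

/-- Mixed derivatives commute for `C²` functions. -/
theorem dz_comm {U : Set C2} (hU : IsOpen U) {F : C2 → ℂ} (hF : ContDiffOn ℝ 2 F U) (a b : Fin 2) {z : C2}
    (hz : z ∈ U) : Dz a (Dz b F) z = Dz b (Dz a F) z ∧ Dzb a (Dzb b F) z = Dzb b (Dzb a F) z ∧
      Dz a (Dzb b F) z = Dzb b (Dz a F) z := by
  have h := hF.contDiffAt (hU.mem_nhds hz)
  simp only [Wir_dz, Wir_dzb]
  exact ⟨Wir_comm h _ _ _ _, Wir_comm h _ _ _ _, Wir_comm h _ _ _ _⟩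

private theorem Wir_conj (F : C2 → ℂ) (z v : C2) :
    fderiv ℝ (fun w => (starRingEnd ℂ) (F w)) z v = (starRingEnd ℂ) (fderiv ℝ F z v) := by
  have := ContinuousLinearEquiv.comp_fderiv (𝕜 := ℝ) conjCLE (f := F) (x := z)
  have h2 := congrArg (fun L => L v) this
  exact h2

/-- conjugation -/
theorem conj_dz (F : C2 → ℂ) (a : Fin 2) (z : C2) :
    (starRingEnd ℂ) (Dz a F z) = Dzb a (fun w => (starRingEnd ℂ) (F w)) z := by
  unfold Dz Dzb
  rw [Wir_conj, Wir_conj]
  simp only [map_div₀, map_sub, map_mul, conj_I]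
  have : (starRingEnd ℂ) 2 = 2 := Complex.conj_ofNat 2
  rw [this]
  ring

private theorem Wir_conj_dzb (F : C2 → ℂ) (a : Fin 2) (z : C2) :
    (starRingEnd ℂ) (Dzb a F z) = Dz a (fun w => (starRingEnd ℂ) (F w)) z := by
  unfold Dz Dzb
  rw [Wir_conj, Wir_conj]
  simp only [map_div₀, map_add, map_mul, conj_I]
  have : (starRingEnd ℂ) 2 = 2 := Complex.conj_ofNat 2
  rw [this]
  ring

private theorem Wir_coord (L : C2 →L[ℂ] ℂ) : L =
    L (Pi.single 0 1) • (ContinuousLinearMap.proj 0 : C2 →L[ℂ] ℂ) +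
      L (Pi.single 1 1) • (ContinuousLinearMap.proj 1 : C2 →L[ℂ] ℂ) := by
  ext v
  have h : v = v 0 • (Pi.single 0 1 : C2) + v 1 • (Pi.single 1 1 : C2) := by
    funext b
    fin_cases b
    · simp
    · simp
  conv_lhs => rw [h]
  simp only [map_add, map_smul, ContinuousLinearMap.add_apply, ContinuousLinearMap.smul_apply,
    ContinuousLinearMap.proj_apply, smul_eq_mul]
  ring

/-- Directional derivatives of holomorphic functions are holomorphic. -/
theorem Wir_holo_fderiv {U : Set C2} (hU : IsOpen U) {h : C2 → ℂ} (hh : DifferentiableOn ℂ h U)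
    (v : C2) : DifferentiableOn ℂ (fun w => fderiv ℂ h w v) U := by
  intro z₀ hz₀
  refine DifferentiableAt.differentiableWithinAt ?_
  -- radii
  obtain ⟨R, hR0, hR⟩ := Metric.nhds_basis_closedBall.mem_iff.1 (hU.mem_nhds hz₀)
  set ε : ℝ := R / 3 with hε
  have hε0 : 0 < ε := by positivity
  set ρ : ℝ := ε / (‖v‖ + 1) with hρ
  have hv1 : 0 < ‖v‖ + 1 := by positivity
  have hρ0 : 0 < ρ := by positivity
  have hρv : ρ * ‖v‖ ≤ ε := by
    rw [hρ, div_mul_eq_mul_div, div_le_iff₀ hv1]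
    nlinarith
  obtain ⟨M, hM⟩ := (isCompact_closedBall z₀ R).exists_bound_of_continuousOn
    (hh.continuousOn.mono hR)
  have hM0 : 0 ≤ M := (norm_nonneg _).trans (hM z₀ (mem_closedBall_self hR0.le))
  -- estimate of the derivative
  have hder : ∀ w ∈ closedBall z₀ (2 * ε), ‖fderiv ℂ h w‖ ≤ 2 * M / ε := by
    intro w hw
    have hsub : ball w ε ⊆ closedBall z₀ R := by
      intro y hy
      rw [mem_closedBall] at hw ⊢
      rw [mem_ball] at hy
      have := dist_triangle y w z₀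
      linarith
    apply norm_fderiv_le_div_of_mapsTo_ball (hh.mono (hsub.trans hR)) _ hε0
    intro y hy
    rw [mem_closedBall, dist_eq_norm]
    have h1 := hM y (hsub hy)
    have h2 := hM w (hsub (mem_ball_self hε0))
    have h3 := norm_sub_le (h y) (h w)
    linarith
  have hin : ∀ w ∈ ball z₀ ε, ∀ s : ℂ, ‖s‖ ≤ ρ → w + s • v ∈ closedBall z₀ (2 * ε) := by
    intro w hw s hs
    rw [mem_ball, dist_eq_norm] at hw
    rw [mem_closedBall, dist_eq_norm]
    have h1 : w + s • v - z₀ = (w - z₀) + s • v := by abel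
    rw [h1]
    refine (norm_add_le _ _).trans ?_
    rw [norm_smul]
    have h2 : ‖s‖ * ‖v‖ ≤ ρ * ‖v‖ := mul_le_mul_of_nonneg_right hs (norm_nonneg _)
    linarith
  have hinU : closedBall z₀ (2 * ε) ⊆ U := by
    refine (closedBall_subset_closedBall ?_).trans hR
    linarith
  -- Cauchy formula
  set A : ℝ → ℂ := fun θ => deriv (circleMap 0 ρ) θ * ((circleMap 0 ρ θ - 0) ^ 2)⁻¹ with hA
  have hc : ∀ θ : ℝ, ‖circleMap 0 ρ θ‖ = ρ := by
    intro θ
    rw [norm_circleMap_zero, abs_of_pos hρ0]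
  have hA2 : A = fun θ => circleMap 0 ρ θ * I * (circleMap 0 ρ θ ^ 2)⁻¹ := by
    funext θ
    simp only [hA, deriv_circleMap, sub_zero]
  have hAc : Continuous A := by
    rw [hA2]
    refine Continuous.mul ((continuous_circleMap 0 ρ).mul continuous_const) ?_
    refine Continuous.inv₀ ((continuous_circleMap 0 ρ).pow 2) fun θ => ?_
    exact pow_ne_zero _ (norm_pos_iff.1 (by rw [hc]; exact hρ0))
  have hAn : ∀ θ, ‖A θ‖ = 1 / ρ := by
    intro θ
    rw [hA]
    simp only [deriv_circleMap, sub_zero, norm_mul, norm_inv, norm_pow, hc, norm_I, mul_one]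
    field_simp
  have hcauchy : ∀ w ∈ ball z₀ ε, fderiv ℂ h w v =
      (2 * Real.pi * I : ℂ)⁻¹ * ∫ θ in (0 : ℝ)..2 * Real.pi, A θ • h (w + circleMap 0 ρ θ • v) := by
    intro w hw
    have hwU : w ∈ U := by
      have := hinU (hin w hw 0 (by rw [norm_zero]; exact hρ0.le))
      rwa [zero_smul, add_zero] at this
    have haff : Continuous fun s : ℂ => w + s • v := by fun_prop
    have h1 : deriv (fun s : ℂ => h (w + s • v)) 0 = fderiv ℂ h w v := by
      have h2 : HasDerivAt (fun s : ℂ => w + s • v) v 0 := by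
        have := ((hasDerivAt_id (0 : ℂ)).smul_const v).const_add w
        simpa using this
      have h3 : HasFDerivAt h (fderiv ℂ h w) (w + (0 : ℂ) • v) := by
        rw [zero_smul, add_zero]
        exact (hh.differentiableAt (hU.mem_nhds hwU)).hasFDerivAt
      exact (h3.comp_hasDerivAt (0 : ℂ) h2).deriv
    have h4 := cderiv_eq_deriv (U := (fun s : ℂ => w + s • v) ⁻¹' U)
      (f := fun s : ℂ => h (w + s • v)) (z := 0) (r := ρ) (hU.preimage haff)
      (hh.comp (by fun_prop) (fun s hs => hs)) hρ0 (by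
        intro s hs
        rw [mem_closedBall, dist_zero_right] at hs
        exact hinU (hin w hw s hs))
    rw [← h1, ← h4, cderiv, circleIntegral, smul_eq_mul]
    congr 1
    refine intervalIntegral.integral_congr fun θ _ => ?_
    simp only [hA, smul_eq_mul]
    ring
  have hcont : ∀ w ∈ ball z₀ ε, Continuous fun θ : ℝ => A θ • h (w + circleMap 0 ρ θ • v) := by
    intro w hw
    refine hAc.smul ?_
    refine hh.continuousOn.comp_continuous ?_ fun θ => hinU (hin w hw _ (hc θ).le)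
    exact continuous_const.add ((continuous_circleMap 0 ρ).smul continuous_const)
  have hz₀ε : z₀ ∈ ball z₀ ε := mem_ball_self hε0
  have key := intervalIntegral.hasFDerivAt_integral_of_dominated_of_fderiv_le (𝕜 := ℂ)
    (μ := MeasureTheory.volume) (a := 0) (b := 2 * Real.pi) (s := ball z₀ ε) (x₀ := z₀)
    (F := fun w θ => A θ • h (w + circleMap 0 ρ θ • v))
    (F' := fun w θ => A θ • fderiv ℂ h (w + circleMap 0 ρ θ • v))
    (bound := fun _ => 1 / ρ * (2 * M / ε)) (ball_mem_nhds z₀ hε0) ?_ ?_ ?_ ?_ ?_ ?_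
  · have h5 : (fun w => fderiv ℂ h w v) =ᶠ[𝓝 z₀] fun w =>
        (2 * Real.pi * I : ℂ)⁻¹ * ∫ θ in (0 : ℝ)..2 * Real.pi,
          A θ • h (w + circleMap 0 ρ θ • v) := by
      filter_upwards [ball_mem_nhds z₀ hε0] with w hw
      exact hcauchy w hw
    exact (key.differentiableAt.const_mul _).congr_of_eventuallyEq h5
  · filter_upwards [ball_mem_nhds z₀ hε0] with w hw
    exact (hcont w hw).aestronglyMeasurable
  · exact (hcont z₀ hz₀ε).intervalIntegrable _ _
  · have hmeas : ∀ u : C2, Measurable fun θ : ℝ => fderiv ℂ h (z₀ + circleMap 0 ρ θ • v) u := by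
      intro u
      have h6 : Measurable fun θ : ℝ => z₀ + circleMap 0 ρ θ • v :=
        (continuous_const.add ((continuous_circleMap 0 ρ).smul continuous_const)).measurable
      exact (measurable_fderiv_apply_const ℂ h u).comp h6
    have h7 : (fun θ : ℝ => A θ • fderiv ℂ h (z₀ + circleMap 0 ρ θ • v)) = fun θ : ℝ =>
        A θ • (fderiv ℂ h (z₀ + circleMap 0 ρ θ • v) (Pi.single 0 1) •
          (ContinuousLinearMap.proj 0 : C2 →L[ℂ] ℂ) +
        fderiv ℂ h (z₀ + circleMap 0 ρ θ • v) (Pi.single 1 1) •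
          (ContinuousLinearMap.proj 1 : C2 →L[ℂ] ℂ)) := by
      funext θ
      rw [← Wir_coord]
    show MeasureTheory.AEStronglyMeasurable
      (fun θ : ℝ => A θ • fderiv ℂ h (z₀ + circleMap 0 ρ θ • v)) _
    rw [h7]
    refine MeasureTheory.AEStronglyMeasurable.smul hAc.aestronglyMeasurable ?_
    exact ((hmeas _).aestronglyMeasurable.smul_const _).add
      ((hmeas _).aestronglyMeasurable.smul_const _)
  · refine Eventually.of_forall fun θ _ w hw => ?_
    rw [norm_smul, hAn]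
    exact mul_le_mul_of_nonneg_left (hder _ (hin w hw _ (hc θ).le)) (by positivity)
  · exact intervalIntegrable_const
  · refine Eventually.of_forall fun θ _ w hw => ?_
    have h8 : HasFDerivAt (fun w : C2 => w + circleMap 0 ρ θ • v) (ContinuousLinearMap.id ℂ C2) w :=
      (hasFDerivAt_id w).add_const _
    have h9 := (hh.differentiableAt (hU.mem_nhds (hinU (hin w hw _ (hc θ).le)))).hasFDerivAt
    have h10 := (h9.comp w h8).const_smul (A θ)
    rw [ContinuousLinearMap.comp_id] at h10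
    exact h10

private theorem Wir_dz_holo {F : C2 → ℂ} {z : C2} (hF : DifferentiableAt ℂ F z) (a : Fin 2) :
    Dz a F z = fderiv ℂ F z (Pi.single a 1) := by
  unfold Dz
  rw [Wir_fderiv_I hF, ← mul_assoc, I_mul_I, Wir_fderiv hF]
  ring

/-- `∂_a` of a holomorphic function is holomorphic. -/
theorem Wir_dz_differentiableOn {U : Set C2} (hU : IsOpen U) {F : C2 → ℂ}
    (hF : DifferentiableOn ℂ F U) (a : Fin 2) : DifferentiableOn ℂ (Dz a F) U :=
  (Wir_holo_fderiv hU hF (Pi.single a 1)).congr fun z hz =>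
    Wir_dz_holo (hF.differentiableAt (hU.mem_nhds hz)) a

/-- `log |k|²` is pluriharmonic for a holomorphic unit `k`. -/
theorem log_norm_plh {U : Set C2} (hU : IsOpen U) {k : C2 → ℂ} (hk : DifferentiableOn ℂ k U)
    (h0 : ∀ z ∈ U, k z ≠ 0) (a b : Fin 2) {z : C2} (hz : z ∈ U) :
    Dz a (Dzb b (fun w => ((Real.log (‖k w‖ ^ 2) : ℝ) : ℂ))) z = 0 := by
  set h : C2 → ℂ := fun w => Complex.log (k w / k z) + ((Real.log ‖k z‖ : ℝ) : ℂ) with hh
  set W : Set C2 := U ∩ (fun w => k w / k z) ⁻¹' slitPlane with hW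
  have hkz : k z ≠ 0 := h0 z hz
  have hdiv : DifferentiableOn ℂ (fun w => k w / k z) U := by
    simp only [div_eq_mul_inv]
    exact hk.mul_const _
  have hWo : IsOpen W := hdiv.continuousOn.isOpen_inter_preimage hU isOpen_slitPlane
  have hzW : z ∈ W := by
    refine ⟨hz, ?_⟩
    show k z / k z ∈ slitPlane
    rw [div_self hkz]
    exact one_mem_slitPlane
  have hhW : DifferentiableOn ℂ h W := by
    refine DifferentiableOn.add_const _ ?_
    exact (hdiv.mono inter_subset_left).clog fun w hw => hw.2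
  have hΨ : ∀ w ∈ W, ((Real.log (‖k w‖ ^ 2) : ℝ) : ℂ) = h w + (starRingEnd ℂ) (h w) := by
    intro w hw
    have hkw : k w ≠ 0 := h0 w hw.1
    rw [Complex.add_conj]
    congr 1
    rw [hh]
    simp only [add_re, log_re, ofReal_re, norm_div]
    rw [Real.log_div (norm_ne_zero_iff.2 hkw) (norm_ne_zero_iff.2 hkz), Real.log_pow]
    push_cast
    ring
  have h1 : ∀ w ∈ W, Dzb b (fun w => ((Real.log (‖k w‖ ^ 2) : ℝ) : ℂ)) w =
      (starRingEnd ℂ) (Dz b h w) := by
    intro w hw
    have hev : (fun w => ((Real.log (‖k w‖ ^ 2) : ℝ) : ℂ)) =ᶠ[𝓝 w]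
        fun w => h w + (starRingEnd ℂ) (h w) := by
      filter_upwards [hWo.mem_nhds hw] with y hy
      exact hΨ y hy
    have hd : DifferentiableAt ℝ h w :=
      (hhW.differentiableAt (hWo.mem_nhds hw)).restrictScalars ℝ
    have hd' : DifferentiableAt ℝ (fun w => (starRingEnd ℂ) (h w)) w :=
      conjCLE.differentiable.differentiableAt.comp w hd
    have h2 : Dzb b (fun w => h w + (starRingEnd ℂ) (h w)) w =
        Dzb b h w + Dzb b (fun w => (starRingEnd ℂ) (h w)) w := by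
      unfold Dzb
      rw [fderiv_fun_add hd hd']
      simp only [ContinuousLinearMap.add_apply]
      ring
    have h3 : Dzb b (fun w => ((Real.log (‖k w‖ ^ 2) : ℝ) : ℂ)) w =
        Dzb b (fun w => h w + (starRingEnd ℂ) (h w)) w := by
      unfold Dzb
      rw [hev.fderiv_eq]
    rw [h3, h2, dzb_holo hWo hhW b hw, zero_add, conj_dz]
  have h4 : Dzb b (fun w => ((Real.log (‖k w‖ ^ 2) : ℝ) : ℂ)) =ᶠ[𝓝 z]
      fun w => (starRingEnd ℂ) (Dz b h w) := by
    filter_upwards [hWo.mem_nhds hzW] with y hy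
    exact h1 y hy
  have h5 : Dz a (Dzb b (fun w => ((Real.log (‖k w‖ ^ 2) : ℝ) : ℂ))) z =
      Dz a (fun w => (starRingEnd ℂ) (Dz b h w)) z := by
    unfold Dz at h4 ⊢
    rw [h4.fderiv_eq]
  rw [h5, ← Wir_conj_dzb, dzb_holo hWo (Wir_dz_differentiableOn hWo hhW b) a hzW, map_zero]

/-- A pluriharmonic `C²` function on a ball (a polydisc) is the real part of a holomorphic function. -/
theorem exists_re_of_plh {p : C2} {r : ℝ} {ψ : C2 → ℝ} (hψ : ContDiffOn ℝ 2 ψ (ball p r))
    (h : ∀ a b, ∀ z ∈ ball p r, Dz a (Dzb b (fun w => ((ψ w : ℝ) : ℂ))) z = 0) :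
    ∃ q : C2 → ℂ, DifferentiableOn ℂ q (ball p r) ∧ ∀ z ∈ ball p r, ψ z = (q z).re := by
  set F : C2 → ℂ := fun w => ((ψ w : ℝ) : ℂ) with hF
  have hFc : ContDiffOn ℝ 2 F (ball p r) := ofRealCLM.contDiff.comp_contDiffOn hψ
  have hFa : ∀ z ∈ ball p r, ContDiffAt ℝ 2 F z := fun z hz =>
    hFc.contDiffAt (isOpen_ball.mem_nhds hz)
  have hψd : ∀ z ∈ ball p r, HasFDerivAt ψ (fderiv ℝ ψ z) z := fun z hz =>
    ((hψ.contDiffAt (isOpen_ball.mem_nhds hz)).differentiableAt (by norm_num)).hasFDerivAt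
  have hF1 : ∀ z ∈ ball p r, ∀ u : C2, fderiv ℝ F z u = ((fderiv ℝ ψ z u : ℝ) : ℂ) := by
    intro z hz u
    have h1 : HasFDerivAt F (ofRealCLM.comp (fderiv ℝ ψ z)) z :=
      ofRealCLM.hasFDerivAt.comp z (hψd z hz)
    rw [h1.fderiv]
    rfl
  have hHd : ∀ z ∈ ball p r, HasFDerivAt (fderiv ℝ F) (fderiv ℝ (fderiv ℝ F) z) z := fun z hz =>
    (((hFa z hz).fderiv_right (m := 1) (by norm_num)).differentiableAt (by norm_num)).hasFDerivAt
  have hHv : ∀ z ∈ ball p r, ∀ v : C2, HasFDerivAt (fun w => fderiv ℝ F w v)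
      ((fderiv ℝ (fderiv ℝ F) z).flip v) z := by
    intro z hz v
    have := (ContinuousLinearMap.apply ℝ ℂ v).hasFDerivAt.comp z (hHd z hz)
    exact this
  -- the second derivatives are real
  have hreal : ∀ z ∈ ball p r, ∀ u v : C2, (fderiv ℝ (fderiv ℝ F) z u v).im = 0 := by
    intro z hz u v
    have h1 : HasFDerivAt (fun w => (fderiv ℝ F w v).im)
        (imCLM.comp ((fderiv ℝ (fderiv ℝ F) z).flip v)) z := imCLM.hasFDerivAt.comp z (hHv z hz v)
    have h2 : (fun w => (fderiv ℝ F w v).im) =ᶠ[𝓝 z] fun _ => (0 : ℝ) := by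
      filter_upwards [isOpen_ball.mem_nhds hz] with w hw
      rw [hF1 w hw v, ofReal_im]
    have h3 := (h1.congr_of_eventuallyEq h2.symm).unique (hasFDerivAt_const (0 : ℝ) z)
    have h4 := congrArg (fun L => L u) h3
    exact h4
  have hsym : ∀ z ∈ ball p r, ∀ u v : C2, fderiv ℝ (fderiv ℝ F) z u v =
      fderiv ℝ (fderiv ℝ F) z v u := fun z hz u v =>
    ((hFa z hz).isSymmSndFDerivAt (by simp)) u v
  have hrel : ∀ z ∈ ball p r, ∀ a b : Fin 2,
      fderiv ℝ (fderiv ℝ F) z (Pi.single a I) (Pi.single b I) =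
        -fderiv ℝ (fderiv ℝ F) z (Pi.single a 1) (Pi.single b 1) ∧
      fderiv ℝ (fderiv ℝ F) z (Pi.single a I) (Pi.single b 1) =
        fderiv ℝ (fderiv ℝ F) z (Pi.single a 1) (Pi.single b I) := by
    intro z hz a b
    have h1 := h a b z hz
    rw [Wir_dz, Wir_dzb, Wir_second (hFa z hz)] at h1
    have i1 := hreal z hz (Pi.single a 1) (Pi.single b 1)
    have i2 := hreal z hz (Pi.single a 1) (Pi.single b I)
    have i3 := hreal z hz (Pi.single a I) (Pi.single b 1)
    have i4 := hreal z hz (Pi.single a I) (Pi.single b I)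
    generalize fderiv ℝ (fderiv ℝ F) z (Pi.single a 1) (Pi.single b 1) = P at *
    generalize fderiv ℝ (fderiv ℝ F) z (Pi.single a 1) (Pi.single b I) = Q at *
    generalize fderiv ℝ (fderiv ℝ F) z (Pi.single a I) (Pi.single b 1) = Q' at *
    generalize fderiv ℝ (fderiv ℝ F) z (Pi.single a I) (Pi.single b I) = P' at *
    have h2 : P + I * Q + -I * Q' + -I * I * P' = 0 := by
      rcases mul_eq_zero.1 h1 with h2 | h2
      · norm_num at h2
      · exact h2
    have h3 : P + I * Q - I * Q' + P' = 0 := by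
      linear_combination h2 + P' * I_mul_I
    have h4 := congrArg Complex.re h3
    have h5 := congrArg Complex.im h3
    simp [i2, i3] at h4
    simp [i1, i4] at h5
    constructor
    · apply Complex.ext
      · rw [neg_re]; linarith
      · rw [neg_im, i1, i4, neg_zero]
    · apply Complex.ext
      · linarith
      · rw [i2, i3]
  -- the holomorphic one form
  set g : Fin 2 → C2 → ℂ := fun a z => fderiv ℝ F z (Pi.single a 1) - I * fderiv ℝ F z (Pi.single a I)
    with hg
  set g' : Fin 2 → C2 → (C2 →L[ℝ] ℂ) := fun a z =>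
    (fderiv ℝ (fderiv ℝ F) z).flip (Pi.single a 1) -
      I • (fderiv ℝ (fderiv ℝ F) z).flip (Pi.single a I) with hg'
  have hgd : ∀ a, ∀ z ∈ ball p r, HasFDerivAt (g a) (g' a z) z := fun a z hz =>
    (hHv z hz _).sub ((hHv z hz _).const_mul I)
  set om : C2 → (C2 →L[ℂ] ℂ) := fun z => g 0 z • (ContinuousLinearMap.proj 0 : C2 →L[ℂ] ℂ) +
    g 1 z • (ContinuousLinearMap.proj 1 : C2 →L[ℂ] ℂ) with hom
  set dom : C2 → (C2 →L[ℝ] (C2 →L[ℂ] ℂ)) := fun z =>
    (g' 0 z).smulRight (ContinuousLinearMap.proj 0 : C2 →L[ℂ] ℂ) +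
    (g' 1 z).smulRight (ContinuousLinearMap.proj 1 : C2 →L[ℂ] ℂ) with hdom
  have homd : ∀ z ∈ ball p r, HasFDerivAt om (dom z) z := fun z hz =>
    ((hgd 0 z hz).smul_const (ContinuousLinearMap.proj 0 : C2 →L[ℂ] ℂ)).add
      ((hgd 1 z hz).smul_const (ContinuousLinearMap.proj 1 : C2 →L[ℂ] ℂ))
  have hg'u : ∀ z ∈ ball p r, ∀ a, ∀ u : C2, g' a z u =
      u 0 * (fderiv ℝ (fderiv ℝ F) z (Pi.single 0 1) (Pi.single a 1) -
        I * fderiv ℝ (fderiv ℝ F) z (Pi.single 0 1) (Pi.single a I)) +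
      u 1 * (fderiv ℝ (fderiv ℝ F) z (Pi.single 1 1) (Pi.single a 1) -
        I * fderiv ℝ (fderiv ℝ F) z (Pi.single 1 1) (Pi.single a I)) := by
    intro z hz a u
    rw [Wir_basis (g' a z) u]
    simp only [hg', ContinuousLinearMap.sub_apply, ContinuousLinearMap.smul_apply,
      ContinuousLinearMap.flip_apply, smul_eq_mul, real_smul, (hrel z hz 0 a).1,
      (hrel z hz 0 a).2, (hrel z hz 1 a).1, (hrel z hz 1 a).2]
    have e0 := re_add_im (u 0)
    have e1 := re_add_im (u 1)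
    conv_rhs => rw [← e0, ← e1]
    linear_combination (((u 0).im : ℂ) * fderiv ℝ (fderiv ℝ F) z (Pi.single 0 1) (Pi.single a I) +
      ((u 1).im : ℂ) * fderiv ℝ (fderiv ℝ F) z (Pi.single 1 1) (Pi.single a I)) * I_mul_I
  have hclosed : ∀ z ∈ ball p r, ∀ u v : C2, dom z u v = dom z v u := by
    intro z hz u v
    simp only [hdom, ContinuousLinearMap.add_apply, ContinuousLinearMap.smulRight_apply,
      ContinuousLinearMap.smul_apply, ContinuousLinearMap.proj_apply, smul_eq_mul,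
      hg'u z hz]
    have s1 := hsym z hz (Pi.single 0 1) (Pi.single 1 1)
    have s2 : fderiv ℝ (fderiv ℝ F) z (Pi.single 0 1) (Pi.single 1 I) =
        fderiv ℝ (fderiv ℝ F) z (Pi.single 1 1) (Pi.single 0 I) := by
      rw [hsym z hz, (hrel z hz 1 0).2]
    rw [s1, s2]
    ring
  obtain ⟨f, hf⟩ := (convex_ball p r).exists_forall_hasFDerivWithinAt_of_hasFDerivWithinAt_symmetric
    (fun z hz => (homd z hz).hasFDerivWithinAt) (fun z hz u _ v _ => hclosed z hz u v)
  have hf' : ∀ z ∈ ball p r, HasFDerivAt f (om z) z := fun z hz =>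
    (hf z hz).hasFDerivAt (isOpen_ball.mem_nhds hz)
  -- the difference is constant
  have hdiff : ∀ z ∈ ball p r, HasFDerivAt (fun w => ψ w - (f w).re) (0 : C2 →L[ℝ] ℝ) z := by
    intro z hz
    have h1 : HasFDerivAt (fun w => (f w).re) (reCLM.comp ((om z).restrictScalars ℝ)) z :=
      reCLM.hasFDerivAt.comp z ((hf' z hz).restrictScalars ℝ)
    refine ((hψd z hz).sub h1).congr_fderiv ?_
    ext v
    rw [ContinuousLinearMap.sub_apply, Wir_basis (fderiv ℝ ψ z) v]
    simp only [hom, hg, hF1 z hz, ContinuousLinearMap.comp_apply,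
      ContinuousLinearMap.coe_restrictScalars', ContinuousLinearMap.add_apply,
      ContinuousLinearMap.smul_apply, ContinuousLinearMap.proj_apply, smul_eq_mul, reCLM_apply,
      ContinuousLinearMap.zero_apply]
    simp
    ring
  obtain ⟨c, hc⟩ := isOpen_ball.exists_is_const_of_fderiv_eq_zero (𝕜 := ℝ)
    (convex_ball p r).isPreconnected
    (fun z hz => (hdiff z hz).differentiableAt.differentiableWithinAt)
    (fun z hz => (hdiff z hz).fderiv)
  refine ⟨fun z => f z + (c : ℂ), fun z hz =>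
    ((hf' z hz).differentiableAt.add_const _).differentiableWithinAt, fun z hz => ?_⟩
  have := hc z hz
  rw [add_re, ofReal_re]
  linarith

end Q2T
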