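import Pool.Agent.H.MP_89f84f_ag.q2.FouA
import Pool.Agent.H.MP_89f84f_ag.q2.Wir

set_option autoImplicit false

open Complex Topology Filter Asymptotics Metric Set
open scoped ContDiff

namespace Q2T

/-! ### Trigonometric series -/

/-- the characters -/
private noncomputable def fouB_e (n : Fin 4 → ℤ) (x : Fin 4 → ℝ) : ℂ :=
  cexp (2 * Real.pi * I * ((∑ i, (n i : ℝ) * x i : ℝ) : ℂ))

private theorem fouB_e_norm (n : Fin 4 → ℤ) (x : Fin 4 → ℝ) : ‖fouB_e n x‖ = 1 := by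
  unfold fouB_e
  rw [show 2 * Real.pi * I * ((∑ i, (n i : ℝ) * x i : ℝ) : ℂ) =
    ((2 * Real.pi * ∑ i, (n i : ℝ) * x i : ℝ) : ℂ) * I by push_cast; ring]
  exact Complex.norm_exp_ofReal_mul_I _

private theorem fouB_e_per (n : Fin 4 → ℤ) (x : Fin 4 → ℝ) (m : Fin 4 → ℤ) :
    fouB_e n (x + fun i => (m i : ℝ)) = fouB_e n x := by
  unfold fouB_e
  have h : (2 * Real.pi * I * ((∑ i, (n i : ℝ) * (x + fun i => (m i : ℝ)) i : ℝ) : ℂ)) =
      2 * Real.pi * I * ((∑ i, (n i : ℝ) * x i : ℝ) : ℂ) +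
        ((∑ i, n i * m i : ℤ) : ℂ) * (2 * Real.pi * I) := by
    simp only [Pi.add_apply, mul_add, Finset.sum_add_distrib]
    push_cast
    ring
  rw [h, Complex.exp_add, Complex.exp_int_mul_two_pi_mul_I, mul_one]

/-- the linear forms -/
private noncomputable def fouB_l (n : Fin 4 → ℤ) : (Fin 4 → ℝ) →L[ℝ] ℂ :=
  Complex.ofRealCLM.comp (∑ i, (n i : ℝ) • ContinuousLinearMap.proj (R := ℝ) (φ := fun _ => ℝ) i)

private theorem fouB_l_apply (n : Fin 4 → ℤ) (x : Fin 4 → ℝ) :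
    fouB_l n x = ((∑ i, (n i : ℝ) * x i : ℝ) : ℂ) := by
  unfold fouB_l
  rw [ContinuousLinearMap.comp_apply]
  show ((((∑ i, (n i : ℝ) • ContinuousLinearMap.proj (R := ℝ) (φ := fun _ => ℝ) i) :
    (Fin 4 → ℝ) →L[ℝ] ℝ) x : ℝ) : ℂ) = _
  rw [ContinuousLinearMap.sum_apply]
  rfl

private theorem fouB_l_norm (n : Fin 4 → ℤ) : ‖fouB_l n‖ ≤ 4 * ‖n‖ := by
  refine ContinuousLinearMap.opNorm_le_bound _ (by positivity) fun x => ?_
  rw [fouB_l_apply, Complex.norm_real, Real.norm_eq_abs]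
  calc |∑ i, (n i : ℝ) * x i| ≤ ∑ i, |(n i : ℝ) * x i| := Finset.abs_sum_le_sum_abs _ _
    _ ≤ ∑ _i : Fin 4, ‖n‖ * ‖x‖ := Finset.sum_le_sum fun i _ => by
        rw [abs_mul]
        have h1 : |(n i : ℝ)| ≤ ‖n‖ := by
          have := norm_le_pi_norm n i
          rwa [Int.norm_eq_abs] at this
        have h2 : |x i| ≤ ‖x‖ := norm_le_pi_norm x i
        exact mul_le_mul h1 h2 (abs_nonneg _) (norm_nonneg _)
    _ = 4 * ‖n‖ * ‖x‖ := by
        rw [Finset.sum_const, Finset.card_univ, Fintype.card_fin, nsmul_eq_mul]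
        push_cast
        ring

private theorem fouB_l_single (n : Fin 4 → ℤ) (j : Fin 4) :
    fouB_l n (Pi.single j 1) = (n j : ℂ) := by
  rw [fouB_l_apply, Finset.sum_eq_single j]
  · simp
  · intro i _ hi
    rw [Pi.single_eq_of_ne hi, mul_zero]
  · intro h
    exact absurd (Finset.mem_univ j) h

private theorem fouB_e_deriv (n : Fin 4 → ℤ) (x : Fin 4 → ℝ) :
    HasFDerivAt (fouB_e n) ((2 * Real.pi * I * fouB_e n x) • fouB_l n) x := by
  have h1 : HasFDerivAt (fun y => cexp (2 * Real.pi * I * fouB_l n y))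
      (cexp (2 * Real.pi * I * fouB_l n x) • ((2 * Real.pi * I : ℂ) • fouB_l n)) x :=
    ((fouB_l n).hasFDerivAt.const_mul (2 * Real.pi * I)).cexp
  have h2 : (fun y => cexp (2 * Real.pi * I * fouB_l n y)) = fouB_e n := by
    funext y
    rw [fouB_l_apply]
    rfl
  rw [h2] at h1
  have h3 : cexp (2 * Real.pi * I * fouB_l n x) = fouB_e n x := congrFun h2 x
  rw [h3, smul_smul, mul_comm] at h1
  exact h1

private theorem fouB_e_cont (n : Fin 4 → ℤ) : Continuous (fouB_e n) :=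
  continuous_iff_continuousAt.2 fun x => (fouB_e_deriv n x).continuousAt

/-- the series -/
private noncomputable def fouB_G (c : (Fin 4 → ℤ) → ℂ) (x : Fin 4 → ℝ) : ℂ :=
  ∑' n, c n * fouB_e n x

private theorem fouB_term_norm (c : (Fin 4 → ℤ) → ℂ) (n : Fin 4 → ℤ) (x : Fin 4 → ℝ) :
    ‖c n * fouB_e n x‖ = ‖c n‖ := by
  rw [norm_mul, fouB_e_norm, mul_one]

private theorem fouB_summable {c : (Fin 4 → ℤ) → ℂ} (hc : Summable fun n => ‖c n‖)
    (x : Fin 4 → ℝ) : Summable fun n => c n * fouB_e n x :=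
  Summable.of_norm (by simpa only [fouB_term_norm] using hc)

private theorem fouB_cont {c : (Fin 4 → ℤ) → ℂ} (hc : Summable fun n => ‖c n‖) :
    Continuous (fouB_G c) :=
  continuous_tsum (fun n => continuous_const.mul (fouB_e_cont n)) hc
    fun n x => (fouB_term_norm c n x).le

private theorem fouB_per (c : (Fin 4 → ℤ) → ℂ) : Per4 (fouB_G c) := by
  intro x m
  unfold fouB_G
  simp only [fouB_e_per]

/-- the coefficients of the derivative -/
private noncomputable def fouB_c (c : (Fin 4 → ℤ) → ℂ) (j : Fin 4) (n : Fin 4 → ℤ) : ℂ :=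
  2 * Real.pi * I * (n j : ℂ) * c n

private theorem fouB_c_norm (c : (Fin 4 → ℤ) → ℂ) (j : Fin 4) (n : Fin 4 → ℤ) :
    ‖fouB_c c j n‖ ≤ 2 * Real.pi * (‖n‖ * ‖c n‖) := by
  unfold fouB_c
  rw [norm_mul, norm_mul, norm_mul, norm_mul, Complex.norm_I, Complex.norm_real,
    Complex.norm_ofNat, Real.norm_of_nonneg Real.pi_pos.le, mul_one, Complex.norm_intCast]
  have h1 : |(n j : ℝ)| ≤ ‖n‖ := by
    have := norm_le_pi_norm n j
    rwa [Int.norm_eq_abs] at this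
  have h2 : 2 * Real.pi * |(n j : ℝ)| * ‖c n‖ = 2 * Real.pi * (|(n j : ℝ)| * ‖c n‖) := by ring
  rw [h2]
  gcongr

private theorem fouB_hasFDeriv {c : (Fin 4 → ℤ) → ℂ} (hc : Summable fun n => ‖c n‖)
    (hc1 : Summable fun n : Fin 4 → ℤ => ‖n‖ * ‖c n‖) (x : Fin 4 → ℝ) :
    HasFDerivAt (fouB_G c) (∑' n, (c n * (2 * Real.pi * I * fouB_e n x)) • fouB_l n) x ∧
    Summable (fun n => (c n * (2 * Real.pi * I * fouB_e n x)) • fouB_l n) := by
  have hb : ∀ (n : Fin 4 → ℤ) (y : Fin 4 → ℝ), ‖(c n * (2 * Real.pi * I * fouB_e n y)) • fouB_l n‖ ≤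
      8 * Real.pi * (‖n‖ * ‖c n‖) := by
    intro n y
    rw [norm_smul, norm_mul, norm_mul, norm_mul, norm_mul, Complex.norm_I, Complex.norm_real,
      Complex.norm_ofNat, Real.norm_of_nonneg Real.pi_pos.le, mul_one, fouB_e_norm, mul_one]
    have h1 := fouB_l_norm n
    have h2 : ‖c n‖ * (2 * Real.pi) * ‖fouB_l n‖ ≤ ‖c n‖ * (2 * Real.pi) * (4 * ‖n‖) := by
      have := Real.pi_pos
      gcongr
    linarith
  have hs := hc1.mul_left (8 * Real.pi)
  refine ⟨?_, Summable.of_norm_bounded hs fun n => hb n x⟩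
  refine hasFDerivAt_tsum (f' := fun n y => (c n * (2 * Real.pi * I * fouB_e n y)) • fouB_l n)
    hs ?_ hb (fouB_summable hc x) x
  intro n y
  have h1 := (fouB_e_deriv n y).const_mul (c n)
  rw [smul_smul] at h1
  exact h1

private theorem fouB_hasSum {c : (Fin 4 → ℤ) → ℂ} (hc : Summable fun n => ‖c n‖)
    (hc1 : Summable fun n : Fin 4 → ℤ => ‖n‖ * ‖c n‖) (x : Fin 4 → ℝ) (j : Fin 4) :
    HasSum (fun n => fouB_c c j n * fouB_e n x) (fderiv ℝ (fouB_G c) x (Pi.single j 1)) := by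
  obtain ⟨h1, h2⟩ := fouB_hasFDeriv hc hc1 x
  rw [h1.fderiv]
  have h3 := (ContinuousLinearMap.apply ℝ ℂ (Pi.single j (1 : ℝ) : Fin 4 → ℝ)).hasSum h2.hasSum
  refine h3.congr_fun ?_
  intro n
  show fouB_c c j n * fouB_e n x =
    ((c n * (2 * Real.pi * I * fouB_e n x)) • fouB_l n) (Pi.single j 1)
  rw [ContinuousLinearMap.smul_apply, fouB_l_single, smul_eq_mul]
  unfold fouB_c
  ring

/-- a linear map on `ℝ⁴` in coordinates -/
private theorem fouB_lin (L : (Fin 4 → ℝ) →L[ℝ] ℂ) (y : Fin 4 → ℝ) :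
    L y = ∑ j, (y j : ℂ) * L (Pi.single j 1) := by
  have h1 : y = ∑ j, y j • (Pi.single j (1 : ℝ) : Fin 4 → ℝ) := by
    funext i
    rw [Finset.sum_apply, Finset.sum_eq_single i]
    · simp
    · intro j _ hj
      rw [Pi.smul_apply, Pi.single_eq_of_ne hj.symm, smul_zero]
    · intro h
      exact absurd (Finset.mem_univ i) h
  conv_lhs => rw [h1]
  rw [map_sum]
  refine Finset.sum_congr rfl fun j _ => ?_
  rw [map_smul, Complex.real_smul]

private theorem fouB_fderiv {c : (Fin 4 → ℤ) → ℂ} (hc : Summable fun n => ‖c n‖)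
    (hc1 : Summable fun n : Fin 4 → ℤ => ‖n‖ * ‖c n‖) (x : Fin 4 → ℝ) (j : Fin 4) :
    fderiv ℝ (fouB_G c) x (Pi.single j 1) = fouB_G (fouB_c c j) x :=
  (fouB_hasSum hc hc1 x j).tsum_eq.symm

private theorem fouB_c_summable {c : (Fin 4 → ℤ) → ℂ}
    (hc1 : Summable fun n : Fin 4 → ℤ => ‖n‖ * ‖c n‖) (j : Fin 4) :
    Summable fun n => ‖fouB_c c j n‖ :=
  Summable.of_nonneg_of_le (fun _ => norm_nonneg _) (fouB_c_norm c j)
    (hc1.mul_left (2 * Real.pi))

private theorem fouB_C1 {c : (Fin 4 → ℤ) → ℂ} (hc : Summable fun n => ‖c n‖)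
    (hc1 : Summable fun n : Fin 4 → ℤ => ‖n‖ * ‖c n‖) : ContDiff ℝ 1 (fouB_G c) := by
  rw [contDiff_one_iff_fderiv]
  refine ⟨fun x => (fouB_hasFDeriv hc hc1 x).1.differentiableAt, ?_⟩
  rw [continuous_clm_apply]
  intro y
  have h1 : (fun x => fderiv ℝ (fouB_G c) x y) = fun x => ∑ j, (y j : ℂ) * fouB_G (fouB_c c j) x := by
    funext x
    rw [fouB_lin]
    exact Finset.sum_congr rfl fun j _ => by rw [fouB_fderiv hc hc1]
  rw [h1]
  exact continuous_finsetSum _ fun j _ => continuous_const.mul (fouB_cont (fouB_c_summable hc1 j))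

private theorem fouB_low {c : (Fin 4 → ℤ) → ℂ}
    (hc : Summable fun n : Fin 4 → ℤ => ‖n‖ ^ 2 * ‖c n‖) :
    (Summable fun n => ‖c n‖) ∧ Summable fun n : Fin 4 → ℤ => ‖n‖ * ‖c n‖ := by
  have h1 : ∀ n : Fin 4 → ℤ, n ≠ 0 → 1 ≤ ‖n‖ := by
    intro n hn
    obtain ⟨i, hi⟩ := Function.ne_iff.1 hn
    have h2 := norm_le_pi_norm n i
    rw [Int.norm_eq_abs] at h2
    have h3 : (1 : ℝ) ≤ |(n i : ℝ)| := by
      rw [← Int.cast_abs]
      exact_mod_cast Int.one_le_abs hi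
    linarith
  have h0 : Summable fun n : Fin 4 → ℤ => ‖n‖ ^ 2 * ‖c n‖ + (if n = 0 then ‖c 0‖ else 0) :=
    hc.add (hasSum_ite_eq 0 _).summable
  constructor
  · refine Summable.of_nonneg_of_le (fun _ => norm_nonneg _) (fun n => ?_) h0
    by_cases hn : n = 0
    · rw [hn, if_pos rfl]
      have : 0 ≤ ‖(0 : Fin 4 → ℤ)‖ ^ 2 * ‖c 0‖ := by positivity
      linarith
    · rw [if_neg hn, add_zero]
      have h2 := h1 n hn
      have h3 : 1 ≤ ‖n‖ ^ 2 := one_le_pow₀ h2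
      exact le_mul_of_one_le_left (norm_nonneg _) h3
  · refine Summable.of_nonneg_of_le (fun _ => by positivity) (fun n => ?_) h0
    by_cases hn : n = 0
    · rw [hn, if_pos rfl, norm_zero, zero_mul]
      have : 0 ≤ (0 : ℝ) ^ 2 * ‖c 0‖ := by positivity
      have h4 := norm_nonneg (c 0)
      linarith
    · rw [if_neg hn, add_zero]
      have h2 := h1 n hn
      have h3 : ‖n‖ ≤ ‖n‖ ^ 2 := by nlinarith
      exact mul_le_mul_of_nonneg_right h3 (norm_nonneg _)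

/-- A sum `∑ c n exp (2 π i n · x)` with `∑ ‖n‖² ‖c n‖ < ∞` is `C²`, and second derivatives are termwise. -/
theorem fseries_c2 (c : (Fin 4 → ℤ) → ℂ) (hc : Summable fun n : Fin 4 → ℤ => ‖n‖ ^ 2 * ‖c n‖) :
    ∃ V : (Fin 4 → ℝ) → ℂ, ContDiff ℝ 2 V ∧ Per4 V ∧
      (∀ x j, HasSum (fun n : Fin 4 → ℤ => 2 * Real.pi * I * (n j : ℂ) * c n *
        cexp (2 * Real.pi * I * ((∑ i, (n i : ℝ) * x i : ℝ) : ℂ))) (fderiv ℝ V x (Pi.single j 1))) ∧
      ∀ x j k, HasSum (fun n : Fin 4 → ℤ => (2 * Real.pi * I * (n j : ℂ)) * (2 * Real.pi * I * (n k : ℂ)) * c n *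
        cexp (2 * Real.pi * I * ((∑ i, (n i : ℝ) * x i : ℝ) : ℂ)))
        (fderiv ℝ (fun y => fderiv ℝ V y (Pi.single j 1)) x (Pi.single k 1)) := by
  obtain ⟨hc0, hc1⟩ := fouB_low hc
  have hj0 := fun j => fouB_c_summable hc1 j
  have hj1 : ∀ j, Summable fun n : Fin 4 → ℤ => ‖n‖ * ‖fouB_c c j n‖ := by
    intro j
    refine Summable.of_nonneg_of_le (fun _ => by positivity) (fun n => ?_)
      (hc.mul_left (2 * Real.pi))
    have h1 := mul_le_mul_of_nonneg_left (fouB_c_norm c j n) (norm_nonneg n)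
    refine h1.trans (le_of_eq ?_)
    ring
  have hfd : ∀ j, (fun y => fderiv ℝ (fouB_G c) y (Pi.single j 1)) = fouB_G (fouB_c c j) :=
    fun j => funext fun x => fouB_fderiv hc0 hc1 x j
  refine ⟨fouB_G c, ?_, fouB_per c, fun x j => fouB_hasSum hc0 hc1 x j, fun x j k => ?_⟩
  · have h2 : (2 : WithTop ℕ∞) = 1 + 1 := by norm_num
    rw [h2, contDiff_succ_iff_fderiv_apply]
    refine ⟨fun x => (fouB_hasFDeriv hc0 hc1 x).1.differentiableAt, fun h => ?_, fun y => ?_⟩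
    · exact absurd h (by decide)
    · have h1 : (fun x => fderiv ℝ (fouB_G c) x y) =
          fun x => ∑ j, (y j : ℂ) * fouB_G (fouB_c c j) x := by
        funext x
        rw [fouB_lin]
        exact Finset.sum_congr rfl fun j _ => by rw [fouB_fderiv hc0 hc1]
      rw [h1]
      exact ContDiff.sum fun j _ => contDiff_const.mul (fouB_C1 (hj0 j) (hj1 j))
  · rw [hfd j]
    refine (fouB_hasSum (hj0 j) (hj1 j) x k).congr_fun fun n => ?_
    unfold fouB_c fouB_e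
    ring

namespace PerData

variable (S : PerData)

/-- Real coordinates: `x ↦ τ (x₀, x₁) + Δ (x₂, x₃)`, an isomorphism taking `ℤ⁴` to `Lat`. -/
theorem exists_coord4 : ∃ φ : (Fin 4 → ℝ) ≃L[ℝ] C2, ∀ m : Fin 4 → ℤ,
    φ (fun i => (m i : ℝ)) = S.tv ![m 0, m 1] + S.dv ![m 2, m 3] := by
  obtain ⟨g, hg⟩ : ∃ g : (Fin 4 → ℝ) →ₗ[ℝ] C2, ∀ x, g x =
      ![S.τ 0 0 * (x 0 : ℂ) + S.τ 0 1 * (x 1 : ℂ) + (x 2 : ℂ),
        S.τ 1 0 * (x 0 : ℂ) + S.τ 1 1 * (x 1 : ℂ) + (S.d : ℂ) * (x 3 : ℂ)] := by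
    refine ⟨{
      toFun := fun x => ![S.τ 0 0 * (x 0 : ℂ) + S.τ 0 1 * (x 1 : ℂ) + (x 2 : ℂ),
        S.τ 1 0 * (x 0 : ℂ) + S.τ 1 1 * (x 1 : ℂ) + (S.d : ℂ) * (x 3 : ℂ)]
      map_add' := fun x y => ?_
      map_smul' := fun r x => ?_ }, fun x => rfl⟩
    · funext i
      fin_cases i
      · simp
        ring
      · simp
        ring
    · funext i
      fin_cases i
      · simp
        ring
      · simp
        ring
  have hinj : Function.Injective g := by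
    rw [injective_iff_map_eq_zero]
    intro x hx
    have h0 : S.τ 0 0 * (x 0 : ℂ) + S.τ 0 1 * (x 1 : ℂ) + (x 2 : ℂ) = 0 := by
      have := congrFun hx 0
      rwa [hg] at this
    have h1 : S.τ 1 0 * (x 0 : ℂ) + S.τ 1 1 * (x 1 : ℂ) + (S.d : ℂ) * (x 3 : ℂ) = 0 := by
      have := congrFun hx 1
      rwa [hg] at this
    have h0i := congrArg Complex.im h0
    have h1i := congrArg Complex.im h1
    have h0r := congrArg Complex.re h0
    have h1r := congrArg Complex.re h1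
    rw [← S.symm] at h1i h1r
    simp at h0i h1i h0r h1r
    have hdet := S.det_pos
    have hD : (S.τ 0 0).im * (S.τ 1 1).im - (S.τ 0 1).im ^ 2 ≠ 0 := by linarith
    have hx0 : x 0 = 0 := by
      have h2 : ((S.τ 0 0).im * (S.τ 1 1).im - (S.τ 0 1).im ^ 2) * x 0 = 0 := by
        linear_combination (S.τ 1 1).im * h0i - (S.τ 0 1).im * h1i
      exact (mul_eq_zero.1 h2).resolve_left hD
    have hx1 : x 1 = 0 := by
      have h2 : ((S.τ 0 0).im * (S.τ 1 1).im - (S.τ 0 1).im ^ 2) * x 1 = 0 := by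
        linear_combination (S.τ 0 0).im * h1i - (S.τ 0 1).im * h0i
      exact (mul_eq_zero.1 h2).resolve_left hD
    have hx2 : x 2 = 0 := by
      rw [hx0, hx1] at h0r
      linarith
    have hx3 : x 3 = 0 := by
      rw [hx0, hx1] at h1r
      have hd : (S.d : ℝ) ≠ 0 := by
        have := S.d_pos
        positivity
      have h2 : (S.d : ℝ) * x 3 = 0 := by linarith
      exact (mul_eq_zero.1 h2).resolve_left hd
    funext i
    fin_cases i
    exacts [hx0, hx1, hx2, hx3]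
  have hdim : Module.finrank ℝ (Fin 4 → ℝ) = Module.finrank ℝ C2 := by
    rw [Module.finrank_pi_fintype, Module.finrank_pi_fintype]
    simp [Complex.finrank_real_complex]
  refine ⟨(LinearEquiv.ofInjectiveOfFinrankEq g hinj hdim).toContinuousLinearEquiv, fun m => ?_⟩
  show g (fun i => (m i : ℝ)) = _
  rw [hg]
  funext i
  fin_cases i
  · simp
  · simp

/-! ### Wirtinger derivatives in real coordinates -/

/-- coefficients of `∂ / ∂ z_a` in real coordinates -/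
private noncomputable def fouB_A (φ : (Fin 4 → ℝ) ≃L[ℝ] C2) (a : Fin 2) (j : Fin 4) : ℂ :=
  ((φ.symm (Pi.single a 1) j : ℂ) - I * (φ.symm (Pi.single a I) j : ℂ)) / 2

private theorem fouB_conj_A (φ : (Fin 4 → ℝ) ≃L[ℝ] C2) (a : Fin 2) (j : Fin 4) :
    (starRingEnd ℂ) (fouB_A φ a j) =
      ((φ.symm (Pi.single a 1) j : ℂ) + I * (φ.symm (Pi.single a I) j : ℂ)) / 2 := by
  unfold fouB_A
  rw [map_div₀, map_sub, map_mul, Complex.conj_ofReal, Complex.conj_ofReal, Complex.conj_I,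
    Complex.conj_ofNat]
  ring

private theorem fouB_dz (φ : (Fin 4 → ℝ) ≃L[ℝ] C2) (f : (Fin 4 → ℝ) → ℂ) (z : C2)
    (hf : DifferentiableAt ℝ f (φ.symm z)) (a : Fin 2) :
    Dz a (fun w => f (φ.symm w)) z =
      ∑ j, fouB_A φ a j * fderiv ℝ f (φ.symm z) (Pi.single j 1) ∧
    Dzb a (fun w => f (φ.symm w)) z =
      ∑ j, (starRingEnd ℂ) (fouB_A φ a j) * fderiv ℝ f (φ.symm z) (Pi.single j 1) := by
  have h : ∀ v, fderiv ℝ (fun w => f (φ.symm w)) z v =
      ∑ j, ((φ.symm v j : ℝ) : ℂ) * fderiv ℝ f (φ.symm z) (Pi.single j 1) := by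
    intro v
    have h1 : HasFDerivAt (fun w => f (φ.symm w))
        ((fderiv ℝ f (φ.symm z)).comp (φ.symm : C2 →L[ℝ] (Fin 4 → ℝ))) z :=
      hf.hasFDerivAt.comp z φ.symm.hasFDerivAt
    rw [h1.fderiv, ContinuousLinearMap.comp_apply, fouB_lin]
    rfl
  constructor
  · unfold Dz
    rw [h, h, Finset.mul_sum, ← Finset.sum_sub_distrib, Finset.sum_div]
    refine Finset.sum_congr rfl fun j _ => ?_
    unfold fouB_A
    ring
  · unfold Dzb
    rw [h, h, Finset.mul_sum, ← Finset.sum_add_distrib, Finset.sum_div]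
    refine Finset.sum_congr rfl fun j _ => ?_
    rw [fouB_conj_A]
    ring

/-- the symbols -/
private noncomputable def fouB_z (φ : (Fin 4 → ℝ) ≃L[ℝ] C2) (a : Fin 2) (n : Fin 4 → ℤ) : ℂ :=
  ∑ j, fouB_A φ a j * (n j : ℂ)

private theorem fouB_conj_z (φ : (Fin 4 → ℝ) ≃L[ℝ] C2) (a : Fin 2) (n : Fin 4 → ℤ) :
    (starRingEnd ℂ) (fouB_z φ a n) = ∑ j, (starRingEnd ℂ) (fouB_A φ a j) * (n j : ℂ) := by
  unfold fouB_z
  rw [map_sum]
  exact Finset.sum_congr rfl fun j _ => by rw [map_mul, map_intCast]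

private theorem fouB_pair (φ : (Fin 4 → ℝ) ≃L[ℝ] C2) (n : Fin 4 → ℤ) (z : C2) :
    ∑ i, (n i : ℝ) * φ.symm z i = 2 * (fouB_z φ 0 n * z 0 + fouB_z φ 1 n * z 1).re := by
  have h1 : z = (z 0).re • (Pi.single 0 1 : C2) + (z 0).im • (Pi.single 0 I : C2) +
      ((z 1).re • (Pi.single 1 1 : C2) + (z 1).im • (Pi.single 1 I : C2)) := by
    funext i
    fin_cases i
    · simp [Complex.re_add_im]
    · simp [Complex.re_add_im]
  have h2 : ∀ i, φ.symm z i = (z 0).re * φ.symm (Pi.single 0 1) i +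
      (z 0).im * φ.symm (Pi.single 0 I) i + ((z 1).re * φ.symm (Pi.single 1 1) i +
      (z 1).im * φ.symm (Pi.single 1 I) i) := by
    intro i
    conv_lhs => rw [h1]
    rw [map_add, map_add, map_add, map_smul, map_smul, map_smul, map_smul]
    rfl
  have h3 : ∀ a : Fin 2, fouB_z φ a n = (((∑ i, (n i : ℝ) * φ.symm (Pi.single a 1) i : ℝ) : ℂ) -
      I * ((∑ i, (n i : ℝ) * φ.symm (Pi.single a I) i : ℝ) : ℂ)) / 2 := by
    intro a
    unfold fouB_z fouB_A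
    push_cast
    rw [Finset.mul_sum, ← Finset.sum_sub_distrib, Finset.sum_div]
    refine Finset.sum_congr rfl fun j _ => ?_
    ring
  have h4 : ∑ i, (n i : ℝ) * φ.symm z i =
      (z 0).re * (∑ i, (n i : ℝ) * φ.symm (Pi.single 0 1) i) +
      (z 0).im * (∑ i, (n i : ℝ) * φ.symm (Pi.single 0 I) i) +
      ((z 1).re * (∑ i, (n i : ℝ) * φ.symm (Pi.single 1 1) i) +
      (z 1).im * (∑ i, (n i : ℝ) * φ.symm (Pi.single 1 I) i)) := by
    simp only [Finset.mul_sum, ← Finset.sum_add_distrib]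
    refine Finset.sum_congr rfl fun i _ => ?_
    rw [h2]
    ring
  rw [h4, h3, h3]
  obtain ⟨p0, hp0⟩ : ∃ p : ℝ, p = ∑ i, (n i : ℝ) * φ.symm (Pi.single 0 1) i := ⟨_, rfl⟩
  obtain ⟨q0, hq0⟩ : ∃ p : ℝ, p = ∑ i, (n i : ℝ) * φ.symm (Pi.single 0 I) i := ⟨_, rfl⟩
  obtain ⟨p1, hp1⟩ : ∃ p : ℝ, p = ∑ i, (n i : ℝ) * φ.symm (Pi.single 1 1) i := ⟨_, rfl⟩
  obtain ⟨q1, hq1⟩ : ∃ p : ℝ, p = ∑ i, (n i : ℝ) * φ.symm (Pi.single 1 I) i := ⟨_, rfl⟩
  rw [← hp0, ← hq0, ← hp1, ← hq1]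
  have h5 : ∀ (p q : ℝ) (w : ℂ), ((((p : ℂ) - I * (q : ℂ)) / 2) * w).re =
      (w.re * p + w.im * q) / 2 := by
    intro p q w
    have h6 : (((p : ℂ) - I * (q : ℂ)) / 2) * w = (((p : ℂ) - I * (q : ℂ)) * w) / (2 : ℝ) := by
      push_cast
      ring
    rw [h6, Complex.div_ofReal_re]
    simp
    ring
  rw [Complex.add_re, h5, h5]
  ring

private theorem fouB_bound (φ : (Fin 4 → ℝ) ≃L[ℝ] C2) : ∃ C : ℝ, 0 ≤ C ∧
    ∀ n : Fin 4 → ℤ, ‖n‖ ≤ C * (‖fouB_z φ 0 n‖ + ‖fouB_z φ 1 n‖) := by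
  refine ⟨2 * ∑ j, ‖φ (Pi.single j 1)‖, by positivity, fun n => ?_⟩
  rw [pi_norm_le_iff_of_nonneg (by positivity)]
  intro j
  have h1 := fouB_pair φ n (φ (Pi.single j 1))
  rw [ContinuousLinearEquiv.symm_apply_apply, Finset.sum_eq_single j (fun i _ hi => by
    rw [Pi.single_eq_of_ne hi, mul_zero]) (fun h => absurd (Finset.mem_univ j) h),
    Pi.single_eq_same, mul_one] at h1
  rw [Int.norm_eq_abs, h1, abs_mul, abs_two]
  obtain ⟨w, hw⟩ : ∃ w : C2, w = φ (Pi.single j 1) := ⟨_, rfl⟩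
  rw [← hw]
  have h2 : |(fouB_z φ 0 n * w 0 + fouB_z φ 1 n * w 1).re| ≤
      (‖fouB_z φ 0 n‖ + ‖fouB_z φ 1 n‖) * ‖w‖ := by
    refine (Complex.abs_re_le_norm _).trans ((norm_add_le _ _).trans ?_)
    rw [norm_mul, norm_mul, add_mul]
    exact add_le_add (mul_le_mul_of_nonneg_left (norm_le_pi_norm w 0) (norm_nonneg _))
      (mul_le_mul_of_nonneg_left (norm_le_pi_norm w 1) (norm_nonneg _))
  have h3 : ‖w‖ ≤ ∑ j, ‖φ (Pi.single j 1)‖ := by
    rw [hw]
    exact Finset.single_le_sum (f := fun j => ‖φ (Pi.single j (1 : ℝ))‖)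
      (fun i _ => norm_nonneg _) (Finset.mem_univ j)
  have h4 : (‖fouB_z φ 0 n‖ + ‖fouB_z φ 1 n‖) * ‖w‖ ≤
      (‖fouB_z φ 0 n‖ + ‖fouB_z φ 1 n‖) * ∑ j, ‖φ (Pi.single j 1)‖ :=
    mul_le_mul_of_nonneg_left h3 (by positivity)
  linarith

private theorem fouB_fco_lin {F : (Fin 4 → ℝ) → ℂ} (hF : ContDiff ℝ ∞ F) (hp : Per4 F)
    (A : Fin 4 → ℂ) (n : Fin 4 → ℤ) :
    fco (fun x => ∑ j, A j * fderiv ℝ F x (Pi.single j 1)) n =
      2 * Real.pi * I * (∑ j, A j * (n j : ℂ)) * fco F n := by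
  have hc : ∀ j : Fin 4, Continuous fun x => fderiv ℝ F x (Pi.single j (1 : ℝ)) := fun j =>
    (hF.continuous_fderiv (by norm_num)).clm_apply continuous_const
  have he : Continuous fun x : Fin 4 → ℝ =>
      cexp (-(2 * Real.pi * I * ((∑ i, (n i : ℝ) * x i : ℝ) : ℂ))) := by
    fun_prop
  have h1 : fco (fun x => ∑ j, A j * fderiv ℝ F x (Pi.single j 1)) n =
      ∑ j, A j * fco (fun x => fderiv ℝ F x (Pi.single j 1)) n := by
    unfold fco
    simp only [Finset.sum_mul, mul_assoc]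
    rw [MeasureTheory.integral_finset_sum]
    · refine Finset.sum_congr rfl fun j _ => ?_
      rw [MeasureTheory.integral_const_mul]
    · intro j _
      have h2 : Continuous fun x : Fin 4 → ℝ => A j * (fderiv ℝ F x (Pi.single j 1) *
          cexp (-(2 * Real.pi * I * ((∑ i, (n i : ℝ) * x i : ℝ) : ℂ)))) :=
        continuous_const.mul ((hc j).mul he)
      have h3 := (h2.continuousOn (s := Icc (0 : Fin 4 → ℝ) 1)).integrableOn_compact
        (μ := MeasureTheory.volume) isCompact_Icc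
      rw [MeasureTheory.IntegrableOn] at h3
      simpa only [mul_assoc] using h3
  rw [h1, Finset.mul_sum, Finset.sum_mul]
  refine Finset.sum_congr rfl fun j _ => ?_
  rw [fco_deriv (hF.of_le (by norm_num)) hp j n]
  ring

private theorem fouB_half {F G : C2 → ℂ} {z : C2} (hF : DifferentiableAt ℝ F z)
    (hG : DifferentiableAt ℝ G z) (a : Fin 2) :
    Dz a (fun w => (F w + G w) / 2) z = (Dz a F z + Dz a G z) / 2 ∧
    Dzb a (fun w => (F w + G w) / 2) z = (Dzb a F z + Dzb a G z) / 2 := by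
  have h1 : HasFDerivAt (fun w => (F w + G w) / 2) ((2 : ℂ)⁻¹ • (fderiv ℝ F z + fderiv ℝ G z)) z := by
    have h2 := (hF.hasFDerivAt.add hG.hasFDerivAt).const_mul (2 : ℂ)⁻¹
    refine h2.congr_of_eventuallyEq (Eventually.of_forall fun w => ?_)
    show (F w + G w) / 2 = 2⁻¹ * (F w + G w)
    ring
  constructor
  · unfold Dz
    rw [h1.fderiv]
    simp only [ContinuousLinearMap.smul_apply, ContinuousLinearMap.add_apply, smul_eq_mul]
    ring
  · unfold Dzb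
    rw [h1.fderiv]
    simp only [ContinuousLinearMap.smul_apply, ContinuousLinearMap.add_apply, smul_eq_mul]
    ring

/-- The `∂∂̄`-lemma on the torus.
PROOF: with `φ` of `exists_coord4`, `Dz a F = ∑ j A a j ∂_j`, `Dzb a F = ∑ j conj (A a j) ∂_j` in the coordinates `x`.  The coefficients
`Θ^ a b n` satisfy `ζ_c Θ^ a b = ζ_a Θ^ c b`, `conj ζ_c Θ^ a b = conj ζ_b Θ^ a c` with `ζ_a (n) = ∑ j A a j n_j`, and `ζ (n) ≠ 0`,
`|ζ (n)| ≥ c ‖n‖` for `n ≠ 0` (the real functional `n · φ⁻¹ z` is `2 Re ∑ ζ_a z_a`).  So for `n ≠ 0`,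
`Θ^ a b n = (2 π i)² ζ_a conj ζ_b v n`, `v n = ∑ conj ζ_a ζ_b Θ^ a b n / ((2 π i)² |ζ|⁴)`, `‖v n‖ ≤ C ‖n‖⁻² ∑ ‖Θ^ a b n‖`.
Take `V = ∑_{n ≠ 0} v n exp (2 π i n · x)` (`fseries_c2`), `v = Re V ∘ φ⁻¹`; compare the absolutely
convergent series (`fco_hasSum`), and take the Hermitian part. -/
theorem ddbar {Θ : Fin 2 → Fin 2 → C2 → ℂ} (h1 : ∀ a b, ContDiff ℝ ∞ (Θ a b))
    (h2 : ∀ a b z, ∀ x ∈ S.Lat, Θ a b (z + x) = Θ a b z)
    (h3 : ∀ a b z, (starRingEnd ℂ) (Θ a b z) = Θ b a z)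
    (h4 : ∀ a b c z, Dz c (Θ a b) z = Dz a (Θ c b) z)
    (h5 : ∀ a b c z, Dzb c (Θ a b) z = Dzb b (Θ a c) z) :
    ∃ (H : Matrix (Fin 2) (Fin 2) ℂ) (v : C2 → ℝ), H.IsHermitian ∧ ContDiff ℝ 2 v ∧
      (∀ z, ∀ x ∈ S.Lat, v (z + x) = v z) ∧
      ∀ a b z, Θ a b z = H a b + Dz a (Dzb b (fun w => ((v w : ℝ) : ℂ))) z := by
  obtain ⟨φ, hφ⟩ := S.exists_coord4
  have hlat : ∀ m : Fin 4 → ℤ, φ (fun i => (m i : ℝ)) ∈ S.Lat := fun m => ⟨_, _, hφ m⟩
  obtain ⟨F, hFdef⟩ : ∃ F : Fin 2 → Fin 2 → (Fin 4 → ℝ) → ℂ, ∀ a b x, F a b x = Θ a b (φ x) :=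
    ⟨_, fun _ _ _ => rfl⟩
  have hF : ∀ a b, ContDiff ℝ ∞ (F a b) := by
    intro a b
    have e : F a b = fun x => Θ a b (φ x) := funext fun x => hFdef a b x
    rw [e]
    exact (h1 a b).comp φ.contDiff
  have hFp : ∀ a b, Per4 (F a b) := by
    intro a b x m
    rw [hFdef, hFdef, map_add]
    exact h2 a b _ _ (hlat m)
  have hΘF : ∀ a b, Θ a b = fun w => F a b (φ.symm w) := by
    intro a b
    funext w
    rw [hFdef, ContinuousLinearEquiv.apply_symm_apply]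
  have hFd : ∀ a b x, DifferentiableAt ℝ (F a b) x := fun a b x =>
    ((hF a b).differentiable (by norm_num)).differentiableAt
  obtain ⟨t, ht⟩ : ∃ t : Fin 2 → Fin 2 → (Fin 4 → ℤ) → ℂ, ∀ a b n, t a b n = fco (F a b) n :=
    ⟨_, fun _ _ _ => rfl⟩
  have hpi : (2 * Real.pi * I : ℂ) ≠ 0 := Complex.two_pi_I_ne_zero
  -- relations between the coefficients
  have R1 : ∀ a b c n, fouB_z φ c n * t a b n = fouB_z φ a n * t c b n := by
    intro a b c n
    have e1 : (fun x => ∑ j, fouB_A φ c j * fderiv ℝ (F a b) x (Pi.single j 1)) =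
        fun x => ∑ j, fouB_A φ a j * fderiv ℝ (F c b) x (Pi.single j 1) := by
      funext x
      have e2 := h4 a b c (φ x)
      rw [hΘF a b, hΘF c b, (fouB_dz φ _ _ (hFd a b _) c).1, (fouB_dz φ _ _ (hFd c b _) a).1,
        ContinuousLinearEquiv.symm_apply_apply] at e2
      exact e2
    have e3 := fouB_fco_lin (hF a b) (hFp a b) (fouB_A φ c) n
    rw [e1, fouB_fco_lin (hF c b) (hFp c b) (fouB_A φ a) n, ← ht, ← ht] at e3
    refine mul_left_cancel₀ hpi ?_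
    unfold fouB_z
    linear_combination -e3
  have R2 : ∀ a b c n, (starRingEnd ℂ) (fouB_z φ c n) * t a b n =
      (starRingEnd ℂ) (fouB_z φ b n) * t a c n := by
    intro a b c n
    have e1 : (fun x => ∑ j, (starRingEnd ℂ) (fouB_A φ c j) * fderiv ℝ (F a b) x (Pi.single j 1)) =
        fun x => ∑ j, (starRingEnd ℂ) (fouB_A φ b j) * fderiv ℝ (F a c) x (Pi.single j 1) := by
      funext x
      have e2 := h5 a b c (φ x)
      rw [hΘF a b, hΘF a c, (fouB_dz φ _ _ (hFd a b _) c).2, (fouB_dz φ _ _ (hFd a c _) b).2,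
        ContinuousLinearEquiv.symm_apply_apply] at e2
      exact e2
    have e3 := fouB_fco_lin (hF a b) (hFp a b) (fun j => (starRingEnd ℂ) (fouB_A φ c j)) n
    rw [e1, fouB_fco_lin (hF a c) (hFp a c) (fun j => (starRingEnd ℂ) (fouB_A φ b j)) n, ← ht, ← ht,
      ← fouB_conj_z, ← fouB_conj_z] at e3
    refine mul_left_cancel₀ hpi ?_
    linear_combination -e3
  obtain ⟨N, hN⟩ : ∃ N : (Fin 4 → ℤ) → ℝ, ∀ n, N n = ‖fouB_z φ 0 n‖ ^ 2 + ‖fouB_z φ 1 n‖ ^ 2 :=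
    ⟨_, fun _ => rfl⟩
  obtain ⟨C, hC0, hC⟩ := fouB_bound φ
  have hN0 : ∀ n : Fin 4 → ℤ, n ≠ 0 → 0 < N n := by
    intro n hn
    have e1 : 0 < ‖n‖ := norm_pos_iff.2 hn
    rw [hN]
    by_contra hcon
    have e2 : ‖fouB_z φ 0 n‖ ^ 2 = 0 := by
      have := sq_nonneg ‖fouB_z φ 0 n‖
      have := sq_nonneg ‖fouB_z φ 1 n‖
      linarith
    have e3 : ‖fouB_z φ 1 n‖ ^ 2 = 0 := by
      have := sq_nonneg ‖fouB_z φ 0 n‖
      have := sq_nonneg ‖fouB_z φ 1 n‖
      linarith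
    have e4 : ‖fouB_z φ 0 n‖ = 0 := by
      exact pow_eq_zero_iff (two_ne_zero) |>.1 e2
    have e5 : ‖fouB_z φ 1 n‖ = 0 := by
      exact pow_eq_zero_iff (two_ne_zero) |>.1 e3
    have e6 := hC n
    rw [e4, e5, add_zero, mul_zero] at e6
    linarith
  have hNC : ∀ n, (N n : ℂ) = fouB_z φ 0 n * (starRingEnd ℂ) (fouB_z φ 0 n) +
      fouB_z φ 1 n * (starRingEnd ℂ) (fouB_z φ 1 n) := by
    intro n
    rw [Complex.mul_conj, Complex.mul_conj, Complex.normSq_eq_norm_sq, Complex.normSq_eq_norm_sq, hN]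
    push_cast
    ring
  -- the coefficients of the potential
  obtain ⟨q, hq⟩ : ∃ q : (Fin 4 → ℤ) → ℂ, ∀ n, q n = ∑ a : Fin 2, ∑ b : Fin 2,
      (starRingEnd ℂ) (fouB_z φ a n) * fouB_z φ b n * t a b n := ⟨_, fun _ => rfl⟩
  obtain ⟨v, hv⟩ : ∃ v : (Fin 4 → ℤ) → ℂ, ∀ n, v n = if n = 0 then 0 else
      q n / ((2 * Real.pi * I) ^ 2 * (N n : ℂ) ^ 2) := ⟨_, fun _ => rfl⟩
  have R3 : ∀ a b n, n ≠ 0 → (2 * Real.pi * I) ^ 2 * (fouB_z φ a n * (starRingEnd ℂ) (fouB_z φ b n)) *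
      v n = t a b n := by
    intro a b n hn
    have hNn : (N n : ℂ) ≠ 0 := by
      have := (hN0 n hn).ne'
      exact_mod_cast this
    have key : ∀ c d, fouB_z φ a n * (starRingEnd ℂ) (fouB_z φ b n) * t c d n =
        fouB_z φ c n * (starRingEnd ℂ) (fouB_z φ d n) * t a b n := by
      intro c d
      linear_combination (starRingEnd ℂ) (fouB_z φ b n) * R1 c d a n +
        fouB_z φ c n * R2 a d b n
    have e1 : fouB_z φ a n * (starRingEnd ℂ) (fouB_z φ b n) * q n = (N n : ℂ) ^ 2 * t a b n := by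
      rw [hq, hNC]
      simp only [Fin.sum_univ_two]
      linear_combination ((starRingEnd ℂ) (fouB_z φ 0 n) * fouB_z φ 0 n) * key 0 0 +
        ((starRingEnd ℂ) (fouB_z φ 0 n) * fouB_z φ 1 n) * key 0 1 +
        ((starRingEnd ℂ) (fouB_z φ 1 n) * fouB_z φ 0 n) * key 1 0 +
        ((starRingEnd ℂ) (fouB_z φ 1 n) * fouB_z φ 1 n) * key 1 1
    rw [hv, if_neg hn, ← mul_div_assoc, div_eq_iff (mul_ne_zero (pow_ne_zero 2 hpi)
      (pow_ne_zero 2 hNn))]
    linear_combination (2 * Real.pi * I) ^ 2 * e1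
  have hts : ∀ a b, Summable fun n => ‖t a b n‖ := by
    intro a b
    have e := fco_summable (hF a b) (hFp a b)
    simpa only [← ht] using e
  have hvs : Summable fun n : Fin 4 → ℤ => ‖n‖ ^ 2 * ‖v n‖ := by
    have hsum : Summable fun n => C ^ 2 * (∑ a : Fin 2, ∑ b : Fin 2, ‖t a b n‖) :=
      (summable_sum fun a _ => summable_sum fun b _ => hts a b).mul_left _
    refine Summable.of_nonneg_of_le (fun n => by positivity) (fun n => ?_) hsum
    by_cases hn : n = 0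
    · rw [hv, if_pos hn, norm_zero, mul_zero]
      positivity
    · have hNn := hN0 n hn
      rw [hv, if_neg hn, norm_div, norm_mul, norm_pow, norm_pow, Complex.norm_real,
        Real.norm_of_nonneg hNn.le]
      have g1 : 1 ≤ ‖(2 * Real.pi * I : ℂ)‖ ^ 2 / 2 := by
        rw [norm_mul, norm_mul, Complex.norm_I, Complex.norm_real, Complex.norm_ofNat,
          Real.norm_of_nonneg Real.pi_pos.le]
        have := Real.pi_gt_three
        nlinarith
      have g2 : ‖q n‖ ≤ N n * ∑ a : Fin 2, ∑ b : Fin 2, ‖t a b n‖ := by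
        rw [hq, Finset.mul_sum]
        refine (norm_sum_le _ _).trans (Finset.sum_le_sum fun a _ => ?_)
        rw [Finset.mul_sum]
        refine (norm_sum_le _ _).trans (Finset.sum_le_sum fun b _ => ?_)
        rw [norm_mul, norm_mul, RCLike.norm_conj]
        refine mul_le_mul_of_nonneg_right ?_ (norm_nonneg _)
        have k1 : ∀ c : Fin 2, ‖fouB_z φ c n‖ ^ 2 ≤ N n := by
          intro c
          rw [hN]
          fin_cases c
          · show ‖fouB_z φ 0 n‖ ^ 2 ≤ _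
            have := sq_nonneg ‖fouB_z φ 1 n‖
            linarith
          · show ‖fouB_z φ 1 n‖ ^ 2 ≤ _
            have := sq_nonneg ‖fouB_z φ 0 n‖
            linarith
        have k2 := k1 a
        have k3 := k1 b
        nlinarith [sq_nonneg (‖fouB_z φ a n‖ - ‖fouB_z φ b n‖)]
      have g3 : ‖n‖ ^ 2 ≤ 2 * C ^ 2 * N n := by
        have k1 := hC n
        have k2 : ‖n‖ ^ 2 ≤ (C * (‖fouB_z φ 0 n‖ + ‖fouB_z φ 1 n‖)) ^ 2 :=
          pow_le_pow_left₀ (norm_nonneg _) k1 2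
        refine k2.trans ?_
        rw [hN, mul_pow]
        have k3 : (‖fouB_z φ 0 n‖ + ‖fouB_z φ 1 n‖) ^ 2 ≤
            2 * (‖fouB_z φ 0 n‖ ^ 2 + ‖fouB_z φ 1 n‖ ^ 2) := by
          nlinarith [sq_nonneg (‖fouB_z φ 0 n‖ - ‖fouB_z φ 1 n‖)]
        have k4 := mul_le_mul_of_nonneg_left k3 (sq_nonneg C)
        linarith
      obtain ⟨X, hX⟩ : ∃ X : ℝ, X = ∑ a : Fin 2, ∑ b : Fin 2, ‖t a b n‖ := ⟨_, rfl⟩
      have hX0 : 0 ≤ X := by rw [hX]; positivity
      rw [← hX] at g2 ⊢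
      obtain ⟨P, hP⟩ : ∃ P : ℝ, P = ‖(2 * Real.pi * I : ℂ)‖ ^ 2 := ⟨_, rfl⟩
      rw [← hP] at g1 ⊢
      have hP0 : 0 < P := by linarith
      rw [← mul_div_assoc, div_le_iff₀ (by positivity)]
      calc ‖n‖ ^ 2 * ‖q n‖ ≤ (2 * C ^ 2 * N n) * (N n * X) :=
            mul_le_mul g3 g2 (norm_nonneg _) (by positivity)
        _ = (C ^ 2 * X * N n ^ 2) * 2 := by ring
        _ ≤ (C ^ 2 * X * N n ^ 2) * P := mul_le_mul_of_nonneg_left (by linarith) (by positivity)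
        _ = C ^ 2 * X * (P * N n ^ 2) := by ring
  obtain ⟨V, hV2, hVp, -, hVs⟩ := fseries_c2 v hvs
  have hVd : ∀ x, DifferentiableAt ℝ V x := fun x =>
    (hV2.differentiable (by norm_num)).differentiableAt
  have hV1 : ∀ j : Fin 4, Differentiable ℝ fun y => fderiv ℝ V y (Pi.single j (1 : ℝ)) := by
    intro j
    have e1 : ContDiff ℝ 1 (fderiv ℝ V) := hV2.fderiv_right (by norm_num)
    exact (e1.clm_apply contDiff_const).differentiable (by norm_num)
  obtain ⟨W, hW⟩ : ∃ W : C2 → ℂ, W = fun w => V (φ.symm w) := ⟨_, rfl⟩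
  have hW2 : ContDiff ℝ 2 W := by
    rw [hW]
    exact hV2.comp φ.symm.contDiff
  have hWd : ∀ z, DifferentiableAt ℝ W z := fun z =>
    (hW2.differentiable (by norm_num)).differentiableAt
  have hDb : ∀ b, Dzb b W = fun w => (fun x => ∑ j, (starRingEnd ℂ) (fouB_A φ b j) *
      fderiv ℝ V x (Pi.single j 1)) (φ.symm w) := by
    intro b
    funext w
    rw [hW]
    exact (fouB_dz φ V w (hVd _) b).2
  have hD : ∀ b, Dz b W = fun w => (fun x => ∑ j, fouB_A φ b j *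
      fderiv ℝ V x (Pi.single j 1)) (φ.symm w) := by
    intro b
    funext w
    rw [hW]
    exact (fouB_dz φ V w (hVd _) b).1
  have hlin : ∀ (A : Fin 4 → ℂ), Differentiable ℝ (fun x => ∑ j, A j *
      fderiv ℝ V x (Pi.single j 1)) := by
    intro A
    exact Differentiable.fun_sum fun j _ => (hV1 j).const_mul (A j)
  have hDbd : ∀ b, Differentiable ℝ (Dzb b W) := by
    intro b
    rw [hDb]
    exact (hlin _).comp φ.symm.differentiable
  have hDd : ∀ b, Differentiable ℝ (Dz b W) := by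
    intro b
    rw [hD]
    exact (hlin _).comp φ.symm.differentiable
  have key : ∀ a b z, Dz a (Dzb b W) z = Θ a b z - t a b 0 := by
    intro a b z
    obtain ⟨x, hx⟩ : ∃ x, x = φ.symm z := ⟨_, rfl⟩
    rw [hDb b, (fouB_dz φ _ z ((hlin _) _) a).1, ← hx]
    have e1 : ∀ k : Fin 4, fderiv ℝ (fun x => ∑ j, (starRingEnd ℂ) (fouB_A φ b j) *
        fderiv ℝ V x (Pi.single j 1)) x (Pi.single k 1) = ∑ j, (starRingEnd ℂ) (fouB_A φ b j) *
        fderiv ℝ (fun y => fderiv ℝ V y (Pi.single j 1)) x (Pi.single k 1) := by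
      intro k
      have e2 : HasFDerivAt (fun x => ∑ j, (starRingEnd ℂ) (fouB_A φ b j) *
          fderiv ℝ V x (Pi.single j 1)) (∑ j, (starRingEnd ℂ) (fouB_A φ b j) •
          fderiv ℝ (fun y => fderiv ℝ V y (Pi.single j 1)) x) x :=
        HasFDerivAt.fun_sum fun j _ => ((hV1 j) x).hasFDerivAt.const_mul _
      rw [e2.fderiv, ContinuousLinearMap.sum_apply]
      rfl
    simp only [e1]
    have s1 : HasSum (fun n : Fin 4 → ℤ => ∑ k, fouB_A φ a k * ∑ j,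
        (starRingEnd ℂ) (fouB_A φ b j) * ((2 * Real.pi * I * (n j : ℂ)) *
          (2 * Real.pi * I * (n k : ℂ)) * v n *
            cexp (2 * Real.pi * I * ((∑ i, (n i : ℝ) * x i : ℝ) : ℂ))))
        (∑ k, fouB_A φ a k * ∑ j, (starRingEnd ℂ) (fouB_A φ b j) *
          fderiv ℝ (fun y => fderiv ℝ V y (Pi.single j 1)) x (Pi.single k 1)) :=
      hasSum_sum fun k _ => (hasSum_sum fun j _ => (hVs x j k).mul_left _).mul_left _
    have s2 := (fco_hasSum (hF a b) (hFp a b) x).sub (hasSum_ite_eq (0 : Fin 4 → ℤ) (t a b 0))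
    have e3 : (fun n : Fin 4 → ℤ => ∑ k, fouB_A φ a k * ∑ j,
        (starRingEnd ℂ) (fouB_A φ b j) * ((2 * Real.pi * I * (n j : ℂ)) *
          (2 * Real.pi * I * (n k : ℂ)) * v n *
            cexp (2 * Real.pi * I * ((∑ i, (n i : ℝ) * x i : ℝ) : ℂ)))) =
        fun n => fco (F a b) n * cexp (2 * Real.pi * I * ((∑ i, (n i : ℝ) * x i : ℝ) : ℂ)) -
          (if n = 0 then t a b 0 else 0) := by
      funext n
      obtain ⟨E, hE⟩ : ∃ E : ℂ, E = cexp (2 * Real.pi * I * ((∑ i, (n i : ℝ) * x i : ℝ) : ℂ)) :=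
        ⟨_, rfl⟩
      rw [← hE]
      have e4 : ∑ k, fouB_A φ a k * ∑ j, (starRingEnd ℂ) (fouB_A φ b j) *
          ((2 * Real.pi * I * (n j : ℂ)) * (2 * Real.pi * I * (n k : ℂ)) * v n * E) =
          (2 * Real.pi * I) ^ 2 * (fouB_z φ a n * (starRingEnd ℂ) (fouB_z φ b n)) * v n * E := by
        rw [fouB_conj_z]
        unfold fouB_z
        rw [Finset.sum_mul_sum]
        simp only [Finset.mul_sum, Finset.sum_mul]
        refine Finset.sum_congr rfl fun k _ => Finset.sum_congr rfl fun j _ => ?_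
        ring
      rw [e4]
      by_cases hn : n = 0
      · rw [if_pos hn, hv, if_pos hn, mul_zero, zero_mul, ← ht, hn]
        rw [hn] at hE
        have e5 : E = 1 := by
          rw [hE]
          simp
        rw [e5, mul_one, sub_self]
      · rw [if_neg hn, sub_zero, R3 a b n hn, ht]
    rw [e3] at s1
    have e6 := s1.unique s2
    rw [e6, hFdef, hx, ContinuousLinearEquiv.apply_symm_apply]
  -- the conjugate
  have conj_dz' : ∀ (G : C2 → ℂ) (a : Fin 2) (z : C2),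
      Dz a (fun w => (starRingEnd ℂ) (G w)) z = (starRingEnd ℂ) (Dzb a G z) := by
    intro G a z
    have e1 := conj_dz (fun w => (starRingEnd ℂ) (G w)) a z
    simp only [Complex.conj_conj] at e1
    rw [← e1, Complex.conj_conj]
  have key2 : ∀ a b z, Dz a (fun w => (starRingEnd ℂ) (Dz b W w)) z =
      Θ a b z - (starRingEnd ℂ) (t b a 0) := by
    intro a b z
    rw [conj_dz', ← (dz_comm isOpen_univ hW2.contDiffOn b a (mem_univ z)).2.2, key, map_sub, h3]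
  refine ⟨Matrix.of fun a b => (t a b 0 + (starRingEnd ℂ) (t b a 0)) / 2, fun z => (W z).re, ?_, ?_,
    ?_, ?_⟩
  · ext a b
    show star ((t b a 0 + (starRingEnd ℂ) (t a b 0)) / 2) = (t a b 0 + (starRingEnd ℂ) (t b a 0)) / 2
    rw [← starRingEnd_apply, map_div₀, map_add, Complex.conj_conj, Complex.conj_ofNat, add_comm]
  · exact Complex.reCLM.contDiff.comp hW2
  · rintro z x ⟨p, r, hx⟩
    have e1 : x = φ (fun i => ((![p 0, p 1, r 0, r 1] : Fin 4 → ℤ) i : ℝ)) := by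
      have g1 : ∀ p : Z2, (![p 0, p 1] : Z2) = p := by
        intro p
        funext i
        fin_cases i <;> rfl
      rw [hφ, hx]
      show S.tv p + S.dv r = S.tv ![p 0, p 1] + S.dv ![r 0, r 1]
      rw [g1, g1]
    show (W (z + x)).re = (W z).re
    rw [hW]
    show (V (φ.symm (z + x))).re = (V (φ.symm z)).re
    rw [map_add, e1, ContinuousLinearEquiv.symm_apply_apply, hVp]
  · intro a b z
    have e1 : (fun w => (((W w).re : ℝ) : ℂ)) = fun w => (W w + (starRingEnd ℂ) (W w)) / 2 := by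
      funext w
      rw [Complex.re_eq_add_conj]
    have hcd : ∀ (G : C2 → ℂ), Differentiable ℝ G →
        Differentiable ℝ fun w => (starRingEnd ℂ) (G w) := fun G hG =>
      Complex.conjCLE.differentiable.comp hG
    have e2 : Dzb b (fun w => (((W w).re : ℝ) : ℂ)) =
        fun w => (Dzb b W w + (starRingEnd ℂ) (Dz b W w)) / 2 := by
      funext w
      rw [e1, (fouB_half (hWd w) ((hcd W fun z => hWd z) w) b).2, conj_dz W b w]
    rw [e2, (fouB_half ((hDbd b) z) ((hcd _ (hDd b)) z) a).1, key, key2]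
    show Θ a b z = (t a b 0 + (starRingEnd ℂ) (t b a 0)) / 2 + _
    ring

end PerData

end Q2T
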