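import Pool.Agent.H.MP_89f84f_ag.q2.Defs

set_option autoImplicit false

open Complex Topology Filter Asymptotics Metric Set Polynomial

namespace Q2T

/-- The ring of germs at `0` of holomorphic functions of one variable. -/
def GermRing : Subring (Germ (𝓝 (0 : ℂ)) ℂ) where
  carrier := {g | ∃ f : ℂ → ℂ, AnalyticAt ℂ f 0 ∧ (f : Germ (𝓝 (0 : ℂ)) ℂ) = g}
  mul_mem' := by
    rintro _ _ ⟨f, hf, rfl⟩ ⟨g, hg, rfl⟩
    exact ⟨f * g, hf.mul hg, rfl⟩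
  one_mem' := ⟨fun _ => 1, analyticAt_const, rfl⟩
  add_mem' := by
    rintro _ _ ⟨f, hf, rfl⟩ ⟨g, hg, rfl⟩
    exact ⟨f + g, hf.add hg, rfl⟩
  zero_mem' := ⟨fun _ => 0, analyticAt_const, rfl⟩
  neg_mem' := by
    rintro _ ⟨f, hf, rfl⟩
    exact ⟨-f, hf.neg, rfl⟩

private theorem gcdA_mul_eq_zero {f g : ℂ → ℂ} (hf : AnalyticAt ℂ f 0) (hg : AnalyticAt ℂ g 0)
    (h : ∀ᶠ z in 𝓝 (0 : ℂ), f z * g z = 0) :
    (∀ᶠ z in 𝓝 (0 : ℂ), f z = 0) ∨ ∀ᶠ z in 𝓝 (0 : ℂ), g z = 0 := by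
  rcases hf.eventually_eq_zero_or_eventually_ne_zero with h1 | h1
  · exact Or.inl h1
  · right
    have h2 : ∀ᶠ z in 𝓝[≠] (0 : ℂ), g z = 0 := by
      filter_upwards [h1, h.filter_mono nhdsWithin_le_nhds] with z hz hz'
      exact (mul_eq_zero.mp hz').resolve_left hz
    exact hg.frequently_zero_iff_eventually_zero.mp h2.frequently

/-- It is a domain (identity theorem). -/
theorem germRing_isDomain : IsDomain GermRing := by
  have : Nontrivial GermRing := by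
    refine ⟨⟨0, 1, fun h => ?_⟩⟩
    have h1 : ((0 : GermRing) : Germ (𝓝 (0 : ℂ)) ℂ) = ((1 : GermRing) : Germ (𝓝 (0 : ℂ)) ℂ) :=
      congrArg _ h
    have h2 : ((fun _ => (0 : ℂ) : ℂ → ℂ) : Germ (𝓝 (0 : ℂ)) ℂ) = ((fun _ => (1 : ℂ) : ℂ → ℂ) :
      Germ (𝓝 (0 : ℂ)) ℂ) := h1
    have h3 : (0 : ℂ) = 1 := (Germ.coe_eq.mp h2).self_of_nhds
    exact zero_ne_one h3
  have : NoZeroDivisors GermRing := by
    refine ⟨fun {a b} h => ?_⟩
    obtain ⟨a, f, hf, rfl⟩ := a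
    obtain ⟨b, g, hg, rfl⟩ := b
    have h1 : ((f * g : ℂ → ℂ) : Germ (𝓝 (0 : ℂ)) ℂ) = ((fun _ => (0 : ℂ) : ℂ → ℂ) :
      Germ (𝓝 (0 : ℂ)) ℂ) := congrArg (Subtype.val) h
    have h2 : ∀ᶠ z in 𝓝 (0 : ℂ), f z * g z = 0 := Germ.coe_eq.mp h1
    rcases gcdA_mul_eq_zero hf hg h2 with h3 | h3
    · left
      apply Subtype.ext
      exact Germ.coe_eq.mpr (h3 : f =ᶠ[𝓝 0] fun _ => 0)
    · right
      apply Subtype.ext
      exact Germ.coe_eq.mpr (h3 : g =ᶠ[𝓝 0] fun _ => 0)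
  exact NoZeroDivisors.to_isDomain _

private theorem gcdA_isUnit {f : ℂ → ℂ} (hf : AnalyticAt ℂ f 0) (h0 : f 0 ≠ 0) :
    IsUnit (⟨(f : Germ (𝓝 (0 : ℂ)) ℂ), f, hf, rfl⟩ : GermRing) := by
  refine IsUnit.of_mul_eq_one ⟨((f⁻¹ : ℂ → ℂ) : Germ (𝓝 (0 : ℂ)) ℂ), f⁻¹, hf.inv h0, rfl⟩ ?_
  apply Subtype.ext
  show ((f * f⁻¹ : ℂ → ℂ) : Germ (𝓝 (0 : ℂ)) ℂ) = ((fun _ => (1 : ℂ) : ℂ → ℂ) :
    Germ (𝓝 (0 : ℂ)) ℂ)
  refine Germ.coe_eq.mpr ?_
  filter_upwards [hf.continuousAt.eventually_ne h0] with z hz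
  exact mul_inv_cancel₀ hz

private noncomputable def gcdX : GermRing :=
  ⟨((fun z => z : ℂ → ℂ) : Germ (𝓝 (0 : ℂ)) ℂ), fun z => z, analyticAt_id, rfl⟩

private theorem gcdX_irreducible : Irreducible gcdX := by
  constructor
  · intro h
    obtain ⟨b, hb⟩ := h.exists_right_inv
    obtain ⟨b, g, hg, rfl⟩ := b
    have h1 : ((fun z => z * g z : ℂ → ℂ) : Germ (𝓝 (0 : ℂ)) ℂ) = ((fun _ => (1 : ℂ) : ℂ → ℂ) :
      Germ (𝓝 (0 : ℂ)) ℂ) := congrArg (Subtype.val) hb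
    have h2 : (0 : ℂ) * g 0 = 1 := (Germ.coe_eq.mp h1).self_of_nhds
    rw [zero_mul] at h2
    exact zero_ne_one h2
  · intro a b hab
    obtain ⟨a, f, hf, rfl⟩ := a
    obtain ⟨b, g, hg, rfl⟩ := b
    by_cases h0 : f 0 = 0
    · by_cases h1 : g 0 = 0
      · exfalso
        have h2 : ((fun z => z : ℂ → ℂ) : Germ (𝓝 (0 : ℂ)) ℂ) = ((fun z => f z * g z : ℂ → ℂ) :
          Germ (𝓝 (0 : ℂ)) ℂ) := congrArg (Subtype.val) hab
        have h3 : (fun z => z) =ᶠ[𝓝 (0 : ℂ)] fun z => f z * g z := Germ.coe_eq.mp h2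
        have h4 : HasDerivAt (fun z => f z * g z) (deriv f 0 * g 0 + f 0 * deriv g 0) 0 :=
          hf.differentiableAt.hasDerivAt.mul hg.differentiableAt.hasDerivAt
        rw [h0, h1, mul_zero, zero_mul, add_zero] at h4
        have h5 : HasDerivAt (fun z : ℂ => z) 0 0 := h4.congr_of_eventuallyEq h3
        exact zero_ne_one (h5.unique (hasDerivAt_id' (0 : ℂ)))
      · exact Or.inr (gcdA_isUnit hg h1)
    · exact Or.inl (gcdA_isUnit hf h0)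

/-- It is a principal ideal ring: every nonzero germ is `z ^ n` times a unit
(`AnalyticAt.exists_eventuallyEq_pow_smul_nonzero_iff`). -/
theorem germRing_isPrincipal : IsPrincipalIdealRing GermRing := by
  have := germRing_isDomain
  have hR : IsDiscreteValuationRing.HasUnitMulPowIrreducibleFactorization GermRing := by
    refine ⟨gcdX, gcdX_irreducible, fun {x} hx => ?_⟩
    obtain ⟨x, f, hf, rfl⟩ := x
    have h1 : ¬ ∀ᶠ z in 𝓝 (0 : ℂ), f z = 0 := by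
      intro h2
      apply hx
      apply Subtype.ext
      exact Germ.coe_eq.mpr (h2 : f =ᶠ[𝓝 0] fun _ => 0)
    obtain ⟨n, g, hg, hg0, hfg⟩ := hf.exists_eventuallyEq_pow_smul_nonzero_iff.mpr h1
    obtain ⟨v, hv⟩ := gcdA_isUnit hg hg0
    refine ⟨n, v, ?_⟩
    rw [hv]
    apply Subtype.ext
    have h3 : ((gcdX ^ n : GermRing) : Germ (𝓝 (0 : ℂ)) ℂ)
        = ((fun z => z ^ n : ℂ → ℂ) : Germ (𝓝 (0 : ℂ)) ℂ) := by
      rw [Subring.coe_pow]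
      rfl
    show ((gcdX ^ n : GermRing) : Germ (𝓝 (0 : ℂ)) ℂ) * ((g : ℂ → ℂ) : Germ (𝓝 (0 : ℂ)) ℂ) = _
    rw [h3]
    show ((fun z => z ^ n * g z : ℂ → ℂ) : Germ (𝓝 (0 : ℂ)) ℂ) = _
    refine Germ.coe_eq.mpr ?_
    filter_upwards [hfg] with z hz
    rw [hz, sub_zero, smul_eq_mul]
  have := IsDiscreteValuationRing.ofHasUnitMulPowIrreducibleFactorization hR
  infer_instance

end Q2T
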