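import Pool.Agent.H.MP_89f84f_ag.q2.GcdA

set_option autoImplicit false

open Complex Topology Filter Asymptotics Metric Set Polynomial

namespace Q2T

/-- Monic polynomials over a principal ideal domain: common divisor and Bezout identity up to a
constant. -/
private theorem gcdB_alg {R K : Type*} [CommRing R] [IsDomain R] [IsPrincipalIdealRing R]
    [Field K] [Algebra R K] [IsFractionRing R K]
    (p q : R[X]) (hp : p.Monic) (hq : q.Monic) :
    ∃ (g p' q' A B : R[X]) (c : R), c ≠ 0 ∧ p = g * p' ∧ q = g * q' ∧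
      A * p' + B * q' = C c := by
  classical
  have hinj : Function.Injective (algebraMap R K) := IsFractionRing.injective R K
  have hmapinj : Function.Injective (Polynomial.map (algebraMap R K)) :=
    Polynomial.map_injective _ hinj
  obtain ⟨h, hh⟩ : ∃ h : K[X], h = EuclideanDomain.gcd (p.map (algebraMap R K))
    (q.map (algebraMap R K)) := ⟨_, rfl⟩
  have hhp : h ∣ p.map (algebraMap R K) := by rw [hh]; exact EuclideanDomain.gcd_dvd_left _ _
  have hhq : h ∣ q.map (algebraMap R K) := by rw [hh]; exact EuclideanDomain.gcd_dvd_right _ _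
  obtain ⟨a0, b0, hbez⟩ : ∃ a0 b0 : K[X], h = p.map (algebraMap R K) * a0 +
      q.map (algebraMap R K) * b0 :=
    ⟨_, _, hh.trans (EuclideanDomain.gcd_eq_gcd_ab _ _)⟩
  have hh0 : h ≠ 0 := ne_zero_of_dvd_ne_zero ((hp.map _).ne_zero) hhp
  have hlc : h.leadingCoeff ≠ 0 := leadingCoeff_ne_zero.2 hh0
  obtain ⟨g, hg⟩ := IsIntegrallyClosed.eq_map_mul_C_of_dvd K hp hhp
  have hg' : g.map (algebraMap R K) = h * C h.leadingCoeff⁻¹ := by
    have : g.map (algebraMap R K) * C h.leadingCoeff * C h.leadingCoeff⁻¹ =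
        h * C h.leadingCoeff⁻¹ := by rw [hg]
    rwa [mul_assoc, ← C_mul, mul_inv_cancel₀ hlc, C_1, mul_one] at this
  have hgm : g.Monic := by
    apply Polynomial.monic_of_injective hinj
    rw [hg']
    exact monic_mul_leadingCoeff_inv hh0
  have hgh : g.map (algebraMap R K) ∣ h := ⟨C h.leadingCoeff, hg.symm⟩
  obtain ⟨p', hp'⟩ : g ∣ p := Monic.dvd_of_fraction_map_dvd_fraction_map (K := K)
    hp hgm (hgh.trans hhp)
  obtain ⟨q', hq'⟩ : g ∣ q := Monic.dvd_of_fraction_map_dvd_fraction_map (K := K)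
    hq hgm (hgh.trans hhq)
  have hab : (a0 * C h.leadingCoeff⁻¹) * p'.map (algebraMap R K) +
      (b0 * C h.leadingCoeff⁻¹) * q'.map (algebraMap R K) = 1 := by
    apply mul_left_cancel₀ (hgm.map (algebraMap R K)).ne_zero
    have h1 : g.map (algebraMap R K) * ((a0 * C h.leadingCoeff⁻¹) * p'.map (algebraMap R K) +
      (b0 * C h.leadingCoeff⁻¹) * q'.map (algebraMap R K)) =
      ((g * p').map (algebraMap R K) * a0 + (g * q').map (algebraMap R K) * b0) *
        C h.leadingCoeff⁻¹ := by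
      rw [Polynomial.map_mul, Polynomial.map_mul]; ring
    rw [h1, ← hp', ← hq', ← hbez, mul_one, hg']
  obtain ⟨c, hc0, hc⟩ := IsLocalization.integerNormalization_spec (nonZeroDivisors R)
    (a0 * C h.leadingCoeff⁻¹)
  obtain ⟨e, he0, he⟩ := IsLocalization.integerNormalization_spec (nonZeroDivisors R)
    (b0 * C h.leadingCoeff⁻¹)
  have hc' : (IsLocalization.integerNormalization (nonZeroDivisors R)
      (a0 * C h.leadingCoeff⁻¹)).map (algebraMap R K) =
      C (algebraMap R K c) * (a0 * C h.leadingCoeff⁻¹) := by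
    rw [← smul_eq_C_mul, algebraMap_smul]; exact hc
  have he' : (IsLocalization.integerNormalization (nonZeroDivisors R)
      (b0 * C h.leadingCoeff⁻¹)).map (algebraMap R K) =
      C (algebraMap R K e) * (b0 * C h.leadingCoeff⁻¹) := by
    rw [← smul_eq_C_mul, algebraMap_smul]; exact he
  refine ⟨g, p', q', C e * IsLocalization.integerNormalization (nonZeroDivisors R)
    (a0 * C h.leadingCoeff⁻¹), C c * IsLocalization.integerNormalization (nonZeroDivisors R)
    (b0 * C h.leadingCoeff⁻¹), c * e, mul_ne_zero (nonZeroDivisors.ne_zero hc0)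
      (nonZeroDivisors.ne_zero he0), hp', hq', ?_⟩
  apply hmapinj
  rw [Polynomial.map_add, Polynomial.map_mul, Polynomial.map_mul, Polynomial.map_mul,
    Polynomial.map_mul, hc', he', map_C, map_C, map_C, map_mul, C_mul]
  linear_combination (C ((algebraMap R K) c) * C ((algebraMap R K) e)) * hab

/-- `F` represents the polynomial `p` with coefficients in the ring of germs. -/
private def GcdBRep (p : GermRing[X]) (F : ℂ → ℂ[X]) : Prop :=
  ∀ k, (((fun z => (F z).coeff k) : ℂ → ℂ) : Germ (𝓝 (0 : ℂ)) ℂ) =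
    ((p.coeff k : GermRing) : Germ (𝓝 (0 : ℂ)) ℂ)

private theorem gcdB_mul {p q : GermRing[X]} {F G : ℂ → ℂ[X]} (hF : GcdBRep p F)
    (hG : GcdBRep q G) : GcdBRep (p * q) (fun z => F z * G z) := by
  intro k
  have h1 : (fun z => (F z * G z).coeff k) = ∑ x ∈ Finset.HasAntidiagonal.antidiagonal k,
      (fun z => (F z).coeff x.1) * (fun z => (G z).coeff x.2) := by
    funext z
    simp [coeff_mul, Finset.sum_apply]
  have h2 : (((fun z => (F z * G z).coeff k) : ℂ → ℂ) : Germ (𝓝 (0 : ℂ)) ℂ) =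
      ∑ x ∈ Finset.HasAntidiagonal.antidiagonal k, (((fun z => (F z).coeff x.1) : ℂ → ℂ) : Germ (𝓝 (0 : ℂ)) ℂ) *
        (((fun z => (G z).coeff x.2) : ℂ → ℂ) : Germ (𝓝 (0 : ℂ)) ℂ) := by
    rw [h1]
    exact map_sum (Germ.coeRingHom (R := ℂ) (𝓝 (0 : ℂ))) _ _
  rw [h2, coeff_mul, AddSubmonoidClass.coe_finsetSum]
  exact Finset.sum_congr rfl fun x _ => by rw [hF, hG]; rfl

private theorem gcdB_add {p q : GermRing[X]} {F G : ℂ → ℂ[X]} (hF : GcdBRep p F)
    (hG : GcdBRep q G) : GcdBRep (p + q) (fun z => F z + G z) := by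
  intro k
  have h1 : (fun z => (F z + G z).coeff k) =
      (fun z => (F z).coeff k) + (fun z => (G z).coeff k) := by
    funext z
    simp
  rw [h1, Germ.coe_add, hF, hG, coeff_add]
  rfl

private theorem gcdB_C {c : GermRing} {f : ℂ → ℂ}
    (hf : (f : Germ (𝓝 (0 : ℂ)) ℂ) = (c : Germ (𝓝 (0 : ℂ)) ℂ)) :
    GcdBRep (C c) (fun z => C (f z)) := by
  intro k
  simp only [coeff_C]
  by_cases hk : k = 0
  · simpa [hk] using hf
  · simp only [hk, if_false]
    rfl

private theorem gcdB_unique {p : GermRing[X]} {F G : ℂ → ℂ[X]} {N : ℕ} (hF : GcdBRep p F)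
    (hG : GcdBRep p G) (hFN : ∀ᶠ z in 𝓝 (0 : ℂ), (F z).natDegree ≤ N)
    (hGN : ∀ᶠ z in 𝓝 (0 : ℂ), (G z).natDegree ≤ N) : ∀ᶠ z in 𝓝 (0 : ℂ), F z = G z := by
  have h1 : ∀ᶠ z in 𝓝 (0 : ℂ), ∀ k ∈ Finset.range (N + 1), (F z).coeff k = (G z).coeff k := by
    rw [Filter.eventually_all_finset]
    intro k _
    exact Germ.coe_eq.1 ((hF k).trans (hG k).symm)
  filter_upwards [h1, hFN, hGN] with z hz hf hg
  ext k
  by_cases hk : k ∈ Finset.range (N + 1)
  · exact hz k hk
  · have hk' : N < k := by simpa using hk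
    rw [coeff_eq_zero_of_natDegree_lt (by omega), coeff_eq_zero_of_natDegree_lt (by omega)]

private theorem gcdB_exists_fun (p : GermRing[X]) : ∃ F : ℂ → ℂ[X], GcdBRep p F ∧
    (∀ z, (F z).natDegree ≤ p.natDegree) ∧ ∀ k, AnalyticAt ℂ (fun z => (F z).coeff k) 0 := by
  choose r hr1 hr2 using fun k => (p.coeff k).2
  have hco : ∀ z k, (∑ k ∈ Finset.range (p.natDegree + 1), C (r k z) * X ^ k : ℂ[X]).coeff k =
      if k ∈ Finset.range (p.natDegree + 1) then r k z else 0 := by
    intro z k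
    rw [finsetSum_coeff]
    simp only [coeff_C_mul, coeff_X_pow, mul_ite, mul_one, mul_zero]
    rw [Finset.sum_ite_eq (Finset.range (p.natDegree + 1)) k fun j => r j z]
  refine ⟨fun z => ∑ k ∈ Finset.range (p.natDegree + 1), C (r k z) * X ^ k, ?_, ?_, ?_⟩
  · intro k
    simp only [hco]
    by_cases hk : k ∈ Finset.range (p.natDegree + 1)
    · simp only [hk, if_true]
      exact hr2 k
    · simp only [hk, if_false]
      have hk' : p.natDegree < k := by simpa using hk
      rw [coeff_eq_zero_of_natDegree_lt hk']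
      rfl
  · intro z
    rw [natDegree_le_iff_coeff_eq_zero]
    intro k hk
    rw [hco, if_neg (by simpa using hk)]
  · intro k
    simp only [hco]
    by_cases hk : k ∈ Finset.range (p.natDegree + 1)
    · simp only [hk, if_true]
      exact hr1 k
    · simp only [hk, if_false]
      exact analyticAt_const

private theorem gcdB_exists_poly {P : ℂ → ℂ[X]} {μ : ℕ}
    (hP : ∀ᶠ z in 𝓝 (0 : ℂ), (P z).Monic ∧ (P z).natDegree = μ)
    (hPc : ∀ k, AnalyticAt ℂ (fun z => (P z).coeff k) 0) :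
    ∃ p : GermRing[X], GcdBRep p P ∧ p.Monic := by
  obtain ⟨r, hr⟩ : ∃ r : ℕ → GermRing, ∀ k, ((r k : GermRing) : Germ (𝓝 (0 : ℂ)) ℂ) =
      (((fun z => (P z).coeff k) : ℂ → ℂ) : Germ (𝓝 (0 : ℂ)) ℂ) :=
    ⟨fun k => ⟨_, ⟨_, hPc k, rfl⟩⟩, fun k => rfl⟩
  have hco : ∀ k, (∑ k ∈ Finset.range (μ + 1), C (r k) * X ^ k : GermRing[X]).coeff k =
      if k ∈ Finset.range (μ + 1) then r k else 0 := by
    intro k
    rw [finsetSum_coeff]
    simp only [coeff_C_mul, coeff_X_pow, mul_ite, mul_one, mul_zero]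
    rw [Finset.sum_ite_eq (Finset.range (μ + 1)) k fun j => r j]
  refine ⟨∑ k ∈ Finset.range (μ + 1), C (r k) * X ^ k, ?_, ?_⟩
  · intro k
    rw [hco]
    by_cases hk : k ∈ Finset.range (μ + 1)
    · rw [if_pos hk]
      exact (hr k).symm
    · rw [if_neg hk]
      have hk' : μ < k := by simpa using hk
      refine Germ.coe_eq.2 ?_
      filter_upwards [hP] with z hz
      rw [coeff_eq_zero_of_natDegree_lt (by omega)]
  · apply monic_of_natDegree_le_of_coeff_eq_one μ
    · rw [natDegree_le_iff_coeff_eq_zero]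
      intro k hk
      rw [hco, if_neg (by simpa using hk)]
    · rw [hco, if_pos (by simp)]
      apply Subtype.ext
      rw [hr]
      refine Germ.coe_eq.2 ?_
      filter_upwards [hP] with z hz
      have := hz.1.coeff_natDegree
      rw [hz.2] at this
      rw [this]

/-- Greatest common divisor of two monic polynomials with coefficients holomorphic near `0`.
PROOF: view them in `GermRing[X]`, a unique factorisation domain.  Write `P = G P'`, `Q = G Q'` with `P', Q'` without common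
factor (`gcd` in a UFD; as `P` is monic all leading coefficients are units, make `G`, `P'` monic).  By Gauss' lemma
`P', Q'` are coprime over the fraction field, so `A P' + B Q' = C c` with `A, B ∈ GermRing[X]`, `0 ≠ c ∈ GermRing`; `c z ≠ 0`
for `z ≠ 0` near `0`.  Back to functions: choose representatives of the finitely many coefficients. -/
theorem poly_gcd {P Q : ℂ → ℂ[X]} {μ ν : ℕ} (hP : ∀ᶠ z in 𝓝 (0 : ℂ), (P z).Monic ∧ (P z).natDegree = μ)
    (hQ : ∀ᶠ z in 𝓝 (0 : ℂ), (Q z).Monic ∧ (Q z).natDegree = ν)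
    (hPc : ∀ k, AnalyticAt ℂ (fun z => (P z).coeff k) 0) (hQc : ∀ k, AnalyticAt ℂ (fun z => (Q z).coeff k) 0) :
    ∃ (G P' Q' : ℂ → ℂ[X]) (N : ℕ), (∀ z, (G z).natDegree ≤ N ∧ (P' z).natDegree ≤ N ∧ (Q' z).natDegree ≤ N) ∧
      (∀ k, AnalyticAt ℂ (fun z => (G z).coeff k) 0) ∧ (∀ k, AnalyticAt ℂ (fun z => (P' z).coeff k) 0) ∧
      (∀ k, AnalyticAt ℂ (fun z => (Q' z).coeff k) 0) ∧
      (∀ᶠ z in 𝓝 (0 : ℂ), P z = G z * P' z ∧ Q z = G z * Q' z) ∧
      ∀ᶠ z in 𝓝[≠] (0 : ℂ), ∀ w, ¬ ((P' z).eval w = 0 ∧ (Q' z).eval w = 0) := by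
  obtain ⟨p, hp, hpm⟩ := gcdB_exists_poly hP hPc
  obtain ⟨q, hq, hqm⟩ := gcdB_exists_poly hQ hQc
  have i1 : IsDomain GermRing := germRing_isDomain
  have i2 : IsPrincipalIdealRing GermRing := germRing_isPrincipal
  obtain ⟨g, p', q', A, B, c, hc, e1, e2, e3⟩ :=
    gcdB_alg (K := FractionRing GermRing) p q hpm hqm
  obtain ⟨G, hG1, hG2, hG3⟩ := gcdB_exists_fun g
  obtain ⟨P', hP1, hP2, hP3⟩ := gcdB_exists_fun p'
  obtain ⟨Q', hQ1, hQ2, hQ3⟩ := gcdB_exists_fun q'
  obtain ⟨A', hA1, hA2, hA3⟩ := gcdB_exists_fun A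
  obtain ⟨B', hB1, hB2, hB3⟩ := gcdB_exists_fun B
  obtain ⟨f, hf1, hf2⟩ := c.2
  refine ⟨G, P', Q', g.natDegree + p'.natDegree + q'.natDegree, fun z => ⟨(hG2 z).trans (by omega),
    (hP2 z).trans (by omega), (hQ2 z).trans (by omega)⟩, hG3, hP3, hQ3, ?_, ?_⟩
  · have h1 := gcdB_unique (N := μ + g.natDegree + p'.natDegree) hp (e1 ▸ gcdB_mul hG1 hP1)
      (by filter_upwards [hP] with z hz; omega)
      (Eventually.of_forall fun z => by
        have := natDegree_mul_le (p := G z) (q := P' z)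
        have := hG2 z
        have := hP2 z
        omega)
    have h2 := gcdB_unique (N := ν + g.natDegree + q'.natDegree) hq (e2 ▸ gcdB_mul hG1 hQ1)
      (by filter_upwards [hQ] with z hz; omega)
      (Eventually.of_forall fun z => by
        have := natDegree_mul_le (p := G z) (q := Q' z)
        have := hG2 z
        have := hQ2 z
        omega)
    exact h1.and h2
  · have h3 := gcdB_unique (N := A.natDegree + B.natDegree + p'.natDegree + q'.natDegree)
      (gcdB_add (gcdB_mul hA1 hP1) (gcdB_mul hB1 hQ1)) (e3 ▸ gcdB_C hf2)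
      (Eventually.of_forall fun z => by
        have h1 := natDegree_mul_le (p := A' z) (q := P' z)
        have h2 := natDegree_mul_le (p := B' z) (q := Q' z)
        have h3 := natDegree_add_le (A' z * P' z) (B' z * Q' z)
        have := hA2 z
        have := hB2 z
        have := hP2 z
        have := hQ2 z
        rcases le_max_iff.1 h3 with h | h <;> omega)
      (Eventually.of_forall fun z => by rw [natDegree_C]; omega)
    have h4 : ∀ᶠ z in 𝓝[≠] (0 : ℂ), f z ≠ 0 := by
      rcases hf1.eventually_eq_zero_or_eventually_ne_zero with h | h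
      · exfalso
        apply hc
        apply Subtype.ext
        rw [← hf2]
        exact Germ.coe_eq.2 h
      · exact h
    filter_upwards [h3.filter_mono nhdsWithin_le_nhds, h4] with z h3 h4 w hw
    apply h4
    have := congrArg (Polynomial.eval w) h3
    rw [eval_add, eval_mul, eval_mul, hw.1, hw.2, eval_C] at this
    simpa using this.symm

end Q2T
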