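import Pool.Agent.H.MP_89f84f_ag.q2.WpA

set_option autoImplicit false

open Complex Topology Filter Asymptotics Metric Set Polynomial

namespace Q2T

/-- Newton's identities for a multiset -/
private theorem wpB_newton (s : Multiset ℂ) (k : ℕ) : (k : ℂ) * s.esymm k = (-1) ^ (k + 1) *
    ∑ a ∈ (Finset.HasAntidiagonal.antidiagonal k).filter (fun a => a.1 < k),
      (-1) ^ a.1 * s.esymm a.1 * (s.map fun w => w ^ a.2).sum := by
  classical
  have h := congrArg (MvPolynomial.aeval (fun x : s => (x : ℂ)))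
    (MvPolynomial.mul_esymm_eq_sum s ℂ k)
  rw [map_mul, map_natCast, MvPolynomial.aeval_esymm_eq_multiset_esymm, Multiset.map_univ_coe,
    map_mul, map_pow, map_neg, map_one, map_sum] at h
  rw [h]
  congr 1
  refine Finset.sum_congr rfl fun a _ => ?_
  rw [map_mul, map_mul, map_pow, map_neg, map_one, MvPolynomial.aeval_esymm_eq_multiset_esymm,
    Multiset.map_univ_coe]
  congr 1
  rw [MvPolynomial.psum, map_sum]
  have h2 : (s.map fun w => w ^ a.2).sum =
      (Multiset.map (fun w => w ^ a.2) ((Finset.univ : Finset s).val.map fun x : s => (x : ℂ))).sum := by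
    rw [Multiset.map_univ_coe]
  rw [h2, Multiset.map_map]
  simp only [map_pow, MvPolynomial.aeval_X]
  rfl

private theorem wpB_esymm {ρ : ℝ} (M : ℂ → Multiset ℂ)
    (hp : ∀ k : ℕ, DifferentiableOn ℂ (fun z => ((M z).map fun w => w ^ k).sum) (ball 0 ρ)) (k : ℕ) :
    DifferentiableOn ℂ (fun z => (M z).esymm k) (ball 0 ρ) := by
  induction k using Nat.strong_induction_on with
  | _ k ih =>
    rcases Nat.eq_zero_or_pos k with rfl | hk
    · have : (fun z => (M z).esymm 0) = fun _ => (1 : ℂ) := by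
        funext z
        simp [Multiset.esymm]
      rw [this]
      exact differentiableOn_const 1
    · have h1 : (fun z => (M z).esymm k) = fun z => (k : ℂ)⁻¹ * ((-1) ^ (k + 1) *
          ∑ a ∈ (Finset.HasAntidiagonal.antidiagonal k).filter (fun a => a.1 < k),
            (-1) ^ a.1 * (M z).esymm a.1 * ((M z).map fun w => w ^ a.2).sum) := by
        funext z
        rw [← wpB_newton, ← mul_assoc, inv_mul_cancel₀ (Nat.cast_ne_zero.2 hk.ne'), one_mul]
      rw [h1]
      refine (differentiableOn_const _).mul ((differentiableOn_const _).mul ?_)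
      refine DifferentiableOn.fun_sum fun a ha => ?_
      rw [Finset.mem_filter] at ha
      exact ((differentiableOn_const _).mul (ih a.1 ha.2)).mul (hp a.2)

/-- Products over a family of multisets of constant cardinality are holomorphic if the power sums are.
PROOF: Newton's identities (`MvPolynomial` / `Multiset` version: `k * e_k = ∑ (-1)^(i-1) e_(k-i) p_i`): the elementary
symmetric functions `e_k` are polynomials in the power sums, the product is `e_μ`. -/
theorem prod_of_powersum {ρ : ℝ} {μ : ℕ} (M : ℂ → Multiset ℂ) (hc : ∀ z ∈ ball (0 : ℂ) ρ, Multiset.card (M z) = μ)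
    (hp : ∀ k : ℕ, DifferentiableOn ℂ (fun z => ((M z).map fun w => w ^ k).sum) (ball 0 ρ)) :
    DifferentiableOn ℂ (fun z => (M z).prod) (ball 0 ρ) := by
  refine (wpB_esymm M hp μ).congr fun z hz => ?_
  simp [← hc z hz, Multiset.esymm, Multiset.powersetCard_self]

/-- holomorphic dependence of circle integrals on parameters -/
private theorem wpB_param {E : Type} [NormedAddCommGroup E] [NormedSpace ℂ E] [ProperSpace E]
    {G : E × ℂ → ℂ} {V : Set E} (hV : IsOpen V) {r : ℝ} (hr : 0 ≤ r)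
    (hG : AnalyticOnNhd ℂ G (V ×ˢ sphere 0 r)) :
    DifferentiableOn ℂ (fun x => ∮ ζ in C(0, r), G (x, ζ)) V := by
  intro x₀ hx₀
  obtain ⟨ε, hε, hεV⟩ := Metric.isOpen_iff.1 hV x₀ hx₀
  have hball : closedBall x₀ (ε / 2) ⊆ V :=
    (closedBall_subset_ball (by linarith)).trans hεV
  have hmem : ∀ x ∈ V, ∀ θ : ℝ, (x, circleMap 0 r θ) ∈ V ×ˢ sphere (0 : ℂ) r :=
    fun x hx θ => ⟨hx, circleMap_mem_sphere 0 hr θ⟩
  let F' : E → ℝ → E →L[ℂ] ℂ := fun x θ =>
    deriv (circleMap 0 r) θ • (fderiv ℂ G (x, circleMap 0 r θ)).comp (ContinuousLinearMap.inl ℂ E ℂ)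
  have hcd : Continuous (deriv (circleMap 0 r)) := by
    have : deriv (circleMap (0 : ℂ) r) = fun θ => circleMap 0 r θ * I := by
      funext θ
      exact deriv_circleMap 0 r θ
    rw [this]
    fun_prop
  have hF'c : ContinuousOn (fun q : E × ℝ => F' q.1 q.2) (V ×ˢ univ) := by
    have h1 : ContinuousOn (fun q : E × ℝ => fderiv ℂ G (q.1, circleMap 0 r q.2)) (V ×ˢ univ) := by
      refine hG.fderiv.continuousOn.comp (by fun_prop) ?_
      rintro ⟨x, θ⟩ hq
      exact hmem x hq.1 θ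
    exact (hcd.comp continuous_snd).continuousOn.smul
      (h1.clm_comp continuousOn_const)
  have hFc : ContinuousOn (fun q : E × ℝ => deriv (circleMap 0 r) q.2 • G (q.1, circleMap 0 r q.2))
      (V ×ˢ univ) := by
    have h1 : ContinuousOn (fun q : E × ℝ => G (q.1, circleMap 0 r q.2)) (V ×ˢ univ) := by
      refine hG.continuousOn.comp (by fun_prop) ?_
      rintro ⟨x, θ⟩ hq
      exact hmem x hq.1 θ
    exact (hcd.comp continuous_snd).continuousOn.smul h1
  have hsec : ∀ x ∈ V, Continuous (fun θ : ℝ => deriv (circleMap 0 r) θ • G (x, circleMap 0 r θ)) := by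
    intro x hx
    rw [← continuousOn_univ]
    exact hFc.comp (f := fun θ : ℝ => (x, θ)) (by fun_prop) fun θ _ => ⟨hx, mem_univ _⟩
  have hsec' : Continuous (F' x₀) := by
    rw [← continuousOn_univ]
    exact hF'c.comp (f := fun θ : ℝ => (x₀, θ)) (by fun_prop) fun θ _ => ⟨hx₀, mem_univ _⟩
  obtain ⟨C, hC⟩ := ((isCompact_closedBall x₀ (ε / 2)).prod
    (isCompact_Icc (a := (0 : ℝ)) (b := 2 * Real.pi))).exists_bound_of_continuousOn
    (hF'c.mono (prod_mono hball (subset_univ _)))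
  refine DifferentiableAt.differentiableWithinAt ?_
  have := intervalIntegral.hasFDerivAt_integral_of_dominated_of_fderiv_le (𝕜 := ℂ)
    (μ := MeasureTheory.volume) (a := 0) (b := 2 * Real.pi)
    (F := fun x θ => deriv (circleMap 0 r) θ • G (x, circleMap 0 r θ)) (F' := F') (x₀ := x₀)
    (s := ball x₀ (ε / 2)) (bound := fun _ => C) (ball_mem_nhds x₀ (by linarith))
    (by
      filter_upwards [hV.mem_nhds hx₀] with x hx
      exact (hsec x hx).aestronglyMeasurable)
    ((hsec x₀ hx₀).intervalIntegrable _ _)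
    hsec'.aestronglyMeasurable
    (Filter.Eventually.of_forall fun θ hθ x hx => by
      rw [uIoc_of_le (by positivity)] at hθ
      exact hC (x, θ) ⟨ball_subset_closedBall hx, hθ.1.le, hθ.2⟩)
    intervalIntegrable_const
    (Filter.Eventually.of_forall fun θ hθ x hx => by
      have hxV : x ∈ V := hball (ball_subset_closedBall hx)
      have h1 := (hG _ (hmem x hxV θ)).differentiableAt.hasFDerivAt
      have h2 : HasFDerivAt (fun x : E => (x, circleMap 0 r θ)) (ContinuousLinearMap.inl ℂ E ℂ) x :=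
        hasFDerivAt_prodMk_left x _
      exact (h1.comp x h2).const_smul (deriv (circleMap 0 r) θ))
  exact this.differentiableAt

private theorem wpB_eval (s : Multiset ℂ) (x : ℂ) :
    ((s.map fun w => X - C w).prod).eval x = (s.map fun w => x - w).prod := by
  rw [eval_multiset_prod, Multiset.map_map]
  simp

/-- Zeros, sums and products, Weierstrass polynomial and unit.
PROOF: products of `T` over the zeros from `prod_of_powersum` applied to `T ^ k`.  `P z = ∏ (X - C w')`: for every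
`x` the value `(P z).eval x` is the product of `T (z, w) = x - w`, so holomorphic in `z`; the coefficients by
Lagrange interpolation at `μ + 1` points.  `U (z, w) = (2 π i)⁻¹ ∮_{|ζ| = r} F (z, ζ) / ((P z).eval ζ * (ζ - w)) dζ`: holomorphic in
`(z, w)`; for fixed `z` it is the function `u` of `exists_zeros` (Cauchy formula). -/
theorem exists_weierstrass {F : ℂ × ℂ → ℂ} {ρ r : ℝ} (h : WReg F ρ r) :
    ∃ (μ : ℕ) (P : ℂ → ℂ[X]) (U : ℂ × ℂ → ℂ),
      (∀ z ∈ ball (0 : ℂ) ρ, (P z).Monic ∧ (P z).natDegree = μ ∧ ∀ w ∈ (P z).roots, ‖w‖ < r) ∧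
      (∀ k, DifferentiableOn ℂ (fun z => (P z).coeff k) (ball 0 ρ)) ∧
      DifferentiableOn ℂ U (ball 0 ρ ×ˢ ball 0 r) ∧
      (∀ z ∈ ball (0 : ℂ) ρ, ∀ w ∈ ball (0 : ℂ) r, U (z, w) ≠ 0 ∧ F (z, w) = (P z).eval w * U (z, w)) ∧
      ∀ T : ℂ × ℂ → ℂ, AnalyticOnNhd ℂ T (closedBall 0 ρ ×ˢ closedBall 0 r) →
        DifferentiableOn ℂ (fun z => ((P z).roots.map fun w => T (z, w)).prod) (ball 0 ρ) := by
  obtain ⟨μ, Z, hZ, hsum⟩ := exists_zeros h
  have hr := h.hr
  set P : ℂ → ℂ[X] := fun z => ((Z z).map fun w => X - C w).prod with hP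
  have hmonic : ∀ z, (P z).Monic := fun z =>
    monic_multiset_prod_of_monic _ _ fun w _ => monic_X_sub_C w
  have hroots : ∀ z, (P z).roots = Z z := fun z => roots_multiset_prod_X_sub_C _
  have hdeg : ∀ z ∈ ball (0 : ℂ) ρ, (P z).natDegree = μ := by
    intro z hz
    rw [hP]
    simp only
    rw [natDegree_multiset_prod_X_sub_C_eq_card]
    exact (hZ z hz).1
  have hcoeff : ∀ k, DifferentiableOn ℂ (fun z => (P z).coeff k) (ball 0 ρ) := by
    intro k
    rcases le_or_gt k μ with hk | hk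
    · have h1 : DifferentiableOn ℂ (fun z => (-1 : ℂ) ^ (μ - k) * (Z z).esymm (μ - k)) (ball 0 ρ) := by
        refine (differentiableOn_const _).mul (wpB_esymm Z (fun j => ?_) _)
        refine (hsum (fun q => q.2 ^ j) ?_)
        intro q _
        exact analyticAt_snd.pow j
      refine h1.congr fun z hz => ?_
      have h2 := Multiset.prod_X_sub_C_coeff (Z z) (k := k) (by rw [(hZ z hz).1]; exact hk)
      rw [(hZ z hz).1] at h2
      exact h2
    · refine (differentiableOn_const (0 : ℂ)).congr fun z hz => ?_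
      exact coeff_eq_zero_of_natDegree_lt (by rw [hdeg z hz]; exact hk)
  let Q : ℂ × ℂ → ℂ := fun q => ∑ k ∈ Finset.range (μ + 1), (P q.1).coeff k * q.2 ^ k
  have hQ : ∀ z ∈ ball (0 : ℂ) ρ, ∀ ζ, Q (z, ζ) = ((Z z).map fun w => ζ - w).prod := by
    intro z hz ζ
    rw [← wpB_eval, eval_eq_sum_range' (n := μ + 1)]
    have := hdeg z hz
    rw [hP] at this
    simp only at this
    rw [this]
    exact Nat.lt_succ_self μ
  have hQa : ∀ z ∈ ball (0 : ℂ) ρ, ∀ ζ : ℂ, AnalyticAt ℂ Q (z, ζ) := by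
    intro z hz ζ
    refine Finset.analyticAt_fun_sum _ fun k _ => ?_
    refine AnalyticAt.mul ?_ (analyticAt_snd.pow k)
    have h1 : AnalyticAt ℂ (fun z => (P z).coeff k) z :=
      (hcoeff k).analyticAt (isOpen_ball.mem_nhds hz)
    exact AnalyticAt.fun_comp_of_eq (g := fun z => (P z).coeff k) (f := fun q : ℂ × ℂ => q.1) h1
      analyticAt_fst rfl
  have hQne : ∀ z ∈ ball (0 : ℂ) ρ, ∀ ζ ∈ sphere (0 : ℂ) r, Q (z, ζ) ≠ 0 := by
    intro z hz ζ hζ
    rw [hQ z hz ζ]
    apply Multiset.prod_ne_zero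
    rw [Multiset.mem_map]
    rintro ⟨w, hw, hw0⟩
    have h1 := (hZ z hz).2.1 w hw
    rw [mem_sphere, dist_eq_norm, sub_zero, sub_eq_zero.1 hw0] at hζ
    linarith
  let G : (ℂ × ℂ) × ℂ → ℂ := fun q => (q.2 - q.1.2)⁻¹ * (F (q.1.1, q.2) / Q (q.1.1, q.2))
  have hGa : AnalyticOnNhd ℂ G ((ball 0 ρ ×ˢ ball 0 r) ×ˢ sphere 0 r) := by
    rintro ⟨⟨z, w⟩, ζ⟩ ⟨⟨hz, hw⟩, hζ⟩
    have hl : AnalyticAt ℂ (fun q : (ℂ × ℂ) × ℂ => (q.1.1, q.2)) ((z, w), ζ) :=
      (analyticAt_fst.fun_comp analyticAt_fst).prod analyticAt_snd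
    have h1 : AnalyticAt ℂ (fun q : (ℂ × ℂ) × ℂ => F (q.1.1, q.2)) ((z, w), ζ) := by
      refine AnalyticAt.fun_comp_of_eq (h.an (z, ζ) ⟨ball_subset_closedBall hz,
        sphere_subset_closedBall hζ⟩) hl rfl
    have h2 : AnalyticAt ℂ (fun q : (ℂ × ℂ) × ℂ => Q (q.1.1, q.2)) ((z, w), ζ) :=
      AnalyticAt.fun_comp_of_eq (hQa z hz ζ) hl rfl
    have h3 : AnalyticAt ℂ (fun q : (ℂ × ℂ) × ℂ => q.2 - q.1.2) ((z, w), ζ) :=
      analyticAt_snd.sub (analyticAt_snd.fun_comp analyticAt_fst)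
    refine (h3.inv ?_).mul (h1.div h2 (hQne z hz ζ hζ))
    intro h4
    rw [mem_ball, dist_eq_norm, sub_zero] at hw
    rw [mem_sphere, dist_eq_norm, sub_zero, sub_eq_zero.1 h4] at hζ
    linarith
  let U : ℂ × ℂ → ℂ := fun q => (2 * Real.pi * I)⁻¹ * ∮ ζ in C(0, r), G (q, ζ)
  have hU : ∀ z ∈ ball (0 : ℂ) ρ, ∀ w ∈ ball (0 : ℂ) r,
      U (z, w) ≠ 0 ∧ F (z, w) = (P z).eval w * U (z, w) := by
    intro z hz w hw
    obtain ⟨hcard, hlt, u, hu, hu0, hFu⟩ := hZ z hz
    have h1 : ∮ ζ in C(0, r), G ((z, w), ζ) = ∮ ζ in C(0, r), (ζ - w)⁻¹ • u ζ := by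
      refine circleIntegral.integral_congr hr.le fun ζ hζ => ?_
      show (ζ - w)⁻¹ * (F (z, ζ) / Q (z, ζ)) = (ζ - w)⁻¹ * u ζ
      congr 1
      rw [hFu ζ (sphere_subset_closedBall hζ), hQ z hz ζ]
      have h2 := hQne z hz ζ hζ
      rw [hQ z hz ζ] at h2
      exact mul_div_cancel_left₀ _ h2
    have h2 := DifferentiableOn.circleIntegral_sub_inv_smul
      (hu.differentiableOn) hw
    have h3 : U (z, w) = u w := by
      show (2 * Real.pi * I)⁻¹ * (∮ ζ in C(0, r), G ((z, w), ζ)) = u w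
      rw [h1, h2, smul_eq_mul, ← mul_assoc, inv_mul_cancel₀, one_mul]
      simp [Real.pi_ne_zero]
    rw [h3]
    refine ⟨hu0 w (ball_subset_closedBall hw), ?_⟩
    rw [hFu w (ball_subset_closedBall hw)]
    congr 1
    exact (wpB_eval (Z z) w).symm
  refine ⟨μ, P, U, fun z hz => ⟨hmonic z, hdeg z hz, ?_⟩, hcoeff, ?_, hU, ?_⟩
  · rw [hroots z]
    exact (hZ z hz).2.1
  · refine (differentiableOn_const _).mul ?_
    exact wpB_param (isOpen_ball.prod isOpen_ball) hr.le hGa
  · intro T hT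
    simp only [hroots]
    refine prod_of_powersum (μ := μ) (fun z => (Z z).map fun w => T (z, w)) (fun z hz => ?_)
      fun k => ?_
    · rw [Multiset.card_map]
      exact (hZ z hz).1
    · simp only [Multiset.map_map, Function.comp_def]
      exact hsum (fun q => T q ^ k) fun q hq => (hT q hq).pow k

/-- Existence of radii: if `F` is analytic at `0` and `F (0, ·)` is not identically zero near `0`, then for all small
`r` and then all small `ρ` the function is regular. -/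
theorem exists_wreg {F : ℂ × ℂ → ℂ} (hF : AnalyticAt ℂ F 0) (h0 : ∃ᶠ w in 𝓝 (0 : ℂ), F (0, w) ≠ 0) :
    ∃ r₀ > 0, ∀ r, 0 < r → r < r₀ → ∃ ρ₀ > 0, ∀ ρ, 0 < ρ → ρ < ρ₀ → WReg F ρ r := by
  obtain ⟨δ, hδ, hFδ⟩ := Metric.eventually_nhds_iff_ball.1 hF.eventually_analyticAt
  have hf : AnalyticAt ℂ (fun w : ℂ => F (0, w)) 0 := by
    have h1 : AnalyticAt ℂ (fun w : ℂ => ((0 : ℂ), w)) 0 := analyticAt_const.prod analyticAt_id
    exact AnalyticAt.fun_comp_of_eq hF h1 rfl
  have hne : ∀ᶠ w in 𝓝[≠] (0 : ℂ), F (0, w) ≠ 0 := by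
    rcases hf.eventually_eq_zero_or_eventually_ne_zero with h | h
    · exact absurd (h.mono fun w hw => not_not.2 hw) h0
    · exact h
  rw [eventually_nhdsWithin_iff] at hne
  obtain ⟨r₁, hr₁, hne⟩ := Metric.eventually_nhds_iff_ball.1 hne
  refine ⟨min δ r₁, lt_min hδ hr₁, fun r hr hrr => ?_⟩
  have hrδ := lt_of_lt_of_le hrr (min_le_left _ _)
  have hrr₁ := lt_of_lt_of_le hrr (min_le_right _ _)
  have hana : ∀ z w : ℂ, ‖z‖ < δ → ‖w‖ < δ → AnalyticAt ℂ F (z, w) := by
    intro z w hz hw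
    apply hFδ
    rw [mem_ball, dist_eq_norm, sub_zero, Prod.norm_def]
    exact max_lt hz hw
  have htube : ∀ᶠ z in 𝓝 (0 : ℂ), ∀ w ∈ sphere (0 : ℂ) r, F (z, w) ≠ 0 := by
    apply (isCompact_sphere (0 : ℂ) r).eventually_forall_of_forall_eventually
    intro w hw
    rw [mem_sphere, dist_eq_norm, sub_zero] at hw
    have h1 : F (0, w) ≠ 0 := by
      apply hne w
      · rw [mem_ball, dist_eq_norm, sub_zero, hw]
        exact hrr₁
      · rw [mem_compl_iff, mem_singleton_iff]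
        rintro rfl
        rw [norm_zero] at hw
        linarith
    exact (hana 0 w (by simpa using hδ) (by rw [hw]; exact hrδ)).continuousAt.eventually_ne h1
  obtain ⟨ρ₁, hρ₁, hρ⟩ := Metric.eventually_nhds_iff_ball.1 htube
  refine ⟨min δ ρ₁, lt_min hδ hρ₁, fun ρ hρ0 hρρ => ⟨hρ0, hr, ?_, ?_⟩⟩
  · rintro ⟨z, w⟩ ⟨hz, hw⟩
    rw [mem_closedBall, dist_eq_norm, sub_zero] at hz hw
    exact hana z w (lt_of_le_of_lt hz (lt_of_lt_of_le hρρ (min_le_left _ _)))
      (lt_of_le_of_lt hw hrδ)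
  · intro z w hz hw
    apply hρ z
    · rw [mem_ball, dist_eq_norm, sub_zero]
      exact lt_of_le_of_lt hz (lt_of_lt_of_le hρρ (min_le_right _ _))
    · rw [mem_sphere, dist_eq_norm, sub_zero]
      exact hw

end Q2T
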