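import Pool.Agent.H.MP_89f84f_ag.q2.GcdB
import Pool.Agent.H.MP_89f84f_ag.q2.WpB
import Pool.Agent.H.MP_89f84f_ag.q2.HartB
import Pool.Agent.H.MP_e23cd6_ag.GT.AnUp

set_option autoImplicit false

open Complex Topology Filter Asymptotics Metric Set Polynomial

namespace Q2T

/-- `g` is a greatest common divisor of `s, t` on the open set `U`. -/
def IsLG (s t g : C2 → ℂ) (U : Set C2) : Prop :=
  DifferentiableOn ℂ g U ∧ ∃ s' t' : C2 → ℂ, DifferentiableOn ℂ s' U ∧ DifferentiableOn ℂ t' U ∧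
    (∀ z ∈ U, s z = g z * s' z) ∧ (∀ z ∈ U, t z = g z * t' z) ∧
    ∀ p ∈ U, ∀ᶠ z in 𝓝[≠] p, ¬ (s' z = 0 ∧ t' z = 0)

/-- A direction in which a nonzero entire function does not vanish identically near `p`. -/
theorem gcdC_dir {f : C2 → ℂ} (hf : Differentiable ℂ f) (h0 : f ≠ 0) (p : C2) :
    ∃ σ : ℂ, ∃ᶠ w in 𝓝 (0 : ℂ), f (p + w • ![1, σ]) ≠ 0 := by
  obtain ⟨k, h1, h2⟩ := exists_order (p := p) hf h0
  obtain ⟨P, hP, hP'⟩ := vanC_lead hf h1 h2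
  obtain ⟨σ, hσ⟩ : ∃ σ : ℂ, P.eval σ ≠ 0 := by
    by_contra h5
    push Not at h5
    exact hP (Polynomial.funext fun x => by rw [h5 x, Polynomial.eval_zero])
  refine ⟨σ, fun h3 => ?_⟩
  simp only [not_not] at h3
  have h4 : (fun t : ℂ => P.eval σ * t ^ k) =O[𝓝 0] fun t => t ^ (k + 1) := by
    refine (hP' σ).neg_left.congr' ?_ EventuallyEq.rfl
    filter_upwards [h3] with t ht
    rw [ht]
    ring
  have h5 : (fun t : ℂ => t ^ k) =O[𝓝[≠] 0] fun t => t ^ (k + 1) :=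
    ((isBigO_const_mul_left_iff hσ).1 h4).mono nhdsWithin_le_nhds
  have h6 : (fun t : ℂ => t ^ (k + 1)) =o[𝓝[≠] 0] fun t => t ^ k :=
    (isLittleO_pow_pow (Nat.lt_succ_self k)).mono nhdsWithin_le_nhds
  refine isLittleO_irrefl ?_ (h5.trans_isLittleO h6)
  refine Eventually.frequently ?_
  filter_upwards [self_mem_nhdsWithin] with t ht
  exact pow_ne_zero _ ht

/-- The coordinates `z, w`. -/
noncomputable def gcdCF (p : C2) (σ : ℂ) (y : ℂ × ℂ) : C2 := p + y.1 • ![0, 1] + y.2 • ![1, σ]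

/-- The inverse. -/
noncomputable def gcdCG (p : C2) (σ : ℂ) (x : C2) : ℂ × ℂ :=
  (x 1 - p 1 - σ * (x 0 - p 0), x 0 - p 0)

theorem gcdC_FG (p : C2) (σ : ℂ) (x : C2) : gcdCF p σ (gcdCG p σ x) = x := by
  funext i
  fin_cases i
  · show p 0 + (x 1 - p 1 - σ * (x 0 - p 0)) * 0 + (x 0 - p 0) * 1 = x 0
    ring
  · show p 1 + (x 1 - p 1 - σ * (x 0 - p 0)) * 1 + (x 0 - p 0) * σ = x 1
    ring

theorem gcdC_Fd (p : C2) (σ : ℂ) : Differentiable ℂ (gcdCF p σ) := by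
  unfold gcdCF
  fun_prop

theorem gcdC_Gd (p : C2) (σ : ℂ) : Differentiable ℂ (gcdCG p σ) := by
  unfold gcdCG
  fun_prop

theorem gcdC_G0 (p : C2) (σ : ℂ) : gcdCG p σ p = 0 := by
  simp [gcdCG]

/-- Evaluation of a polynomial with holomorphic coefficients. -/
theorem gcdC_eval {P : ℂ → ℂ[X]} {N : ℕ} (hN : ∀ z, (P z).natDegree ≤ N) {ρ : ℝ}
    (hc : ∀ k ≤ N, DifferentiableOn ℂ (fun z => (P z).coeff k) (ball 0 ρ)) {p : C2} {σ : ℂ}
    {U : Set C2} (hU : ∀ x ∈ U, (gcdCG p σ x).1 ∈ ball (0 : ℂ) ρ) :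
    DifferentiableOn ℂ (fun x => (P (gcdCG p σ x).1).eval (gcdCG p σ x).2) U := by
  have h1 : (fun x => (P (gcdCG p σ x).1).eval (gcdCG p σ x).2) = fun x =>
      ∑ k ∈ Finset.range (N + 1), (P (gcdCG p σ x).1).coeff k * (gcdCG p σ x).2 ^ k := by
    funext x
    exact Polynomial.eval_eq_sum_range' (Nat.lt_succ_of_le (hN _)) _
  rw [h1]
  refine DifferentiableOn.fun_sum fun k hk => ?_
  rw [Finset.mem_range, Nat.lt_succ_iff] at hk
  have h2 : DifferentiableOn ℂ (fun x => (gcdCG p σ x).1) U :=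
    (gcdC_Gd p σ).fst.differentiableOn
  have h3 : DifferentiableOn ℂ (fun x => (gcdCG p σ x).2) U :=
    (gcdC_Gd p σ).snd.differentiableOn
  exact ((hc k hk).comp h2 hU).mul (h3.pow k)

/-- Local greatest common divisors exist.
PROOF: choose `v` with `s (p + w v)`, `t (p + w v)` not identically zero near `w = 0`, a basis `v', v` of `ℂ²`, and
`F (z, w) = s (p + z v' + w v)`, `F' (z, w) = t (...)`.  With common radii (`exists_wreg`) `F = P U`, `F' = Q V`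
(`exists_weierstrass`); `P = G P'`, `Q = G Q'` near `z = 0` by `poly_gcd`.  `g = G (z) (w)`, `s' = P' U`, `t' = Q' V` in the
coordinates `z, w`.  Common zeros of `s', t'` have `z = 0` and `P' (0) (w) = 0`, a nonzero polynomial: finitely
many. -/
theorem local_gcd {s t : C2 → ℂ} (hs : Differentiable ℂ s) (ht : Differentiable ℂ t) (hs0 : s ≠ 0) (ht0 : t ≠ 0)
    (p : C2) : ∃ r > 0, ∃ g : C2 → ℂ, IsLG s t g (ball p r) := by
  obtain ⟨σ, hσ⟩ := gcdC_dir (hs.mul ht) (mul_ne_zero_ent hs ht hs0 ht0) p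
  have hF : AnalyticAt ℂ (fun y => s (gcdCF p σ y)) 0 :=
    Pool.Agent.Abd.analyticAt_of_diff (Eventually.of_forall fun y =>
      (hs.comp (gcdC_Fd p σ)) y)
  have hF' : AnalyticAt ℂ (fun y => t (gcdCF p σ y)) 0 :=
    Pool.Agent.Abd.analyticAt_of_diff (Eventually.of_forall fun y =>
      (ht.comp (gcdC_Fd p σ)) y)
  have hline : ∀ w : ℂ, gcdCF p σ (0, w) = p + w • ![1, σ] := by
    intro w
    simp [gcdCF]
  have h0 : ∃ᶠ w in 𝓝 (0 : ℂ), s (gcdCF p σ (0, w)) ≠ 0 := by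
    refine hσ.mono fun w hw => ?_
    rw [hline]
    exact left_ne_zero_of_mul hw
  have h0' : ∃ᶠ w in 𝓝 (0 : ℂ), t (gcdCF p σ (0, w)) ≠ 0 := by
    refine hσ.mono fun w hw => ?_
    rw [hline]
    exact right_ne_zero_of_mul hw
  obtain ⟨r₀, hr₀, hw⟩ := exists_wreg hF h0
  obtain ⟨r₁, hr₁, hw'⟩ := exists_wreg hF' h0'
  have hr : 0 < min r₀ r₁ := lt_min hr₀ hr₁
  set r : ℝ := min r₀ r₁ / 2 with hrd
  have hrpos : 0 < r := by positivity
  have hrlt : r < min r₀ r₁ := by linarith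
  obtain ⟨ρ₀, hρ₀, hw⟩ := hw r hrpos (hrlt.trans_le (min_le_left _ _))
  obtain ⟨ρ₁, hρ₁, hw'⟩ := hw' r hrpos (hrlt.trans_le (min_le_right _ _))
  have hρ : 0 < min ρ₀ ρ₁ := lt_min hρ₀ hρ₁
  set ρ : ℝ := min ρ₀ ρ₁ / 2 with hρd
  have hρpos : 0 < ρ := by positivity
  have hρlt : ρ < min ρ₀ ρ₁ := by linarith
  have hW := hw ρ hρpos (hρlt.trans_le (min_le_left _ _))
  have hW' := hw' ρ hρpos (hρlt.trans_le (min_le_right _ _))
  obtain ⟨μ, P, U, hP, hPc, hU, hPU, -⟩ := exists_weierstrass hW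
  obtain ⟨ν, Q, V, hQ, hQc, hV, hQV, -⟩ := exists_weierstrass hW'
  have hball : ball (0 : ℂ) ρ ∈ 𝓝 (0 : ℂ) := ball_mem_nhds _ hρpos
  obtain ⟨G, P', Q', N, hN, hGc, hP'c, hQ'c, hfac, hcop⟩ := poly_gcd (P := P) (Q := Q) (μ := μ)
    (ν := ν) (by filter_upwards [hball] with z hz using ⟨(hP z hz).1, (hP z hz).2.1⟩)
    (by filter_upwards [hball] with z hz using ⟨(hQ z hz).1, (hQ z hz).2.1⟩)
    (fun k => (hPc k).analyticAt hball) (fun k => (hQc k).analyticAt hball)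
  have hcoef : ∀ R : ℂ → ℂ[X], (∀ k, AnalyticAt ℂ (fun z => (R z).coeff k) 0) →
      ∀ᶠ z in 𝓝 (0 : ℂ), ∀ k ∈ Finset.range (N + 1), DifferentiableAt ℂ (fun z => (R z).coeff k) z := by
    intro R hR
    rw [Finset.eventually_all]
    intro k _
    filter_upwards [(hR k).eventually_analyticAt] with z hz
    exact hz.differentiableAt
  rw [eventually_nhdsWithin_iff] at hcop
  obtain ⟨ρ', hρ', hall⟩ := Metric.eventually_nhds_iff_ball.1
    ((hcoef G hGc).and ((hcoef P' hP'c).and ((hcoef Q' hQ'c).and (hfac.and (hcop.and hball)))))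
  have hcd : ∀ R : ℂ → ℂ[X], (∀ z ∈ ball (0 : ℂ) ρ', ∀ k ∈ Finset.range (N + 1),
      DifferentiableAt ℂ (fun z => (R z).coeff k) z) →
      ∀ k ≤ N, DifferentiableOn ℂ (fun z => (R z).coeff k) (ball 0 ρ') := fun R hR k hk z hz =>
    (hR z hz k (Finset.mem_range.2 (Nat.lt_succ_of_le hk))).differentiableWithinAt
  -- the neighbourhood of `p`
  have hcont : Tendsto (gcdCG p σ) (𝓝 p) (𝓝 0) := by
    have := (gcdC_Gd p σ).continuous.tendsto p
    rwa [gcdC_G0] at this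
  have hnb : ball (0 : ℂ) ρ' ×ˢ ball (0 : ℂ) r ∈ 𝓝 (0 : ℂ × ℂ) :=
    prod_mem_nhds (ball_mem_nhds _ hρ') (ball_mem_nhds _ hrpos)
  obtain ⟨R, hR, hRsub⟩ := Metric.mem_nhds_iff.1 (hcont hnb)
  have h1 : ∀ x ∈ ball p R, (gcdCG p σ x).1 ∈ ball (0 : ℂ) ρ' := fun x hx => (hRsub hx).1
  have h2 : ∀ x ∈ ball p R, (gcdCG p σ x).2 ∈ ball (0 : ℂ) r := fun x hx => (hRsub hx).2
  have h3 : ∀ x ∈ ball p R, (gcdCG p σ x).1 ∈ ball (0 : ℂ) ρ := fun x hx =>
    (hall _ (h1 x hx)).2.2.2.2.2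
  have hcomp : ∀ W : ℂ × ℂ → ℂ, DifferentiableOn ℂ W (ball 0 ρ ×ˢ ball 0 r) →
      DifferentiableOn ℂ (fun x => W (gcdCG p σ x)) (ball p R) := fun W hW =>
    hW.comp (gcdC_Gd p σ).differentiableOn fun x hx => ⟨h3 x hx, h2 x hx⟩
  refine ⟨R, hR, fun x => (G (gcdCG p σ x).1).eval (gcdCG p σ x).2,
    gcdC_eval (fun z => (hN z).1) (hcd G fun z hz => (hall z hz).1) h1,
    fun x => (P' (gcdCG p σ x).1).eval (gcdCG p σ x).2 * U (gcdCG p σ x),
    fun x => (Q' (gcdCG p σ x).1).eval (gcdCG p σ x).2 * V (gcdCG p σ x),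
    (gcdC_eval (fun z => (hN z).2.1) (hcd P' fun z hz => (hall z hz).2.1) h1).mul (hcomp U hU),
    (gcdC_eval (fun z => (hN z).2.2) (hcd Q' fun z hz => (hall z hz).2.2.1) h1).mul (hcomp V hV),
    ?_, ?_, ?_⟩
  · intro x hx
    have h4 := (hPU _ (h3 x hx) _ (h2 x hx)).2
    have h5 := (hall _ (h1 x hx)).2.2.2.1.1
    simp only [Prod.mk.eta, gcdC_FG] at h4
    show s x = (G (gcdCG p σ x).1).eval (gcdCG p σ x).2 *
      ((P' (gcdCG p σ x).1).eval (gcdCG p σ x).2 * U (gcdCG p σ x))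
    rw [h4, h5, eval_mul, mul_assoc]
  · intro x hx
    have h4 := (hQV _ (h3 x hx) _ (h2 x hx)).2
    have h5 := (hall _ (h1 x hx)).2.2.2.1.2
    simp only [Prod.mk.eta, gcdC_FG] at h4
    show t x = (G (gcdCG p σ x).1).eval (gcdCG p σ x).2 *
      ((Q' (gcdCG p σ x).1).eval (gcdCG p σ x).2 * V (gcdCG p σ x))
    rw [h4, h5, eval_mul, mul_assoc]
  · intro q hq
    have h00 : (0 : ℂ) ∈ ball (0 : ℂ) ρ' := mem_ball_self hρ'
    have hP0 : P' 0 ≠ 0 := by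
      intro h4
      have h5 := (hall 0 h00).2.2.2.1.1
      rw [h4, mul_zero] at h5
      exact (hP 0 (mem_ball_self hρpos)).1.ne_zero h5
    let Z : Set C2 := (fun w => gcdCF p σ (0, w)) '' {w | w ∈ (P' 0).roots}
    have hZ : Z.Finite := by
      refine Set.Finite.image _ ?_
      exact ((P' 0).roots.toFinset.finite_toSet).subset fun w hw => by
        simpa using hw
    have hZc : ∀ᶠ x in 𝓝[≠] q, x ∉ Z := by
      rw [eventually_nhdsWithin_iff]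
      have h4 : (Z \ {q})ᶜ ∈ 𝓝 q :=
        (hZ.subset diff_subset).isClosed.isOpen_compl.mem_nhds fun h => h.2 rfl
      filter_upwards [h4] with x hx hxq hxZ
      exact hx ⟨hxZ, hxq⟩
    filter_upwards [hZc, nhdsWithin_le_nhds (isOpen_ball.mem_nhds hq)] with x hxZ hx hxx
    apply hxZ
    have hUx := (hPU _ (h3 x hx) _ (h2 x hx)).1
    have hVx := (hQV _ (h3 x hx) _ (h2 x hx)).1
    rw [Prod.mk.eta] at hUx hVx
    have h4 : (P' (gcdCG p σ x).1).eval (gcdCG p σ x).2 = 0 :=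
      (mul_eq_zero.1 hxx.1).resolve_right hUx
    have h5 : (Q' (gcdCG p σ x).1).eval (gcdCG p σ x).2 = 0 :=
      (mul_eq_zero.1 hxx.2).resolve_right hVx
    have h6 : (gcdCG p σ x).1 = 0 := by
      by_contra h7
      exact (hall _ (h1 x hx)).2.2.2.2.1 h7 _ ⟨h4, h5⟩
    refine ⟨(gcdCG p σ x).2, ?_, ?_⟩
    · show (gcdCG p σ x).2 ∈ (P' 0).roots
      rw [h6] at h4
      rw [Polynomial.mem_roots hP0]
      exact h4
    · have h7 : ((0 : ℂ), (gcdCG p σ x).2) = gcdCG p σ x := Prod.ext h6.symm rfl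
      show gcdCF p σ (0, (gcdCG p σ x).2) = x
      rw [h7, gcdC_FG]

theorem IsLG.mono {s t g : C2 → ℂ} {U V : Set C2} (h : IsLG s t g U) (hV : V ⊆ U) : IsLG s t g V := by
  obtain ⟨hg, s', t', hs', ht', h1, h2, h3⟩ := h
  exact ⟨hg.mono hV, s', t', hs'.mono hV, ht'.mono hV, fun z hz => h1 z (hV hz),
    fun z hz => h2 z (hV hz), fun z hz => h3 z (hV hz)⟩

/-- Equality of continuous functions on an open set from equality where `a ≠ 0`. -/
theorem gcdC_dense {U : Set C2} (hU : IsOpen U) {a b c : C2 → ℂ}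
    (ha0 : ∀ p ∈ U, ∃ᶠ z in 𝓝 p, a z ≠ 0) (hb : DifferentiableOn ℂ b U)
    (hc : DifferentiableOn ℂ c U) (h : ∀ z ∈ U, a z ≠ 0 → b z = c z) :
    ∀ z ∈ U, b z = c z := by
  intro z hz
  by_contra hne
  have h1 : ContinuousAt (fun x => b x - c x) z :=
    ((hb.sub hc).continuousOn).continuousAt (hU.mem_nhds hz)
  have h2 := h1.eventually_ne (sub_ne_zero.2 hne)
  obtain ⟨x, hx, hx1, hx2⟩ := ((ha0 z hz).and_eventually (h2.and (hU.mem_nhds hz))).exists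
  exact hx1 (sub_eq_zero.2 (h x hx2 hx))

/-- Two greatest common divisors differ by a unit.
PROOF: `s' g = s'' g'`, `t' g = t'' g'` give `s' t'' = s'' t'` (`g, g'` are nonzero on a dense set); `local_div` twice. -/
theorem IsLG.unit {s t g g' : C2 → ℂ} {U : Set C2} (hU : IsOpen U) (hs : Differentiable ℂ s)
    (ht : Differentiable ℂ t) (hs0 : s ≠ 0) (ht0 : t ≠ 0) (h : IsLG s t g U) (h' : IsLG s t g' U) :
    ∃ k : C2 → ℂ, DifferentiableOn ℂ k U ∧ (∀ z ∈ U, k z ≠ 0) ∧ ∀ z ∈ U, g z = k z * g' z := by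
  obtain ⟨hg, s1, t1, hs1, ht1, e1, e2, e3⟩ := h
  obtain ⟨hg', s2, t2, hs2, ht2, f1, f2, f3⟩ := h'
  have hsf : ∀ p ∈ U, ∃ᶠ z in 𝓝 p, s z ≠ 0 := fun p _ =>
    (ne_zero_frequently hs hs0 p).filter_mono nhdsWithin_le_nhds
  have htf : ∀ p ∈ U, ∃ᶠ z in 𝓝 p, t z ≠ 0 := fun p _ =>
    (ne_zero_frequently ht ht0 p).filter_mono nhdsWithin_le_nhds
  have hUf : ∀ p ∈ U, ∀ᶠ z in 𝓝 p, z ∈ U := fun p hp => hU.mem_nhds hp
  have hs1f : ∀ p ∈ U, ∃ᶠ z in 𝓝 p, s1 z ≠ 0 := fun p hp =>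
    ((hsf p hp).and_eventually (hUf p hp)).mono fun z hz h4 => hz.1 (by
      rw [e1 z hz.2, h4, mul_zero])
  have ht1f : ∀ p ∈ U, ∃ᶠ z in 𝓝 p, t1 z ≠ 0 := fun p hp =>
    ((htf p hp).and_eventually (hUf p hp)).mono fun z hz h4 => hz.1 (by
      rw [e2 z hz.2, h4, mul_zero])
  have hs2f : ∀ p ∈ U, ∃ᶠ z in 𝓝 p, s2 z ≠ 0 := fun p hp =>
    ((hsf p hp).and_eventually (hUf p hp)).mono fun z hz h4 => hz.1 (by
      rw [f1 z hz.2, h4, mul_zero])
  have ht2f : ∀ p ∈ U, ∃ᶠ z in 𝓝 p, t2 z ≠ 0 := fun p hp =>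
    ((htf p hp).and_eventually (hUf p hp)).mono fun z hz h4 => hz.1 (by
      rw [f2 z hz.2, h4, mul_zero])
  have hcross : ∀ z ∈ U, s1 z * t2 z = t1 z * s2 z := by
    refine gcdC_dense hU hsf (hs1.mul ht2) (ht1.mul hs2) fun z hz hsz => ?_
    have h4 : g z * g' z ≠ 0 := by
      refine mul_ne_zero (fun h5 => hsz ?_) fun h5 => hsz ?_
      · rw [e1 z hz, h5, zero_mul]
      · rw [f1 z hz, h5, zero_mul]
    apply mul_left_cancel₀ h4
    have h5 : g z * s1 z = g' z * s2 z := by rw [← e1 z hz, ← f1 z hz]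
    have h6 : g z * t1 z = g' z * t2 z := by rw [← e2 z hz, ← f2 z hz]
    calc g z * g' z * (s1 z * t2 z) = (g z * s1 z) * (g' z * t2 z) := by ring
      _ = (g' z * s2 z) * (g z * t1 z) := by rw [h5, ← h6]
      _ = _ := by ring
  obtain ⟨k, hk, k1, k2⟩ := local_div hU hs1 ht1 hs2 ht2 hcross e3 hs1f ht1f
  obtain ⟨k', hk', k1', k2'⟩ := local_div hU hs2 ht2 hs1 ht1
    (fun z hz => by rw [mul_comm, ← hcross z hz, mul_comm]) f3 hs2f ht2f
  have hkk : ∀ z ∈ U, k z * k' z = 1 := by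
    refine gcdC_dense hU hs1f (hk.mul hk') (differentiableOn_const 1) fun z hz h4 => ?_
    apply mul_left_cancel₀ h4
    rw [← mul_assoc, ← k1 z hz, ← k1' z hz, mul_one]
  refine ⟨k, hk, fun z hz h4 => ?_, ?_⟩
  · have h5 := hkk z hz
    rw [h4, zero_mul] at h5
    exact zero_ne_one h5
  · refine gcdC_dense hU hs1f hg (hk.mul hg') fun z hz h4 => ?_
    apply mul_right_cancel₀ h4
    rw [← e1 z hz, f1 z hz, k1 z hz]
    ring

end Q2T
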