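import Pool.Agent.H.MP_89f84f_ag.q2.HartB

set_option autoImplicit false

open Complex Topology Filter Asymptotics Metric Set

namespace Q2T

/-- Identity theorem on a ball of `ℂ²`, through complex lines. -/
private theorem glue_ball {z : C2} {r : ℝ} {f g : C2 → ℂ} (hf : DifferentiableOn ℂ f (ball z r))
    (hg : DifferentiableOn ℂ g (ball z r)) {w : C2} (hw : w ∈ ball z r) (he : f =ᶠ[𝓝 w] g) :
    ∀ v ∈ ball z r, f v = g v := by
  intro v hv
  let l : ℂ → C2 := fun t => w + t • (v - w)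
  have hl : Differentiable ℂ l := by
    intro t
    exact (differentiableAt_id.smul_const (v - w)).const_add w
  have hlc : Continuous l := hl.continuous
  let T : Set ℂ := l ⁻¹' ball z r
  have hTo : IsOpen T := isOpen_ball.preimage hlc
  have hTc : Convex ℝ T := by
    intro s hs t ht a b ha hb hab
    have h1 : l (a • s + b • t) = a • l s + b • l t := by
      have hab' : (a : ℂ) + (b : ℂ) = 1 := by exact_mod_cast hab
      funext i
      show w i + (a • s + b • t) * (v i - w i) = a • (w i + s * (v i - w i)) + b • (w i + t * (v i - w i))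
      simp only [Complex.real_smul]
      linear_combination (-w i) * hab'
    show l (a • s + b • t) ∈ ball z r
    rw [h1]
    exact convex_ball z r hs ht ha hb hab
  have h0 : (0 : ℂ) ∈ T := by
    show w + (0 : ℂ) • (v - w) ∈ ball z r
    rw [zero_smul, add_zero]
    exact hw
  have h1 : (1 : ℂ) ∈ T := by
    show w + (1 : ℂ) • (v - w) ∈ ball z r
    rw [one_smul, add_sub_cancel]
    exact hv
  have hd : DifferentiableOn ℂ (fun t => f (l t) - g (l t)) T := by
    have h2 : DifferentiableOn ℂ (fun t => f (l t)) T := hf.comp hl.differentiableOn fun t ht => ht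
    have h3 : DifferentiableOn ℂ (fun t => g (l t)) T := hg.comp hl.differentiableOn fun t ht => ht
    exact h2.sub h3
  have ha : AnalyticOnNhd ℂ (fun t => f (l t) - g (l t)) T := hd.analyticOnNhd hTo
  have hz : (fun t => f (l t) - g (l t)) =ᶠ[𝓝 0] 0 := by
    have h2 : Tendsto l (𝓝 0) (𝓝 w) := by
      have := hlc.tendsto 0
      have h3 : l 0 = w := by
        show w + (0 : ℂ) • (v - w) = w
        rw [zero_smul, add_zero]
      rwa [h3] at this
    filter_upwards [h2.eventually he] with t ht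
    show f (l t) - g (l t) = 0
    rw [ht, sub_self]
  have h4 := ha.eqOn_zero_of_preconnected_of_eventuallyEq_zero hTc.isPreconnected h0 hz h1
  have h5 : l 1 = v := by
    show w + (1 : ℂ) • (v - w) = v
    rw [one_smul, add_sub_cancel]
  have h6 : f (l 1) - g (l 1) = 0 := h4
  rw [h5] at h6
  exact sub_eq_zero.mp h6

/-- Identity theorem for differentiable functions on open connected subsets of `ℂ²`. -/
private theorem glue_ident {U : Set C2} (hU : IsOpen U) (hc : IsPreconnected U) {f g : C2 → ℂ}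
    (hf : DifferentiableOn ℂ f U) (hg : DifferentiableOn ℂ g U) {w : C2} (hw : w ∈ U)
    (he : f =ᶠ[𝓝 w] g) : ∀ v ∈ U, f v = g v := by
  let u : Set C2 := {z | f =ᶠ[𝓝 z] g}
  have hu : IsOpen u := isOpen_setOfPred_eventually_nhds
  have hsub : U ⊆ u := by
    refine hc.subset_of_closure_inter_subset hu ⟨w, hw, he⟩ ?_
    rintro z ⟨hz, hzU⟩
    obtain ⟨r, hr, hrU⟩ := Metric.isOpen_iff.mp hU z hzU
    obtain ⟨x, hx, hxu⟩ := mem_closure_iff.mp hz (ball z r) isOpen_ball (mem_ball_self hr)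
    have h1 := glue_ball (hf.mono hrU) (hg.mono hrU) hx hxu
    show f =ᶠ[𝓝 z] g
    filter_upwards [ball_mem_nhds z hr] with v hv
    exact h1 v hv
  intro v hv
  exact (hsub hv).self_of_nhds

/-- Holomorphic functions with equal absolute values on a convex open set differ by a constant of absolute value 1.
PROOF: the quotient is locally bounded, so extends (or: work on the set where `h ≠ 0`, use the maximum principle);
shortest: at a point with `h z₀ ≠ 0` the quotient `k / h` is holomorphic near `z₀` with absolute value 1, so constant `c` there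
(open mapping on lines), and `k - c h` vanishes near `z₀`, hence on the connected set. -/
theorem eq_smul_of_norm_eq {U : Set C2} (hU : IsOpen U) (hc : IsPreconnected U) {h k : C2 → ℂ}
    (hh : DifferentiableOn ℂ h U) (hk : DifferentiableOn ℂ k U) (he : ∀ z ∈ U, ‖k z‖ = ‖h z‖)
    (h0 : ∃ z ∈ U, h z ≠ 0) : ∃ c : ℂ, ‖c‖ = 1 ∧ ∀ z ∈ U, k z = c * h z := by
  obtain ⟨z₀, hz₀, hne⟩ := h0
  have hcont : ContinuousAt h z₀ := (hh.differentiableAt (hU.mem_nhds hz₀)).continuousAt
  have hev : ∀ᶠ z in 𝓝 z₀, h z ≠ 0 ∧ z ∈ U := (hcont.eventually_ne hne).and (hU.mem_nhds hz₀)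
  obtain ⟨r, hr, hrb⟩ := Metric.eventually_nhds_iff_ball.mp hev
  have hq : DifferentiableOn ℂ (fun z => k z / h z) (ball z₀ r) := by
    have h1 : DifferentiableOn ℂ (fun z => (h z)⁻¹) (ball z₀ r) :=
      (hh.mono fun z hz => (hrb z hz).2).inv fun z hz => (hrb z hz).1
    have h2 : DifferentiableOn ℂ (fun z => k z * (h z)⁻¹) (ball z₀ r) :=
      (hk.mono fun z hz => (hrb z hz).2).mul h1
    exact h2.congr fun z _ => div_eq_mul_inv _ _
  have hn : ∀ z ∈ ball z₀ r, ‖k z / h z‖ = 1 := by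
    intro z hz
    rw [norm_div, he z (hrb z hz).2, div_self]
    exact norm_ne_zero_iff.mpr (hrb z hz).1
  have hmax : IsMaxOn (norm ∘ fun z => k z / h z) (ball z₀ r) z₀ := by
    intro z hz
    show ‖k z / h z‖ ≤ ‖k z₀ / h z₀‖
    rw [hn z hz, hn z₀ (mem_ball_self hr)]
  have heq := Complex.eqOn_of_isPreconnected_of_isMaxOn_norm (convex_ball z₀ r).isPreconnected isOpen_ball hq
    (mem_ball_self hr) hmax
  refine ⟨k z₀ / h z₀, hn z₀ (mem_ball_self hr), ?_⟩
  refine glue_ident hU hc hk (hh.const_mul (k z₀ / h z₀)) hz₀ ?_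
  filter_upwards [ball_mem_nhds z₀ hr] with z hz
  have h1 : k z / h z = k z₀ / h z₀ := heq hz
  rw [← h1, div_mul_cancel₀ _ (hrb z hz).1]

/-- `G` is the squared absolute value of a holomorphic function on `s`. -/
private def GlueOn (G : C2 → ℝ) (s : Set C2) (k : C2 → ℂ) : Prop :=
  DifferentiableOn ℂ k s ∧ ∀ z ∈ s, G z = ‖k z‖ ^ 2

private theorem glueOn_mono {G : C2 → ℝ} {s t : Set C2} {k : C2 → ℂ} (h : GlueOn G t k) (hst : s ⊆ t) :
    GlueOn G s k := ⟨h.1.mono hst, fun z hz => h.2 z (hst hz)⟩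

private theorem glueOn_smul {G : C2 → ℝ} {s : Set C2} {k : C2 → ℂ} (h : GlueOn G s k) {c : ℂ} (hc : ‖c‖ = 1) :
    GlueOn G s (fun z => c * k z) := by
  refine ⟨h.1.const_mul c, fun z hz => ?_⟩
  rw [norm_mul, hc, one_mul]
  exact h.2 z hz

private theorem glue_adj {G : C2 → ℝ} (h0 : ∀ p, ∃ᶠ z in 𝓝 p, G z ≠ 0) {U : Set C2} (hU : IsOpen U)
    (hc : IsPreconnected U) (hne : U.Nonempty) {s : Set C2} (hs : U ⊆ s) {h k : C2 → ℂ} (hh : GlueOn G U h)
    (hk : GlueOn G s k) : ∃ k' : C2 → ℂ, GlueOn G s k' ∧ ∀ z ∈ U, k' z = h z := by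
  obtain ⟨p, hp⟩ := hne
  have hkU := glueOn_mono hk hs
  have hnz : ∃ z ∈ U, k z ≠ 0 := by
    obtain ⟨z, hz, hzU⟩ := ((h0 p).and_eventually (hU.mem_nhds hp)).exists
    refine ⟨z, hzU, fun h => hz ?_⟩
    rw [hkU.2 z hzU, h, norm_zero]
    norm_num
  obtain ⟨c, hc1, hc2⟩ := eq_smul_of_norm_eq hU hc hkU.1 hh.1 (fun z hz => by
    have h1 := hh.2 z hz
    rw [hkU.2 z hz] at h1
    exact ((sq_eq_sq₀ (norm_nonneg _) (norm_nonneg _)).mp h1).symm) hnz
  exact ⟨fun z => c * k z, glueOn_smul hk hc1, fun z hz => (hc2 z hz).symm⟩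

private theorem glue_step {G : C2 → ℝ} (h0 : ∀ p, ∃ᶠ z in 𝓝 p, G z ≠ 0) {M δ : ℝ} (hδ : 0 < δ)
    (hgood : ∀ p ∈ closedBall (0 : C2) M, ∃ k, GlueOn G (ball p δ) k) {R : ℝ} (hR : 0 < R) (hRM : R ≤ M)
    (h : ∃ k, GlueOn G (ball 0 R) k) : ∃ k, GlueOn G (ball 0 (R + δ / 3)) k := by
  obtain ⟨θ, hθ⟩ := h
  -- near a point of the sphere the ball of radius `R` is met
  have hmeet : ∀ p : C2, ‖p‖ = R → ∀ V : Set C2, IsOpen V → p ∈ V → (V ∩ ball 0 R).Nonempty := by
    intro p hp V hV hpV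
    have h1 : p ∈ closure (ball (0 : C2) R) := by
      rw [closure_ball _ hR.ne']
      rw [mem_closedBall_zero_iff]
      exact hp.le
    exact mem_closure_iff.mp h1 V hV hpV
  have hloc : ∀ p : C2, ‖p‖ = R → ∃ k, GlueOn G (ball p δ) k ∧ ∀ z ∈ ball p δ ∩ ball 0 R, k z = θ z := by
    intro p hp
    obtain ⟨k, hk⟩ := hgood p (by rw [mem_closedBall_zero_iff, hp]; exact hRM)
    exact glue_adj h0 (isOpen_ball.inter isOpen_ball)
      ((convex_ball p δ).inter (convex_ball 0 R)).isPreconnected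
      (hmeet p hp _ isOpen_ball (mem_ball_self hδ)) inter_subset_left
      (glueOn_mono hθ inter_subset_right) hk
  choose! κ hκ1 hκ2 using hloc
  have hagree : ∀ p q : C2, ‖p‖ = R → ‖q‖ = R → dist p q < δ → ∀ z ∈ ball p δ ∩ ball q δ, κ p z = κ q z := by
    intro p q hp hq hpq z hz
    have hV : IsOpen (ball p δ ∩ ball q δ) := isOpen_ball.inter isOpen_ball
    have hpV : p ∈ ball p δ ∩ ball q δ := ⟨mem_ball_self hδ, mem_ball.mpr hpq⟩
    obtain ⟨w, hw, hw'⟩ := hmeet p hp _ hV hpV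
    refine glue_ident hV ((convex_ball p δ).inter (convex_ball q δ)).isPreconnected
      ((hκ1 p hp).1.mono inter_subset_left) ((hκ1 q hq).1.mono inter_subset_right) hw ?_ z hz
    filter_upwards [hV.mem_nhds hw, isOpen_ball.mem_nhds hw'] with x hx hx'
    rw [hκ2 p hp x ⟨hx.1, hx'⟩, hκ2 q hq x ⟨hx.2, hx'⟩]
  let π : C2 → C2 := fun z => ((R / ‖z‖ : ℝ) : ℂ) • z
  have hπ : ∀ z : C2, R ≤ ‖z‖ → z ∈ ball (0 : C2) (R + δ / 3) → ‖π z‖ = R ∧ z ∈ ball (π z) (δ / 3) := by
    intro z hz hz'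
    have hz0 : 0 < ‖z‖ := lt_of_lt_of_le hR hz
    have h1 : ‖π z‖ = R := by
      show ‖((R / ‖z‖ : ℝ) : ℂ) • z‖ = R
      rw [norm_smul, Complex.norm_real, Real.norm_of_nonneg (by positivity), div_mul_cancel₀ _ hz0.ne']
    refine ⟨h1, ?_⟩
    rw [mem_ball, dist_eq_norm]
    have h2 : z - π z = ((1 - R / ‖z‖ : ℝ) : ℂ) • z := by
      show z - ((R / ‖z‖ : ℝ) : ℂ) • z = ((1 - R / ‖z‖ : ℝ) : ℂ) • z
      push_cast
      rw [sub_smul, one_smul]
    have h3 : 0 ≤ 1 - R / ‖z‖ := by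
      rw [sub_nonneg, div_le_one hz0]
      exact hz
    rw [h2, norm_smul, Complex.norm_real, Real.norm_of_nonneg h3, sub_mul, one_mul, div_mul_cancel₀ _ hz0.ne']
    rw [mem_ball_zero_iff] at hz'
    linarith
  classical
  let θ' : C2 → ℂ := fun z => if ‖z‖ < R then θ z else κ (π z) z
  have hkey : ∀ p : C2, ‖p‖ = R → ∀ z ∈ ball p (δ / 3), z ∈ ball (0 : C2) (R + δ / 3) → θ' z = κ p z := by
    intro p hp z hz hz'
    by_cases hzR : ‖z‖ < R
    · show (if ‖z‖ < R then θ z else κ (π z) z) = κ p z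
      rw [if_pos hzR]
      exact (hκ2 p hp z ⟨ball_subset_ball (by linarith) hz, mem_ball_zero_iff.mpr hzR⟩).symm
    · show (if ‖z‖ < R then θ z else κ (π z) z) = κ p z
      rw [if_neg hzR]
      obtain ⟨h1, h2⟩ := hπ z (not_lt.mp hzR) hz'
      refine hagree (π z) p h1 hp ?_ z ⟨ball_subset_ball (by linarith) h2, ball_subset_ball (by linarith) hz⟩
      have h3 := dist_triangle_left (π z) p z
      rw [mem_ball] at h2 hz
      linarith
  refine ⟨θ', ?_, ?_⟩
  · intro z hz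
    apply DifferentiableAt.differentiableWithinAt
    by_cases hzR : ‖z‖ < R
    · have h1 : DifferentiableAt ℂ θ z := hθ.1.differentiableAt (isOpen_ball.mem_nhds (mem_ball_zero_iff.mpr hzR))
      refine h1.congr_of_eventuallyEq ?_
      filter_upwards [isOpen_ball.mem_nhds (mem_ball_zero_iff.mpr hzR)] with x hx
      show (if ‖x‖ < R then θ x else κ (π x) x) = θ x
      rw [if_pos (mem_ball_zero_iff.mp hx)]
    · obtain ⟨h1, h2⟩ := hπ z (not_lt.mp hzR) hz
      have h3 : DifferentiableAt ℂ (κ (π z)) z :=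
        (hκ1 _ h1).1.differentiableAt (isOpen_ball.mem_nhds (ball_subset_ball (by linarith) h2))
      refine h3.congr_of_eventuallyEq ?_
      filter_upwards [isOpen_ball.mem_nhds h2, isOpen_ball.mem_nhds hz] with x hx hx'
      exact hkey _ h1 x hx hx'
  · intro z hz
    by_cases hzR : ‖z‖ < R
    · show G z = ‖(if ‖z‖ < R then θ z else κ (π z) z)‖ ^ 2
      rw [if_pos hzR]
      exact hθ.2 z (mem_ball_zero_iff.mpr hzR)
    · obtain ⟨h1, h2⟩ := hπ z (not_lt.mp hzR) hz
      rw [hkey _ h1 z h2 hz]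
      exact (hκ1 _ h1).2 z (ball_subset_ball (by linarith) h2)

private theorem glue_all {G : C2 → ℝ} (h : ∀ p, ∃ r > 0, ∃ k : C2 → ℂ, DifferentiableOn ℂ k (ball p r) ∧
      (∀ z ∈ ball p r, G z = ‖k z‖ ^ 2)) (h0 : ∀ p, ∃ᶠ z in 𝓝 p, G z ≠ 0) {M : ℝ} (hM : 0 < M) :
    ∃ k, GlueOn G (ball 0 M) k := by
  choose r hr k hk1 hk2 using h
  obtain ⟨δ, hδ, hδ'⟩ := lebesgue_number_lemma_of_metric (isCompact_closedBall (0 : C2) M)
    (fun p : C2 => (isOpen_ball : IsOpen (ball p (r p)))) (fun x _ => mem_iUnion.mpr ⟨x, mem_ball_self (hr x)⟩)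
  have hgood : ∀ p ∈ closedBall (0 : C2) M, ∃ k, GlueOn G (ball p δ) k := by
    intro p hp
    obtain ⟨q, hq⟩ := hδ' p hp
    exact ⟨k q, glueOn_mono ⟨hk1 q, hk2 q⟩ hq⟩
  have hind : ∀ n : ℕ, ∃ k, GlueOn G (ball 0 (min (δ / 3 * (n + 1)) M)) k := by
    intro n
    induction n with
    | zero =>
      obtain ⟨k, hk⟩ := hgood 0 (mem_closedBall_self hM.le)
      refine ⟨k, glueOn_mono hk (ball_subset_ball ?_)⟩
      refine (min_le_left _ _).trans ?_
      push_cast
      linarith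
    | succ n ih =>
      by_cases hn : δ / 3 * (n + 1) ≤ M
      · rw [min_eq_left hn] at ih
        obtain ⟨k, hk⟩ := glue_step h0 hδ hgood (by positivity) hn ih
        refine ⟨k, glueOn_mono hk (ball_subset_ball ?_)⟩
        refine (min_le_left _ _).trans ?_
        push_cast
        linarith
      · rw [min_eq_right (not_le.mp hn).le] at ih
        obtain ⟨k, hk⟩ := ih
        exact ⟨k, glueOn_mono hk (ball_subset_ball (min_le_right _ _))⟩
  obtain ⟨n, hn⟩ := exists_nat_gt (M / (δ / 3))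
  obtain ⟨k, hk⟩ := hind n
  refine ⟨k, glueOn_mono hk (ball_subset_ball ?_)⟩
  have h3 : 0 < δ / 3 := by positivity
  refine le_min ?_ le_rfl
  rw [div_lt_iff₀ h3] at hn
  nlinarith

/-- Gluing: a function that is locally the squared absolute value of a holomorphic function is so globally.
PROOF: call a compact box (product of closed intervals in the four real coordinates) good if there is a holomorphic
function with square norm `G` on a neighbourhood of it.  Two adjacent good boxes with a common face glue: near the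
common face (a convex set) the two functions differ by a constant (`eq_smul_of_norm_eq`, `G` is not
identically zero there), adjust it.  Small boxes are good by hypothesis, so by bisection (or subdivision, Lebesgue
number) all boxes are good.  Then functions `θ_n` on the balls of radius `n`, normalised to agree with `θ_1`, give `θ`. -/
theorem exists_global {G : C2 → ℝ} (h : ∀ p, ∃ r > 0, ∃ k : C2 → ℂ, DifferentiableOn ℂ k (ball p r) ∧
      (∀ z ∈ ball p r, G z = ‖k z‖ ^ 2)) (h0 : ∀ p, ∃ᶠ z in 𝓝 p, G z ≠ 0) :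
    ∃ θ : C2 → ℂ, Differentiable ℂ θ ∧ ∀ z, G z = ‖θ z‖ ^ 2 := by
  obtain ⟨θ0, hθ0⟩ := glue_all h h0 one_pos
  have hex : ∀ n : ℕ, ∃ k, GlueOn G (ball 0 ((n : ℝ) + 1)) k ∧ ∀ z ∈ ball (0 : C2) 1, k z = θ0 z := by
    intro n
    obtain ⟨k, hk⟩ := glue_all h h0 (M := (n : ℝ) + 1) (by positivity)
    exact glue_adj h0 isOpen_ball (convex_ball 0 1).isPreconnected ⟨0, mem_ball_self one_pos⟩
      (ball_subset_ball (by have : (0 : ℝ) ≤ n := Nat.cast_nonneg n
                            linarith)) hθ0 hk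
  choose φ hφ1 hφ2 using hex
  have hagree : ∀ m n : ℕ, m ≤ n → ∀ z ∈ ball (0 : C2) ((m : ℝ) + 1), φ m z = φ n z := by
    intro m n hmn
    have hmn' : (m : ℝ) ≤ n := Nat.cast_le.mpr hmn
    refine glue_ident isOpen_ball (convex_ball 0 _).isPreconnected (hφ1 m).1
      ((hφ1 n).1.mono (ball_subset_ball (by linarith))) (mem_ball_self (by positivity)) ?_
    filter_upwards [ball_mem_nhds (0 : C2) one_pos] with z hz
    rw [hφ2 m z hz, hφ2 n z hz]
  let θ : C2 → ℂ := fun z => φ ⌊‖z‖⌋₊ z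
  have hkey : ∀ n : ℕ, ∀ z ∈ ball (0 : C2) ((n : ℝ) + 1), θ z = φ n z := by
    intro n z hz
    have h1 : ‖z‖ < (n : ℝ) + 1 := mem_ball_zero_iff.mp hz
    have h2 : ⌊‖z‖⌋₊ ≤ n := by
      have h3 : ⌊‖z‖⌋₊ < n + 1 := by
        rw [Nat.floor_lt (norm_nonneg z)]
        push_cast
        exact h1
      omega
    exact hagree _ n h2 z (mem_ball_zero_iff.mpr (Nat.lt_floor_add_one ‖z‖))
  refine ⟨θ, fun z => ?_, fun z => ?_⟩
  · have hz : z ∈ ball (0 : C2) ((⌊‖z‖⌋₊ : ℝ) + 1) := mem_ball_zero_iff.mpr (Nat.lt_floor_add_one ‖z‖)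
    have h1 : DifferentiableAt ℂ (φ ⌊‖z‖⌋₊) z := (hφ1 _).1.differentiableAt (isOpen_ball.mem_nhds hz)
    refine h1.congr_of_eventuallyEq ?_
    filter_upwards [isOpen_ball.mem_nhds hz] with x hx
    exact hkey _ x hx
  · exact (hφ1 ⌊‖z‖⌋₊).2 z (mem_ball_zero_iff.mpr (Nat.lt_floor_add_one ‖z‖))

end Q2T
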