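import Pool.Agent.H.MP_89f84f_ag.q2.VanC

set_option autoImplicit false

open Complex Topology Filter Asymptotics Metric Set

namespace Q2T

/-- The kernel. -/
private theorem hartA_kernel {a b : ℂ} {x : C2} (ha : a - x 0 ≠ 0) (hb : b - x 1 ≠ 0) (q : ℂ) :
    HasFDerivAt (fun x : C2 => q * ((a - x 0)⁻¹ * (b - x 1)⁻¹))
      ((q * ((a - x 0)⁻¹ ^ 2 * (b - x 1)⁻¹)) •
          (ContinuousLinearMap.proj 0 : C2 →L[ℂ] ℂ) +
        (q * ((a - x 0)⁻¹ * (b - x 1)⁻¹ ^ 2)) •
          (ContinuousLinearMap.proj 1 : C2 →L[ℂ] ℂ)) x := by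
  have h0 : HasFDerivAt (fun x : C2 => a - x 0) (-(ContinuousLinearMap.proj 0 : C2 →L[ℂ] ℂ)) x :=
    (ContinuousLinearMap.proj 0 : C2 →L[ℂ] ℂ).hasFDerivAt.const_sub a
  have h1 : HasFDerivAt (fun x : C2 => b - x 1) (-(ContinuousLinearMap.proj 1 : C2 →L[ℂ] ℂ)) x :=
    (ContinuousLinearMap.proj 1 : C2 →L[ℂ] ℂ).hasFDerivAt.const_sub b
  have h2 := (hasDerivAt_inv ha).comp_hasFDerivAt x h0
  have h3 := (hasDerivAt_inv hb).comp_hasFDerivAt x h1
  refine ((h2.mul h3).const_mul q).congr_fderiv ?_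
  ext v
  simp only [Function.comp_apply, ContinuousLinearMap.add_apply, ContinuousLinearMap.smul_apply,
    ContinuousLinearMap.neg_apply, ContinuousLinearMap.proj_apply, smul_eq_mul]
  field_simp
  ring

/-- The double Cauchy integral is differentiable. -/
private theorem hartA_diff {p : C2} {R : ℝ} {q : ℝ × ℝ → ℂ} (hq : Continuous q)
    {c₀ c₁ : ℝ → ℂ} (hc₀ : Continuous c₀) (hc₁ : Continuous c₁)
    (h₀ : ∀ θ, ‖c₀ θ - p 0‖ = R) (h₁ : ∀ θ, ‖c₁ θ - p 1‖ = R) {z : C2} (hz : z ∈ ball p R) :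
    DifferentiableAt ℂ (fun x : C2 => ∫ θ : ℝ × ℝ in Ioc 0 (2 * Real.pi) ×ˢ Ioc 0 (2 * Real.pi),
      q θ * ((c₀ θ.1 - x 0)⁻¹ * (c₁ θ.2 - x 1)⁻¹)) z := by
  rw [mem_ball] at hz
  set δ : ℝ := (R - dist z p) / 2 with hδ
  have hδ0 : 0 < δ := by
    rw [hδ]
    linarith
  have hlow : ∀ x ∈ ball z δ, ∀ θ : ℝ × ℝ, δ ≤ ‖c₀ θ.1 - x 0‖ ∧ δ ≤ ‖c₁ θ.2 - x 1‖ := by
    intro x hx θ
    rw [mem_ball] at hx
    have h1 : dist x p < R - δ := by
      have := dist_triangle x z p
      rw [hδ] at hx ⊢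
      linarith
    have h2 : ∀ i, ‖x i - p i‖ ≤ dist x p := by
      intro i
      rw [dist_eq_norm]
      exact norm_le_pi_norm (x - p) i
    constructor
    · have h3 : c₀ θ.1 - p 0 = (c₀ θ.1 - x 0) + (x 0 - p 0) := by ring
      have h4 := norm_add_le (c₀ θ.1 - x 0) (x 0 - p 0)
      rw [← h3, h₀] at h4
      linarith [h2 0]
    · have h3 : c₁ θ.2 - p 1 = (c₁ θ.2 - x 1) + (x 1 - p 1) := by ring
      have h4 := norm_add_le (c₁ θ.2 - x 1) (x 1 - p 1)
      rw [← h3, h₁] at h4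
      linarith [h2 1]
  have hne : ∀ x ∈ ball z δ, ∀ θ : ℝ × ℝ, c₀ θ.1 - x 0 ≠ 0 ∧ c₁ θ.2 - x 1 ≠ 0 := by
    intro x hx θ
    obtain ⟨h1, h2⟩ := hlow x hx θ
    exact ⟨norm_pos_iff.1 (hδ0.trans_le h1), norm_pos_iff.1 (hδ0.trans_le h2)⟩
  have hzz : z ∈ ball z δ := mem_ball_self hδ0
  have hcont : ∀ x ∈ ball z δ, Continuous fun θ : ℝ × ℝ => (c₀ θ.1 - x 0)⁻¹ := fun x hx =>
    ((hc₀.comp continuous_fst).sub continuous_const).inv₀ fun θ => (hne x hx θ).1
  have hcont' : ∀ x ∈ ball z δ, Continuous fun θ : ℝ × ℝ => (c₁ θ.2 - x 1)⁻¹ := fun x hx =>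
    ((hc₁.comp continuous_snd).sub continuous_const).inv₀ fun θ => (hne x hx θ).2
  have hint : ∀ f : ℝ × ℝ → ℂ, Continuous f → MeasureTheory.IntegrableOn f
      (Ioc 0 (2 * Real.pi) ×ˢ Ioc 0 (2 * Real.pi)) MeasureTheory.volume := fun f hf =>
    (hf.continuousOn.integrableOn_compact (isCompact_Icc.prod isCompact_Icc)).mono_set
      (prod_mono Ioc_subset_Icc_self Ioc_subset_Icc_self)
  obtain ⟨M, hM⟩ : ∃ M, ∀ θ ∈ Icc 0 (2 * Real.pi) ×ˢ Icc 0 (2 * Real.pi), ‖q θ‖ ≤ M :=
    (isCompact_Icc.prod isCompact_Icc).exists_bound_of_continuousOn hq.continuousOn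
  have key := hasFDerivAt_integral_of_dominated_of_fderiv_le (𝕜 := ℂ) (x₀ := z)
    (μ := MeasureTheory.volume.restrict (Ioc 0 (2 * Real.pi) ×ˢ Ioc 0 (2 * Real.pi)))
    (F := fun (x : C2) (θ : ℝ × ℝ) => q θ * ((c₀ θ.1 - x 0)⁻¹ * (c₁ θ.2 - x 1)⁻¹))
    (F' := fun (x : C2) (θ : ℝ × ℝ) => (q θ * ((c₀ θ.1 - x 0)⁻¹ ^ 2 * (c₁ θ.2 - x 1)⁻¹)) •
          (ContinuousLinearMap.proj 0 : C2 →L[ℂ] ℂ) +
        (q θ * ((c₀ θ.1 - x 0)⁻¹ * (c₁ θ.2 - x 1)⁻¹ ^ 2)) •
          (ContinuousLinearMap.proj 1 : C2 →L[ℂ] ℂ))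
    (bound := fun _ => M * (δ⁻¹ ^ 2 * δ⁻¹) * 1 + M * (δ⁻¹ * δ⁻¹ ^ 2) * 1)
    (ball_mem_nhds z hδ0) ?_ ?_ ?_ ?_ ?_ ?_
  · exact key.differentiableAt
  · filter_upwards [ball_mem_nhds z hδ0] with x hx
    exact (hq.mul ((hcont x hx).mul (hcont' x hx))).aestronglyMeasurable
  · exact hint _ (hq.mul ((hcont z hzz).mul (hcont' z hzz)))
  · refine Continuous.aestronglyMeasurable ?_
    exact ((hq.mul (((hcont z hzz).pow 2).mul (hcont' z hzz))).smul continuous_const).add
      ((hq.mul ((hcont z hzz).mul ((hcont' z hzz).pow 2))).smul continuous_const)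
  · refine (MeasureTheory.ae_restrict_iff'
      (measurableSet_Ioc.prod measurableSet_Ioc)).2 (Eventually.of_forall fun θ hθ x hx => ?_)
    obtain ⟨h1, h2⟩ := hlow x hx θ
    have h3 : ‖(c₀ θ.1 - x 0)⁻¹‖ ≤ δ⁻¹ := by
      rw [norm_inv]
      exact inv_anti₀ hδ0 h1
    have h4 : ‖(c₁ θ.2 - x 1)⁻¹‖ ≤ δ⁻¹ := by
      rw [norm_inv]
      exact inv_anti₀ hδ0 h2
    have h5 : ‖q θ‖ ≤ M := hM θ (prod_mono Ioc_subset_Icc_self Ioc_subset_Icc_self hθ)
    have hM0 : 0 ≤ M := (norm_nonneg _).trans h5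
    have hproj : ∀ i, ‖(ContinuousLinearMap.proj i : C2 →L[ℂ] ℂ)‖ ≤ 1 := by
      intro i
      refine ContinuousLinearMap.opNorm_le_bound _ zero_le_one fun v => ?_
      rw [one_mul]
      exact norm_le_pi_norm v i
    refine (norm_add_le _ _).trans (add_le_add ?_ ?_)
    · rw [norm_smul, norm_mul, norm_mul, norm_pow]
      have := hproj 0
      gcongr
    · rw [norm_smul, norm_mul, norm_mul, norm_pow]
      have := hproj 1
      gcongr
  · exact MeasureTheory.integrableOn_const (by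
      rw [MeasureTheory.Measure.volume_eq_prod, MeasureTheory.Measure.prod_prod]
      exact ENNReal.mul_ne_top measure_Ioc_lt_top.ne measure_Ioc_lt_top.ne)
  · exact Eventually.of_forall fun θ x hx => hartA_kernel (hne x hx θ).1 (hne x hx θ).2 (q θ)

private theorem hartA_mem {p : C2} {r : ℝ} {a b : ℂ} (ha : ‖a - p 0‖ < r) (hb : ‖b - p 1‖ < r)
    (h : a ≠ p 0 ∨ b ≠ p 1) : (![a, b] : C2) ∈ ball p r \ {p} := by
  constructor
  · rw [mem_ball, dist_pi_lt_iff ((norm_nonneg _).trans_lt ha)]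
    intro i
    fin_cases i
    · rw [dist_eq_norm]
      exact ha
    · rw [dist_eq_norm]
      exact hb
  · intro h1
    rw [mem_singleton_iff] at h1
    rcases h with h | h
    · exact h (congrFun h1 0)
    · exact h (congrFun h1 1)

/-- Isolated points are removable singularities in `ℂ²` (Hartogs).
PROOF: let `0 < r' < r`, and take the double Cauchy integral of `F` over the torus `|ζᵢ - pᵢ| = r'`; it is
holomorphic, and for `z₁ ≠ p₁` it is `F z` by Cauchy's formula in the two variables; for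
`z₁ = p₁`, `z₀ ≠ p₀` by continuity. -/
theorem hartogs {p : C2} {r : ℝ} (hr : 0 < r) {F : C2 → ℂ} (hF : DifferentiableOn ℂ F (ball p r \ {p})) :
    ∃ G : C2 → ℂ, DifferentiableOn ℂ G (ball p r) ∧ ∀ z ∈ ball p r, z ≠ p → G z = F z := by
  classical
  set R : ℝ := r / 2 with hR
  have hR0 : 0 < R := by
    rw [hR]
    linarith
  have hRr : R < r := by
    rw [hR]
    linarith
  have hopen : IsOpen (ball p r \ {p}) := isOpen_ball.sdiff isClosed_singleton
  set c₀ : ℝ → ℂ := circleMap (p 0) R with hc₀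
  set c₁ : ℝ → ℂ := circleMap (p 1) R with hc₁
  have h₀ : ∀ θ, ‖c₀ θ - p 0‖ = R := by
    intro θ
    rw [hc₀, circleMap_sub_center, norm_circleMap_zero, abs_of_pos hR0]
  have h₁ : ∀ θ, ‖c₁ θ - p 1‖ = R := by
    intro θ
    rw [hc₁, circleMap_sub_center, norm_circleMap_zero, abs_of_pos hR0]
  have hne₀ : ∀ θ, c₀ θ ≠ p 0 := by
    intro θ h
    have h1 := h₀ θ
    rw [h, sub_self, norm_zero] at h1
    exact hR0.ne h1
  have hcc₀ : Continuous c₀ := continuous_circleMap _ _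
  have hcc₁ : Continuous c₁ := continuous_circleMap _ _
  set e : ℂ := (2 * Real.pi * I)⁻¹ with he
  have he1 : e * (2 * Real.pi * I) = 1 := inv_mul_cancel₀ two_pi_I_ne_zero
  set q : ℝ × ℝ → ℂ := fun θ => (e * deriv c₀ θ.1) * (e * deriv c₁ θ.2) * F ![c₀ θ.1, c₁ θ.2]
    with hqdef
  have hq : Continuous q := by
    have h1 : Continuous fun θ : ℝ × ℝ => F ![c₀ θ.1, c₁ θ.2] := by
      refine hF.continuousOn.comp_continuous ?_ fun θ => ?_
      · refine continuous_pi fun i => ?_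
        fin_cases i
        · exact hcc₀.comp continuous_fst
        · exact hcc₁.comp continuous_snd
      · exact hartA_mem (by rw [h₀]; exact hRr) (by rw [h₁]; exact hRr) (Or.inl (hne₀ θ.1))
    have h2 : Continuous fun θ : ℝ => deriv c₀ θ := by
      have : (fun θ : ℝ => deriv c₀ θ) = fun θ => circleMap 0 R θ * I := by
        funext θ
        exact deriv_circleMap _ _ _
      rw [this]
      exact (continuous_circleMap _ _).mul continuous_const
    have h3 : Continuous fun θ : ℝ => deriv c₁ θ := by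
      have : (fun θ : ℝ => deriv c₁ θ) = fun θ => circleMap 0 R θ * I := by
        funext θ
        exact deriv_circleMap _ _ _
      rw [this]
      exact (continuous_circleMap _ _).mul continuous_const
    exact ((continuous_const.mul (h2.comp continuous_fst)).mul
      (continuous_const.mul (h3.comp continuous_snd))).mul h1
  set K : C2 → ℂ := fun x => ∫ θ : ℝ × ℝ in Ioc 0 (2 * Real.pi) ×ˢ Ioc 0 (2 * Real.pi),
      q θ * ((c₀ θ.1 - x 0)⁻¹ * (c₁ θ.2 - x 1)⁻¹) with hK
  have hKd : ∀ z ∈ ball p R, DifferentiableAt ℂ K z := fun z hz =>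
    hartA_diff hq hcc₀ hcc₁ h₀ h₁ hz
  have hcoord : ∀ z ∈ ball p R, ∀ i, ‖z i - p i‖ < R := by
    intro z hz i
    rw [mem_ball, dist_eq_norm] at hz
    exact (norm_le_pi_norm (z - p) i).trans_lt hz
  -- Cauchy's formula in two variables
  have hK1 : ∀ z ∈ ball p R, z 1 ≠ p 1 → K z = F z := by
    intro z hz hz1
    have hz0b : z 0 ∈ ball (p 0) R := by
      rw [mem_ball, dist_eq_norm]
      exact hcoord z hz 0
    have hz1b : z 1 ∈ ball (p 1) R := by
      rw [mem_ball, dist_eq_norm]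
      exact hcoord z hz 1
    have hci₀ : Continuous fun θ : ℝ => (c₀ θ - z 0)⁻¹ := continuous_circleMap_inv hz0b
    have hci₁ : Continuous fun θ : ℝ => (c₁ θ - z 1)⁻¹ := continuous_circleMap_inv hz1b
    have hcont : Continuous fun θ : ℝ × ℝ => q θ * ((c₀ θ.1 - z 0)⁻¹ * (c₁ θ.2 - z 1)⁻¹) :=
      hq.mul ((hci₀.comp continuous_fst).mul (hci₁.comp continuous_snd))
    have hint : MeasureTheory.IntegrableOn
        (fun θ : ℝ × ℝ => q θ * ((c₀ θ.1 - z 0)⁻¹ * (c₁ θ.2 - z 1)⁻¹))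
        (Ioc 0 (2 * Real.pi) ×ˢ Ioc 0 (2 * Real.pi)) MeasureTheory.volume :=
      (hcont.continuousOn.integrableOn_compact (isCompact_Icc.prod isCompact_Icc)).mono_set
        (prod_mono Ioc_subset_Icc_self Ioc_subset_Icc_self)
    have hpi : (0 : ℝ) ≤ 2 * Real.pi := Real.two_pi_pos.le
    -- the inner integral
    have hin : ∀ θ₀ : ℝ, ∫ θ₁ in Ioc 0 (2 * Real.pi),
        q (θ₀, θ₁) * ((c₀ θ₀ - z 0)⁻¹ * (c₁ θ₁ - z 1)⁻¹) =
        (e * deriv c₀ θ₀) * (c₀ θ₀ - z 0)⁻¹ * F ![c₀ θ₀, z 1] := by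
      intro θ₀
      have h1 : DifferentiableOn ℂ (fun w : ℂ => F ![c₀ θ₀, w]) (closedBall (p 1) R) := by
        refine hF.comp (f := fun w : ℂ => (![c₀ θ₀, w] : C2)) ?_ ?_
        · refine Differentiable.differentiableOn ?_
          refine differentiable_pi.2 fun i => ?_
          fin_cases i
          · exact differentiable_const _
          · exact differentiable_id
        · intro w hw
          rw [mem_closedBall, dist_eq_norm] at hw
          exact hartA_mem (by rw [h₀]; exact hRr) (hw.trans_lt hRr) (Or.inl (hne₀ θ₀))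
      have h2 := h1.circleIntegral_sub_inv_smul hz1b
      rw [circleIntegral, intervalIntegral.integral_of_le hpi] at h2
      have h3 : ∀ θ₁ : ℝ, q (θ₀, θ₁) * ((c₀ θ₀ - z 0)⁻¹ * (c₁ θ₁ - z 1)⁻¹) =
          ((e * deriv c₀ θ₀) * (c₀ θ₀ - z 0)⁻¹ * e) *
            (deriv (circleMap (p 1) R) θ₁ • (circleMap (p 1) R θ₁ - z 1)⁻¹ •
              F ![c₀ θ₀, circleMap (p 1) R θ₁]) := by
        intro θ₁
        simp only [hqdef, smul_eq_mul, hc₁]
        ring
      simp only [h3]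
      rw [MeasureTheory.integral_const_mul, h2, smul_eq_mul]
      linear_combination ((e * deriv c₀ θ₀) * (c₀ θ₀ - z 0)⁻¹ * F ![c₀ θ₀, z 1]) * he1
    -- the outer integral
    have hout : ∫ θ₀ in Ioc 0 (2 * Real.pi),
        (e * deriv c₀ θ₀) * (c₀ θ₀ - z 0)⁻¹ * F ![c₀ θ₀, z 1] = F ![z 0, z 1] := by
      have h1 : DifferentiableOn ℂ (fun w : ℂ => F ![w, z 1]) (closedBall (p 0) R) := by
        refine hF.comp (f := fun w : ℂ => (![w, z 1] : C2)) ?_ ?_
        · refine Differentiable.differentiableOn ?_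
          refine differentiable_pi.2 fun i => ?_
          fin_cases i
          · exact differentiable_id
          · exact differentiable_const _
        · intro w hw
          rw [mem_closedBall, dist_eq_norm] at hw
          exact hartA_mem (hw.trans_lt hRr) ((hcoord z hz 1).trans hRr) (Or.inr hz1)
      have h2 := h1.circleIntegral_sub_inv_smul hz0b
      rw [circleIntegral, intervalIntegral.integral_of_le hpi] at h2
      have h3 : ∀ θ₀ : ℝ, (e * deriv c₀ θ₀) * (c₀ θ₀ - z 0)⁻¹ * F ![c₀ θ₀, z 1] =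
          e * (deriv (circleMap (p 0) R) θ₀ • (circleMap (p 0) R θ₀ - z 0)⁻¹ •
              F ![circleMap (p 0) R θ₀, z 1]) := by
        intro θ₀
        simp only [smul_eq_mul, hc₀]
        ring
      simp only [h3]
      rw [MeasureTheory.integral_const_mul, h2, smul_eq_mul]
      linear_combination F ![z 0, z 1] * he1
    have hz' : (![z 0, z 1] : C2) = z := by
      funext i
      fin_cases i <;> rfl
    rw [hz'] at hout
    rw [← hout, hK]
    have h5 := MeasureTheory.setIntegral_prod (μ := MeasureTheory.volume)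
      (ν := MeasureTheory.volume) _ hint
    refine h5.trans ?_
    simp only [hin]
  have hKF : ∀ z ∈ ball p R, z ≠ p → K z = F z := by
    intro z hz hzp
    by_cases hz1 : z 1 = p 1
    · have hz0 : z 0 ≠ p 0 := by
        intro h
        apply hzp
        funext i
        fin_cases i
        · exact h
        · exact hz1
      have hcurve : Continuous fun w : ℂ => (![z 0, w] : C2) := by
        refine continuous_pi fun i => ?_
        fin_cases i
        · exact continuous_const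
        · exact continuous_id
      have hval : (![z 0, p 1] : C2) = z := by
        funext i
        fin_cases i
        · rfl
        · exact hz1.symm
      have ht : Tendsto (fun w : ℂ => (![z 0, w] : C2)) (𝓝[≠] (p 1)) (𝓝 z) := by
        have := hcurve.tendsto (p 1)
        rw [hval] at this
        exact this.mono_left nhdsWithin_le_nhds
      have hKc : ContinuousAt K z := (hKd z hz).continuousAt
      have hzr : z ∈ ball p r \ {p} := ⟨ball_subset_ball hRr.le hz, hzp⟩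
      have hFc : ContinuousAt F z := (hF.differentiableAt (hopen.mem_nhds hzr)).continuousAt
      refine tendsto_nhds_unique_of_frequently_eq (hKc.tendsto.comp ht) (hFc.tendsto.comp ht) ?_
      refine Eventually.frequently ?_
      have h1 : ∀ᶠ w in 𝓝[≠] (p 1), (![z 0, w] : C2) ∈ ball p R :=
        ht (isOpen_ball.mem_nhds hz)
      filter_upwards [h1, self_mem_nhdsWithin] with w hw hw1
      exact hK1 _ hw hw1
    · exact hK1 z hz hz1
  refine ⟨fun z => if z = p then K p else F z, ?_, fun z _ hzp => if_neg hzp⟩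
  intro z hz
  refine DifferentiableAt.differentiableWithinAt ?_
  by_cases hzp : z = p
  · subst hzp
    have h1 : (fun x => if x = z then K z else F x) =ᶠ[𝓝 z] K := by
      filter_upwards [ball_mem_nhds z hR0] with x hx
      by_cases hxz : x = z
      · rw [if_pos hxz, hxz]
      · rw [if_neg hxz, hKF x hx hxz]
    exact (hKd z (mem_ball_self hR0)).congr_of_eventuallyEq h1
  · have h1 : (fun x => if x = p then K p else F x) =ᶠ[𝓝 z] F := by
      filter_upwards [isOpen_ne.mem_nhds hzp] with x hx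
      exact if_neg hx
    exact (hF.differentiableAt (hopen.mem_nhds ⟨hz, hzp⟩)).congr_of_eventuallyEq h1

/-- A holomorphic function on a ball has no isolated zero.
PROOF: otherwise `1 / F` extends holomorphically by `hartogs`, and `F * (1/F) = 1` at `p` by continuity. -/
theorem not_isolated_zero {p : C2} {r : ℝ} (hr : 0 < r) {F : C2 → ℂ} (hF : DifferentiableOn ℂ F (ball p r))
    (h0 : F p = 0) : ∃ z ∈ ball p r, z ≠ p ∧ F z = 0 := by
  by_contra hcon
  push Not at hcon
  have h1 : DifferentiableOn ℂ (fun z => (F z)⁻¹) (ball p r \ {p}) := by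
    intro z hz
    exact ((hF z hz.1).mono diff_subset).inv (hcon z hz.1 hz.2)
  obtain ⟨G, hG, hGF⟩ := hartogs hr h1
  have hp : ball p r ∈ 𝓝 p := ball_mem_nhds p hr
  have hFc : ContinuousAt F p := (hF.differentiableAt hp).continuousAt
  have hGc : ContinuousAt G p := (hG.differentiableAt hp).continuousAt
  have ht : Tendsto (fun z => F z * G z) (𝓝[≠] p) (𝓝 (F p * G p)) :=
    (hFc.mul hGc).tendsto.mono_left nhdsWithin_le_nhds
  have hcst : Tendsto (fun _ : C2 => (1 : ℂ)) (𝓝[≠] p) (𝓝 1) := tendsto_const_nhds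
  have h2 : (fun z => F z * G z) =ᶠ[𝓝[≠] p] fun _ => 1 := by
    filter_upwards [nhdsWithin_le_nhds hp, self_mem_nhdsWithin] with z hz hzp
    rw [hGF z hz hzp, mul_inv_cancel₀ (hcon z hz hzp)]
  have h3 := tendsto_nhds_unique (ht.congr' h2) hcst
  rw [h0, zero_mul] at h3
  exact zero_ne_one h3

/-- Hence infinitely many zeros in every ball. -/
theorem infinite_zeros {p : C2} {r : ℝ} (hr : 0 < r) {F : C2 → ℂ} (hF : DifferentiableOn ℂ F (ball p r))
    (h0 : F p = 0) : {z ∈ ball p r | F z = 0}.Infinite := by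
  intro hfin
  have hfin' : ({z ∈ ball p r | F z = 0} \ {p}).Finite := hfin.subset diff_subset
  have h1 : ({z ∈ ball p r | F z = 0} \ {p})ᶜ ∈ 𝓝 p :=
    hfin'.isClosed.isOpen_compl.mem_nhds fun h => h.2 rfl
  obtain ⟨ε, hε, hsub⟩ := Metric.mem_nhds_iff.1 h1
  have hm : 0 < min ε r := lt_min hε hr
  obtain ⟨z, hz, hzp, hFz⟩ := not_isolated_zero hm
    (hF.mono (ball_subset_ball (min_le_right ε r))) h0
  exact hsub (ball_subset_ball (min_le_left ε r) hz)
    ⟨⟨ball_subset_ball (min_le_right ε r) hz, hFz⟩, hzp⟩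

end Q2T
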