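import Pool.Agent.H.MP_89f84f_ag.q2.ThB

set_option autoImplicit false

open Complex Topology Filter Asymptotics Metric Set

namespace Q2T

namespace PerData

variable (S : PerData)

/-- The Hermitian form `z · (Im τ)⁻¹ z̄`. -/
noncomputable def hf (z : C2) : ℝ := S.qf (fun i => (z i).re) + S.qf (fun i => (z i).im)

private theorem JetA_D : 0 < S.D := by
  unfold D
  linarith [S.det_pos]

private theorem JetA_A : 0 < (S.τ 1 1).im := by
  have h1 := S.det_pos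
  have h2 := S.pos
  have h3 := sq_nonneg (S.τ 0 1).im
  have h4 : 0 < (S.τ 0 0).im * (S.τ 1 1).im := by linarith
  exact (pos_iff_pos_of_mul_pos h4).1 h2

private theorem JetA_lower (y : Fin 2 → ℝ) :
    (y 0 ^ 2 + y 1 ^ 2) / ((S.τ 1 1).im + (S.τ 0 0).im) ≤ S.qf y := by
  have hD := S.JetA_D
  have h0 := S.pos
  have h1 := S.JetA_A
  rw [qf, div_le_div_iff₀ (by linarith) hD]
  unfold D
  nlinarith [sq_nonneg ((S.τ 1 1).im * y 0 - (S.τ 0 1).im * y 1),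
    sq_nonneg ((S.τ 0 1).im * y 0 - (S.τ 0 0).im * y 1)]

private theorem JetA_upper (y : Fin 2 → ℝ) :
    S.qf y ≤ ((S.τ 1 1).im + (S.τ 0 0).im) / S.D * (y 0 ^ 2 + y 1 ^ 2) := by
  have hD := S.JetA_D
  have h0 := S.pos
  have h1 := S.JetA_A
  have key : 0 ≤ (S.τ 0 0).im * y 0 ^ 2 + 2 * (S.τ 0 1).im * (y 0 * y 1) +
      (S.τ 1 1).im * y 1 ^ 2 := by
    have h2 : 0 ≤ (S.τ 0 0).im * ((S.τ 0 0).im * y 0 ^ 2 + 2 * (S.τ 0 1).im * (y 0 * y 1) +
        (S.τ 1 1).im * y 1 ^ 2) := by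
      have h3 : (S.τ 0 0).im * ((S.τ 0 0).im * y 0 ^ 2 + 2 * (S.τ 0 1).im * (y 0 * y 1) +
        (S.τ 1 1).im * y 1 ^ 2) = ((S.τ 0 0).im * y 0 + (S.τ 0 1).im * y 1) ^ 2 +
          S.D * y 1 ^ 2 := by
        unfold D; ring
      rw [h3]
      positivity
    exact nonneg_of_mul_nonneg_right h2 h0
  rw [qf, div_mul_eq_mul_div]
  apply div_le_div_of_nonneg_right _ hD.le
  linarith

private theorem JetA_norm (w : ℂ) : w.re ^ 2 + w.im ^ 2 = ‖w‖ ^ 2 := by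
  rw [Complex.sq_norm, Complex.normSq_apply]
  ring

private theorem JetA_sq_le (z : C2) : ‖z‖ ^ 2 ≤ ‖z 0‖ ^ 2 + ‖z 1‖ ^ 2 := by
  have h : ‖z‖ ≤ √(‖z 0‖ ^ 2 + ‖z 1‖ ^ 2) := by
    rw [pi_norm_le_iff_of_nonneg (Real.sqrt_nonneg _)]
    intro i
    apply Real.le_sqrt_of_sq_le
    fin_cases i
    · have := sq_nonneg ‖z 1‖
      simp only [Fin.zero_eta]
      linarith
    · have := sq_nonneg ‖z 0‖
      simp only [Fin.mk_one]
      linarith
  calc ‖z‖ ^ 2 ≤ (√(‖z 0‖ ^ 2 + ‖z 1‖ ^ 2)) ^ 2 := by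
        exact pow_le_pow_left₀ (norm_nonneg _) h 2
    _ = ‖z 0‖ ^ 2 + ‖z 1‖ ^ 2 := Real.sq_sqrt (by positivity)

/-- positive definite -/
theorem hf_lower : ∃ c > 0, ∀ z : C2, c * ‖z‖ ^ 2 ≤ S.hf z := by
  have h0 := S.pos
  have h1 := S.JetA_A
  refine ⟨1 / ((S.τ 1 1).im + (S.τ 0 0).im), by positivity, fun z => ?_⟩
  have e1 := S.JetA_lower (fun i => (z i).re)
  have e2 := S.JetA_lower (fun i => (z i).im)
  have e3 := JetA_sq_le z
  have e4 : 1 / ((S.τ 1 1).im + (S.τ 0 0).im) * ‖z‖ ^ 2 ≤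
      1 / ((S.τ 1 1).im + (S.τ 0 0).im) * (‖z 0‖ ^ 2 + ‖z 1‖ ^ 2) :=
    mul_le_mul_of_nonneg_left e3 (by positivity)
  refine e4.trans ?_
  rw [← JetA_norm, ← JetA_norm]
  unfold hf
  calc 1 / ((S.τ 1 1).im + (S.τ 0 0).im) *
        ((z 0).re ^ 2 + (z 0).im ^ 2 + ((z 1).re ^ 2 + (z 1).im ^ 2))
      = ((z 0).re ^ 2 + (z 1).re ^ 2) / ((S.τ 1 1).im + (S.τ 0 0).im) +
        ((z 0).im ^ 2 + (z 1).im ^ 2) / ((S.τ 1 1).im + (S.τ 0 0).im) := by ring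
    _ ≤ _ := add_le_add e1 e2

theorem hf_upper : ∃ C > 0, ∀ z : C2, S.hf z ≤ C * ‖z‖ ^ 2 := by
  have h0 := S.pos
  have h1 := S.JetA_A
  have hD := S.JetA_D
  refine ⟨2 * (((S.τ 1 1).im + (S.τ 0 0).im) / S.D), by positivity, fun z => ?_⟩
  have e1 := S.JetA_upper (fun i => (z i).re)
  have e2 := S.JetA_upper (fun i => (z i).im)
  have e3 : ‖z 0‖ ^ 2 ≤ ‖z‖ ^ 2 := pow_le_pow_left₀ (norm_nonneg _) (norm_le_pi_norm z 0) 2
  have e4 : ‖z 1‖ ^ 2 ≤ ‖z‖ ^ 2 := pow_le_pow_left₀ (norm_nonneg _) (norm_le_pi_norm z 1) 2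
  have hK : 0 < ((S.τ 1 1).im + (S.τ 0 0).im) / S.D := by positivity
  unfold hf
  calc S.qf (fun i => (z i).re) + S.qf (fun i => (z i).im)
      ≤ ((S.τ 1 1).im + (S.τ 0 0).im) / S.D * ((z 0).re ^ 2 + (z 1).re ^ 2) +
        ((S.τ 1 1).im + (S.τ 0 0).im) / S.D * ((z 0).im ^ 2 + (z 1).im ^ 2) := add_le_add e1 e2
    _ = ((S.τ 1 1).im + (S.τ 0 0).im) / S.D * (‖z 0‖ ^ 2 + ‖z 1‖ ^ 2) := by
        rw [← JetA_norm, ← JetA_norm]; ring
    _ ≤ ((S.τ 1 1).im + (S.τ 0 0).im) / S.D * (‖z‖ ^ 2 + ‖z‖ ^ 2) :=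
        mul_le_mul_of_nonneg_left (add_le_add e3 e4) hK.le
    _ = _ := by ring

/-- the real linear map `(ξ, η) ↦ τ ξ + Δ η` -/
private def JetA_L : ((Fin 2 → ℝ) × (Fin 2 → ℝ)) →ₗ[ℝ] C2 where
  toFun x := ![S.τ 0 0 * (x.1 0 : ℂ) + S.τ 0 1 * (x.1 1 : ℂ) + (x.2 0 : ℂ),
    S.τ 1 0 * (x.1 0 : ℂ) + S.τ 1 1 * (x.1 1 : ℂ) + (S.d : ℂ) * (x.2 1 : ℂ)]
  map_add' x y := by
    funext i
    fin_cases i <;> simp <;> ring
  map_smul' c x := by
    funext i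
    fin_cases i <;> simp <;> ring

private theorem JetA_ker : LinearMap.ker S.JetA_L = ⊥ := by
  rw [LinearMap.ker_eq_bot']
  rintro ⟨ξ, η⟩ h
  have h0 : S.τ 0 0 * (ξ 0 : ℂ) + S.τ 0 1 * (ξ 1 : ℂ) + (η 0 : ℂ) = 0 := congrFun h 0
  have h1 : S.τ 1 0 * (ξ 0 : ℂ) + S.τ 1 1 * (ξ 1 : ℂ) + (S.d : ℂ) * (η 1 : ℂ) = 0 := congrFun h 1
  rw [← S.symm] at h1
  have i0 : (S.τ 0 0).im * ξ 0 + (S.τ 0 1).im * ξ 1 = 0 := by
    have := congrArg Complex.im h0
    simpa using this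
  have i1 : (S.τ 0 1).im * ξ 0 + (S.τ 1 1).im * ξ 1 = 0 := by
    have := congrArg Complex.im h1
    simpa using this
  have hD := S.JetA_D
  unfold D at hD
  have x0 : ξ 0 = 0 := by
    have : ((S.τ 0 0).im * (S.τ 1 1).im - (S.τ 0 1).im ^ 2) * ξ 0 = 0 := by
      linear_combination (S.τ 1 1).im * i0 - (S.τ 0 1).im * i1
    exact (mul_eq_zero.1 this).resolve_left hD.ne'
  have x1 : ξ 1 = 0 := by
    have : ((S.τ 0 0).im * (S.τ 1 1).im - (S.τ 0 1).im ^ 2) * ξ 1 = 0 := by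
      linear_combination (S.τ 0 0).im * i1 - (S.τ 0 1).im * i0
    exact (mul_eq_zero.1 this).resolve_left hD.ne'
  rw [x0, x1] at h0 h1
  have hd : (S.d : ℂ) ≠ 0 := Nat.cast_ne_zero.2 S.d_pos.ne'
  have y0 : η 0 = 0 := by simpa using h0
  have y1 : η 1 = 0 := by
    simpa [hd, S.d_pos.ne'] using h1
  ext i
  · fin_cases i
    · exact x0
    · exact x1
  · fin_cases i
    · exact y0
    · exact y1

private theorem JetA_cast (p : Z2) : ‖(fun i => ((p i : ℤ) : ℝ) : Fin 2 → ℝ)‖ = ‖p‖ := by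
  apply le_antisymm
  · rw [pi_norm_le_iff_of_nonneg (norm_nonneg _)]
    intro i
    have := norm_le_pi_norm p i
    rwa [← Int.norm_cast_real] at this
  · rw [pi_norm_le_iff_of_nonneg (norm_nonneg _)]
    intro i
    have := norm_le_pi_norm (fun i => ((p i : ℤ) : ℝ) : Fin 2 → ℝ) i
    rwa [Int.norm_cast_real] at this

/-- the lattice points grow linearly -/
theorem lat_growth : ∃ c > 0, ∀ p q : Z2, c * (‖p‖ + ‖q‖) ≤ ‖S.tv p + S.dv q‖ := by
  obtain ⟨K, hK, hL⟩ := S.JetA_L.exists_antilipschitzWith S.JetA_ker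
  have hK' : (0 : ℝ) < K := hK
  refine ⟨1 / (2 * K), by positivity, fun p q => ?_⟩
  have h := hL.le_mul_norm (map_zero S.JetA_L)
    ((fun i => ((p i : ℤ) : ℝ)), (fun i => ((q i : ℤ) : ℝ)))
  have e : S.JetA_L ((fun i => ((p i : ℤ) : ℝ)), (fun i => ((q i : ℤ) : ℝ))) =
      S.tv p + S.dv q := by
    funext i
    fin_cases i
    · simp [JetA_L]
    · simp [JetA_L]
  rw [e, Prod.norm_def, JetA_cast, JetA_cast] at h
  have h1 : ‖p‖ ≤ K * ‖S.tv p + S.dv q‖ := (le_max_left _ _).trans h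
  have h2 : ‖q‖ ≤ K * ‖S.tv p + S.dv q‖ := (le_max_right _ _).trans h
  rw [div_mul_eq_mul_div, one_mul, div_le_iff₀ (by positivity)]
  linarith

private theorem JetA_sumZ {c : ℝ} (hc : 0 < c) :
    Summable fun k : ℤ => Real.exp (-(c * |(k : ℝ)|)) := by
  have h : Summable fun n : ℕ => Real.exp ((n : ℝ) * (-c)) :=
    Real.summable_exp_nat_mul_iff.2 (by linarith)
  apply Summable.of_nat_of_neg
  · refine h.congr fun n => ?_
    congr 1
    simp; ring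
  · refine h.congr fun n => ?_
    congr 1
    simp; ring

private theorem JetA_sumZ2 {c : ℝ} (hc : 0 < c) :
    Summable fun p : Z2 => Real.exp (-(c * ‖p‖)) := by
  have h1 : Summable fun x : ℤ × ℤ => Real.exp (-(c / 2 * |(x.1 : ℝ)|)) *
      Real.exp (-(c / 2 * |(x.2 : ℝ)|)) :=
    (JetA_sumZ (half_pos hc)).mul_of_nonneg (JetA_sumZ (half_pos hc))
      (fun k => (Real.exp_pos _).le) (fun k => (Real.exp_pos _).le)
  have h2 := (finTwoArrowEquiv ℤ).summable_iff.2 h1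
  refine Summable.of_nonneg_of_le (fun p => (Real.exp_pos _).le) (fun p => ?_) h2
  show Real.exp (-(c * ‖p‖)) ≤ Real.exp (-(c / 2 * |((p 0 : ℤ) : ℝ)|)) *
    Real.exp (-(c / 2 * |((p 1 : ℤ) : ℝ)|))
  rw [← Real.exp_add]
  apply Real.exp_le_exp.2
  have e0 := norm_le_pi_norm p 0
  have e1 := norm_le_pi_norm p 1
  rw [← Int.norm_cast_real, Real.norm_eq_abs] at e0 e1
  have f0 := mul_le_mul_of_nonneg_left e0 (half_pos hc).le
  have f1 := mul_le_mul_of_nonneg_left e1 (half_pos hc).le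
  linarith

private theorem JetA_sum {c : ℝ} (hc : 0 < c) :
    Summable fun pq : Z2 × Z2 => Real.exp (-(c * (‖pq.1‖ + ‖pq.2‖))) := by
  have h := (JetA_sumZ2 hc).mul_of_nonneg (JetA_sumZ2 hc)
    (fun k => (Real.exp_pos _).le) (fun k => (Real.exp_pos _).le)
  refine h.congr fun pq => ?_
  rw [← Real.exp_add]
  congr 1
  ring

private theorem JetA_bdd (N : ℕ) {a : ℝ} (ha : 0 < a) :
    ∃ M : ℝ, 0 ≤ M ∧ ∀ t : ℝ, 0 ≤ t → t ^ N * Real.exp (-(a * t ^ 2)) ≤ M * Real.exp (-t) := by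
  refine ⟨N.factorial * Real.exp (1 / a), by positivity, fun t ht => ?_⟩
  have h1 : t ^ N ≤ N.factorial * Real.exp t := by
    have := Real.pow_div_factorial_le_exp t ht N
    rwa [div_le_iff₀ (by positivity), mul_comm] at this
  have h2 : Real.exp t * Real.exp (-(a * t ^ 2)) ≤ Real.exp (1 / a) * Real.exp (-t) := by
    rw [← Real.exp_add, ← Real.exp_add]
    apply Real.exp_le_exp.2
    have h3 : 0 ≤ (a * t - 1) ^ 2 / a := by positivity
    have h4 : (a * t - 1) ^ 2 / a = a * t ^ 2 - 2 * t + 1 / a := by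
      field_simp
      ring
    linarith
  calc t ^ N * Real.exp (-(a * t ^ 2))
      ≤ (N.factorial * Real.exp t) * Real.exp (-(a * t ^ 2)) :=
        mul_le_mul_of_nonneg_right h1 (Real.exp_pos _).le
    _ = N.factorial * (Real.exp t * Real.exp (-(a * t ^ 2))) := by ring
    _ ≤ N.factorial * (Real.exp (1 / a) * Real.exp (-t)) :=
        mul_le_mul_of_nonneg_left h2 (by positivity)
    _ = _ := by ring

/-- Locally uniform version (for holomorphy). -/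
theorem gauss_bound (N : ℕ) {n : ℝ} (hn : 0 < n) (ρ : ℝ) :
    ∃ b : Z2 × Z2 → ℝ, Summable b ∧ ∀ pq : Z2 × Z2, ∀ z : C2, ‖z‖ ≤ ρ →
      ‖z + (S.tv pq.1 + S.dv pq.2)‖ ^ N *
        Real.exp (-(Real.pi * n / 2 * S.hf (z + (S.tv pq.1 + S.dv pq.2)))) ≤ b pq := by
  obtain ⟨c1, hc1, hlow⟩ := S.hf_lower
  obtain ⟨c2, hc2, hgr⟩ := S.lat_growth
  have ha : 0 < Real.pi * n / 2 * c1 := by positivity
  obtain ⟨M, hM, hMt⟩ := JetA_bdd N ha
  refine ⟨fun pq => M * Real.exp ρ * Real.exp (-(c2 * (‖pq.1‖ + ‖pq.2‖))),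
    (JetA_sum hc2).mul_left _, fun pq z hz => ?_⟩
  set t := ‖z + (S.tv pq.1 + S.dv pq.2)‖ with ht
  have ht0 : 0 ≤ t := norm_nonneg _
  have h1 : Real.exp (-(Real.pi * n / 2 * S.hf (z + (S.tv pq.1 + S.dv pq.2)))) ≤
      Real.exp (-(Real.pi * n / 2 * c1 * t ^ 2)) := by
    apply Real.exp_le_exp.2
    have h2 := mul_le_mul_of_nonneg_left (hlow (z + (S.tv pq.1 + S.dv pq.2)))
      (show 0 ≤ Real.pi * n / 2 by positivity)
    rw [← ht] at h2
    linarith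
  have h3 : c2 * (‖pq.1‖ + ‖pq.2‖) - ρ ≤ t := by
    have h4 := hgr pq.1 pq.2
    have h5 : ‖S.tv pq.1 + S.dv pq.2‖ ≤ t + ‖z‖ := by
      have := norm_sub_le (z + (S.tv pq.1 + S.dv pq.2)) z
      rwa [add_sub_cancel_left] at this
    linarith
  calc t ^ N * Real.exp (-(Real.pi * n / 2 * S.hf (z + (S.tv pq.1 + S.dv pq.2))))
      ≤ t ^ N * Real.exp (-(Real.pi * n / 2 * c1 * t ^ 2)) :=
        mul_le_mul_of_nonneg_left h1 (by positivity)
    _ ≤ M * Real.exp (-t) := hMt t ht0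
    _ ≤ M * (Real.exp ρ * Real.exp (-(c2 * (‖pq.1‖ + ‖pq.2‖)))) := by
        apply mul_le_mul_of_nonneg_left _ hM
        rw [← Real.exp_add]
        apply Real.exp_le_exp.2
        linarith
    _ = _ := by ring

/-- Gaussian sums over the lattice converge. -/
theorem gauss_summable (N : ℕ) {n : ℝ} (hn : 0 < n) (z : C2) :
    Summable fun pq : Z2 × Z2 => ‖z + (S.tv pq.1 + S.dv pq.2)‖ ^ N *
      Real.exp (-(Real.pi * n / 2 * S.hf (z + (S.tv pq.1 + S.dv pq.2)))) := by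
  obtain ⟨b, hb, h⟩ := S.gauss_bound N hn ‖z‖
  exact Summable.of_nonneg_of_le (fun pq => by positivity) (fun pq => h pq z le_rfl) hb

/-- Decay as `n → ∞`: if `hf (z + λ) ≥ m + κ` for all `z` in a bounded set and all `λ` in `A`, with `κ > 0`, then
`exp (π n m / 2) * ∑_{λ ∈ A} ‖z + λ‖ ^ N exp (-(π n / 2) hf (z + λ)) → 0` uniformly. -/
theorem gauss_decay (N : ℕ) (ρ m κ : ℝ) (hκ : 0 < κ) {δ : ℝ} (hδ : 0 < δ) :
    ∃ n₀ : ℕ, ∀ n : ℕ, n₀ ≤ n → ∀ (A : Set (Z2 × Z2)) (z : C2), ‖z‖ ≤ ρ →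
      (∀ pq ∈ A, m + κ ≤ S.hf (z + (S.tv pq.1 + S.dv pq.2))) →
      Real.exp (Real.pi * n * m / 2) * ∑' pq : A, ‖z + (S.tv pq.1.1 + S.dv pq.1.2)‖ ^ N *
        Real.exp (-(Real.pi * n / 2 * S.hf (z + (S.tv pq.1.1 + S.dv pq.1.2)))) ≤ δ := by
  obtain ⟨b, hb, hbd⟩ := S.gauss_bound N one_pos ρ
  -- the factor tends to zero
  have htend : Tendsto (fun n : ℕ => Real.exp (Real.pi * m / 2 + Real.pi * κ / 2 +
      (n : ℝ) * (-(Real.pi * κ / 2))) * |∑' pq, b pq|) atTop (𝓝 (0 * |∑' pq, b pq|)) := by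
    refine Tendsto.mul_const _ ?_
    apply Real.tendsto_exp_atBot.comp
    apply tendsto_atBot_add_const_left
    exact (tendsto_natCast_atTop_atTop).atTop_mul_const_of_neg (by
      have := Real.pi_pos
      have : 0 < Real.pi * κ / 2 := by positivity
      linarith)
  rw [zero_mul] at htend
  obtain ⟨n₀, hn₀⟩ := Filter.eventually_atTop.1 (htend.eventually (gt_mem_nhds hδ))
  refine ⟨max n₀ 1, fun n hn A z hz hA => ?_⟩
  have hn1 : 1 ≤ n := (le_max_right _ _).trans hn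
  have hn2 : n₀ ≤ n := (le_max_left _ _).trans hn
  have hn1' : (1 : ℝ) ≤ n := by exact_mod_cast hn1
  have hb0 : ∀ pq, 0 ≤ b pq := fun pq => le_trans (by positivity) (hbd pq z hz)
  -- one term
  have hterm : ∀ pq : A, ‖z + (S.tv pq.1.1 + S.dv pq.1.2)‖ ^ N *
      Real.exp (-(Real.pi * n / 2 * S.hf (z + (S.tv pq.1.1 + S.dv pq.1.2)))) ≤
      Real.exp (-(Real.pi * (n - 1) / 2 * (m + κ))) * b pq.1 := by
    intro pq
    have h1 := hA pq.1 pq.2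
    have h2 := hbd pq.1 z hz
    have h3 : Real.exp (-(Real.pi * n / 2 * S.hf (z + (S.tv pq.1.1 + S.dv pq.1.2)))) ≤
        Real.exp (-(Real.pi * (n - 1) / 2 * (m + κ))) *
          Real.exp (-(Real.pi * 1 / 2 * S.hf (z + (S.tv pq.1.1 + S.dv pq.1.2)))) := by
      rw [← Real.exp_add]
      apply Real.exp_le_exp.2
      have h4 := mul_le_mul_of_nonneg_left h1
        (show 0 ≤ Real.pi * (n - 1) / 2 by
          have := Real.pi_pos
          have : (0 : ℝ) ≤ n - 1 := by linarith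
          positivity)
      linarith
    calc ‖z + (S.tv pq.1.1 + S.dv pq.1.2)‖ ^ N *
        Real.exp (-(Real.pi * n / 2 * S.hf (z + (S.tv pq.1.1 + S.dv pq.1.2))))
        ≤ ‖z + (S.tv pq.1.1 + S.dv pq.1.2)‖ ^ N *
          (Real.exp (-(Real.pi * (n - 1) / 2 * (m + κ))) *
          Real.exp (-(Real.pi * 1 / 2 * S.hf (z + (S.tv pq.1.1 + S.dv pq.1.2))))) :=
          mul_le_mul_of_nonneg_left h3 (by positivity)
      _ = Real.exp (-(Real.pi * (n - 1) / 2 * (m + κ))) *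
          (‖z + (S.tv pq.1.1 + S.dv pq.1.2)‖ ^ N *
          Real.exp (-(Real.pi * 1 / 2 * S.hf (z + (S.tv pq.1.1 + S.dv pq.1.2))))) := by ring
      _ ≤ _ := mul_le_mul_of_nonneg_left h2 (Real.exp_pos _).le
  have hsA : Summable fun pq : A => Real.exp (-(Real.pi * (n - 1) / 2 * (m + κ))) * b pq.1 :=
    (hb.subtype A).mul_left _
  have hsA' : Summable fun pq : A => ‖z + (S.tv pq.1.1 + S.dv pq.1.2)‖ ^ N *
      Real.exp (-(Real.pi * n / 2 * S.hf (z + (S.tv pq.1.1 + S.dv pq.1.2)))) :=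
    Summable.of_nonneg_of_le (fun pq => by positivity) hterm hsA
  have h5 : ∑' pq : A, ‖z + (S.tv pq.1.1 + S.dv pq.1.2)‖ ^ N *
      Real.exp (-(Real.pi * n / 2 * S.hf (z + (S.tv pq.1.1 + S.dv pq.1.2)))) ≤
      Real.exp (-(Real.pi * (n - 1) / 2 * (m + κ))) * |∑' pq, b pq| := by
    refine (hsA'.tsum_le_tsum hterm hsA).trans ?_
    rw [tsum_mul_left]
    apply mul_le_mul_of_nonneg_left _ (Real.exp_pos _).le
    exact (tsum_comp_le_tsum_of_inj hb hb0 Subtype.val_injective).trans (le_abs_self _)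
  calc Real.exp (Real.pi * n * m / 2) * ∑' pq : A, ‖z + (S.tv pq.1.1 + S.dv pq.1.2)‖ ^ N *
        Real.exp (-(Real.pi * n / 2 * S.hf (z + (S.tv pq.1.1 + S.dv pq.1.2))))
      ≤ Real.exp (Real.pi * n * m / 2) *
        (Real.exp (-(Real.pi * (n - 1) / 2 * (m + κ))) * |∑' pq, b pq|) :=
        mul_le_mul_of_nonneg_left h5 (Real.exp_pos _).le
    _ = Real.exp (Real.pi * m / 2 + Real.pi * κ / 2 + (n : ℝ) * (-(Real.pi * κ / 2))) *
        |∑' pq, b pq| := by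
        rw [← mul_assoc, ← Real.exp_add]
        congr 2
        ring
    _ ≤ δ := (hn₀ n hn2).le

end PerData

end Q2T
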