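import Pool.Agent.H.MP_89f84f_ag.q2.JetB

set_option autoImplicit false

open Complex Topology Filter Asymptotics Metric Set

namespace Q2T

namespace PerData

variable (S : PerData)

private theorem jetC_finite (v : C2) :
    {pq : Z2 × Z2 | ‖v + (S.tv pq.1 + S.dv pq.2)‖ ≤ 1}.Finite := by
  obtain ⟨c, hc, h⟩ := S.lat_growth
  have hb : {pq : Z2 × Z2 | ‖v + (S.tv pq.1 + S.dv pq.2)‖ ≤ 1} ⊆
      closedBall (0 : Z2 × Z2) ((1 + ‖v‖) / c) := by
    intro pq hpq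
    have hpq' : ‖v + (S.tv pq.1 + S.dv pq.2)‖ ≤ 1 := hpq
    rw [mem_closedBall_zero_iff]
    have h1 := h pq.1 pq.2
    have h2 : ‖S.tv pq.1 + S.dv pq.2‖ ≤ 1 + ‖v‖ := by
      have h3 : S.tv pq.1 + S.dv pq.2 = (v + (S.tv pq.1 + S.dv pq.2)) - v := by abel
      rw [h3]
      exact (norm_sub_le _ _).trans (by linarith)
    rw [le_div_iff₀ hc]
    have h3 : ‖pq‖ ≤ ‖pq.1‖ + ‖pq.2‖ := by
      rw [Prod.norm_def]
      exact max_le (by linarith [norm_nonneg pq.2]) (by linarith [norm_nonneg pq.1])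
    calc ‖pq‖ * c ≤ (‖pq.1‖ + ‖pq.2‖) * c := mul_le_mul_of_nonneg_right h3 hc.le
      _ = c * (‖pq.1‖ + ‖pq.2‖) := mul_comm _ _
      _ ≤ 1 + ‖v‖ := h1.trans h2
  exact (isCompact_iff_finite.1 (isCompact_closedBall (0 : Z2 × Z2) ((1 + ‖v‖) / c))).subset hb

private theorem jetC_sep (v : C2) : ∀ᶠ μ in 𝓝[>] (0 : ℝ), ∀ pq : Z2 × Z2,
    v + (S.tv pq.1 + S.dv pq.2) ≠ 0 → μ ≤ ‖v + (S.tv pq.1 + S.dv pq.2)‖ := by
  have h1 : ∀ᶠ μ in 𝓝[>] (0 : ℝ), ∀ pq ∈ {pq : Z2 × Z2 | ‖v + (S.tv pq.1 + S.dv pq.2)‖ ≤ 1},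
      v + (S.tv pq.1 + S.dv pq.2) ≠ 0 → μ ≤ ‖v + (S.tv pq.1 + S.dv pq.2)‖ := by
    rw [Filter.eventually_all_finite (jetC_finite S v)]
    intro pq _
    by_cases h : v + (S.tv pq.1 + S.dv pq.2) = 0
    · exact Eventually.of_forall fun μ h' => absurd h h'
    · have hp := norm_pos_iff.2 h
      filter_upwards [Ioc_mem_nhdsGT hp] with μ hμ _ using hμ.2
  filter_upwards [h1, Ioc_mem_nhdsGT one_pos] with μ hμ hμ1 pq hpq
  by_cases h : ‖v + (S.tv pq.1 + S.dv pq.2)‖ ≤ 1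
  · exact hμ pq h hpq
  · exact hμ1.2.trans (not_le.1 h).le

private theorem jetC_mono (x z : C2) (a b : ℕ) :
    ‖(z 0 - x 0) ^ a * (z 1 - x 1) ^ b‖ ≤ ‖z - x‖ ^ (a + b) := by
  rw [norm_mul, norm_pow, norm_pow, pow_add]
  have h0 : ‖z 0 - x 0‖ ≤ ‖z - x‖ := norm_le_pi_norm (z - x) 0
  have h1 : ‖z 1 - x 1‖ ≤ ‖z - x‖ := norm_le_pi_norm (z - x) 1
  gcongr

/-- For `x i` distinct modulo the lattice: theta functions of large level that are close to
`(z - x i)^(a, b) coh n (x i)` near `x i` and close to `0` near the other `x k`, relative to the size of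
`coh n (x k)`.
PROOF: choose `ε` such that for `z` in the closed `ε`-ball of `x k` one has `hf (z - x k) ≤ m` and
`hf (z + λ - x i) ≥ m + κ` for all `(i, λ) ≠ (k, 0)` (`hf_lower`, `hf_upper`, discreteness of the lattice, finitely many
`i, k`).  Then `exists_peak` and `gauss_decay`, and for `k ≠ i` also the main term `λ = 0` is small. -/
theorem exists_near {r : ℕ} (x : Fin r → C2) (hx : ∀ i k, i ≠ k → x i - x k ∉ S.Lat) (N : ℕ) :
    ∃ ε > 0, ∀ δ > 0, ∃ n₀ : ℕ, ∀ n : ℕ, n₀ ≤ n → ∀ (α β : Fin 2 → ℝ) (i : Fin r) (a b : ℕ), a + b < N →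
      ∃ F ∈ S.Th n α β, ∀ (k : Fin r), ∀ z ∈ closedBall (x k) ε,
        ‖F z / S.coh n (x k) z - (if k = i then (z 0 - x i 0) ^ a * (z 1 - x i 1) ^ b else 0)‖ ≤ δ := by
  obtain ⟨c, hc, hlow⟩ := S.hf_lower
  obtain ⟨C, hC, hup⟩ := S.hf_upper
  obtain ⟨g, hg, hgrow⟩ := S.lat_growth
  have hsep : ∀ᶠ μ in 𝓝[>] (0 : ℝ), ∀ k i : Fin r, ∀ pq : Z2 × Z2,
      (x k - x i) + (S.tv pq.1 + S.dv pq.2) ≠ 0 →
        μ ≤ ‖(x k - x i) + (S.tv pq.1 + S.dv pq.2)‖ := by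
    rw [eventually_all]
    intro k
    rw [eventually_all]
    intro i
    exact jetC_sep S _
  obtain ⟨μ, hμ, hμ0'⟩ := (hsep.and self_mem_nhdsWithin).exists
  have hμ0 : 0 < μ := hμ0'
  have hsep' : ∀ (k i : Fin r) (pq : Z2 × Z2), (k ≠ i ∨ pq ≠ 0) →
      μ ≤ ‖(x k - x i) + (S.tv pq.1 + S.dv pq.2)‖ := by
    intro k i pq h
    apply hμ
    intro h0
    by_cases hki : k = i
    · subst hki
      have hpq : pq ≠ 0 := by simpa using h
      rw [sub_self, zero_add] at h0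
      have h1 := hgrow pq.1 pq.2
      rw [h0, norm_zero] at h1
      have h2 : ‖pq.1‖ + ‖pq.2‖ ≤ 0 := by
        by_contra hne
        push Not at hne
        have := mul_pos hg hne
        linarith
      have h3 : ‖pq.1‖ = 0 := le_antisymm (by linarith [norm_nonneg pq.2]) (norm_nonneg _)
      have h4 : ‖pq.2‖ = 0 := le_antisymm (by linarith [norm_nonneg pq.1]) (norm_nonneg _)
      exact hpq (Prod.ext (norm_eq_zero.1 h3) (norm_eq_zero.1 h4))
    · apply hx k i hki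
      have h1 : x k - x i = -(S.tv pq.1 + S.dv pq.2) := eq_neg_of_add_eq_zero_left h0
      rw [h1]
      exact S.Lat.neg_mem ⟨pq.1, pq.2, rfl⟩
  -- the radius
  set s : ℝ := min 1 (c / (2 * C)) with hs
  have hs0 : 0 < s := lt_min one_pos (by positivity)
  have hs1 : s ≤ 1 := min_le_left _ _
  have hs2 : C * s ^ 2 ≤ c / 2 := by
    have h1 : s ≤ c / (2 * C) := min_le_right _ _
    have h2 : s ^ 2 ≤ s := by nlinarith
    calc C * s ^ 2 ≤ C * (c / (2 * C)) := mul_le_mul_of_nonneg_left (h2.trans h1) hC.le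
      _ = c / 2 := by field_simp
  set ε : ℝ := μ / 2 * s with hε
  have hε0 : 0 < ε := by positivity
  have hεμ : ε ≤ μ / 2 := by nlinarith
  set m : ℝ := C * ε ^ 2 with hm
  set κ : ℝ := c * μ ^ 2 / 8 with hκ
  have hκ0 : 0 < κ := by positivity
  have hmκ : m + κ ≤ c * (μ / 2) ^ 2 := by
    have h1 : m = C * s ^ 2 * (μ ^ 2 / 4) := by rw [hm, hε]; ring
    have h2 : C * s ^ 2 * (μ ^ 2 / 4) ≤ c / 2 * (μ ^ 2 / 4) :=
      mul_le_mul_of_nonneg_right hs2 (by positivity)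
    rw [h1, hκ]
    nlinarith
  have hin : ∀ (k : Fin r), ∀ z ∈ closedBall (x k) ε, S.hf (z - x k) ≤ m := by
    intro k z hz
    rw [mem_closedBall, dist_eq_norm] at hz
    refine (hup _).trans ?_
    rw [hm]
    have := norm_nonneg (z - x k)
    gcongr
  have hout : ∀ (k i : Fin r) (pq : Z2 × Z2), (k ≠ i ∨ pq ≠ 0) → ∀ z ∈ closedBall (x k) ε,
      m + κ ≤ S.hf ((z - x i) + (S.tv pq.1 + S.dv pq.2)) := by
    intro k i pq h z hz
    rw [mem_closedBall, dist_eq_norm] at hz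
    have h1 := hsep' k i pq h
    have h2 : μ / 2 ≤ ‖(z - x i) + (S.tv pq.1 + S.dv pq.2)‖ := by
      have h3 : (x k - x i) + (S.tv pq.1 + S.dv pq.2) =
          ((z - x i) + (S.tv pq.1 + S.dv pq.2)) - (z - x k) := by abel
      rw [h3] at h1
      have h4 := norm_sub_le ((z - x i) + (S.tv pq.1 + S.dv pq.2)) (z - x k)
      linarith
    refine hmκ.trans (le_trans ?_ (hlow _))
    gcongr
  refine ⟨ε, hε0, fun δ hδ => ?_⟩
  -- radius for the Gaussian sums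
  set ρ : ℝ := ε + ∑ k : Fin r, ∑ i : Fin r, ‖x k - x i‖ with hρ
  have hzρ : ∀ (k i : Fin r), ∀ z ∈ closedBall (x k) ε, ‖z - x i‖ ≤ ρ := by
    intro k i z hz
    rw [mem_closedBall, dist_eq_norm] at hz
    have h1 : z - x i = (z - x k) + (x k - x i) := by abel
    rw [h1]
    refine (norm_add_le _ _).trans (add_le_add hz ?_)
    calc ‖x k - x i‖ ≤ ∑ i : Fin r, ‖x k - x i‖ :=
          Finset.single_le_sum (f := fun i => ‖x k - x i‖) (fun _ _ => norm_nonneg _)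
            (Finset.mem_univ i)
      _ ≤ ∑ k : Fin r, ∑ i : Fin r, ‖x k - x i‖ :=
          Finset.single_le_sum (f := fun k => ∑ i : Fin r, ‖x k - x i‖)
            (fun _ _ => Finset.sum_nonneg fun _ _ => norm_nonneg _) (Finset.mem_univ k)
  choose f hf using fun N' : ℕ => S.gauss_decay N' ρ m κ hκ0 (half_pos hδ)
  refine ⟨1 + ∑ N' ∈ Finset.range N, f N', fun n hn α β i a b hab => ?_⟩
  have hn1 : 1 ≤ n := by omega
  have hnf : f (a + b) ≤ n := by
    have h1 : f (a + b) ≤ ∑ N' ∈ Finset.range N, f N' :=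
      Finset.single_le_sum (f := f) (fun _ _ => Nat.zero_le _) (Finset.mem_range.2 hab)
    omega
  obtain ⟨F, hF, hFz⟩ := S.exists_peak (n := (n : ℤ)) (by exact_mod_cast hn1) α β (x i) a b
  refine ⟨F, hF, fun k z hz => ?_⟩
  have hcoh : ∀ y : C2, ‖S.coh n y z‖ = Real.exp (Real.pi * n * S.qf (fun i => (z i).im)) *
      Real.exp (-(Real.pi * n / 2 * S.hf (z - y))) := by
    intro y
    have := S.norm_coh n y z
    simpa using this
  have hcohpos : 0 < ‖S.coh n (x k) z‖ := by rw [hcoh]; positivity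
  have hcohne : S.coh n (x k) z ≠ 0 := norm_pos_iff.1 hcohpos
  set E : ℝ := Real.exp (Real.pi * n * S.qf (fun i => (z i).im)) with hE
  have hE0 : 0 < E := Real.exp_pos _
  have hcohlow : E ≤ ‖S.coh n (x k) z‖ * Real.exp (Real.pi * n * m / 2) := by
    rw [hcoh, mul_assoc, ← Real.exp_add]
    have h1 : 0 ≤ -(Real.pi * n / 2 * S.hf (z - x k)) + Real.pi * n * m / 2 := by
      have h2 := hin k z hz
      have h3 : 0 ≤ Real.pi * n / 2 := by positivity
      nlinarith [mul_le_mul_of_nonneg_left h2 h3]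
    have h2 : (1 : ℝ) ≤ Real.exp (-(Real.pi * n / 2 * S.hf (z - x k)) + Real.pi * n * m / 2) :=
      Real.one_le_exp h1
    nlinarith
  set G : ℝ := ∑' pq : {pq : Z2 × Z2 | pq ≠ 0}, ‖(z - x i) + (S.tv pq.1.1 + S.dv pq.1.2)‖ ^ (a + b) *
            Real.exp (-(Real.pi * n / 2 * S.hf ((z - x i) + (S.tv pq.1.1 + S.dv pq.1.2)))) with hG
  have hpeak : ‖F z - (z 0 - x i 0) ^ a * (z 1 - x i 1) ^ b * S.coh n (x i) z‖ ≤ E * G := by
    have := hFz z
    simpa using this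
  have hdec : Real.exp (Real.pi * n * m / 2) * G ≤ δ / 2 :=
    hf (a + b) n hnf {pq : Z2 × Z2 | pq ≠ 0} (z - x i) (hzρ k i z hz)
      (fun pq hpq => hout k i pq (Or.inr hpq) z hz)
  have hG0 : 0 ≤ G := tsum_nonneg fun _ => by positivity
  have hmain : ‖F z - (z 0 - x i 0) ^ a * (z 1 - x i 1) ^ b * S.coh n (x i) z‖ ≤
      δ / 2 * ‖S.coh n (x k) z‖ := by
    calc _ ≤ E * G := hpeak
      _ ≤ ‖S.coh n (x k) z‖ * Real.exp (Real.pi * n * m / 2) * G :=
          mul_le_mul_of_nonneg_right hcohlow hG0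
      _ = ‖S.coh n (x k) z‖ * (Real.exp (Real.pi * n * m / 2) * G) := by ring
      _ ≤ ‖S.coh n (x k) z‖ * (δ / 2) := mul_le_mul_of_nonneg_left hdec hcohpos.le
      _ = δ / 2 * ‖S.coh n (x k) z‖ := mul_comm _ _
  by_cases hki : k = i
  · rw [if_pos hki]
    subst hki
    have h1 : F z / S.coh n (x k) z - (z 0 - x k 0) ^ a * (z 1 - x k 1) ^ b =
        (F z - (z 0 - x k 0) ^ a * (z 1 - x k 1) ^ b * S.coh n (x k) z) / S.coh n (x k) z := by
      field_simp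
    rw [h1, norm_div, div_le_iff₀ hcohpos]
    refine hmain.trans ?_
    nlinarith
  · rw [if_neg hki, sub_zero, norm_div, div_le_iff₀ hcohpos]
    have hdec0 := hf (a + b) n hnf {(0 : Z2 × Z2)} (z - x i) (hzρ k i z hz)
      (fun pq hpq => hout k i pq (Or.inl hki) z hz)
    rw [tsum_singleton (0 : Z2 × Z2) (fun pq : Z2 × Z2 => ‖(z - x i) + (S.tv pq.1 + S.dv pq.2)‖ ^ (a + b) *
            Real.exp (-(Real.pi * n / 2 * S.hf ((z - x i) + (S.tv pq.1 + S.dv pq.2)))))] at hdec0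
    have hz0 : S.tv (0 : Z2 × Z2).1 + S.dv (0 : Z2 × Z2).2 = 0 := by
      show S.tv 0 + S.dv 0 = 0
      rw [S.tv_zero, S.dv_zero, add_zero]
    rw [hz0, add_zero] at hdec0
    have hterm : ‖(z 0 - x i 0) ^ a * (z 1 - x i 1) ^ b * S.coh n (x i) z‖ ≤
        δ / 2 * ‖S.coh n (x k) z‖ := by
      rw [norm_mul]
      calc _ ≤ ‖z - x i‖ ^ (a + b) * ‖S.coh n (x i) z‖ :=
            mul_le_mul_of_nonneg_right (jetC_mono _ _ _ _) (norm_nonneg _)
        _ = E * (‖z - x i‖ ^ (a + b) * Real.exp (-(Real.pi * n / 2 * S.hf (z - x i)))) := by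
            rw [hcoh]; ring
        _ ≤ ‖S.coh n (x k) z‖ * Real.exp (Real.pi * n * m / 2) *
            (‖z - x i‖ ^ (a + b) * Real.exp (-(Real.pi * n / 2 * S.hf (z - x i)))) :=
            mul_le_mul_of_nonneg_right hcohlow (by positivity)
        _ = ‖S.coh n (x k) z‖ * (Real.exp (Real.pi * n * m / 2) *
            (‖z - x i‖ ^ (a + b) * Real.exp (-(Real.pi * n / 2 * S.hf (z - x i))))) := by ring
        _ ≤ ‖S.coh n (x k) z‖ * (δ / 2) := mul_le_mul_of_nonneg_left hdec0 hcohpos.le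
        _ = δ / 2 * ‖S.coh n (x k) z‖ := mul_comm _ _
    have h1 : F z = (F z - (z 0 - x i 0) ^ a * (z 1 - x i 1) ^ b * S.coh n (x i) z) +
        (z 0 - x i 0) ^ a * (z 1 - x i 1) ^ b * S.coh n (x i) z := by ring
    rw [h1]
    refine (norm_add_le _ _).trans ?_
    linarith

end PerData

end Q2T
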