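import Pool.Agent.H.MP_89f84f_ag.q2.ThG

set_option autoImplicit false

open Complex Topology Filter Asymptotics Metric Set Module

namespace Q2T

/-- `f D_v g - g D_v f`, `D_v` the derivative in the direction `v`. -/
noncomputable def wro (v : C2) (f g : C2 → ℂ) : C2 → ℂ := fun z => f z * fderiv ℂ g z v - g z * fderiv ℂ f z v

/-- A `k`-structure on the polarised abelian surface `ℂ² / Λ`, `k ⊆ ℂ`: `k`-forms `R m` of the spaces of theta functions of
level `2 m`, forming a graded ring, with values in `k` at the origin, stable under `f (z) ↦ f (n z)`, and with a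
basis `v, w` of invariant vector fields defined over `k`. -/
structure KForm (S : PerData) (k : Subfield ℂ) where
  /-- the `k`-forms -/
  R : ℕ → Submodule k (C2 → ℂ)
  form : ∀ m : ℕ, ∃ (N : ℕ) (b : Basis (Fin N) ℂ (S.Th (2 * m) 0 0)),
    R m = Submodule.span k (Set.range fun i => (b i : C2 → ℂ))
  mul : ∀ (m n : ℕ) (f g : C2 → ℂ), f ∈ R m → g ∈ R n → f * g ∈ R (m + n)
  zero : ∀ (m : ℕ) (f : C2 → ℂ), f ∈ R m → f 0 ∈ k
  nmul : ∀ (m : ℕ) (n : ℤ) (f : C2 → ℂ), f ∈ R m → (fun z => f ((n : ℂ) • z)) ∈ R (n.natAbs ^ 2 * m)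
  frame : ∃ v w : C2, LinearIndependent ℂ ![v, w] ∧
    ∀ (m : ℕ) (f g : C2 → ℂ), f ∈ R m → g ∈ R m → wro v f g ∈ R (2 * m) ∧ wro w f g ∈ R (2 * m)

/-- The quotient of theta functions is a theta function. -/
private theorem kfA_line {g : C2 → ℂ} (hg : Differentiable ℂ g) {z₀ : C2}
    (h : ∀ᶠ z in 𝓝 z₀, g z = 0) (z : C2) : g z = 0 := by
  have h1 : Differentiable ℂ (fun t : ℂ => g (z₀ + t • (z - z₀))) := by fun_prop
  have h2 : (fun t : ℂ => g (z₀ + t • (z - z₀))) = fun _ => 0 := by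
    have ha : AnalyticOnNhd ℂ (fun t : ℂ => g (z₀ + t • (z - z₀))) univ :=
      h1.differentiableOn.analyticOnNhd isOpen_univ
    have hb : AnalyticOnNhd ℂ (fun _ : ℂ => (0 : ℂ)) univ := analyticOnNhd_const
    refine ha.eq_of_eventuallyEq (z₀ := 0) hb ?_
    have hc : Tendsto (fun t : ℂ => z₀ + t • (z - z₀)) (𝓝 0) (𝓝 z₀) := by
      have : Continuous (fun t : ℂ => z₀ + t • (z - z₀)) := by fun_prop
      have h3 := this.tendsto 0
      rwa [zero_smul, add_zero] at h3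
    exact hc.eventually h
  have h4 := congrFun h2 1
  simpa using h4

private theorem kfA_domain {s g : C2 → ℂ} (hs : Differentiable ℂ s) (hg : Differentiable ℂ g)
    (hs0 : s ≠ 0) (h : ∀ z, s z * g z = 0) (z : C2) : g z = 0 := by
  obtain ⟨z₀, hz₀⟩ : ∃ z₀, s z₀ ≠ 0 := by
    by_contra hc
    push Not at hc
    exact hs0 (funext hc)
  refine kfA_line hg (z₀ := z₀) ?_ z
  filter_upwards [hs.continuous.continuousAt.eventually_ne hz₀] with w hw
  exact (mul_eq_zero.1 (h w)).resolve_left hw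

private theorem kfA_quot {S : PerData} {u v : ℤ} {s h : C2 → ℂ} (hs : s ∈ S.Th v 0 0)
    (hs0 : s ≠ 0) (hh : Differentiable ℂ h) (hsh : s * h ∈ S.Th u 0 0) :
    h ∈ S.Th (u - v) 0 0 := by
  refine ⟨hh, fun p q z => ?_⟩
  obtain ⟨e, he⟩ : ∃ e : C2 → ℂ, e = fun z => cexp (-(Real.pi * I * ((u - v : ℤ) : ℂ) *
    (dot p (S.tv p) + 2 * dot p z))) := ⟨_, rfl⟩
  have hdot : Differentiable ℂ (fun z : C2 => dot p z) := by unfold dot; fun_prop
  have hed : Differentiable ℂ e := by rw [he]; fun_prop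
  have hJ : ∀ (w : ℤ) (z : C2), S.J w 0 0 p q z =
      cexp (-(Real.pi * I * w * (dot p (S.tv p) + 2 * dot p z))) := by
    intro w z
    unfold PerData.J rdot
    simp
  have hg : Differentiable ℂ (fun z => h (z + S.tv p + S.dv q) - e z * h z) := by fun_prop
  have key := kfA_domain (s := fun z => s (z + S.tv p + S.dv q)) (by have := hs.1; fun_prop) hg
    (by
      intro hc
      apply hs0
      funext w
      have h5 := congrFun hc (w - S.tv p - S.dv q)
      have h6 : w - S.tv p - S.dv q + S.tv p + S.dv q = w := by abel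
      have h7 : s (w - S.tv p - S.dv q + S.tv p + S.dv q) = 0 := h5
      rwa [h6] at h7)
    (fun z => by
      have h1 := hsh.2 p q z
      have h2 := hs.2 p q z
      rw [Pi.mul_apply, Pi.mul_apply, hJ] at h1
      rw [hJ] at h2
      show s (z + S.tv p + S.dv q) * (h (z + S.tv p + S.dv q) - e z * h z) = 0
      rw [mul_sub, h1, h2, he]
      have h3 : cexp (-(Real.pi * I * u * (dot p (S.tv p) + 2 * dot p z))) =
          cexp (-(Real.pi * I * v * (dot p (S.tv p) + 2 * dot p z))) *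
            cexp (-(Real.pi * I * ((u - v : ℤ) : ℂ) * (dot p (S.tv p) + 2 * dot p z))) := by
        rw [← Complex.exp_add]
        congr 1
        push_cast
        ring
      rw [h3]
      ring) z
  rw [hJ]
  have h4 : h (z + S.tv p + S.dv q) - e z * h z = 0 := key
  rw [sub_eq_zero] at h4
  rw [h4, he]

private abbrev KfAI (k : Subfield ℂ) := Basis.ofVectorSpaceIndex k ℂ

private noncomputable def kfAg (k : Subfield ℂ) : Basis (KfAI k) k ℂ := Basis.ofVectorSpace k ℂ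

private theorem kfA_indep {k : Subfield ℂ} (F : Finset (KfAI k)) (c : KfAI k → ℂ)
    (hc : ∀ s, c s ∈ k) (h : ∑ s ∈ F, kfAg k s * c s = 0) : ∀ s ∈ F, c s = 0 := by
  have h1 := linearIndependent_iff'.1 (kfAg k).linearIndependent F (fun s => ⟨c s, hc s⟩) (by
    rw [← h]
    refine Finset.sum_congr rfl fun s _ => ?_
    rw [mul_comm]
    rfl)
  intro s hs
  exact congrArg Subtype.val (h1 s hs)

namespace KForm

variable {S : PerData} {k : Subfield ℂ} (K : KForm S k)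

private structure KfADec (K : KForm S k) (m : ℕ) (f : C2 → ℂ) (g : KfAI k →₀ (C2 → ℂ)) :
    Prop where
  mem : ∀ s, g s ∈ K.R m
  eq : g.sum (fun s v => kfAg k s • v) = f

variable {K}

private theorem kfA_add {m : ℕ} {f f' : C2 → ℂ} {g g' : KfAI k →₀ (C2 → ℂ)}
    (h : KfADec K m f g) (h' : KfADec K m f' g') : KfADec K m (f + f') (g + g') where
  mem s := by rw [Finsupp.add_apply]; exact add_mem (h.mem s) (h'.mem s)
  eq := by
    rw [Finsupp.sum_add_index' (fun s => smul_zero _) (fun s a b => smul_add _ _ _), h.eq, h'.eq]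

private theorem kfA_neg {m : ℕ} {f : C2 → ℂ} {g : KfAI k →₀ (C2 → ℂ)}
    (h : KfADec K m f g) : KfADec K m (-f) (-g) where
  mem s := by rw [Finsupp.neg_apply]; exact neg_mem (h.mem s)
  eq := by
    rw [Finsupp.sum_neg_index (fun s => smul_zero _), ← h.eq]
    simp [Finsupp.sum]

private theorem kfA_zero (m : ℕ) : KfADec K m 0 0 where
  mem s := zero_mem _
  eq := by simp

private theorem kfA_smul {m : ℕ} {A : Submodule k (C2 → ℂ)} (hA : A ≤ K.R m) {a : C2 → ℂ}
    (ha : a ∈ A) (c : ℂ) : ∃ g, KfADec K m (c • a) g ∧ ∀ s, g s ∈ A := by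
  refine ⟨((kfAg k).repr c).mapRange (fun x => x • a) (zero_smul _ _), ⟨fun s => ?_, ?_⟩,
    fun s => ?_⟩
  · rw [Finsupp.mapRange_apply]
    exact hA (A.smul_mem _ ha)
  · rw [Finsupp.sum_mapRange_index (fun s => smul_zero _)]
    have h1 := (kfAg k).linearCombination_repr c
    rw [Finsupp.linearCombination_apply] at h1
    conv_rhs => rw [← h1]
    rw [Finsupp.sum, Finsupp.sum, Finset.sum_smul]
    refine Finset.sum_congr rfl fun s _ => ?_
    rw [smul_comm, smul_assoc]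
  · rw [Finsupp.mapRange_apply]
    exact A.smul_mem _ ha

private theorem kfA_span {m : ℕ} {A : Submodule k (C2 → ℂ)} (hA : A ≤ K.R m) {f : C2 → ℂ}
    (hf : f ∈ Submodule.span ℂ (A : Set (C2 → ℂ))) : ∃ g, KfADec K m f g ∧ ∀ s, g s ∈ A := by
  rw [Submodule.mem_span_set'] at hf
  obtain ⟨n, c, a, rfl⟩ := hf
  have h1 : ∀ F : Finset (Fin n), ∃ g, KfADec K m (∑ i ∈ F, c i • (a i : C2 → ℂ)) g ∧
      ∀ s, g s ∈ A := by
    intro F
    induction F using Finset.induction_on with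
    | empty => exact ⟨0, by simpa using kfA_zero m, fun s => zero_mem _⟩
    | insert i F hi ih =>
      obtain ⟨g, hg, hgA⟩ := ih
      obtain ⟨g', hg', hgA'⟩ := kfA_smul hA (a i).2 (c i)
      refine ⟨g' + g, ?_, fun s => ?_⟩
      · rw [Finset.sum_insert hi]
        exact kfA_add hg' hg
      · rw [Finsupp.add_apply]; exact add_mem (hgA' s) (hgA s)
  exact h1 Finset.univ

private theorem kfA_coord {N : ℕ} {T : Submodule ℂ (C2 → ℂ)} (b : Basis (Fin N) ℂ T) :
    ∀ f ∈ Submodule.span k (Set.range fun i => (b i : C2 → ℂ)),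
      ∃ h : f ∈ T, ∀ j, b.repr ⟨f, h⟩ j ∈ k := by
  intro f hf
  induction hf using Submodule.span_induction with
  | mem x hx =>
    obtain ⟨i, rfl⟩ := hx
    refine ⟨(b i).2, fun j => ?_⟩
    have h1 : (⟨(b i : C2 → ℂ), (b i).2⟩ : T) = b i := rfl
    rw [h1, b.repr_self, Finsupp.single_apply]
    split_ifs
    · exact one_mem k
    · exact zero_mem k
  | zero =>
    refine ⟨zero_mem T, fun j => ?_⟩
    have h1 : (⟨0, zero_mem T⟩ : T) = 0 := rfl
    rw [h1, map_zero, Finsupp.zero_apply]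
    exact zero_mem k
  | add x y _ _ hx hy =>
    obtain ⟨hx1, hx2⟩ := hx
    obtain ⟨hy1, hy2⟩ := hy
    refine ⟨add_mem hx1 hy1, fun j => ?_⟩
    have h1 : (⟨x + y, add_mem hx1 hy1⟩ : T) = ⟨x, hx1⟩ + ⟨y, hy1⟩ := rfl
    rw [h1, map_add, Finsupp.add_apply]
    exact add_mem (hx2 j) (hy2 j)
  | smul a x _ hx =>
    obtain ⟨hx1, hx2⟩ := hx
    have h0 : a • x = (a : ℂ) • x := rfl
    refine ⟨by rw [h0]; exact T.smul_mem _ hx1, fun j => ?_⟩
    have h1 : (⟨a • x, by rw [h0]; exact T.smul_mem _ hx1⟩ : T) = (a : ℂ) • ⟨x, hx1⟩ := rfl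
    rw [h1, map_smul, Finsupp.smul_apply, smul_eq_mul]
    exact mul_mem a.2 (hx2 j)

private theorem kfA_eq_zero {m : ℕ} {g : KfAI k →₀ (C2 → ℂ)} (h : KfADec K m 0 g) : g = 0 := by
  obtain ⟨N, b, hb⟩ := K.form m
  have hm : ∀ s, ∃ h : g s ∈ S.Th (2 * m) 0 0, ∀ j, b.repr ⟨g s, h⟩ j ∈ k := fun s =>
    kfA_coord b (g s) (by rw [← hb]; exact h.mem s)
  choose hm1 hm2 using hm
  have h1 : ∑ s ∈ g.support, kfAg k s • (⟨g s, hm1 s⟩ : S.Th (2 * m) 0 0) = 0 := by
    apply Subtype.ext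
    rw [AddSubmonoidClass.coe_finsetSum]
    exact h.eq
  ext1 s
  by_cases hs : s ∈ g.support
  · have h2 : (⟨g s, hm1 s⟩ : S.Th (2 * m) 0 0) = 0 := by
      apply b.repr.injective
      rw [map_zero]
      ext j
      rw [Finsupp.zero_apply]
      refine kfA_indep g.support (fun s => b.repr ⟨g s, hm1 s⟩ j) (fun s => hm2 s j) ?_ s hs
      have h3 : ∑ s ∈ g.support, kfAg k s * b.repr ⟨g s, hm1 s⟩ j =
          b.repr (∑ s ∈ g.support, kfAg k s • (⟨g s, hm1 s⟩ : S.Th (2 * m) 0 0)) j := by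
        rw [map_sum, Finsupp.finsetSum_apply]
        exact Finset.sum_congr rfl fun s _ => by rw [map_smul]; rfl
      rw [h3, h1, map_zero]
      rfl
    exact congrArg Subtype.val h2
  · rw [Finsupp.notMem_support_iff.1 hs]
    rfl

private theorem kfA_unique {m : ℕ} {f : C2 → ℂ} {g g' : KfAI k →₀ (C2 → ℂ)}
    (h : KfADec K m f g) (h' : KfADec K m f g') : g = g' := by
  have h1 := kfA_add h (kfA_neg h')
  rw [add_neg_cancel] at h1
  have h2 := kfA_eq_zero h1
  rwa [← sub_eq_add_neg, sub_eq_zero] at h2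

variable (K)

theorem mem {m : ℕ} {f : C2 → ℂ} (hf : f ∈ K.R m) : f ∈ S.Th (2 * m) 0 0 := by
  obtain ⟨N, b, hb⟩ := K.form m
  rw [hb] at hf
  exact (kfA_coord b f hf).1

theorem span (m : ℕ) : S.Th (2 * m) 0 0 ≤ Submodule.span ℂ (K.R m : Set (C2 → ℂ)) := by
  obtain ⟨N, b, hb⟩ := K.form m
  intro f hf
  have h1 : f = ∑ j, b.repr ⟨f, hf⟩ j • (b j : C2 → ℂ) := by
    have h2 := congrArg Subtype.val (b.sum_repr ⟨f, hf⟩)
    rw [AddSubmonoidClass.coe_finsetSum] at h2
    exact h2.symm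
  rw [h1]
  refine Submodule.sum_mem _ fun j _ => Submodule.smul_mem _ _ (Submodule.subset_span ?_)
  rw [hb]
  exact Submodule.subset_span ⟨j, rfl⟩

/-- A subspace of `Th (2 m)` is rational if it is spanned by its intersection with `R m`. -/
def Rat (m : ℕ) (W : Submodule ℂ (C2 → ℂ)) : Prop :=
  W ≤ S.Th (2 * m) 0 0 ∧ W ≤ Submodule.span ℂ ((W : Set (C2 → ℂ)) ∩ (K.R m : Set (C2 → ℂ)))

theorem rat_top (m : ℕ) : K.Rat m (S.Th (2 * m) 0 0) := by
  refine ⟨le_rfl, (K.span m).trans (Submodule.span_mono fun f hf => ⟨K.mem hf, hf⟩)⟩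

private theorem kfA_rat_of {m : ℕ} {W : Submodule ℂ (C2 → ℂ)} (hW : W ≤ S.Th (2 * m) 0 0)
    (h : ∀ f ∈ W, ∀ g, KfADec K m f g → ∀ s, g s ∈ W) : K.Rat m W := by
  refine ⟨hW, fun f hf => ?_⟩
  obtain ⟨g, hg, -⟩ := kfA_span (K := K) le_rfl (K.span m (hW hf))
  rw [← hg.eq]
  exact Submodule.sum_mem _ fun s _ => Submodule.smul_mem _ _
    (Submodule.subset_span ⟨h f hf g hg s, hg.mem s⟩)

variable {K}

private theorem kfA_of_rat {m : ℕ} {W : Submodule ℂ (C2 → ℂ)} (hW : K.Rat m W) {f : C2 → ℂ}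
    (hf : f ∈ W) {g : KfAI k →₀ (C2 → ℂ)} (hg : KfADec K m f g) (s : KfAI k) : g s ∈ W := by
  obtain ⟨A, hA⟩ : ∃ A : Submodule k (C2 → ℂ), A = W.restrictScalars k ⊓ K.R m := ⟨_, rfl⟩
  have h1 : f ∈ Submodule.span ℂ (A : Set (C2 → ℂ)) := by
    rw [hA]
    exact hW.2 hf
  obtain ⟨g', hg', hgA⟩ := kfA_span (K := K) (A := A) (by rw [hA]; exact inf_le_right) h1
  rw [kfA_unique hg hg']
  have := hgA s
  rw [hA] at this
  exact this.1

variable (K)

/-- Descent: a member of `R m` in the complex span of a `k`-subspace `A` of `R m` is in `A`. -/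
theorem mem_of_mem_span {m : ℕ} (A : Submodule k (C2 → ℂ)) (hA : A ≤ K.R m) {f : C2 → ℂ} (hf : f ∈ K.R m)
    (h : f ∈ Submodule.span ℂ (A : Set (C2 → ℂ))) : f ∈ A := by
  obtain ⟨g, hg, hgA⟩ := kfA_span hA h
  have hD : KfADec K m ((1 : ℂ) • f)
      (((kfAg k).repr 1).mapRange (fun x => x • f) (zero_smul _ _)) := by
    refine ⟨fun s => ?_, ?_⟩
    · rw [Finsupp.mapRange_apply]
      exact (K.R m).smul_mem _ hf
    · rw [Finsupp.sum_mapRange_index (fun s => smul_zero _)]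
      have h1 := (kfAg k).linearCombination_repr (1 : ℂ)
      rw [Finsupp.linearCombination_apply] at h1
      conv_rhs => rw [← h1]
      rw [Finsupp.sum, Finsupp.sum, Finset.sum_smul]
      refine Finset.sum_congr rfl fun s _ => ?_
      rw [smul_comm, smul_assoc]
  rw [one_smul] at hD
  have h1 := kfA_unique hg hD
  obtain ⟨s, hs⟩ : ∃ s, (kfAg k).repr 1 s ≠ 0 := by
    by_contra hc
    push Not at hc
    have h2 : (kfAg k).repr 1 = 0 := Finsupp.ext hc
    rw [map_eq_zero_iff _ (kfAg k).repr.injective] at h2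
    exact one_ne_zero h2
  have h2 := hgA s
  rw [h1, Finsupp.mapRange_apply] at h2
  have h3 := A.smul_mem ((kfAg k).repr 1 s)⁻¹ h2
  rwa [smul_smul, inv_mul_cancel₀ hs, one_smul] at h3

/-- Intersections of rational subspaces are rational. -/
theorem rat_inf {m : ℕ} {W W' : Submodule ℂ (C2 → ℂ)} (h : K.Rat m W) (h' : K.Rat m W') : K.Rat m (W ⊓ W') :=
  kfA_rat_of K (inf_le_left.trans h.1) fun _ hf _ hg s =>
    ⟨kfA_of_rat h hf.1 hg s, kfA_of_rat h' hf.2 hg s⟩

/-- Kernels of families of linear forms with values in `k` on `R m` are rational. -/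
theorem rat_ker {m : ℕ} {W : Submodule ℂ (C2 → ℂ)} (h : K.Rat m W) {ι : Type} (φ : ι → W →ₗ[ℂ] ℂ)
    (hφ : ∀ i (f : W), (f : C2 → ℂ) ∈ K.R m → φ i f ∈ k) :
    K.Rat m (Submodule.map W.subtype (⨅ i, LinearMap.ker (φ i))) := by
  refine kfA_rat_of K ?_ ?_
  · rintro _ ⟨f, -, rfl⟩
    exact h.1 f.2
  · rintro _ ⟨f, hf, rfl⟩ g hg s
    have hgW : ∀ s, g s ∈ W := fun s => kfA_of_rat h f.2 hg s
    refine ⟨⟨g s, hgW s⟩, ?_, rfl⟩
    have hf' : ∀ i, φ i f = 0 := by
      intro i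
      have := (Submodule.mem_iInf _).1 hf i
      exact this
    refine (Submodule.mem_iInf _).2 fun i => ?_
    rw [LinearMap.mem_ker]
    by_cases hs : s ∈ g.support
    · refine kfA_indep g.support (fun s => φ i ⟨g s, hgW s⟩)
        (fun s => hφ i ⟨g s, hgW s⟩ (hg.mem s)) ?_ s hs
      have h1 : f = ∑ s ∈ g.support, kfAg k s • (⟨g s, hgW s⟩ : W) := by
        apply Subtype.ext
        rw [AddSubmonoidClass.coe_finsetSum]
        exact hg.eq.symm
      have h2 : ∑ s ∈ g.support, kfAg k s * φ i ⟨g s, hgW s⟩ =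
          φ i (∑ s ∈ g.support, kfAg k s • (⟨g s, hgW s⟩ : W)) := by
        rw [map_sum]
        exact Finset.sum_congr rfl fun s _ => by rw [map_smul]; rfl
      rw [h2, ← h1]
      exact hf' i
    · have h1 : (⟨g s, hgW s⟩ : W) = 0 := Subtype.ext (Finsupp.notMem_support_iff.1 hs)
      rw [h1, map_zero]

/-- Multiples of a rational `s`. -/
theorem rat_mult {m a : ℕ} {s : C2 → ℂ} (hs : s ∈ K.R a) (hs0 : s ≠ 0) :
    K.Rat m (S.Th (2 * m) 0 0 ⊓ Mult s) := by
  refine kfA_rat_of K inf_le_left ?_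
  rintro f ⟨hf, h, hh, rfl⟩ g hg t
  have h1 := kfA_quot (K.mem hs) hs0 hh hf
  refine ⟨K.mem (hg.mem t), ?_⟩
  rcases lt_or_ge m a with hma | hma
  · have h2 : h = 0 := S.th_level_neg (u := 2 * (m : ℤ) - 2 * (a : ℤ)) (by omega) h1
    rw [h2, mul_zero] at hg
    rw [kfA_eq_zero hg]
    exact zero_mem _
  · have e1 : 2 * (m : ℤ) - 2 * (a : ℤ) = 2 * ((m - a : ℕ) : ℤ) := by
      push_cast [hma]
      ring
    rw [e1] at h1
    obtain ⟨g1, hg1, -⟩ := kfA_span (K := K) le_rfl (K.span (m - a) h1)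
    have h3 : KfADec K m (s * h) (g1.mapRange (fun x => s * x) (mul_zero s)) := by
      refine ⟨fun t => ?_, ?_⟩
      · rw [Finsupp.mapRange_apply]
        have := K.mul a (m - a) s (g1 t) hs (hg1.mem t)
        rwa [Nat.add_sub_cancel' hma] at this
      · rw [Finsupp.sum_mapRange_index (fun s => smul_zero _), ← hg1.eq, Finsupp.sum, Finsupp.sum,
          Finset.mul_sum]
        exact Finset.sum_congr rfl fun t _ => (mul_smul_comm _ _ _).symm
    rw [kfA_unique hg h3, Finsupp.mapRange_apply]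
    exact ⟨g1 t, (K.mem (hg1.mem t)).1, rfl⟩

/-- Even and odd parts.  (`nmul` with `n = -1`.) -/
theorem rat_par (m : ℕ) {ε : ℂ} (hε : ε = 1 ∨ ε = -1) : K.Rat m (S.Th (2 * m) 0 0 ⊓ Par ε) := by
  refine kfA_rat_of K inf_le_left ?_
  rintro f ⟨hf, hfp⟩ g hg t
  refine ⟨K.mem (hg.mem t), ?_⟩
  have hεk : ∃ e : k, (e : ℂ) = ε := by
    rcases hε with rfl | rfl
    · exact ⟨1, rfl⟩
    · exact ⟨-1, rfl⟩
  obtain ⟨e, he⟩ := hεk
  have h1 : KfADec K m (fun z => f (-z)) (g.mapRange (fun x => fun z => x (-z)) rfl) := by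
    refine ⟨fun t => ?_, ?_⟩
    · rw [Finsupp.mapRange_apply]
      have := K.nmul m (-1) (g t) (hg.mem t)
      simpa using this
    · rw [Finsupp.sum_mapRange_index (fun s => smul_zero _), ← hg.eq]
      funext z
      simp [Finsupp.sum]
  have h2 : KfADec K m (fun z => f (-z)) (g.mapRange (fun x => e • x) (smul_zero e)) := by
    refine ⟨fun t => ?_, ?_⟩
    · rw [Finsupp.mapRange_apply]
      exact (K.R m).smul_mem _ (hg.mem t)
    · have h3 : (fun z => f (-z)) = ε • f := by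
        funext z
        exact hfp z
      rw [h3, Finsupp.sum_mapRange_index (fun s => smul_zero _), ← hg.eq, ← he]
      rw [Finsupp.sum, Finsupp.sum, Finset.smul_sum]
      refine Finset.sum_congr rfl fun t _ => ?_
      rw [smul_comm]
      rfl
  have h3 := congrArg (fun G => G t) (kfA_unique h1 h2)
  simp only [Finsupp.mapRange_apply] at h3
  intro z
  have h4 := congrFun h3 z
  show g t (-z) = ε * g t z
  rw [h4, ← he]
  rfl

/-- A rational element outside a proper subspace. -/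
theorem exists_one {m : ℕ} {W : Submodule ℂ (C2 → ℂ)} (h : K.Rat m W) {W' : Submodule ℂ (C2 → ℂ)}
    (hne : ¬ W ≤ W') : ∃ t : C2 → ℂ, t ∈ W ∧ t ∈ K.R m ∧ t ∉ W' := by
  by_contra hc
  push Not at hc
  exact hne (h.2.trans (Submodule.span_le.2 fun t ht => hc t ht.1 ht.2))

/-- Two rational elements independent modulo a rational subspace of codimension at least two. -/
theorem exists_two {m : ℕ} {W W' : Submodule ℂ (C2 → ℂ)} (h : K.Rat m W) (h' : K.Rat m W') (hle : W' ≤ W)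
    (hr : finrank ℂ W' + 2 ≤ finrank ℂ W) :
    ∃ t₁ t₂ : C2 → ℂ, t₁ ∈ W ∧ t₂ ∈ W ∧ t₁ ∈ K.R m ∧ t₂ ∈ K.R m ∧
      ∀ c₁ c₂ : ℂ, c₁ • t₁ + c₂ • t₂ ∈ W' → c₁ = 0 ∧ c₂ = 0 := by
  obtain ⟨N, b, hb⟩ := K.form m
  have hfd : FiniteDimensional ℂ (S.Th (2 * m) 0 0) := b.finiteDimensional_of_finite
  have hfW : FiniteDimensional ℂ W := Submodule.finiteDimensional_of_le h.1
  have hfW' : FiniteDimensional ℂ W' := Submodule.finiteDimensional_of_le h'.1
  obtain ⟨t₁, ht1, ht1R, ht1W⟩ := K.exists_one h (W' := W') (by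
    intro hc
    have := Submodule.finrank_mono hc
    omega)
  obtain ⟨t₂, ht2, ht2R, ht2W⟩ := K.exists_one h (W' := W' ⊔ Submodule.span ℂ {t₁}) (by
    intro hc
    have h1 := Submodule.finrank_mono hc
    have h2 := Submodule.finrank_add_le_finrank_add_finrank W' (Submodule.span ℂ {t₁})
    have h3 : finrank ℂ (Submodule.span ℂ {t₁}) ≤ 1 := by
      have := finrank_span_le_card (R := ℂ) ({t₁} : Set (C2 → ℂ))
      simpa using this
    omega)
  refine ⟨t₁, t₂, ht1, ht2, ht1R, ht2R, fun c₁ c₂ hc => ?_⟩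
  have hc2 : c₂ = 0 := by
    by_contra h0
    apply ht2W
    rw [Submodule.mem_sup]
    refine ⟨c₂⁻¹ • (c₁ • t₁ + c₂ • t₂), W'.smul_mem _ hc, -(c₂⁻¹ * c₁) • t₁,
      Submodule.smul_mem _ _ (Submodule.mem_span_singleton_self t₁), ?_⟩
    rw [smul_add, smul_smul, smul_smul, inv_mul_cancel₀ h0, one_smul]
    module
  refine ⟨?_, hc2⟩
  by_contra h0
  apply ht1W
  rw [hc2, zero_smul, add_zero] at hc
  have := W'.smul_mem c₁⁻¹ hc
  rwa [smul_smul, inv_mul_cancel₀ h0, one_smul] at this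

end KForm

end Q2T
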