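import Pool.Agent.H.MP_89f84f_ag.q2.KfA
import Pool.Agent.H.MP_89f84f_ag.q2.DivA0

set_option autoImplicit false

open Complex Topology Filter Asymptotics Metric Set Module

namespace Q2T

/-! ### Orders of vanishing and directional derivatives -/

theorem KfB_diff {f : C2 → ℂ} (hf : Differentiable ℂ f) (v : C2) :
    Differentiable ℂ fun z => fderiv ℂ f z v :=
  differentiableOn_univ.1 (DivA_fderiv_apply isOpen_univ (differentiableOn_univ.2 hf) v)

private theorem kfB_line {f : C2 → ℂ} (hf : Differentiable ℂ f) (z v : C2) :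
    HasDerivAt (fun t : ℂ => f (z + t • v)) (fderiv ℂ f z v) 0 := by
  have h1 : HasDerivAt (fun t : ℂ => z + t • v) v 0 := by
    simpa using ((hasDerivAt_id (0 : ℂ)).smul_const v).const_add z
  have h2 : HasFDerivAt f (fderiv ℂ f z) (z + (0 : ℂ) • v) := by
    rw [zero_smul, add_zero]
    exact (hf z).hasFDerivAt
  exact h2.comp_hasDerivAt (0 : ℂ) h1

/-- Directional derivatives lower the order by at most one. -/
theorem KfB_van_fderiv {f : C2 → ℂ} (hf : Differentiable ℂ f) {j : ℕ} (h : f ∈ Van (j + 1) 0)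
    (v : C2) : (fun z => fderiv ℂ f z v) ∈ Van j 0 := by
  have h0 : f =O[𝓝 0] fun z : C2 => ‖z - 0‖ ^ (j + 1) := h
  obtain ⟨C, hC⟩ := h0.bound
  obtain ⟨δ, hδ, hball⟩ := Metric.eventually_nhds_iff.1 hC
  have hC' : ∀ z : C2, ‖z‖ < δ → ‖f z‖ ≤ |C| * ‖z‖ ^ (j + 1) := by
    intro z hz
    have h1 := hball (y := z) (by rwa [dist_zero_right])
    rw [sub_zero, norm_pow, norm_norm] at h1
    exact h1.trans (mul_le_mul_of_nonneg_right (le_abs_self C) (by positivity))
  have hv : 0 < 1 + ‖v‖ := by positivity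
  have hzero : j ≠ 0 → fderiv ℂ f 0 v = 0 := by
    intro hj
    have h1 : HasFDerivAt f (0 : C2 →L[ℂ] ℂ) 0 := h0.hasFDerivAt (by omega)
    rw [h1.fderiv]
    rfl
  show (fun z => fderiv ℂ f z v) =O[𝓝 0] fun z : C2 => ‖z - 0‖ ^ j
  refine IsBigO.of_bound (|C| * (1 + ‖v‖) ^ (j + 1) + ‖fderiv ℂ f 0 v‖) ?_
  rw [Metric.eventually_nhds_iff]
  refine ⟨δ / (1 + ‖v‖), by positivity, fun z hz => ?_⟩
  rw [dist_zero_right, lt_div_iff₀ hv] at hz
  rw [sub_zero, norm_pow, norm_norm]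
  by_cases hz0 : z = 0
  · rw [hz0]
    by_cases hj : j = 0
    · rw [hj, pow_zero, mul_one]
      have : 0 ≤ |C| * (1 + ‖v‖) ^ (0 + 1) := by positivity
      linarith
    · rw [hzero hj, norm_zero]
      positivity
  · have hzp : 0 < ‖z‖ := norm_pos_iff.2 hz0
    have h1 : DiffContOnCl ℂ (fun t : ℂ => f (z + t • v)) (ball 0 ‖z‖) := by
      have h2 : Differentiable ℂ (fun t : ℂ => z + t • v) := by fun_prop
      exact (hf.comp h2).diffContOnCl
    have h2 := norm_deriv_le_of_forall_mem_sphere_norm_le hzp h1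
      (C := |C| * ((1 + ‖v‖) * ‖z‖) ^ (j + 1)) (fun t ht => by
        rw [mem_sphere_zero_iff_norm] at ht
        have h3 : ‖z + t • v‖ ≤ (1 + ‖v‖) * ‖z‖ := by
          refine (norm_add_le _ _).trans (le_of_eq ?_)
          rw [norm_smul, ht]
          ring
        refine (hC' _ (lt_of_le_of_lt h3 (by rwa [mul_comm]))).trans ?_
        exact mul_le_mul_of_nonneg_left (pow_le_pow_left₀ (norm_nonneg _) h3 _) (abs_nonneg _))
    rw [(kfB_line hf z v).deriv] at h2
    refine h2.trans ?_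
    have h4 : |C| * ((1 + ‖v‖) * ‖z‖) ^ (j + 1) / ‖z‖ = |C| * (1 + ‖v‖) ^ (j + 1) * ‖z‖ ^ j := by
      rw [mul_pow, pow_succ ‖z‖ j]
      field_simp
    rw [h4]
    refine mul_le_mul_of_nonneg_right ?_ (by positivity)
    have := norm_nonneg (fderiv ℂ f 0 v)
    linarith

/-- If `f 0 = 0` and two independent directional derivatives have order `≥ j` then `f` has order
`≥ j + 1`. -/
theorem KfB_van_of {f : C2 → ℂ} (hf : Differentiable ℂ f) {j : ℕ} {v w : C2}
    (hvw : LinearIndependent ℂ ![v, w]) (h0 : f 0 = 0) (hv : (fun z => fderiv ℂ f z v) ∈ Van j 0)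
    (hw : (fun z => fderiv ℂ f z w) ∈ Van j 0) : f ∈ Van (j + 1) 0 := by
  let b : Basis (Fin 2) ℂ C2 := basisOfLinearIndependentOfCardEqFinrank hvw (by simp)
  have hb0 : b 0 = v := by
    rw [coe_basisOfLinearIndependentOfCardEqFinrank]
    rfl
  have hb1 : b 1 = w := by
    rw [coe_basisOfLinearIndependentOfCardEqFinrank]
    rfl
  let c0 : C2 →L[ℂ] ℂ := LinearMap.toContinuousLinearMap (b.coord 0)
  let c1 : C2 →L[ℂ] ℂ := LinearMap.toContinuousLinearMap (b.coord 1)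
  have hx : ∀ x : C2, x = c0 x • v + c1 x • w := by
    intro x
    have h1 := b.sum_repr x
    rw [Fin.sum_univ_two, hb0, hb1] at h1
    exact h1.symm
  have hv' : (fun z => fderiv ℂ f z v) =O[𝓝 0] fun z : C2 => ‖z - 0‖ ^ j := hv
  have hw' : (fun z => fderiv ℂ f z w) =O[𝓝 0] fun z : C2 => ‖z - 0‖ ^ j := hw
  obtain ⟨A, hA⟩ := hv'.bound
  obtain ⟨B, hB⟩ := hw'.bound
  obtain ⟨δ, hδ, hball⟩ := Metric.eventually_nhds_iff.1 (hA.and hB)
  obtain ⟨E, hE⟩ : ∃ E : ℝ, E = ‖c0‖ * |A| + ‖c1‖ * |B| := ⟨_, rfl⟩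
  have hE0 : 0 ≤ E := by rw [hE]; positivity
  have hbd : ∀ z : C2, ‖z‖ < δ → ‖fderiv ℂ f z‖ ≤ E * ‖z‖ ^ j := by
    intro z hz
    obtain ⟨h1, h2⟩ := hball (y := z) (by rwa [dist_zero_right])
    rw [sub_zero, norm_pow, norm_norm] at h1 h2
    refine ContinuousLinearMap.opNorm_le_bound _ (by positivity) fun x => ?_
    have h3 : fderiv ℂ f z x = c0 x * fderiv ℂ f z v + c1 x * fderiv ℂ f z w := by
      conv_lhs => rw [hx x]
      rw [map_add, map_smul, map_smul, smul_eq_mul, smul_eq_mul]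
    have h4 : ‖fderiv ℂ f z v‖ ≤ |A| * ‖z‖ ^ j :=
      h1.trans (mul_le_mul_of_nonneg_right (le_abs_self A) (by positivity))
    have h5 : ‖fderiv ℂ f z w‖ ≤ |B| * ‖z‖ ^ j :=
      h2.trans (mul_le_mul_of_nonneg_right (le_abs_self B) (by positivity))
    rw [h3]
    refine (norm_add_le _ _).trans ?_
    rw [norm_mul, norm_mul]
    have h6 : ‖c0 x‖ * ‖fderiv ℂ f z v‖ ≤ (‖c0‖ * ‖x‖) * (|A| * ‖z‖ ^ j) :=
      mul_le_mul (c0.le_opNorm x) h4 (norm_nonneg _) (by positivity)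
    have h7 : ‖c1 x‖ * ‖fderiv ℂ f z w‖ ≤ (‖c1‖ * ‖x‖) * (|B| * ‖z‖ ^ j) :=
      mul_le_mul (c1.le_opNorm x) h5 (norm_nonneg _) (by positivity)
    refine (add_le_add h6 h7).trans (le_of_eq ?_)
    rw [hE]
    ring
  show f =O[𝓝 0] fun z : C2 => ‖z - 0‖ ^ (j + 1)
  refine IsBigO.of_bound E ?_
  rw [Metric.eventually_nhds_iff]
  refine ⟨δ, hδ, fun z hz => ?_⟩
  rw [dist_zero_right] at hz
  rw [sub_zero, norm_pow, norm_norm]
  have h1 := (convex_closedBall (0 : C2) ‖z‖).norm_image_sub_le_of_norm_fderiv_le (𝕜 := ℂ) (f := f)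
    (C := E * ‖z‖ ^ j) (fun x _ => hf x) (fun x hx => by
      rw [mem_closedBall, dist_zero_right] at hx
      refine (hbd x (lt_of_le_of_lt hx hz)).trans ?_
      exact mul_le_mul_of_nonneg_left (pow_le_pow_left₀ (norm_nonneg _) hx _) hE0)
    (mem_closedBall_self (norm_nonneg z)) (y := z) (by rw [mem_closedBall, dist_zero_right])
  rw [h0, sub_zero, sub_zero] at h1
  refine h1.trans (le_of_eq ?_)
  ring

/-- One step: the order of `f` in terms of `wro v g f`, `wro w g f`, where `g 0 ≠ 0`. -/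
theorem KfB_van_step {f g : C2 → ℂ} (hf : Differentiable ℂ f) (hg : Differentiable ℂ g) (hg0 : g 0 ≠ 0)
    {v w : C2} (hvw : LinearIndependent ℂ ![v, w]) (N : ℕ) :
    f ∈ Van (N + 1) 0 ↔ f 0 = 0 ∧ wro v g f ∈ Van N 0 ∧ wro w g f ∈ Van N 0 := by
  have hwro : ∀ u : C2, wro u g f = g * (fun z => fderiv ℂ f z u) - f * (fun z => fderiv ℂ g z u) :=
    fun u => rfl
  constructor
  · intro h
    have h1 : ∀ u : C2, wro u g f ∈ Van N 0 := by
      intro u
      rw [hwro]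
      refine Submodule.sub_mem _ ?_ ?_
      · have h2 := van_mul (van_zero hg.continuous 0) (KfB_van_fderiv hf h u)
        rwa [zero_add] at h2
      · have h2 := van_mul h (van_zero (KfB_diff hg u).continuous 0)
        exact van_mono (by omega) 0 h2
    exact ⟨(van_one_iff hf 0).1 (van_mono (by omega) 0 h), h1 v, h1 w⟩
  · rintro ⟨h0, hv, hw⟩
    have key : ∀ i ≤ N + 1, f ∈ Van i 0 := by
      intro i
      induction i with
      | zero => exact fun _ => van_zero hf.continuous 0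
      | succ i ih =>
        intro hi
        have h1 := ih (by omega)
        have h2 : ∀ u : C2, wro u g f ∈ Van N 0 → (fun z => fderiv ℂ f z u) ∈ Van i 0 := by
          intro u hu
          rw [← van_mul_unit hg.continuous hg0]
          have h3 : g * (fun z => fderiv ℂ f z u) =
              wro u g f + f * (fun z => fderiv ℂ g z u) := by
            rw [hwro, sub_add_cancel]
          rw [h3]
          refine Submodule.add_mem _ (van_mono (by omega) 0 hu) ?_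
          exact van_mul h1 (van_zero (KfB_diff hg u).continuous 0)
        exact KfB_van_of hf hvw h0 (h2 v hv) (h2 w hw)
    exact key (N + 1) le_rfl

/-! ### Iterated derivatives of quotients -/

theorem KfB_wro_diff {f g : C2 → ℂ} (hf : Differentiable ℂ f) (hg : Differentiable ℂ g) (u : C2) :
    Differentiable ℂ (wro u g f) :=
  (hg.mul (KfB_diff hf u)).sub (hf.mul (KfB_diff hg u))

/-- `wro u g` as a linear map on entire functions -/
noncomputable def KfBW (u : C2) (g : Ent) : Ent →ₗ[ℂ] Ent where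
  toFun f := ⟨wro u g f, KfB_wro_diff f.2 g.2 u⟩
  map_add' := fun f f' => by
    refine Subtype.ext (funext fun z => ?_)
    have h1 : fderiv ℂ ((f + f' : Ent) : C2 → ℂ) z = fderiv ℂ (f : C2 → ℂ) z +
        fderiv ℂ (f' : C2 → ℂ) z := fderiv_add (f.2 z) (f'.2 z)
    have h2 : ((f + f' : Ent) : C2 → ℂ) z = (f : C2 → ℂ) z + (f' : C2 → ℂ) z := rfl
    show (g : C2 → ℂ) z * fderiv ℂ ((f + f' : Ent) : C2 → ℂ) z u -
      ((f + f' : Ent) : C2 → ℂ) z * fderiv ℂ (g : C2 → ℂ) z u =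
      ((g : C2 → ℂ) z * fderiv ℂ (f : C2 → ℂ) z u - (f : C2 → ℂ) z * fderiv ℂ (g : C2 → ℂ) z u) +
      ((g : C2 → ℂ) z * fderiv ℂ (f' : C2 → ℂ) z u - (f' : C2 → ℂ) z * fderiv ℂ (g : C2 → ℂ) z u)
    rw [h1, h2, ContinuousLinearMap.add_apply]
    ring
  map_smul' := fun c f => by
    refine Subtype.ext (funext fun z => ?_)
    have h1 : fderiv ℂ ((c • f : Ent) : C2 → ℂ) z = c • fderiv ℂ (f : C2 → ℂ) z :=
      fderiv_const_smul (f.2 z) c
    have h2 : ((c • f : Ent) : C2 → ℂ) z = c * (f : C2 → ℂ) z := rfl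
    show (g : C2 → ℂ) z * fderiv ℂ ((c • f : Ent) : C2 → ℂ) z u -
      ((c • f : Ent) : C2 → ℂ) z * fderiv ℂ (g : C2 → ℂ) z u =
      c * ((g : C2 → ℂ) z * fderiv ℂ (f : C2 → ℂ) z u - (f : C2 → ℂ) z * fderiv ℂ (g : C2 → ℂ) z u)
    rw [h1, h2, ContinuousLinearMap.smul_apply, smul_eq_mul]
    ring

/-- the square of an entire function -/
noncomputable def KfBsq (g : Ent) : Ent := ⟨(g : C2 → ℂ) * (g : C2 → ℂ), g.2.mul g.2⟩

/-- the numerators of the iterated derivatives of `f / g` -/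
noncomputable def KfBit (v w : C2) : List Bool → Ent → (Ent →ₗ[ℂ] Ent)
  | [], _ => LinearMap.id
  | b :: l, g => (KfBit v w l (KfBsq g)).comp (KfBW (if b then v else w) g)

theorem KfB_words {v w : C2} (hvw : LinearIndependent ℂ ![v, w]) (N : ℕ) :
    ∀ g f : Ent, (g : C2 → ℂ) 0 ≠ 0 → ((f : C2 → ℂ) ∈ Van N 0 ↔
      ∀ l : List Bool, l.length < N → (KfBit v w l g f : C2 → ℂ) 0 = 0) := by
  induction N with
  | zero =>
    intro g f _
    exact ⟨fun _ l hl => absurd hl (by omega), fun _ => van_zero f.2.continuous 0⟩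
  | succ N ih =>
    intro g f hg
    have hsq : (KfBsq g : C2 → ℂ) 0 ≠ 0 := mul_ne_zero hg hg
    rw [KfB_van_step f.2 g.2 hg hvw N]
    have hv := ih (KfBsq g) (KfBW v g f) hsq
    have hw := ih (KfBsq g) (KfBW w g f) hsq
    have hv' : wro v (g : C2 → ℂ) f ∈ Van N 0 ↔ ∀ l : List Bool, l.length < N →
      (KfBit v w l (KfBsq g) (KfBW v g f) : C2 → ℂ) 0 = 0 := hv
    have hw' : wro w (g : C2 → ℂ) f ∈ Van N 0 ↔ ∀ l : List Bool, l.length < N →
      (KfBit v w l (KfBsq g) (KfBW w g f) : C2 → ℂ) 0 = 0 := hw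
    rw [hv', hw']
    constructor
    · rintro ⟨h0, h1, h2⟩ l hl
      rcases l with _ | ⟨b, l⟩
      · exact h0
      · rw [List.length_cons] at hl
        rcases b with _ | _
        · exact h2 l (by omega)
        · exact h1 l (by omega)
    · intro h
      exact ⟨h [] (by simp), fun l hl => h (true :: l) (by simpa using hl),
        fun l hl => h (false :: l) (by simpa using hl)⟩

namespace KForm

variable {S : PerData} {k : Subfield ℂ} (K : KForm S k)

theorem KfB_words_mem {v w : C2} (hvw : ∀ (m : ℕ) (f g : C2 → ℂ), f ∈ K.R m → g ∈ K.R m →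
    wro v f g ∈ K.R (2 * m) ∧ wro w f g ∈ K.R (2 * m)) (l : List Bool) :
    ∀ (m : ℕ) (g f : Ent), (g : C2 → ℂ) ∈ K.R m → (f : C2 → ℂ) ∈ K.R m →
      ∃ m', (KfBit v w l g f : C2 → ℂ) ∈ K.R m' := by
  induction l with
  | nil => exact fun m g f _ hf => ⟨m, hf⟩
  | cons b l ih =>
    intro m g f hg hf
    have h1 : (KfBsq g : C2 → ℂ) ∈ K.R (2 * m) := by
      rw [two_mul]
      exact K.mul m m g g hg hg
    have h2 : (KfBW (if b then v else w) g f : C2 → ℂ) ∈ K.R (2 * m) := by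
      rcases b with _ | _
      · exact (hvw m g f hg hf).2
      · exact (hvw m g f hg hf).1
    exact ih (2 * m) (KfBsq g) (KfBW (if b then v else w) g f) h1 h2

/-- There is `g` in `R m` with `g 0 ≠ 0`. -/
theorem KfB_exists (m : ℕ) : ∃ g ∈ K.R m, g 0 ≠ 0 := by
  obtain ⟨f, hf, hf0⟩ : ∃ f ∈ S.Th (2 * (m : ℤ)) 0 0, f 0 ≠ 0 := by
    by_cases hm : m = 0
    · refine ⟨fun _ => 1, ⟨differentiable_const 1, fun p q z => ?_⟩, one_ne_zero⟩
      subst hm
      simp [PerData.J, rdot]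
    · obtain ⟨f, hf, hf0⟩ := S.exists_even_ne_zero (x := (m : ℤ)) (by omega) 0
      exact ⟨f, hf.1, hf0⟩
  by_contra hcon
  push Not at hcon
  have h1 := K.span m hf
  have h2 : Submodule.span ℂ (K.R m : Set (C2 → ℂ)) ≤
      LinearMap.ker (LinearMap.proj (R := ℂ) (φ := fun _ : C2 => ℂ) 0) := by
    rw [Submodule.span_le]
    intro g hg
    exact hcon g hg
  exact hf0 (h2 h1)

/-- The order of vanishing at the origin is a rational condition.
PROOF: `m = 0` is trivial.  `g ∈ R m` with `g 0 ≠ 0` (`exists_even_ne_zero`, `span`), `v, w` from `frame`.  For `f ∈ Th (2 m)` the iterated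
derivatives of `f / g` near `0`: `D_v (F / g ^ e) = wro v (g ^ e) F / g ^ (2 e)`, so
`D_v^i D_w^j (f / g) = N i j f / g ^ (2 ^ (i + j))` with `N i j f` in `Th`, linear in `f`, and in `R (2 ^ (i + j) m)` if `f ∈ R m`.  So the linear
forms `f ↦ N i j f 0` have values in `k` on `R m` (`zero`).  `f ∈ Van N 0` iff `f / g` vanishes to order `N` at `0` iff
`N i j f 0 = 0` for all `i + j < N` (`v, w` is a basis, all directional derivatives of order `< N` vanish).  Apply `rat_ker`. -/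
theorem rat_van (m N : ℕ) : K.Rat m (S.Th (2 * m) 0 0 ⊓ Van N 0) := by
  obtain ⟨v, w, hli, hvw⟩ := K.frame
  obtain ⟨g, hg, hg0⟩ := K.KfB_exists m
  have hW : S.Th (2 * (m : ℤ)) 0 0 ≤ Ent := fun f hf => hf.1
  let g' : Ent := ⟨g, hW (K.mem hg)⟩
  let φ : {l : List Bool // l.length < N} → (S.Th (2 * (m : ℤ)) 0 0 →ₗ[ℂ] ℂ) := fun l =>
    (LinearMap.proj (R := ℂ) (φ := fun _ : C2 => ℂ) 0).comp
      (Ent.subtype.comp ((KfBit v w l g').comp (Submodule.inclusion hW)))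
  have h1 := K.rat_ker (K.rat_top m) φ (by
    intro l f hf
    obtain ⟨m', hm'⟩ := K.KfB_words_mem hvw l m g' (Submodule.inclusion hW f) hg hf
    exact K.zero m' _ hm')
  have h2 : Submodule.map (S.Th (2 * (m : ℤ)) 0 0).subtype (⨅ l, LinearMap.ker (φ l)) =
      S.Th (2 * m) 0 0 ⊓ Van N 0 := by
    ext f
    constructor
    · rintro ⟨F, hF, rfl⟩
      refine ⟨F.2, ?_⟩
      have h3 := KfB_words hli N g' (Submodule.inclusion hW F) hg0
      refine h3.2 fun l hl => ?_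
      have h4 := (Submodule.mem_iInf _).1 hF ⟨l, hl⟩
      exact h4
    · rintro ⟨hf, hf2⟩
      refine ⟨⟨f, hf⟩, ?_, rfl⟩
      have h3 := KfB_words hli N g' (Submodule.inclusion hW ⟨f, hf⟩) hg0
      have h4 := h3.1 hf2
      rw [SetLike.mem_coe, Submodule.mem_iInf]
      exact fun l => h4 l l.2
  rw [← h2]
  exact h1

theorem rat_par_van (m N : ℕ) {ε : ℂ} (hε : ε = 1 ∨ ε = -1) :
    K.Rat m (S.Th (2 * m) 0 0 ⊓ Par ε ⊓ Van N 0) := by
  have h1 := K.rat_inf (K.rat_par m hε) (K.rat_van m N)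
  have h2 : (S.Th (2 * m) 0 0 ⊓ Par ε) ⊓ (S.Th (2 * m) 0 0 ⊓ Van N 0) =
      S.Th (2 * m) 0 0 ⊓ Par ε ⊓ Van N 0 := by
    ext f
    constructor
    · rintro ⟨⟨h1, h2⟩, h3, h4⟩
      exact ⟨⟨h1, h2⟩, h4⟩
    · rintro ⟨⟨h1, h2⟩, h4⟩
      exact ⟨⟨h1, h2⟩, h1, h4⟩
  rw [← h2]
  exact h1

end KForm

end Q2T
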