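import Pool.Agent.H.MP_89f84f_ag.q2.PrA

set_option autoImplicit false

open Complex Topology Filter Asymptotics Metric Set Module

namespace Q2T

namespace PerData

variable {S : PerData}

private theorem PrB_tv_smul (S : PerData) (n : ℤ) (p : Z2) : S.tv (n • p) = (n : ℂ) • S.tv p := by
  funext i
  show S.τ i 0 * (((n • p) 0 : ℤ) : ℂ) + S.τ i 1 * (((n • p) 1 : ℤ) : ℂ) =
    (n : ℂ) * (S.τ i 0 * (p 0 : ℂ) + S.τ i 1 * (p 1 : ℂ))
  simp only [Pi.smul_apply, smul_eq_mul]
  push_cast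
  ring

private theorem PrB_dv_smul (S : PerData) (n : ℤ) (q : Z2) : S.dv (n • q) = (n : ℂ) • S.dv q := by
  funext i
  fin_cases i
  · show (((n • q) 0 : ℤ) : ℂ) = (n : ℂ) * (q 0 : ℂ)
    simp only [Pi.smul_apply, smul_eq_mul]
    push_cast
    ring
  · show (S.d : ℂ) * (((n • q) 1 : ℤ) : ℂ) = (n : ℂ) * ((S.d : ℂ) * (q 1 : ℂ))
    simp only [Pi.smul_apply, smul_eq_mul]
    push_cast
    ring

private theorem PrB_inj (S : PerData) {p q : Z2} (h : S.tv p + S.dv q = 0) : p = 0 ∧ q = 0 := by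
  obtain ⟨c, hc, hg⟩ := S.lat_growth
  have h1 := hg p q
  rw [h, norm_zero] at h1
  have h2 : ‖p‖ + ‖q‖ ≤ 0 := by
    by_contra hcon
    push Not at hcon
    have := mul_pos hc hcon
    linarith
  have h3 := norm_nonneg p
  have h4 := norm_nonneg q
  exact ⟨norm_le_zero_iff.mp (by linarith), norm_le_zero_iff.mp (by linarith)⟩

/-- indices of the `n`-torsion points -/
private abbrev PrBI (n : ℕ) : Type := (Fin n × Fin n) × (Fin n × Fin n)

private def PrBP {n : ℕ} (i : PrBI n) : Z2 := ![(i.1.1 : ℤ), (i.1.2 : ℤ)]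

private def PrBQ {n : ℕ} (i : PrBI n) : Z2 := ![(i.2.1 : ℤ), (i.2.2 : ℤ)]

private noncomputable def PrBx (S : PerData) {n : ℕ} (i : PrBI n) : C2 :=
  ((n : ℂ)⁻¹) • (S.tv (PrBP i) + S.dv (PrBQ i))

private theorem PrB_fin {n : ℕ} (a b : Fin n) {k : ℤ} (h : (a : ℤ) - (b : ℤ) = n * k) : a = b := by
  have h1 : (a : ℤ) - (b : ℤ) = 0 := by
    apply Int.eq_zero_of_abs_lt_dvd (m := (n : ℤ)) ⟨k, h⟩
    have ha := a.2
    have hb := b.2
    rw [abs_lt]
    constructor <;> omega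
  apply Fin.ext
  omega

private theorem PrB_incong (S : PerData) {n : ℕ} (hn : 1 ≤ n) {i j : PrBI n} (hij : i ≠ j) :
    PrBx S i - PrBx S j ∉ S.Lat := by
  rintro ⟨p, q, h⟩
  apply hij
  have hn0 : (n : ℂ) ≠ 0 := Nat.cast_ne_zero.mpr (by omega)
  have h1 : (n : ℂ) • (PrBx S i - PrBx S j) =
      (S.tv (PrBP i) + S.dv (PrBQ i)) - (S.tv (PrBP j) + S.dv (PrBQ j)) := by
    unfold PrBx
    rw [smul_sub, smul_smul, smul_smul, mul_inv_cancel₀ hn0, one_smul, one_smul]
  rw [h, smul_add] at h1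
  have h2 := PrB_tv_smul S n p
  have h3 := PrB_dv_smul S n q
  rw [Int.cast_natCast] at h2 h3
  rw [← h2, ← h3] at h1
  have h4 : S.tv (PrBP i + (-PrBP j + -((n : ℤ) • p))) + S.dv (PrBQ i + (-PrBQ j + -((n : ℤ) • q))) = 0 := by
    rw [S.tv_add, S.tv_add, S.tv_neg, S.tv_neg, S.dv_add, S.dv_add, S.dv_neg, S.dv_neg]
    have h5 : S.tv (PrBP i) + (-S.tv (PrBP j) + -S.tv ((n : ℤ) • p)) +
        (S.dv (PrBQ i) + (-S.dv (PrBQ j) + -S.dv ((n : ℤ) • q))) =
        ((S.tv (PrBP i) + S.dv (PrBQ i)) - (S.tv (PrBP j) + S.dv (PrBQ j))) -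
        (S.tv ((n : ℤ) • p) + S.dv ((n : ℤ) • q)) := by abel
    rw [h5, h1, sub_self]
  obtain ⟨h5, h6⟩ := PrB_inj S h4
  have e0 := congrFun h5 0
  have e1 := congrFun h5 1
  have e2 := congrFun h6 0
  have e3 := congrFun h6 1
  simp only [PrBP, PrBQ, Pi.add_apply, Pi.neg_apply, Pi.smul_apply, smul_eq_mul, Pi.zero_apply,
    Matrix.cons_val_zero, Matrix.cons_val_one] at e0 e1 e2 e3
  exact Prod.ext (Prod.ext (PrB_fin _ _ (k := p 0) (by linarith)) (PrB_fin _ _ (k := p 1) (by linarith)))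
    (Prod.ext (PrB_fin _ _ (k := q 0) (by linarith)) (PrB_fin _ _ (k := q 1) (by linarith)))

/-- `F (n z)` is a multiple of the translates. -/
private theorem PrB_mult {s F σ e : C2 → ℂ} {N : ℤ} (hF : F ∈ S.Th N 0 0) {n : ℕ} (hn : 1 ≤ n)
    (h : (fun z => F ((n : ℂ) • z)) ∈ Mult s) (i : PrBI n) (he : Differentiable ℂ e)
    (he0 : ∀ z, e z ≠ 0) (hσ : ∀ z, σ z = e z * s (z + PrBx S i)) :
    (fun z => F ((n : ℂ) • z)) ∈ Mult σ := by
  obtain ⟨g, hg, hgF⟩ := h
  have hn0 : (n : ℂ) ≠ 0 := Nat.cast_ne_zero.mpr (by omega)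
  have hJ : Differentiable ℂ (fun z : C2 => S.J N 0 0 (PrBP i) (PrBQ i) ((n : ℂ) • z)) :=
    (S.ThA_J_diff N 0 0 (PrBP i) (PrBQ i)).comp (differentiable_id.const_smul (n : ℂ))
  have hJ0 : ∀ z : C2, S.J N 0 0 (PrBP i) (PrBQ i) ((n : ℂ) • z) ≠ 0 := fun z => S.J_ne_zero _ _ _ _ _ _
  refine ⟨fun z => (e z)⁻¹ * (S.J N 0 0 (PrBP i) (PrBQ i) ((n : ℂ) • z))⁻¹ * g (z + PrBx S i), ?_, ?_⟩
  · exact ((he.inv he0).mul (hJ.inv hJ0)).mul (hg.comp (differentiable_id.add_const _))
  · funext z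
    have h1 : F ((n : ℂ) • (z + PrBx S i)) = s (z + PrBx S i) * g (z + PrBx S i) := congrFun hgF _
    have h2 : (n : ℂ) • (z + PrBx S i) = (n : ℂ) • z + S.tv (PrBP i) + S.dv (PrBQ i) := by
      unfold PrBx
      rw [smul_add, smul_smul, mul_inv_cancel₀ hn0, one_smul, add_assoc]
    rw [h2, hF.2] at h1
    show F ((n : ℂ) • z) = σ z * ((e z)⁻¹ * (S.J N 0 0 (PrBP i) (PrBQ i) ((n : ℂ) • z))⁻¹ *
      g (z + PrBx S i))
    rw [hσ z]
    have h3 := he0 z
    have h4 := hJ0 z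
    field_simp
    linear_combination h1

/-- `F (n z)` is not a multiple of `s` for all `n`.
PROOF: suppose it is, for a large `n ≥ 1` with `n² > 2 d a N`.  `F_n z = F (n z)` is in `Th (n² N) 0 0` (`th_smul_arg`), nonzero.  For the `n⁴`
points `x i = (τ p + Δ q) / n`, `p, q ∈ {0..n-1}²`, pairwise incongruent, let `σ i` be the translates (`exists_trans`).
`F_n (z + x i) = F (n z + n x i)` is a nonvanishing factor times `F_n z`, so `F_n ∈ Mult (σ i)`.  Choose a maximal set `Y` of indices with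
pairwise non-associated `σ i`; every index is associated to one of `Y`, and each class has fewer than `4 d a²` elements
(`van_of_assoc`, `few`), so `n⁴ ≤ 4 d a² |Y|`.  `prod_level`: `2 a |Y| ≤ n² N`.  So `n⁴ ≤ 2 d a n² N`, contradiction. -/
theorem Curve.not_all_mult {a b : ℕ} {s : C2 → ℂ} (C : S.Curve a b s) {N : ℤ} {F : C2 → ℂ}
    (hF : F ∈ S.Th N 0 0) (hF0 : F ≠ 0) : ∃ n : ℕ, 1 ≤ n ∧ (fun z => F ((n : ℂ) • z)) ∉ Mult s := by
  classical
  by_contra hcon
  push Not at hcon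
  obtain ⟨n, hn1, hnN⟩ : ∃ n : ℕ, 1 ≤ n ∧ 2 * (S.d : ℤ) * a * N < (n : ℤ) ^ 2 := by
    refine ⟨(2 * (S.d : ℤ) * a * N).natAbs + 1, by omega, ?_⟩
    have h1 : 2 * (S.d : ℤ) * a * N ≤ ((2 * (S.d : ℤ) * a * N).natAbs : ℤ) := Int.le_natAbs
    have h2 : (0 : ℤ) ≤ ((2 * (S.d : ℤ) * a * N).natAbs : ℤ) := Int.natCast_nonneg _
    push_cast
    push_cast at h1 h2
    nlinarith
  have hFn := hcon n hn1
  have hn0 : (n : ℂ) ≠ 0 := Nat.cast_ne_zero.mpr (by omega)
  choose α β σ e he he0 hσ hm h0 hD using fun i : PrBI n => C.exists_trans (PrBx S i)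
  have hFσ : ∀ i, (fun z => F ((n : ℂ) • z)) ∈ Mult (σ i) := fun i =>
    PrB_mult hF hn1 hFn i (he i) (he0 i) (hσ i)
  have hFT : (fun z => F ((n : ℂ) • z)) ∈ S.Th ((n : ℤ) ^ 2 * N) 0 0 := by
    have := S.th_smul_arg hF (n : ℤ)
    rwa [Int.cast_natCast] at this
  have hFne : (fun z => F ((n : ℂ) • z)) ≠ 0 := by
    intro h
    apply hF0
    funext z
    have h1 := congrFun h ((n : ℂ)⁻¹ • z)
    simp only [smul_smul, mul_inv_cancel₀ hn0, one_smul] at h1
    exact h1
  -- the equivalence relation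
  let R : Setoid (PrBI n) :=
    { r := fun i j => σ j ∈ Mult (σ i)
      iseqv := by
        refine ⟨fun i => ⟨1, differentiable_const 1, (mul_one _).symm⟩, ?_, ?_⟩
        · intro i j hij
          obtain ⟨c, hc⟩ := S.eq_smul_of_mult (hm i) (h0 i) (hm j) hij
          have hc0 : c ≠ 0 := by
            intro h
            rw [h, zero_smul] at hc
            exact h0 j hc
          refine ⟨fun _ => c⁻¹, differentiable_const _, ?_⟩
          funext z
          rw [hc]
          show σ i z = c * σ i z * c⁻¹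
          field_simp
        · rintro i j k ⟨g, hg, h1⟩ ⟨g', hg', h2⟩
          exact ⟨g * g', hg.mul hg', by rw [h2, h1, mul_assoc]⟩ }
  let Q := Quotient R
  let f : PrBI n → Q := fun i => Quotient.mk R i
  -- the fibers
  have hfib : ∀ x ∈ (Finset.univ : Finset (PrBI n)).image f,
      (Finset.univ.filter fun i => f i = x).card ≤ 4 * S.d * a ^ 2 := by
    intro x _
    set A := (Finset.univ : Finset (PrBI n)).filter fun i => f i = x with hA
    have h1 := C.few (fun k : Fin A.card => PrBx S (Quotient.out x) - PrBx S (A.equivFin.symm k).1)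
      (by
        intro k l hkl hmem
        have h2 : (A.equivFin.symm l).1 ≠ (A.equivFin.symm k).1 := by
          intro h3
          exact hkl (A.equivFin.symm.injective (Subtype.ext h3)).symm
        apply PrB_incong S hn1 h2
        have h4 : PrBx S (A.equivFin.symm l).1 - PrBx S (A.equivFin.symm k).1 =
          (PrBx S (Quotient.out x) - PrBx S (A.equivFin.symm k).1) -
          (PrBx S (Quotient.out x) - PrBx S (A.equivFin.symm l).1) := by abel
        rw [h4]
        exact hmem)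
      (by
        intro k
        have h5 : (A.equivFin.symm k).1 ∈ A := (A.equivFin.symm k).2
        have h6 : f (A.equivFin.symm k).1 = x := (Finset.mem_filter.mp h5).2
        have h7 : σ (A.equivFin.symm k).1 ∈ Mult (σ (Quotient.out x)) := by
          have h8 : Quotient.mk R (Quotient.out x) = Quotient.mk R (A.equivFin.symm k).1 := by
            rw [Quotient.out_eq]
            exact h6.symm
          exact Quotient.exact h8
        exact C.van_of_assoc (he _) (he _) (he0 _) (he0 _) (hσ _) (hσ _) (hm _) (hm _) (h0 _) (h0 _) h7)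
    exact h1.le
  have hcard := Finset.card_le_mul_card_image (f := f) (Finset.univ : Finset (PrBI n)) (4 * S.d * a ^ 2) hfib
  set Y := (Finset.univ : Finset (PrBI n)).image f with hY
  have hI : (Finset.univ : Finset (PrBI n)).card = n ^ 4 := by
    rw [Finset.card_univ, Fintype.card_prod, Fintype.card_prod, Fintype.card_fin]
    ring
  rw [hI] at hcard
  have hlev := Curve.prod_level C.ha (r := Y.card)
    (α := fun k => α (Quotient.out (Y.equivFin.symm k).1))
    (β := fun k => β (Quotient.out (Y.equivFin.symm k).1))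
    (σ := fun k => σ (Quotient.out (Y.equivFin.symm k).1))
    (fun k => hm _) (fun k => h0 _) (fun k => hD _)
    (by
      intro k l hkl hmem
      apply hkl
      apply Y.equivFin.symm.injective
      apply Subtype.ext
      have h1 : Quotient.mk R (Quotient.out (Y.equivFin.symm k).1) =
          Quotient.mk R (Quotient.out (Y.equivFin.symm l).1) := Quotient.sound hmem
      rw [Quotient.out_eq, Quotient.out_eq] at h1
      exact h1)
    hFT hFne (fun k => hFσ _)
  have hcard' : (n : ℤ) ^ 4 ≤ 4 * S.d * a ^ 2 * Y.card := by exact_mod_cast hcard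
  have hd : (0 : ℤ) < S.d := by exact_mod_cast S.d_pos
  have ha : (0 : ℤ) < a := by exact_mod_cast C.ha
  have hn2 : (0 : ℤ) < (n : ℤ) ^ 2 := by
    have : (1 : ℤ) ≤ n := by exact_mod_cast hn1
    positivity
  have h1 : (n : ℤ) ^ 4 ≤ (2 * S.d * a) * ((n : ℤ) ^ 2 * N) := by
    have h2 := mul_le_mul_of_nonneg_left hlev (by positivity : (0 : ℤ) ≤ 2 * S.d * a)
    nlinarith
  have h3 : (n : ℤ) ^ 2 * (n : ℤ) ^ 2 ≤ (n : ℤ) ^ 2 * (2 * (S.d : ℤ) * a * N) := by
    nlinarith
  have h4 := le_of_mul_le_mul_left h3 hn2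
  linarith

end PerData

end Q2T
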