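import Pool.Agent.H.MP_89f84f_ag.q2.ThF

set_option autoImplicit false

open Complex Topology Filter Asymptotics Metric Set Module

namespace Q2T

/-! ### Signs and the contribution of one coordinate -/

/-- The sign `(-1) ^ m`. -/
private def sg (m : ℤ) : ℤ := if Even m then 1 else -1

private theorem sg_add (m n : ℤ) : sg (m + n) = sg m * sg n := by
  unfold sg
  by_cases hm : Even m <;> by_cases hn : Even n <;> simp [hm, hn, Int.even_add]

private theorem sg_even {m : ℤ} (h : Even m) : sg m = 1 := if_pos h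

private theorem sg_odd {m : ℤ} (h : ¬ Even m) : sg m = -1 := if_neg h

private theorem abs_sg (m : ℤ) : |sg m| = 1 := by
  unfold sg
  split_ifs <;> simp

private theorem cexp_sg (m : ℤ) : cexp (Real.pi * I * m) = (sg m : ℂ) := by
  rcases Int.even_or_odd m with ⟨k, hk⟩ | ⟨k, hk⟩
  · rw [sg_even ⟨k, hk⟩]
    have h1 : (Real.pi : ℂ) * I * m = (k : ℂ) * (2 * Real.pi * I) := by
      rw [hk]; push_cast; ring
    rw [h1, Complex.exp_int_mul_two_pi_mul_I]
    simp
  · rw [sg_odd (Int.not_even_iff_odd.2 ⟨k, hk⟩)]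
    have h1 : (Real.pi : ℂ) * I * m = (k : ℂ) * (2 * Real.pi * I) + Real.pi * I := by
      rw [hk]; push_cast; ring
    rw [h1, Complex.exp_add, Complex.exp_int_mul_two_pi_mul_I, Complex.exp_pi_mul_I]
    simp

/-- One term. -/
private def g1 (M : ℕ) (a b : ℤ) (i : ℕ) : ℤ :=
  if (M : ℤ) ∣ 2 * i + a then sg (b * ((2 * i + a) / M)) else 0

/-- The contribution of one coordinate. -/
private def F1 (M : ℕ) (a b : ℤ) : ℤ := ∑ i : Fin M, g1 M a b i

private theorem F1_odd {M : ℕ} (hM : Odd M) (a b : ℤ) : |F1 M a b| ≤ 1 := by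
  classical
  unfold F1
  refine (Finset.abs_sum_le_sum_abs _ _).trans ?_
  have h1 : ∀ i : Fin M, |g1 M a b i| = if (M : ℤ) ∣ 2 * (i : ℕ) + a then 1 else 0 := by
    intro i
    unfold g1
    split_ifs
    · exact abs_sg _
    · exact abs_zero
  rw [Finset.sum_congr rfl fun i _ => h1 i, Finset.sum_boole]
  have h2 : (Finset.univ.filter fun i : Fin M => (M : ℤ) ∣ 2 * (i : ℕ) + a).card ≤ 1 := by
    rw [Finset.card_le_one]
    intro i hi j hj
    rw [Finset.mem_filter] at hi hj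
    have h3 : (M : ℤ) ∣ 2 * ((i : ℕ) - (j : ℕ) : ℤ) := by
      have := dvd_sub hi.2 hj.2
      have e : (2 * ((i : ℕ) : ℤ) + a) - (2 * ((j : ℕ) : ℤ) + a) =
        2 * (((i : ℕ) : ℤ) - ((j : ℕ) : ℤ)) := by ring
      rwa [e] at this
    have h4 : IsCoprime (M : ℤ) 2 := by
      have h5 : Nat.Coprime M 2 := hM.coprime_two_right
      exact_mod_cast Nat.isCoprime_iff_coprime.2 h5
    have h6 : (M : ℤ) ∣ ((i : ℕ) : ℤ) - ((j : ℕ) : ℤ) := h4.dvd_of_dvd_mul_left h3
    have h7 : ((i : ℕ) : ℤ) - ((j : ℕ) : ℤ) = 0 := by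
      refine Int.eq_zero_of_abs_lt_dvd h6 ?_
      have := i.2
      have := j.2
      rw [abs_lt]
      constructor <;> omega
    exact Fin.ext (by omega)
  exact_mod_cast h2

private theorem F1_two {H : ℕ} (hH : 0 < H) (a' b : ℤ) :
    F1 (H + H) (2 * a') b = if Even b then 2 else 0 := by
  have hH' : (0 : ℤ) < H := by exact_mod_cast hH
  unfold F1
  rw [← Finset.sum_range (fun i => g1 (H + H) (2 * a') b i), Finset.sum_range_add,
    ← Finset.sum_add_distrib]
  have h1 : ∀ i ∈ Finset.range H, g1 (H + H) (2 * a') b i + g1 (H + H) (2 * a') b (H + i) =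
      if (H : ℤ) ∣ i + a' then (if Even b then 2 else 0) else 0 := by
    intro i _
    have c1 : ((H + H : ℕ) : ℤ) ∣ 2 * (i : ℤ) + 2 * a' ↔ (H : ℤ) ∣ i + a' := by
      have e : 2 * (i : ℤ) + 2 * a' = 2 * (i + a') := by ring
      have e' : ((H + H : ℕ) : ℤ) = 2 * H := by push_cast; ring
      rw [e, e']
      exact mul_dvd_mul_iff_left two_ne_zero
    have c2 : ((H + H : ℕ) : ℤ) ∣ 2 * ((H + i : ℕ) : ℤ) + 2 * a' ↔ (H : ℤ) ∣ i + a' := by
      have e : 2 * ((H + i : ℕ) : ℤ) + 2 * a' = 2 * ((i + a') + H) := by push_cast; ring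
      have e' : ((H + H : ℕ) : ℤ) = 2 * H := by push_cast; ring
      rw [e, e', mul_dvd_mul_iff_left two_ne_zero]
      exact dvd_add_self_right
    unfold g1
    by_cases h : (H : ℤ) ∣ i + a'
    · rw [if_pos (c1.2 h), if_pos (c2.2 h), if_pos h]
      obtain ⟨q, hq⟩ := h
      have e1 : (2 * (i : ℤ) + 2 * a') / ((H + H : ℕ) : ℤ) = q := by
        refine Int.ediv_eq_of_eq_mul_right (by push_cast; omega) ?_
        push_cast
        linear_combination 2 * hq
      have e2 : (2 * ((H + i : ℕ) : ℤ) + 2 * a') / ((H + H : ℕ) : ℤ) = q + 1 := by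
        refine Int.ediv_eq_of_eq_mul_right (by push_cast; omega) ?_
        push_cast
        linear_combination 2 * hq
      rw [e1, e2, mul_add, mul_one, sg_add]
      by_cases hb : Even b
      · rw [sg_even hb, sg_even (hb.mul_right q), if_pos hb]
        norm_num
      · rw [sg_odd hb, if_neg hb]
        ring
    · rw [if_neg (fun h' => h (c1.1 h')), if_neg (fun h' => h (c2.1 h')), if_neg h, add_zero]
  rw [Finset.sum_congr rfl h1]
  obtain ⟨r, hr, hr'⟩ : ∃ r : ℕ, r < H ∧ (H : ℤ) ∣ r + a' := by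
    refine ⟨((-a') % (H : ℤ)).toNat, ?_, ?_⟩
    · have := Int.emod_lt_of_pos (-a') hH'
      have := Int.emod_nonneg (-a') hH'.ne'
      omega
    · rw [Int.toNat_of_nonneg (Int.emod_nonneg _ hH'.ne')]
      have h3 := Int.emod_add_mul_ediv (-a') H
      exact ⟨-((-a') / (H : ℤ)), by linear_combination h3⟩
  rw [Finset.sum_eq_single r]
  · rw [if_pos hr']
  · intro i hi hir
    rw [if_neg]
    intro hd
    have h4 : (H : ℤ) ∣ (i : ℤ) - r := by
      have := dvd_sub hd hr'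
      have e : ((i : ℤ) + a') - ((r : ℤ) + a') = (i : ℤ) - r := by ring
      rwa [e] at this
    have h5 : (i : ℤ) - r = 0 := by
      refine Int.eq_zero_of_abs_lt_dvd h4 ?_
      have := Finset.mem_range.1 hi
      rw [abs_lt]
      constructor <;> omega
    exact hir (by omega)
  · intro h
    exact absurd (Finset.mem_range.2 hr) h

private theorem F1_oddchar {M : ℕ} (hM : Even M) {a : ℤ} (ha : ¬ Even a) (b : ℤ) :
    F1 M a b = 0 := by
  unfold F1
  refine Finset.sum_eq_zero fun i _ => ?_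
  unfold g1
  rw [if_neg]
  intro hd
  obtain ⟨H, hH⟩ := hM
  apply ha
  have h1 : (2 : ℤ) ∣ 2 * ((i : ℕ) : ℤ) + a := by
    refine dvd_trans ?_ hd
    exact ⟨H, by rw [hH]; push_cast; ring⟩
  have h2 : (2 : ℤ) ∣ a := (Int.dvd_add_right (Dvd.intro _ rfl)).1 h1
  exact even_iff_two_dvd.2 h2

private theorem F1_even {M : ℕ} (hM : Even M) (hM0 : 0 < M) (a b : ℤ) :
    F1 M a b = if Even a ∧ Even b then 2 else 0 := by
  obtain ⟨H, rfl⟩ := hM
  by_cases ha : Even a
  · obtain ⟨a', rfl⟩ := ha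
    have h1 : a' + a' = 2 * a' := by ring
    have h2 : Even (2 * a') := even_two_mul a'
    rw [h1, F1_two (by omega) a' b]
    simp [h2]
  · rw [F1_oddchar ⟨H, rfl⟩ ha b]
    simp [ha]

private theorem F1_le {M : ℕ} (hM0 : 0 < M) (a b : ℤ) : |F1 M a b| ≤ 2 := by
  rcases Nat.even_or_odd M with h | h
  · rw [F1_even h hM0]
    split_ifs <;> norm_num
  · exact (F1_odd h a b).trans (by norm_num)

/-- Dimensions of the eigenspaces of an involution with a given trace. -/
private theorem invol_dim {V : Type*} [AddCommGroup V] [Module ℂ V] [FiniteDimensional ℂ V]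
    (σ : V →ₗ[ℂ] V) (hσ : ∀ f, σ (σ f) = f) (ε : ℂ) (hε : ε * ε = 1) (E : Submodule ℂ V)
    (hE : ∀ f, f ∈ E ↔ σ f = ε • f) :
    2 * (finrank ℂ E : ℂ) = (finrank ℂ V : ℂ) + ε * LinearMap.trace ℂ V σ := by
  have hP : LinearMap.IsProj E ((1 / 2 : ℂ) • (LinearMap.id + ε • σ)) := by
    refine ⟨fun x => ?_, fun x hx => ?_⟩
    · rw [hE]
      simp only [LinearMap.smul_apply, LinearMap.add_apply, LinearMap.id_apply, map_smul, map_add,
        hσ]
      have h1 : ε • ((1 / 2 : ℂ) • (x + ε • σ x)) = (1 / 2 : ℂ) • (ε • x + (ε * ε) • σ x) := by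
        module
      rw [hε, one_smul] at h1
      rw [h1]
      module
    · have h1 := (hE x).1 hx
      simp only [LinearMap.smul_apply, LinearMap.add_apply, LinearMap.id_apply, h1]
      rw [smul_smul, hε, one_smul, ← two_smul ℂ x, smul_smul]
      norm_num
  have h1 := hP.trace
  rw [← h1, map_smul, map_add, map_smul, LinearMap.trace_id, smul_eq_mul, smul_eq_mul]
  ring

namespace PerData

variable (S : PerData)

/-- The involution `f ↦ f (-z)` for half-integral characteristics. -/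
private theorem exists_invol (u : ℤ) {α β : Fin 2 → ℝ} (hα : ∀ i, ∃ k : ℤ, 2 * α i = k)
    (hβ : ∀ i, ∃ k : ℤ, 2 * β i = k) :
    ∃ σ : S.Th u α β →ₗ[ℂ] S.Th u α β, ∀ f z, (σ f : C2 → ℂ) z = (f : C2 → ℂ) (-z) := by
  have hT : S.Th u (-α) (-β) = S.Th u α β := by
    refine S.th_congr u (fun i => ?_) fun i => ?_
    · obtain ⟨k, hk⟩ := hα i
      exact ⟨-k, by rw [Pi.neg_apply]; push_cast; linarith⟩
    · obtain ⟨k, hk⟩ := hβ i
      exact ⟨-k, by rw [Pi.neg_apply]; push_cast; linarith⟩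
  have hmem : ∀ g : C2 → ℂ, g ∈ S.Th u α β → (fun z => g (-z)) ∈ S.Th u α β := by
    intro g hg
    have h1 := S.th_neg_arg hg
    rw [hT] at h1
    exact h1
  exact ⟨{  toFun := fun f => ⟨fun z => (f : C2 → ℂ) (-z), hmem _ f.2⟩
            map_add' := fun f g => rfl
            map_smul' := fun c f => rfl }, fun f z => rfl⟩

private theorem th_periodic {u : ℤ} {α β : Fin 2 → ℝ} {f : C2 → ℂ} (hf : f ∈ S.Th u α β)
    (q : Z2) (z : C2) : f (z + S.dv q) = cexp (2 * Real.pi * I * ((rdot α q : ℝ) : ℂ)) * f z := by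
  have h := hf.2 0 q z
  rw [S.tv_zero, add_zero] at h
  rw [h]
  unfold J
  have e1 : rdot β (0 : Z2) = 0 := by simp [rdot]
  have e2 : dot (0 : Z2) (S.tv 0) = 0 := by simp [dot]
  have e3 : dot (0 : Z2) z = 0 := by simp [dot]
  rw [e1, S.tv_zero] at *
  rw [add_zero]
  have e4 : dot (0 : Z2) (0 : C2) = 0 := by simp [dot]
  rw [e4, e3]
  simp

/-- The trace of the involution. -/
private theorem trace_invol {N : ℕ} (hN : 1 ≤ N) {α β : Fin 2 → ℝ} {a b : Z2}
    (ha : ∀ i, 2 * α i = a i) (hb : ∀ i, 2 * β i = b i)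
    (σ : S.Th (N : ℤ) α β →ₗ[ℂ] S.Th (N : ℤ) α β)
    (hσ : ∀ f z, (σ f : C2 → ℂ) z = (f : C2 → ℂ) (-z)) :
    LinearMap.trace ℂ _ σ = ((F1 N (a 0) (b 0) * F1 (N * S.d) (a 1) (b 1) : ℤ) : ℂ) := by
  classical
  obtain ⟨e, he⟩ := S.exists_equiv hN α β
  have hd0 : 0 < S.d := S.d_pos
  have hN' : (0 : ℤ) < N := by exact_mod_cast hN
  have hNd : (0 : ℤ) < N * S.d := by positivity
  have hσe : ∀ f i, e (σ f) i = S.fc α f (-S.rep N i - a) := by
    intro f i
    rw [he]
    have h1 : ((σ f : S.Th (N : ℤ) α β) : C2 → ℂ) = fun z => (f : C2 → ℂ) (-z) := funext (hσ f)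
    rw [h1]
    exact S.fc_neg f.2.1.continuous (S.th_periodic f.2) ha _
  have hdiag : ∀ i, e (σ (e.symm (Pi.single i 1))) i =
      ((g1 N (a 0) (b 0) i.1 * g1 (N * S.d) (a 1) (b 1) i.2 : ℤ) : ℂ) := by
    intro i
    obtain ⟨f, hf⟩ : ∃ f, f = e.symm (Pi.single i 1) := ⟨_, rfl⟩
    have hef : e f = Pi.single i 1 := by rw [hf, LinearEquiv.apply_symm_apply]
    rw [← hf, hσe]
    by_cases h01 : ((N : ℤ) ∣ 2 * ((i.1 : ℕ) : ℤ) + a 0) ∧
        ((N * S.d : ℕ) : ℤ) ∣ 2 * ((i.2 : ℕ) : ℤ) + a 1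
    · obtain ⟨⟨k0, hk0⟩, k1, hk1⟩ := h01
      have hs : -S.rep N i - a = S.rep N i + S.sh N ![-k0, -k1] := by
        funext j
        fin_cases j
        · show -((i.1 : ℕ) : ℤ) - a 0 = ((i.1 : ℕ) : ℤ) + (N : ℤ) * (-k0)
          linarith
        · show -((i.2 : ℕ) : ℤ) - a 1 = ((i.2 : ℕ) : ℤ) + (N : ℤ) * S.d * (-k1)
          push_cast at hk1
          linarith
      rw [hs, S.fc_rec f.2, ← he, hef, Pi.single_eq_same, mul_one]
      have hd : (S.d : ℂ) ≠ 0 := by exact_mod_cast hd0.ne'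
      have hαc : ∀ j, (2 : ℂ) * (α j : ℂ) = (a j : ℂ) := fun j => by exact_mod_cast ha j
      have hβc : ∀ j, (2 : ℂ) * (β j : ℂ) = (b j : ℂ) := fun j => by exact_mod_cast hb j
      have hk0c : (2 : ℂ) * ((i.1 : ℕ) : ℂ) + (a 0 : ℂ) = (N : ℂ) * k0 := by exact_mod_cast hk0
      have hk1c : (2 : ℂ) * ((i.2 : ℕ) : ℂ) + (a 1 : ℂ) = (N : ℂ) * S.d * k1 := by
        exact_mod_cast hk1
      have hexp : -(2 * Real.pi * I * ((rdot β ![-k0, -k1] : ℝ) : ℂ)) +
          Real.pi * I * (N : ℤ) * dot ![-k0, -k1] (S.tv ![-k0, -k1]) +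
          2 * Real.pi * I * S.rz α (S.rep N i) (S.tv ![-k0, -k1]) =
          Real.pi * I * ((b 0 * k0 + b 1 * k1 : ℤ) : ℂ) := by
        obtain ⟨w, hw⟩ : ∃ w, w = S.tv ![-k0, -k1] := ⟨_, rfl⟩
        rw [← hw]
        have e1 : ((rdot β ![-k0, -k1] : ℝ) : ℂ) = (β 0 : ℂ) * (-k0) + (β 1 : ℂ) * (-k1) := by
          simp [rdot]
        have e2 : dot ![-k0, -k1] w = -(k0 : ℂ) * w 0 + -(k1 : ℂ) * w 1 := by
          simp [dot]
        have e3 : S.rz α (S.rep N i) w = (((i.1 : ℕ) : ℂ) + α 0) * w 0 +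
            (((i.2 : ℕ) : ℂ) + α 1) / (S.d : ℂ) * w 1 := by
          simp [rz, rep]
        rw [e1, e2, e3]
        have e4 : (((i.2 : ℕ) : ℂ) + α 1) / (S.d : ℂ) = (N : ℂ) * k1 / 2 := by
          rw [div_eq_div_iff hd two_ne_zero]
          linear_combination hk1c + hαc 1
        have e5 : ((i.1 : ℕ) : ℂ) + α 0 = (N : ℂ) * k0 / 2 := by
          linear_combination (1 / 2 : ℂ) * hk0c + (1 / 2 : ℂ) * hαc 0
        rw [e4, e5]
        push_cast
        linear_combination (Real.pi * I * k0) * hβc 0 + (Real.pi * I * k1) * hβc 1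
      unfold rf
      rw [hexp, cexp_sg, sg_add]
      unfold g1
      rw [if_pos ⟨k0, hk0⟩, if_pos ⟨k1, hk1⟩, hk0, hk1, Int.mul_ediv_cancel_left _ hN'.ne',
        Int.mul_ediv_cancel_left _ (by push_cast; exact hNd.ne')]
    · have hg : g1 N (a 0) (b 0) i.1 * g1 (N * S.d) (a 1) (b 1) i.2 = 0 := by
        rcases not_and_or.1 h01 with h | h
        · have h2 : g1 N (a 0) (b 0) i.1 = 0 := if_neg h
          rw [h2, zero_mul]
        · have h2 : g1 (N * S.d) (a 1) (b 1) i.2 = 0 := if_neg h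
          rw [h2, mul_zero]
      rw [hg, Int.cast_zero]
      obtain ⟨m, hm⟩ : ∃ m, m = -S.rep N i - a := ⟨_, rfl⟩
      have m0 : m 0 = -((i.1 : ℕ) : ℤ) - a 0 := by rw [hm]; rfl
      have m1 : m 1 = -((i.2 : ℕ) : ℤ) - a 1 := by rw [hm]; rfl
      have r0 := Int.emod_nonneg (m 0) hN'.ne'
      have r0' := Int.emod_lt_of_pos (m 0) hN'
      have r1 := Int.emod_nonneg (m 1) hNd.ne'
      have r1' := Int.emod_lt_of_pos (m 1) hNd
      have q0 := Int.emod_add_mul_ediv (m 0) N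
      have q1 := Int.emod_add_mul_ediv (m 1) (N * S.d)
      obtain ⟨s0, hs0⟩ := Int.eq_ofNat_of_zero_le r0
      obtain ⟨s1, hs1⟩ := Int.eq_ofNat_of_zero_le r1
      rw [hs0] at r0' q0
      rw [hs1] at r1' q1
      obtain ⟨p0, hp0⟩ : ∃ p0, p0 = m 0 / (N : ℤ) := ⟨_, rfl⟩
      obtain ⟨p1, hp1⟩ : ∃ p1, p1 = m 1 / ((N : ℤ) * S.d) := ⟨_, rfl⟩
      rw [← hp0] at q0
      rw [← hp1] at q1
      have t0 : s0 < N := by exact_mod_cast r0'
      have t1 : s1 < N * S.d := by exact_mod_cast r1'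
      have hs : m = S.rep N (⟨s0, t0⟩, ⟨s1, t1⟩) + S.sh N ![p0, p1] := by
        funext j
        fin_cases j
        · show m 0 = (s0 : ℤ) + (N : ℤ) * p0
          exact q0.symm
        · show m 1 = (s1 : ℤ) + (N : ℤ) * S.d * p1
          exact q1.symm
      rw [← hm, hs, S.fc_rec f.2, ← he, hef, Pi.single_eq_of_ne, mul_zero]
      intro hEq
      apply h01
      have u0 : s0 = (i.1 : ℕ) := congrArg (fun x : Fin N × Fin (N * S.d) => (x.1 : ℕ)) hEq
      have u1 : s1 = (i.2 : ℕ) := congrArg (fun x : Fin N × Fin (N * S.d) => (x.2 : ℕ)) hEq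
      refine ⟨⟨-p0, ?_⟩, -p1, ?_⟩
      · rw [m0, u0] at q0
        linarith
      · rw [m1, u1] at q1
        push_cast
        linarith
  rw [← LinearMap.trace_conj' σ e, LinearMap.trace_eq_matrix_trace ℂ (Pi.basisFun ℂ _),
    LinearMap.toMatrix_eq_toMatrix']
  have h1 : Matrix.trace (LinearMap.toMatrix' (e.conj σ)) =
      ∑ i, e (σ (e.symm (Pi.single i 1))) i := by
    unfold Matrix.trace
    refine Finset.sum_congr rfl fun i _ => ?_
    rw [Matrix.diag_apply, LinearMap.toMatrix'_apply, LinearEquiv.conj_apply_apply]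
  rw [h1, Finset.sum_congr rfl fun i _ => hdiag i, ← Int.cast_sum]
  congr 1
  rw [Fintype.sum_prod_type]
  unfold F1
  rw [Finset.sum_mul_sum]

/-- Dimensions of the even (`ε = 1`) and odd (`ε = -1`) parts for half-integral characteristics: they are
`(u ^ 2 d + ε T) / 2` with `T` the trace of `f ↦ f (- z)`.
PROOF: through `exists_equiv` and `fc_neg` the involution is `c ↦ (i ↦ κ i * c (i*))`, where `rep (i*)` is congruent to
`- rep i - 2 α` modulo `(u, u d)` and `κ i = rf ...`; the trace is the sum of `κ i` over the fixed points, and the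
dimensions of the eigenspaces of an involution are `(dim + ε trace) / 2`.  At a fixed point
`2 n + 2 α = (u p₀, u d p₁)`, `p ∈ ℤ²` and `κ = exp (2 π i β · p) = ± 1`.  Fixed points correspond to
`p mod 2` with `u p₀ ≡ 2 α₀`, `u d p₁ ≡ 2 α₁ (mod 2)`.  If `u` is even there are fixed points only for integral `α`, then
all four `p`, and the sum of `exp (2 π i β · p)` is `4` for integral `β` and `0` otherwise.  If `u` is odd, `p₀ mod 2`
is determined, so at most two fixed points. -/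
theorem finrank_par {u : ℤ} (hu : 1 ≤ u) {α β : Fin 2 → ℝ} (hα : ∀ i, ∃ k : ℤ, 2 * α i = k)
    (hβ : ∀ i, ∃ k : ℤ, 2 * β i = k) :
    ∃ T : ℤ, (∀ ε : ℤ, (ε = 1 ∨ ε = -1) →
        2 * (finrank ℂ (S.Th u α β ⊓ Par (ε : ℂ) : Submodule ℂ (C2 → ℂ)) : ℤ) = u ^ 2 * S.d + ε * T) ∧
      (Even u → ((∀ i, ∃ k : ℤ, α i = k) ∧ ∀ i, ∃ k : ℤ, β i = k) → T = 4) ∧
      (Even u → ¬ ((∀ i, ∃ k : ℤ, α i = k) ∧ ∀ i, ∃ k : ℤ, β i = k) → T = 0) ∧
      (Odd u → |T| ≤ 2) := by
  obtain ⟨N, rfl⟩ := Int.eq_ofNat_of_zero_le (by omega : 0 ≤ u)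
  have hN : 1 ≤ N := by omega
  choose a ha using hα
  choose b hb using hβ
  obtain ⟨σ, hσ⟩ := S.exists_invol (N : ℤ) (fun i => ⟨a i, ha i⟩) (fun i => ⟨b i, hb i⟩)
  have htr := S.trace_invol hN ha hb σ hσ
  have hα' : ∀ i, (∃ k : ℤ, α i = k) ↔ Even (a i) := by
    intro i
    constructor
    · rintro ⟨k, hk⟩
      refine ⟨k, ?_⟩
      have h1 := ha i
      rw [hk] at h1
      have h2 : ((k + k : ℤ) : ℝ) = a i := by rw [← h1]; push_cast; ring
      exact_mod_cast h2.symm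
    · rintro ⟨k, hk⟩
      refine ⟨k, ?_⟩
      have h1 := ha i
      rw [hk] at h1
      push_cast at h1
      linarith
  have hβ' : ∀ i, (∃ k : ℤ, β i = k) ↔ Even (b i) := by
    intro i
    constructor
    · rintro ⟨k, hk⟩
      refine ⟨k, ?_⟩
      have h1 := hb i
      rw [hk] at h1
      have h2 : ((k + k : ℤ) : ℝ) = b i := by rw [← h1]; push_cast; ring
      exact_mod_cast h2.symm
    · rintro ⟨k, hk⟩
      refine ⟨k, ?_⟩
      have h1 := hb i
      rw [hk] at h1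
      push_cast at h1
      linarith
  have hNd : 0 < N * S.d := Nat.mul_pos hN S.d_pos
  refine ⟨F1 N (a 0) (b 0) * F1 (N * S.d) (a 1) (b 1), fun ε hε => ?_, fun he hc => ?_,
    fun he hc => ?_, fun ho => ?_⟩
  · have hfin := S.finite_th (N : ℤ) α β
    obtain ⟨E, hEdef⟩ : ∃ E, E = (Par (ε : ℂ)).comap (S.Th (N : ℤ) α β).subtype := ⟨_, rfl⟩
    have hσσ : ∀ f, σ (σ f) = f := by
      intro f
      refine Subtype.ext (funext fun z => ?_)
      rw [hσ, hσ, neg_neg]
    have hE : ∀ f, f ∈ E ↔ σ f = (ε : ℂ) • f := by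
      intro f
      rw [hEdef, Submodule.mem_comap]
      constructor
      · intro h
        refine Subtype.ext (funext fun z => ?_)
        rw [hσ]
        exact h z
      · intro h z
        have h1 := congrArg (fun g : S.Th (N : ℤ) α β => (g : C2 → ℂ) z) h
        simp only [hσ] at h1
        exact h1
    have h1 := invol_dim σ hσσ (ε : ℂ) (by rcases hε with rfl | rfl <;> norm_num) E hE
    have h2 : finrank ℂ (S.Th (N : ℤ) α β ⊓ Par (ε : ℂ) : Submodule ℂ (C2 → ℂ)) = finrank ℂ E := by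
      rw [← Submodule.map_comap_subtype, Submodule.finrank_map_subtype_eq, hEdef]
    have h3 := S.finrank_th (u := (N : ℤ)) (by omega) α β
    have h4 : (finrank ℂ (S.Th (N : ℤ) α β) : ℂ) = (((N : ℤ) ^ 2 * S.d : ℤ) : ℂ) := by
      rw [← h3]; push_cast; rfl
    rw [h4, htr] at h1
    rw [h2]
    exact_mod_cast h1
  · have heN : Even N := by exact_mod_cast he
    rw [F1_even heN (by omega), F1_even (heN.mul_right S.d) hNd,
      if_pos ⟨(hα' 0).1 (hc.1 0), (hβ' 0).1 (hc.2 0)⟩,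
      if_pos ⟨(hα' 1).1 (hc.1 1), (hβ' 1).1 (hc.2 1)⟩]
    norm_num
  · have heN : Even N := by exact_mod_cast he
    rw [F1_even heN (by omega), F1_even (heN.mul_right S.d) hNd]
    by_cases h0 : Even (a 0) ∧ Even (b 0)
    · by_cases h1 : Even (a 1) ∧ Even (b 1)
      · exfalso
        apply hc
        constructor
        · intro i
          rw [hα']
          fin_cases i
          · exact h0.1
          · exact h1.1
        · intro i
          rw [hβ']
          fin_cases i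
          · exact h0.2
          · exact h1.2
      · rw [if_neg h1, mul_zero]
    · rw [if_neg h0, zero_mul]
  · have hoN : Odd N := by exact_mod_cast ho
    rw [abs_mul]
    have h0 := F1_odd hoN (a 0) (b 0)
    have h1 := F1_le hNd (a 1) (b 1)
    calc |F1 N (a 0) (b 0)| * |F1 (N * S.d) (a 1) (b 1)| ≤ 1 * 2 :=
          mul_le_mul h0 h1 (abs_nonneg _) (by norm_num)
      _ = 2 := by norm_num

/-- even level, zero characteristics -/
theorem finrank_even {x : ℤ} (hx : 1 ≤ x) :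
    (finrank ℂ (S.Th (2 * x) 0 0 ⊓ Par 1 : Submodule ℂ (C2 → ℂ)) : ℤ) = 2 * S.d * x ^ 2 + 2 := by
  obtain ⟨T, h1, h2, -, -⟩ := S.finrank_par (u := 2 * x) (by omega) (α := 0) (β := 0)
    (fun i => ⟨0, by simp⟩) (fun i => ⟨0, by simp⟩)
  have h3 := h2 (even_two_mul x) ⟨fun i => ⟨0, by simp⟩, fun i => ⟨0, by simp⟩⟩
  have h4 := h1 1 (Or.inl rfl)
  rw [h3, Int.cast_one] at h4
  linarith

theorem finrank_odd {x : ℤ} (hx : 1 ≤ x) :
    (finrank ℂ (S.Th (2 * x) 0 0 ⊓ Par (-1) : Submodule ℂ (C2 → ℂ)) : ℤ) = 2 * S.d * x ^ 2 - 2 := by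
  obtain ⟨T, h1, h2, -, -⟩ := S.finrank_par (u := 2 * x) (by omega) (α := 0) (β := 0)
    (fun i => ⟨0, by simp⟩) (fun i => ⟨0, by simp⟩)
  have h3 := h2 (even_two_mul x) ⟨fun i => ⟨0, by simp⟩, fun i => ⟨0, by simp⟩⟩
  have h4 := h1 (-1) (Or.inr rfl)
  have e : (((-1 : ℤ)) : ℂ) = -1 := by norm_num
  rw [h3, e] at h4
  linarith

/-- A theta function of level one with a parity. -/
private theorem exists_theta_par : ∃ θ ∈ S.Th 1 0 0, θ ≠ 0 ∧ ∃ ε : ℂ, ε * ε = 1 ∧
    ∀ z, θ (-z) = ε * θ z := by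
  have h1 := S.finrank_th (u := 1) le_rfl 0 0
  have h2 : 0 < finrank ℂ (S.Th 1 0 0) := by
    have : (0 : ℤ) < S.d := by exact_mod_cast S.d_pos
    rw [one_pow, one_mul] at h1
    omega
  have := S.finite_th 1 0 0
  have hnt : Nontrivial (S.Th 1 0 0) := Module.finrank_pos_iff.1 h2
  obtain ⟨f, hf⟩ := exists_ne (0 : S.Th 1 0 0)
  have hf0 : (f : C2 → ℂ) ≠ 0 := fun h => hf (Subtype.ext h)
  have hneg : (fun z => (f : C2 → ℂ) (-z)) ∈ S.Th 1 0 0 := by
    have h3 := S.th_neg_arg f.2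
    rwa [neg_zero] at h3
  by_cases he : (f : C2 → ℂ) + (fun z => (f : C2 → ℂ) (-z)) = 0
  · refine ⟨f, f.2, hf0, -1, by norm_num, fun z => ?_⟩
    have h4 : (f : C2 → ℂ) z + (f : C2 → ℂ) (-z) = 0 := congrFun he z
    linear_combination h4
  · refine ⟨_, (S.Th 1 0 0).add_mem f.2 hneg, he, 1, by norm_num, fun z => ?_⟩
    simp only [Pi.add_apply, neg_neg]
    ring

/-- `θ (z + a) θ (z - a)`. -/
private theorem prod_mem {θ : C2 → ℂ} (h : θ ∈ S.Th 1 0 0) (a : C2) :
    (fun z => θ (z + a) * θ (z - a)) ∈ S.Th 2 0 0 := by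
  refine ⟨?_, fun p q z => ?_⟩
  · exact (h.1.comp (differentiable_id.add_const a)).mul
      (h.1.comp (differentiable_id.sub_const a))
  · have e1 : z + S.tv p + S.dv q + a = (z + a) + S.tv p + S.dv q := by abel
    have e2 : z + S.tv p + S.dv q - a = (z - a) + S.tv p + S.dv q := by abel
    have hr : ∀ q : Z2, rdot 0 q = 0 := fun q => by simp [rdot]
    have hJ : S.J 2 0 0 p q z = S.J 1 0 0 p q (z + a) * S.J 1 0 0 p q (z - a) := by
      unfold J
      rw [hr, hr]
      have e3 : dot p (z + a) = dot p z + dot p a := by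
        simp only [dot, Pi.add_apply]; ring
      have e4 : dot p (z - a) = dot p z - dot p a := by
        simp only [dot, Pi.sub_apply]; ring
      rw [e3, e4, add_zero, Complex.ofReal_zero, mul_zero, Complex.exp_zero, one_mul, one_mul,
        one_mul, ← Complex.exp_add]
      congr 1
      push_cast
      ring
    show θ (z + S.tv p + S.dv q + a) * θ (z + S.tv p + S.dv q - a) = _
    rw [e1, e2, h.2, h.2, hJ]
    ring

private theorem pow_mem {f : C2 → ℂ} (h : f ∈ S.Th 2 0 0) (n : ℕ) :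
    f ^ n ∈ S.Th (2 * n) 0 0 := by
  induction n with
  | zero =>
    have h1 := S.th_one
    rw [pow_zero, Nat.cast_zero, mul_zero]
    exact h1
  | succ n ih =>
    have h1 := S.th_mul ih h
    rw [add_zero, ← pow_succ] at h1
    have e : (2 : ℤ) * (n : ℤ) + 2 = 2 * ((n + 1 : ℕ) : ℤ) := by push_cast; ring
    rwa [e] at h1

/-- For every point there is an even section of level `2 x` not vanishing there.
PROOF: `Th 1 0 0 ≠ 0` (`finrank_th`), so it contains `θ ≠ 0` with `θ (-z) = ± θ z` (even or odd part).  The function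
`F z = θ (z + a) * θ (z - a)` is in `Th 2 0 0` (the two extra factors `exp (∓ 2 π i p · a)` cancel) and even; for given
`z` choose `a` with `θ (z + a) ≠ 0 ≠ θ (z - a)` (`mul_ne_zero_ent` for the entire functions of `a`).  Take `F ^ x`. -/
theorem exists_even_ne_zero {x : ℤ} (hx : 1 ≤ x) (z : C2) :
    ∃ f ∈ S.Th (2 * x) 0 0 ⊓ Par 1, f z ≠ 0 := by
  obtain ⟨θ, hθ, hθ0, ε, hε, hpar⟩ := S.exists_theta_par
  obtain ⟨n, rfl⟩ := Int.eq_ofNat_of_zero_le (by omega : 0 ≤ x)
  have hd1 : Differentiable ℂ fun a : C2 => θ (z + a) :=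
    hθ.1.comp (differentiable_id.const_add z)
  have hd2 : Differentiable ℂ fun a : C2 => θ (z - a) :=
    hθ.1.comp (differentiable_id.const_sub z)
  obtain ⟨w, hw⟩ : ∃ w, θ w ≠ 0 := by
    by_contra hcon
    push Not at hcon
    exact hθ0 (funext hcon)
  have n1 : (fun a : C2 => θ (z + a)) ≠ 0 := fun h => by
    have h1 : θ (z + (w - z)) = 0 := congrFun h (w - z)
    rw [add_sub_cancel] at h1
    exact hw h1
  have n2 : (fun a : C2 => θ (z - a)) ≠ 0 := fun h => by
    have h1 : θ (z - (z - w)) = 0 := congrFun h (z - w)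
    rw [sub_sub_cancel] at h1
    exact hw h1
  have n3 := mul_ne_zero_ent hd1 hd2 n1 n2
  obtain ⟨a, ha⟩ : ∃ a, θ (z + a) * θ (z - a) ≠ 0 := by
    by_contra hcon
    push Not at hcon
    exact n3 (funext hcon)
  refine ⟨(fun z => θ (z + a) * θ (z - a)) ^ n, ⟨S.pow_mem (S.prod_mem hθ a) n, fun y => ?_⟩, ?_⟩
  · simp only [Pi.pow_apply]
    have e1 : -y + a = -(y - a) := by abel
    have e2 : -y - a = -(y + a) := by abel
    rw [e1, e2, hpar, hpar, one_mul]
    congr 1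
    linear_combination (θ (y - a) * θ (y + a)) * hε
  · rw [Pi.pow_apply]
    exact pow_ne_zero n ha

end PerData

end Q2T
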