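import Pool.Agent.H.MP_89f84f_ag.q2.GcdT
import Pool.Agent.H.MP_89f84f_ag.q2.BzC
import Pool.Agent.H.MP_89f84f_ag.q2.ThG

set_option autoImplicit false

open Complex Topology Filter Asymptotics Metric Set Module

namespace Q2T

/-- Minimal solution of Pell's equation `b² = 2 d a² + 1`.  (Mathlib: `Pell.exists_of_not_isSquare`.) -/
theorem exists_pell {d : ℕ} (hd0 : 0 < d) (hd : ¬ IsSquare (2 * d)) : ∃ a b : ℕ, 0 < a ∧ b ^ 2 = 2 * d * a ^ 2 + 1 ∧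
    ∀ a' b' : ℕ, 0 < a' → b' ^ 2 = 2 * d * a' ^ 2 + 1 → a ≤ a' := by
  classical
  have hex : ∃ a : ℕ, 0 < a ∧ ∃ b : ℕ, b ^ 2 = 2 * d * a ^ 2 + 1 := by
    obtain ⟨x, y, hxy, hy⟩ := Pell.exists_of_not_isSquare (d := ((2 * d : ℕ) : ℤ))
      (by exact_mod_cast (show 0 < 2 * d by omega)) (by
        rintro ⟨r, hr⟩
        apply hd
        refine ⟨r.natAbs, ?_⟩
        zify
        rw [← abs_mul, abs_mul_self]
        exact_mod_cast hr)
    refine ⟨y.natAbs, Int.natAbs_pos.2 hy, x.natAbs, ?_⟩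
    zify
    rw [sq_abs, sq_abs]
    push_cast at hxy
    linarith
  obtain ⟨h1, b, h2⟩ := Nat.find_spec hex
  exact ⟨Nat.find hex, b, h1, h2, fun a' b' ha' hb' => Nat.find_min' hex ⟨ha', b', hb'⟩⟩

namespace PerData

variable (S : PerData)

/-- PROOF: `finrank_even` (`2 d a² + 2`) and `finrank_le_van_even` (`b²` conditions). -/
theorem exists_pell_section {a b : ℕ} (ha : 0 < a) (hp : b ^ 2 = 2 * S.d * a ^ 2 + 1) :
    ∃ f : C2 → ℂ, f ∈ S.Th (2 * a) 0 0 ∧ f ∈ Par 1 ∧ f ∈ Van (2 * b) 0 ∧ f ≠ 0 := by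
  have : FiniteDimensional ℂ (S.Th (2 * a) 0 0) := S.finite_th _ _ _
  have : FiniteDimensional ℂ (S.Th (2 * a) 0 0 ⊓ Par 1 : Submodule ℂ (C2 → ℂ)) :=
    Submodule.finiteDimensional_of_le inf_le_left
  have h1 := finrank_le_van_even (S.Th (2 * a) 0 0 ⊓ Par 1) (fun f hf => hf.1.1) inf_le_right b
  have h2 := S.finrank_even (x := (a : ℤ)) (by exact_mod_cast ha)
  have h3 : 0 < finrank ℂ (S.Th (2 * a) 0 0 ⊓ Par 1 ⊓ Van (2 * b) 0 : Submodule ℂ (C2 → ℂ)) := by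
    zify at h1 hp ⊢
    rw [h2] at h1
    linarith
  have h4 : (S.Th (2 * a) 0 0 ⊓ Par 1 ⊓ Van (2 * b) 0 : Submodule ℂ (C2 → ℂ)) ≠ ⊥ := by
    intro h5
    rw [h5, finrank_bot] at h3
    exact lt_irrefl 0 h3
  obtain ⟨f, hf, hf0⟩ := Submodule.exists_mem_ne_zero_of_ne_bot h4
  exact ⟨f, hf.1.1, hf.1.2, hf.2, hf0⟩

/-- The dichotomy property of prime theta functions. -/
def Dich (s : C2 → ℂ) : Prop := ∀ (v : ℤ) (α' β' : Fin 2 → ℝ) (t : C2 → ℂ), t ∈ S.Th v α' β' → t ≠ 0 →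
  t ∈ Mult s ∨ Copr s t

private theorem mini_le_of_van {p : C2} {f : C2 → ℂ} {m n : ℕ} (h1 : f ∈ Van m p)
    (h2 : f ∉ Van (n + 1) p) : m ≤ n := by
  by_contra h
  exact h2 (van_mono (by omega) p h1)

private theorem mini_cs {D w v m₁ m₂ m u : ℤ} (hD : 0 ≤ D) (hw : 0 ≤ w) (hv : 0 ≤ v)
    (h1 : m₁ ^ 2 ≤ D * w ^ 2) (h2 : m₂ ^ 2 ≤ D * v ^ 2) (hm : m = m₁ + m₂)
    (hu : u = w + v) : m ^ 2 ≤ D * u ^ 2 := by
  have h3 : m₁ * m₂ ≤ D * (w * v) := by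
    by_contra h
    push Not at h
    have h4 : 0 ≤ D * (w * v) := by positivity
    have h5 : (D * (w * v)) ^ 2 < (m₁ * m₂) ^ 2 := pow_lt_pow_left₀ h h4 (by norm_num)
    have h6 : m₁ ^ 2 * m₂ ^ 2 ≤ (D * w ^ 2) * (D * v ^ 2) :=
      mul_le_mul h1 h2 (sq_nonneg _) (by positivity)
    have h7 : (D * w ^ 2) * (D * v ^ 2) = (D * (w * v)) ^ 2 := by ring
    have h8 : m₁ ^ 2 * m₂ ^ 2 = (m₁ * m₂) ^ 2 := by ring
    rw [h7, h8] at h6
    exact absurd h6 (not_le.2 h5)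
  rw [hm, hu]
  nlinarith

/-- A theta function of minimal level among those with `ord_0 ^ 2 > 2 d level ^ 2`; it has the dichotomy property.
PROOF: such functions exist (`exists_pell_section`, level `2 a`, order `≥ 2 b`); take the level `u ≥ 1` minimal, `m` the exact
order.  For `t` let `g` be the gcd (`gcd_theta`), `s = g s'`, `t = g t'`, levels `w` and `u - w` (`th_quot`), both `≥ 0`
(`th_level_neg`).  If `w = 0`, `g` is a nonzero constant (`th_level_zero`) and `Copr s t`.  If `w = u`, `s'` is a nonzero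
constant and `t ∈ Mult s`.  If both are `≥ 1`, the exact orders `m₁, m₂` of `g, s'` satisfy `m = m₁ + m₂` (`order_mul`), by
minimality `m₁² ≤ 2 d w²`, `m₂² ≤ 2 d (u - w)²`, hence `m² ≤ 2 d u²`, contradiction. -/
theorem exists_min (hE : S.EndZ) {a b : ℕ} (ha : 0 < a) (hp : b ^ 2 = 2 * S.d * a ^ 2 + 1) :
    ∃ (u : ℤ) (α β : Fin 2 → ℝ) (s : C2 → ℂ) (m : ℕ), 1 ≤ u ∧ u ≤ 2 * a ∧ s ∈ S.Th u α β ∧ s ≠ 0 ∧
      s ∈ Van m 0 ∧ s ∉ Van (m + 1) 0 ∧ 2 * (S.d : ℤ) * u ^ 2 < (m : ℤ) ^ 2 ∧ S.Dich s := by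
  classical
  let Q : ℕ → Prop := fun u => 1 ≤ u ∧ ∃ (α β : Fin 2 → ℝ) (s : C2 → ℂ) (m : ℕ),
    s ∈ S.Th (u : ℤ) α β ∧ s ≠ 0 ∧ s ∈ Van m 0 ∧ s ∉ Van (m + 1) 0 ∧
      2 * (S.d : ℤ) * (u : ℤ) ^ 2 < (m : ℤ) ^ 2
  have hQ2a : Q (2 * a) := by
    obtain ⟨f, hf, -, hfv, hf0⟩ := S.exists_pell_section ha hp
    obtain ⟨m, hm, hm'⟩ := exists_order (p := 0) hf.1 hf0
    have hbm : 2 * b ≤ m := mini_le_of_van hfv hm'
    refine ⟨by omega, 0, 0, f, m, by exact_mod_cast hf, hf0, hm, hm', ?_⟩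
    have h1 : (2 * b) ^ 2 ≤ m ^ 2 := Nat.pow_le_pow_left hbm 2
    have h2 : 2 * S.d * (2 * a) ^ 2 < m ^ 2 := by nlinarith
    exact_mod_cast h2
  have hex : ∃ u, Q u := ⟨_, hQ2a⟩
  obtain ⟨hu1, α, β, s, m, hs, hs0, hm, hm', hlt⟩ := Nat.find_spec hex
  have hmin : ∀ w : ℤ, 1 ≤ w → w < (Nat.find hex : ℤ) → ∀ (α' β' : Fin 2 → ℝ) (g : C2 → ℂ) (k : ℕ),
      g ∈ S.Th w α' β' → g ≠ 0 → g ∈ Van k 0 → g ∉ Van (k + 1) 0 →
      (k : ℤ) ^ 2 ≤ 2 * (S.d : ℤ) * w ^ 2 := by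
    intro w hw1 hwu α' β' g k hg hg0 hk hk'
    obtain ⟨n, rfl⟩ := Int.eq_ofNat_of_zero_le (by omega : 0 ≤ w)
    by_contra hcon
    push Not at hcon
    exact Nat.find_min hex (m := n) (by exact_mod_cast hwu)
      ⟨by exact_mod_cast hw1, α', β', g, k, hg, hg0, hk, hk', hcon⟩
  refine ⟨(Nat.find hex : ℤ), α, β, s, m, by exact_mod_cast hu1,
    by exact_mod_cast Nat.find_min' hex hQ2a, hs, hs0, hm, hm', hlt, ?_⟩
  intro v α' β' t ht ht0
  obtain ⟨w, α'', β'', g, s', t', hg, hs', ht', hsg, htg, hcop⟩ := S.gcd_theta hE hs ht hs0 ht0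
  have hg0 : g ≠ 0 := by
    rintro rfl
    exact hs0 (by rw [hsg, zero_mul])
  have hs'0 : s' ≠ 0 := by
    rintro rfl
    exact hs0 (by rw [hsg, mul_zero])
  have hs'T := S.th_quot hg hg0 hs hs' hsg
  have hw0 : 0 ≤ w := by
    by_contra h
    exact hg0 (S.th_level_neg (by omega) hg)
  have hw1 : w ≤ (Nat.find hex : ℤ) := by
    by_contra h
    exact hs'0 (S.th_level_neg (by omega) hs'T)
  rcases hw0.eq_or_lt with hw | hw
  · right
    rw [← hw] at hg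
    obtain ⟨c, rfl⟩ := S.th_level_zero hg
    have hc : c ≠ 0 := by
      rintro rfl
      exact hg0 rfl
    intro p
    filter_upwards [hcop p] with z hz
    rintro ⟨h1, h2⟩
    apply hz
    rw [hsg] at h1
    rw [htg] at h2
    exact ⟨(mul_eq_zero.1 h1).resolve_left hc, (mul_eq_zero.1 h2).resolve_left hc⟩
  · rcases hw1.eq_or_lt with hwu | hwu
    · left
      rw [hwu, sub_self] at hs'T
      obtain ⟨c, rfl⟩ := S.th_level_zero hs'T
      have hc : c ≠ 0 := by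
        rintro rfl
        exact hs'0 rfl
      refine ⟨c⁻¹ • t', ht'.const_smul _, ?_⟩
      rw [htg, hsg]
      funext z
      simp only [Pi.mul_apply, Pi.smul_apply, smul_eq_mul]
      field_simp
    · exfalso
      obtain ⟨m₁, hm₁, hm₁'⟩ := exists_order (p := 0) hg.1 hg0
      obtain ⟨m₂, hm₂, hm₂'⟩ := exists_order (p := 0) hs' hs'0
      obtain ⟨h1, h2⟩ := order_mul hg.1 hs' hm₁ hm₁' hm₂ hm₂'
      rw [← hsg] at h1 h2
      have hmm : m = m₁ + m₂ := le_antisymm (mini_le_of_van hm h2) (mini_le_of_van h1 hm')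
      have e1 := hmin w (by omega) hwu _ _ g m₁ hg hg0 hm₁ hm₁'
      have e2 := hmin ((Nat.find hex : ℤ) - w) (by omega) (by omega) _ _ s' m₂ hs'T hs'0 hm₂ hm₂'
      have e3 := mini_cs (D := 2 * (S.d : ℤ)) (m := m) (u := (Nat.find hex : ℤ)) (by positivity)
        hw.le (by omega) e1 e2 (by exact_mod_cast hmm)
        (by ring)
      exact absurd hlt (not_lt.2 e3)

/-- Symmetry.
PROOF: `s⁻ z = s (-z)` is in `Th u (-α) (-β)` and in `Van m 0`; if `Copr s s⁻`, `bezout` at the point `0` gives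
`m² ≤ 2 d u²`.  So `s⁻ = c s` (`eq_smul_of_mult`), `c = (-1)^m` (`order_par`), and comparing the two multipliers at points with
`s z ≠ 0`, `exp (4 π i (α · q + β · p)) = 1` for all `p, q`. -/
theorem symm_of_dich {u : ℤ} {α β : Fin 2 → ℝ} {s : C2 → ℂ} {m : ℕ} (hu : 1 ≤ u) (hs : s ∈ S.Th u α β)
    (hs0 : s ≠ 0) (hm : s ∈ Van m 0) (hm' : s ∉ Van (m + 1) 0) (h : 2 * (S.d : ℤ) * u ^ 2 < (m : ℤ) ^ 2)
    (hD : S.Dich s) :
    s ∈ Par ((-1) ^ m) ∧ (∀ i, ∃ k : ℤ, 2 * α i = k) ∧ ∀ i, ∃ k : ℤ, 2 * β i = k := by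
  have hn := S.th_neg_arg hs
  have hn0 : (fun z => s (-z)) ≠ 0 := by
    intro h1
    apply hs0
    funext z
    have := congrFun h1 (-z)
    simpa using this
  have hnv : (fun z => s (-z)) ∈ Van m 0 := by
    have h1 := (van_comp_smul (N := m) (p := 0) (f := s) (c := -1) (by norm_num)).2
      (by rwa [smul_zero])
    simpa using h1
  have hmul : (fun z => s (-z)) ∈ Mult s := by
    rcases hD u (-α) (-β) _ hn hn0 with h1 | h1
    · exact h1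
    · exfalso
      have h2 := S.bezout hu hu hs hn hs0 hn0 h1 (r := 1) (fun _ => 0)
        (fun i k hik => absurd (Subsingleton.elim i k) hik) (fun _ => m) (fun _ => m)
        (fun _ => hm) (fun _ => hnv)
      rw [Fin.sum_univ_one] at h2
      push_cast at h2
      nlinarith
  obtain ⟨c, hc⟩ := S.eq_smul_of_mult hs hs0 hn hmul
  have hpar : s ∈ Par c := fun z => congrFun hc z
  have hcm : c = (-1) ^ m := order_par hs.1 hpar hm hm'
  have hn2 : (fun z => s (-z)) ∈ S.Th u α β := by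
    rw [hc]
    exact Submodule.smul_mem _ _ hs
  have h1 := S.th_quot (h := fun _ => 1) hn2 hn0 hn (differentiable_const 1) (by
    funext z
    simp)
  rw [sub_self] at h1
  have h2 := S.th_zero_char h1 (by
    intro h3
    exact one_ne_zero (congrFun h3 0))
  refine ⟨hcm ▸ hpar, fun i => ?_, fun i => ?_⟩
  · obtain ⟨k, hk⟩ := h2.1 i
    refine ⟨-k, ?_⟩
    push_cast
    rw [← hk, Pi.sub_apply, Pi.neg_apply]
    ring
  · obtain ⟨k, hk⟩ := h2.2 i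
    refine ⟨-k, ?_⟩
    push_cast
    rw [← hk, Pi.sub_apply, Pi.neg_apply]
    ring

end PerData

end Q2T
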