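import Pool.Agent.H.MP_89f84f_ag.q2.Chain

set_option autoImplicit false

open Complex Topology Filter Asymptotics Metric Set Module

namespace Q2T

namespace PerData

variable (S : PerData)

/-- the symmetric form of a theta function of even level near a half period -/
private theorem PenA_sym {n : ℤ} {f : C2 → ℂ} (hf : f ∈ S.Th (2 * n) 0 0) {ε : ℂ}
    (hp : f ∈ Par ε) {p q : Z2} {Q : C2} (hQ : (2 : ℂ) • Q = S.tv p + S.dv q) (h : C2) :
    cexp (2 * Real.pi * I * n * dot p (-h)) * f (-h + Q) =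
      ε * (cexp (2 * Real.pi * I * n * dot p h) * f (h + Q)) := by
  have h1 : f (-h + Q) = ε * f (h - Q) := by
    have := hp (h - Q)
    rwa [show -(h - Q) = -h + Q by abel] at this
  have h2 : f (h + Q) = S.J (2 * n) 0 0 p q (h - Q) * f (h - Q) := by
    have h3 := hf.2 p q (h - Q)
    have h4 : h - Q + S.tv p + S.dv q = h + Q := by
      rw [add_assoc, ← hQ, two_smul]
      abel
    rwa [h4] at h3
  have hQ0 := congrFun hQ 0
  have hQ1 := congrFun hQ 1
  simp only [Pi.smul_apply, Pi.add_apply, smul_eq_mul, PerData.tv_apply, PerData.dv_zero',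
    PerData.dv_one'] at hQ0 hQ1
  have h5 : S.J (2 * n) 0 0 p q (h - Q) = cexp (-(4 * Real.pi * I * n * dot p h)) := by
    unfold J
    have e1 : rdot 0 q = 0 := by simp [rdot]
    have e2 : rdot 0 p = 0 := by simp [rdot]
    rw [e1, e2, add_zero, Complex.ofReal_zero, mul_zero, Complex.exp_zero, one_mul]
    have e3 : dot p (S.tv p) + 2 * dot p (h - Q) =
        2 * dot p h - ((p 0 * q 0 + S.d * (p 1 * q 1) : ℤ) : ℂ) := by
      unfold dot
      simp only [PerData.tv_apply, Pi.sub_apply]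
      push_cast
      linear_combination (-(p 0 : ℂ)) * hQ0 + (-(p 1 : ℂ)) * hQ1
    rw [e3]
    have e4 : -(Real.pi * I * ((2 * n : ℤ) : ℂ) *
        (2 * dot p h - ((p 0 * q 0 + S.d * (p 1 * q 1) : ℤ) : ℂ))) =
        -(4 * Real.pi * I * n * dot p h) +
          ((n * (p 0 * q 0 + S.d * (p 1 * q 1)) : ℤ) : ℂ) * (2 * Real.pi * I) := by
      push_cast
      ring
    rw [e4, Complex.exp_add, Complex.exp_int_mul_two_pi_mul_I, mul_one]
  rw [h1, h2, h5]
  have h6 : dot p (-h) = -dot p h := by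
    unfold dot
    simp only [Pi.neg_apply]
    ring
  have h7 : cexp (2 * Real.pi * I * n * dot p h) * cexp (-(4 * Real.pi * I * n * dot p h)) =
      cexp (2 * Real.pi * I * n * dot p (-h)) := by
    rw [← Complex.exp_add, h6]
    congr 1
    ring
  rw [← h7]
  ring

/-- A point `Q` with `2 Q ∈ Lat`, and `f` of even level with zero characteristics and parity `ε`: near `Q`,
`f (Q - h) = ε e(h) f (Q + h)` with `e` holomorphic, `e 0 = 1`.  So even functions have even order at `Q`, and odd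
functions vanish at `Q`. -/
theorem half_even {n : ℤ} {f : C2 → ℂ} (hf : f ∈ S.Th (2 * n) 0 0) (hp : f ∈ Par 1) {Q : C2}
    (hQ : (2 : ℂ) • Q ∈ S.Lat) (h0 : f Q = 0) : f ∈ Van 2 Q := by
  obtain ⟨p, q, hpq⟩ := hQ
  set e : C2 → ℂ := fun h => cexp (2 * Real.pi * I * n * dot p h) with he
  have hdot : Differentiable ℂ fun h : C2 => dot p h := by
    unfold dot
    fun_prop
  have hed : Differentiable ℂ e := (hdot.const_mul _).cexp
  have hfd : Differentiable ℂ fun h => f (h + Q) := hf.1.comp (differentiable_id.add_const Q)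
  have hg : Differentiable ℂ (e * fun h => f (h + Q)) := hed.mul hfd
  have hgp : (e * fun h => f (h + Q)) ∈ Par 1 := fun h => by
    simp only [Pi.mul_apply, he]
    exact S.PenA_sym hf hp hpq h
  have hg1 : (e * fun h => f (h + Q)) ∈ Van 1 0 := by
    rw [van_one_iff hg]
    simp only [Pi.mul_apply, zero_add, h0, mul_zero]
  have hg2 : (e * fun h => f (h + Q)) ∈ Van 2 0 := by
    by_contra hc
    have := order_par hg hgp hg1 hc
    norm_num at this
  have he0 : e 0 ≠ 0 := Complex.exp_ne_zero _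
  rw [van_mul_unit hed.continuous he0, van_comp_add, zero_add] at hg2
  exact hg2

theorem half_odd {n : ℤ} {f : C2 → ℂ} (hf : f ∈ S.Th (2 * n) 0 0) (hp : f ∈ Par (-1)) {Q : C2}
    (hQ : (2 : ℂ) • Q ∈ S.Lat) : f Q = 0 := by
  obtain ⟨p, q, hpq⟩ := hQ
  have h := S.PenA_sym hf hp hpq 0
  have h6 : dot p (0 : C2) = 0 := by simp [dot]
  rw [neg_zero, h6, mul_zero, Complex.exp_zero, one_mul, zero_add] at h
  have h1 : (2 : ℂ) * f Q = 0 := by linear_combination h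
  exact (mul_eq_zero.1 h1).resolve_left two_ne_zero

/-- The pencil. -/
structure Pen (a b x y : ℕ) (s t₁ t₂ : C2 → ℂ) : Prop where
  cur : S.Curve a b s
  num : 4 * a * S.d * x = b * y + 1
  m₁ : t₁ ∈ S.Th (2 * x) 0 0
  m₂ : t₂ ∈ S.Th (2 * x) 0 0
  p₁ : t₁ ∈ Par (-1)
  p₂ : t₂ ∈ Par (-1)
  v₁ : t₁ ∈ Van y 0
  v₂ : t₂ ∈ Van y 0
  indep : ∀ c₁ c₂ : ℂ, c₁ • t₁ + c₂ • t₂ ∈ Mult s → c₁ = 0 ∧ c₂ = 0

variable {S}

theorem Pen.x_pos {a b x y : ℕ} {s t₁ t₂ : C2 → ℂ} (P : S.Pen a b x y s t₁ t₂) : 1 ≤ x ∧ s 0 = 0 ∧ 3 ≤ b := by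
  have hb : 3 ≤ b := by
    have h1 := P.cur.pell
    have h2 := P.cur.ha
    have h3 := S.d_pos
    have h4 : 1 ≤ S.d * a ^ 2 := Nat.mul_pos h3 (pow_pos h2 2)
    by_contra hc
    have h5 : b = 0 ∨ b = 1 ∨ b = 2 := by omega
    have h6 : b ^ 2 = 2 * (S.d * a ^ 2) + 1 := by rw [h1]; ring
    rcases h5 with rfl | rfl | rfl <;> omega
  refine ⟨?_, ?_, hb⟩
  · by_contra hc
    have h1 : x = 0 := by omega
    have h2 := P.num
    rw [h1] at h2
    omega
  · have h1 := P.cur.van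
    exact (van_one_iff P.cur.mem.1 0).1 (van_mono (by omega) 0 h1)

private theorem PenA_mem {a b x y : ℕ} {s t₁ t₂ : C2 → ℂ} (P : S.Pen a b x y s t₁ t₂) (c₁ c₂ : ℂ) :
    c₁ • t₁ + c₂ • t₂ ∈ S.Th (2 * x) 0 0 ∧ c₁ • t₁ + c₂ • t₂ ∈ Par (-1) ∧
      c₁ • t₁ + c₂ • t₂ ∈ Van y 0 :=
  ⟨add_mem (Submodule.smul_mem _ _ P.m₁) (Submodule.smul_mem _ _ P.m₂),
    add_mem (Submodule.smul_mem _ _ P.p₁) (Submodule.smul_mem _ _ P.p₂),
    add_mem (Submodule.smul_mem _ _ P.v₁) (Submodule.smul_mem _ _ P.v₂)⟩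

/-- No member of the pencil vanishes at two pairs of zeros of `s`.
PROOF: `mult_of_zeros` with `k = 2`: `8 a d x = 2 b y + 2 < 2 b y + 4`. -/
theorem Pen.two_zeros {a b x y : ℕ} {s t₁ t₂ : C2 → ℂ} (P : S.Pen a b x y s t₁ t₂) {z : Fin 2 → C2}
    (hz : S.GoodZ s z) {c₁ c₂ : ℂ} (h : ∀ i, c₁ * t₁ (z i) + c₂ * t₂ (z i) = 0) : c₁ = 0 ∧ c₂ = 0 := by
  have hx := P.x_pos.1
  have ha := P.cur.ha
  obtain ⟨h1, h2, h3⟩ := PenA_mem P c₁ c₂
  refine P.indep c₁ c₂ (S.mult_of_zeros (u := 2 * (a : ℤ)) (n := 2 * (x : ℤ)) (by omega) (by omega)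
    P.cur.mem P.cur.ne P.cur.dich P.cur.even P.cur.van h1 h2 h3 hz h ?_)
  have hnum : (4 * a * S.d * x : ℤ) = b * y + 1 := by exact_mod_cast P.num
  push_cast
  nlinarith [hnum]

/-- a nonzero member of the pencil through a point -/
private theorem PenA_member (t₁ t₂ : C2 → ℂ) (R : C2) :
    ∃ c₁ c₂ : ℂ, ¬ (c₁ = 0 ∧ c₂ = 0) ∧ c₁ * t₁ R + c₂ * t₂ R = 0 := by
  by_cases h : t₁ R = 0
  · exact ⟨1, 0, fun h' => one_ne_zero h'.1, by rw [h]; ring⟩
  · exact ⟨t₂ R, -t₁ R, fun h' => h (neg_eq_zero.1 h'.2), by ring⟩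

private theorem PenA_two {R : C2} (h : (2 : ℂ) • R ∉ S.Lat) : R ∉ S.Lat := fun h' => h (by
  rw [two_smul]
  exact add_mem h' h')

/-- `s` has no zeros on `(1/2) Lat` outside `Lat`.
PROOF: otherwise `s ∈ Van 2 Q`, and all members of the pencil vanish at `Q` (`half_even`, `half_odd`).  Take a zero `R` of
`s` with `2 R ∉ Lat` (`exists_goodZ`) and `(c₁, c₂) ≠ 0` with `f = c₁ t₁ + c₂ t₂` vanishing at `R`.  `bezout` at `0, Q, R, - R`:
`2 b y + 2 + 1 + 1 ≤ 8 a d x = 2 b y + 2` unless `f` is a multiple of `s`: contradiction. -/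
theorem Pen.half_ne {a b x y : ℕ} {s t₁ t₂ : C2 → ℂ} (P : S.Pen a b x y s t₁ t₂) {Q : C2}
    (h2 : (2 : ℂ) • Q ∈ S.Lat) (h1 : Q ∉ S.Lat) : s Q ≠ 0 := by
  intro hsQ
  have hx := P.x_pos.1
  have ha := P.cur.ha
  have hsV : s ∈ Van 2 Q := S.half_even P.cur.mem P.cur.even h2 hsQ
  obtain ⟨z, hz⟩ := S.exists_goodZ P.cur.mem.1 P.x_pos.2.1 1
  set R := z 0 with hR
  have hsR : s R = 0 := hz.1 0
  have h2R : (2 : ℂ) • R ∉ S.Lat := hz.2.1 0
  have hRL : R ∉ S.Lat := PenA_two h2R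
  obtain ⟨c₁, c₂, hc, hfR⟩ := PenA_member t₁ t₂ R
  obtain ⟨hfT, hfP, hfV⟩ := PenA_mem P c₁ c₂
  set f := c₁ • t₁ + c₂ • t₂ with hf
  have hfM : f ∉ Mult s := fun h => hc (P.indep c₁ c₂ h)
  have hf0 : f ≠ 0 := fun h => hfM (by rw [h]; exact Submodule.zero_mem _)
  have hC : Copr s f := (P.cur.dich _ _ _ f hfT hf0).resolve_left hfM
  have hfQ : f Q = 0 := S.half_odd hfT hfP h2
  have hfR' : f R = 0 := hfR
  have hfnR : f (-R) = 0 := by
    rw [hfP R, hfR', mul_zero]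
  have hsnR : s (-R) = 0 := by
    rw [P.cur.even R, hsR, mul_zero]
  have hneg : ∀ v : C2, v ∉ S.Lat → -v ∉ S.Lat := fun v hv h => hv (by
    have := neg_mem h
    rwa [neg_neg] at this)
  have k1 : Q - R ∉ S.Lat := fun h => h2R (by
    have h3 := add_mem h h
    have h4 := sub_mem h2 h3
    have e : (2 : ℂ) • R = (2 : ℂ) • Q - ((Q - R) + (Q - R)) := by
      rw [two_smul, two_smul]; abel
    rw [e]
    exact h4)
  have k2 : Q + R ∉ S.Lat := fun h => h2R (by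
    have h3 := add_mem h h
    have h4 := sub_mem h3 h2
    have e : (2 : ℂ) • R = ((Q + R) + (Q + R)) - (2 : ℂ) • Q := by
      rw [two_smul, two_smul]; abel
    rw [e]
    exact h4)
  have k3 : R + R ∉ S.Lat := by
    rw [← two_smul ℂ]
    exact h2R
  have hpair : ∀ i k : Fin 4, i ≠ k →
      (![0, Q, R, -R] : Fin 4 → C2) i - (![0, Q, R, -R] : Fin 4 → C2) k ∉ S.Lat := by
    intro i k hik
    fin_cases i <;> fin_cases k
    · exact absurd rfl hik
    · change (0 : C2) - Q ∉ S.Lat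
      rw [zero_sub]
      exact hneg _ h1
    · change (0 : C2) - R ∉ S.Lat
      rw [zero_sub]
      exact hneg _ hRL
    · change (0 : C2) - -R ∉ S.Lat
      rw [zero_sub, neg_neg]
      exact hRL
    · change Q - 0 ∉ S.Lat
      rw [sub_zero]
      exact h1
    · exact absurd rfl hik
    · exact k1
    · change Q - -R ∉ S.Lat
      rw [sub_neg_eq_add]
      exact k2
    · change R - 0 ∉ S.Lat
      rw [sub_zero]
      exact hRL
    · change R - Q ∉ S.Lat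
      rw [← neg_sub]
      exact hneg _ k1
    · exact absurd rfl hik
    · change R - -R ∉ S.Lat
      rw [sub_neg_eq_add]
      exact k3
    · change -R - 0 ∉ S.Lat
      rw [sub_zero]
      exact hneg _ hRL
    · change -R - Q ∉ S.Lat
      rw [show -R - Q = -(Q + R) by abel]
      exact hneg _ k2
    · change -R - R ∉ S.Lat
      rw [show -R - R = -(R + R) by abel]
      exact hneg _ k3
    · exact absurd rfl hik
  have hB := S.bezout (u := 2 * (a : ℤ)) (v := 2 * (x : ℤ)) (by omega) (by omega) P.cur.mem hfT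
    P.cur.ne hf0 hC (![0, Q, R, -R] : Fin 4 → C2) hpair ![2 * b, 2, 1, 1] ![y, 1, 1, 1] ?_ ?_
  · have e : (∑ i : Fin 4, (![2 * b, 2, 1, 1] : Fin 4 → ℕ) i * (![y, 1, 1, 1] : Fin 4 → ℕ) i) =
        2 * b * y + 4 := by
      rw [Fin.sum_univ_four]
      change 2 * b * y + 2 * 1 + 1 * 1 + 1 * 1 = _
      ring
    rw [e] at hB
    have hnum : (4 * a * S.d * x : ℤ) = b * y + 1 := by exact_mod_cast P.num
    push_cast at hB
    nlinarith [hnum, hB]
  · intro i
    fin_cases i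
    · exact P.cur.van
    · exact hsV
    · exact (van_one_iff P.cur.mem.1 R).2 hsR
    · exact (van_one_iff P.cur.mem.1 (-R)).2 hsnR
  · intro i
    fin_cases i
    · exact hfV
    · exact (van_one_iff hfT.1 Q).2 hfQ
    · exact (van_one_iff hfT.1 R).2 hfR'
    · exact (van_one_iff hfT.1 (-R)).2 hfnR

private theorem PenA_good {s : C2 → ℂ} {Q R : C2} (h2 : (2 : ℂ) • Q ∉ S.Lat) (hs : s Q = 0)
    (h2' : (2 : ℂ) • R ∉ S.Lat) (hs' : s R = 0) (h3 : Q - R ∉ S.Lat) (h4 : Q + R ∉ S.Lat) :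
    S.GoodZ s (![Q, R] : Fin 2 → C2) := by
  refine ⟨fun i => ?_, fun i => ?_, fun i j hij => ?_⟩
  · fin_cases i
    · exact hs
    · exact hs'
  · fin_cases i
    · exact h2
    · exact h2'
  · fin_cases i <;> fin_cases j
    · exact absurd rfl hij
    · exact ⟨h3, h4⟩
    · refine ⟨fun h => h3 ?_, fun h => h4 ?_⟩
      · have := neg_mem h
        change -(R - Q) ∈ S.Lat at this
        rwa [neg_sub] at this
      · change R + Q ∈ S.Lat at h
        rwa [add_comm] at h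
    · exact absurd rfl hij

/-- The pencil has no base point on the curve outside `(1/2) Lat`.
PROOF: of three good zeros of `s` one, `R`, is not congruent to `± Q`; a nonzero member vanishing at `R` also vanishes at
`Q`: contradiction with `two_zeros`. -/
theorem Pen.base_free {a b x y : ℕ} {s t₁ t₂ : C2 → ℂ} (P : S.Pen a b x y s t₁ t₂) {Q : C2}
    (h2 : (2 : ℂ) • Q ∉ S.Lat) (hs : s Q = 0) : ¬ (t₁ Q = 0 ∧ t₂ Q = 0) := by
  rintro ⟨hQ1, hQ2⟩
  obtain ⟨z, hz⟩ := S.exists_goodZ P.cur.mem.1 P.x_pos.2.1 2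
  have key : ∀ i, Q - z i ∉ S.Lat → Q + z i ∉ S.Lat → False := by
    intro i h3 h4
    obtain ⟨c₁, c₂, hc, hfR⟩ := PenA_member t₁ t₂ (z i)
    refine hc (P.two_zeros (PenA_good h2 hs (hz.2.1 i) (hz.1 i) h3 h4) fun j => ?_)
    fin_cases j
    · change c₁ * t₁ Q + c₂ * t₂ Q = 0
      rw [hQ1, hQ2]
      ring
    · exact hfR
  have hne := hz.2.2 0 1 (by decide)
  have bad : ∀ i, Q - z i ∈ S.Lat ∨ Q + z i ∈ S.Lat := by
    intro i
    by_contra hcon
    rw [not_or] at hcon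
    exact key i hcon.1 hcon.2
  rcases bad 0 with h3 | h3 <;> rcases bad 1 with h4 | h4
  · apply hne.1
    have := sub_mem h4 h3
    rwa [show Q - z 1 - (Q - z 0) = z 0 - z 1 by abel] at this
  · apply hne.2
    have := sub_mem h4 h3
    rwa [show Q + z 1 - (Q - z 0) = z 0 + z 1 by abel] at this
  · apply hne.2
    have := sub_mem h3 h4
    rwa [show Q + z 0 - (Q - z 1) = z 0 + z 1 by abel] at this
  · apply hne.1
    have := sub_mem h3 h4
    rwa [show Q + z 0 - (Q + z 1) = z 0 - z 1 by abel] at this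

/-- The pencil separates pairs. -/
theorem Pen.separates {a b x y : ℕ} {s t₁ t₂ : C2 → ℂ} (P : S.Pen a b x y s t₁ t₂) {Q Q' : C2}
    (h2 : (2 : ℂ) • Q ∉ S.Lat) (hs : s Q = 0) (h2' : (2 : ℂ) • Q' ∉ S.Lat) (hs' : s Q' = 0)
    (h : t₁ Q * t₂ Q' = t₁ Q' * t₂ Q) : Q - Q' ∈ S.Lat ∨ Q + Q' ∈ S.Lat := by
  by_contra hcon
  rw [not_or] at hcon
  have h3 := P.two_zeros (c₁ := t₂ Q) (c₂ := -t₁ Q) (PenA_good h2 hs h2' hs' hcon.1 hcon.2)
    fun j => by
      fin_cases j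
      · change t₂ Q * t₁ Q + -t₁ Q * t₂ Q = 0
        ring
      · change t₂ Q * t₁ Q' + -t₁ Q * t₂ Q' = 0
        linear_combination -h
  exact P.base_free h2 hs ⟨neg_eq_zero.1 h3.2, h3.1⟩

/-- Many zeros with different finite ratios. -/
theorem Pen.exists_ratio {a b x y : ℕ} {s t₁ t₂ : C2 → ℂ} (P : S.Pen a b x y s t₁ t₂) (k : ℕ) :
    ∃ z : Fin k → C2, S.GoodZ s z ∧ (∀ i, t₂ (z i) ≠ 0) ∧ Function.Injective fun i => t₁ (z i) / t₂ (z i) := by
  obtain ⟨z, hz⟩ := S.exists_goodZ P.cur.mem.1 P.x_pos.2.1 (k + 1)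
  have huniq : ∀ i j, t₂ (z i) = 0 → t₂ (z j) = 0 → i = j := by
    intro i j hi hj
    by_contra hij
    have h3 := P.two_zeros (c₁ := 0) (c₂ := 1) (PenA_good (hz.2.1 i) (hz.1 i) (hz.2.1 j) (hz.1 j)
      (hz.2.2 i j hij).1 (hz.2.2 i j hij).2) fun l => by
        fin_cases l
        · change 0 * t₁ (z i) + 1 * t₂ (z i) = 0
          rw [hi]; ring
        · change 0 * t₁ (z j) + 1 * t₂ (z j) = 0
          rw [hj]; ring
    exact one_ne_zero h3.2
  obtain ⟨i0, hi0⟩ : ∃ i0 : Fin (k + 1), ∀ i, i ≠ i0 → t₂ (z i) ≠ 0 := by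
    by_cases hex : ∃ i0, t₂ (z i0) = 0
    · obtain ⟨i0, h0⟩ := hex
      exact ⟨i0, fun i hi h => hi (huniq i i0 h h0)⟩
    · exact ⟨0, fun i _ h => hex ⟨i, h⟩⟩
  have hne : ∀ i : Fin k, t₂ (z (i0.succAbove i)) ≠ 0 := fun i => hi0 _ (Fin.succAbove_ne i0 i)
  refine ⟨fun i => z (i0.succAbove i), ⟨fun i => hz.1 _, fun i => hz.2.1 _, fun i j hij =>
    hz.2.2 _ _ fun h => hij (Fin.succAbove_right_injective h)⟩, hne, fun i j hij => ?_⟩
  simp only at hij
  rw [div_eq_div_iff (hne i) (hne j)] at hij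
  by_contra hne'
  have h3 := P.separates (hz.2.1 (i0.succAbove i)) (hz.1 _) (hz.2.1 (i0.succAbove j)) (hz.1 _) hij
  have h4 := hz.2.2 (i0.succAbove i) (i0.succAbove j)
    fun h => hne' (Fin.succAbove_right_injective h)
  rcases h3 with h3 | h3
  · exact h4.1 h3
  · exact h4.2 h3

end PerData

end Q2T
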