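import Pool.Agent.H.MP_89f84f_ag.q2.PenA

set_option autoImplicit false

open Complex Topology Filter Asymptotics Metric Set Module

namespace Q2T

private theorem PenB_par_mul {ε ε' : ℂ} {f g : C2 → ℂ} (hf : f ∈ Par ε) (hg : g ∈ Par ε') :
    f * g ∈ Par (ε * ε') := by
  intro z
  show f (-z) * g (-z) = ε * ε' * (f z * g z)
  rw [hf z, hg z]
  ring

private theorem PenB_par_pow {ε : ℂ} {f : C2 → ℂ} (hf : f ∈ Par ε) (i : ℕ) : f ^ i ∈ Par (ε ^ i) := by
  intro z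
  show f (-z) ^ i = ε ^ i * f z ^ i
  rw [hf z, mul_pow]

private theorem PenB_van_pow {N : ℕ} {p : C2} {f : C2 → ℂ} (hf : f ∈ Van N p) (i : ℕ) :
    f ^ i ∈ Van (i * N) p := by
  induction i with
  | zero =>
    rw [pow_zero, zero_mul]
    exact van_zero (f := (1 : C2 → ℂ)) continuous_const p
  | succ i ih =>
    rw [pow_succ, Nat.succ_mul]
    exact van_mul ih hf

private theorem PenB_diff_pow {f : C2 → ℂ} (hf : Differentiable ℂ f) (i : ℕ) : Differentiable ℂ (f ^ i) :=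
  hf.pow i

namespace PerData

private theorem PenB_th_pow (S : PerData) {u : ℤ} {f : C2 → ℂ} (hf : f ∈ S.Th u 0 0) (i : ℕ) :
    f ^ i ∈ S.Th (i * u) 0 0 := by
  induction i with
  | zero =>
    have h := S.th_one
    rw [pow_zero]
    have e : ((0 : ℕ) : ℤ) * u = 0 := by simp
    rw [e]
    exact h
  | succ i ih =>
    rw [pow_succ]
    have h := S.th_mul ih hf
    rw [add_zero] at h
    have e : ((i + 1 : ℕ) : ℤ) * u = i * u + u := by push_cast; ring
    rw [e]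
    exact h

private theorem PenB_th_mul (S : PerData) {u v : ℤ} {f g : C2 → ℂ} (hf : f ∈ S.Th u 0 0)
    (hg : g ∈ S.Th v 0 0) : f * g ∈ S.Th (u + v) 0 0 := by
  have h := S.th_mul hf hg
  rw [add_zero] at h
  exact h

variable {S : PerData}

/-- Products of theta functions that are not multiples of `s`.  PROOF: `Dich` and `dvd_of_copr`. -/
theorem Curve.prime {a b : ℕ} {s : C2 → ℂ} (C : S.Curve a b s) {u v : ℤ} {α β α' β' : Fin 2 → ℝ} {f g : C2 → ℂ}
    (hf : f ∈ S.Th u α β) (hg : g ∈ S.Th v α' β') (h : f * g ∈ Mult s) : f ∈ Mult s ∨ g ∈ Mult s := by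
  by_cases hf0 : f = 0
  · left
    rw [hf0]
    exact Submodule.zero_mem _
  rcases C.dich u α β f hf hf0 with h1 | h1
  · exact Or.inl h1
  · exact Or.inr (dvd_of_copr C.mem.1 hf.1 hg.1 C.ne hf0 h1 h)

/-- A theta function vanishing at arbitrarily many zeros of `s`, incongruent modulo the lattice, is a multiple. -/
theorem Curve.mult_of_many {a b : ℕ} {s : C2 → ℂ} (C : S.Curve a b s) {v : ℤ} {α' β' : Fin 2 → ℝ} {f : C2 → ℂ}
    (hf : f ∈ S.Th v α' β')
    (h : ∀ k : ℕ, ∃ z : Fin k → C2, (∀ i, s (z i) = 0 ∧ f (z i) = 0) ∧ ∀ i j, i ≠ j → z i - z j ∉ S.Lat) :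
    f ∈ Mult s := by
  by_cases hf0 : f = 0
  · rw [hf0]
    exact Submodule.zero_mem _
  rcases C.dich v α' β' f hf hf0 with h1 | h1
  · exact h1
  exfalso
  rcases lt_trichotomy v 0 with hv | hv | hv
  · exact hf0 (S.th_level_neg hv hf)
  · subst hv
    obtain ⟨c, hc⟩ := S.th_level_zero hf
    obtain ⟨z, hz, -⟩ := h 1
    have h2 := (hz 0).2
    rw [hc] at h2
    apply hf0
    rw [hc]
    funext w
    exact h2
  · obtain ⟨z, hz, hz'⟩ := h (2 * S.d * (2 * a) * v + 1).toNat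
    have ha : (1 : ℤ) ≤ 2 * (a : ℤ) := by
      have := C.ha
      omega
    have h2 := S.bezout ha hv C.mem hf C.ne hf0 h1 z hz' (fun _ => 1) (fun _ => 1)
      (fun i => (van_one_iff C.mem.1 _).2 (hz i).1) (fun i => (van_one_iff hf.1 _).2 (hz i).2)
    simp only [mul_one, Finset.sum_const, Finset.card_univ, Fintype.card_fin, smul_eq_mul] at h2
    have h3 := Int.self_le_toNat (2 * S.d * (2 * a) * v + 1)
    linarith

/-- Even functions of level `4 l x` and order `≥ 2 l y` are forms of degree `2 l` in `t₁, t₂` modulo `s`.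
PROOF: `2 l + 1` good zeros with different ratios (`exists_ratio`); solve the Vandermonde system
`f (z j) = ∑ c i t₁ (z j)^i t₂ (z j)^(2 l - i)`; the difference is a multiple by `mult_of_zeros` with `k = 2 l + 1`:
`2 d (2 a) (4 l x) = 4 l b y + 4 l < 4 l b y + 2 (2 l + 1)`. -/
theorem Pen.exists_form {a b x y : ℕ} {s t₁ t₂ : C2 → ℂ} (P : S.Pen a b x y s t₁ t₂) {l : ℕ} (hl : 1 ≤ l)
    {f : C2 → ℂ} (hf : f ∈ S.Th (4 * l * x) 0 0) (hp : f ∈ Par 1) (hv : f ∈ Van (2 * l * y) 0) :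
    ∃ c : Fin (2 * l + 1) → ℂ, f - ∑ i, c i • (t₁ ^ (i : ℕ) * t₂ ^ (2 * l - (i : ℕ))) ∈ Mult s := by
  classical
  obtain ⟨z, hz, ht, hinj⟩ := P.exists_ratio (2 * l + 1)
  have hx := P.x_pos.1
  set r : Fin (2 * l + 1) → ℂ := fun i => t₁ (z i) / t₂ (z i) with hr
  set Q : Polynomial ℂ := Lagrange.interpolate Finset.univ r fun j => f (z j) / t₂ (z j) ^ (2 * l) with hQ
  have hdeg : Q.degree < ((2 * l + 1 : ℕ) : WithBot ℕ) := by
    have h := Lagrange.degree_interpolate_lt (s := (Finset.univ : Finset (Fin (2 * l + 1)))) (v := r)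
      (fun j => f (z j) / t₂ (z j) ^ (2 * l)) hinj.injOn
    rw [← hQ, Finset.card_univ, Fintype.card_fin] at h
    exact h
  have hnat : Q.natDegree < 2 * l + 1 := by
    by_cases h0 : Q = 0
    · rw [h0]
      simp
    · exact (Polynomial.natDegree_lt_iff_degree_lt h0).2 hdeg
  have heval : ∀ j, ∑ i : Fin (2 * l + 1), Q.coeff i * r j ^ (i : ℕ) = f (z j) / t₂ (z j) ^ (2 * l) := by
    intro j
    have h1 := Lagrange.eval_interpolate_at_node (s := (Finset.univ : Finset (Fin (2 * l + 1)))) (v := r)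
      (fun j => f (z j) / t₂ (z j) ^ (2 * l)) hinj.injOn (Finset.mem_univ j)
    rw [← hQ, Polynomial.eval_eq_sum_range' hnat, Finset.sum_range] at h1
    exact h1
  refine ⟨fun i => Q.coeff i, ?_⟩
  have hterm : ∀ i : Fin (2 * l + 1), t₁ ^ (i : ℕ) * t₂ ^ (2 * l - (i : ℕ)) ∈
      S.Th (4 * l * x) 0 0 ⊓ Par 1 ⊓ Van (2 * l * y) 0 := by
    intro i
    have hi : (i : ℕ) + (2 * l - (i : ℕ)) = 2 * l := by
      have := i.2
      omega
    refine ⟨⟨?_, ?_⟩, ?_⟩
    · have h1 := S.PenB_th_mul (S.PenB_th_pow P.m₁ (i : ℕ)) (S.PenB_th_pow P.m₂ (2 * l - (i : ℕ)))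
      have e : ((i : ℕ) : ℤ) * (2 * (x : ℤ)) + ((2 * l - (i : ℕ) : ℕ) : ℤ) * (2 * (x : ℤ)) = 4 * l * x := by
        have h2 : ((i : ℕ) : ℤ) + ((2 * l - (i : ℕ) : ℕ) : ℤ) = 2 * l := by exact_mod_cast hi
        linear_combination (2 * (x : ℤ)) * h2
      rw [e] at h1
      exact h1
    · have h1 := PenB_par_mul (PenB_par_pow P.p₁ (i : ℕ)) (PenB_par_pow P.p₂ (2 * l - (i : ℕ)))
      rw [← pow_add, hi, pow_mul, neg_one_sq, one_pow] at h1
      exact h1
    · have h1 := van_mul (PenB_van_pow P.v₁ (i : ℕ)) (PenB_van_pow P.v₂ (2 * l - (i : ℕ)))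
      rw [← Nat.add_mul, hi] at h1
      exact h1
  have hsum : ∑ i : Fin (2 * l + 1), Q.coeff i • (t₁ ^ (i : ℕ) * t₂ ^ (2 * l - (i : ℕ))) ∈
      S.Th (4 * l * x) 0 0 ⊓ Par 1 ⊓ Van (2 * l * y) 0 :=
    Submodule.sum_mem _ fun i _ => Submodule.smul_mem _ _ (hterm i)
  have hg := Submodule.sub_mem _ (show f ∈ S.Th (4 * l * x) 0 0 ⊓ Par 1 ⊓ Van (2 * l * y) 0 from
    ⟨⟨hf, hp⟩, hv⟩) hsum
  have ha := P.cur.ha
  refine S.mult_of_zeros (u := 2 * a) (n := 4 * l * x) (m := 2 * b) (k := 2 * l + 1) (by omega) ?_ P.cur.mem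
    P.cur.ne P.cur.dich P.cur.even P.cur.van hg.1.1 hg.1.2 hg.2 hz ?_ ?_
  · have h1 : (1 : ℤ) ≤ l := by exact_mod_cast hl
    have h2 : (1 : ℤ) ≤ x := by exact_mod_cast hx
    nlinarith
  · intro j
    have h1 := heval j
    have h2 := ht j
    show f (z j) - (∑ i : Fin (2 * l + 1), Q.coeff i • (t₁ ^ (i : ℕ) * t₂ ^ (2 * l - (i : ℕ)))) (z j) = 0
    rw [Finset.sum_apply, sub_eq_zero]
    have h3 : f (z j) = (∑ i : Fin (2 * l + 1), Q.coeff i * r j ^ (i : ℕ)) * t₂ (z j) ^ (2 * l) := by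
      rw [h1, div_mul_cancel₀ _ (pow_ne_zero _ h2)]
    rw [h3, Finset.sum_mul]
    refine Finset.sum_congr rfl fun i _ => ?_
    show Q.coeff i * r j ^ (i : ℕ) * t₂ (z j) ^ (2 * l) = Q.coeff i * (t₁ (z j) ^ (i : ℕ) * t₂ (z j) ^ (2 * l - (i : ℕ)))
    have hi : 2 * l = (i : ℕ) + (2 * l - (i : ℕ)) := by
      have := i.2
      omega
    have h4 : t₂ (z j) ^ (2 * l) = t₂ (z j) ^ (i : ℕ) * t₂ (z j) ^ (2 * l - (i : ℕ)) := by
      rw [← pow_add, ← hi]
    have h5 : r j ^ (i : ℕ) * t₂ (z j) ^ (i : ℕ) = t₁ (z j) ^ (i : ℕ) := by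
      rw [← mul_pow]
      congr 1
      exact div_mul_cancel₀ _ h2
    rw [h4, ← h5]
    ring
  · have h1 : (4 * (a : ℤ) * S.d * x) = b * y + 1 := by exact_mod_cast P.num
    have e : 2 * (S.d : ℤ) * (2 * (a : ℤ)) * (4 * (l : ℤ) * (x : ℤ)) = 4 * (l : ℤ) * (4 * (a : ℤ) * S.d * x) := by
      ring
    rw [e, h1]
    push_cast
    nlinarith

/-- PROOF: the polynomial `∑ c i X^i` has infinitely many zeros (`exists_ratio`). -/
theorem Pen.form_unique {a b x y : ℕ} {s t₁ t₂ : C2 → ℂ} (P : S.Pen a b x y s t₁ t₂) {L : ℕ}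
    {c : Fin (L + 1) → ℂ} (h : ∑ i, c i • (t₁ ^ (i : ℕ) * t₂ ^ (L - (i : ℕ))) ∈ Mult s) : c = 0 := by
  classical
  obtain ⟨z, hz, ht, hinj⟩ := P.exists_ratio (L + 1)
  obtain ⟨g, -, hg⟩ := h
  set r : Fin (L + 1) → ℂ := fun i => t₁ (z i) / t₂ (z i) with hr
  set Q : Polynomial ℂ := ∑ i : Fin (L + 1), Polynomial.C (c i) * Polynomial.X ^ (i : ℕ) with hQ
  have hdeg : Q.natDegree < Fintype.card (Fin (L + 1)) := by
    rw [Fintype.card_fin, Nat.lt_succ_iff]
    refine Polynomial.natDegree_sum_le_of_forall_le _ _ fun i _ => ?_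
    refine (Polynomial.natDegree_C_mul_X_pow_le _ _).trans ?_
    have := i.2
    omega
  have heval : ∀ j, Q.eval (r j) = 0 := by
    intro j
    have h1 := congrFun hg (z j)
    rw [Finset.sum_apply] at h1
    have h2 : (s * g) (z j) = 0 := by
      show s (z j) * g (z j) = 0
      rw [hz.1 j, zero_mul]
    rw [h2] at h1
    have h3 : Q.eval (r j) * t₂ (z j) ^ L = 0 := by
      rw [← h1, hQ, Polynomial.eval_finsetSum, Finset.sum_mul]
      refine Finset.sum_congr rfl fun i _ => ?_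
      show (Polynomial.C (c i) * Polynomial.X ^ (i : ℕ)).eval (r j) * t₂ (z j) ^ L =
        c i * (t₁ (z j) ^ (i : ℕ) * t₂ (z j) ^ (L - (i : ℕ)))
      rw [Polynomial.eval_mul, Polynomial.eval_C, Polynomial.eval_pow, Polynomial.eval_X]
      have hi : L = (i : ℕ) + (L - (i : ℕ)) := by
        have := i.2
        omega
      have h4 : t₂ (z j) ^ L = t₂ (z j) ^ (i : ℕ) * t₂ (z j) ^ (L - (i : ℕ)) := by
        rw [← pow_add, ← hi]
      have h5 : r j ^ (i : ℕ) * t₂ (z j) ^ (i : ℕ) = t₁ (z j) ^ (i : ℕ) := by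
        rw [← mul_pow]
        congr 1
        exact div_mul_cancel₀ _ (ht j)
      rw [h4, ← h5]
      ring
    rcases mul_eq_zero.1 h3 with h4 | h4
    · exact h4
    · exact absurd h4 (pow_ne_zero _ (ht j))
  have h0 := Polynomial.eq_zero_of_natDegree_lt_card_of_eval_eq_zero Q hinj heval hdeg
  funext i
  have h1 : Q.coeff (i : ℕ) = 0 := by rw [h0, Polynomial.coeff_zero]
  rw [hQ, Polynomial.finsetSum_coeff] at h1
  simp only [Polynomial.coeff_C_mul, Polynomial.coeff_X_pow] at h1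
  rw [Finset.sum_eq_single i] at h1
  · simpa using h1
  · intro j _ hj
    rw [if_neg (fun h => hj (Fin.ext h.symm)), mul_zero]
  · intro h
    exact absurd (Finset.mem_univ i) h

/-- Division by the largest power of `s`. -/
private theorem PenB_div {a b : ℕ} {s : C2 → ℂ} (C : S.Curve a b s) (N : ℕ) : ∀ (m : ℤ) (f : C2 → ℂ),
    m ≤ N → f ∈ S.Th (2 * m) 0 0 → f ∈ Par 1 → f ≠ 0 →
    ∃ (e : ℕ) (g : C2 → ℂ), g ∈ S.Th (2 * (m - e * a)) 0 0 ∧ g ∈ Par 1 ∧ f = s ^ e * g ∧ g ∉ Mult s := by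
  induction N with
  | zero =>
    intro m f hm hf hp hf0
    by_cases h : f ∈ Mult s
    · exfalso
      have h1 := S.level_le_of_mult C.mem C.ne hf hf0 h
      have := C.ha
      push_cast at hm
      omega
    · refine ⟨0, f, ?_, hp, ?_, h⟩
      · have e : 2 * (m - ((0 : ℕ) : ℤ) * a) = 2 * m := by push_cast; ring
        rw [e]
        exact hf
      · rw [pow_zero, one_mul]
  | succ N ih =>
    intro m f hm hf hp hf0
    by_cases h : f ∈ Mult s
    · obtain ⟨g, hg, he⟩ := h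
      have h1 := S.th_quot C.mem C.ne hf hg he
      rw [sub_zero] at h1
      have e1 : 2 * m - 2 * (a : ℤ) = 2 * (m - a) := by ring
      rw [e1] at h1
      have hg0 : g ≠ 0 := by
        rintro rfl
        exact hf0 (by rw [he, mul_zero])
      have hgp : g ∈ Par 1 := by
        have h2 : Differentiable ℂ fun z => g (-z) := hg.comp (f := fun z : C2 => -z) (by fun_prop)
        have h3 : s * (fun z => g (-z)) = s * g := by
          funext z
          show s z * g (-z) = s z * g z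
          have h4 := hp z
          have h5 := C.even z
          rw [he] at h4
          change s (-z) * g (-z) = 1 * (s z * g z) at h4
          rw [h5] at h4
          linear_combination h4
        have h6 := ent_cancel C.mem.1 C.ne h2 hg h3
        intro z
        rw [one_mul]
        exact congrFun h6 z
      have ha := C.ha
      obtain ⟨e, g', hg', hp', he', hn'⟩ := ih (m - a) g (by push_cast at hm; omega) h1 hgp hg0
      refine ⟨e + 1, g', ?_, hp', ?_, hn'⟩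
      · have e2 : 2 * (m - ((e + 1 : ℕ) : ℤ) * a) = 2 * (m - a - e * a) := by push_cast; ring
        rw [e2]
        exact hg'
      · rw [he, he', pow_succ]
        ring
    · refine ⟨0, f, ?_, hp, ?_, h⟩
      · have e : 2 * (m - ((0 : ℕ) : ℤ) * a) = 2 * m := by push_cast; ring
        rw [e]
        exact hf
      · rw [pow_zero, one_mul]

private theorem PenB_order {a b : ℕ} {s : C2 → ℂ} (C : S.Curve a b s) (e : ℕ) :
    s ^ e ∈ Van (2 * b * e) 0 ∧ s ^ e ∉ Van (2 * b * e + 1) 0 := by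
  induction e with
  | zero =>
    rw [pow_zero, mul_zero, zero_add]
    refine ⟨van_zero (f := (1 : C2 → ℂ)) continuous_const 0, fun h => ?_⟩
    have h1 := (van_one_iff (f := (1 : C2 → ℂ)) (differentiable_const 1) 0).1 h
    exact one_ne_zero h1
  | succ e ih =>
    rw [pow_succ]
    have h1 := order_mul (PenB_diff_pow C.mem.1 e) C.mem.1 ih.1 ih.2 C.van C.van'
    have e1 : 2 * b * (e + 1) = 2 * b * e + 2 * b := by ring
    rw [e1]
    exact h1

private theorem PenB_pow_not {a b : ℕ} {s : C2 → ℂ} (C : S.Curve a b s) (hs : s 0 = 0) {u : ℤ} {w : C2 → ℂ}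
    (hw : w ∈ S.Th u 0 0) (hn : w ∉ Mult s) (e : ℕ) : w ^ e ∉ Mult s := by
  induction e with
  | zero =>
    rw [pow_zero]
    rintro ⟨g, -, hg⟩
    have h1 := congrFun hg 0
    change (1 : ℂ) = s 0 * g 0 at h1
    rw [hs, zero_mul] at h1
    exact one_ne_zero h1
  | succ e ih =>
    rw [pow_succ]
    intro h
    rcases C.prime (S.PenB_th_pow hw e) hw h with h1 | h1
    · exact ih h1
    · exact hn h1

/-- The auxiliary factor `h` of level `2 (2 l x - n)`.
PROOF: `w` from `Curve.exists_w` (hypothesis `hw`).  For large `l₀` the space of even functions of level `2 (2 l₀ x - n)` and order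
`≥ 2 l₀ y` is nonzero: `2 d (2 l₀ x - n)² + 2 > (l₀ y)²` as `8 d x² > y²` (from `b y < 4 a d x`, `b² > 2 d a²`).  Write `h₀ = s^e h₁`, `h₁` not a multiple
of `s` (levels are `≥ 0`, so `e` is bounded); `h₁` is even of level `2 (2 l₀ x - n - e a)` and order `≥ 2 l₀ y - 2 b e` (`van_cancel`).
`h = h₁ w^e` has level `2 (2 (l₀ + e) x - n)` and order `≥ 2 (l₀ + e) y`; not a multiple by `Curve.prime`. -/
theorem Pen.exists_h {a b x y : ℕ} {s t₁ t₂ : C2 → ℂ} (P : S.Pen a b x y s t₁ t₂)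
    (hw : ∃ w : C2 → ℂ, w ∈ S.Th (2 * (2 * x + a)) 0 0 ∧ w ∈ Par 1 ∧ w ∈ Van (2 * y + 2 * b) 0 ∧ w ∉ Mult s)
    (n : ℕ) (hn : 1 ≤ n) :
    ∃ (l : ℕ) (h : C2 → ℂ), 1 ≤ l ∧ n ≤ 2 * l * x ∧ h ∈ S.Th (2 * (2 * l * x - n)) 0 0 ∧ h ∈ Par 1 ∧
      h ∈ Van (2 * l * y) 0 ∧ h ∉ Mult s := by
  obtain ⟨w, hw1, hw2, hw3, hw4⟩ := hw
  obtain ⟨hx, hs0, hb⟩ := P.x_pos
  have hd := S.d_pos
  have ha := P.cur.ha
  have hpell := P.cur.pell
  have hnum := P.num
  have hxy : y ^ 2 + 1 ≤ 8 * S.d * x ^ 2 := by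
    by_contra hc
    have hc' : 8 * S.d * x ^ 2 ≤ y ^ 2 := by omega
    have h1 : (b * y) ^ 2 < (4 * a * S.d * x) ^ 2 := by
      rw [hnum]
      exact Nat.pow_lt_pow_left (Nat.lt_succ_self _) two_ne_zero
    have h2 : (2 * S.d * a ^ 2) * (8 * S.d * x ^ 2) ≤ b ^ 2 * y ^ 2 := by
      refine Nat.mul_le_mul ?_ hc'
      omega
    nlinarith
  obtain ⟨l, hl⟩ : ∃ l : ℕ, l = 8 * S.d * x * n := ⟨_, rfl⟩
  have hl1 : 8 * (S.d : ℤ) * x * n ≤ l := by rw [hl]; push_cast; exact le_refl _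
  have hnl : (n : ℤ) ≤ l := by
    have h1 : 1 ≤ 8 * S.d * x := by nlinarith
    have h2 : n ≤ 8 * S.d * x * n := Nat.le_mul_of_pos_left n (by omega)
    rw [hl]
    exact_mod_cast h2
  have hl0 : 1 ≤ l := by
    have : (1 : ℤ) ≤ n := by exact_mod_cast hn
    omega
  have hX : (1 : ℤ) ≤ 2 * l * x - n := by
    have h1 : (1 : ℤ) ≤ x := by exact_mod_cast hx
    have h2 : (1 : ℤ) ≤ l := by exact_mod_cast hl0
    nlinarith
  have hne : ∃ f : C2 → ℂ, f ∈ S.Th (2 * (2 * l * x - n)) 0 0 ∧ f ∈ Par 1 ∧ f ∈ Van (2 * (l * y)) 0 ∧ f ≠ 0 := by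
    have hfd : FiniteDimensional ℂ (S.Th (2 * (2 * l * x - n)) 0 0) := S.finite_th _ _ _
    have hfd' : FiniteDimensional ℂ (S.Th (2 * (2 * l * x - n)) 0 0 ⊓ Par 1 : Submodule ℂ (C2 → ℂ)) :=
      Submodule.finiteDimensional_of_le inf_le_left
    have h1 := finrank_le_van_even (S.Th (2 * (2 * l * x - n)) 0 0 ⊓ Par 1 : Submodule ℂ (C2 → ℂ))
      (fun f hf => hf.1.1) inf_le_right (l * y)
    have h2 := S.finrank_even hX
    have h3 : (S.Th (2 * (2 * l * x - n)) 0 0 ⊓ Par 1 ⊓ Van (2 * (l * y)) 0 : Submodule ℂ (C2 → ℂ)) ≠ ⊥ := by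
      intro h4
      rw [h4, finrank_bot, zero_add] at h1
      have h5 : (finrank ℂ (S.Th (2 * (2 * l * x - n)) 0 0 ⊓ Par 1 : Submodule ℂ (C2 → ℂ)) : ℤ) ≤
          ((l : ℤ) * y) ^ 2 := by exact_mod_cast h1
      rw [h2] at h5
      have h6 : (y : ℤ) ^ 2 + 1 ≤ 8 * S.d * (x : ℤ) ^ 2 := by exact_mod_cast hxy
      have h7 : (0 : ℤ) ≤ l := by positivity
      have h8 : (l : ℤ) ^ 2 * ((y : ℤ) ^ 2 + 1) ≤ (l : ℤ) ^ 2 * (8 * S.d * (x : ℤ) ^ 2) :=
        mul_le_mul_of_nonneg_left h6 (by positivity)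
      have h9 : (l : ℤ) * (8 * (S.d : ℤ) * x * n) ≤ l * l := mul_le_mul_of_nonneg_left hl1 h7
      have h10 : (0 : ℤ) ≤ 2 * S.d * (n : ℤ) ^ 2 := by positivity
      nlinarith
    obtain ⟨f, hf, hf0⟩ := Submodule.exists_mem_ne_zero_of_ne_bot h3
    exact ⟨f, hf.1.1, hf.1.2, hf.2, hf0⟩
  obtain ⟨f, hf1, hf2, hf3, hf4⟩ := hne
  obtain ⟨e, g, hg1, hg2, hg3, hg4⟩ := PenB_div P.cur (2 * l * x - n : ℤ).toNat (2 * l * x - n) f
    (Int.self_le_toNat _) hf1 hf2 hf4
  have hord := PenB_order P.cur e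
  have hgd : Differentiable ℂ g := hg1.1
  have hgv : g ∈ Van (2 * (l * y) - 2 * b * e) 0 := by
    by_cases hc : 2 * b * e ≤ 2 * (l * y)
    · refine van_cancel (i := 2 * b * e) (PenB_diff_pow P.cur.mem.1 e) hgd hord.2 ?_
      rw [Nat.add_sub_cancel' hc, ← hg3]
      exact hf3
    · rw [Nat.sub_eq_zero_of_le (by omega)]
      exact van_zero hgd.continuous 0
  refine ⟨l + e, g * w ^ e, by omega, ?_, ?_, ?_, ?_, ?_⟩
  · have h1 : (n : ℤ) ≤ 2 * (l + e : ℕ) * x := by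
      push_cast
      have : (0 : ℤ) ≤ (e : ℤ) * x := by positivity
      nlinarith
    exact_mod_cast h1
  · have h1 := S.PenB_th_mul hg1 (S.PenB_th_pow hw1 e)
    have e1 : 2 * (2 * (l : ℤ) * x - n - e * a) + e * (2 * (2 * x + a)) =
        2 * (2 * ((l + e : ℕ) : ℤ) * x - n) := by push_cast; ring
    rw [e1] at h1
    exact h1
  · have h1 := PenB_par_mul hg2 (PenB_par_pow hw2 e)
    rw [one_pow, one_mul] at h1
    exact h1
  · refine van_mono ?_ 0 (van_mul hgv (PenB_van_pow hw3 e))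
    have e1 : 2 * (l + e) * y = 2 * (l * y) + e * (2 * y) := by ring
    have e2 : e * (2 * y + 2 * b) = e * (2 * y) + 2 * b * e := by ring
    rw [e1, e2]
    omega
  · intro h
    rcases P.cur.prime hg1 (S.PenB_th_pow hw1 e) h with h1 | h1
    · exact hg4 h1
    · exact PenB_pow_not P.cur hs0 hw1 hw4 e h1

end PerData

end Q2T
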