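import Pool.Agent.H.MP_89f84f_ag.q2.PenB

set_option autoImplicit false

open Complex Topology Filter Asymptotics Metric Set Module

namespace Q2T

namespace PerData

variable {S : PerData}

/-- Few points of order `≥ 2 b`.
PROOF: otherwise restrict to `r = 4 d a² - 2` of them.  `Th (2 a) 0 0` has dimension `4 d a²`, so at least a two-dimensional
subspace vanishes at these points (`finrank_le_points`); it contains `φ` which is not a constant multiple of `s`, so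
`φ ∉ Mult s` (`eq_smul_of_mult`), `Copr s φ`, and `bezout`: `2 b r ≤ 8 d a²`; as `b ≥ 3` (odd, `b² = 2 d a² + 1`), `6 (4 d a² - 2) ≤ 8 d a²`,
contradiction. -/
theorem Curve.few {a b : ℕ} {s : C2 → ℂ} (C : S.Curve a b s) {r : ℕ} (y : Fin r → C2)
    (hy : ∀ i j, i ≠ j → y i - y j ∉ S.Lat) (hv : ∀ i, s ∈ Van (2 * b) (y i)) : r < 4 * S.d * a ^ 2 := by
  by_contra hr
  push Not at hr
  have hd := S.d_pos
  have ha := C.ha
  have hX : 0 < S.d * a ^ 2 := by positivity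
  have hp := C.pell
  have hb : 3 ≤ b := by
    by_contra hb
    have h1 : b = 0 ∨ b = 1 ∨ b = 2 := by omega
    rcases h1 with h1 | h1 | h1
    · rw [h1] at hp
      omega
    · rw [h1, mul_assoc] at hp
      omega
    · rw [h1, mul_assoc] at hp
      omega
  obtain ⟨X, hX'⟩ : ∃ X : ℕ, X = S.d * a ^ 2 := ⟨_, rfl⟩
  have e1 : 4 * S.d * a ^ 2 = 4 * X := by rw [hX', mul_assoc]
  rw [e1] at hr
  obtain ⟨N, hN⟩ : ∃ N : ℕ, N + 2 = 4 * X := ⟨4 * X - 2, by omega⟩
  have hNr : N ≤ r := by omega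
  have hfin : FiniteDimensional ℂ (S.Th (2 * a) 0 0) := S.finite_th _ _ _
  have hdim : (finrank ℂ (S.Th (2 * a) 0 0) : ℤ) = (2 * (a : ℤ)) ^ 2 * S.d :=
    S.finrank_th (by omega) 0 0
  have hdim' : finrank ℂ (S.Th (2 * a) 0 0) = 4 * X := by
    zify
    rw [hdim, hX']
    push_cast
    ring
  obtain ⟨W', hW', hle, hz⟩ := finrank_le_points (S.Th (2 * a) 0 0)
    (fun i : Fin N => y (Fin.castLE hNr i))
  have h2 : 2 ≤ finrank ℂ W' := by omega
  have hex : ∃ φ ∈ W', φ ∉ Mult s := by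
    by_contra hcon
    push Not at hcon
    have h3 : W' ≤ Submodule.span ℂ {s} := by
      intro φ hφ
      obtain ⟨c, hc⟩ := S.eq_smul_of_mult C.mem C.ne (hW' hφ) (hcon φ hφ)
      rw [hc]
      exact Submodule.smul_mem _ _ (Submodule.mem_span_singleton_self s)
    have h4 := Submodule.finrank_mono h3
    have h5 : finrank ℂ (Submodule.span ℂ {s}) ≤ 1 := (finrank_span_le_card ({s} : Set (C2 → ℂ))).trans (by simp)
    omega
  obtain ⟨φ, hφ, hφs⟩ := hex
  have hφ0 : φ ≠ 0 := by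
    rintro rfl
    exact hφs (Submodule.zero_mem _)
  have hc : Copr s φ := (C.dich _ _ _ φ (hW' hφ) hφ0).resolve_left hφs
  have hbz := S.bezout (by omega) (by omega) C.mem (hW' hφ) C.ne hφ0 hc
    (fun i : Fin N => y (Fin.castLE hNr i)) (fun i k hik => hy _ _ (by
      intro h
      exact hik (Fin.castLE_injective hNr h)))
    (fun _ => 2 * b) (fun _ => 1) (fun i => hv _)
    (fun i => (van_one_iff (hW' hφ).1 _).2 (hz φ hφ i))
  rw [Finset.sum_const, Finset.card_univ, Fintype.card_fin, smul_eq_mul] at hbz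
  have h6 : ((N * (2 * b * 1) : ℕ) : ℤ) ≤ ((8 * X : ℕ) : ℤ) := by
    refine hbz.trans (le_of_eq ?_)
    rw [hX']
    push_cast
    ring
  have h7 : N * (2 * b * 1) ≤ 8 * X := by exact_mod_cast h6
  have h8 : N * 6 ≤ N * (2 * b * 1) := Nat.mul_le_mul_left _ (by omega)
  omega

/-- Translates of the curve.
PROOF: `x = τ ξ + Δ η` (`exists_real_coords`), `σ` the function of `th_trans`.  `Dich σ`: for `t ∈ Th v` apply `Dich s` to the translate of
`t` by `- x` (`th_trans`), and translate back. -/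
theorem Curve.exists_trans {a b : ℕ} {s : C2 → ℂ} (C : S.Curve a b s) (x : C2) :
    ∃ (α β : Fin 2 → ℝ) (σ e : C2 → ℂ), Differentiable ℂ e ∧ (∀ z, e z ≠ 0) ∧
      (∀ z, σ z = e z * s (z + x)) ∧ σ ∈ S.Th (2 * a) α β ∧ σ ≠ 0 ∧ S.Dich σ := by
  obtain ⟨ξ, η, hx⟩ := S.exists_real_coords x
  have hT := S.th_trans C.mem ξ η
  rw [← hx] at hT
  have hne : ∀ z : C2, cexp (2 * Real.pi * I * ((2 * (a : ℤ) : ℤ) : ℂ) *
      ((ξ 0 : ℂ) * z 0 + (ξ 1 : ℂ) * z 1)) ≠ 0 := fun z => Complex.exp_ne_zero _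
  have hed : Differentiable ℂ fun z : C2 => cexp (2 * Real.pi * I * ((2 * (a : ℤ) : ℤ) : ℂ) *
      ((ξ 0 : ℂ) * z 0 + (ξ 1 : ℂ) * z 1)) := by fun_prop
  obtain ⟨e, he⟩ : ∃ e : C2 → ℂ, e = fun z : C2 => cexp (2 * Real.pi * I * ((2 * (a : ℤ) : ℤ) : ℂ) *
      ((ξ 0 : ℂ) * z 0 + (ξ 1 : ℂ) * z 1)) := ⟨_, rfl⟩
  have hT' : (fun z => e z * s (z + x)) ∈ S.Th (2 * a)
      (0 + fun i => ((2 * (a : ℤ) : ℤ) : ℝ) * (![ξ 0, (S.d : ℝ) * ξ 1] : Fin 2 → ℝ) i)
        (0 - fun i => ((2 * (a : ℤ) : ℤ) : ℝ) * (![η 0, (S.d : ℝ) * η 1] : Fin 2 → ℝ) i) := by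
    rw [he]
    exact hT
  rw [← he] at hed
  have hne' : ∀ z, e z ≠ 0 := by
    rw [he]
    exact hne
  refine ⟨_, _, _, e, hed, hne', fun z => rfl, hT', ?_, ?_⟩
  · intro h0
    apply C.ne
    funext w
    have h1 := congrFun h0 (w - x)
    simp only [sub_add_cancel, Pi.zero_apply] at h1 ⊢
    exact (mul_eq_zero.1 h1).resolve_left (hne' _)
  · intro v α' β' t ht ht0
    obtain ⟨ξ', η', hx'⟩ := S.exists_real_coords (-x)
    have hT2 := S.th_trans ht ξ' η'
    rw [← hx'] at hT2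
    obtain ⟨e₂, he₂⟩ : ∃ e₂ : C2 → ℂ, e₂ = fun z : C2 => cexp (2 * Real.pi * I * (v : ℂ) *
      ((ξ' 0 : ℂ) * z 0 + (ξ' 1 : ℂ) * z 1)) := ⟨_, rfl⟩
    have hed₂ : Differentiable ℂ e₂ := by
      rw [he₂]
      fun_prop
    have hne₂ : ∀ z, e₂ z ≠ 0 := by
      rw [he₂]
      exact fun z => Complex.exp_ne_zero _
    have hT2' : (fun z => e₂ z * t (z + -x)) ∈ S.Th v
        (α' + fun i => (v : ℝ) * (![ξ' 0, (S.d : ℝ) * ξ' 1] : Fin 2 → ℝ) i)
        (β' - fun i => (v : ℝ) * (![η' 0, (S.d : ℝ) * η' 1] : Fin 2 → ℝ) i) := by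
      rw [he₂]
      exact hT2
    have ht2 : (fun z => e₂ z * t (z + -x)) ≠ 0 := by
      intro h0
      apply ht0
      funext w
      have h1 := congrFun h0 (w + x)
      simp only [add_neg_cancel_right, Pi.zero_apply] at h1 ⊢
      exact (mul_eq_zero.1 h1).resolve_left (hne₂ _)
    rcases C.dich _ _ _ _ hT2' ht2 with h1 | h1
    · left
      obtain ⟨h, hh, hth⟩ := h1
      refine ⟨fun z => (e₂ (z + x))⁻¹ * (e z)⁻¹ * h (z + x), ?_, ?_⟩
      · have h2 : Differentiable ℂ fun z : C2 => z + x := by fun_prop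
        exact (((hed₂.comp h2).inv fun z => hne₂ _).mul (hed.inv hne')).mul (hh.comp h2)
      · funext z
        have h3 := congrFun hth (z + x)
        simp only [add_neg_cancel_right, Pi.mul_apply] at h3 ⊢
        have h4 := hne₂ (z + x)
        have h5 := hne' z
        field_simp
        linear_combination h3
    · right
      have h2 := copr_comp_add h1 x
      intro p
      filter_upwards [h2 p] with z hz hz'
      apply hz
      refine ⟨(mul_eq_zero.1 hz'.1).resolve_left (hne' _), ?_⟩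
      show e₂ (z + x) * t (z + x + -x) = 0
      rw [add_neg_cancel_right, hz'.2, mul_zero]

/-- Associated translates: few.
PROOF: if `σ' ∈ Mult σ` for the translates `σ, σ'` by `x, x'`, then `σ' = c σ` (`eq_smul_of_mult`), so `s (z + x)` has the same order as
`s (z + x')` at `- x'`, namely `≥ 2 b`: `s ∈ Van (2 b) (x - x')`. -/
theorem Curve.van_of_assoc {a b : ℕ} {s : C2 → ℂ} (C : S.Curve a b s) {x x' : C2} {α β α' β' : Fin 2 → ℝ}
    {σ σ' e e' : C2 → ℂ} (he : Differentiable ℂ e) (he' : Differentiable ℂ e') (h0 : ∀ z, e z ≠ 0)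
    (h0' : ∀ z, e' z ≠ 0) (h : ∀ z, σ z = e z * s (z + x)) (h' : ∀ z, σ' z = e' z * s (z + x'))
    (hm : σ ∈ S.Th (2 * a) α β) (hm' : σ' ∈ S.Th (2 * a) α' β') (hs0 : σ ≠ 0) (hs0' : σ' ≠ 0)
    (hd : σ' ∈ Mult σ) : s ∈ Van (2 * b) (x - x') := by
  obtain ⟨c, hc⟩ := S.eq_smul_of_mult hm hs0 hm' hd
  have hc0 : c ≠ 0 := by
    rintro rfl
    rw [zero_smul] at hc
    exact hs0' hc
  have h1 : (fun z => s (z + x')) ∈ Van (2 * b) (-x') := by
    rw [van_comp_add, neg_add_cancel]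
    exact C.van
  have h2 : (e' * fun z => s (z + x')) ∈ Van (2 * b) (-x') :=
    (van_mul_unit he'.continuous (h0' _)).2 h1
  have h3 : (e' * fun z => s (z + x')) = (c • e) * fun z => s (z + x) := by
    funext z
    have h4 := congrFun hc z
    simp only [Pi.smul_apply, smul_eq_mul, Pi.mul_apply, h, h'] at h4 ⊢
    rw [h4]
    ring
  rw [h3] at h2
  have h5 := (van_mul_unit (he.const_smul c).continuous (by
    simp only [Pi.smul_apply, smul_eq_mul]
    exact mul_ne_zero hc0 (h0 _))).1 h2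
  rw [van_comp_add] at h5
  rw [sub_eq_neg_add]
  exact h5

private theorem prA_level {a : ℕ} (ha : 0 < a) (r : ℕ) {α β : Fin r → Fin 2 → ℝ} {σ : Fin r → C2 → ℂ}
    (hσ : ∀ i, σ i ∈ S.Th (2 * a) (α i) (β i)) (hσ0 : ∀ i, σ i ≠ 0) (hD : ∀ i, S.Dich (σ i))
    (hna : ∀ i j, i ≠ j → σ j ∉ Mult (σ i)) {N : ℤ} {γ δ : Fin 2 → ℝ} {F : C2 → ℂ}
    (hF : F ∈ S.Th N γ δ) (hF0 : F ≠ 0)
    (hd : ∀ i, F ∈ Mult (σ i)) : 2 * (a : ℤ) * r ≤ N := by
  induction r generalizing N γ δ F with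
  | zero =>
    by_contra h
    push Not at h
    refine hF0 (S.th_level_neg (u := N) ?_ hF)
    simpa using h
  | succ r ih =>
    obtain ⟨h, hh, hFh⟩ := hd (Fin.last r)
    have hhT := S.th_quot (hσ (Fin.last r)) (hσ0 _) hF hh hFh
    have hh0 : h ≠ 0 := by
      rintro rfl
      exact hF0 (by rw [hFh, mul_zero])
    have h1 := ih (α := fun i => α i.castSucc) (β := fun i => β i.castSucc)
      (σ := fun i => σ i.castSucc) (fun i => hσ _) (fun i => hσ0 _) (fun i => hD _)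
      (fun i j hij => hna _ _ (fun h => hij (Fin.castSucc_injective _ h))) hhT hh0 (fun i => by
        have h2 : σ (Fin.last r) ∉ Mult (σ i.castSucc) := hna _ _ (Fin.castSucc_lt_last i).ne
        have h3 : Copr (σ i.castSucc) (σ (Fin.last r)) :=
          (hD i.castSucc _ _ _ _ (hσ (Fin.last r)) (hσ0 _)).resolve_left h2
        refine dvd_of_copr (hσ _).1 (hσ _).1 hh (hσ0 _) (hσ0 (Fin.last r)) h3 ?_
        rw [← hFh]
        exact hd _)
    push_cast
    linarith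

/-- Products of pairwise non-associated primes.
PROOF: induction on `r`: `F = (∏_{i<r} σ i) h`, `σ r` divides the product times `h` and is coprime to each `σ i` (`Dich`), so it divides `h`
(`dvd_of_copr` repeatedly; `h` is a theta function by `th_quot`).  Levels: `2 a r ≤ N` (`level_le_of_mult`). -/
theorem Curve.prod_level {a : ℕ} (ha : 0 < a) {r : ℕ} {α β : Fin r → Fin 2 → ℝ} {σ : Fin r → C2 → ℂ}
    (hσ : ∀ i, σ i ∈ S.Th (2 * a) (α i) (β i)) (hσ0 : ∀ i, σ i ≠ 0) (hD : ∀ i, S.Dich (σ i))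
    (hna : ∀ i j, i ≠ j → σ j ∉ Mult (σ i)) {N : ℤ} {F : C2 → ℂ} (hF : F ∈ S.Th N 0 0) (hF0 : F ≠ 0)
    (hd : ∀ i, F ∈ Mult (σ i)) : 2 * (a : ℤ) * r ≤ N := by
  exact prA_level ha r hσ hσ0 hD hna hF hF0 hd

end PerData

end Q2T
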