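import Pool.Agent.H.MP_89f84f_ag.q2.ThA

/-!
The lattice: finitely many points in bounded sets, discrete, closed, compact fundamental domain.
-/

set_option autoImplicit false

open Complex Topology Filter Asymptotics Metric Set

namespace Q2T

namespace PerData

variable (S : PerData)

/-- Finitely many pairs `(p, q)` with `τ p + Δ q` in a bounded set. -/
theorem RestL_finite_pairs (R : ℝ) : {w : Z2 × Z2 | ‖S.tv w.1 + S.dv w.2‖ ≤ R}.Finite := by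
  obtain ⟨D, hD⟩ : ∃ D : ℝ, D = (S.τ 0 0).im * (S.τ 1 1).im - (S.τ 0 1).im ^ 2 := ⟨_, rfl⟩
  have hD0 : 0 < D := by
    have := S.det_pos
    rw [hD]
    linarith
  have hs : (S.τ 1 0).im = (S.τ 0 1).im := by rw [S.symm]
  obtain ⟨A, hA⟩ : ∃ A : ℝ, A = (|(S.τ 1 1).im| + |(S.τ 0 1).im| + |(S.τ 0 0).im|) * |R| / D :=
    ⟨_, rfl⟩
  have hA0 : 0 ≤ A := by rw [hA]; positivity
  obtain ⟨B, hB⟩ : ∃ B : ℝ, B = |R| + (‖S.τ 0 0‖ + ‖S.τ 0 1‖ + ‖S.τ 1 0‖ + ‖S.τ 1 1‖) * A :=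
    ⟨_, rfl⟩
  have hB0 : 0 ≤ B := by rw [hB]; positivity
  have hfin : (closedBall (0 : Z2 × Z2) (max A B)).Finite :=
    (isCompact_closedBall _ _).finite_of_discrete
  refine hfin.subset ?_
  rintro ⟨p, q⟩ hw
  have hw' : ‖S.tv p + S.dv q‖ ≤ |R| := le_trans hw (le_abs_self R)
  have hx0 : ‖(S.tv p + S.dv q) 0‖ ≤ |R| := (norm_le_pi_norm _ 0).trans hw'
  have hx1 : ‖(S.tv p + S.dv q) 1‖ ≤ |R| := (norm_le_pi_norm _ 1).trans hw'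
  have e0 : ((S.tv p + S.dv q) 0).im = (S.τ 0 0).im * (p 0 : ℝ) + (S.τ 0 1).im * (p 1 : ℝ) := by
    simp only [Pi.add_apply, tv_apply, dv_zero']
    simp
  have e1 : ((S.tv p + S.dv q) 1).im = (S.τ 0 1).im * (p 0 : ℝ) + (S.τ 1 1).im * (p 1 : ℝ) := by
    simp only [Pi.add_apply, tv_apply, dv_one']
    rw [← hs]
    simp
  have i0 : |(S.τ 0 0).im * (p 0 : ℝ) + (S.τ 0 1).im * (p 1 : ℝ)| ≤ |R| := by
    rw [← e0]
    exact (abs_im_le_norm _).trans hx0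
  have i1 : |(S.τ 0 1).im * (p 0 : ℝ) + (S.τ 1 1).im * (p 1 : ℝ)| ≤ |R| := by
    rw [← e1]
    exact (abs_im_le_norm _).trans hx1
  have p0 : |(p 0 : ℝ)| ≤ A := by
    rw [hA, le_div_iff₀ hD0]
    have h1 : |(p 0 : ℝ)| * D = |(S.τ 1 1).im * ((S.τ 0 0).im * (p 0 : ℝ) + (S.τ 0 1).im * (p 1 : ℝ))
        - (S.τ 0 1).im * ((S.τ 0 1).im * (p 0 : ℝ) + (S.τ 1 1).im * (p 1 : ℝ))| := by
      rw [← abs_of_pos hD0, ← abs_mul, hD]
      congr 1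
      ring
    rw [h1]
    refine (abs_sub _ _).trans ?_
    rw [abs_mul, abs_mul]
    have h2 := mul_le_mul_of_nonneg_left i0 (abs_nonneg (S.τ 1 1).im)
    have h3 := mul_le_mul_of_nonneg_left i1 (abs_nonneg (S.τ 0 1).im)
    have h4 : 0 ≤ |(S.τ 0 0).im| * |R| := by positivity
    nlinarith
  have p1 : |(p 1 : ℝ)| ≤ A := by
    rw [hA, le_div_iff₀ hD0]
    have h1 : |(p 1 : ℝ)| * D = |(S.τ 0 0).im * ((S.τ 0 1).im * (p 0 : ℝ) + (S.τ 1 1).im * (p 1 : ℝ))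
        - (S.τ 0 1).im * ((S.τ 0 0).im * (p 0 : ℝ) + (S.τ 0 1).im * (p 1 : ℝ))| := by
      rw [← abs_of_pos hD0, ← abs_mul, hD]
      congr 1
      ring
    rw [h1]
    refine (abs_sub _ _).trans ?_
    rw [abs_mul, abs_mul]
    have h2 := mul_le_mul_of_nonneg_left i1 (abs_nonneg (S.τ 0 0).im)
    have h3 := mul_le_mul_of_nonneg_left i0 (abs_nonneg (S.τ 0 1).im)
    have h4 : 0 ≤ |(S.τ 1 1).im| * |R| := by positivity
    nlinarith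
  have np0 : ‖(p 0 : ℂ)‖ ≤ A := by rwa [Complex.norm_intCast]
  have np1 : ‖(p 1 : ℂ)‖ ≤ A := by rwa [Complex.norm_intCast]
  have m00 := mul_le_mul_of_nonneg_left np0 (norm_nonneg (S.τ 0 0))
  have m01 := mul_le_mul_of_nonneg_left np1 (norm_nonneg (S.τ 0 1))
  have m10 := mul_le_mul_of_nonneg_left np0 (norm_nonneg (S.τ 1 0))
  have m11 := mul_le_mul_of_nonneg_left np1 (norm_nonneg (S.τ 1 1))
  have n00 : 0 ≤ ‖S.τ 0 0‖ * A := by positivity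
  have n01 : 0 ≤ ‖S.τ 0 1‖ * A := by positivity
  have n10 : 0 ≤ ‖S.τ 1 0‖ * A := by positivity
  have n11 : 0 ≤ ‖S.τ 1 1‖ * A := by positivity
  have q0 : |(q 0 : ℝ)| ≤ B := by
    have h1 : (q 0 : ℂ) = (S.tv p + S.dv q) 0 - (S.τ 0 0 * (p 0 : ℂ) + S.τ 0 1 * (p 1 : ℂ)) := by
      simp only [Pi.add_apply, tv_apply, dv_zero']
      ring
    have h2 : ‖(q 0 : ℂ)‖ ≤ |R| + (‖S.τ 0 0‖ * ‖(p 0 : ℂ)‖ + ‖S.τ 0 1‖ * ‖(p 1 : ℂ)‖) := by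
      rw [h1]
      refine (norm_sub_le _ _).trans (add_le_add hx0 ((norm_add_le _ _).trans ?_))
      rw [norm_mul, norm_mul]
    rw [Complex.norm_intCast] at h2
    rw [hB]
    linarith
  have q1 : |(q 1 : ℝ)| ≤ B := by
    have h1 : (S.d : ℂ) * (q 1 : ℂ) =
        (S.tv p + S.dv q) 1 - (S.τ 1 0 * (p 0 : ℂ) + S.τ 1 1 * (p 1 : ℂ)) := by
      simp only [Pi.add_apply, tv_apply, dv_one']
      ring
    have h2 : ‖(S.d : ℂ) * (q 1 : ℂ)‖ ≤ |R| + (‖S.τ 1 0‖ * ‖(p 0 : ℂ)‖ + ‖S.τ 1 1‖ * ‖(p 1 : ℂ)‖) := by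
      rw [h1]
      refine (norm_sub_le _ _).trans (add_le_add hx1 ((norm_add_le _ _).trans ?_))
      rw [norm_mul, norm_mul]
    rw [norm_mul, Complex.norm_natCast, Complex.norm_intCast] at h2
    have h3 : |(q 1 : ℝ)| ≤ (S.d : ℝ) * |(q 1 : ℝ)| := by
      have h4 : (1 : ℝ) ≤ S.d := by exact_mod_cast S.d_pos
      exact le_mul_of_one_le_left (abs_nonneg _) h4
    rw [hB]
    linarith
  rw [mem_closedBall, dist_zero_right, Prod.norm_def]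
  refine max_le ?_ ?_
  · rw [pi_norm_le_iff_of_nonneg (hA0.trans (le_max_left _ _))]
    intro i
    refine le_trans ?_ (le_max_left A B)
    rw [Int.norm_eq_abs]
    fin_cases i
    · exact p0
    · exact p1
  · rw [pi_norm_le_iff_of_nonneg (hA0.trans (le_max_left _ _))]
    intro i
    refine le_trans ?_ (le_max_right A B)
    rw [Int.norm_eq_abs]
    fin_cases i
    · exact q0
    · exact q1

/-- Finitely many lattice points in a bounded set. -/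
theorem RestL_finite (R : ℝ) : {x : C2 | x ∈ S.Lat ∧ ‖x‖ ≤ R}.Finite := by
  refine ((S.RestL_finite_pairs R).image fun w => S.tv w.1 + S.dv w.2).subset ?_
  rintro x ⟨⟨p, q, rfl⟩, hx⟩
  exact ⟨(p, q), hx, rfl⟩

/-- The lattice is discrete. -/
theorem RestL_discrete : ∃ r > 0, ∀ x ∈ S.Lat, ‖x‖ < r → x = 0 := by
  have h1 : ({x : C2 | x ∈ S.Lat ∧ ‖x‖ ≤ 1} \ {0}).Finite := (S.RestL_finite 1).subset sdiff_subset
  have h2 : ({x : C2 | x ∈ S.Lat ∧ ‖x‖ ≤ 1} \ {0})ᶜ ∈ 𝓝 (0 : C2) :=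
    h1.isClosed.isOpen_compl.mem_nhds fun h => h.2 rfl
  obtain ⟨ε, hε, hsub⟩ := Metric.mem_nhds_iff.1 h2
  refine ⟨min ε 1, lt_min hε one_pos, fun x hx hn => ?_⟩
  by_contra h0
  refine hsub ?_ ⟨⟨hx, (hn.trans_le (min_le_right _ _)).le⟩, h0⟩
  rw [mem_ball, dist_zero_right]
  exact hn.trans_le (min_le_left _ _)

/-- The lattice is closed. -/
theorem RestL_isClosed : IsClosed (S.Lat : Set C2) := by
  rw [← isOpen_compl_iff, isOpen_iff_mem_nhds]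
  intro z hz
  have h1 : ({x : C2 | x ∈ S.Lat ∧ ‖x‖ ≤ ‖z‖ + 1})ᶜ ∈ 𝓝 z :=
    (S.RestL_finite (‖z‖ + 1)).isClosed.isOpen_compl.mem_nhds fun h => hz h.1
  filter_upwards [h1, ball_mem_nhds z one_pos] with w hw hwb hL
  refine hw ⟨hL, ?_⟩
  rw [mem_ball, dist_eq_norm] at hwb
  have h2 : ‖w‖ ≤ ‖w - z‖ + ‖z‖ := by
    calc ‖w‖ = ‖w - z + z‖ := by rw [sub_add_cancel]
      _ ≤ _ := norm_add_le _ _
  linarith

/-- A compact set that meets every class modulo the lattice. -/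
theorem RestL_fund : ∃ K : Set C2, IsCompact K ∧ ∀ z : C2, ∃ x ∈ S.Lat, z - x ∈ K := by
  set Φ : (Fin 2 → ℝ) × (Fin 2 → ℝ) → C2 := fun w i =>
    (S.τ i 0 * w.1 0 + S.τ i 1 * w.1 1) + (![(w.2 0 : ℂ), (S.d : ℂ) * w.2 1] : C2) i with hΦ
  have hΦc : Continuous Φ := by
    refine continuous_pi fun i => ?_
    fin_cases i
    · show Continuous fun w : (Fin 2 → ℝ) × (Fin 2 → ℝ) =>
        (S.τ 0 0 * (w.1 0 : ℂ) + S.τ 0 1 * (w.1 1 : ℂ)) + (w.2 0 : ℂ)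
      fun_prop
    · show Continuous fun w : (Fin 2 → ℝ) × (Fin 2 → ℝ) =>
        (S.τ 1 0 * (w.1 0 : ℂ) + S.τ 1 1 * (w.1 1 : ℂ)) + (S.d : ℂ) * (w.2 1 : ℂ)
      fun_prop
  have hK : IsCompact (Φ '' (Icc 0 1 ×ˢ Icc 0 1)) :=
    (isCompact_Icc.prod isCompact_Icc).image hΦc
  refine ⟨_, hK, fun z => ?_⟩
  obtain ⟨ξ, η, hz⟩ := S.exists_real_coords z
  set p : Z2 := fun i => ⌊ξ i⌋ with hp
  set q : Z2 := fun i => ⌊η i⌋ with hq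
  set w : (Fin 2 → ℝ) × (Fin 2 → ℝ) := (fun i => ξ i - p i, fun i => η i - q i) with hw
  have hwz : z - (S.tv p + S.dv q) = Φ w := by
    rw [sub_eq_iff_eq_add, hz]
    funext i
    fin_cases i
    · show (S.τ 0 0 * (ξ 0 : ℂ) + S.τ 0 1 * (ξ 1 : ℂ)) + (η 0 : ℂ) =
        ((S.τ 0 0 * ((ξ 0 - p 0 : ℝ) : ℂ) + S.τ 0 1 * ((ξ 1 - p 1 : ℝ) : ℂ)) +
          ((η 0 - q 0 : ℝ) : ℂ)) + ((S.τ 0 0 * (p 0 : ℂ) + S.τ 0 1 * (p 1 : ℂ)) + (q 0 : ℂ))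
      push_cast
      ring
    · show (S.τ 1 0 * (ξ 0 : ℂ) + S.τ 1 1 * (ξ 1 : ℂ)) + (S.d : ℂ) * (η 1 : ℂ) =
        ((S.τ 1 0 * ((ξ 0 - p 0 : ℝ) : ℂ) + S.τ 1 1 * ((ξ 1 - p 1 : ℝ) : ℂ)) +
          (S.d : ℂ) * ((η 1 - q 1 : ℝ) : ℂ)) + ((S.τ 1 0 * (p 0 : ℂ) + S.τ 1 1 * (p 1 : ℂ)) +
          (S.d : ℂ) * (q 1 : ℂ))
      push_cast
      ring
  have hw1 : w ∈ (Icc 0 1 ×ˢ Icc 0 1 : Set ((Fin 2 → ℝ) × (Fin 2 → ℝ))) := by
    refine ⟨⟨fun i => ?_, fun i => ?_⟩, ⟨fun i => ?_, fun i => ?_⟩⟩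
    · exact sub_nonneg.2 (Int.floor_le (ξ i))
    · exact (sub_lt_iff_lt_add'.2 (Int.lt_floor_add_one (ξ i))).le
    · exact sub_nonneg.2 (Int.floor_le (η i))
    · exact (sub_lt_iff_lt_add'.2 (Int.lt_floor_add_one (η i))).le
  exact ⟨_, ⟨p, q, rfl⟩, hwz ▸ ⟨w, hw1, rfl⟩⟩

end PerData

end Q2T
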