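import Pool.Agent.H.MP_89f84f_ag.q2.Mini
import Pool.Agent.H.MP_89f84f_ag.q2.RestL

set_option autoImplicit false

open Complex Topology Filter Asymptotics Metric Set Module

namespace Q2T

private theorem rest_pick {Z : Set C2} (hZ : Z.Infinite) (k : ℕ) :
    ∃ z : Fin k → C2, (∀ i, z i ∈ Z ∧ z i ≠ 0) ∧ ∀ i j, i ≠ j → z i ≠ z j ∧ z i ≠ -z j := by
  induction k with
  | zero => exact ⟨fun i => i.elim0, fun i => i.elim0, fun i => i.elim0⟩
  | succ k ih =>
    obtain ⟨z, hz1, hz2⟩ := ih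
    have hfin : ({0} ∪ Set.range z ∪ Set.range fun i => -z i : Set C2).Finite :=
      ((Set.finite_singleton 0).union (Set.finite_range z)).union (Set.finite_range _)
    obtain ⟨w, hw, hw'⟩ := (hZ.sdiff hfin).nonempty
    have w0 : w ≠ 0 := fun h => hw' (Or.inl (Or.inl h))
    have w1 : ∀ i, w ≠ z i := fun i h => hw' (Or.inl (Or.inr ⟨i, h.symm⟩))
    have w2 : ∀ i, w ≠ -z i := fun i h => hw' (Or.inr ⟨i, h.symm⟩)
    refine ⟨Fin.cons w z, fun i => ?_, fun i j => ?_⟩
    · refine Fin.cases ?_ (fun i => ?_) i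
      · rw [Fin.cons_zero]
        exact ⟨hw, w0⟩
      · rw [Fin.cons_succ]
        exact hz1 i
    · refine Fin.cases ?_ (fun i => ?_) i
      · refine Fin.cases ?_ (fun j => ?_) j
        · intro h
          exact absurd rfl h
        · intro _
          rw [Fin.cons_zero, Fin.cons_succ]
          exact ⟨w1 j, w2 j⟩
      · refine Fin.cases ?_ (fun j => ?_) j
        · intro _
          rw [Fin.cons_zero, Fin.cons_succ]
          refine ⟨fun h => w1 i h.symm, fun h => w2 i ?_⟩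
          rw [h, neg_neg]
        · intro h
          rw [Fin.cons_succ, Fin.cons_succ]
          exact hz2 i j fun h' => h (by rw [h'])

namespace PerData

variable (S : PerData)

/-- zeros of `s`, such that `0, z i, - z i` are pairwise different modulo the lattice -/
def GoodZ (s : C2 → ℂ) {k : ℕ} (z : Fin k → C2) : Prop :=
  (∀ i, s (z i) = 0) ∧ (∀ i, (2 : ℂ) • z i ∉ S.Lat) ∧ ∀ i j, i ≠ j → z i - z j ∉ S.Lat ∧ z i + z j ∉ S.Lat

/-- Supply of zeros.
PROOF: take a ball of radius `r` around `0` with `Lat ∩ ball 0 (4 r) = {0}`; it contains infinitely many zeros of `s`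
(`infinite_zeros`), so `k` of them, nonzero, with `z i ≠ ± z j`. -/
theorem exists_goodZ {s : C2 → ℂ} (hs : Differentiable ℂ s) (h0 : s 0 = 0) (k : ℕ) :
    ∃ z : Fin k → C2, S.GoodZ s z := by
  obtain ⟨r, hr, hL⟩ := S.RestL_discrete
  have hr2 : 0 < r / 2 := by linarith
  have hinf := infinite_zeros hr2 (F := s) (p := 0) hs.differentiableOn h0
  obtain ⟨z, hz1, hz2⟩ := rest_pick hinf k
  have hn : ∀ i, ‖z i‖ < r / 2 := by
    intro i
    have h1 := (hz1 i).1.1
    rwa [mem_ball, dist_zero_right] at h1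
  refine ⟨z, fun i => (hz1 i).1.2, fun i h => ?_, fun i j hij => ⟨fun h => ?_, fun h => ?_⟩⟩
  · have h1 : ‖(2 : ℂ) • z i‖ < r := by
      rw [norm_smul]
      have h2 : ‖(2 : ℂ)‖ = 2 := by simp
      rw [h2]
      linarith [hn i]
    have h2 := hL _ h h1
    exact (hz1 i).2 ((smul_eq_zero.1 h2).resolve_left two_ne_zero)
  · have h1 : ‖z i - z j‖ < r := by
      have := norm_sub_le (z i) (z j)
      linarith [hn i, hn j]
    exact (hz2 i j hij).1 (sub_eq_zero.1 (hL _ h h1))
  · have h1 : ‖z i + z j‖ < r := by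
      have := norm_add_le (z i) (z j)
      linarith [hn i, hn j]
    exact (hz2 i j hij).2 (eq_neg_of_add_eq_zero_left (hL _ h h1))

/-- Bezout with pairs of zeros: too many zeros force divisibility.
PROOF: if `f ≠ 0` is not a multiple of `s`, then `Copr s f`, and `bezout` at the `2 k + 1` points `0, z i, - z i`
(orders `m, Y` at `0` and `≥ 1, ≥ 1` at the others; `s, f` have parities) gives `m Y + 2 k ≤ 2 d u n`. -/
theorem mult_of_zeros {u n : ℤ} {α β : Fin 2 → ℝ} {s f : C2 → ℂ} {ε ε' : ℂ} {m Y k : ℕ} (hu : 1 ≤ u)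
    (hn : 1 ≤ n) (hs : s ∈ S.Th u α β) (hs0 : s ≠ 0) (hD : S.Dich s) (hsp : s ∈ Par ε) (hm : s ∈ Van m 0)
    (hf : f ∈ S.Th n 0 0) (hfp : f ∈ Par ε') (hfY : f ∈ Van Y 0) {z : Fin k → C2} (hz : S.GoodZ s z)
    (hfz : ∀ i, f (z i) = 0) (h : 2 * (S.d : ℤ) * u * n < m * Y + 2 * k) : f ∈ Mult s := by
  by_cases hf0 : f = 0
  · rw [hf0]
    exact Submodule.zero_mem _
  rcases hD n 0 0 f hf hf0 with h1 | h1
  · exact h1
  exfalso
  obtain ⟨hz1, hz2, hz3⟩ := hz
  have hz0 : ∀ i, z i ∉ S.Lat := by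
    intro i hi
    apply hz2 i
    rw [two_smul]
    exact S.Lat.add_mem hi hi
  -- the points
  let y : Fin (k + k) → C2 := Fin.append z fun i => -z i
  have hyl : ∀ i, y (Fin.castAdd k i) = z i := fun i => Fin.append_left _ _ i
  have hyr : ∀ i, y (Fin.natAdd k i) = -z i := fun i => Fin.append_right _ _ i
  have hy0 : ∀ i, y i ∉ S.Lat := by
    intro i
    refine Fin.addCases (fun i => ?_) (fun i => ?_) i
    · rw [hyl]
      exact hz0 i
    · rw [hyr]
      intro h2
      exact hz0 i (by simpa using S.Lat.neg_mem h2)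
  have hyy : ∀ i j, i ≠ j → y i - y j ∉ S.Lat := by
    intro i j
    refine Fin.addCases (fun i => ?_) (fun i => ?_) i
    · refine Fin.addCases (fun j => ?_) (fun j => ?_) j
      · intro hij
        rw [hyl, hyl]
        exact (hz3 i j fun h' => hij (by rw [h'])).1
      · intro _
        rw [hyl, hyr, sub_neg_eq_add]
        by_cases hij : i = j
        · rw [hij, ← two_smul ℂ]
          exact hz2 j
        · exact (hz3 i j hij).2
    · refine Fin.addCases (fun j => ?_) (fun j => ?_) j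
      · intro _ h2
        rw [hyl, hyr] at h2
        have h3 := S.Lat.neg_mem h2
        rw [neg_sub, sub_neg_eq_add] at h3
        by_cases hij : j = i
        · rw [hij, ← two_smul ℂ] at h3
          exact hz2 i h3
        · exact (hz3 j i hij).2 h3
      · intro hij h2
        rw [hyr, hyr] at h2
        have h3 := S.Lat.neg_mem h2
        have h4 : -(-z i - -z j) = z i - z j := by abel
        rw [h4] at h3
        exact (hz3 i j fun h' => hij (by rw [h'])).1 h3
  have hsy : ∀ i, s (y i) = 0 := by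
    intro i
    refine Fin.addCases (fun i => ?_) (fun i => ?_) i
    · rw [hyl]
      exact hz1 i
    · rw [hyr, hsp (z i), hz1 i, mul_zero]
  have hfy : ∀ i, f (y i) = 0 := by
    intro i
    refine Fin.addCases (fun i => ?_) (fun i => ?_) i
    · rw [hyl]
      exact hfz i
    · rw [hyr, hfp (z i), hfz i, mul_zero]
  have key := S.bezout hu hn hs hf hs0 hf0 h1 (Fin.cons (0 : C2) y : Fin (k + k + 1) → C2)
    (fun i j => by
      refine Fin.cases ?_ (fun i => ?_) i
      · refine Fin.cases ?_ (fun j => ?_) j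
        · intro h'
          exact absurd rfl h'
        · intro _ h2
          rw [Fin.cons_zero, Fin.cons_succ, zero_sub] at h2
          exact hy0 j (by simpa using S.Lat.neg_mem h2)
      · refine Fin.cases ?_ (fun j => ?_) j
        · intro _ h2
          rw [Fin.cons_zero, Fin.cons_succ, sub_zero] at h2
          exact hy0 i h2
        · intro h'
          rw [Fin.cons_succ, Fin.cons_succ]
          exact hyy i j fun h'' => h' (by rw [h'']))
    (Fin.cons m fun _ => 1 : Fin (k + k + 1) → ℕ) (Fin.cons Y fun _ => 1 : Fin (k + k + 1) → ℕ)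
    (fun i => by
      refine Fin.cases ?_ (fun i => ?_) i
      · rw [Fin.cons_zero, Fin.cons_zero]
        exact hm
      · rw [Fin.cons_succ, Fin.cons_succ]
        exact (van_one_iff hs.1 _).2 (hsy i))
    (fun i => by
      refine Fin.cases ?_ (fun i => ?_) i
      · rw [Fin.cons_zero, Fin.cons_zero]
        exact hfY
      · rw [Fin.cons_succ, Fin.cons_succ]
        exact (van_one_iff hf.1 _).2 (hfy i))
  rw [Fin.sum_univ_succ] at key
  simp only [Fin.cons_zero, Fin.cons_succ, mul_one, Finset.sum_const, Finset.card_univ,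
    Fintype.card_fin, smul_eq_mul] at key
  push_cast at key
  linarith

/-- Restriction to the zeros of `s`.
PROOF: `exists_goodZ`, `finrank_le_points` and `mult_of_zeros`. -/
theorem finrank_restrict {u n : ℤ} {α β : Fin 2 → ℝ} {s : C2 → ℂ} {ε ε' : ℂ} {m Y : ℕ} (hu : 1 ≤ u)
    (hn : 1 ≤ n) (hs : s ∈ S.Th u α β) (hs0 : s ≠ 0) (hD : S.Dich s) (hsp : s ∈ Par ε) (hm : s ∈ Van m 0)
    (hm1 : 1 ≤ m) (G : Submodule ℂ (C2 → ℂ)) (hG : G ≤ S.Th n 0 0 ⊓ Par ε' ⊓ Van Y 0) (k : ℕ)
    (h : 2 * (S.d : ℤ) * u * n < m * Y + 2 * k) :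
    finrank ℂ G ≤ finrank ℂ (G ⊓ Mult s : Submodule ℂ (C2 → ℂ)) + k := by
  have hfT : FiniteDimensional ℂ (S.Th n 0 0) := S.finite_th _ _ _
  have hGT : G ≤ S.Th n 0 0 := hG.trans (inf_le_left.trans inf_le_left)
  have hfG : FiniteDimensional ℂ G := Submodule.finiteDimensional_of_le hGT
  have hfG' : FiniteDimensional ℂ (G ⊓ Mult s : Submodule ℂ (C2 → ℂ)) :=
    Submodule.finiteDimensional_of_le inf_le_left
  obtain ⟨z, hz⟩ := S.exists_goodZ hs.1 ((van_one_iff hs.1 0).1 (van_mono hm1 0 hm)) k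
  obtain ⟨W', hW1, hW2, hW3⟩ := finrank_le_points G z
  refine hW2.trans (Nat.add_le_add_right ?_ k)
  refine Submodule.finrank_mono fun f hf => ⟨hW1 hf, ?_⟩
  have hfG := hG (hW1 hf)
  exact S.mult_of_zeros hu hn hs hs0 hD hsp hm hfG.1.1 hfG.1.2 hfG.2 hz (hW3 f hf) h

/-- Multiples of `s` of given level, parity and order.
PROOF: `f = s h`, `h` in `Th (n - u) (-α) (-β)` (`th_quot`), of parity `ε' ε` (`ent_cancel`), of order `≥ Y - m` (`van_cancel`);
`f ↦ h` is linear and injective. -/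
theorem finrank_mult_le {u n : ℤ} {α β : Fin 2 → ℝ} {s : C2 → ℂ} {ε ε' : ℂ} {m Y : ℕ}
    (hs : s ∈ S.Th u α β) (hs0 : s ≠ 0) (hsp : s ∈ Par ε) (hε : ε = 1 ∨ ε = -1)
    (hm' : s ∉ Van (m + 1) 0) (hY : m ≤ Y) :
    finrank ℂ ((S.Th n 0 0 ⊓ Par ε' ⊓ Van Y 0) ⊓ Mult s : Submodule ℂ (C2 → ℂ)) ≤
      finrank ℂ (S.Th (n - u) (-α) (-β) ⊓ Par (ε' * ε) ⊓ Van (Y - m) 0 : Submodule ℂ (C2 → ℂ)) := by
  have hfT : FiniteDimensional ℂ (S.Th (n - u) (-α) (-β)) := S.finite_th _ _ _
  have hfT' : FiniteDimensional ℂ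
      (S.Th (n - u) (-α) (-β) ⊓ Par (ε' * ε) ⊓ Van (Y - m) 0 : Submodule ℂ (C2 → ℂ)) :=
    Submodule.finiteDimensional_of_le (inf_le_left.trans inf_le_left)
  refine le_trans ?_ (Submodule.finrank_map_le (LinearMap.mulLeft ℂ s)
    (S.Th (n - u) (-α) (-β) ⊓ Par (ε' * ε) ⊓ Van (Y - m) 0))
  refine Submodule.finrank_mono ?_
  rintro f ⟨⟨⟨hfT, hfp⟩, hfV⟩, h, hh, rfl⟩
  refine ⟨h, ⟨⟨?_, ?_⟩, ?_⟩, rfl⟩
  · have h1 := S.th_quot hs hs0 hfT hh rfl
    rwa [zero_sub, zero_sub] at h1
  · have hε2 : ε * ε = 1 := by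
      rcases hε with h1 | h1 <;> rw [h1] <;> norm_num
    have h1 : (fun z => h (-z)) = (ε' * ε) • h := by
      refine ent_cancel hs.1 hs0 (hh.comp differentiable_id.neg) (hh.const_smul _) ?_
      funext z
      have h2 : s (-z) * h (-z) = ε' * (s z * h z) := hfp z
      rw [hsp z] at h2
      show s z * h (-z) = s z * (ε' * ε * h z)
      linear_combination ε * h2 - s z * h (-z) * hε2
    intro z
    exact congrFun h1 z
  · refine van_cancel hs.1 hh (i := m) hm' ?_
    rw [Nat.add_sub_cancel' hY]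
    exact hfV

end PerData

end Q2T
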