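import Pool.Agent.H.MP_89f84f_ag.q2.Val
import Pool.Agent.H.MP_89f84f_ag.q2.Fld
import Pool.Agent.H.MP_89f84f_ag.P12Spec

set_option autoImplicit false

open Complex Topology Filter Asymptotics Metric Set Module Polynomial

namespace Q2T

namespace KForm

variable {S : PerData} {k : Subfield ℂ} [NumberField k] (K : KForm S k)

omit [NumberField k] in
private theorem Sqr_pow_mem {m : ℕ} {h : C2 → ℂ} (hh : h ∈ K.R m) (n : ℕ) :
    h ^ (n + 1) ∈ K.R ((n + 1) * m) := by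
  induction n with
  | zero => simpa using hh
  | succ n ih =>
    have h1 := K.mul _ _ _ _ ih hh
    rw [← pow_succ] at h1
    have e : (n + 1) * m + m = (n + 1 + 1) * m := by ring
    rwa [e] at h1

private theorem Sqr_van_pow {N : ℕ} {p : C2} {f : C2 → ℂ} (hf : f ∈ Van N p) (n : ℕ) :
    f ^ n ∈ Van (n * N) p := by
  induction n with
  | zero =>
    rw [pow_zero, zero_mul]
    exact van_zero (f := 1) continuous_const p
  | succ n ih =>
    rw [pow_succ, Nat.succ_mul]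
    exact van_mul ih hf

private theorem Sqr_par_pow {f : C2 → ℂ} (hf : f ∈ Par 1) (n : ℕ) : f ^ n ∈ Par 1 := by
  intro z
  simp only [Pi.pow_apply, hf z, one_mul]

private theorem Sqr_th_pow {u : ℤ} {f : C2 → ℂ} (hf : f ∈ S.Th u 0 0) (n : ℕ) :
    f ^ n ∈ S.Th (n * u) 0 0 := by
  induction n with
  | zero =>
    rw [pow_zero, Nat.cast_zero, zero_mul]
    exact S.th_one
  | succ n ih =>
    have h1 := S.th_mul ih hf
    rw [add_zero, ← pow_succ] at h1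
    have e : (n : ℤ) * u + u = ((n + 1 : ℕ) : ℤ) * u := by push_cast; ring
    rwa [e] at h1

/-- Different attained values are attained at points incongruent modulo the lattice. -/
private theorem Sqr_incongr {a b x y : ℕ} {s t₁ t₂ : C2 → ℂ} (P : S.Pen a b x y s t₁ t₂) {c c' : ℂ}
    {Q Q' : C2} (h : S.At s t₁ t₂ c Q) (h' : S.At s t₁ t₂ c' Q') (hc : c ≠ c') : Q - Q' ∉ S.Lat := by
  rintro ⟨p, q, hpq⟩
  have e : Q = Q' + S.tv p + S.dv q := by
    rw [add_assoc, ← hpq]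
    abel
  have e1 := P.m₁.2 p q Q'
  have e2 := P.m₂.2 p q Q'
  rw [← e] at e1 e2
  have hJ := S.J_ne_zero (2 * x) 0 0 p q Q'
  obtain ⟨-, -, h3, h4⟩ := h
  obtain ⟨-, -, h3', h4'⟩ := h'
  apply hc
  have e3 : c * (S.J (2 * x) 0 0 p q Q' * t₂ Q') = c' * (S.J (2 * x) 0 0 p q Q' * t₂ Q') := by
    rw [← e2, ← h4, e1, h4', e2]
    ring
  exact mul_right_cancel₀ (mul_ne_zero hJ h3') e3

/-- A theta function vanishing at points with infinitely many parameters is a multiple of `s`. -/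
private theorem Sqr_mult {a b x y : ℕ} {s t₁ t₂ : C2 → ℂ} (P : S.Pen a b x y s t₁ t₂) {v : ℤ}
    {α' β' : Fin 2 → ℝ} {f : C2 → ℂ} (hf : f ∈ S.Th v α' β')
    (h : {c : ℂ | ∃ Q, S.At s t₁ t₂ c Q ∧ f Q = 0}.Infinite) : f ∈ Mult s := by
  refine P.cur.mult_of_many hf fun n => ?_
  set e := h.natEmbedding with he
  have hc : ∀ i : Fin n, ∃ Q, S.At s t₁ t₂ ((e (i : ℕ)).1) Q ∧ f Q = 0 := fun i => (e (i : ℕ)).2
  choose z hz using hc
  refine ⟨z, fun i => ⟨(hz i).1.2.1, (hz i).2⟩, fun i j hij => ?_⟩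
  refine Sqr_incongr P (hz i).1 (hz j).1 fun h1 => hij ?_
  have h2 := e.injective (Subtype.ext h1)
  exact Fin.ext h2

private theorem Sqr_pow_mult {a b : ℕ} {s : C2 → ℂ} (C : S.Curve a b s) {u : ℤ} {h : C2 → ℂ}
    (hh : h ∈ S.Th u 0 0) (hn : h ∉ Mult s) (n : ℕ) (h1 : (1 : C2 → ℂ) ∉ Mult s) : h ^ n ∉ Mult s := by
  induction n with
  | zero => rwa [pow_zero]
  | succ n ih =>
    rw [pow_succ]
    intro h2
    rcases C.prime (Sqr_th_pow hh n) hh h2 with h3 | h3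
    · exact ih h3
    · exact hn h3

private theorem Sqr_odd_part {s A R : C2 → ℂ} (hs : s ∈ Par 1) (hA : A ∈ Par (-1)) (hR : R ∈ Par 1)
    (h : A + R ∈ Mult s) : A ∈ Mult s := by
  obtain ⟨g, hg, e⟩ := h
  refine ⟨fun z => (g z - g (-z)) / 2, ?_, ?_⟩
  · have h1 : Differentiable ℂ fun z : C2 => g z - g (-z) := hg.sub (hg.comp differentiable_id.neg)
    have h2 : Differentiable ℂ fun z : C2 => (g z - g (-z)) * (2⁻¹ : ℂ) := h1.mul_const 2⁻¹
    have e : (fun z : C2 => (g z - g (-z)) / 2) = fun z : C2 => (g z - g (-z)) * (2⁻¹ : ℂ) := by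
      funext z
      rw [div_eq_mul_inv]
    rw [e]
    exact h2
  · funext z
    have e1 : A z + R z = s z * g z := congrFun e z
    have e2 : A (-z) + R (-z) = s (-z) * g (-z) := congrFun e (-z)
    rw [hA z, hR z, hs z] at e2
    show A z = s z * ((g z - g (-z)) / 2)
    linear_combination (1 / 2 : ℂ) * e1 - (1 / 2 : ℂ) * e2

/-- The form with coefficients of `r`. -/
private noncomputable def SqrForm (r : k[X]) (n : ℕ) (t₁ t₂ : C2 → ℂ) : C2 → ℂ :=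
  ∑ i ∈ Finset.range (n + 1), ((r.coeff i : k) : ℂ) • (t₁ ^ i * t₂ ^ (n - i))

omit [NumberField k] in
private theorem SqrForm_eval {r : k[X]} {n : ℕ} (hr : r.natDegree ≤ n) {t₁ t₂ : C2 → ℂ} {c : ℂ} {Q : C2}
    (h : t₁ Q = c * t₂ Q) : SqrForm r n t₁ t₂ Q = t₂ Q ^ n * (r.map k.subtype).eval c := by
  rw [Polynomial.eval_map, Polynomial.eval₂_eq_sum_range' _ (Nat.lt_succ_of_le hr), Finset.mul_sum]
  unfold SqrForm
  rw [Finset.sum_apply]
  refine Finset.sum_congr rfl fun i hi => ?_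
  have hi' : i ≤ n := Nat.le_of_lt_succ (Finset.mem_range.1 hi)
  simp only [Pi.smul_apply, Pi.mul_apply, Pi.pow_apply, smul_eq_mul, h, mul_pow, Subfield.subtype_apply]
  have e : t₂ Q ^ n = t₂ Q ^ i * t₂ Q ^ (n - i) := by rw [← pow_add, Nat.add_sub_cancel' hi']
  rw [e]
  ring

omit [NumberField k] in
private theorem SqrForm_mem {r : k[X]} {n : ℕ} {u : ℤ} {t₁ t₂ : C2 → ℂ} (h₁ : t₁ ∈ S.Th u 0 0)
    (h₂ : t₂ ∈ S.Th u 0 0) : SqrForm r n t₁ t₂ ∈ S.Th (n * u) 0 0 := by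
  refine Submodule.sum_mem _ fun i hi => Submodule.smul_mem _ _ ?_
  have hi' : i ≤ n := Nat.le_of_lt_succ (Finset.mem_range.1 hi)
  have h3 := S.th_mul (Sqr_th_pow h₁ i) (Sqr_th_pow h₂ (n - i))
  rw [add_zero] at h3
  have e : (i : ℤ) * u + ((n - i : ℕ) : ℤ) * u = (n : ℤ) * u := by
    rw [← add_mul, ← Nat.cast_add, Nat.add_sub_cancel' hi']
  rwa [e] at h3

omit [NumberField k] in
private theorem SqrForm_par {r : k[X]} {n : ℕ} (hn : Even n) {t₁ t₂ : C2 → ℂ} (h₁ : t₁ ∈ Par (-1))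
    (h₂ : t₂ ∈ Par (-1)) : SqrForm r n t₁ t₂ ∈ Par 1 := by
  refine Submodule.sum_mem _ fun i hi => Submodule.smul_mem _ _ fun z => ?_
  have hi' : i ≤ n := Nat.le_of_lt_succ (Finset.mem_range.1 hi)
  simp only [Pi.mul_apply, Pi.pow_apply, h₁ z, h₂ z, mul_pow]
  have e : (-1 : ℂ) ^ i * (-1 : ℂ) ^ (n - i) = 1 := by
    rw [← pow_add, Nat.add_sub_cancel' hi', hn.neg_one_pow]
  linear_combination (t₁ z ^ i * t₂ z ^ (n - i)) * e

/-- Infinitely many parameters give points of degree two.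
PROOF: `g₀ ∈ R x` even with `g₀ 0 ≠ 0` (so not a multiple of `s`, `s 0 = 0`), `h ∈ R (2 l x - 1)` as in `exists_evK`.  `F = t₁² h^(2x)`,
`G = g₀² h^(2x)` are in `R (2 (2 l x) x)`, even, of order `≥ 2 (2 l x) y`, not multiples of `s`; `p, q ∈ k[X]` from `exists_poly` with `l' = 2 l x`.
For attained `c ∈ k`, `Q` (outside finitely many `c`: `Pen.cofinite`, `exists_evK`, `h Q ≠ 0`, `g₀ Q ≠ 0`), `(t₁ Q / g₀ Q)² = p(c) / q(c)`; if
`t₁ Q / g₀ Q ∈ k` then `p(c) q(c)` is a square in `k`.  If `p q` is not a square in `k[X]`, `spec` (file P12Spec) gives infinitely many `c ∈ k`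
with `p(c) q(c)` not a square: done (`Half Q`).  If `p q = r²`, `natDegree r ≤ 2 l'`: put `R = ∑ r_i t₁^i t₂^(2 l' - i)` (even), `A = t₁ g₀ h^(2x)`
(odd), both of level `4 l' x`.  At all attained points `(A - R)(A + R) = F G - R² = 0`, so `(A - R)(A + R) ∈ Mult s` (`mult_of_many`), so one factor
is in `Mult s` (`Curve.prime`), and so is its odd part `± A` (`s` is even), hence `t₁`, `g₀` or `h`: contradiction. -/
theorem infinite_half {a b x y : ℕ} {s t₁ t₂ : C2 → ℂ} (P : S.Pen a b x y s t₁ t₂) (hs : s ∈ K.R a)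
    (h₁ : t₁ ∈ K.R x) (h₂ : t₂ ∈ K.R x)
    (hw : ∃ w : C2 → ℂ, w ∈ S.Th (2 * (2 * x + a)) 0 0 ∧ w ∈ Par 1 ∧ w ∈ Van (2 * y + 2 * b) 0 ∧ w ∉ Mult s) :
    {c : ℂ | c ∈ k ∧ ∃ Q, S.At s t₁ t₂ c Q ∧ K.Half Q}.Infinite := by
  classical
  obtain ⟨hx, hs0, -⟩ := P.x_pos
  have C := P.cur
  -- the even function `g₀`
  obtain ⟨g₀, hg₀W, hg₀R, hg₀0⟩ : ∃ t : C2 → ℂ, t ∈ (S.Th (2 * x) 0 0 ⊓ Par 1 : Submodule ℂ (C2 → ℂ)) ∧
      t ∈ K.R x ∧ t ∉ LinearMap.ker (LinearMap.proj (0 : C2) : (C2 → ℂ) →ₗ[ℂ] ℂ) := by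
    refine K.exists_one (K.rat_par x (Or.inl rfl)) fun hle => ?_
    obtain ⟨f, hf, hf0⟩ := S.exists_even_ne_zero (x := (x : ℤ)) (by exact_mod_cast hx) 0
    exact hf0 (hle hf)
  have hg₀0' : g₀ 0 ≠ 0 := fun h => hg₀0 h
  have hg₀m : g₀ ∉ Mult s := by
    rintro ⟨u, -, hu⟩
    apply hg₀0'
    rw [hu]
    show s 0 * u 0 = 0
    rw [hs0, zero_mul]
  have h1m : (1 : C2 → ℂ) ∉ Mult s := by
    rintro ⟨u, -, hu⟩
    have h1 : (1 : C2 → ℂ) 0 = s 0 * u 0 := congrFun hu 0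
    rw [hs0, zero_mul] at h1
    exact one_ne_zero h1
  -- the factor `h`
  obtain ⟨l, h₀, hl, hlx, hh₀, hh₀p, hh₀v, hh₀m⟩ := P.exists_h hw 1 le_rfl
  obtain ⟨h, hhW, hhR, hhm⟩ : ∃ t : C2 → ℂ,
      t ∈ (S.Th (2 * ((2 * l * x - 1 : ℕ) : ℤ)) 0 0 ⊓ Par 1 ⊓ Van (2 * l * y) 0 : Submodule ℂ (C2 → ℂ)) ∧
      t ∈ K.R (2 * l * x - 1) ∧ t ∉ Mult s := by
    refine K.exists_one (K.rat_par_van (2 * l * x - 1) (2 * l * y) (Or.inl rfl)) fun hle => ?_
    refine hh₀m (hle ⟨⟨?_, hh₀p⟩, hh₀v⟩)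
    have e : (2 : ℤ) * ((2 * l * x - 1 : ℕ) : ℤ) = 2 * (2 * l * x - (1 : ℕ)) := by
      rw [Nat.cast_sub hlx]
      push_cast
      ring
    rw [e]
    exact hh₀
  obtain ⟨⟨hhT, hhp⟩, hhv⟩ := hhW
  obtain ⟨hg₀T, hg₀p⟩ := hg₀W
  obtain ⟨x', rfl⟩ : ∃ x', x = x' + 1 := ⟨x - 1, by omega⟩
  set m := 2 * l * (x' + 1) - 1 with hm
  have hm1 : m + 1 = 2 * l * (x' + 1) := by omega
  set H : C2 → ℂ := h ^ (2 * x' + 1 + 1) with hH
  have hHR : H ∈ K.R ((2 * x' + 1 + 1) * m) := K.Sqr_pow_mem hhR _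
  have hHp : H ∈ Par 1 := Sqr_par_pow hhp _
  have hHv : H ∈ Van (2 * (2 * l * (x' + 1)) * y) 0 := by
    have h1 := Sqr_van_pow hhv (2 * x' + 1 + 1)
    have e : (2 * x' + 1 + 1) * (2 * l * y) = 2 * (2 * l * (x' + 1)) * y := by ring
    rwa [e] at h1
  have hHm : H ∉ Mult s := Sqr_pow_mult C hhT hhm _ h1m
  have hHT : H ∈ S.Th (((2 * x' + 1 + 1 : ℕ) : ℤ) * (2 * (m : ℤ))) 0 0 := Sqr_th_pow hhT _
  set l' := 2 * l * (x' + 1) with hl'
  have hl'1 : 1 ≤ l' := by rw [← hm1]; omega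
  have elev : (x' + 1) + (x' + 1) + (2 * x' + 1 + 1) * m = 2 * l' * (x' + 1) := by
    rw [← hm1]; ring
  -- `F` and `G`
  have hFR : t₁ * t₁ * H ∈ K.R (2 * l' * (x' + 1)) := by
    have h1 := K.mul _ _ _ _ (K.mul _ _ _ _ h₁ h₁) hHR
    rwa [elev] at h1
  have hGR : g₀ * g₀ * H ∈ K.R (2 * l' * (x' + 1)) := by
    have h1 := K.mul _ _ _ _ (K.mul _ _ _ _ hg₀R hg₀R) hHR
    rwa [elev] at h1
  have hFp : t₁ * t₁ * H ∈ Par 1 := by
    intro z
    simp only [Pi.mul_apply, P.p₁ z, hHp z]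
    ring
  have hGp : g₀ * g₀ * H ∈ Par 1 := by
    intro z
    simp only [Pi.mul_apply, hg₀p z, hHp z]
    ring
  have hFv : t₁ * t₁ * H ∈ Van (2 * l' * y) 0 := by
    have h1 := van_mul (van_zero (P.m₁.1.continuous.mul P.m₁.1.continuous) 0) hHv
    rwa [zero_add] at h1
  have hGv : g₀ * g₀ * H ∈ Van (2 * l' * y) 0 := by
    have h1 := van_mul (van_zero (hg₀T.1.continuous.mul hg₀T.1.continuous) 0) hHv
    rwa [zero_add] at h1
  obtain ⟨p, hpd, -, hpe⟩ := K.exists_poly P hs h₁ h₂ hl'1 hFR hFp hFv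
  obtain ⟨q, hqd, -, hqe⟩ := K.exists_poly P hs h₁ h₂ hl'1 hGR hGp hGv
  have hB₁ := P.cofinite hw
  by_cases hsq : IsSquare (p * q)
  · -- the square case is impossible
    exfalso
    obtain ⟨r, hr⟩ := hsq
    have hrd : r.natDegree ≤ 2 * l' := by
      by_cases hr0 : r = 0
      · rw [hr0, natDegree_zero]
        exact Nat.zero_le _
      · have h1 : (r * r).natDegree = r.natDegree + r.natDegree := natDegree_mul hr0 hr0
        have h2 : (p * q).natDegree ≤ p.natDegree + q.natDegree := natDegree_mul_le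
        rw [hr] at h2
        omega
    set A : C2 → ℂ := t₁ * (g₀ * H) with hA
    set R : C2 → ℂ := SqrForm r (2 * l') t₁ t₂ with hR
    have hAp : A ∈ Par (-1) := by
      intro z
      simp only [hA, Pi.mul_apply, P.p₁ z, hg₀p z, hHp z]
      ring
    have hRp : R ∈ Par 1 := SqrForm_par (even_two_mul l') P.p₁ P.p₂
    have hRT : R ∈ S.Th (((2 * l' : ℕ) : ℤ) * (2 * ((x' + 1 : ℕ) : ℤ))) 0 0 := SqrForm_mem P.m₁ P.m₂
    have hgHT : g₀ * H ∈ S.Th (2 * ((x' + 1 : ℕ) : ℤ) + ((2 * x' + 1 + 1 : ℕ) : ℤ) * (2 * (m : ℤ))) 0 0 := by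
      have h1 := S.th_mul hg₀T hHT
      rwa [add_zero] at h1
    have hAT : A ∈ S.Th (((2 * l' : ℕ) : ℤ) * (2 * ((x' + 1 : ℕ) : ℤ))) 0 0 := by
      have h1 := S.th_mul P.m₁ hgHT
      rw [add_zero] at h1
      have e : (2 : ℤ) * ((x' + 1 : ℕ) : ℤ) + (2 * ((x' + 1 : ℕ) : ℤ) + ((2 * x' + 1 + 1 : ℕ) : ℤ) * (2 * (m : ℤ))) =
          ((2 * l' : ℕ) : ℤ) * (2 * ((x' + 1 : ℕ) : ℤ)) := by
        have e1 := congrArg (fun n : ℕ => (2 : ℤ) * (n : ℤ)) elev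
        simp only [Nat.cast_add, Nat.cast_mul] at e1 ⊢
        push_cast at e1 ⊢
        linear_combination e1
      rwa [e] at h1
    have hprod : (A - R) * (A + R) ∈ Mult s := by
      have hT := S.th_mul (Submodule.sub_mem _ hAT hRT) (Submodule.add_mem _ hAT hRT)
      refine Sqr_mult P hT ?_
      have hsub : {c : ℂ | ¬ ∃ Q, S.At s t₁ t₂ c Q}ᶜ ⊆
          {c : ℂ | ∃ Q, S.At s t₁ t₂ c Q ∧ ((A - R) * (A + R)) Q = 0} := by
        intro c hc
        obtain ⟨Q, hQ⟩ := not_not.1 hc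
        refine ⟨Q, hQ, ?_⟩
        have e1 : t₁ Q * t₁ Q * H Q = t₂ Q ^ (2 * l') * (p.map k.subtype).eval c := hpe c Q hQ
        have e2 : g₀ Q * g₀ Q * H Q = t₂ Q ^ (2 * l') * (q.map k.subtype).eval c := hqe c Q hQ
        have e3 : R Q = t₂ Q ^ (2 * l') * (r.map k.subtype).eval c := SqrForm_eval hrd hQ.2.2.2
        have e4 : (p.map k.subtype).eval c * (q.map k.subtype).eval c =
            (r.map k.subtype).eval c * (r.map k.subtype).eval c := by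
          rw [← eval_mul, ← eval_mul, ← Polynomial.map_mul, ← Polynomial.map_mul, hr]
        show (t₁ Q * (g₀ Q * H Q) - R Q) * (t₁ Q * (g₀ Q * H Q) + R Q) = 0
        rw [e3]
        linear_combination (g₀ Q * g₀ Q * H Q) * e1 + (t₂ Q ^ (2 * l') * (p.map k.subtype).eval c) * e2 +
          (t₂ Q ^ (2 * l') * t₂ Q ^ (2 * l')) * e4
      exact (hB₁.infinite_compl).mono hsub
    have hAm : A ∈ Mult s := by
      rcases C.prime (Submodule.sub_mem _ hAT hRT) (Submodule.add_mem _ hAT hRT) hprod with h1 | h1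
      · refine Sqr_odd_part C.even hAp (Submodule.neg_mem _ hRp) ?_
        rwa [← sub_eq_add_neg]
      · exact Sqr_odd_part C.even hAp hRp h1
    rcases C.prime P.m₁ hgHT hAm with h1 | h1
    · have h2 := P.indep 1 0 (by rw [one_smul, zero_smul, add_zero]; exact h1)
      exact one_ne_zero h2.1
    · rcases C.prime hg₀T hHT h1 with h2 | h2
      · exact hg₀m h2
      · exact hHm h2
  · -- infinitely many values are not squares
    obtain ⟨B₂, hB₂, hev⟩ := K.exists_evK P hs h₁ h₂ hw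
    have hB₃ : {c : ℂ | ∃ Q, S.At s t₁ t₂ c Q ∧ H Q = 0}.Finite := by
      by_contra h1
      exact hHm (Sqr_mult P hHT h1)
    have hB₄ : {c : ℂ | ∃ Q, S.At s t₁ t₂ c Q ∧ g₀ Q = 0}.Finite := by
      by_contra h1
      exact hg₀m (Sqr_mult P hg₀T h1)
    have hspec := P12.spec (p * q) hsq
    rw [Filter.frequently_cofinite_iff_infinite] at hspec
    have hB := ((hB₁.union hB₂).union hB₃).union hB₄
    have hinj : Function.Injective ((↑) : k → ℂ) := Subtype.val_injective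
    have hinf : (((↑) : k → ℂ) '' {t : k | ¬ IsSquare ((p * q).eval t)}).Infinite := hspec.image hinj.injOn
    refine (hinf.sdiff hB).mono ?_
    rintro c ⟨⟨t, ht, rfl⟩, hc⟩
    simp only [Set.mem_union, not_or] at hc
    obtain ⟨⟨⟨hc1, hc2⟩, hc3⟩, hc4⟩ := hc
    obtain ⟨Q, hQ⟩ := not_not.1 hc1
    have hHQ : H Q ≠ 0 := fun h1 => hc3 ⟨Q, hQ, h1⟩
    have hgQ : g₀ Q ≠ 0 := fun h1 => hc4 ⟨Q, hQ, h1⟩
    refine ⟨t.2, Q, hQ, fun m f g hf hg hfp hgp hg0 => hev t t.2 hc2 Q hQ m f g hf hg hfp hgp hg0, ?_⟩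
    refine ⟨x' + 1, t₁, g₀, h₁, hg₀R, P.p₁, hg₀p, hgQ, fun hmem => ht ?_⟩
    have e1 : t₁ Q * t₁ Q * H Q = t₂ Q ^ (2 * l') * (p.map k.subtype).eval (t : ℂ) := hpe t Q hQ
    have e2 : g₀ Q * g₀ Q * H Q = t₂ Q ^ (2 * l') * (q.map k.subtype).eval (t : ℂ) := hqe t Q hQ
    have ep : (p.map k.subtype).eval (t : ℂ) = ((p.eval t : k) : ℂ) := eval_map_apply k.subtype t
    have eq : (q.map k.subtype).eval (t : ℂ) = ((q.eval t : k) : ℂ) := eval_map_apply k.subtype t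
    rw [ep] at e1
    rw [eq] at e2
    refine ⟨(⟨t₁ Q / g₀ Q, hmem⟩ : k) * q.eval t, ?_⟩
    apply hinj
    rw [eval_mul]
    show ((p.eval t : k) : ℂ) * ((q.eval t : k) : ℂ) =
      (t₁ Q / g₀ Q * ((q.eval t : k) : ℂ)) * (t₁ Q / g₀ Q * ((q.eval t : k) : ℂ))
    have ht2 : t₂ Q ^ (2 * l') ≠ 0 := pow_ne_zero _ hQ.2.2.1
    have e5 : ((p.eval t : k) : ℂ) = t₁ Q * t₁ Q * H Q / t₂ Q ^ (2 * l') := by
      rw [e1, mul_div_cancel_left₀ _ ht2]
    have e6 : ((q.eval t : k) : ℂ) = g₀ Q * g₀ Q * H Q / t₂ Q ^ (2 * l') := by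
      rw [e2, mul_div_cancel_left₀ _ ht2]
    rw [e5, e6]
    field_simp

end KForm

end Q2T
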