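import Pool.Agent.H.MP_89f84f_ag.q2.VanC

set_option autoImplicit false

open Complex Topology Filter Asymptotics Metric Set

namespace Q2T

namespace PerData

variable (S : PerData)

private theorem thA_rdot_add (α α' : Fin 2 → ℝ) (q : Z2) :
    rdot (α + α') q = rdot α q + rdot α' q := by
  simp only [rdot, Pi.add_apply]
  ring

private theorem thA_dot_add (p : Z2) (z w : C2) : dot p (z + w) = dot p z + dot p w := by
  simp only [dot, Pi.add_apply]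
  ring

theorem J_ne_zero (u : ℤ) (α β : Fin 2 → ℝ) (p q : Z2) (z : C2) : S.J u α β p q z ≠ 0 :=
  mul_ne_zero (Complex.exp_ne_zero _) (Complex.exp_ne_zero _)

theorem th_one : (fun _ => (1 : ℂ)) ∈ S.Th 0 0 0 := by
  refine ⟨differentiable_const 1, fun p q z => ?_⟩
  simp [J, rdot]

theorem ThA_J_mul (u v : ℤ) (α β α' β' : Fin 2 → ℝ) (p q : Z2) (z : C2) :
    S.J (u + v) (α + α') (β + β') p q z = S.J u α β p q z * S.J v α' β' p q z := by
  unfold J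
  rw [← Complex.exp_add, ← Complex.exp_add, ← Complex.exp_add, ← Complex.exp_add, thA_rdot_add,
    thA_rdot_add]
  congr 1
  push_cast
  ring

theorem ThA_J_diff (u : ℤ) (α β : Fin 2 → ℝ) (p q : Z2) : Differentiable ℂ (S.J u α β p q) := by
  unfold J dot
  fun_prop

theorem th_mul {u v : ℤ} {α β α' β' : Fin 2 → ℝ} {f g : C2 → ℂ} (hf : f ∈ S.Th u α β)
    (hg : g ∈ S.Th v α' β') : f * g ∈ S.Th (u + v) (α + α') (β + β') := by
  refine ⟨hf.1.mul hg.1, fun p q z => ?_⟩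
  rw [Pi.mul_apply, Pi.mul_apply, hf.2, hg.2, ThA_J_mul]
  ring

/-- Quotients of theta functions.  PROOF: compute where `s ≠ 0` (dense, `ne_zero_frequently`) and use
`ent_cancel`. -/
theorem th_quot {u v : ℤ} {α β α' β' : Fin 2 → ℝ} {s f h : C2 → ℂ} (hs : s ∈ S.Th u α β) (hs0 : s ≠ 0)
    (hf : f ∈ S.Th v α' β') (hh : Differentiable ℂ h) (he : f = s * h) :
    h ∈ S.Th (v - u) (α' - α) (β' - β) := by
  refine ⟨hh, fun p q z => ?_⟩
  have hsh : Differentiable ℂ (fun w : C2 => h (w + S.tv p + S.dv q)) :=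
    hh.comp ((differentiable_id.add_const _).add_const _)
  have h1 : (fun w => S.J u α β p q w * h (w + S.tv p + S.dv q)) =
      fun w => S.J v α' β' p q w * h w := by
    refine ent_cancel hs.1 hs0 ((S.ThA_J_diff u α β p q).mul hsh)
      ((S.ThA_J_diff v α' β' p q).mul hh) ?_
    funext w
    rw [Pi.mul_apply, Pi.mul_apply]
    have h2 := hf.2 p q w
    rw [he, Pi.mul_apply, Pi.mul_apply, hs.2] at h2
    linear_combination h2
  have h2 := congrFun h1 z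
  have h3 := S.ThA_J_mul (v - u) u (α' - α) (β' - β) α β p q z
  rw [sub_add_cancel, sub_add_cancel, sub_add_cancel] at h3
  simp only [h3] at h2
  have h4 := S.J_ne_zero u α β p q z
  refine mul_left_cancel₀ h4 ?_
  linear_combination h2

theorem th_neg_arg {u : ℤ} {α β : Fin 2 → ℝ} {f : C2 → ℂ} (hf : f ∈ S.Th u α β) :
    (fun z => f (-z)) ∈ S.Th u (-α) (-β) := by
  refine ⟨hf.1.comp (differentiable_id.neg), fun p q z => ?_⟩
  have h1 := hf.2 (-p) (-q) (-z)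
  have h2 : -z + S.tv (-p) + S.dv (-q) = -(z + S.tv p + S.dv q) := by
    rw [S.tv_neg, S.dv_neg]
    abel
  rw [h2] at h1
  have h3 : S.J u α β (-p) (-q) (-z) = S.J u (-α) (-β) p q z := by
    have e1 : rdot α (-q) + rdot β (-p) = rdot (-α) q + rdot (-β) p := by
      simp only [rdot, Pi.neg_apply]
      push_cast
      ring
    have e2 : dot (-p) (S.tv (-p)) + 2 * dot (-p) (-z) = dot p (S.tv p) + 2 * dot p z := by
      rw [S.tv_neg]
      simp only [dot, Pi.neg_apply]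
      push_cast
      ring
    unfold J
    rw [e1, e2]
  show f (-(z + S.tv p + S.dv q)) = S.J u (-α) (-β) p q z * f (-z)
  rw [h1, h3]

/-- Translation by the point `x = τ ξ + Δ η` with real `ξ, η`.  Uses the symmetry of `τ`. -/
theorem th_trans {u : ℤ} {α β : Fin 2 → ℝ} {f : C2 → ℂ} (hf : f ∈ S.Th u α β) (ξ η : Fin 2 → ℝ) :
    (fun z => cexp (2 * Real.pi * I * u * ((ξ 0 : ℂ) * z 0 + (ξ 1 : ℂ) * z 1)) *
      f (z + fun i => (S.τ i 0 * ξ 0 + S.τ i 1 * ξ 1) + (![(η 0 : ℂ), (S.d : ℂ) * η 1] : C2) i)) ∈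
      S.Th u (α + fun i => (u : ℝ) * (![ξ 0, (S.d : ℝ) * ξ 1] : Fin 2 → ℝ) i)
        (β - fun i => (u : ℝ) * (![η 0, (S.d : ℝ) * η 1] : Fin 2 → ℝ) i) := by
  obtain ⟨x, hx⟩ : ∃ x : C2, x = fun i => (S.τ i 0 * ξ 0 + S.τ i 1 * ξ 1) +
      (![(η 0 : ℂ), (S.d : ℂ) * η 1] : C2) i := ⟨_, rfl⟩
  rw [← hx]
  have hx0 : x 0 = (S.τ 0 0 * ξ 0 + S.τ 0 1 * ξ 1) + η 0 := by rw [hx]; rfl
  have hx1 : x 1 = (S.τ 1 0 * ξ 0 + S.τ 1 1 * ξ 1) + S.d * η 1 := by rw [hx]; rfl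
  refine ⟨?_, fun p q z => ?_⟩
  · refine Differentiable.mul ?_ (hf.1.comp (differentiable_id.add_const x))
    fun_prop
  · have h1 := hf.2 p q (z + x)
    have h2 : z + x + S.tv p + S.dv q = z + S.tv p + S.dv q + x := by abel
    rw [h2] at h1
    show cexp (2 * Real.pi * I * u * ((ξ 0 : ℂ) * (z + S.tv p + S.dv q) 0 +
      (ξ 1 : ℂ) * (z + S.tv p + S.dv q) 1)) * f (z + S.tv p + S.dv q + x) =
      S.J u (α + fun i => (u : ℝ) * (![ξ 0, (S.d : ℝ) * ξ 1] : Fin 2 → ℝ) i)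
        (β - fun i => (u : ℝ) * (![η 0, (S.d : ℝ) * η 1] : Fin 2 → ℝ) i) p q z *
      (cexp (2 * Real.pi * I * u * ((ξ 0 : ℂ) * z 0 + (ξ 1 : ℂ) * z 1)) * f (z + x))
    rw [h1, ← mul_assoc, ← mul_assoc]
    congr 1
    unfold J
    rw [← Complex.exp_add, ← Complex.exp_add, ← Complex.exp_add, ← Complex.exp_add]
    congr 1
    have e1 : rdot (α + fun i => (u : ℝ) * (![ξ 0, (S.d : ℝ) * ξ 1] : Fin 2 → ℝ) i) q =
        rdot α q + u * (ξ 0 * q 0 + S.d * ξ 1 * q 1) := by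
      simp only [rdot, Pi.add_apply, Matrix.cons_val_zero, Matrix.cons_val_one]
      ring
    have e2 : rdot (β - fun i => (u : ℝ) * (![η 0, (S.d : ℝ) * η 1] : Fin 2 → ℝ) i) p =
        rdot β p - u * (η 0 * p 0 + S.d * η 1 * p 1) := by
      simp only [rdot, Pi.sub_apply, Matrix.cons_val_zero, Matrix.cons_val_one]
      ring
    rw [e1, e2]
    simp only [dot, Pi.add_apply, tv_apply, dv_zero', dv_one', hx0, hx1]
    push_cast
    rw [S.symm]
    ring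

/-- Every point is `τ ξ + Δ η` with real `ξ, η`. -/
theorem exists_real_coords (x : C2) : ∃ ξ η : Fin 2 → ℝ,
    x = fun i => (S.τ i 0 * ξ 0 + S.τ i 1 * ξ 1) + (![(η 0 : ℂ), (S.d : ℂ) * η 1] : C2) i := by
  obtain ⟨D, hD⟩ : ∃ D : ℝ, D = (S.τ 0 0).im * (S.τ 1 1).im - (S.τ 0 1).im ^ 2 := ⟨_, rfl⟩
  have hD0 : D ≠ 0 := by
    have := S.det_pos
    rw [hD]
    linarith
  have hd : (S.d : ℝ) ≠ 0 := by
    have := S.d_pos
    positivity
  obtain ⟨a, ha⟩ : ∃ a : ℝ, a = ((S.τ 1 1).im * (x 0).im - (S.τ 0 1).im * (x 1).im) / D := ⟨_, rfl⟩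
  obtain ⟨b, hb⟩ : ∃ b : ℝ, b = ((S.τ 0 0).im * (x 1).im - (S.τ 0 1).im * (x 0).im) / D := ⟨_, rfl⟩
  have h0 : (S.τ 0 0).im * a + (S.τ 0 1).im * b = (x 0).im := by
    rw [ha, hb]
    field_simp
    rw [hD]
    ring
  have h1 : (S.τ 0 1).im * a + (S.τ 1 1).im * b = (x 1).im := by
    rw [ha, hb]
    field_simp
    rw [hD]
    ring
  refine ⟨![a, b], ![(x 0).re - ((S.τ 0 0).re * a + (S.τ 0 1).re * b),
    ((x 1).re - ((S.τ 1 0).re * a + (S.τ 1 1).re * b)) / S.d], ?_⟩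
  funext i
  fin_cases i
  · show x 0 = (S.τ 0 0 * (a : ℂ) + S.τ 0 1 * (b : ℂ)) +
      (((x 0).re - ((S.τ 0 0).re * a + (S.τ 0 1).re * b) : ℝ) : ℂ)
    apply Complex.ext
    · simp
    · simp
      linarith
  · show x 1 = (S.τ 1 0 * (a : ℂ) + S.τ 1 1 * (b : ℂ)) + (S.d : ℂ) *
      ((((x 1).re - ((S.τ 1 0).re * a + (S.τ 1 1).re * b)) / S.d : ℝ) : ℂ)
    have h2 : (S.d : ℂ) * ((((x 1).re - ((S.τ 1 0).re * a + (S.τ 1 1).re * b)) / S.d : ℝ) : ℂ) =
        (((x 1).re - ((S.τ 1 0).re * a + (S.τ 1 1).re * b) : ℝ) : ℂ) := by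
      rw [← Complex.ofReal_natCast, ← Complex.ofReal_mul]
      congr 1
      field_simp
    rw [h2]
    apply Complex.ext
    · simp
    · rw [← S.symm]
      simp
      linarith

theorem th_smul_arg {u : ℤ} {f : C2 → ℂ} (hf : f ∈ S.Th u 0 0) (n : ℤ) :
    (fun z => f ((n : ℂ) • z)) ∈ S.Th (n ^ 2 * u) 0 0 := by
  refine ⟨hf.1.comp (differentiable_id.const_smul (n : ℂ)), fun p q z => ?_⟩
  have h1 := hf.2 (n • p) (n • q) ((n : ℂ) • z)
  have h2 : (n : ℂ) • z + S.tv (n • p) + S.dv (n • q) = (n : ℂ) • (z + S.tv p + S.dv q) := by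
    funext i
    fin_cases i
    · show (n : ℂ) * z 0 + (S.τ 0 0 * (((n • p) 0 : ℤ) : ℂ) + S.τ 0 1 * (((n • p) 1 : ℤ) : ℂ)) +
        (((n • q) 0 : ℤ) : ℂ) = (n : ℂ) * (z 0 + (S.τ 0 0 * (p 0 : ℂ) + S.τ 0 1 * (p 1 : ℂ)) +
          (q 0 : ℂ))
      simp only [Pi.smul_apply, smul_eq_mul]
      push_cast
      ring
    · show (n : ℂ) * z 1 + (S.τ 1 0 * (((n • p) 0 : ℤ) : ℂ) + S.τ 1 1 * (((n • p) 1 : ℤ) : ℂ)) +
        (S.d : ℂ) * (((n • q) 1 : ℤ) : ℂ) = (n : ℂ) * (z 1 + (S.τ 1 0 * (p 0 : ℂ) +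
          S.τ 1 1 * (p 1 : ℂ)) + (S.d : ℂ) * (q 1 : ℂ))
      simp only [Pi.smul_apply, smul_eq_mul]
      push_cast
      ring
  rw [h2] at h1
  have h3 : S.J u 0 0 (n • p) (n • q) ((n : ℂ) • z) = S.J (n ^ 2 * u) 0 0 p q z := by
    unfold J
    congr 1
    · congr 1
      simp [rdot]
    · congr 1
      simp only [dot, tv_apply, Pi.smul_apply, smul_eq_mul]
      push_cast
      ring
  show f ((n : ℂ) • (z + S.tv p + S.dv q)) = S.J (n ^ 2 * u) 0 0 p q z * f ((n : ℂ) • z)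
  rw [h1, h3]

/-- Integral changes of the characteristics do not matter. -/
theorem th_congr (u : ℤ) {α β α' β' : Fin 2 → ℝ} (ha : ∀ i, ∃ k : ℤ, α' i = α i + k)
    (hb : ∀ i, ∃ k : ℤ, β' i = β i + k) : S.Th u α' β' = S.Th u α β := by
  obtain ⟨k0, hk0⟩ := ha 0
  obtain ⟨k1, hk1⟩ := ha 1
  obtain ⟨l0, hl0⟩ := hb 0
  obtain ⟨l1, hl1⟩ := hb 1
  have hJ : ∀ (p q : Z2) (z : C2), S.J u α' β' p q z = S.J u α β p q z := by
    intro p q z
    unfold J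
    congr 1
    have h1 : rdot α' q + rdot β' p = (rdot α q + rdot β p) +
        ((k0 * q 0 + k1 * q 1 + l0 * p 0 + l1 * p 1 : ℤ) : ℝ) := by
      simp only [rdot, hk0, hk1, hl0, hl1]
      push_cast
      ring
    have h2 : (2 * Real.pi * I * ((rdot α' q + rdot β' p : ℝ) : ℂ)) =
        2 * Real.pi * I * ((rdot α q + rdot β p : ℝ) : ℂ) +
          ((k0 * q 0 + k1 * q 1 + l0 * p 0 + l1 * p 1 : ℤ) : ℂ) * (2 * Real.pi * I) := by
      rw [h1]
      push_cast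
      ring
    rw [h2, Complex.exp_add, Complex.exp_int_mul_two_pi_mul_I, mul_one]
  ext f
  constructor
  · rintro ⟨h1, h2⟩
    exact ⟨h1, fun p q z => by rw [← hJ]; exact h2 p q z⟩
  · rintro ⟨h1, h2⟩
    exact ⟨h1, fun p q z => by rw [hJ]; exact h2 p q z⟩

end PerData

end Q2T
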