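import Pool.Agent.H.MP_89f84f_ag.q2.ThB

set_option autoImplicit false

open Complex Topology Filter Asymptotics Metric Set intervalIntegral

namespace Q2T

namespace PerData

variable (S : PerData)

/-- Fourier coefficients on `ℝ²` modulo `Δ ℤ²`. -/
noncomputable def fc (α : Fin 2 → ℝ) (f : C2 → ℂ) (n : Z2) : ℂ :=
  ∫ x in (0:ℝ)..1, ∫ y in (0:ℝ)..1, f ![(x : ℂ), (S.d : ℂ) * y] *
    cexp (-(2 * Real.pi * I * (((n 0 : ℂ) + α 0) * x + ((n 1 : ℂ) + α 1) * y)))

/-- `r · z` with `r = (n₀ + α₀, (n₁ + α₁) / d)`. -/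
noncomputable def rz (α : Fin 2 → ℝ) (n : Z2) (z : C2) : ℂ :=
  ((n 0 : ℂ) + α 0) * z 0 + ((n 1 : ℂ) + α 1) / (S.d : ℂ) * z 1

/-- the shift `(u p₀, u d p₁)` of the index -/
def sh (u : ℤ) (p : Z2) : Z2 := ![u * p 0, u * S.d * p 1]

/-- the factor of the recurrence -/
noncomputable def rf (u : ℤ) (α β : Fin 2 → ℝ) (n p : Z2) : ℂ :=
  cexp (-(2 * Real.pi * I * ((rdot β p : ℝ) : ℂ)) + Real.pi * I * u * dot p (S.tv p) +
    2 * Real.pi * I * S.rz α n (S.tv p))

private theorem thC_cont_vec : Continuous (fun p : ℝ × ℝ => (![(p.1 : ℂ), (S.d : ℂ) * p.2] : C2)) := by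
  refine continuous_pi fun i => ?_
  fin_cases i
  · exact Complex.continuous_ofReal.comp continuous_fst
  · exact continuous_const.mul (Complex.continuous_ofReal.comp continuous_snd)

private theorem thC_cont (α : Fin 2 → ℝ) {f : C2 → ℂ} (hf : Continuous f) (n : Z2) :
    Continuous (fun p : ℝ × ℝ => f ![(p.1 : ℂ), (S.d : ℂ) * p.2] *
      cexp (-(2 * Real.pi * I * (((n 0 : ℂ) + α 0) * p.1 + ((n 1 : ℂ) + α 1) * p.2)))) := by
  refine (hf.comp (thC_cont_vec S)).mul ?_
  refine Complex.continuous_exp.comp ?_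
  have h1 : Continuous fun p : ℝ × ℝ => (p.1 : ℂ) := Complex.continuous_ofReal.comp continuous_fst
  have h2 : Continuous fun p : ℝ × ℝ => (p.2 : ℂ) := Complex.continuous_ofReal.comp continuous_snd
  fun_prop

private theorem thC_cont_inner {g : ℝ × ℝ → ℂ} (hg : Continuous g) :
    Continuous (fun x : ℝ => ∫ y in (0:ℝ)..1, g (x, y)) :=
  intervalIntegral.continuous_parametric_intervalIntegral_of_continuous' (f := fun x y => g (x, y))
    (by exact hg) 0 1

theorem fc_add (α : Fin 2 → ℝ) {f g : C2 → ℂ} (hf : Continuous f) (hg : Continuous g) (n : Z2) :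
    S.fc α (f + g) n = S.fc α f n + S.fc α g n := by
  have cf := thC_cont S α hf n
  have cg := thC_cont S α hg n
  unfold fc
  rw [← intervalIntegral.integral_add ((thC_cont_inner cf).intervalIntegrable _ _)
    ((thC_cont_inner cg).intervalIntegrable _ _)]
  refine intervalIntegral.integral_congr fun x _ => ?_
  have c1 : Continuous fun y : ℝ => (x, y) := by fun_prop
  refine Eq.trans ?_ (intervalIntegral.integral_add ((cf.comp c1).intervalIntegrable 0 1)
    ((cg.comp c1).intervalIntegrable 0 1))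
  refine intervalIntegral.integral_congr fun y _ => ?_
  simp only [Pi.add_apply]
  ring

theorem fc_smul (α : Fin 2 → ℝ) (c : ℂ) (f : C2 → ℂ) (n : Z2) :
    S.fc α (c • f) n = c * S.fc α f n := by
  unfold fc
  rw [← intervalIntegral.integral_const_mul]
  refine intervalIntegral.integral_congr fun x _ => ?_
  show _ = c * (∫ y in (0:ℝ)..1, _)
  rw [← intervalIntegral.integral_const_mul]
  refine intervalIntegral.integral_congr fun y _ => ?_
  simp only [Pi.smul_apply, smul_eq_mul]
  ring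

/-- Shift of the path of integration in one variable. -/
private theorem thC_shift1 {φ : ℂ → ℂ} (hφ : Differentiable ℂ φ) (hp : ∀ z, φ (z + 1) = φ z)
    (w : ℂ) : ∫ x in (0:ℝ)..1, φ (x + w) = ∫ x in (0:ℝ)..1, φ x := by
  have h1 := Complex.integral_boundary_rect_eq_zero_of_differentiableOn φ 0 (1 + w.im * I)
    hφ.differentiableOn
  simp only [zero_re, zero_im, add_re, one_re, mul_re, ofReal_re, I_re, mul_zero, ofReal_im, I_im,
    mul_one, sub_self, add_zero, add_im, one_im, mul_im, zero_add, ofReal_zero, zero_mul,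
    ofReal_one] at h1
  have h2 : ∀ y : ℝ, φ (1 + y * I) = φ (y * I) := by
    intro y; rw [add_comm, hp]
  simp_rw [h2] at h1
  rw [add_sub_assoc, sub_self, add_zero, sub_eq_zero] at h1
  rw [h1]
  have h3 : Function.Periodic (fun x : ℝ => φ (x + w.im * I)) 1 := by
    intro x
    show φ (((x + 1 : ℝ) : ℂ) + w.im * I) = φ (x + w.im * I)
    refine Eq.trans ?_ (hp _)
    congr 1
    push_cast
    ring
  have h4 : ∫ x in (0:ℝ)..1, φ (x + w) = ∫ x in (0:ℝ)..1, (fun x : ℝ => φ (x + w.im * I)) (x + w.re) := by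
    refine intervalIntegral.integral_congr fun x _ => ?_
    show φ (x + w) = φ (((x + w.re : ℝ) : ℂ) + w.im * I)
    congr 1
    conv_lhs => rw [← Complex.re_add_im w]
    push_cast
    ring
  rw [h4, intervalIntegral.integral_comp_add_right (fun x : ℝ => φ (x + w.im * I)), zero_add,
    add_comm 1 w.re, h3.intervalIntegral_add_eq w.re 0, zero_add]

private theorem thC_swap {g : ℝ → ℝ → ℂ} (hg : Continuous (Function.uncurry g)) :
    ∫ x in (0:ℝ)..1, ∫ y in (0:ℝ)..1, g x y = ∫ y in (0:ℝ)..1, ∫ x in (0:ℝ)..1, g x y := by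
  apply MeasureTheory.intervalIntegral_intervalIntegral_swap
  refine (hg.continuousOn.integrableOn_compact (K := Set.Icc (0:ℝ) 1 ×ˢ Set.Icc (0:ℝ) 1)
    (isCompact_Icc.prod isCompact_Icc)).mono_set ?_
  rw [Set.uIoc_of_le zero_le_one]
  exact Set.prod_mono Set.Ioc_subset_Icc_self Set.Ioc_subset_Icc_self

private theorem thC_shift2 {F : C2 → ℂ} (hF : Differentiable ℂ F)
    (hp : ∀ (q : Z2) (z : C2), F (z + S.dv q) = F z) (w : C2) :
    ∫ x in (0:ℝ)..1, ∫ y in (0:ℝ)..1, F (![(x : ℂ), (S.d : ℂ) * y] + w) =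
      ∫ x in (0:ℝ)..1, ∫ y in (0:ℝ)..1, F ![(x : ℂ), (S.d : ℂ) * y] := by
  have hd : (S.d : ℂ) ≠ 0 := by exact_mod_cast S.d_pos.ne'
  have hdiff : ∀ (c : ℂ), Differentiable ℂ (fun ζ : ℂ => F ![c, (S.d : ℂ) * ζ]) := by
    intro c
    refine hF.comp (differentiable_pi.2 fun i => ?_)
    fin_cases i
    · exact differentiable_const _
    · exact (differentiable_const _).mul differentiable_id
  have hdiff' : ∀ (c : ℂ), Differentiable ℂ (fun ζ : ℂ => F ![ζ, c]) := by
    intro c
    refine hF.comp (differentiable_pi.2 fun i => ?_)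
    fin_cases i
    · exact differentiable_id
    · exact differentiable_const _
  have hA : ∀ x : ℝ, ∫ y in (0:ℝ)..1, F (![(x : ℂ), (S.d : ℂ) * y] + w) =
      ∫ y in (0:ℝ)..1, F ![(x : ℂ) + w 0, (S.d : ℂ) * y] := by
    intro x
    rw [← thC_shift1 (φ := fun ζ : ℂ => F ![(x : ℂ) + w 0, (S.d : ℂ) * ζ]) (hdiff _) ?_
      (w 1 / S.d)]
    · refine intervalIntegral.integral_congr fun y _ => ?_
      show F _ = F _
      congr 1
      funext i
      fin_cases i
      · simp
      · simp only [Pi.add_apply, Fin.mk_one, Matrix.cons_val_one, Matrix.cons_val_fin_one]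
        field_simp
    · intro z
      show F ![(x : ℂ) + w 0, (S.d : ℂ) * (z + 1)] = F ![(x : ℂ) + w 0, (S.d : ℂ) * z]
      refine Eq.trans ?_ (hp ![0, 1] _)
      congr 1
      funext i
      fin_cases i
      · simp
      · simp [mul_add]
  simp_rw [hA]
  have hc1 : Continuous (Function.uncurry fun x y : ℝ => F ![(x : ℂ) + w 0, (S.d : ℂ) * y]) := by
    refine hF.continuous.comp (continuous_pi fun i => ?_)
    have h1 : Continuous fun p : ℝ × ℝ => (p.1 : ℂ) := Complex.continuous_ofReal.comp continuous_fst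
    have h2 : Continuous fun p : ℝ × ℝ => (p.2 : ℂ) := Complex.continuous_ofReal.comp continuous_snd
    fin_cases i
    · exact h1.add continuous_const
    · exact continuous_const.mul h2
  have hc2 : Continuous (Function.uncurry fun x y : ℝ => F ![(x : ℂ), (S.d : ℂ) * y]) :=
    hF.continuous.comp (thC_cont_vec S)
  rw [thC_swap hc1, thC_swap hc2]
  refine intervalIntegral.integral_congr fun y _ => ?_
  refine thC_shift1 (φ := fun ζ : ℂ => F ![ζ, (S.d : ℂ) * y]) (hdiff' _) ?_ (w 0)
  intro z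
  show F ![z + 1, (S.d : ℂ) * y] = F ![z, (S.d : ℂ) * y]
  refine Eq.trans ?_ (hp ![1, 0] _)
  congr 1
  funext i
  fin_cases i
  · simp
  · simp

private theorem thC_rz_diff (α : Fin 2 → ℝ) (n : Z2) : Differentiable ℂ (S.rz α n) := by
  unfold rz
  have h0 : Differentiable ℂ (fun z : C2 => z 0) := differentiable_pi.1 differentiable_id 0
  have h1 : Differentiable ℂ (fun z : C2 => z 1) := differentiable_pi.1 differentiable_id 1
  exact (h0.const_mul _).add (h1.const_mul _)

/-- the integrand -/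
private noncomputable def ThCF (α : Fin 2 → ℝ) (n : Z2) (f : C2 → ℂ) (z : C2) : ℂ :=
  f z * cexp (-(2 * Real.pi * I * S.rz α n z))

private theorem thC_F_per {α : Fin 2 → ℝ} {f : C2 → ℂ}
    (hp : ∀ (q : Z2) (z : C2), f (z + S.dv q) = cexp (2 * Real.pi * I * ((rdot α q : ℝ) : ℂ)) * f z)
    (n q : Z2) (z : C2) : ThCF S α n f (z + S.dv q) = ThCF S α n f z := by
  have hd : (S.d : ℂ) ≠ 0 := by exact_mod_cast S.d_pos.ne'
  unfold ThCF
  rw [hp, mul_assoc, mul_comm (f z), ← mul_assoc, ← Complex.exp_add, mul_comm _ (f z)]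
  congr 1
  rw [Complex.exp_eq_exp_iff_exists_int]
  refine ⟨-(n 0 * q 0 + n 1 * q 1), ?_⟩
  unfold rz rdot
  simp only [Pi.add_apply, dv_zero', dv_one']
  push_cast
  field_simp
  ring

private theorem thC_fc_eq (α : Fin 2 → ℝ) (f : C2 → ℂ) (n : Z2) :
    S.fc α f n = ∫ x in (0:ℝ)..1, ∫ y in (0:ℝ)..1, ThCF S α n f ![(x : ℂ), (S.d : ℂ) * y] := by
  have hd : (S.d : ℂ) ≠ 0 := by exact_mod_cast S.d_pos.ne'
  unfold fc ThCF rz
  refine intervalIntegral.integral_congr fun x _ => intervalIntegral.integral_congr fun y _ => ?_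
  simp only [Matrix.cons_val_zero, Matrix.cons_val_one, Matrix.cons_val_fin_one]
  congr 3
  field_simp

/-- Contour shift.  PROOF: the left side is independent of `w`: it is holomorphic in `w`, and invariant under real
translations `w` (substitution, periodicity of the integrand); or differentiate under the integral. -/
theorem fc_shift {α : Fin 2 → ℝ} {f : C2 → ℂ} (hf : Differentiable ℂ f)
    (hp : ∀ (q : Z2) (z : C2), f (z + S.dv q) = cexp (2 * Real.pi * I * ((rdot α q : ℝ) : ℂ)) * f z)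
    (n : Z2) (w : C2) :
    S.fc α (fun z => f (z + w)) n = cexp (2 * Real.pi * I * S.rz α n w) * S.fc α f n := by
  have hF : Differentiable ℂ (ThCF S α n f) := by
    unfold ThCF
    exact hf.mul (((thC_rz_diff S α n).const_mul _).neg.cexp)
  rw [thC_fc_eq, thC_fc_eq, ← thC_shift2 S hF (thC_F_per S hp n) w,
    ← intervalIntegral.integral_const_mul]
  refine intervalIntegral.integral_congr fun x _ => ?_
  show _ = _ * (∫ y in (0:ℝ)..1, _)
  rw [← intervalIntegral.integral_const_mul]
  refine intervalIntegral.integral_congr fun y _ => ?_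
  show f (_ + w) * _ = _ * (f (_ + w) * _)
  rw [mul_left_comm, ← Complex.exp_add]
  congr 2
  unfold rz
  simp only [Pi.add_apply]
  ring

/-- The recurrence for theta functions.
PROOF: apply `fc_shift` with `w = τ p` and `f (z + τ p) = J * f z`; the factor `exp (-2 π i u p · z)` shifts the
index by `(u p₀, u d p₁)`. -/
theorem fc_rec {u : ℤ} {α β : Fin 2 → ℝ} {f : C2 → ℂ} (hf : f ∈ S.Th u α β) (n p : Z2) :
    S.fc α f (n + S.sh u p) = S.rf u α β n p * S.fc α f n := by
  have hd : (S.d : ℂ) ≠ 0 := by exact_mod_cast S.d_pos.ne'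
  have hp : ∀ (q : Z2) (z : C2), f (z + S.dv q) =
      cexp (2 * Real.pi * I * ((rdot α q : ℝ) : ℂ)) * f z := by
    intro q z
    have := hf.2 0 q z
    rw [S.tv_zero, add_zero] at this
    rw [this]
    unfold J
    congr 1
    simp [rdot, dot]
  have h1 := S.fc_shift hf.1 hp n (S.tv p)
  have h2 : S.fc α (fun z => f (z + S.tv p)) n =
      cexp (2 * Real.pi * I * ((rdot β p : ℝ) : ℂ) - Real.pi * I * u * dot p (S.tv p)) *
        S.fc α f (n + S.sh u p) := by
    unfold fc
    rw [← intervalIntegral.integral_const_mul]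
    refine intervalIntegral.integral_congr fun x _ => ?_
    show _ = _ * (∫ y in (0:ℝ)..1, _)
    rw [← intervalIntegral.integral_const_mul]
    refine intervalIntegral.integral_congr fun y _ => ?_
    have h3 : ∀ z, f (z + S.tv p) = S.J u α β p 0 z * f z := by
      intro z
      have := hf.2 p 0 z
      rwa [S.dv_zero, add_zero] at this
    show f (_ + S.tv p) * _ = _ * (f _ * _)
    rw [h3]
    unfold J
    have e1 : ∀ A B C D E F' : ℂ, A + B + D = C + E →
        cexp A * cexp B * F' * cexp D = cexp C * (F' * cexp E) := by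
      intro A B C D E F' h
      have h' : cexp A * cexp B * cexp D = cexp C * cexp E := by
        rw [← Complex.exp_add, ← Complex.exp_add, ← Complex.exp_add, h]
      linear_combination F' * h'
    apply e1
    simp only [sh, dot, rdot, Pi.add_apply, Pi.zero_apply, Matrix.cons_val_zero,
      Matrix.cons_val_one, Matrix.cons_val_fin_one]
    push_cast
    ring
  rw [h1] at h2
  unfold rf
  have e2 : ∀ A B C X Y : ℂ, cexp A * X = cexp (B - C) * Y → Y = cexp (-B + C + A) * X := by
    intro A B C X Y h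
    rw [Complex.exp_add, mul_assoc, h, ← mul_assoc, ← Complex.exp_add]
    have : -B + C + (B - C) = 0 := by ring
    rw [this, Complex.exp_zero, one_mul]
  exact e2 _ _ _ _ _ h2

/-- Reflection: `r (n*) = - r (n)` for `n* = - n - 2 α`, when `2 α` is integral. -/
theorem fc_neg {α : Fin 2 → ℝ} {f : C2 → ℂ} (hf : Continuous f)
    (hp : ∀ (q : Z2) (z : C2), f (z + S.dv q) = cexp (2 * Real.pi * I * ((rdot α q : ℝ) : ℂ)) * f z)
    {a : Z2} (ha : ∀ i, 2 * α i = a i) (n : Z2) :
    S.fc α (fun z => f (-z)) n = S.fc α f (-n - a) := by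
  rw [thC_fc_eq, thC_fc_eq]
  have h1 : ∀ x y : ℝ, ThCF S α n (fun z => f (-z)) ![(x : ℂ), (S.d : ℂ) * y] =
      ThCF S α (-n - a) f ![((1 - x : ℝ) : ℂ), (S.d : ℂ) * ((1 - y : ℝ) : ℂ)] := by
    intro x y
    have e0 : (![((1 - x : ℝ) : ℂ), (S.d : ℂ) * ((1 - y : ℝ) : ℂ)] : C2) =
        -![(x : ℂ), (S.d : ℂ) * y] + S.dv ![1, 1] := by
      funext i
      fin_cases i
      · simp; ring
      · simp; ring
    rw [e0, thC_F_per S hp]
    unfold ThCF rz
    have a0 : (a 0 : ℂ) = 2 * (α 0 : ℂ) := by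
      have := ha 0
      exact_mod_cast this.symm
    have a1 : (a 1 : ℂ) = 2 * (α 1 : ℂ) := by
      have := ha 1
      exact_mod_cast this.symm
    congr 3
    simp only [Pi.neg_apply, Pi.sub_apply]
    push_cast
    rw [a0, a1]
    ring
  simp_rw [h1]
  rw [intervalIntegral.integral_comp_sub_left
    (fun x : ℝ => ∫ y in (0:ℝ)..1, ThCF S α (-n - a) f ![(x : ℂ), (S.d : ℂ) * ((1 - y : ℝ) : ℂ)]) 1,
    sub_self, sub_zero]
  refine intervalIntegral.integral_congr fun x _ => ?_
  show (∫ y in (0:ℝ)..1, _) = ∫ y in (0:ℝ)..1, _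
  rw [intervalIntegral.integral_comp_sub_left
    (fun y : ℝ => ThCF S α (-n - a) f ![(x : ℂ), (S.d : ℂ) * (y : ℂ)]) 1,
    sub_self, sub_zero]

end PerData

end Q2T
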