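import Pool.Agent.H.MP_89f84f_ag.q2.ThC

set_option autoImplicit false

open Complex Topology Filter Asymptotics Metric Set

namespace Q2T

/-- One-variable completeness of the exponentials. -/
private theorem ThD_one {φ : ℝ → ℂ} (hc : Continuous φ) (hp : ∀ x, φ (x + 1) = φ x)
    (h : ∀ n : ℤ, ∫ x in (0:ℝ)..1, φ x * cexp (-(2 * Real.pi * I * (n * x))) = 0) : ∀ x, φ x = 0 := by
  have hper : Function.Periodic φ 1 := hp
  have : Fact ((0:ℝ) < 1) := ⟨one_pos⟩
  let g : C(AddCircle (1:ℝ), ℂ) := ⟨hper.lift, by
    refine continuous_coinduced_dom.mpr ?_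
    exact hc⟩
  have hg : ∀ x : ℝ, g (x : AddCircle (1:ℝ)) = φ x := fun x => rfl
  have h0 : ∀ n : ℤ, fourierCoeff g n = 0 := by
    intro n
    rw [fourierCoeff_eq_intervalIntegral g n 0]
    have : ∫ x in (0:ℝ)..0 + 1, @fourier (1:ℝ) (-n) (x : AddCircle (1:ℝ)) • g (x : AddCircle (1:ℝ)) =
        ∫ x in (0:ℝ)..1, φ x * cexp (-(2 * Real.pi * I * (n * x))) := by
      rw [zero_add]
      refine intervalIntegral.integral_congr fun x _ => ?_
      simp only [hg, fourier_coe_apply, smul_eq_mul]
      rw [mul_comm]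
      congr 2
      push_cast
      ring
    rw [this, h n, smul_zero]
  have hs : Summable (fourierCoeff g) := by
    have : fourierCoeff g = fun _ => 0 := funext h0
    rw [this]
    exact summable_zero
  have h1 := hasSum_fourier_series_of_summable hs
  have h2 : g = 0 := by
    have h3 : HasSum (fun i => fourierCoeff g i • (fourier i : C(AddCircle (1:ℝ), ℂ))) 0 := by
      have : (fun i => fourierCoeff g i • (fourier i : C(AddCircle (1:ℝ), ℂ))) = fun _ => 0 := by
        funext i
        rw [h0, zero_smul]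
      rw [this]
      exact hasSum_zero
    exact h1.unique h3
  intro x
  rw [← hg, h2]
  rfl

/-- An entire function of one variable vanishing on the real line vanishes. -/
private theorem ThD_ent {g : ℂ → ℂ} (hg : Differentiable ℂ g) (h : ∀ x : ℝ, g x = 0) :
    ∀ z, g z = 0 := by
  have h1 : AnalyticOnNhd ℂ g univ := fun z _ => hg.analyticAt z
  have h2 : AnalyticOnNhd ℂ (fun _ : ℂ => (0:ℂ)) univ := fun z _ => analyticAt_const
  have h3 : Tendsto (fun x : ℝ => (x : ℂ)) (𝓝[≠] 0) (𝓝[≠] ((0:ℝ):ℂ)) := by
    refine tendsto_nhdsWithin_of_tendsto_nhds_of_eventually_within _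
      ((Complex.continuous_ofReal.tendsto 0).mono_left nhdsWithin_le_nhds) ?_
    filter_upwards [self_mem_nhdsWithin] with x hx
    simpa using hx
  have h4 : ∃ᶠ z in 𝓝[≠] ((0:ℝ):ℂ), g z = (fun _ : ℂ => (0:ℂ)) z := by
    refine h3.frequently ?_
    exact (Eventually.of_forall fun x => h x).frequently
  intro z
  rw [h1.eq_of_frequently_eq h2 h4]

namespace PerData

variable (S : PerData)

/-- Completeness.
PROOF: the function `(x, y) ↦ f (x, d y) exp (-2 π i (α₀ x + α₁ y))` is continuous and `ℤ²`-periodic with vanishing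
Fourier coefficients, hence zero on `ℝ²` (Fourier series on the two-torus in Mathlib: `UnitAddTorus`,
`mFourierCoeff`, `mFourierBasis`; or two times the one-variable statement).  So `f = 0` on `ℝ²`, and an entire
function vanishing on `ℝ²` vanishes (identity theorem in each variable). -/
theorem eq_zero_of_fc {α : Fin 2 → ℝ} {f : C2 → ℂ} (hf : Differentiable ℂ f)
    (hp : ∀ (q : Z2) (z : C2), f (z + S.dv q) = cexp (2 * Real.pi * I * ((rdot α q : ℝ) : ℂ)) * f z)
    (h : ∀ n, S.fc α f n = 0) : f = 0 := by
  set F : ℝ → ℝ → ℂ := fun x y => f ![(x : ℂ), (S.d : ℂ) * y] *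
    cexp (-(2 * Real.pi * I * (α 0 * x + α 1 * y))) with hF
  have hvec : Continuous fun p : ℝ × ℝ => (![(p.1 : ℂ), (S.d : ℂ) * p.2] : C2) := by
    refine continuous_pi fun i => ?_
    fin_cases i
    · exact Complex.continuous_ofReal.comp continuous_fst
    · exact continuous_const.mul (Complex.continuous_ofReal.comp continuous_snd)
  have hFc : Continuous (fun p : ℝ × ℝ => F p.1 p.2) := by
    refine (hf.continuous.comp hvec).mul ?_
    fun_prop
  have hFx : ∀ x y, F (x + 1) y = F x y := by
    intro x y
    have h1 := hp ![1, 0] ![(x : ℂ), (S.d : ℂ) * y]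
    have h2 : (![(x : ℂ), (S.d : ℂ) * y] : C2) + S.dv ![1, 0] = ![((x + 1 : ℝ) : ℂ), (S.d : ℂ) * y] := by
      funext i
      fin_cases i <;> simp [dv]
    rw [h2] at h1
    simp only [hF]
    rw [h1, mul_right_comm, ← Complex.exp_add]
    rw [mul_comm]
    congr 2
    simp only [rdot, Matrix.cons_val_zero, Matrix.cons_val_one]
    push_cast
    ring
  have hFy : ∀ x y, F x (y + 1) = F x y := by
    intro x y
    have h1 := hp ![0, 1] ![(x : ℂ), (S.d : ℂ) * y]
    have h2 : (![(x : ℂ), (S.d : ℂ) * y] : C2) + S.dv ![0, 1] = ![(x : ℂ), (S.d : ℂ) * ((y + 1 : ℝ) : ℂ)] := by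
      funext i
      fin_cases i
      · simp [dv]
      · simp [dv]
        ring
    rw [h2] at h1
    simp only [hF]
    rw [h1, mul_right_comm, ← Complex.exp_add]
    rw [mul_comm]
    congr 2
    simp only [rdot, Matrix.cons_val_zero, Matrix.cons_val_one]
    push_cast
    ring
  have hG : ∀ (m : ℤ) (x : ℝ), ∫ y in (0:ℝ)..1, F x y * cexp (-(2 * Real.pi * I * (m * y))) = 0 := by
    intro m
    refine ThD_one ?_ ?_ ?_
    · refine intervalIntegral.continuous_parametric_intervalIntegral_of_continuous' ?_ 0 1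
      refine hFc.mul ?_
      fun_prop
    · intro x
      simp only [hFx]
    · intro n
      rw [← h ![n, m]]
      unfold fc
      refine intervalIntegral.integral_congr fun x _ => ?_
      rw [← intervalIntegral.integral_mul_const]
      refine intervalIntegral.integral_congr fun y _ => ?_
      simp only [hF, Matrix.cons_val_zero, Matrix.cons_val_one]
      rw [mul_assoc, mul_assoc, ← Complex.exp_add, ← Complex.exp_add]
      congr 2
      ring
  have hF0 : ∀ x y, F x y = 0 := by
    intro x
    refine ThD_one ?_ (hFy x) (fun m => hG m x)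
    exact hFc.comp (by fun_prop : Continuous fun y : ℝ => (x, y))
  have hd : (S.d : ℝ) ≠ 0 := by
    have := S.d_pos
    positivity
  have hR : ∀ x y : ℝ, f ![(x : ℂ), (y : ℂ)] = 0 := by
    intro x y
    have h1 := hF0 x (y / S.d)
    simp only [hF] at h1
    have h2 := (mul_eq_zero.1 h1).resolve_right (Complex.exp_ne_zero _)
    rw [← h2]
    congr 2
    push_cast
    have : (S.d : ℂ) ≠ 0 := by exact_mod_cast hd
    field_simp
  have hL : ∀ (x : ℝ) (w : ℂ), f ![(x : ℂ), w] = 0 := by
    intro x
    refine ThD_ent ?_ (hR x)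
    refine hf.comp ?_
    refine differentiable_pi.2 fun i => ?_
    fin_cases i
    · exact differentiable_const _
    · exact differentiable_id
  funext z
  have hz : z = ![z 0, z 1] := by
    funext i
    fin_cases i <;> rfl
  rw [hz]
  have h1 : ∀ w : ℂ, f ![w, z 1] = 0 := by
    refine ThD_ent ?_ (fun x => hL x (z 1))
    refine hf.comp ?_
    refine differentiable_pi.2 fun i => ?_
    fin_cases i
    · exact differentiable_id
    · exact differentiable_const _
  exact h1 (z 0)

end PerData

end Q2T
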