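import Pool.Agent.H.MP_89f84f_ag.q2.ThC

set_option autoImplicit false

open Complex Topology Filter Asymptotics Metric Set

namespace Q2T

namespace PerData

variable (S : PerData)

/-- The quadratic form of `Im τ` is positive definite. -/
theorem the_pos : ∃ c : ℝ, 0 < c ∧ ∀ p : Z2,
    c * ((p 0 : ℝ) ^ 2 + (p 1 : ℝ) ^ 2) ≤ (dot p (S.tv p)).im := by
  have ha := S.pos
  have hD := S.det_pos
  have he : 0 < (S.τ 1 1).im := by
    by_contra hc
    nlinarith [sq_nonneg (S.τ 0 1).im, mul_nonneg ha.le (neg_nonneg.2 (not_lt.1 hc))]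
  refine ⟨((S.τ 0 0).im * (S.τ 1 1).im - (S.τ 0 1).im ^ 2) / ((S.τ 0 0).im + (S.τ 1 1).im),
    div_pos (by linarith) (by linarith), fun p => ?_⟩
  have h1 : (dot p (S.tv p)).im = (S.τ 0 0).im * (p 0 : ℝ) ^ 2 +
      2 * (S.τ 0 1).im * ((p 0 : ℝ) * (p 1 : ℝ)) + (S.τ 1 1).im * (p 1 : ℝ) ^ 2 := by
    simp only [dot, tv_apply, ← S.symm, add_im, mul_im, intCast_re, intCast_im, add_re, mul_re]
    ring
  rw [h1, div_mul_eq_mul_div, div_le_iff₀ (by linarith)]
  nlinarith [sq_nonneg ((S.τ 0 0).im * (p 0 : ℝ) + (S.τ 0 1).im * (p 1 : ℝ)),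
    sq_nonneg ((S.τ 0 1).im * (p 0 : ℝ) + (S.τ 1 1).im * (p 1 : ℝ))]

/-- The terms of the Riemann theta series. -/
noncomputable def theT (u : ℤ) (p : Z2) (w : C2) : ℂ :=
  cexp (Real.pi * I * u * dot p (S.tv p) + dot p w)

/-- The linear form `w ↦ p · w`. -/
noncomputable def theL (p : Z2) : C2 →L[ℂ] ℂ :=
  (p 0 : ℂ) • ContinuousLinearMap.proj 0 + (p 1 : ℂ) • ContinuousLinearMap.proj 1

theorem theL_apply (p : Z2) (w : C2) : theL p w = dot p w := rfl

theorem theL_norm (p : Z2) : ‖theL p‖ ≤ |(p 0 : ℝ)| + |(p 1 : ℝ)| := by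
  refine ContinuousLinearMap.opNorm_le_bound _ (by positivity) fun w => ?_
  rw [theL_apply]
  unfold dot
  have h0 : ‖(p 0 : ℂ)‖ = |(p 0 : ℝ)| := by rw [norm_intCast]
  have h1 : ‖(p 1 : ℂ)‖ = |(p 1 : ℝ)| := by rw [norm_intCast]
  calc ‖(p 0 : ℂ) * w 0 + (p 1 : ℂ) * w 1‖ ≤ ‖(p 0 : ℂ) * w 0‖ + ‖(p 1 : ℂ) * w 1‖ := norm_add_le _ _
    _ = |(p 0 : ℝ)| * ‖w 0‖ + |(p 1 : ℝ)| * ‖w 1‖ := by rw [norm_mul, norm_mul, h0, h1]
    _ ≤ |(p 0 : ℝ)| * ‖w‖ + |(p 1 : ℝ)| * ‖w‖ := by
      gcongr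
      · exact norm_le_pi_norm w 0
      · exact norm_le_pi_norm w 1
    _ = _ := by ring

/-- The bounds of the terms. -/
noncomputable def theB (c R : ℝ) (p : Z2) : ℝ :=
  Real.exp (-(c * ((p 0 : ℝ) ^ 2 + (p 1 : ℝ) ^ 2)) + R * (|(p 0 : ℝ)| + |(p 1 : ℝ)|))

theorem theB_summable {c : ℝ} (hc : 0 < c) (R : ℝ) : Summable (theB c R) := by
  have h1 : Summable fun n : ℤ => Real.exp (-(c * (n : ℝ) ^ 2) + R * |(n : ℝ)|) := by
    have h2 := summable_pow_mul_jacobiTheta₂_term_bound (R / (2 * Real.pi))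
      (div_pos hc Real.pi_pos) 0
    refine h2.congr fun n => ?_
    rw [pow_zero, one_mul]
    congr 1
    have := Real.pi_pos.ne'
    push_cast
    field_simp
    ring
  have h3 := h1.mul_of_nonneg h1 (fun _ => (Real.exp_pos _).le) (fun _ => (Real.exp_pos _).le)
  have h4 := (finTwoArrowEquiv ℤ).summable_iff.2 h3
  refine h4.congr fun p => ?_
  show Real.exp (-(c * (p 0 : ℝ) ^ 2) + R * |(p 0 : ℝ)|) *
    Real.exp (-(c * (p 1 : ℝ) ^ 2) + R * |(p 1 : ℝ)|) = theB c R p
  unfold theB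
  rw [← Real.exp_add]
  congr 1
  ring

theorem theT_norm {c : ℝ} {u : ℤ} (hu : 1 ≤ u)
    (hq : ∀ p : Z2, c * ((p 0 : ℝ) ^ 2 + (p 1 : ℝ) ^ 2) ≤ (dot p (S.tv p)).im) (hc : 0 < c)
    {R : ℝ} {w : C2} (hw : ‖w‖ ≤ R) (p : Z2) : ‖S.theT u p w‖ ≤ theB (Real.pi * c) R p := by
  unfold theT theB
  rw [norm_exp]
  apply Real.exp_le_exp.2
  have h1 : (Real.pi * I * u * dot p (S.tv p) : ℂ).re = -(Real.pi * u * (dot p (S.tv p)).im) := by
    have h2 : (Real.pi * I * u * dot p (S.tv p) : ℂ) =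
        ((Real.pi * u : ℝ) : ℂ) * (I * dot p (S.tv p)) := by
      push_cast
      ring
    rw [h2, re_ofReal_mul, I_mul_re]
    ring
  have h3 : (dot p w).re ≤ R * (|(p 0 : ℝ)| + |(p 1 : ℝ)|) := by
    have h4 := (theL p).le_opNorm w
    rw [theL_apply] at h4
    calc (dot p w).re ≤ ‖dot p w‖ := re_le_norm _
      _ ≤ ‖theL p‖ * ‖w‖ := h4
      _ ≤ (|(p 0 : ℝ)| + |(p 1 : ℝ)|) * R := by
        gcongr
        exact theL_norm p
      _ = _ := mul_comm _ _
  rw [add_re, h1]
  refine add_le_add (neg_le_neg ?_) h3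
  have h5 := hq p
  have h6 : (1 : ℝ) ≤ u := by exact_mod_cast hu
  have h7 : 0 ≤ c * ((p 0 : ℝ) ^ 2 + (p 1 : ℝ) ^ 2) := by positivity
  calc Real.pi * c * ((p 0 : ℝ) ^ 2 + (p 1 : ℝ) ^ 2) =
      Real.pi * (1 * (c * ((p 0 : ℝ) ^ 2 + (p 1 : ℝ) ^ 2))) := by ring
    _ ≤ Real.pi * (u * (dot p (S.tv p)).im) := by
      refine mul_le_mul_of_nonneg_left ?_ Real.pi_pos.le
      exact mul_le_mul h6 h5 h7 (by linarith)
    _ = _ := by ring

theorem theT_summable {u : ℤ} (hu : 1 ≤ u) (w : C2) : Summable fun p => ‖S.theT u p w‖ := by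
  obtain ⟨c, hc, hq⟩ := S.the_pos
  exact Summable.of_nonneg_of_le (fun _ => norm_nonneg _)
    (fun p => S.theT_norm hu hq hc le_rfl p) (theB_summable (mul_pos Real.pi_pos hc) _)

theorem theT_differentiable {u : ℤ} (hu : 1 ≤ u) :
    Differentiable ℂ fun w => ∑' p, S.theT u p w := by
  obtain ⟨c, hc, hq⟩ := S.the_pos
  intro w
  have hd : ∀ (p : Z2) (x : C2), x ∈ Metric.ball (0 : C2) (‖w‖ + 1) →
      HasFDerivAt (S.theT u p) (S.theT u p x • theL p) x := by
    intro p x _
    have h1 : HasFDerivAt (fun w : C2 => (Real.pi * I * u * dot p (S.tv p) : ℂ) + theL p w)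
        (theL p) x := (theL p).hasFDerivAt.const_add _
    exact h1.cexp
  have hb : ∀ (p : Z2) (x : C2), x ∈ Metric.ball (0 : C2) (‖w‖ + 1) →
      ‖S.theT u p x • theL p‖ ≤ theB (Real.pi * c) (‖w‖ + 1 + 1) p := by
    intro p x hx
    rw [Metric.mem_ball, dist_zero_right] at hx
    rw [norm_smul]
    calc ‖S.theT u p x‖ * ‖theL p‖ ≤
        theB (Real.pi * c) (‖w‖ + 1) p * Real.exp (|(p 0 : ℝ)| + |(p 1 : ℝ)|) := by
          refine mul_le_mul (S.theT_norm hu hq hc hx.le p) ?_ (norm_nonneg _) (Real.exp_pos _).le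
          have h2 := Real.add_one_le_exp (|(p 0 : ℝ)| + |(p 1 : ℝ)|)
          have h3 := theL_norm p
          linarith
      _ = _ := by
        unfold theB
        rw [← Real.exp_add]
        congr 1
        ring
  have h0 : (0 : C2) ∈ Metric.ball (0 : C2) (‖w‖ + 1) := by
    rw [Metric.mem_ball, dist_self]
    positivity
  have hw : w ∈ Metric.ball (0 : C2) (‖w‖ + 1) := by
    rw [Metric.mem_ball, dist_zero_right]
    linarith
  exact (hasFDerivAt_tsum_of_isPreconnected (theB_summable (mul_pos Real.pi_pos hc) _)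
    Metric.isOpen_ball (convex_ball (0 : C2) (‖w‖ + 1)).isPreconnected hd hb h0
    (S.theT_summable hu 0).of_norm hw).differentiableAt

/-- The terms of the theta series. -/
noncomputable def theS (u : ℤ) (α β : Fin 2 → ℝ) (n p : Z2) (z : C2) : ℂ :=
  S.rf u α β n p * cexp (2 * Real.pi * I * S.rz α (n + S.sh u p) z)

/-- The argument of the Riemann theta series. -/
noncomputable def theW (u : ℤ) (α β : Fin 2 → ℝ) (n : Z2) (z : C2) : C2 := fun i =>
  -(2 * Real.pi * I * (β i : ℂ)) + 2 * Real.pi * I * (((n 0 : ℂ) + α 0) * S.τ 0 i +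
    ((n 1 : ℂ) + α 1) / (S.d : ℂ) * S.τ 1 i) + 2 * Real.pi * I * u * z i

theorem theS_eq (u : ℤ) (α β : Fin 2 → ℝ) (n p : Z2) (z : C2) :
    S.theS u α β n p z = cexp (2 * Real.pi * I * S.rz α n z) * S.theT u p (S.theW u α β n z) := by
  have hd : (S.d : ℂ) ≠ 0 := by
    exact_mod_cast S.d_pos.ne'
  unfold theS theT rf
  rw [← Complex.exp_add, ← Complex.exp_add]
  congr 1
  simp only [rz, sh, theW, dot, rdot, tv_apply, Pi.add_apply, Matrix.cons_val_zero,
    Matrix.cons_val_one]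
  push_cast
  field_simp
  ring

theorem theS_summable {u : ℤ} (hu : 1 ≤ u) (α β : Fin 2 → ℝ) (n : Z2) (z : C2) :
    Summable fun p => ‖S.theS u α β n p z‖ := by
  refine ((S.theT_summable hu (S.theW u α β n z)).mul_left
    ‖cexp (2 * Real.pi * I * S.rz α n z)‖).congr fun p => ?_
  rw [S.theS_eq, norm_mul]

theorem theS_differentiable {u : ℤ} (hu : 1 ≤ u) (α β : Fin 2 → ℝ) (n : Z2) :
    Differentiable ℂ fun z => ∑' p, S.theS u α β n p z := by
  have h1 : (fun z => ∑' p, S.theS u α β n p z) = fun z =>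
      cexp (2 * Real.pi * I * S.rz α n z) * ∑' p, S.theT u p (S.theW u α β n z) := by
    funext z
    rw [← tsum_mul_left]
    exact tsum_congr fun p => S.theS_eq u α β n p z
  rw [h1]
  have h2 : Differentiable ℂ fun z : C2 => cexp (2 * Real.pi * I * S.rz α n z) := by
    unfold rz
    fun_prop
  have h3 : Differentiable ℂ (S.theW u α β n) := by
    rw [differentiable_pi]
    intro i
    unfold theW
    fun_prop
  exact h2.mul ((S.theT_differentiable hu).comp h3)

/-- The cocycle rule. -/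
theorem the_rf_add (u : ℤ) (α β : Fin 2 → ℝ) (n p p' : Z2) :
    S.rf u α β n (p + p') = S.rf u α β n p * S.rf u α β (n + S.sh u p) p' := by
  have hd : (S.d : ℂ) ≠ 0 := by
    exact_mod_cast S.d_pos.ne'
  unfold rf
  rw [← Complex.exp_add]
  congr 1
  simp only [rz, sh, dot, rdot, tv_apply, Pi.add_apply, Matrix.cons_val_zero,
    Matrix.cons_val_one, ← S.symm]
  push_cast
  field_simp
  ring

theorem theS_trans (u : ℤ) (α β : Fin 2 → ℝ) (n p p' q : Z2) (z : C2) :
    S.theS u α β n p (z + S.tv p' + S.dv q) =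
      S.J u α β p' q z * S.theS u α β n (p + p') z := by
  have hd : (S.d : ℂ) ≠ 0 := by
    exact_mod_cast S.d_pos.ne'
  unfold theS
  rw [S.the_rf_add]
  have h1 : cexp (2 * Real.pi * I * S.rz α (n + S.sh u p) (z + S.tv p' + S.dv q)) =
      S.J u α β p' q z * (S.rf u α β (n + S.sh u p) p' *
        cexp (2 * Real.pi * I * S.rz α (n + S.sh u (p + p')) z)) := by
    unfold J rf
    rw [← Complex.exp_add, ← Complex.exp_add, ← Complex.exp_add, Complex.exp_eq_exp_iff_exists_int]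
    refine ⟨(n 0 + u * p 0) * q 0 + (n 1 + u * S.d * p 1) * q 1, ?_⟩
    simp only [rz, sh, dot, rdot, tv_apply, Pi.add_apply, Matrix.cons_val_zero,
      Matrix.cons_val_one, dv_zero', dv_one']
    push_cast
    field_simp
    ring
  rw [h1]
  ring

theorem the_integral (k : ℤ) : ∫ x in (0:ℝ)..1, cexp (2 * Real.pi * I * (k : ℂ) * (x : ℂ)) =
    if k = 0 then 1 else 0 := by
  split_ifs with hk
  · subst hk
    simp
  · have hc : (2 * Real.pi * I * (k : ℂ)) ≠ 0 := by
      have : (k : ℂ) ≠ 0 := by exact_mod_cast hk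
      simp [Real.pi_ne_zero, this]
    rw [integral_exp_mul_complex hc]
    have h1 : cexp (2 * Real.pi * I * (k : ℂ) * ((1 : ℝ) : ℂ)) = 1 := by
      rw [Complex.exp_eq_one_iff]
      exact ⟨k, by push_cast; ring⟩
    rw [h1]
    simp

theorem the_norm_one (k : ℤ) (x : ℝ) : ‖cexp (2 * Real.pi * I * (k : ℂ) * (x : ℂ))‖ = 1 := by
  have h1 : (2 * Real.pi * I * (k : ℂ) * (x : ℂ)) = ((2 * Real.pi * k * x : ℝ) : ℂ) * I := by
    push_cast
    ring
  rw [h1, norm_exp_ofReal_mul_I]

theorem theS_mul (u : ℤ) (α β : Fin 2 → ℝ) (n m p : Z2) (x y : ℝ) :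
    S.theS u α β n p ![(x : ℂ), (S.d : ℂ) * y] *
      cexp (-(2 * Real.pi * I * (((m 0 : ℂ) + α 0) * x + ((m 1 : ℂ) + α 1) * y))) =
    S.rf u α β n p * (cexp (2 * Real.pi * I * (((n + S.sh u p - m) 0 : ℤ) : ℂ) * (x : ℂ)) *
      cexp (2 * Real.pi * I * (((n + S.sh u p - m) 1 : ℤ) : ℂ) * (y : ℂ))) := by
  have hd : (S.d : ℂ) ≠ 0 := by
    exact_mod_cast S.d_pos.ne'
  unfold theS
  rw [mul_assoc, ← Complex.exp_add, ← Complex.exp_add]
  congr 2
  simp only [rz, sh, Pi.add_apply, Pi.sub_apply, Matrix.cons_val_zero, Matrix.cons_val_one]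
  push_cast
  field_simp
  ring

theorem the_hasSum_int {ι : Type*} [Countable ι] {F : ι → ℝ → ℂ} {f : ℝ → ℂ} {b : ι → ℝ}
    (hb : Summable b) (hF : ∀ i, Continuous (F i)) (hle : ∀ i t, ‖F i t‖ ≤ b i)
    (hf : ∀ t, HasSum (fun i => F i t) (f t)) :
    HasSum (fun i => ∫ t in (0:ℝ)..1, F i t) (∫ t in (0:ℝ)..1, f t) :=
  intervalIntegral.hasSum_integral_of_dominated_convergence (fun i _ => b i)
    (fun i => (hF i).aestronglyMeasurable) (fun i => MeasureTheory.ae_of_all _ fun t _ => hle i t)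
    (MeasureTheory.ae_of_all _ fun _ _ => hb) intervalIntegrable_const (MeasureTheory.ae_of_all _ fun t _ => hf t)

theorem the_congr {ι : Type*} {f g : ι → ℂ} {a : ℂ} (h : HasSum f a) (e : ∀ i, f i = g i) :
    HasSum g a := by
  rw [← funext e]
  exact h

theorem the_fc {u : ℤ} (hu : 1 ≤ u) (α β : Fin 2 → ℝ) (n m : Z2) :
    HasSum (fun p => S.rf u α β n p * (if m = n + S.sh u p then 1 else 0))
      (S.fc α (fun z => ∑' p, S.theS u α β n p z) m) := by
  have hb : Summable fun p => ‖S.rf u α β n p‖ := by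
    refine (S.theS_summable hu α β n 0).congr fun p => ?_
    unfold theS rz
    simp
  have h1 : ∀ x : ℝ, HasSum (fun p => S.rf u α β n p *
      (cexp (2 * Real.pi * I * (((n + S.sh u p - m) 0 : ℤ) : ℂ) * (x : ℂ)) *
        if (n + S.sh u p - m) 1 = 0 then 1 else 0))
      (∫ y in (0:ℝ)..1, (∑' p, S.theS u α β n p ![(x : ℂ), (S.d : ℂ) * y]) *
        cexp (-(2 * Real.pi * I * (((m 0 : ℂ) + α 0) * x + ((m 1 : ℂ) + α 1) * y)))) := by
    intro x
    have h2 := the_hasSum_int (F := fun p y => S.rf u α β n p *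
        (cexp (2 * Real.pi * I * (((n + S.sh u p - m) 0 : ℤ) : ℂ) * (x : ℂ)) *
        cexp (2 * Real.pi * I * (((n + S.sh u p - m) 1 : ℤ) : ℂ) * (y : ℂ))))
      (f := fun y : ℝ => (∑' p, S.theS u α β n p ![(x : ℂ), (S.d : ℂ) * y]) *
        cexp (-(2 * Real.pi * I * (((m 0 : ℂ) + α 0) * x + ((m 1 : ℂ) + α 1) * y)))) hb
      (fun p => by fun_prop) (fun p y => by
        rw [norm_mul, norm_mul, the_norm_one, the_norm_one]
        simp) (fun y => by
        have h3 := ((S.theS_summable hu α β n ![(x : ℂ), (S.d : ℂ) * y]).of_norm.hasSum).mul_right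
          (cexp (-(2 * Real.pi * I * (((m 0 : ℂ) + α 0) * x + ((m 1 : ℂ) + α 1) * y))))
        simp only [theS_mul] at h3
        exact h3)
    refine the_congr h2 fun p => ?_
    rw [intervalIntegral.integral_const_mul, intervalIntegral.integral_const_mul, the_integral]
  have h4 := the_hasSum_int (F := fun p x => S.rf u α β n p *
      (cexp (2 * Real.pi * I * (((n + S.sh u p - m) 0 : ℤ) : ℂ) * (x : ℂ)) *
        if (n + S.sh u p - m) 1 = 0 then 1 else 0)) hb
    (fun p => by fun_prop) (fun p x => by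
      rw [norm_mul, norm_mul, the_norm_one, one_mul]
      split_ifs
      · simp
      · simp) h1
  refine the_congr h4 fun p => ?_
  rw [intervalIntegral.integral_const_mul, intervalIntegral.integral_mul_const, the_integral]
  congr 1
  by_cases hm : m = n + S.sh u p
  · rw [if_pos hm, hm]
    simp
  · rw [if_neg hm]
    by_cases h0 : (n + S.sh u p - m) 0 = 0
    · have h5 : (n + S.sh u p - m) 1 ≠ 0 := by
        intro h5
        apply hm
        funext i
        fin_cases i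
        · exact (sub_eq_zero.1 h0).symm
        · exact (sub_eq_zero.1 h5).symm
      rw [if_neg h5, mul_zero]
    · rw [if_neg h0, zero_mul]

/-- Theta series: for `u ≥ 1` and every index `n` there is a theta function whose Fourier
coefficients are `rf u α β n p` at `n + sh u p` and zero at the other indices.
PROOF: `∑' p, rf u α β n p * exp (2 π i r(n + sh u p) · z)`; the terms are bounded on compact sets by
`C exp (-c ‖p‖ ^ 2)` (`Im τ` positive definite); termwise integration for the coefficients; the transformation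
under `τ p'` is reindexing `p → p + p'`: `rf` satisfies the cocycle rule
`rf n (p + p') = rf n p * rf (n + sh u p) p'`. -/
theorem exists_theta_series {u : ℤ} (hu : 1 ≤ u) (α β : Fin 2 → ℝ) (n : Z2) :
    ∃ f ∈ S.Th u α β, (∀ p, S.fc α f (n + S.sh u p) = S.rf u α β n p) ∧
      ∀ m, (∀ p, m ≠ n + S.sh u p) → S.fc α f m = 0 := by
  refine ⟨fun z => ∑' p, S.theS u α β n p z, ⟨S.theS_differentiable hu α β n, ?_⟩, ?_, ?_⟩
  · intro p' q z
    show ∑' p, S.theS u α β n p (z + S.tv p' + S.dv q) =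
      S.J u α β p' q z * ∑' p, S.theS u α β n p z
    simp only [theS_trans]
    rw [tsum_mul_left]
    congr 1
    exact (Equiv.addRight p').tsum_eq fun p => S.theS u α β n p z
  · intro p
    have h1 := S.the_fc hu α β n (n + S.sh u p)
    have h2 : HasSum (fun p' => S.rf u α β n p' *
        (if n + S.sh u p = n + S.sh u p' then 1 else 0)) (S.rf u α β n p) := by
      have h3 := hasSum_single (f := fun p' => S.rf u α β n p' *
        (if n + S.sh u p = n + S.sh u p' then 1 else 0)) p (by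
          intro p' hp'
          rw [if_neg, mul_zero]
          intro h4
          apply hp'
          have h5 := add_left_cancel h4
          have hd : (S.d : ℤ) ≠ 0 := by
            exact_mod_cast S.d_pos.ne'
          have hu0 : u ≠ 0 := by omega
          funext i
          fin_cases i
          · have h6 := congrFun h5 0
            simp only [sh, Matrix.cons_val_zero] at h6
            exact (mul_left_cancel₀ hu0 h6).symm
          · have h6 := congrFun h5 1
            simp only [sh, Matrix.cons_val_one] at h6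
            exact (mul_left_cancel₀ (mul_ne_zero hu0 hd) h6).symm)
      simpa using h3
    exact h1.unique h2
  · intro m hm
    have h1 := S.the_fc hu α β n m
    have h2 : (fun p => S.rf u α β n p * (if m = n + S.sh u p then (1 : ℂ) else 0)) =
        fun _ => 0 := by
      funext p
      rw [if_neg (hm p), mul_zero]
    rw [h2] at h1
    exact h1.unique hasSum_zero

end PerData

end Q2T
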