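import Pool.Agent.H.MP_89f84f_ag.q2.ThD
import Pool.Agent.H.MP_89f84f_ag.q2.ThE

set_option autoImplicit false

open Complex Topology Filter Asymptotics Metric Set Module

namespace Q2T

namespace PerData

variable (S : PerData)

/-- representatives of the indices modulo `(u, u d)` -/
def rep (u : ℕ) (i : Fin u × Fin (u * S.d)) : Z2 := ![(i.1 : ℤ), (i.2 : ℤ)]

private theorem ThF_per {u : ℤ} {α β : Fin 2 → ℝ} {f : C2 → ℂ} (hf : f ∈ S.Th u α β) (q : Z2)
    (z : C2) : f (z + S.dv q) = cexp (2 * Real.pi * I * ((rdot α q : ℝ) : ℂ)) * f z := by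
  have h := hf.2 0 q z
  rw [S.tv_zero, add_zero] at h
  rw [h]
  congr 1
  unfold J dot rdot
  rw [S.tv_zero]
  simp

private theorem ThF_rf_zero (u : ℤ) (α β : Fin 2 → ℝ) (n : Z2) : S.rf u α β n 0 = 1 := by
  unfold rf rz dot rdot
  rw [S.tv_zero]
  simp

private theorem ThF_sh_zero (u : ℤ) : S.sh u 0 = 0 := by
  funext i
  fin_cases i <;> simp [sh]

private theorem ThF_mod {u : ℕ} (hu : 1 ≤ u) (n : Z2) :
    ∃ (i : Fin u × Fin (u * S.d)) (p : Z2), n = S.rep u i + S.sh u p := by
  have hu0 : (0 : ℤ) < u := by exact_mod_cast hu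
  have hd0 : (0 : ℤ) < (u : ℤ) * S.d := by
    have := S.d_pos
    positivity
  have h1 := Int.emod_nonneg (n 0) hu0.ne'
  have h2 := Int.emod_lt_of_pos (n 0) hu0
  have h3 := Int.emod_nonneg (n 1) hd0.ne'
  have h4 := Int.emod_lt_of_pos (n 1) hd0
  refine ⟨(⟨(n 0 % u).toNat, by omega⟩, ⟨(n 1 % (u * S.d)).toNat, ?_⟩),
    ![n 0 / u, n 1 / (u * S.d)], ?_⟩
  · have h5 : (((n 1 % (u * S.d)).toNat : ℕ) : ℤ) < ((u * S.d : ℕ) : ℤ) := by
      rw [Int.toNat_of_nonneg h3]
      push_cast
      exact h4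
    exact_mod_cast h5
  · funext i
    fin_cases i
    · simp only [rep, sh, Pi.add_apply, Fin.zero_eta, Matrix.cons_val_zero]
      rw [Int.toNat_of_nonneg h1]
      have := Int.emod_add_mul_ediv (n 0) u
      linarith
    · simp only [rep, sh, Pi.add_apply, Fin.mk_one, Matrix.cons_val_one, Matrix.cons_val_zero]
      rw [Int.toNat_of_nonneg h3]
      have := Int.emod_add_mul_ediv (n 1) (u * S.d)
      linarith

private theorem ThF_uniq {u : ℕ} (i j : Fin u × Fin (u * S.d)) (p : Z2)
    (h : S.rep u j = S.rep u i + S.sh u p) : j = i := by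
  have key : ∀ (N a b : ℕ) (k : ℤ), a < N → b < N → (a : ℤ) = b + N * k → a = b := by
    intro N a b k ha hb hk
    have h1 : (a : ℤ) % N = (b : ℤ) % N := by
      rw [hk, Int.add_mul_emod_self_left]
    rw [Int.emod_eq_of_lt (by positivity) (by exact_mod_cast ha),
      Int.emod_eq_of_lt (by positivity) (by exact_mod_cast hb)] at h1
    exact_mod_cast h1
  have h0 := congrFun h 0
  have h1 := congrFun h 1
  simp only [rep, sh, Pi.add_apply, Matrix.cons_val_zero, Matrix.cons_val_one] at h0 h1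
  have e0 := key u j.1 i.1 (p 0) j.1.2 i.1.2 h0
  have e1 := key (u * S.d) j.2 i.2 (p 1) j.2.2 i.2.2 (by push_cast; exact h1)
  exact Prod.ext (Fin.ext e0) (Fin.ext e1)

/-- `Th u α β` is isomorphic to the functions on the representatives, through the Fourier coefficients.
PROOF: injective by `fc_rec` (every index is `rep i + sh u p`) and `eq_zero_of_fc`; surjective by
`exists_theta_series`. -/
theorem exists_equiv {u : ℕ} (hu : 1 ≤ u) (α β : Fin 2 → ℝ) :
    ∃ e : S.Th u α β ≃ₗ[ℂ] ((Fin u × Fin (u * S.d)) → ℂ), ∀ f i, e f i = S.fc α f (S.rep u i) := by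
  classical
  have hc : ∀ f : S.Th u α β, Continuous (f : C2 → ℂ) := fun f => f.2.1.continuous
  let φ : S.Th u α β →ₗ[ℂ] ((Fin u × Fin (u * S.d)) → ℂ) :=
    { toFun := fun f i => S.fc α f (S.rep u i)
      map_add' := fun f g => by
        funext i
        exact S.fc_add α (hc f) (hc g) _
      map_smul' := fun c f => by
        funext i
        exact S.fc_smul α c f _ }
  have hφ : ∀ f i, φ f i = S.fc α f (S.rep u i) := fun f i => rfl
  have hinj : Function.Injective φ := by
    rw [← LinearMap.ker_eq_bot, LinearMap.ker_eq_bot']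
    intro f hf
    apply Subtype.ext
    refine S.eq_zero_of_fc (α := α) f.2.1 (S.ThF_per f.2) fun n => ?_
    obtain ⟨i, p, rfl⟩ := S.ThF_mod hu n
    rw [S.fc_rec f.2, ← hφ, hf, Pi.zero_apply, mul_zero]
  have hsurj : Function.Surjective φ := by
    have hu' : (1 : ℤ) ≤ (u : ℤ) := by exact_mod_cast hu
    choose g hg hg1 hg2 using fun i : Fin u × Fin (u * S.d) =>
      S.exists_theta_series hu' α β (S.rep u i)
    have hs : ∀ i, φ ⟨g i, hg i⟩ = Pi.single i 1 := by
      intro i
      funext j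
      rw [hφ]
      by_cases hij : j = i
      · rw [hij, Pi.single_eq_same]
        have := hg1 i 0
        rwa [ThF_sh_zero, add_zero, ThF_rf_zero] at this
      · rw [Pi.single_eq_of_ne hij]
        exact hg2 i _ fun p hp => hij (S.ThF_uniq i j p hp)
    intro v
    refine ⟨∑ i, v i • (⟨g i, hg i⟩ : S.Th u α β), ?_⟩
    rw [map_sum]
    simp_rw [map_smul, hs]
    funext j
    rw [Finset.sum_apply, Finset.sum_eq_single j]
    · simp
    · intro i _ hij
      rw [Pi.smul_apply, Pi.single_eq_of_ne hij.symm, smul_zero]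
    · intro h
      exact absurd (Finset.mem_univ _) h
  exact ⟨LinearEquiv.ofBijective φ ⟨hinj, hsurj⟩, fun f i => rfl⟩

theorem finrank_th {u : ℤ} (hu : 1 ≤ u) (α β : Fin 2 → ℝ) : (finrank ℂ (S.Th u α β) : ℤ) = u ^ 2 * S.d := by
  obtain ⟨n, rfl⟩ := Int.eq_ofNat_of_zero_le (show 0 ≤ u by omega)
  obtain ⟨e, -⟩ := S.exists_equiv (u := n) (by exact_mod_cast hu) α β
  rw [e.finrank_eq, Module.finrank_fintype_fun_eq_card, Fintype.card_prod, Fintype.card_fin,
    Fintype.card_fin]
  push_cast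
  ring

theorem finite_th (u : ℤ) (α β : Fin 2 → ℝ) : FiniteDimensional ℂ (S.Th u α β) := by
  rcases lt_trichotomy u 0 with hu | hu | hu
  · have h1 : S.Th u α β = ⊥ := by
      rw [Submodule.eq_bot_iff]
      intro f hf
      exact S.th_level_neg hu hf
    rw [h1]
    infer_instance
  · subst hu
    have h1 : S.Th 0 α β ≤ Submodule.span ℂ {fun _ : C2 => (1 : ℂ)} := by
      intro f hf
      obtain ⟨c, rfl⟩ := S.th_level_zero hf
      rw [Submodule.mem_span_singleton]
      refine ⟨c, ?_⟩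
      funext z
      simp
    exact Submodule.finiteDimensional_of_le h1
  · obtain ⟨n, rfl⟩ := Int.eq_ofNat_of_zero_le hu.le
    obtain ⟨e, -⟩ := S.exists_equiv (u := n) (by exact_mod_cast hu) α β
    exact e.symm.finiteDimensional

end PerData

end Q2T
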