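import Pool.Agent.H.MP_89f84f_ag.q2.Cof
import Pool.Agent.H.MP_89f84f_ag.q2.KfB

set_option autoImplicit false

open Complex Topology Filter Asymptotics Metric Set Module Polynomial

namespace Q2T

namespace KForm

variable {S : PerData} {k : Subfield ℂ} (K : KForm S k)

theorem val_pow {n : ℕ} {h : C2 → ℂ} (hh : h ∈ K.R n) {m : ℕ} (hm : 1 ≤ m) : h ^ m ∈ K.R (m * n) := by
  induction m, hm using Nat.le_induction with
  | base => rwa [pow_one, one_mul]
  | succ m _ ih =>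
    rw [pow_succ, Nat.add_mul, one_mul]
    exact K.mul _ _ _ _ ih hh

theorem val_mono {x i L : ℕ} {t₁ t₂ : C2 → ℂ} (h₁ : t₁ ∈ K.R x) (h₂ : t₂ ∈ K.R x) (hi : i ≤ L) (hL : 1 ≤ L) :
    t₁ ^ i * t₂ ^ (L - i) ∈ K.R (L * x) := by
  rcases Nat.eq_zero_or_pos i with rfl | hi0
  · rw [pow_zero, one_mul, Nat.sub_zero]
    exact K.val_pow h₂ hL
  · rcases Nat.eq_zero_or_pos (L - i) with h | h
    · have e : i = L := by omega
      rw [h, pow_zero, mul_one, e]
      exact K.val_pow h₁ hL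
    · have h1 := K.mul _ _ _ _ (K.val_pow h₁ hi0) (K.val_pow h₂ h)
      have e : i * x + (L - i) * x = L * x := by
        rw [← Nat.add_mul]
        congr 1
        omega
      rwa [e] at h1

omit K in
theorem val_van_pow {N : ℕ} {h : C2 → ℂ} (hh : h ∈ Van N 0) (m : ℕ) :
    h ^ m ∈ Van (m * N) 0 := by
  induction m with
  | zero =>
    rw [pow_zero, Nat.zero_mul]
    exact van_zero continuous_one 0
  | succ m ih =>
    rw [pow_succ, Nat.add_mul, one_mul]
    exact van_mul ih hh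

omit K in
/-- Congruent attained points have the same value. -/
theorem val_ratio {n : ℤ} {s t₁ t₂ : C2 → ℂ} (h₁ : t₁ ∈ S.Th n 0 0) (h₂ : t₂ ∈ S.Th n 0 0) {c c' : ℂ} {Q Q' : C2}
    (hQ : S.At s t₁ t₂ c Q) (hQ' : S.At s t₁ t₂ c' Q') (h : Q - Q' ∈ S.Lat) : c = c' := by
  obtain ⟨p, q, hpq⟩ := h
  have e : Q = Q' + S.tv p + S.dv q := by
    rw [add_assoc, ← hpq]
    abel
  obtain ⟨-, -, ht, hc⟩ := hQ
  obtain ⟨-, -, ht', hc'⟩ := hQ'
  have h1 := h₁.2 p q Q'
  have h2 := h₂.2 p q Q'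
  rw [← e] at h1 h2
  have hJ := S.J_ne_zero n 0 0 p q Q'
  refine mul_right_cancel₀ (mul_ne_zero hJ ht') ?_
  rw [h1, hc', h2] at hc
  linear_combination -hc

/-- The curve can be chosen rational.
PROOF: `W = Th (2 a) ⊓ Par 1 ⊓ Van (2 b) 0` is rational (`rat_par_van`) and contains `s ≠ 0`; every `f ∈ W` is a multiple of `s`
(else `bezout` at `0` gives `4 b² ≤ 8 d a²`), so `f = c s` (`eq_smul_of_mult`).  A nonzero rational element is `c s`, `c ≠ 0`, and
inherits all properties. -/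
theorem exists_rat_curve {a b : ℕ} {s : C2 → ℂ} (C : S.Curve a b s) : ∃ s' ∈ K.R a, S.Curve a b s' := by
  have hW := K.rat_par_van a (2 * b) (ε := 1) (Or.inl rfl)
  obtain ⟨t, htW, htR, ht0⟩ := K.exists_one hW (W' := ⊥) (fun h => by
    have h1 : s ∈ (⊥ : Submodule ℂ (C2 → ℂ)) := h ⟨⟨C.mem, C.even⟩, C.van⟩
    exact C.ne ((Submodule.mem_bot ℂ).1 h1))
  have ht0' : t ≠ 0 := fun h => ht0 ((Submodule.mem_bot ℂ).2 h)
  have ha := C.ha
  have hmul : t ∈ Mult s := by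
    rcases C.dich _ _ _ t htW.1.1 ht0' with h | h
    · exact h
    · exfalso
      have h1 := S.bezout (u := 2 * a) (v := 2 * a) (by omega) (by omega) C.mem htW.1.1 C.ne ht0' h
        (r := 1) (fun _ => 0) (fun i k hik => absurd (Subsingleton.elim i k) hik) (fun _ => 2 * b)
        (fun _ => 2 * b) (fun _ => C.van) (fun _ => htW.2)
      have h2z : (b : ℤ) ^ 2 = 2 * S.d * a ^ 2 + 1 := by exact_mod_cast C.pell
      rw [Fin.sum_univ_one] at h1
      push_cast at h1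
      nlinarith
  obtain ⟨c, hc⟩ := S.eq_smul_of_mult C.mem C.ne htW.1.1 hmul
  have hc0 : c ≠ 0 := by
    rintro rfl
    exact ht0' (by rw [hc, zero_smul])
  refine ⟨t, htR, ⟨ha, C.pell, htW.1.1, ht0', htW.1.2, htW.2, fun hv => C.van' ?_, ?_⟩⟩
  · have h1 : s = c⁻¹ • t := by rw [hc, smul_smul, inv_mul_cancel₀ hc0, one_smul]
    rw [h1]
    exact Submodule.smul_mem _ _ hv
  · intro v α' β' t' ht' ht'0
    rcases C.dich v α' β' t' ht' ht'0 with ⟨h, hh, e⟩ | h
    · left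
      refine ⟨c⁻¹ • h, hh.const_smul _, ?_⟩
      rw [e, hc]
      funext z
      simp only [Pi.mul_apply, Pi.smul_apply, smul_eq_mul]
      field_simp
    · right
      intro p
      filter_upwards [h p] with z hz hz'
      refine hz ⟨?_, hz'.2⟩
      have h3 := hz'.1
      rw [hc, Pi.smul_apply, smul_eq_mul] at h3
      exact (mul_eq_zero.1 h3).resolve_left hc0

/-- A rational pencil.
PROOF: `exists_numbers`, `Curve.pencil_space`, `rat_par_van`, `rat_mult`, `rat_inf`, `exists_two` with `W' = W ⊓ Mult s`;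
`w` from `Curve.exists_w`. -/
theorem exists_rat_pen {a b : ℕ} {s : C2 → ℂ} (C : S.Curve a b s) (hs : s ∈ K.R a) :
    ∃ (x y : ℕ) (t₁ t₂ : C2 → ℂ), S.Pen a b x y s t₁ t₂ ∧ t₁ ∈ K.R x ∧ t₂ ∈ K.R x ∧
      ∃ w : C2 → ℂ, w ∈ S.Th (2 * (2 * x + a)) 0 0 ∧ w ∈ Par 1 ∧ w ∈ Van (2 * y + 2 * b) 0 ∧ w ∉ Mult s := by
  obtain ⟨j, x, y, hj, h1, hx, hy, hnum⟩ := exists_numbers S.d_pos C.ha C.pell
  have hW := K.rat_par_van x y (ε := -1) (Or.inr rfl)
  have hM := K.rat_mult (m := x) hs C.ne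
  have hW' := K.rat_inf hW hM
  have he : ((S.Th (2 * x) 0 0 ⊓ Par (-1) ⊓ Van y 0) ⊓ (S.Th (2 * x) 0 0 ⊓ Mult s) :
      Submodule ℂ (C2 → ℂ)) = (S.Th (2 * x) 0 0 ⊓ Par (-1) ⊓ Van y 0) ⊓ Mult s := by
    rw [← inf_assoc]
    congr 1
    exact inf_eq_left.2 (inf_le_left.trans inf_le_left)
  rw [he] at hW'
  obtain ⟨t₁, t₂, a₁, a₂, r₁, r₂, hi⟩ := K.exists_two hW hW' inf_le_left
    (C.pencil_space hj h1 hx hy)
  refine ⟨x, y, t₁, t₂, ⟨C, hnum, a₁.1.1, a₂.1.1, a₁.1.2, a₂.1.2, a₁.2, a₂.2, ?_⟩, r₁, r₂,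
    C.exists_w hj h1 hx hy⟩
  intro c₁ c₂ hc
  exact hi c₁ c₂ ⟨Submodule.add_mem _ (Submodule.smul_mem _ _ a₁) (Submodule.smul_mem _ _ a₂), hc⟩

/-- Rational forms.
PROOF: `Pen.exists_form` gives complex coefficients; `f` is in the complex span of the `k`-space `A` spanned by the
`t₁^i t₂^(2l-i)` and `{s h : h ∈ R (2 l x - a)}` (the cofactor is in `Th (2 (2 l x - a))`, which is zero if `2 l x < a`), so in `A`
(`mem_of_mem_span`); the coefficients are unique (`form_unique`).  At an attained value `c`, `Q` one has `t₁ Q = c t₂ Q`, `s Q = 0`. -/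
theorem exists_poly {a b x y : ℕ} {s t₁ t₂ : C2 → ℂ} (P : S.Pen a b x y s t₁ t₂) (hs : s ∈ K.R a)
    (h₁ : t₁ ∈ K.R x) (h₂ : t₂ ∈ K.R x) {l : ℕ} (hl : 1 ≤ l) {f : C2 → ℂ} (hf : f ∈ K.R (2 * l * x))
    (hp : f ∈ Par 1) (hv : f ∈ Van (2 * l * y) 0) :
    ∃ p : k[X], p.natDegree ≤ 2 * l ∧ (f ∉ Mult s → p ≠ 0) ∧
      ∀ c Q, S.At s t₁ t₂ c Q → f Q = t₂ Q ^ (2 * l) * (p.map k.subtype).eval c := by
  classical
  -- powers
  have hmono : ∀ i : Fin (2 * l + 1), t₁ ^ (i : ℕ) * t₂ ^ (2 * l - (i : ℕ)) ∈ K.R (2 * l * x) :=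
    fun i => K.val_mono h₁ h₂ (by omega) (by omega)
  obtain ⟨c, hc⟩ := P.exists_form hl (f := f) (by
    have h := K.mem hf
    have e : (2 * ((2 * l * x : ℕ) : ℤ)) = 4 * l * x := by push_cast; ring
    rwa [e] at h) hp hv
  -- the `k`-space
  let A' : Submodule k (C2 → ℂ) := K.R (2 * l * x) ⊓ (Mult s).restrictScalars k
  let A₀ : Submodule k (C2 → ℂ) := Submodule.span k
    (Set.range fun i : Fin (2 * l + 1) => t₁ ^ (i : ℕ) * t₂ ^ (2 * l - (i : ℕ)))
  have hA : A₀ ⊔ A' ≤ K.R (2 * l * x) := by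
    refine sup_le (Submodule.span_le.2 ?_) inf_le_left
    rintro _ ⟨i, rfl⟩
    exact hmono i
  have hsum : ∑ i, c i • (t₁ ^ (i : ℕ) * t₂ ^ (2 * l - (i : ℕ))) ∈
      Submodule.span ℂ ((A₀ ⊔ A' : Submodule k (C2 → ℂ)) : Set (C2 → ℂ)) := by
    refine Submodule.sum_mem _ fun i _ => Submodule.smul_mem _ _ (Submodule.subset_span ?_)
    exact Submodule.mem_sup_left (Submodule.subset_span ⟨i, rfl⟩)
  have hTh : ∑ i, c i • (t₁ ^ (i : ℕ) * t₂ ^ (2 * l - (i : ℕ))) ∈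
      S.Th (2 * ((2 * l * x : ℕ) : ℤ)) 0 0 :=
    Submodule.sum_mem _ fun i _ => Submodule.smul_mem _ _ (K.mem (hmono i))
  have hdif : f - ∑ i, c i • (t₁ ^ (i : ℕ) * t₂ ^ (2 * l - (i : ℕ))) ∈
      Submodule.span ℂ ((A₀ ⊔ A' : Submodule k (C2 → ℂ)) : Set (C2 → ℂ)) := by
    have h1 := (K.rat_mult (m := 2 * l * x) hs P.cur.ne).2
      (⟨Submodule.sub_mem _ (K.mem hf) hTh, hc⟩ : _ ∈ S.Th (2 * ((2 * l * x : ℕ) : ℤ)) 0 0 ⊓ Mult s)
    refine Submodule.span_mono ?_ h1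
    rintro g ⟨hg1, hg2⟩
    exact Submodule.mem_sup_right ⟨hg2, hg1.2⟩
  have hfs : f ∈ Submodule.span ℂ ((A₀ ⊔ A' : Submodule k (C2 → ℂ)) : Set (C2 → ℂ)) := by
    have h1 := Submodule.add_mem _ hdif hsum
    rwa [sub_add_cancel] at h1
  have hfA := K.mem_of_mem_span _ hA hf hfs
  obtain ⟨g₀, hg₀, g, hg, hfg⟩ := Submodule.mem_sup.1 hfA
  obtain ⟨q, hq⟩ := (Submodule.mem_span_range_iff_exists_fun k).1 hg₀
  obtain ⟨g', hg', hgs⟩ := (hg.2 : g ∈ Mult s)
  refine ⟨∑ i : Fin (2 * l + 1), Polynomial.monomial (i : ℕ) (q i), ?_, ?_, ?_⟩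
  · refine Polynomial.natDegree_sum_le_of_forall_le _ _ fun i _ => ?_
    exact (Polynomial.natDegree_monomial_le _).trans (by omega)
  · intro hfm hz
    apply hfm
    have h1 : ∀ i, q i = 0 := by
      intro i
      have h2 := congrArg (fun r => Polynomial.coeff r (i : ℕ)) hz
      simp only [Polynomial.finsetSum_coeff, Polynomial.coeff_monomial, Polynomial.coeff_zero] at h2
      rw [Finset.sum_eq_single i] at h2
      · simpa using h2
      · intro j _ hj
        rw [if_neg]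
        intro h
        exact hj (Fin.ext h)
      · intro h
        exact absurd (Finset.mem_univ i) h
    have h2 : g₀ = 0 := by
      rw [← hq]
      exact Finset.sum_eq_zero fun i _ => by rw [h1 i, zero_smul]
    rw [← hfg, h2, zero_add]
    exact hg.2
  · intro c' Q hQ
    obtain ⟨-, hsQ, -, htQ⟩ := hQ
    have h1 : f Q = ∑ i : Fin (2 * l + 1), (q i : ℂ) * (t₁ Q ^ (i : ℕ) * t₂ Q ^ (2 * l - (i : ℕ))) := by
      rw [← hfg, Pi.add_apply, hgs, Pi.mul_apply, hsQ, zero_mul, add_zero, ← hq, Finset.sum_apply]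
      refine Finset.sum_congr rfl fun i _ => ?_
      rfl
    rw [h1, Polynomial.map_sum, Polynomial.eval_finsetSum, Finset.mul_sum]
    refine Finset.sum_congr rfl fun i _ => ?_
    rw [Polynomial.map_monomial, Polynomial.eval_monomial, htQ, mul_pow]
    have h2 : t₂ Q ^ (2 * l) = t₂ Q ^ (i : ℕ) * t₂ Q ^ (2 * l - (i : ℕ)) := by
      rw [← pow_add]
      congr 1
      omega
    rw [h2]
    show (q i : ℂ) * _ = _ * ((q i : ℂ) * c' ^ (i : ℕ))
    ring

/-- All even ratios at `z` are in `k`. -/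
def EvK (z : C2) : Prop := ∀ (m : ℕ) (f g : C2 → ℂ), f ∈ K.R m → g ∈ K.R m → f ∈ Par 1 → g ∈ Par 1 →
  g z ≠ 0 → f z / g z ∈ k

/-- Values of even functions at the points of the curve with parameter in `k`.
PROOF: `h` of `Pen.exists_h` for `n = 1` can be chosen in `K.R (2 l x - 1)` (`exists_one` for the rational space
`Th (2 (2 l x - 1)) ⊓ Par 1 ⊓ Van (2 l y) 0`, which is not contained in `Mult s`).  `B` = the values attained at zeros of `h`: finite,
because otherwise `h` has arbitrarily many zeros on the curve (`Curve.mult_of_many`).  For `c ∉ B` attained at `Q`, `h Q ≠ 0`.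
If `m ≥ 1`: `f h^m`, `g h^m` are in `K.R (2 (m l) x)`, even, of order `≥ 2 (m l) y`, so by `exists_poly` their quotient at `Q`
is a quotient of values at `c` of polynomials over `k`.  `m = 0`: `f, g` are constant, with values in `k` (`zero`). -/
theorem exists_evK {a b x y : ℕ} {s t₁ t₂ : C2 → ℂ} (P : S.Pen a b x y s t₁ t₂) (hs : s ∈ K.R a)
    (h₁ : t₁ ∈ K.R x) (h₂ : t₂ ∈ K.R x)
    (hw : ∃ w : C2 → ℂ, w ∈ S.Th (2 * (2 * x + a)) 0 0 ∧ w ∈ Par 1 ∧ w ∈ Van (2 * y + 2 * b) 0 ∧ w ∉ Mult s) :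
    ∃ B : Set ℂ, B.Finite ∧ ∀ c ∈ k, c ∉ B → ∀ Q, S.At s t₁ t₂ c Q → K.EvK Q := by
  classical
  obtain ⟨l, h, hl, hn, hh1, hh2, hh3, hh4⟩ := P.exists_h hw 1 le_rfl
  -- a rational `h`
  have hW := K.rat_par_van (2 * l * x - 1) (2 * l * y) (ε := 1) (Or.inl rfl)
  have e0 : (((2 * l * x - 1 : ℕ) : ℤ)) = 2 * l * x - (1 : ℕ) := by
    rw [Nat.cast_sub hn]
    push_cast
    ring
  rw [e0] at hW
  obtain ⟨t, htW, htR, htM⟩ := K.exists_one hW (W' := Mult s) (fun hle => hh4 (hle ⟨⟨hh1, hh2⟩, hh3⟩))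
  refine ⟨{c | ∃ Q, S.At s t₁ t₂ c Q ∧ t Q = 0}, ?_, ?_⟩
  · by_contra hinf
    apply htM
    refine P.cur.mult_of_many htW.1.1 fun N => ?_
    obtain ⟨F, hF1, hF2⟩ := (show Set.Infinite _ from hinf).exists_subset_card_eq N
    have hF3 : ∀ c : F, ∃ Q, S.At s t₁ t₂ c Q ∧ t Q = 0 := fun c => hF1 c.2
    choose Q hQ using hF3
    let e := F.equivFinOfCardEq hF2
    refine ⟨fun i => Q (e.symm i), fun i => ⟨(hQ (e.symm i)).1.2.1, (hQ (e.symm i)).2⟩, ?_⟩
    intro i j hij hlat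
    apply hij
    apply e.symm.injective
    apply Subtype.ext
    exact val_ratio P.m₁ P.m₂ (hQ (e.symm i)).1 (hQ (e.symm j)).1 hlat
  · intro c hck hcB Q hQ
    have htQ : t Q ≠ 0 := fun h0 => hcB ⟨Q, hQ, h0⟩
    intro m f g hf hg hfp hgp hgQ
    rcases Nat.eq_zero_or_pos m with rfl | hm
    · have cst : ∀ u : C2 → ℂ, u ∈ K.R 0 → u Q ∈ k := by
        intro u hu
        have h1 := K.mem hu
        have h2 : u ∈ S.Th 0 0 0 := by
          have e : (2 * ((0 : ℕ) : ℤ)) = 0 := by norm_num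
          rwa [e] at h1
        obtain ⟨d, hd⟩ := S.th_level_zero h2
        have h3 := K.zero 0 u hu
        rw [hd] at h3 ⊢
        exact h3
      exact k.div_mem (cst f hf) (cst g hg)
    · have key : ∀ u : C2 → ℂ, u ∈ K.R m → u ∈ Par 1 → ∃ r ∈ k, u Q * t Q ^ m = t₂ Q ^ (2 * (m * l)) * r := by
        intro u hu hup
        have hR : u * t ^ m ∈ K.R (2 * (m * l) * x) := by
          have h1 := K.mul _ _ _ _ hu (K.val_pow htR hm)
          have e : m + m * (2 * l * x - 1) = 2 * (m * l) * x := by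
            have e1 : m + m * (2 * l * x - 1) = m * (2 * l * x - 1 + 1) := by ring
            rw [e1, Nat.sub_add_cancel hn]
            ring
          rwa [e] at h1
        have hP : u * t ^ m ∈ Par 1 := by
          intro z
          have h1 := hup z
          have h2 := htW.1.2 z
          simp only [Pi.mul_apply, Pi.pow_apply, one_mul] at h1 h2 ⊢
          rw [h1, h2]
        have hV : u * t ^ m ∈ Van (2 * (m * l) * y) 0 := by
          have h1 := van_mul (van_zero (K.mem hu).1.continuous 0) (val_van_pow htW.2 m)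
          have e : 0 + m * (2 * l * y) = 2 * (m * l) * y := by ring
          rwa [e] at h1
        obtain ⟨p, -, -, h3⟩ := K.exists_poly P hs h₁ h₂ (l := m * l) (Nat.mul_pos hm hl) hR hP hV
        refine ⟨(p.map k.subtype).eval c, ?_, ?_⟩
        · have e : (p.map k.subtype).eval c = ((p.eval ⟨c, hck⟩ : k) : ℂ) := by
            rw [Polynomial.eval_map]
            have h4 := Polynomial.hom_eval₂ p (RingHom.id k) k.subtype ⟨c, hck⟩
            simp only [RingHom.comp_id] at h4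
            exact h4.symm
          rw [e]
          exact Subtype.coe_prop _
        · have h4 := h3 c Q hQ
          rw [← h4]
          rfl
      obtain ⟨r, hr, h1⟩ := key f hf hfp
      obtain ⟨r', hr', h2⟩ := key g hg hgp
      have ht2 : t₂ Q ≠ 0 := hQ.2.2.1
      have hr0 : r' ≠ 0 := by
        rintro rfl
        rw [mul_zero] at h2
        exact (mul_ne_zero hgQ (pow_ne_zero _ htQ)) h2
      have e : f Q / g Q = r / r' := by
        rw [div_eq_div_iff hgQ hr0]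
        have h3 : t Q ^ m ≠ 0 := pow_ne_zero _ htQ
        have h4 : t₂ Q ^ (2 * (m * l)) ≠ 0 := pow_ne_zero _ ht2
        refine mul_right_cancel₀ (mul_ne_zero h3 h4) ?_
        linear_combination (r' * t₂ Q ^ (2 * (m * l))) * h1 - (r * t₂ Q ^ (2 * (m * l))) * h2
      rw [e]
      exact k.div_mem hr hr'

end KForm

end Q2T
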