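import Pool.Agent.H.MP_89f84f_ag.q2.Defs

set_option autoImplicit false

open Complex Topology Filter Asymptotics Metric Set

namespace Q2T

private theorem VanA_mem {N : ℕ} {p : C2} {f : C2 → ℂ} :
    f ∈ Van N p ↔ f =O[𝓝 p] fun z => ‖z - p‖ ^ N := Iff.rfl

theorem van_mono {N M : ℕ} (h : N ≤ M) (p : C2) : Van M p ≤ Van N p := by
  intro f hf
  rw [VanA_mem] at hf ⊢
  refine hf.trans (IsBigO.of_bound 1 ?_)
  filter_upwards [Metric.closedBall_mem_nhds p one_pos] with z hz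
  rw [mem_closedBall, dist_eq_norm] at hz
  rw [one_mul, norm_pow, norm_pow, norm_norm]
  exact pow_le_pow_of_le_one (norm_nonneg _) hz h

theorem van_zero {f : C2 → ℂ} (hf : Continuous f) (p : C2) : f ∈ Van 0 p := by
  rw [VanA_mem]
  simp only [pow_zero]
  exact (hf.tendsto p).isBigO_one ℝ

theorem van_mul {N M : ℕ} {p : C2} {f g : C2 → ℂ} (hf : f ∈ Van N p) (hg : g ∈ Van M p) :
    f * g ∈ Van (N + M) p := by
  rw [VanA_mem] at hf hg ⊢
  simp only [pow_add]
  exact hf.mul hg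

/-- For differentiable `f`: order at least one iff `f p = 0`. -/
theorem van_one_iff {f : C2 → ℂ} (hf : Differentiable ℂ f) (p : C2) : f ∈ Van 1 p ↔ f p = 0 := by
  rw [VanA_mem]
  simp only [pow_one]
  constructor
  · intro h
    obtain ⟨C, hC⟩ := h.bound
    have h1 := hC.self_of_nhds
    rw [sub_self, norm_zero, norm_zero, mul_zero] at h1
    exact norm_le_zero_iff.1 h1
  · intro h
    have h1 := (hf p).isBigO_sub
    rw [h] at h1
    simp only [sub_zero] at h1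
    exact h1.norm_right

/-- `Van` depends only on the germ. -/
theorem van_congr {N : ℕ} {p : C2} {f g : C2 → ℂ} (h : f =ᶠ[𝓝 p] g) :
    f ∈ Van N p ↔ g ∈ Van N p := by
  rw [VanA_mem, VanA_mem]
  exact isBigO_congr h EventuallyEq.rfl

/-- translation -/
theorem van_comp_add {N : ℕ} {p x : C2} {f : C2 → ℂ} :
    (fun z => f (z + x)) ∈ Van N p ↔ f ∈ Van N (p + x) := by
  rw [VanA_mem, VanA_mem]
  have h1 : 𝓝 (p + x) = map (fun z => z + x) (𝓝 p) :=
    ((Homeomorph.addRight x).map_nhds_eq p).symm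
  rw [h1, isBigO_map]
  have h2 : ((fun z : C2 => ‖z - (p + x)‖ ^ N) ∘ fun z => z + x) = fun z => ‖z - p‖ ^ N := by
    funext z
    show ‖z + x - (p + x)‖ ^ N = ‖z - p‖ ^ N
    rw [add_sub_add_right_eq_sub]
  rw [h2]
  rfl

/-- `z ↦ n z`, `n ≠ 0`. -/
theorem van_comp_smul {N : ℕ} {p : C2} {f : C2 → ℂ} {c : ℂ} (hc : c ≠ 0) :
    (fun z => f (c • z)) ∈ Van N p ↔ f ∈ Van N (c • p) := by
  rw [VanA_mem, VanA_mem]
  have h1 : 𝓝 (c • p) = map (fun z => c • z) (𝓝 p) :=
    ((Homeomorph.smulOfNeZero c hc).map_nhds_eq p).symm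
  rw [h1, isBigO_map]
  have h2 : ((fun z : C2 => ‖z - c • p‖ ^ N) ∘ fun z => c • z) =
      fun z => ‖c‖ ^ N * ‖z - p‖ ^ N := by
    funext z
    show ‖c • z - c • p‖ ^ N = ‖c‖ ^ N * ‖z - p‖ ^ N
    rw [← smul_sub, norm_smul, mul_pow]
  have h3 : ‖c‖ ^ N ≠ 0 := pow_ne_zero _ (norm_ne_zero_iff.2 hc)
  rw [h2, isBigO_const_mul_right_iff h3]
  rfl

/-- multiplication by a nonvanishing entire function -/
theorem van_mul_unit {N : ℕ} {p : C2} {f e : C2 → ℂ} (he : Continuous e) (h0 : e p ≠ 0) :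
    e * f ∈ Van N p ↔ f ∈ Van N p := by
  constructor
  · intro h
    rw [VanA_mem] at h ⊢
    have h1 : (fun z => (e z)⁻¹) =O[𝓝 p] fun _ => (1 : ℝ) :=
      (he.continuousAt.inv₀ h0).tendsto.isBigO_one ℝ
    have h2 := h1.mul h
    simp only [one_mul] at h2
    refine h2.congr' ?_ EventuallyEq.rfl
    filter_upwards [he.continuousAt.eventually_ne h0] with z hz
    show (e z)⁻¹ * (e z * f z) = f z
    rw [← mul_assoc, inv_mul_cancel₀ hz, one_mul]
  · intro h
    have h1 := van_mul (van_zero he p) h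
    rwa [zero_add] at h1

end Q2T
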