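import Pool.Agent.H.MP_89f84f_ag.q2.VanA
import Pool.Agent.H.MP_ceb9a9.Scv1

set_option autoImplicit false

open Complex Topology Filter Asymptotics Metric Set

namespace Q2T

/-- Taylor coefficients at `p`. -/
noncomputable def tc (p : C2) (f : C2 → ℂ) (i j : ℕ) : ℂ :=
  iteratedDeriv i (fun a : ℂ => iteratedDeriv j (fun b : ℂ => f ![p 0 + a, p 1 + b]) 0 / (j.factorial : ℂ)) 0 /
    (i.factorial : ℂ)

private noncomputable def VanB_c (p : C2) (f : C2 → ℂ) (j : ℕ) (a : ℂ) : ℂ :=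
  iteratedDeriv j (fun b : ℂ => f ![p 0 + a, p 1 + b]) 0 / (j.factorial : ℂ)

private theorem VanB_tc (p : C2) (f : C2 → ℂ) (i j : ℕ) :
    tc p f i j = iteratedDeriv i (VanB_c p f j) 0 / (i.factorial : ℂ) := rfl

private theorem VanB_curve (p : C2) (a b : ℂ) :
    HasDerivAt (fun b : ℂ => (![p 0 + a, p 1 + b] : C2)) ![0, 1] b := by
  rw [hasDerivAt_pi]
  intro i
  fin_cases i
  · exact hasDerivAt_const b (p 0 + a)
  · exact (hasDerivAt_id b).const_add (p 1)

private theorem VanB_curve' (p : C2) (a b : ℂ) :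
    HasDerivAt (fun a : ℂ => (![p 0 + a, p 1 + b] : C2)) ![1, 0] a := by
  rw [hasDerivAt_pi]
  intro i
  fin_cases i
  · exact (hasDerivAt_id a).const_add (p 0)
  · exact hasDerivAt_const a (p 1 + b)

private theorem VanB_slice {f : C2 → ℂ} (hf : Differentiable ℂ f) (p : C2) (a : ℂ) :
    Differentiable ℂ fun b : ℂ => f ![p 0 + a, p 1 + b] := fun b =>
  (hf _).comp b (VanB_curve p a b).differentiableAt

private theorem VanB_G {f : C2 → ℂ} (hf : Differentiable ℂ f) (p : C2) (j : ℕ) :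
    ∃ G : C2 → ℂ, Differentiable ℂ G ∧ ∀ a b : ℂ,
      iteratedDeriv j (fun b : ℂ => f ![p 0 + a, p 1 + b]) b = G ![p 0 + a, p 1 + b] := by
  induction j with
  | zero => exact ⟨f, hf, fun a b => by rw [iteratedDeriv_zero]⟩
  | succ j ih =>
    obtain ⟨G, hG, h⟩ := ih
    refine ⟨fun z => fderiv ℂ G z ![0, 1], ?_, fun a b => ?_⟩
    · have h1 : Differentiable ℂ (fderiv ℂ G) := by
        rw [← differentiableOn_univ]
        exact OkaP.differentiableOn_fderiv isOpen_univ hG.differentiableOn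
      exact fun z => (h1 z).clm_apply (differentiableAt_const _)
    · rw [iteratedDeriv_succ]
      have h2 : iteratedDeriv j (fun b : ℂ => f ![p 0 + a, p 1 + b]) =
          fun b => G ![p 0 + a, p 1 + b] := funext fun b => h a b
      rw [h2]
      exact ((hG _).hasFDerivAt.comp_hasDerivAt b (VanB_curve p a b)).deriv

private theorem VanB_cdiff {f : C2 → ℂ} (hf : Differentiable ℂ f) (p : C2) (j : ℕ) :
    Differentiable ℂ (VanB_c p f j) := by
  obtain ⟨G, hG, h⟩ := VanB_G hf p j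
  have h1 : VanB_c p f j = fun a => G ![p 0 + a, p 1 + 0] / (j.factorial : ℂ) := by
    funext a
    rw [VanB_c, h]
  rw [h1]
  intro a
  exact ((hG _).comp a (VanB_curve' p a 0).differentiableAt).div_const _

private theorem VanB_cauchy {g : ℂ → ℂ} (hg : Differentiable ℂ g) {r M : ℝ} (hr : 0 < r)
    (hM : ∀ z, ‖z‖ ≤ r → ‖g z‖ ≤ M) (n : ℕ) :
    ‖iteratedDeriv n g 0 / (n.factorial : ℂ)‖ ≤ M / r ^ n := by
  have h := norm_iteratedDeriv_le_of_forall_mem_sphere_norm_le (c := 0) (C := M) n hr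
    hg.diffContOnCl (fun z hz => hM z (by rw [mem_sphere_zero_iff_norm] at hz; exact hz.le))
  have hn : (0 : ℝ) < n.factorial := by exact_mod_cast n.factorial_pos
  rw [norm_div, Complex.norm_natCast, div_le_iff₀ hn]
  refine h.trans (le_of_eq ?_)
  ring

private theorem VanB_sum {g : ℂ → ℂ} (hg : Differentiable ℂ g) (b : ℂ) :
    HasSum (fun n : ℕ => iteratedDeriv n g 0 / (n.factorial : ℂ) * b ^ n) (g b) := by
  have h1 := Complex.hasSum_taylorSeries_of_entire hg 0 b
  have h2 : (fun n : ℕ => iteratedDeriv n g 0 / (n.factorial : ℂ) * b ^ n) =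
      fun n : ℕ => ((n.factorial : ℂ))⁻¹ • (b - 0) ^ n • iteratedDeriv n g 0 := by
    funext n
    simp only [sub_zero, smul_eq_mul]
    ring
  rw [h2]
  exact h1

private theorem VanB_rem {g : ℂ → ℂ} (hg : Differentiable ℂ g) {r M : ℝ} (hr : 0 < r)
    (hM : ∀ z, ‖z‖ ≤ r → ‖g z‖ ≤ M) (N : ℕ) {b : ℂ} (hb : ‖b‖ ≤ r / 2) :
    ‖g b - ∑ j ∈ Finset.range N, iteratedDeriv j g 0 / (j.factorial : ℂ) * b ^ j‖ ≤
      2 * M * (‖b‖ / r) ^ N := by
  have hM0 : 0 ≤ M := (norm_nonneg _).trans (hM 0 (by rw [norm_zero]; exact hr.le))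
  have h3 := (hasSum_nat_add_iff' N).2 (VanB_sum hg b)
  have hρ : ‖b‖ / r ≤ 1 / 2 := by
    rw [div_le_iff₀ hr]
    linarith
  have hρ0 : 0 ≤ ‖b‖ / r := by positivity
  have h4 : HasSum (fun n : ℕ => M * (‖b‖ / r) ^ N * (1 / 2) ^ n) (M * (‖b‖ / r) ^ N * 2) :=
    hasSum_geometric_two.mul_left _
  refine (h3.norm_le_of_bounded h4 fun n => ?_).trans (le_of_eq (by ring))
  rw [norm_mul, norm_pow]
  calc ‖iteratedDeriv (n + N) g 0 / ((n + N).factorial : ℂ)‖ * ‖b‖ ^ (n + N)
      ≤ M / r ^ (n + N) * ‖b‖ ^ (n + N) := by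
        gcongr
        exact VanB_cauchy hg hr hM (n + N)
    _ = M * (‖b‖ / r) ^ N * (‖b‖ / r) ^ n := by
        rw [div_pow, div_pow, pow_add, pow_add]
        field_simp
    _ ≤ M * (‖b‖ / r) ^ N * (1 / 2) ^ n := by
        gcongr

theorem tc_add {p : C2} {f g : C2 → ℂ} (hf : Differentiable ℂ f) (hg : Differentiable ℂ g) (i j : ℕ) :
    tc p (f + g) i j = tc p f i j + tc p g i j := by
  have h1 : VanB_c p (f + g) j = VanB_c p f j + VanB_c p g j := by
    funext a
    have h2 : (fun b : ℂ => (f + g) ![p 0 + a, p 1 + b]) =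
        (fun b : ℂ => f ![p 0 + a, p 1 + b]) + fun b : ℂ => g ![p 0 + a, p 1 + b] := rfl
    rw [Pi.add_apply, VanB_c, VanB_c, VanB_c, h2,
      iteratedDeriv_add (VanB_slice hf p a).contDiff.contDiffAt
        (VanB_slice hg p a).contDiff.contDiffAt, add_div]
  rw [VanB_tc, VanB_tc, VanB_tc, h1, iteratedDeriv_add (VanB_cdiff hf p j).contDiff.contDiffAt
    (VanB_cdiff hg p j).contDiff.contDiffAt, add_div]

theorem tc_smul {p : C2} {f : C2 → ℂ} (hf : Differentiable ℂ f) (c : ℂ) (i j : ℕ) :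
    tc p (c • f) i j = c * tc p f i j := by
  have h1 : VanB_c p (c • f) j = fun a => c * VanB_c p f j a := by
    funext a
    have h2 : (fun b : ℂ => (c • f) ![p 0 + a, p 1 + b]) =
        fun b : ℂ => c * f ![p 0 + a, p 1 + b] := rfl
    rw [VanB_c, VanB_c, h2, iteratedDeriv_const_mul_field, mul_div_assoc]
  rw [VanB_tc, VanB_tc, h1, iteratedDeriv_const_mul_field, mul_div_assoc]

private theorem VanB_pow (n m : ℕ) :
    iteratedDeriv n (fun b : ℂ => b ^ m) 0 / (n.factorial : ℂ) = if n = m then 1 else 0 := by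
  rw [iteratedDeriv_fun_pow_zero]
  by_cases h : n = m
  · subst h
    rw [if_pos rfl, if_pos rfl]
    exact div_self (by exact_mod_cast n.factorial_ne_zero)
  · rw [if_neg h, if_neg h, Nat.cast_zero, zero_div]

theorem tc_monomial (p : C2) (i j i' j' : ℕ) :
    tc p (fun z => (z 0 - p 0) ^ i * (z 1 - p 1) ^ j) i' j' = if i' = i ∧ j' = j then 1 else 0 := by
  have h1 : VanB_c p (fun z => (z 0 - p 0) ^ i * (z 1 - p 1) ^ j) j' =
      fun a => (if j' = j then 1 else 0) * a ^ i := by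
    funext a
    have h2 : (fun b : ℂ => ((![p 0 + a, p 1 + b] : C2) 0 - p 0) ^ i *
        ((![p 0 + a, p 1 + b] : C2) 1 - p 1) ^ j) = fun b : ℂ => a ^ i * b ^ j := by
      funext b
      have h3 : (![p 0 + a, p 1 + b] : C2) 0 - p 0 = a := add_sub_cancel_left _ _
      have h4 : (![p 0 + a, p 1 + b] : C2) 1 - p 1 = b := add_sub_cancel_left _ _
      rw [h3, h4]
    rw [VanB_c, h2, iteratedDeriv_const_mul_field, mul_div_assoc, VanB_pow, mul_comm]
  rw [VanB_tc, h1, iteratedDeriv_const_mul_field, mul_div_assoc, VanB_pow]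
  by_cases hi : i' = i
  · by_cases hj : j' = j
    · rw [if_pos hi, if_pos hj, if_pos ⟨hi, hj⟩, one_mul]
    · rw [if_neg hj, if_neg (show ¬ (i' = i ∧ j' = j) from fun h => hj h.2), zero_mul]
  · rw [if_neg hi, if_neg (show ¬ (i' = i ∧ j' = j) from fun h => hi h.1), mul_zero]

private theorem VanB_ball {p : C2} {r : ℝ} {a b : ℂ} (ha : ‖a‖ ≤ r) (hb : ‖b‖ ≤ r) :
    (![p 0 + a, p 1 + b] : C2) ∈ closedBall p r := by
  rw [mem_closedBall, dist_pi_le_iff ((norm_nonneg _).trans ha)]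
  intro i
  fin_cases i
  · show dist (p 0 + a) (p 0) ≤ r
    rw [dist_eq_norm, add_sub_cancel_left]
    exact ha
  · show dist (p 1 + b) (p 1) ≤ r
    rw [dist_eq_norm, add_sub_cancel_left]
    exact hb

private theorem VanB_cnorm {p : C2} {f : C2 → ℂ} (hf : Differentiable ℂ f) {r M : ℝ} (hr : 0 < r)
    (hM : ∀ z ∈ closedBall p r, ‖f z‖ ≤ M) (j : ℕ) (a : ℂ) (ha : ‖a‖ ≤ r) :
    ‖VanB_c p f j a‖ ≤ M / r ^ j :=
  VanB_cauchy (VanB_slice hf p a) hr (fun _ hb => hM _ (VanB_ball ha hb)) j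

/-- Cauchy estimate (iterated in the two variables). -/
theorem tc_norm_le {p : C2} {f : C2 → ℂ} (hf : Differentiable ℂ f) {r M : ℝ} (hr : 0 < r)
    (hM : ∀ z ∈ closedBall p r, ‖f z‖ ≤ M) (i j : ℕ) : ‖tc p f i j‖ ≤ M / r ^ (i + j) := by
  rw [VanB_tc]
  refine (VanB_cauchy (VanB_cdiff hf p j) hr (fun a ha => VanB_cnorm hf hr hM j a ha) i).trans
    (le_of_eq ?_)
  rw [div_div, ← pow_add, add_comm]

private theorem VanB_eq (p z : C2) : (![p 0 + (z 0 - p 0), p 1 + (z 1 - p 1)] : C2) = z := by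
  funext i
  fin_cases i
  · exact add_sub_cancel _ _
  · exact add_sub_cancel _ _

/-- Taylor formula: the remainder after the terms of total degree `< N` is in `Van N p`.
PROOF: `f (p + h)` is the sum of its double power series `∑ tc p f i j h₀ ^ i h₁ ^ j`, absolutely
convergent on a polydisc by `tc_norm_le`; terms with `i + j ≥ N` are bounded by
`C ‖h‖ ^ N` for `‖h‖ ≤ r / 2`. -/
theorem taylor_van {p : C2} {f : C2 → ℂ} (hf : Differentiable ℂ f) (N : ℕ) :
    (fun z => f z - ∑ i ∈ Finset.range N, ∑ j ∈ Finset.range (N - i),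
      tc p f i j * ((z 0 - p 0) ^ i * (z 1 - p 1) ^ j)) ∈ Van N p := by
  obtain ⟨M, hM⟩ : ∃ M, ∀ z ∈ closedBall p 1, ‖f z‖ ≤ M :=
    (isCompact_closedBall p 1).exists_bound_of_continuousOn hf.continuous.continuousOn
  show (fun z => f z - ∑ i ∈ Finset.range N, ∑ j ∈ Finset.range (N - i),
      tc p f i j * ((z 0 - p 0) ^ i * (z 1 - p 1) ^ j)) =O[𝓝 p] fun z => ‖z - p‖ ^ N
  refine IsBigO.of_bound (2 * M + ∑ _j ∈ Finset.range N, 2 * M) ?_
  filter_upwards [closedBall_mem_nhds p (by norm_num : (0 : ℝ) < 1 / 2)] with z hz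
  rw [mem_closedBall, dist_eq_norm] at hz
  have hM0 : 0 ≤ M := (norm_nonneg _).trans (hM p (mem_closedBall_self zero_le_one))
  set a : ℂ := z 0 - p 0 with ha
  set b : ℂ := z 1 - p 1 with hb
  set ρ : ℝ := ‖z - p‖ with hρ
  have hρ0 : 0 ≤ ρ := norm_nonneg _
  have haρ : ‖a‖ ≤ ρ := norm_le_pi_norm (z - p) 0
  have hbρ : ‖b‖ ≤ ρ := norm_le_pi_norm (z - p) 1
  have hfz : f z = f ![p 0 + a, p 1 + b] := by
    rw [ha, hb, VanB_eq]
  have hswap : ∑ i ∈ Finset.range N, ∑ j ∈ Finset.range (N - i), tc p f i j * (a ^ i * b ^ j) =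
      ∑ j ∈ Finset.range N, (∑ i ∈ Finset.range (N - j), tc p f i j * a ^ i) * b ^ j := by
    rw [Finset.sum_comm' (s := Finset.range N) (t := fun i => Finset.range (N - i))
      (t' := Finset.range N) (s' := fun j => Finset.range (N - j))]
    · refine Finset.sum_congr rfl fun j _ => ?_
      rw [Finset.sum_mul]
      refine Finset.sum_congr rfl fun i _ => ?_
      ring
    · intro i j
      simp only [Finset.mem_range]
      omega
  have h1 := VanB_rem (VanB_slice hf p a) (r := 1) (M := M) one_pos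
    (fun b hb => hM _ (VanB_ball (haρ.trans (hz.trans (by norm_num))) hb)) N (b := b)
    (hbρ.trans hz)
  have h2 : ∀ j ∈ Finset.range N, ‖(VanB_c p f j a -
      ∑ i ∈ Finset.range (N - j), tc p f i j * a ^ i) * b ^ j‖ ≤ 2 * M * ρ ^ N := by
    intro j hj
    rw [Finset.mem_range] at hj
    have h3 := VanB_rem (VanB_cdiff hf p j) (r := 1) (M := M) one_pos
      (fun a ha => by
        have h4 := VanB_cnorm hf one_pos hM j a ha
        rwa [one_pow, div_one] at h4) (N - j) (b := a) (haρ.trans hz)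
    rw [norm_mul, norm_pow]
    calc ‖VanB_c p f j a - ∑ i ∈ Finset.range (N - j), tc p f i j * a ^ i‖ * ‖b‖ ^ j
        ≤ 2 * M * (‖a‖ / 1) ^ (N - j) * ‖b‖ ^ j :=
          mul_le_mul_of_nonneg_right h3 (pow_nonneg (norm_nonneg _) _)
      _ ≤ 2 * M * ρ ^ (N - j) * ρ ^ j := by
          rw [div_one]
          gcongr
      _ = 2 * M * ρ ^ N := by
          rw [mul_assoc, ← pow_add, Nat.sub_add_cancel hj.le]
  have h5 : f z - ∑ j ∈ Finset.range N, (∑ i ∈ Finset.range (N - j), tc p f i j * a ^ i) * b ^ j =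
      (f ![p 0 + a, p 1 + b] - ∑ j ∈ Finset.range N, VanB_c p f j a * b ^ j) +
        ∑ j ∈ Finset.range N, (VanB_c p f j a -
          ∑ i ∈ Finset.range (N - j), tc p f i j * a ^ i) * b ^ j := by
    simp only [sub_mul, Finset.sum_sub_distrib]
    rw [hfz]
    ring
  rw [hswap, h5, norm_pow, norm_norm, add_mul, Finset.sum_mul]
  refine (norm_add_le _ _).trans (add_le_add ?_ ?_)
  · refine h1.trans ?_
    rw [div_one]
    gcongr
  · exact norm_sum_le_of_le _ h2

private theorem VanB_tc_zero {p : C2} {f : C2 → ℂ} (hf : Differentiable ℂ f) {N : ℕ}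
    (h : f ∈ Van N p) (i j : ℕ) (hij : i + j < N) : tc p f i j = 0 := by
  have h1 : f =O[𝓝 p] fun z => ‖z - p‖ ^ N := h
  obtain ⟨C, hC0, hC⟩ := h1.exists_pos
  obtain ⟨R, hR, hball⟩ := Metric.mem_nhds_iff.1 hC.bound
  have h2 : ∀ r : ℝ, 0 < r → r < R → ‖tc p f i j‖ ≤ C * r ^ (N - (i + j)) := by
    intro r hr hrR
    have h3 : ∀ z ∈ closedBall p r, ‖f z‖ ≤ C * r ^ N := by
      intro z hz
      have h4 : ‖f z‖ ≤ C * ‖‖z - p‖ ^ N‖ := hball (closedBall_subset_ball hrR hz)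
      rw [norm_pow, norm_norm] at h4
      rw [mem_closedBall, dist_eq_norm] at hz
      refine h4.trans ?_
      gcongr
    refine (tc_norm_le hf hr h3 i j).trans (le_of_eq ?_)
    have h5 : r ^ N = r ^ (N - (i + j)) * r ^ (i + j) := by
      rw [← pow_add, Nat.sub_add_cancel hij.le]
    have h6 : r ^ (i + j) ≠ 0 := (pow_pos hr _).ne'
    rw [h5]
    field_simp
  have h7 : Tendsto (fun r : ℝ => C * r ^ (N - (i + j))) (𝓝[>] 0) (𝓝 0) := by
    have h8 : Continuous fun r : ℝ => C * r ^ (N - (i + j)) := by fun_prop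
    have h9 := h8.tendsto 0
    rw [zero_pow (by omega), mul_zero] at h9
    exact h9.mono_left nhdsWithin_le_nhds
  have h10 : ‖tc p f i j‖ ≤ 0 := by
    refine ge_of_tendsto h7 ?_
    filter_upwards [Ioo_mem_nhdsGT hR] with r hr
    exact h2 r hr.1 hr.2
  exact norm_le_zero_iff.1 h10

/-- `Van N p` in terms of Taylor coefficients.
PROOF: `←` is `taylor_van`.  `→`: the polynomial `∑_{i+j<N} tc i j h₀ ^ i h₁ ^ j` is `O(‖h‖ ^ N)`; restrict to
lines `h = t v`: all homogeneous parts vanish at all `v`, so all coefficients are zero.  Or: Cauchy estimate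
on the closed ball of radius `r → 0`. -/
theorem mem_van_iff {p : C2} {f : C2 → ℂ} (hf : Differentiable ℂ f) (N : ℕ) :
    f ∈ Van N p ↔ ∀ i j, i + j < N → tc p f i j = 0 := by
  constructor
  · intro h i j hij
    exact VanB_tc_zero hf h i j hij
  · intro h
    have h1 := taylor_van hf N (p := p)
    have h2 : (fun z => f z - ∑ i ∈ Finset.range N, ∑ j ∈ Finset.range (N - i),
        tc p f i j * ((z 0 - p 0) ^ i * (z 1 - p 1) ^ j)) = f := by
      funext z
      rw [Finset.sum_eq_zero, sub_zero]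
      intro i hi
      refine Finset.sum_eq_zero fun j hj => ?_
      rw [Finset.mem_range] at hi hj
      rw [h i j (by omega), zero_mul]
    rwa [h2] at h1

private theorem VanB_zero {g : ℂ → ℂ} (hg : Differentiable ℂ g)
    (h : ∀ n, iteratedDeriv n g 0 / (n.factorial : ℂ) = 0) (b : ℂ) : g b = 0 := by
  have h1 := VanB_sum hg b
  have h2 : (fun n : ℕ => iteratedDeriv n g 0 / (n.factorial : ℂ) * b ^ n) = fun _ => 0 := by
    funext n
    rw [h n, zero_mul]
  rw [h2] at h1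
  exact h1.unique hasSum_zero

/-- If all Taylor coefficients vanish, `f = 0`. -/
theorem exists_not_van {p : C2} {f : C2 → ℂ} (hf : Differentiable ℂ f) (h : f ≠ 0) :
    ∃ N, f ∉ Van N p := by
  by_contra hcon
  push Not at hcon
  apply h
  funext z
  have h1 : ∀ j a, VanB_c p f j a = 0 := by
    intro j a
    refine VanB_zero (VanB_cdiff hf p j) (fun i => ?_) a
    exact (mem_van_iff hf (i + j + 1)).1 (hcon _) i j (by omega)
  have h2 := VanB_zero (VanB_slice hf p (z 0 - p 0)) (fun j => h1 j _) (z 1 - p 1)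
  rw [VanB_eq] at h2
  exact h2

/-- Taylor coefficients of a function of parity `ε = ± 1` at `0`. -/
theorem tc_par {f : C2 → ℂ} {ε : ℂ} (hf : Differentiable ℂ f) (h : f ∈ Par ε) (i j : ℕ) :
    (-1) ^ (i + j) * tc 0 f i j = ε * tc 0 f i j := by
  have h0 : ∀ z, f (-z) = ε * f z := h
  have h1 : ∀ a, (-1) ^ j * VanB_c 0 f j (-a) = ε * VanB_c 0 f j a := by
    intro a
    have h2 : (fun b : ℂ => f ![(0 : C2) 0 + -a, (0 : C2) 1 + -b]) =
        fun b : ℂ => ε * f ![(0 : C2) 0 + a, (0 : C2) 1 + b] := by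
      funext b
      rw [← h0]
      congr 1
      funext k
      fin_cases k
      · show (0 : ℂ) + -a = -((0 : ℂ) + a)
        ring
      · show (0 : ℂ) + -b = -((0 : ℂ) + b)
        ring
    have h3 := iteratedDeriv_comp_neg j (fun b : ℂ => f ![(0 : C2) 0 + -a, (0 : C2) 1 + b]) 0
    rw [h2, iteratedDeriv_const_mul_field, neg_zero, smul_eq_mul] at h3
    rw [VanB_c, VanB_c, ← mul_div_assoc, ← mul_div_assoc, h3]
  have h4 : (fun a => (-1 : ℂ) ^ j * VanB_c 0 f j (-a)) = fun a => ε * VanB_c 0 f j a :=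
    funext h1
  have h5 := iteratedDeriv_comp_neg i (VanB_c 0 f j) 0
  rw [neg_zero, smul_eq_mul] at h5
  have h6 : iteratedDeriv i (fun a => (-1 : ℂ) ^ j * VanB_c 0 f j (-a)) 0 =
      iteratedDeriv i (fun a => ε * VanB_c 0 f j a) 0 := by rw [h4]
  rw [iteratedDeriv_const_mul_field, iteratedDeriv_const_mul_field, h5] at h6
  rw [VanB_tc, pow_add, ← mul_div_assoc, ← mul_div_assoc, ← h6]
  ring

end Q2T
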