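import Pool.Agent.H.MP_89f84f_ag.q2.VanC

set_option autoImplicit false

open Complex Topology Filter Asymptotics Metric Set Module

namespace Q2T

/-- The jet map on `W` with the coefficients in `I`. -/
private noncomputable def vanDMap (W : Submodule ℂ (C2 → ℂ)) (hW : W ≤ Ent) (p : C2) (I : Finset (ℕ × ℕ)) :
    W →ₗ[ℂ] (I → ℂ) where
  toFun f x := tc p (f : C2 → ℂ) x.1.1 x.1.2
  map_add' f g := by
    funext x
    exact tc_add (hW f.2) (hW g.2) _ _
  map_smul' c f := by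
    funext x
    exact tc_smul (hW f.2) c _ _

private theorem vanD_main (W : Submodule ℂ (C2 → ℂ)) [FiniteDimensional ℂ W] (hW : W ≤ Ent) (p : C2)
    (N : ℕ) (I : Finset (ℕ × ℕ)) (h1 : ∀ x ∈ I, x.1 + x.2 < N)
    (h2 : ∀ f ∈ W, ∀ i j, i + j < N → (i, j) ∉ I → tc p f i j = 0) :
    finrank ℂ W = finrank ℂ (W ⊓ Van N p : Submodule ℂ (C2 → ℂ)) +
      finrank ℂ (LinearMap.range (vanDMap W hW p I)) := by
  have hk : (LinearMap.ker (vanDMap W hW p I)).map W.subtype = W ⊓ Van N p := by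
    ext f
    constructor
    · rintro ⟨g, hg, rfl⟩
      refine ⟨g.2, ?_⟩
      show (g : C2 → ℂ) ∈ Van N p
      rw [mem_van_iff (hW g.2)]
      intro i j hij
      by_cases hI : (i, j) ∈ I
      · have := congrFun (LinearMap.mem_ker.mp hg) ⟨(i, j), hI⟩
        exact this
      · exact h2 _ g.2 i j hij hI
    · rintro ⟨hf, hv⟩
      refine ⟨⟨f, hf⟩, ?_, rfl⟩
      show (⟨f, hf⟩ : W) ∈ LinearMap.ker (vanDMap W hW p I)
      rw [LinearMap.mem_ker]
      funext x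
      exact (mem_van_iff (hW hf) N).mp hv _ _ (h1 x.1 x.2)
  have h3 := LinearMap.finrank_range_add_finrank_ker (vanDMap W hW p I)
  have h4 : finrank ℂ (W ⊓ Van N p : Submodule ℂ (C2 → ℂ)) = finrank ℂ (LinearMap.ker (vanDMap W hW p I)) := by
    rw [← hk]
    exact Submodule.finrank_map_subtype_eq _ _
  omega

private theorem vanD_le (W : Submodule ℂ (C2 → ℂ)) [FiniteDimensional ℂ W] (hW : W ≤ Ent) (p : C2)
    (N : ℕ) (I : Finset (ℕ × ℕ)) (h1 : ∀ x ∈ I, x.1 + x.2 < N)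
    (h2 : ∀ f ∈ W, ∀ i j, i + j < N → (i, j) ∉ I → tc p f i j = 0) :
    finrank ℂ W ≤ finrank ℂ (W ⊓ Van N p : Submodule ℂ (C2 → ℂ)) + I.card := by
  rw [vanD_main W hW p N I h1 h2]
  have h3 : finrank ℂ (LinearMap.range (vanDMap W hW p I)) ≤ finrank ℂ (I → ℂ) := Submodule.finrank_le _
  rw [Module.finrank_fintype_fun_eq_card, Fintype.card_coe] at h3
  omega

private theorem vanD_diff_mono (i j : ℕ) : Differentiable ℂ (fun z : C2 => (z 0 - (0 : C2) 0) ^ i * (z 1 - (0 : C2) 1) ^ j) := by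
  fun_prop

private theorem vanD_sum (S : Finset (ℕ × ℕ)) (c : ℕ × ℕ → ℂ) :
    Differentiable ℂ (∑ x ∈ S, c x • (fun z : C2 => (z 0 - (0 : C2) 0) ^ x.1 * (z 1 - (0 : C2) 1) ^ x.2)) ∧
      ∀ i j, tc 0 (∑ x ∈ S, c x • (fun z : C2 => (z 0 - (0 : C2) 0) ^ x.1 * (z 1 - (0 : C2) 1) ^ x.2)) i j =
        if (i, j) ∈ S then c (i, j) else 0 := by
  classical
  induction S using Finset.induction_on with
  | empty =>
    refine ⟨by simp, fun i j => ?_⟩
    have h0 := tc_smul (p := 0) (f := (0 : C2 → ℂ)) (differentiable_const 0) 0 i j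
    rw [zero_smul, zero_mul] at h0
    simpa using h0
  | insert a S ha ih =>
    rw [Finset.sum_insert ha]
    have hd : Differentiable ℂ (c a • (fun z : C2 => (z 0 - (0 : C2) 0) ^ a.1 * (z 1 - (0 : C2) 1) ^ a.2)) :=
      (vanD_diff_mono a.1 a.2).const_smul (c a)
    refine ⟨hd.add ih.1, fun i j => ?_⟩
    rw [tc_add hd ih.1, tc_smul (vanD_diff_mono a.1 a.2), tc_monomial, ih.2]
    by_cases h : (i, j) = a
    · have h' : i = a.1 ∧ j = a.2 := by
        rw [← h]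
        exact ⟨rfl, rfl⟩
      rw [if_pos h', if_neg (by rw [h]; exact ha), if_pos (by rw [h]; exact Finset.mem_insert_self _ _), h]
      ring
    · have h' : ¬ (i = a.1 ∧ j = a.2) := fun h'' => h (Prod.ext h''.1 h''.2)
      rw [if_neg h', mul_zero, zero_add]
      by_cases hS : (i, j) ∈ S
      · rw [if_pos hS, if_pos (Finset.mem_insert_of_mem hS)]
      · rw [if_neg hS, if_neg]
        intro h''
        rcases Finset.mem_insert.mp h'' with h'' | h''
        · exact h h''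
        · exact hS h''

private theorem vanD_eq (W : Submodule ℂ (C2 → ℂ)) [FiniteDimensional ℂ W] (hW : W ≤ Ent) (ε : ℂ)
    (N : ℕ) (I : Finset (ℕ × ℕ)) (h1 : ∀ x ∈ I, x.1 + x.2 < N)
    (h2 : ∀ f ∈ W, ∀ i j, i + j < N → (i, j) ∉ I → tc 0 f i j = 0)
    (h3 : ∀ x ∈ I, (-1 : ℂ) ^ (x.1 + x.2) = ε)
    (hs : ∀ g : C2 → ℂ, Differentiable ℂ g → g ∈ Par ε → ∃ f ∈ W, f - g ∈ Van N 0) :
    finrank ℂ W = finrank ℂ (W ⊓ Van N 0 : Submodule ℂ (C2 → ℂ)) + I.card := by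
  classical
  rw [vanD_main W hW 0 N I h1 h2]
  have hr : LinearMap.range (vanDMap W hW 0 I) = ⊤ := by
    rw [LinearMap.range_eq_top]
    intro c
    let c' : ℕ × ℕ → ℂ := fun x => if hx : x ∈ I then c ⟨x, hx⟩ else 0
    obtain ⟨hd, ht⟩ := vanD_sum I c'
    set g : C2 → ℂ := ∑ x ∈ I, c' x • (fun z : C2 => (z 0 - (0 : C2) 0) ^ x.1 * (z 1 - (0 : C2) 1) ^ x.2)
      with hg
    have hp : g ∈ Par ε := by
      rw [hg]
      refine Submodule.sum_mem _ fun x hx => Submodule.smul_mem _ _ ?_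
      intro z
      show ((-z) 0 - (0 : C2) 0) ^ x.1 * ((-z) 1 - (0 : C2) 1) ^ x.2 =
        ε * ((z 0 - (0 : C2) 0) ^ x.1 * (z 1 - (0 : C2) 1) ^ x.2)
      rw [← h3 x hx, pow_add]
      simp only [Pi.neg_apply, Pi.zero_apply, sub_zero]
      rw [neg_pow (z 0), neg_pow (z 1)]
      ring
    obtain ⟨f, hf, hfg⟩ := hs g hd hp
    refine ⟨⟨f, hf⟩, ?_⟩
    funext x
    show tc 0 f x.1.1 x.1.2 = c x
    have hdf : Differentiable ℂ f := hW hf
    have h5 := (mem_van_iff (hdf.sub hd) N).mp hfg x.1.1 x.1.2 (h1 x.1 x.2)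
    have h6 : tc 0 f x.1.1 x.1.2 = tc 0 (f - g) x.1.1 x.1.2 + tc 0 g x.1.1 x.1.2 := by
      rw [← tc_add (hdf.sub hd) hd, sub_add_cancel]
    rw [h6, h5, ht, zero_add, if_pos x.2]
    show (if hx : x.1 ∈ I then c ⟨x.1, hx⟩ else 0) = c x
    rw [dif_pos x.2]
  rw [hr, finrank_top, Module.finrank_fintype_fun_eq_card, Fintype.card_coe]

/-- The pairs `(i, j)` with `i + j = e m`, `m < n`. -/
private def vanDSet (e : ℕ → ℕ) (n : ℕ) : Finset (ℕ × ℕ) :=
  (Finset.range n).biUnion fun m => Finset.HasAntidiagonal.antidiagonal (e m)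

private theorem mem_vanDSet (e : ℕ → ℕ) (n : ℕ) (x : ℕ × ℕ) :
    x ∈ vanDSet e n ↔ ∃ m, m < n ∧ x.1 + x.2 = e m := by
  unfold vanDSet
  rw [Finset.mem_biUnion]
  constructor
  · rintro ⟨m, hm, hx⟩
    exact ⟨m, Finset.mem_range.mp hm, Finset.HasAntidiagonal.mem_antidiagonal.mp hx⟩
  · rintro ⟨m, hm, hx⟩
    exact ⟨m, Finset.mem_range.mpr hm, Finset.HasAntidiagonal.mem_antidiagonal.mpr hx⟩

private theorem card_vanDSet (e : ℕ → ℕ) (he : Function.Injective e) (n : ℕ) :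
    (vanDSet e n).card = ∑ m ∈ Finset.range n, (e m + 1) := by
  unfold vanDSet
  rw [Finset.card_biUnion]
  · exact Finset.sum_congr rfl fun m _ => Finset.Nat.card_antidiagonal _
  · intro a _ b _ hab
    show Disjoint (Finset.HasAntidiagonal.antidiagonal (e a)) (Finset.HasAntidiagonal.antidiagonal (e b))
    rw [Finset.disjoint_left]
    intro x hx hx'
    rw [Finset.HasAntidiagonal.mem_antidiagonal] at hx hx'
    exact hab (he (hx.symm.trans hx'))

private theorem vanD_card1 (N : ℕ) : (vanDSet (fun m => m) N).card = N * (N + 1) / 2 := by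
  rw [card_vanDSet _ (fun a b h => h)]
  have : (∑ m ∈ Finset.range N, (m + 1)) * 2 = N * (N + 1) := by
    induction N with
    | zero => simp
    | succ n ih =>
      rw [Finset.sum_range_succ, add_mul, ih]
      ring
  omega

private theorem vanD_card2 (k : ℕ) : (vanDSet (fun m => 2 * m) k).card = k ^ 2 := by
  rw [card_vanDSet _ (fun a b h => by simpa using h)]
  induction k with
  | zero => simp
  | succ n ih =>
    rw [Finset.sum_range_succ, ih]
    ring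

private theorem vanD_card3 (k : ℕ) : (vanDSet (fun m => 2 * m + 1) k).card = k * (k + 1) := by
  rw [card_vanDSet _ (fun a b h => by simpa using h)]
  induction k with
  | zero => simp
  | succ n ih =>
    rw [Finset.sum_range_succ, ih]
    ring

private theorem vanD_even (W : Submodule ℂ (C2 → ℂ)) (hW : W ≤ Ent) (hW' : W ≤ Par 1) (k : ℕ) :
    ∀ f ∈ W, ∀ i j, i + j < 2 * k → (i, j) ∉ vanDSet (fun m => 2 * m) k → tc 0 f i j = 0 := by
  intro f hf i j hij hn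
  have h := tc_par (hW hf) (hW' hf) i j
  rcases Nat.even_or_odd (i + j) with he | ho
  · exfalso
    apply hn
    rw [mem_vanDSet]
    obtain ⟨r, hr⟩ := he
    exact ⟨r, by omega, by show i + j = 2 * r; omega⟩
  · rw [ho.neg_one_pow] at h
    linear_combination (-1 / 2 : ℂ) * h

private theorem vanD_odd (W : Submodule ℂ (C2 → ℂ)) (hW : W ≤ Ent) (hW' : W ≤ Par (-1)) (k : ℕ) :
    ∀ f ∈ W, ∀ i j, i + j < 2 * k + 1 → (i, j) ∉ vanDSet (fun m => 2 * m + 1) k → tc 0 f i j = 0 := by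
  intro f hf i j hij hn
  have h := tc_par (hW hf) (hW' hf) i j
  rcases Nat.even_or_odd (i + j) with he | ho
  · rw [he.neg_one_pow] at h
    linear_combination (1 / 2 : ℂ) * h
  · exfalso
    apply hn
    rw [mem_vanDSet]
    obtain ⟨r, hr⟩ := ho
    exact ⟨r, by omega, by show i + j = 2 * r + 1; omega⟩

/-- Number of conditions: `N (N + 1) / 2` for order `N`. -/
theorem finrank_le_van (W : Submodule ℂ (C2 → ℂ)) [FiniteDimensional ℂ W] (hW : W ≤ Ent) (N : ℕ) (p : C2) :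
    finrank ℂ W ≤ finrank ℂ (W ⊓ Van N p : Submodule ℂ (C2 → ℂ)) + N * (N + 1) / 2 := by
  rw [← vanD_card1]
  refine vanD_le W hW p N _ ?_ ?_
  · intro x hx
    obtain ⟨m, hm, hx⟩ := (mem_vanDSet _ _ _).mp hx
    omega
  · intro f _ i j hij hn
    exact absurd ((mem_vanDSet _ _ _).mpr ⟨i + j, hij, rfl⟩) hn

/-- Even functions, order `2 k` at `0`: `k ^ 2` conditions (`1 + 3 + ... + (2 k - 1)`). -/
theorem finrank_le_van_even (W : Submodule ℂ (C2 → ℂ)) [FiniteDimensional ℂ W] (hW : W ≤ Ent)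
    (hW' : W ≤ Par 1) (k : ℕ) :
    finrank ℂ W ≤ finrank ℂ (W ⊓ Van (2 * k) 0 : Submodule ℂ (C2 → ℂ)) + k ^ 2 := by
  rw [← vanD_card2]
  refine vanD_le W hW 0 (2 * k) _ ?_ (vanD_even W hW hW' k)
  intro x hx
  obtain ⟨m, hm, hx⟩ := (mem_vanDSet _ _ _).mp hx
  omega

/-- Odd functions, order `2 k + 1` at `0`: `k (k + 1)` conditions (`2 + 4 + ... + 2 k`). -/
theorem finrank_le_van_odd (W : Submodule ℂ (C2 → ℂ)) [FiniteDimensional ℂ W] (hW : W ≤ Ent)
    (hW' : W ≤ Par (-1)) (k : ℕ) :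
    finrank ℂ W ≤ finrank ℂ (W ⊓ Van (2 * k + 1) 0 : Submodule ℂ (C2 → ℂ)) + k * (k + 1) := by
  rw [← vanD_card3]
  refine vanD_le W hW 0 (2 * k + 1) _ ?_ (vanD_odd W hW hW' k)
  intro x hx
  obtain ⟨m, hm, hx⟩ := (mem_vanDSet _ _ _).mp hx
  omega

/-- Equality if the jets of order `2 k` of all even entire functions are attained. -/
theorem finrank_eq_van_even (W : Submodule ℂ (C2 → ℂ)) [FiniteDimensional ℂ W] (hW : W ≤ Ent)
    (hW' : W ≤ Par 1) (k : ℕ)
    (hs : ∀ g : C2 → ℂ, Differentiable ℂ g → g ∈ Par 1 → ∃ f ∈ W, f - g ∈ Van (2 * k) 0) :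
    finrank ℂ W = finrank ℂ (W ⊓ Van (2 * k) 0 : Submodule ℂ (C2 → ℂ)) + k ^ 2 := by
  rw [← vanD_card2]
  refine vanD_eq W hW 1 (2 * k) _ ?_ (vanD_even W hW hW' k) ?_ hs
  · intro x hx
    obtain ⟨m, hm, hx⟩ := (mem_vanDSet _ _ _).mp hx
    omega
  · intro x hx
    obtain ⟨m, hm, hx⟩ := (mem_vanDSet _ _ _).mp hx
    rw [hx, pow_mul, neg_one_sq, one_pow]

/-- Equality if the jets of order `2 k + 1` of all odd entire functions are attained. -/
theorem finrank_eq_van_odd (W : Submodule ℂ (C2 → ℂ)) [FiniteDimensional ℂ W] (hW : W ≤ Ent)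
    (hW' : W ≤ Par (-1)) (k : ℕ)
    (hs : ∀ g : C2 → ℂ, Differentiable ℂ g → g ∈ Par (-1) → ∃ f ∈ W, f - g ∈ Van (2 * k + 1) 0) :
    finrank ℂ W = finrank ℂ (W ⊓ Van (2 * k + 1) 0 : Submodule ℂ (C2 → ℂ)) + k * (k + 1) := by
  rw [← vanD_card3]
  refine vanD_eq W hW (-1) (2 * k + 1) _ ?_ (vanD_odd W hW hW' k) ?_ hs
  · intro x hx
    obtain ⟨m, hm, hx⟩ := (mem_vanDSet _ _ _).mp hx
    omega
  · intro x hx
    obtain ⟨m, hm, hx⟩ := (mem_vanDSet _ _ _).mp hx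
    rw [hx, pow_succ, pow_mul, neg_one_sq, one_pow, one_mul]

/-- `r` point conditions. -/
theorem finrank_le_points (W : Submodule ℂ (C2 → ℂ)) [FiniteDimensional ℂ W] {r : ℕ} (x : Fin r → C2) :
    ∃ W' : Submodule ℂ (C2 → ℂ), W' ≤ W ∧ finrank ℂ W ≤ finrank ℂ W' + r ∧ ∀ f ∈ W', ∀ i, f (x i) = 0 := by
  let φ : W →ₗ[ℂ] (Fin r → ℂ) :=
    { toFun := fun f i => (f : C2 → ℂ) (x i)
      map_add' := fun f g => rfl
      map_smul' := fun c f => rfl }
  refine ⟨(LinearMap.ker φ).map W.subtype, ?_, ?_, ?_⟩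
  · rintro _ ⟨g, _, rfl⟩
    exact g.2
  · rw [Submodule.finrank_map_subtype_eq]
    have h3 := LinearMap.finrank_range_add_finrank_ker φ
    have h4 : finrank ℂ (LinearMap.range φ) ≤ finrank ℂ (Fin r → ℂ) := Submodule.finrank_le _
    rw [Module.finrank_fintype_fun_eq_card, Fintype.card_fin] at h4
    omega
  · rintro _ ⟨g, hg, rfl⟩ i
    exact congrFun (LinearMap.mem_ker.mp hg) i

end Q2T
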