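import Pool.Agent.H.MP_89f84f_ag.q2.Defs

set_option autoImplicit false

open Complex Topology Filter Asymptotics Metric Set Polynomial

namespace Q2T

/-- `F` is holomorphic near the closed bidisc of radii `ρ, r` and has no zero with `|w| = r`. -/
structure WReg (F : ℂ × ℂ → ℂ) (ρ r : ℝ) : Prop where
  hρ : 0 < ρ
  hr : 0 < r
  an : AnalyticOnNhd ℂ F (closedBall 0 ρ ×ˢ closedBall 0 r)
  ne : ∀ z w : ℂ, ‖z‖ ≤ ρ → ‖w‖ = r → F (z, w) ≠ 0

/-- Finitely many zeros. -/
private theorem wpA_finite {f : ℂ → ℂ} {r : ℝ} (hr : 0 < r)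
    (hf : AnalyticOnNhd ℂ f (closedBall 0 r)) (hne : ∀ w : ℂ, ‖w‖ = r → f w ≠ 0) :
    {w ∈ closedBall (0 : ℂ) r | f w = 0}.Finite := by
  by_contra hinf
  obtain ⟨x, hx, hacc⟩ := Set.Infinite.exists_accPt_of_subset_isCompact hinf
    (isCompact_closedBall 0 r) (fun w hw => hw.1)
  have h1 : ∃ᶠ z in 𝓝[≠] x, f z = 0 := by
    rw [accPt_iff_frequently_nhdsNE] at hacc
    exact hacc.mono fun z hz => hz.2
  have h2 := hf.eqOn_zero_of_preconnected_of_frequently_eq_zero
    (convex_closedBall 0 r).isPreconnected hx h1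
  have h3 : ‖(r : ℂ)‖ = r := by
    rw [Complex.norm_real, Real.norm_eq_abs, abs_of_pos hr]
  exact hne r h3 (h2 (by rw [mem_closedBall, dist_zero_right, h3]))

/-- Splitting off the zeros. -/
private theorem wpA_factor {r : ℝ} (hr : 0 < r) (n : ℕ) : ∀ f : ℂ → ℂ,
    AnalyticOnNhd ℂ f (closedBall 0 r) → (∀ w : ℂ, ‖w‖ = r → f w ≠ 0) →
    {w ∈ closedBall (0 : ℂ) r | f w = 0}.ncard = n →
    ∃ (Z : Multiset ℂ) (u : ℂ → ℂ), (∀ w ∈ Z, ‖w‖ < r) ∧ AnalyticOnNhd ℂ u (closedBall 0 r) ∧
      (∀ w ∈ closedBall (0 : ℂ) r, u w ≠ 0) ∧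
      ∀ w, f w = (Z.map fun w' => w - w').prod * u w := by
  classical
  induction n with
  | zero =>
    intro f hf hne hcard
    rw [ncard_eq_zero (wpA_finite hr hf hne)] at hcard
    refine ⟨0, f, by simp, hf, fun w hw h => ?_, by simp⟩
    have : w ∈ {w ∈ closedBall (0 : ℂ) r | f w = 0} := ⟨hw, h⟩
    rw [hcard] at this
    exact this
  | succ n ih =>
    intro f hf hne hcard
    have hfin := wpA_finite hr hf hne
    obtain ⟨a, ha, hfa⟩ : {w ∈ closedBall (0 : ℂ) r | f w = 0}.Nonempty := by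
      rw [← ncard_pos hfin, hcard]
      exact Nat.succ_pos n
    have har : ‖a‖ < r := by
      rw [mem_closedBall, dist_zero_right] at ha
      exact lt_of_le_of_ne ha fun h => hne a h hfa
    have hnev : ¬ ∀ᶠ z in 𝓝 a, f z = 0 := by
      intro hev
      have h2 := hf.eqOn_zero_of_preconnected_of_eventuallyEq_zero
        (convex_closedBall 0 r).isPreconnected ha hev
      have h3 : ‖(r : ℂ)‖ = r := by
        rw [Complex.norm_real, Real.norm_eq_abs, abs_of_pos hr]
      exact hne r h3 (h2 (by rw [mem_closedBall, dist_zero_right, h3]))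
    obtain ⟨m, g, hg, hg0, hfg⟩ := (hf a ha).exists_eventuallyEq_pow_smul_nonzero_iff.2 hnev
    have hm : m ≠ 0 := by
      rintro rfl
      have := hfg.self_of_nhds
      rw [hfa, pow_zero, one_smul] at this
      exact hg0 this.symm
    set f₁ : ℂ → ℂ := fun w => if w = a then g a else f w / (w - a) ^ m with hf₁
    have h1a : f₁ =ᶠ[𝓝 a] g := by
      filter_upwards [hfg] with w hw
      rw [hf₁]
      by_cases hwa : w = a
      · simp only [hwa, if_true]
      · simp only [hwa, if_false]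
        rw [hw, smul_eq_mul, mul_div_cancel_left₀ _ (pow_ne_zero m (sub_ne_zero.2 hwa))]
    have h1b : ∀ w, w ≠ a → f₁ =ᶠ[𝓝 w] fun w => f w / (w - a) ^ m := by
      intro w hw
      filter_upwards [isOpen_ne.mem_nhds hw] with x hx
      exact if_neg hx
    have h1c : ∀ w, f w = (w - a) ^ m * f₁ w := by
      intro w
      rw [hf₁]
      by_cases hwa : w = a
      · simp only [hwa, if_true]
        rw [hfa, sub_self, zero_pow hm, zero_mul]
      · simp only [hwa, if_false]
        rw [mul_div_cancel₀ _ (pow_ne_zero m (sub_ne_zero.2 hwa))]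
    have h1an : AnalyticOnNhd ℂ f₁ (closedBall 0 r) := by
      intro w hw
      by_cases hwa : w = a
      · rw [hwa]
        exact hg.congr h1a.symm
      · refine AnalyticAt.congr ?_ (h1b w hwa).symm
        refine (hf w hw).div ((analyticAt_id.sub analyticAt_const).pow m) ?_
        exact pow_ne_zero m (sub_ne_zero.2 hwa)
    have h1ne : ∀ w : ℂ, ‖w‖ = r → f₁ w ≠ 0 := by
      intro w hw h
      apply hne w hw
      rw [h1c w, h, mul_zero]
    have hset : {w ∈ closedBall (0 : ℂ) r | f₁ w = 0} =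
        {w ∈ closedBall (0 : ℂ) r | f w = 0} \ {a} := by
      ext w
      constructor
      · rintro ⟨hw, h⟩
        refine ⟨⟨hw, by rw [h1c w, h, mul_zero]⟩, ?_⟩
        intro hwa
        rw [mem_singleton_iff] at hwa
        rw [hf₁] at h
        simp only [hwa, if_true] at h
        exact hg0 h
      · rintro ⟨⟨hw, h⟩, hwa⟩
        refine ⟨hw, ?_⟩
        rw [h1c w] at h
        exact (mul_eq_zero.1 h).resolve_left (pow_ne_zero m (sub_ne_zero.2 hwa))
    have hcard1 : {w ∈ closedBall (0 : ℂ) r | f₁ w = 0}.ncard = n := by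
      have hmem : a ∈ {w ∈ closedBall (0 : ℂ) r | f w = 0} := ⟨ha, hfa⟩
      rw [hset, ncard_sdiff_singleton_of_mem hmem, hcard]
      rfl
    obtain ⟨Z, u, hZ, hu, hu0, hfu⟩ := ih f₁ h1an h1ne hcard1
    refine ⟨Multiset.replicate m a + Z, u, ?_, hu, hu0, ?_⟩
    · intro w hw
      rw [Multiset.mem_add] at hw
      rcases hw with hw | hw
      · rw [Multiset.eq_of_mem_replicate hw]
        exact har
      · exact hZ w hw
    · intro w
      rw [Multiset.map_add, Multiset.prod_add, Multiset.map_replicate, Multiset.prod_replicate,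
        mul_assoc, ← hfu, ← h1c]

private theorem wpA_prod_an (Z : Multiset ℂ) (w : ℂ) :
    AnalyticAt ℂ (fun w => (Z.map fun w' => w - w').prod) w := by
  induction Z using Multiset.induction_on with
  | empty =>
    simp only [Multiset.map_zero, Multiset.prod_zero]
    exact analyticAt_const
  | cons a Z ih =>
    simp only [Multiset.map_cons, Multiset.prod_cons]
    exact (analyticAt_id.sub analyticAt_const).mul ih

private theorem wpA_prod_ne {r : ℝ} {Z : Multiset ℂ} (hZ : ∀ w ∈ Z, ‖w‖ < r) {w : ℂ}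
    (hw : ‖w‖ = r) : (Z.map fun w' => w - w').prod ≠ 0 := by
  refine Multiset.prod_ne_zero fun h => ?_
  rw [Multiset.mem_map] at h
  obtain ⟨w', hw', h⟩ := h
  have := hZ w' hw'
  rw [sub_eq_zero.1 h] at hw
  exact absurd hw this.ne

/-- Cauchy's formula for the logarithmic derivative. -/
private theorem wpA_cauchy {r : ℝ} (hr : 0 < r) {t u : ℂ → ℂ}
    (ht : AnalyticOnNhd ℂ t (closedBall 0 r)) (hu : AnalyticOnNhd ℂ u (closedBall 0 r))
    (hu0 : ∀ w ∈ closedBall (0 : ℂ) r, u w ≠ 0) (Z : Multiset ℂ) (hZ : ∀ w ∈ Z, ‖w‖ < r) :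
    (∮ w in C(0, r), t w * logDeriv (fun w => (Z.map fun w' => w - w').prod * u w) w) =
      (2 * Real.pi * I) * (Z.map t).sum := by
  induction Z using Multiset.induction_on with
  | empty =>
    simp only [Multiset.map_zero, Multiset.prod_zero, one_mul, Multiset.sum_zero, mul_zero]
    refine DiffContOnCl.circleIntegral_eq_zero hr.le ?_
    refine DifferentiableOn.diffContOnCl ?_
    refine DifferentiableOn.mono ?_ closure_ball_subset_closedBall
    intro w hw
    have h1 : AnalyticAt ℂ (fun w => t w * logDeriv u w) w := by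
      refine (ht w hw).mul ?_
      exact (hu w hw).deriv.div (hu w hw) (hu0 w hw)
    exact h1.differentiableAt.differentiableWithinAt
  | cons a Z ih =>
    have hZ' : ∀ w ∈ Z, ‖w‖ < r := fun w hw => hZ w (Multiset.mem_cons_of_mem hw)
    have ha : ‖a‖ < r := hZ a (Multiset.mem_cons_self a Z)
    have ih' := ih hZ'
    set P : ℂ → ℂ := fun w => (Z.map fun w' => w - w').prod * u w with hP
    have hsub : sphere (0 : ℂ) r ⊆ closedBall 0 r := sphere_subset_closedBall
    have hPan : AnalyticOnNhd ℂ P (closedBall 0 r) := fun w hw =>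
      (wpA_prod_an Z w).mul (hu w hw)
    have hPne : ∀ w ∈ sphere (0 : ℂ) r, P w ≠ 0 := by
      intro w hw
      rw [mem_sphere_zero_iff_norm] at hw
      refine mul_ne_zero (wpA_prod_ne hZ' hw) (hu0 w ?_)
      rw [mem_closedBall, dist_zero_right, hw]
    have hane : ∀ w ∈ sphere (0 : ℂ) r, w - a ≠ 0 := by
      intro w hw h
      rw [mem_sphere_zero_iff_norm, sub_eq_zero.1 h] at hw
      exact absurd hw ha.ne
    have h1 : EqOn (fun w => t w * logDeriv
        (fun w => ((a ::ₘ Z).map fun w' => w - w').prod * u w) w)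
        (fun w => (w - a)⁻¹ • t w + t w * logDeriv P w) (sphere 0 r) := by
      intro w hw
      have h2 : (fun w => ((a ::ₘ Z).map fun w' => w - w').prod * u w) =
          fun w => (w - a) * P w := by
        funext w
        rw [Multiset.map_cons, Multiset.prod_cons, mul_assoc]
      have h3 : logDeriv (fun w : ℂ => w - a) w = (w - a)⁻¹ := by
        rw [logDeriv_apply, deriv_sub_const, deriv_id'', one_div]
      have h4 : DifferentiableAt ℂ (fun w : ℂ => w - a) w :=
        differentiableAt_id.sub_const a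
      show t w * logDeriv (fun w => ((a ::ₘ Z).map fun w' => w - w').prod * u w) w =
        (w - a)⁻¹ • t w + t w * logDeriv P w
      rw [h2, logDeriv_mul w (hane w hw) (hPne w hw) h4
        (hPan w (hsub hw)).differentiableAt, h3, smul_eq_mul]
      ring
    have hc1 : ContinuousOn (fun w : ℂ => (w - a)⁻¹ • t w) (sphere 0 r) := by
      intro w hw
      have h5 : AnalyticAt ℂ (fun w : ℂ => (w - a)⁻¹ * t w) w :=
        ((analyticAt_id.sub analyticAt_const).inv (hane w hw)).mul (ht w (hsub hw))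
      exact h5.continuousAt.continuousWithinAt
    have hc2 : ContinuousOn (fun w : ℂ => t w * logDeriv P w) (sphere 0 r) := by
      intro w hw
      have h5 : AnalyticAt ℂ (fun w => t w * logDeriv P w) w := by
        refine (ht w (hsub hw)).mul ?_
        exact (hPan w (hsub hw)).deriv.div (hPan w (hsub hw)) (hPne w hw)
      exact h5.continuousAt.continuousWithinAt
    rw [circleIntegral.integral_congr hr.le h1, circleIntegral.integral_add
      (hc1.circleIntegrable hr.le) (hc2.circleIntegrable hr.le), ih']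
    have h6 : (∮ w in C(0, r), (w - a)⁻¹ • t w) = (2 * Real.pi * I : ℂ) • t a := by
      refine DifferentiableOn.circleIntegral_sub_inv_smul ?_ ?_
      · exact fun w hw => (ht w hw).differentiableAt.differentiableWithinAt
      · rw [mem_ball, dist_zero_right]
        exact ha
    rw [h6, Multiset.map_cons, Multiset.sum_cons, smul_eq_mul]
    ring

/-- Holomorphy of a circle integral in a parameter. -/
private theorem wpA_param {Φ : ℂ × ℂ → ℂ} {ρ r : ℝ} (hr : 0 < r)
    (hΦ : AnalyticOnNhd ℂ Φ (closedBall 0 ρ ×ˢ sphere 0 r)) :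
    DifferentiableOn ℂ (fun z => ∮ w in C(0, r), Φ (z, w)) (ball 0 ρ) := by
  intro z₀ hz₀
  refine DifferentiableAt.differentiableWithinAt ?_
  have hmem : ∀ z ∈ ball (0 : ℂ) ρ, ∀ θ : ℝ, (z, circleMap 0 r θ) ∈
      closedBall (0 : ℂ) ρ ×ˢ sphere (0 : ℂ) r := fun z hz θ =>
    ⟨ball_subset_closedBall hz, circleMap_mem_sphere 0 hr.le θ⟩
  have hdc : Continuous fun θ : ℝ => deriv (circleMap 0 r) θ := by
    have : (fun θ : ℝ => deriv (circleMap 0 r) θ) = fun θ => circleMap 0 r θ * I := by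
      funext θ
      exact deriv_circleMap _ _ _
    rw [this]
    exact (continuous_circleMap _ _).mul continuous_const
  have hcurve : ∀ z : ℂ, Continuous fun θ : ℝ => (z, circleMap 0 r θ) := fun z =>
    continuous_const.prodMk (continuous_circleMap _ _)
  have hΦc : ∀ z ∈ ball (0 : ℂ) ρ, Continuous fun θ : ℝ => Φ (z, circleMap 0 r θ) :=
    fun z hz => hΦ.continuousOn.comp_continuous (hcurve z) (hmem z hz)
  have hD : ContinuousOn (fderiv ℂ Φ) (closedBall 0 ρ ×ˢ sphere 0 r) := hΦ.fderiv.continuousOn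
  have hDc : ∀ z ∈ ball (0 : ℂ) ρ, Continuous fun θ : ℝ =>
      fderiv ℂ Φ (z, circleMap 0 r θ) ((1 : ℂ), (0 : ℂ)) :=
    fun z hz => (hD.comp_continuous (hcurve z) (hmem z hz)).clm_apply continuous_const
  obtain ⟨M, hM⟩ := ((isCompact_closedBall (0 : ℂ) ρ).prod
    (isCompact_sphere (0 : ℂ) r)).exists_bound_of_continuousOn hD
  have key := (intervalIntegral.hasDerivAt_integral_of_dominated_loc_of_deriv_le
    (μ := MeasureTheory.volume) (a := 0) (b := 2 * Real.pi) (x₀ := z₀)
    (F := fun (z : ℂ) (θ : ℝ) => deriv (circleMap 0 r) θ • Φ (z, circleMap 0 r θ))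
    (F' := fun (z : ℂ) (θ : ℝ) => deriv (circleMap 0 r) θ •
      fderiv ℂ Φ (z, circleMap 0 r θ) ((1 : ℂ), (0 : ℂ)))
    (bound := fun _ => r * (M * 1))
    (isOpen_ball.mem_nhds hz₀) ?_ ?_ ?_ ?_ ?_ ?_).2
  · exact key.differentiableAt
  · filter_upwards [isOpen_ball.mem_nhds hz₀] with z hz
    exact (hdc.smul (hΦc z hz)).aestronglyMeasurable
  · exact (hdc.smul (hΦc z₀ hz₀)).intervalIntegrable _ _
  · exact (hdc.smul (hDc z₀ hz₀)).aestronglyMeasurable
  · refine Eventually.of_forall fun θ _ z hz => ?_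
    have h1 : ‖deriv (circleMap 0 r) θ‖ = r := by
      rw [deriv_circleMap, norm_mul, norm_circleMap_zero, Complex.norm_I, mul_one,
        abs_of_pos hr]
    have h2 : ‖((1 : ℂ), (0 : ℂ))‖ ≤ 1 := by simp
    rw [norm_smul, h1]
    refine mul_le_mul_of_nonneg_left ?_ hr.le
    refine (ContinuousLinearMap.le_opNorm _ _).trans ?_
    exact mul_le_mul (hM _ (hmem z hz θ)) h2 (norm_nonneg _)
      ((norm_nonneg _).trans (hM _ (hmem z hz θ)))
  · exact intervalIntegrable_const
  · refine Eventually.of_forall fun θ _ z hz => ?_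
    have h1 : HasFDerivAt Φ (fderiv ℂ Φ (z, circleMap 0 r θ)) (z, circleMap 0 r θ) :=
      (hΦ _ (hmem z hz θ)).differentiableAt.hasFDerivAt
    have h2 : HasDerivAt (fun z : ℂ => (z, circleMap 0 r θ)) ((1 : ℂ), (0 : ℂ)) z :=
      (hasDerivAt_id z).prodMk (hasDerivAt_const z _)
    exact (h1.comp_hasDerivAt z h2).const_mul (deriv (circleMap 0 r) θ)

/-- The zeros of `F (z, ·)` in `|w| < r`, with multiplicity, as a multiset, and holomorphy of their symmetric sums.
PROOF: for fixed `z`, `w ↦ F (z, w)` has finitely many zeros in `|w| ≤ r` (none on the circle; not identically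
zero), and dividing by the factors `w - w'` one gets `F (z, w) = ∏ (w - w') * u w`, `u` analytic without zero on the
closed disc.  Then `∮ T (z, w) ∂_w F (z, w) / F (z, w) dw = 2 π i ∑ T (z, w')` over the circle `|w| = r`:
`∂_w F / F = ∑ 1 / (w - w') + u' / u`, Cauchy formula for the first terms, Cauchy-Goursat for the last.  The left side is
holomorphic in `z` (differentiation under the integral).  `T = 1`: the number of zeros is continuous and
integral, so constant on the disc `|z| < ρ`. -/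
theorem exists_zeros {F : ℂ × ℂ → ℂ} {ρ r : ℝ} (h : WReg F ρ r) :
    ∃ (μ : ℕ) (Z : ℂ → Multiset ℂ), (∀ z ∈ ball (0 : ℂ) ρ, Multiset.card (Z z) = μ ∧ (∀ w ∈ Z z, ‖w‖ < r) ∧
      ∃ u : ℂ → ℂ, AnalyticOnNhd ℂ u (closedBall 0 r) ∧ (∀ w ∈ closedBall (0 : ℂ) r, u w ≠ 0) ∧
        ∀ w ∈ closedBall (0 : ℂ) r, F (z, w) = ((Z z).map fun w' => w - w').prod * u w) ∧
      ∀ T : ℂ × ℂ → ℂ, AnalyticOnNhd ℂ T (closedBall 0 ρ ×ˢ closedBall 0 r) →
        DifferentiableOn ℂ (fun z => ((Z z).map fun w => T (z, w)).sum) (ball 0 ρ) := by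
  obtain ⟨hρ, hr, han, hne⟩ := h
  have hslice : ∀ (T : ℂ × ℂ → ℂ), AnalyticOnNhd ℂ T (closedBall 0 ρ ×ˢ closedBall 0 r) →
      ∀ z ∈ ball (0 : ℂ) ρ, AnalyticOnNhd ℂ (fun w => T (z, w)) (closedBall 0 r) := by
    intro T hT z hz w hw
    have h1 : AnalyticAt ℂ (fun w : ℂ => (z, w)) w := analyticAt_const.prod analyticAt_id
    exact (hT (z, w) ⟨ball_subset_closedBall hz, hw⟩).comp_of_eq h1 rfl
  have hfac : ∀ z : ℂ, ∃ Z : Multiset ℂ, z ∈ ball (0 : ℂ) ρ → (∀ w ∈ Z, ‖w‖ < r) ∧
      ∃ u : ℂ → ℂ, AnalyticOnNhd ℂ u (closedBall 0 r) ∧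
        (∀ w ∈ closedBall (0 : ℂ) r, u w ≠ 0) ∧
        ∀ w, F (z, w) = (Z.map fun w' => w - w').prod * u w := by
    intro z
    by_cases hz : z ∈ ball (0 : ℂ) ρ
    · obtain ⟨Z, u, hZ, hu, hu0, hfu⟩ := wpA_factor hr _ (fun w => F (z, w))
        (hslice F han z hz) (fun w hw => hne z w (by
          rw [mem_ball, dist_zero_right] at hz
          exact hz.le) hw) rfl
      exact ⟨Z, fun _ => ⟨hZ, u, hu, hu0, hfu⟩⟩
    · exact ⟨0, fun h => absurd h hz⟩
  choose Z hZ using hfac
  -- the sums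
  have hsum : ∀ T : ℂ × ℂ → ℂ, AnalyticOnNhd ℂ T (closedBall 0 ρ ×ˢ closedBall 0 r) →
      ∀ z ∈ ball (0 : ℂ) ρ, (∮ w in C(0, r), T (z, w) *
        (fderiv ℂ F (z, w) ((0 : ℂ), (1 : ℂ)) / F (z, w))) =
        (2 * Real.pi * I) * ((Z z).map fun w => T (z, w)).sum := by
    intro T hT z hz
    obtain ⟨hZr, u, hu, hu0, hfu⟩ := hZ z hz
    rw [← wpA_cauchy hr (hslice T hT z hz) hu hu0 (Z z) hZr]
    refine circleIntegral.integral_congr hr.le fun w hw => ?_
    have h1 : (fun w => ((Z z).map fun w' => w - w').prod * u w) = fun w => F (z, w) := by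
      funext w
      exact (hfu w).symm
    have h2 : HasFDerivAt F (fderiv ℂ F (z, w)) (z, w) :=
      (han (z, w) ⟨ball_subset_closedBall hz,
        sphere_subset_closedBall hw⟩).differentiableAt.hasFDerivAt
    have h3 : HasDerivAt (fun w : ℂ => (z, w)) ((0 : ℂ), (1 : ℂ)) w :=
      (hasDerivAt_const w z).prodMk (hasDerivAt_id w)
    have h4 : HasDerivAt (fun w : ℂ => F (z, w)) (fderiv ℂ F (z, w) ((0 : ℂ), (1 : ℂ))) w :=
      h2.comp_hasDerivAt w h3
    simp only [h1, logDeriv_apply, h4.deriv]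
  have hdiff : ∀ T : ℂ × ℂ → ℂ, AnalyticOnNhd ℂ T (closedBall 0 ρ ×ˢ closedBall 0 r) →
      DifferentiableOn ℂ (fun z => ((Z z).map fun w => T (z, w)).sum) (ball 0 ρ) := by
    intro T hT
    have hΦ : AnalyticOnNhd ℂ (fun q : ℂ × ℂ => T q *
        (fderiv ℂ F q ((0 : ℂ), (1 : ℂ)) / F q)) (closedBall 0 ρ ×ˢ sphere 0 r) := by
      rintro ⟨z, w⟩ ⟨hz, hw⟩
      have hq : (z, w) ∈ closedBall (0 : ℂ) ρ ×ˢ closedBall (0 : ℂ) r :=
        ⟨hz, sphere_subset_closedBall hw⟩
      have h1 : AnalyticAt ℂ (fun q : ℂ × ℂ => fderiv ℂ F q ((0 : ℂ), (1 : ℂ))) (z, w) :=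
        ((ContinuousLinearMap.apply ℂ ℂ ((0 : ℂ), (1 : ℂ))).analyticAt _).comp_of_eq
          (han _ hq).fderiv rfl
      refine (hT _ hq).mul (h1.div (han _ hq) (hne z w ?_ ?_))
      · simpa using hz
      · simpa using hw
    have h2 := (wpA_param hr hΦ).const_mul ((2 * Real.pi * I : ℂ)⁻¹)
    refine h2.congr fun z hz => ?_
    have h3 := hsum T hT z hz
    show _ = (2 * Real.pi * I : ℂ)⁻¹ * (∮ w in C(0, r), T (z, w) *
        (fderiv ℂ F (z, w) ((0 : ℂ), (1 : ℂ)) / F (z, w)))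
    rw [h3, inv_mul_cancel_left₀ two_pi_I_ne_zero]
  refine ⟨Multiset.card (Z 0), Z, fun z hz => ⟨?_, (hZ z hz).1, ?_⟩, hdiff⟩
  · have h1 := (hdiff (fun _ => 1) (fun _ _ => analyticAt_const)).continuousOn
    have h2 : ContinuousOn (fun z => ((Multiset.card (Z z) : ℕ) : ℝ)) (ball 0 ρ) := by
      have h3 := Complex.continuous_re.comp_continuousOn h1
      refine h3.congr fun z _ => ?_
      simp
    have h4 : ContinuousOn (fun z => Multiset.card (Z z)) (ball 0 ρ) :=
      Nat.isClosedEmbedding_coe_real.isEmbedding.isInducing.continuousOn_iff.2 h2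
    exact (convex_ball (0 : ℂ) ρ).isPreconnected.constant h4 hz (mem_ball_self hρ)
  · obtain ⟨_, u, hu, hu0, hfu⟩ := hZ z hz
    exact ⟨u, hu, hu0, fun w _ => hfu w⟩

end Q2T
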